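import Pool.Agent.Lib.MP_d439b2_co.RN.ClqA
import Pool.Agent.Lib.MP_d439b2_co.W.RamC

/-!
# MP_d439b2_co, RN/Clq: many pairwise disjoint cells contain many pairwise anticomplete ones (helper28; CLQ lemma of
helper90, note 3199 (A))

`CF G τ N L K e`: `N` pairwise disjoint sets `K i`, each with two lists of `L` letters `e i s a` (`s : Bool`: left or
right; `a < L`; the vertices `e i s a false`, `e i s a true` are adjacent), all together an induced matching, such that
every vertex outside `K i` with a neighbour in `K i` is complete to all letters of one of the two lists, except for at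
most `τ` letters.

`clq`: for all `m`, `τ` there are `N`, `L` such that in a graph without `K3:0,1,02` and `J_2` there are, for every such
family, `m` of the sets `K i` which are pairwise anticomplete.  `clqF`: so they do not touch pairwise.
-/

set_option autoImplicit false

namespace Pool.Agent.MPd439b2.RN

open Pool.Agent.MPd439b2 Pool.Agent.MPd439b2.H1T Pool.Agent.MPd439b2.H1R

variable {V : Type}

/-- a family of disjoint cells with their far letters -/
structure CF (G : SimpleGraph V) (τ N L : ℕ) (K : ℕ → Set V) (e : ℕ → Bool → ℕ → Bool → V) : Prop where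
  dis : ∀ i < N, ∀ j < N, i ≠ j → ∀ x ∈ K i, x ∉ K j
  mat : ∀ i < N, ∀ s, ∀ a < L, G.Adj (e i s a false) (e i s a true)
  ind : ∀ i < N, ∀ s s' a a' b b', a < L → a' < L → (s, a) ≠ (s', a') →
    e i s a b ≠ e i s' a' b' ∧ ¬ G.Adj (e i s a b) (e i s' a' b')
  ful : ∀ i < N, ∀ v, v ∉ K i → (∃ x ∈ K i, G.Adj v x) →
    ∃ (s : Bool) (E : Finset ℕ), E.card ≤ τ ∧ ∀ a < L, a ∉ E → ∀ b, G.Adj v (e i s a b)

namespace Clq

/-- outside a small exceptional set -/
theorem exc {t : ℕ → ℕ} {n M τ c : ℕ} (ht : ∀ k l, k < l → l < M → t k < t l) (hn : τ + 1 ≤ n) (hc : c + n ≤ M)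
    (E : Finset ℕ) (hE : E.card ≤ τ) : ∃ a < n, t (c + a) ∉ E := by
  by_contra hcon
  push Not at hcon
  have hinj : Set.InjOn (fun a => t (c + a)) (Finset.range n : Finset ℕ) := by
    intro a ha b hb hab
    rw [Finset.coe_range, Set.mem_Iio] at ha hb
    simp only at hab
    rcases lt_trichotomy a b with h | h | h
    · have := ht (c + a) (c + b) (by omega) (by omega)
      omega
    · exact h
    · have := ht (c + b) (c + a) (by omega) (by omega)
      omega
  have h1 : ((Finset.range n).image fun a => t (c + a)).card = n := by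
    rw [Finset.card_image_of_injOn hinj, Finset.card_range]
  have h2 : ((Finset.range n).image fun a => t (c + a)) ⊆ E := by
    intro y hy
    obtain ⟨a, ha, rfl⟩ := Finset.mem_image.1 hy
    exact hcon a (Finset.mem_range.1 ha)
  have := Finset.card_le_card h2
  omega

end Clq

/-- **The CLQ lemma.** -/
theorem clq (m τ : ℕ) : ∃ N L : ℕ, ∀ (V : Type) (G : SimpleGraph V), FH G → FJ 2 G →
    ∀ (K : ℕ → Set V) (e : ℕ → Bool → ℕ → Bool → V), CF G τ N L K e →
    ∃ r : ℕ → ℕ, (∀ k l, k < l → l < m → r k < r l) ∧ (∀ k < m, r k < N) ∧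
      ∀ k l, k < l → l < m → ∀ x ∈ K (r k), ∀ y ∈ K (r l), ¬ G.Adj x y := by
  classical
  obtain ⟨n, hn⟩ : ∃ n, n = τ + 3 := ⟨_, rfl⟩
  obtain ⟨N, hN⟩ := W.ramC ((Bool → Bool → Bool → Bool → Prop) × (Bool → Bool → Prop) × (Bool → Bool → Prop) × Prop)
    (m + 6)
  obtain ⟨L, hL⟩ := W.ramC ((Fin N × Bool × Bool × Fin N × Bool × Bool → Prop × Prop) ×
    (Fin N × Bool × Bool × Fin N → Prop)) (n * N + 1)
  refine ⟨N, L, fun V G hH hJ K e hF => ?_⟩
  -- the letters
  obtain ⟨t, c, ht, htL, htc⟩ := hL fun k l =>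
    (fun z => (G.Adj (e z.1 z.2.1 k z.2.2.1) (e z.2.2.2.1 z.2.2.2.2.1 l z.2.2.2.2.2),
      e z.1 z.2.1 k z.2.2.1 = e z.2.2.2.1 z.2.2.2.2.1 l z.2.2.2.2.2), fun z => e z.1 z.2.1 k z.2.2.1 ∈ K z.2.2.2)
  obtain ⟨c1, c2⟩ := c
  have hc1 : ∀ k l, k < l → l < n * N + 1 → ∀ (i j : Fin N) (s s' b b' : Bool),
      (G.Adj (e i s (t k) b) (e j s' (t l) b') ↔ (c1 (i, s, b, j, s', b')).1) ∧
      ((e i s (t k) b = e j s' (t l) b') ↔ (c1 (i, s, b, j, s', b')).2) := by
    intro k l hkl hl i j s s' b b'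
    have h1 := congrArg Prod.fst (htc k l hkl hl)
    have h2 := congrFun h1 (i, s, b, j, s', b')
    simp only at h2
    rw [← h2]
    exact ⟨Iff.rfl, Iff.rfl⟩
  have hc2 : ∀ k, k < n * N → ∀ (i j : Fin N) (s b : Bool), e i s (t k) b ∈ K j ↔ c2 (i, s, b, j) := by
    intro k hk i j s b
    have h1 := congrArg Prod.snd (htc k (k + 1) (Nat.lt_succ_self k) (by omega))
    have h2 := congrFun h1 (i, s, b, j)
    simp only at h2
    rw [← h2]
  obtain ⟨e1, he1⟩ : ∃ e1 : ℕ → Bool → ℕ → Bool → V, e1 = fun i s a b => e i s (t (n * i + a)) b := ⟨_, rfl⟩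
  have hb : ∀ i < N, ∀ a < n, n * i + a < n * N := by
    intro i hi a ha
    have := Nat.mul_le_mul_left n (show i + 1 ≤ N from hi)
    rw [Nat.mul_add, Nat.mul_one] at this
    omega
  have hb2 : ∀ i j, i < j → ∀ a < n, ∀ a' < n, n * i + a < n * j + a' := by
    intro i j hij a ha a' _
    have := Nat.mul_le_mul_left n (show i + 1 ≤ j from hij)
    rw [Nat.mul_add, Nat.mul_one] at this
    omega
  have hA : ∀ i j, i < j → j < N → ∀ s s' a a' b b', a < n → a' < n →
      (G.Adj (e1 i s a b) (e1 j s' a' b') ↔ G.Adj (e1 i s 0 b) (e1 j s' 0 b')) := by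
    intro i j hij hj s s' a a' b b' ha ha'
    have hi := hij.trans hj
    have h1 := (hc1 (n * i + a) (n * j + a') (hb2 i j hij a ha a' ha') (by have := hb j hj a' ha'; omega)
      ⟨i, hi⟩ ⟨j, hj⟩ s s' b b').1
    have h2 := (hc1 (n * i + 0) (n * j + 0) (hb2 i j hij 0 (by omega) 0 (by omega))
      (by have := hb j hj 0 (by omega); omega) ⟨i, hi⟩ ⟨j, hj⟩ s s' b b').1
    rw [he1]
    exact h1.trans h2.symm
  have hB : ∀ i j, i < j → j < N → ∀ s s' a a' b b', a < n → a' < n → e1 i s a b ≠ e1 j s' a' b' := by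
    intro i j hij hj s s' a a' b b' ha ha' heq
    have hi := hij.trans hj
    rw [he1] at heq
    have h1 := (hc1 (n * i + a) (n * j + a') (hb2 i j hij a ha a' ha') (by have := hb j hj a' ha'; omega)
      ⟨i, hi⟩ ⟨j, hj⟩ s s' b b').2.1 heq
    have h3 : 2 < n * N := by
      have := hb j hj 2 (by omega)
      omega
    have h4 := (hc1 0 1 (by omega) (by omega) ⟨i, hi⟩ ⟨j, hj⟩ s s' b b').2.2 h1
    have h5 := (hc1 0 2 (by omega) (by omega) ⟨i, hi⟩ ⟨j, hj⟩ s s' b b').2.2 h1
    have h6 := ht 1 2 (by omega) (by omega)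
    refine (hF.ind j hj s' s' (t 1) (t 2) b' b' (htL 1 (by omega)) (htL 2 (by omega)) ?_).1 (h4.symm.trans h5)
    intro h7
    have := (Prod.mk.inj h7).2
    omega
  have hC : ∀ i < N, ∀ j < N, ∀ s a b, a < n → (e1 i s a b ∈ K j ↔ e1 i s 0 b ∈ K j) := by
    intro i hi j hj s a b ha
    rw [he1]
    exact (hc2 (n * i + a) (hb i hi a ha) ⟨i, hi⟩ ⟨j, hj⟩ s b).trans
      (hc2 (n * i + 0) (hb i hi 0 (by omega)) ⟨i, hi⟩ ⟨j, hj⟩ s b).symm
  -- the cells
  obtain ⟨r, d, hr, hrN, hrd⟩ := hN fun k l =>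
    (fun s s' b b' => G.Adj (e1 k s 0 b) (e1 l s' 0 b'), fun s b => e1 k s 0 b ∈ K l, fun s b => e1 l s 0 b ∈ K k,
      ∃ x ∈ K k, ∃ y ∈ K l, G.Adj x y)
  obtain ⟨d1, d2, d3, d4⟩ := d
  by_cases hd4 : d4
  · exfalso
    have hd1 : ∀ k l, k < l → l < m + 6 → ∀ s s' b b', (G.Adj (e1 (r k) s 0 b) (e1 (r l) s' 0 b') ↔ d1 s s' b b') := by
      intro k l hkl hl s s' b b'
      have h1 := congrArg Prod.fst (hrd k l hkl hl)
      have h2 := congrFun (congrFun (congrFun (congrFun h1 s) s') b) b'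
      simp only at h2
      rw [← h2]
    have hd3 : ∀ k l, k < l → l < m + 6 → ∀ s b, (e1 (r l) s 0 b ∈ K (r k) ↔ d3 s b) := by
      intro k l hkl hl s b
      have h1 := congrArg (fun z => z.2.2.1) (hrd k l hkl hl)
      have h2 := congrFun (congrFun h1 s) b
      simp only at h2
      rw [← h2]
    have hd4' : ∀ k l, k < l → l < m + 6 → ∃ x ∈ K (r k), ∃ y ∈ K (r l), G.Adj x y := by
      intro k l hkl hl
      have h1 := congrArg (fun z => z.2.2.2) (hrd k l hkl hl)
      simp only at h1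
      rw [h1]
      exact hd4
    -- no letter vertex of a later cell lies in an earlier one
    have hno : ∀ k l, k < l → l < m + 6 → ∀ s a b, a < n → e1 (r l) s a b ∉ K (r k) := by
      intro k l hkl hl s a b ha hmem
      rw [hC _ (hrN l hl) _ (hrN k (hkl.trans hl)) s a b ha, hd3 k l hkl hl s b] at hmem
      have h1 := (hd3 0 2 (by omega) (by omega) s b).2 hmem
      have h2 := (hd3 1 2 (by omega) (by omega) s b).2 hmem
      exact hF.dis _ (hrN 0 (by omega)) _ (hrN 1 (by omega)) (hr 0 1 (by omega) (by omega)).ne _ h1 h2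
    have hcln : Clq.Cln G (m + 6) n (fun k => e1 (r k)) fun s s' b b' => decide (d1 s s' b b') := by
      refine ⟨fun k hk s a ha => ?_, fun k hk s s' a a' b b' ha ha' hne => ?_,
        fun k l hkl hl s s' a a' b b' ha ha' => hB _ _ (hr k l hkl hl) (hrN l hl) s s' a a' b b' ha ha',
        fun k l hkl hl s s' a a' b b' ha ha' => ?_⟩
      · rw [he1]
        exact hF.mat _ (hrN k hk) s _ (htL _ (by have := hb _ (hrN k hk) a ha; omega))
      · rw [he1]
        have h1 := hb _ (hrN k hk) a ha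
        have h2 := hb _ (hrN k hk) a' ha'
        refine hF.ind _ (hrN k hk) s s' _ _ b b' (htL _ (by omega)) (htL _ (by omega)) fun h3 => hne ?_
        obtain ⟨h4, h5⟩ := Prod.mk.inj h3
        have h6 : a = a' := by
          rcases lt_trichotomy a a' with h7 | h7 | h7
          · have := ht (n * r k + a) (n * r k + a') (by omega) (by omega)
            omega
          · exact h7
          · have := ht (n * r k + a') (n * r k + a) (by omega) (by omega)
            omega
        rw [h4, h6]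
      · rw [hA _ _ (hr k l hkl hl) (hrN l hl) s s' a a' b b' ha ha', hd1 k l hkl hl s s' b b', decide_eq_true_iff]
    have hzero := fun s s' b b' => hcln.zero hH hJ (by omega) (by omega) s s' b b'
    obtain ⟨x, hx, y, hy, hxy⟩ := hd4' 0 1 (by omega) (by omega)
    have hr0 := hrN 0 (by omega)
    have hr1 := hrN 1 (by omega)
    have hr01 := hr 0 1 (by omega) (by omega)
    obtain ⟨s, E, hE, hfx⟩ := hF.ful _ hr1 x (hF.dis _ hr0 _ hr1 hr01.ne x hx) ⟨y, hy, hxy⟩
    obtain ⟨a, ha, haE⟩ := Clq.exc (n := n) (M := n * N + 1) (c := n * r 1) ht (by omega)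
      (by have := hb _ hr1 (n - 1) (by omega); omega) E hE
    have hva := hfx _ (htL _ (by have := hb _ hr1 a ha; omega)) haE false
    obtain ⟨s', E', hE', hfv⟩ := hF.ful _ hr0 (e1 (r 1) s a false) (hno 0 1 (by omega) (by omega) s a false ha)
      ⟨x, hx, by rw [he1]; exact hva.symm⟩
    obtain ⟨a', ha', haE'⟩ := Clq.exc (n := n) (M := n * N + 1) (c := n * r 0) ht (by omega)
      (by have := hb _ hr0 (n - 1) (by omega); omega) E' hE'
    have hvv := hfv _ (htL _ (by have := hb _ hr0 a' ha'; omega)) haE' false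
    have h1 := (hcln.cr 0 1 (by omega) (by omega) s' s a' a false false ha' ha).1 (by
      have : e1 (r 0) s' a' false = e (r 0) s' (t (n * r 0 + a')) false := by rw [he1]
      rw [this]
      exact hvv.symm)
    rw [hzero] at h1
    exact absurd h1 (by decide)
  · refine ⟨r, fun k l hkl hl => hr k l hkl (by omega), fun k hk => hrN k (by omega), ?_⟩
    intro k l hkl hl x hx y hy hxy
    have h1 := congrArg (fun z => z.2.2.2) (hrd k l hkl (by omega))
    simp only at h1
    exact hd4 (h1 ▸ ⟨x, hx, y, hy, hxy⟩)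

/-- the cells do not touch pairwise -/
theorem clqF (τ : ℕ) : ∃ N L : ℕ, ∀ (V : Type) (G : SimpleGraph V), FH G → FJ 2 G →
    ∀ (K : ℕ → Set V) (e : ℕ → Bool → ℕ → Bool → V), CF G τ N L K e →
    (∀ i < N, ∀ j < N, i < j → ∃ x ∈ K i, ∃ y ∈ K j, G.Adj x y) → False := by
  obtain ⟨N, L, h⟩ := clq 2 τ
  refine ⟨N, L, fun V G hH hJ K e hF ht => ?_⟩
  obtain ⟨r, h1, h2, h3⟩ := h V G hH hJ K e hF
  obtain ⟨x, hx, y, hy, hxy⟩ := ht _ (h2 0 (by omega)) _ (h2 1 (by omega)) (h1 0 1 (by omega) (by omega))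
  exact h3 0 1 (by omega) (by omega) x hx y hy hxy

end Pool.Agent.MPd439b2.RN
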