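import Pool.Agent.Lib.MP_d439b2_co.FT.Tgt
import Pool.Agent.Lib.MP_d439b2_co.X3.H1R.Base

/-!
# MP_d439b2_co, RN: engine for finite configurations of vertices with unknown adjacencies (helper38)

`refute`: `n ≤ 16` vertices; `A`: edges, `N`: non-edges, `D`: pairs of different vertices; `I`: partial tables
(edges, non-edges) which are excluded by hypothesis; `cs`: certificates (nogoods); `t`: a tree of case splits.
-/

set_option autoImplicit false

namespace Pool.Agent.MPd439b2.RN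

open Pool.Agent.MPd439b2 Pool.Agent.MPd439b2.H1T Pool.Agent.MPd439b2.H1R
open Pool.Agent.MPd439b2.BU
open Pool.Agent.MPd439b2.HC
open Pool.Agent.MPd439b2.FT (Mt)

variable {V : Type}

/-- the table of the vertices `x 0, .., x (n - 1)` -/
noncomputable def tb (G : SimpleGraph V) (x : ℕ → V) (b : ℕ) : Bool :=
  @decide (G.Adj (x (b / 16)) (x (b % 16))) (Classical.dec _)

theorem tb_iff {G : SimpleGraph V} {x : ℕ → V} {i j : ℕ} (hj : j < 16) :
    tb G x (16 * i + j) = true ↔ G.Adj (x i) (x j) := by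
  have h1 : (16 * i + j) / 16 = i := by omega
  have h2 : (16 * i + j) % 16 = j := by omega
  unfold tb
  rw [h1, h2]
  exact @decide_eq_true_iff _ (Classical.dec _)

theorem sp_pv {G : SimpleGraph V} {x : ℕ → V} {n : ℕ} (hn : n ≤ 16) (hx : ∀ i < n, ∀ j < i, x i ≠ x j) :
    SP G Set.univ n (fun p => {x p}) (fun p q => tb G x (16 * p + q)) := by
  refine ⟨fun _ _ => Set.subset_univ _, fun _ _ => Conn.singleton G _, fun p hp q hq => ?_,
    fun p hp q hq => ?_⟩
  · exact Set.disjoint_singleton.2 (hx p hp q hq)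
  · rw [tch_single, tb_iff (by omega)]

/-- the check of a nogood -/
def ckN (n p m k : ℕ) (q : ℕ → ℕ → Bool) (C : List (List ℕ)) : Bool :=
  Nat.beq C.length k && Eng.goodL n C.flatten &&
    C.all (Eng.connL fun a b => p.testBit (16 * a + b)) &&
    (List.range k).all fun i => (List.range i).all fun j =>
      bif q i j then Eng.tchL (fun a b => p.testBit (16 * a + b)) (C.getD i []) (C.getD j [])
      else !(Eng.tchL (fun a b => !(m.testBit (16 * a + b))) (C.getD i []) (C.getD j []))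

theorem ng {G : SimpleGraph V} {x : ℕ → V} {n p m k : ℕ} {q : ℕ → ℕ → Bool} {C : List (List ℕ)}
    (hn : n ≤ 16) (hx : ∀ i < n, ∀ j < i, x i ≠ x j) (hq : SPF G Set.univ k q)
    (hc : ckN n p m k q C = true) : ¬ Mt p m (tb G x) := by
  intro hF
  refine hq _ (chkG_sp (L := C) (sp_pv hn hx) ?_)
  simp only [ckN, Bool.and_eq_true, List.all_eq_true, List.mem_range] at hc
  obtain ⟨⟨⟨h1, h2⟩, h3⟩, h4⟩ := hc
  have hp : ∀ a b, p.testBit (16 * a + b) = true → tb G x (16 * a + b) = true := fun a b => hF.1 _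
  have hn' : ∀ a b, tb G x (16 * a + b) = true → (!(m.testBit (16 * a + b))) = true := by
    intro a b hab
    rcases h5 : m.testBit (16 * a + b) with _ | _
    · rfl
    · rw [hF.2 _ h5] at hab
      exact absurd hab (by decide)
  simp only [chkG, Bool.and_eq_true, List.all_eq_true, List.mem_range, beq_iff_eq]
  refine ⟨⟨⟨h1, h2⟩, fun l hl => FT.connL_mono hp (h3 l hl)⟩, fun i hi j hj => ?_⟩
  have h5 := h4 i hi j hj
  rcases hq' : q i j with _ | _
  · rw [hq', cond_false, Bool.not_eq_true'] at h5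
    rcases h6 : Eng.tchL (fun a b => tb G x (16 * a + b)) (C.getD i []) (C.getD j []) with _ | _
    · rfl
    · rw [FT.tchL_mono hn' h6] at h5
      exact absurd h5 (by decide)
  · rw [hq', cond_true] at h5
    exact FT.tchL_mono hp h5

/-- a certificate: `(b, p, m, C)`; `b = true` for `K3:0,1,02`, `b = false` for `J_2` -/
abbrev Cert := Bool × ℕ × ℕ × List (List ℕ)

/-- the check of a certificate -/
def ckC (n : ℕ) (c : Cert) : Bool :=
  bif c.1 then ckN n c.2.1 c.2.2.1 6 R3.q2 c.2.2.2 else ckN n c.2.1 c.2.2.1 7 FT.qJ2 c.2.2.2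

/-- trees: `lf g`: nogood `g`; `im k`: excluded table `k`; `bt b t u`: split on the bit `b` -/
inductive Tr : Type
  | lf (g : ℕ) : Tr
  | im (k : ℕ) : Tr
  | bt (b : ℕ) (t u : Tr) : Tr

/-- the knowledge `(p, n)` is contained in `(P, N)` -/
def sb (p n P N : ℕ) : Bool := Nat.beq (P &&& p) p && Nat.beq (N &&& n) n

theorem sb_mt {p n P N : ℕ} {F : ℕ → Bool} (h : sb p n P N = true) (hM : Mt P N F) : Mt p n F := by
  simp only [sb, Bool.and_eq_true] at h
  exact hM.sub (Nat.eq_of_beq_eq_true h.1) (Nat.eq_of_beq_eq_true h.2)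

/-- the checker -/
def ckT (lib I : List (ℕ × ℕ)) : Tr → ℕ → ℕ → Bool
  | Tr.lf g, P, N => Nat.blt g lib.length && sb (lib.getD g (0, 0)).1 (lib.getD g (0, 0)).2 P N
  | Tr.im k, P, N => Nat.blt k I.length && sb (I.getD k (0, 0)).1 (I.getD k (0, 0)).2 P N
  | Tr.bt b t u, P, N => ckT lib I t P (N ||| (1 <<< b)) && ckT lib I u (P ||| (1 <<< b)) N

theorem tr_false {F : ℕ → Bool} {lib I : List (ℕ × ℕ)} (h1 : ∀ c ∈ lib, ¬ Mt c.1 c.2 F)
    (h2 : ∀ c ∈ I, ¬ Mt c.1 c.2 F) :
    ∀ (t : Tr) (P N : ℕ), Mt P N F → ckT lib I t P N = true → False := by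
  intro t
  induction t with
  | lf g =>
    intro P N hM hc
    simp only [ckT, Bool.and_eq_true] at hc
    obtain ⟨h3, h4⟩ := hc
    rw [Nat.blt_eq] at h3
    have hmem : lib.getD g (0, 0) ∈ lib := by
      rw [List.getD_eq_getElem _ _ h3]
      exact List.getElem_mem h3
    exact h1 _ hmem (sb_mt h4 hM)
  | im k =>
    intro P N hM hc
    simp only [ckT, Bool.and_eq_true] at hc
    obtain ⟨h3, h4⟩ := hc
    rw [Nat.blt_eq] at h3
    have hmem : I.getD k (0, 0) ∈ I := by
      rw [List.getD_eq_getElem _ _ h3]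
      exact List.getElem_mem h3
    exact h2 _ hmem (sb_mt h4 hM)
  | bt b t u iht ihu =>
    intro P N hM hc
    simp only [ckT, Bool.and_eq_true] at hc
    rcases hb : F b with _ | _
    · have := hM.or (Mt.nil hb)
      rw [Nat.or_zero] at this
      exact iht _ _ this hc.1
    · have := hM.or (Mt.one hb)
      rw [Nat.or_zero] at this
      exact ihu _ _ this hc.2

/-- the mask of a list of pairs `(i, j)`, `j < i < 16` -/
def msk : List (ℕ × ℕ) → ℕ
  | [] => 0
  | p :: l => (1 <<< (16 * p.1 + p.2)) ||| msk l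

theorem msk_bit {b : ℕ} : ∀ {l : List (ℕ × ℕ)}, (msk l).testBit b = true → ∃ p ∈ l, b = 16 * p.1 + p.2
  | [], h => by simp [msk] at h
  | p :: l, h => by
    rw [msk, Nat.testBit_or, Bool.or_eq_true] at h
    rcases h with h | h
    · rw [Nat.shiftLeft_eq, one_mul, Nat.testBit_two_pow] at h
      exact ⟨p, List.mem_cons_self, (of_decide_eq_true h).symm⟩
    · obtain ⟨q, hq, h1⟩ := msk_bit h
      exact ⟨q, List.mem_cons_of_mem _ hq, h1⟩

/-- the entries are below 16 -/
def sm (l : List (ℕ × ℕ)) : Bool := l.all fun p => Nat.blt p.2 16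

theorem mt_of {G : SimpleGraph V} {x : ℕ → V} {A N : List (ℕ × ℕ)} (hsA : sm A = true) (hsN : sm N = true)
    (hA : ∀ p ∈ A, G.Adj (x p.1) (x p.2)) (hN : ∀ p ∈ N, ¬ G.Adj (x p.1) (x p.2)) :
    Mt (msk A) (msk N) (tb G x) := by
  simp only [sm, List.all_eq_true, Nat.blt_eq] at hsA hsN
  refine ⟨fun b hb => ?_, fun b hb => ?_⟩
  · obtain ⟨p, hp, rfl⟩ := msk_bit hb
    exact (tb_iff (hsA p hp)).2 (hA p hp)
  · obtain ⟨p, hp, rfl⟩ := msk_bit hb
    rw [Bool.eq_false_iff]
    exact fun h => hN p hp ((tb_iff (hsN p hp)).1 h)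

theorem msk_mem : ∀ {l : List (ℕ × ℕ)} {p : ℕ × ℕ}, p ∈ l → (msk l).testBit (16 * p.1 + p.2) = true
  | q :: l, p, h => by
    rw [msk, Nat.testBit_or, Bool.or_eq_true]
    rcases List.mem_cons.1 h with rfl | h
    · left
      rw [Nat.shiftLeft_eq, one_mul, Nat.testBit_two_pow]
      simp
    · exact Or.inr (msk_mem h)

/-- the whole check -/
def ck (n : ℕ) (A N D : List (ℕ × ℕ)) (I : List (List (ℕ × ℕ) × List (ℕ × ℕ))) (cs : List Cert) (t : Tr) : Bool :=
  Nat.ble n 16 && sm A && sm N && (I.all fun c => sm c.1 && sm c.2) &&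
    ((List.range n).all fun i => (List.range i).all fun j => dif A N D i j) && cs.all (ckC n) &&
    ckT (cs.map fun c => (c.2.1, c.2.2.1)) (I.map fun c => (msk c.1, msk c.2)) t (msk A) (msk N)

/-- **The engine.** -/
theorem refute {G : SimpleGraph V} (hH : FH G) (hJ : FJ 2 G) (x : ℕ → V) (n : ℕ) (A N D : List (ℕ × ℕ))
    (hA : ∀ p ∈ A, G.Adj (x p.1) (x p.2)) (hN : ∀ p ∈ N, ¬ G.Adj (x p.1) (x p.2))
    (hD : ∀ p ∈ D, x p.1 ≠ x p.2) (I : List (List (ℕ × ℕ) × List (ℕ × ℕ)))
    (hI : ∀ c ∈ I, ¬ ((∀ p ∈ c.1, G.Adj (x p.1) (x p.2)) ∧ ∀ p ∈ c.2, ¬ G.Adj (x p.1) (x p.2)))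
    (cs : List Cert) (t : Tr) (hc : ck n A N D I cs t = true) : False := by
  simp only [ck, Bool.and_eq_true, List.all_eq_true, List.mem_range] at hc
  obtain ⟨⟨⟨⟨⟨⟨h1, h2⟩, h3⟩, h4⟩, h5⟩, h6⟩, h7⟩ := hc
  have hn : n ≤ 16 := Nat.le_of_ble_eq_true h1
  have hAa : ∀ i j, adjL A i j = true → G.Adj (x i) (x j) := by
    intro i j h
    rw [adjL_iff] at h
    rcases h with h | h
    · exact hA _ h
    · exact (hA _ h).symm
  have hNn : ∀ i j, adjL N i j = true → ¬ G.Adj (x i) (x j) := by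
    intro i j h
    rw [adjL_iff] at h
    rcases h with h | h
    · exact hN _ h
    · exact fun h' => hN _ h h'.symm
  have hdif : ∀ i j, dif A N D i j = true → x i ≠ x j := by
    intro i j h
    simp only [dif, Bool.or_eq_true, List.any_eq_true, Bool.and_eq_true] at h
    rcases h with (h | h) | ⟨k, _, h | h⟩
    · exact (hAa i j h).ne
    · rw [adjL_iff] at h
      rcases h with h | h
      · exact hD _ h
      · exact (hD _ h).symm
    · intro h'
      exact hNn j k h.2 (h' ▸ hAa i k h.1)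
    · intro h'
      exact hNn i k h.2 (h'.symm ▸ hAa j k h.1)
  have hx : ∀ i < n, ∀ j < i, x i ≠ x j := fun i hi j hj => hdif i j (h5 i hi j hj)
  refine tr_false (F := tb G x) ?_ ?_ t _ _ (mt_of h2 h3 hA hN) h7
  · intro c hc
    obtain ⟨d, hd, rfl⟩ := List.mem_map.1 hc
    have h8 := h6 d hd
    simp only [ckC] at h8
    rcases hb : d.1 with _ | _
    · rw [hb, cond_false] at h8
      exact ng hn hx (FT.spfJ2 hJ) h8
    · rw [hb, cond_true] at h8
      exact ng hn hx (R3.spf2 hH) h8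
  · intro c hc hM
    obtain ⟨d, hd, rfl⟩ := List.mem_map.1 hc
    have h8 := h4 d hd
    simp only [sm, List.all_eq_true, Nat.blt_eq] at h8
    refine hI d hd ⟨fun p hp => ?_, fun p hp hadj => ?_⟩
    · exact (tb_iff (h8.1 p hp)).1 (hM.1 _ (msk_mem hp))
    · have h9 := hM.2 _ (msk_mem hp)
      rw [(tb_iff (h8.2 p hp)).2 hadj] at h9
      exact absurd h9 (by decide)

end Pool.Agent.MPd439b2.RN
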