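import Pool.Agent.Lib.MP_d439b2_co.Rep.Cut
import Pool.Agent.Lib.MP_d439b2_co.Rep.RowX4
import Pool.Agent.Lib.MP_d439b2_co.OP.PLc
import Pool.Agent.Lib.MP_d439b2_co.X3.H3T.LN
import Pool.Agent.Lib.MP_d439b2_co.ON.Spec

/-!
# MP_d439b2_co, RN/End: from the lifting of the cuts to the layout (helper29, note 3182)

`KK` is a family of pairwise disjoint cells with at most half of the vertices, `r K` is an element of `K`, `Sv` is the
set of the vertices which survive.  If the cuts of `G[Sv]` of rank at most `k` lift to cuts of `G` of bounded rank, up to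
the vertices of a fixed set `W₀` with at most `B |KK|` elements, and the rank between two cells is bounded then a linked
graph `G` is small.
-/

set_option autoImplicit false

namespace Pool.Agent.MPd439b2.RN

open Pool.Agent.MPd439b2 Pool.Agent.MPd439b2.Rep

/-- pairwise disjoint cells with representatives and with at most half of the vertices -/
structure Fam {V : Type} (KK : Set (Set V)) (r : Set V → V) : Prop where
  dis : ∀ K ∈ KK, ∀ K' ∈ KK, K ≠ K' → Disjoint K K'
  rep : ∀ K ∈ KK, r K ∈ K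
  half : ∀ K ∈ KK, 2 * K.ncard ≤ Nat.card V

/-- the vertices which survive -/
def Sv {V : Type} (KK : Set (Set V)) (r : Set V → V) : Set V := {v | ∀ K ∈ KK, v ∈ K → v = r K}

/-- **The cuts lift** up to the vertices of `W₀`. -/
def Lif {V : Type} (G : SimpleGraph V) (S W₀ : Set V) (k g : ℕ) : Prop :=
  ∀ A A' : Set V, ON.Pt S A A' → LK.rk G A A' ≤ k →
    ∃ X : Set V, LK.cr G X ≤ g ∧ A \ W₀ ⊆ X ∧ Disjoint (A' \ W₀) X

theorem ncard_sUnion_le {V : Type} [Finite V] {n : ℕ} (KK : Set (Set V)) (h : ∀ K ∈ KK, K.ncard ≤ n) :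
    (⋃₀ KK).ncard ≤ KK.ncard * n := by
  classical
  obtain ⟨s, rfl⟩ := (Set.toFinite KK).exists_finset_coe
  rw [Set.ncard_coe_finset]
  induction s using Finset.induction_on with
  | empty => simp
  | insert K s hK ih =>
    rw [Finset.coe_insert, Set.sUnion_insert, Finset.card_insert_of_notMem hK]
    have h1 := ih fun K' hK' => h K' (by simp only [Finset.coe_insert]; exact Or.inr hK')
    have h2 := h K (by simp)
    have h3 := Set.ncard_union_le K (⋃₀ (s : Set (Set V)))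
    have h4 : (s.card + 1) * n = s.card * n + n := by ring
    omega

theorem rk_sUnion_le {V : Type} [Finite V] (G : SimpleGraph V) {n : ℕ} (A : Set V) (KK : Set (Set V))
    (h : ∀ K ∈ KK, LK.rk G A K ≤ n) : LK.rk G A (⋃₀ KK) ≤ KK.ncard * n := by
  classical
  obtain ⟨s, rfl⟩ := (Set.toFinite KK).exists_finset_coe
  rw [Set.ncard_coe_finset]
  induction s using Finset.induction_on with
  | empty =>
    have := rk_card_right G A (⋃₀ ((∅ : Finset (Set V)) : Set (Set V)))
    simpa using this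
  | insert K s hK ih =>
    rw [Finset.coe_insert, Set.sUnion_insert, Finset.card_insert_of_notMem hK]
    have h1 := ih fun K' hK' => h K' (by simp only [Finset.coe_insert]; exact Or.inr hK')
    have h2 := h K (by simp)
    have h3 := rk_union_right G A K (⋃₀ (s : Set (Set V)))
    have h4 : (s.card + 1) * n = s.card * n + n := by ring
    omega

/-- **END.** (note 3182) -/
theorem endT (β : ℕ → ℕ) (B r₀ k g : ℕ) : ∃ c₀ k' : ℕ, ∀ (V : Type) [Finite V] (G : SimpleGraph V)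
    (KK : Set (Set V)) (r : Set V → V) (W₀ : Set V), Fam KK r → (∀ K ∈ KK, r K ∉ W₀) →
    (Sv KK r ∩ W₀).ncard ≤ B * KK.ncard → Lif G (Sv KK r) W₀ k g →
    (∀ K ∈ KK, ∀ K' ∈ KK, K ≠ K' → LK.rk G K K' ≤ r₀) → Link β c₀ G →
    Lay (G.induce (Sv KK r)) k Set.univ → Lay G k' Set.univ := by
  classical
  obtain ⟨b, hb⟩ : ∃ b, b = 3 * β g + 1 := ⟨_, rfl⟩
  obtain ⟨c, hc⟩ : ∃ c, c = (B + 1) * b + b * r₀ := ⟨_, rfl⟩
  refine ⟨max g c, (B + 1) * b + b * β c, fun V _ G KK r W₀ hF hr hW hL hC hLk hLay => ?_⟩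
  -- the survivors outside `W₀`
  have hZ : (Sv KK r \ W₀).ncard ≤ b := by
    by_cases h2 : 2 ≤ (Sv KK r \ W₀).ncard
    · obtain ⟨S, hS, h3, h4, h5⟩ := OP.pLc V G (Sv KK r) k hLay _ (fun x hx => hx.1) h2
      obtain ⟨X, h6, h7, h8⟩ := hL S (Sv KK r \ S) ⟨Set.union_sdiff_cancel hS, Set.disjoint_sdiff_right⟩ h3
      rcases hLk g (le_max_left _ _) X h6 with h9 | h9
      · have h10 : ((Sv KK r \ W₀) ∩ S).ncard ≤ X.ncard :=
          Set.ncard_le_ncard (fun x hx => h7 ⟨hx.2, hx.1.2⟩) (Set.toFinite _)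
        omega
      · have h10 : ((Sv KK r \ W₀) \ S).ncard ≤ Xᶜ.ncard :=
          Set.ncard_le_ncard (fun x hx => Set.disjoint_left.mp h8 ⟨⟨hx.1.1, hx.2⟩, hx.1.2⟩) (Set.toFinite _)
        omega
    · omega
  -- the number of the cells
  have hrS : ∀ K ∈ KK, r K ∈ Sv KK r := by
    intro K hK K' hK' h1
    by_contra h2
    have h3 : K ≠ K' := fun h => h2 (by rw [h])
    exact Set.disjoint_left.mp (hF.dis K hK K' hK' h3) (hF.rep K hK) h1
  have hKK : KK.ncard ≤ b := by
    refine le_trans ?_ hZ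
    refine Set.ncard_le_ncard_of_injOn r (fun K hK => ⟨hrS K hK, hr K hK⟩) (fun K hK K' hK' h => ?_) (Set.toFinite _)
    by_contra h2
    exact Set.disjoint_left.mp (hF.dis K hK K' hK' h2) (hF.rep K hK) (by rw [h]; exact hF.rep K' hK')
  have hSv : (Sv KK r).ncard ≤ (B + 1) * b := by
    have h1 := Set.ncard_inter_add_ncard_sdiff_eq_ncard (Sv KK r) W₀ (Set.toFinite _)
    have h2 : B * KK.ncard ≤ B * b := Nat.mul_le_mul_left _ hKK
    have h3 : (B + 1) * b = B * b + b := by ring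
    omega
  -- the cells are small
  have hK : ∀ K ∈ KK, K.ncard ≤ β c := by
    intro K hK
    have h1 : LK.cr G K ≤ c := by
      have h2 : Kᶜ ⊆ Sv KK r ∪ ⋃₀ (KK \ {K}) := by
        intro x hx
        by_cases h3 : ∃ K' ∈ KK, x ∈ K'
        · obtain ⟨K', h4, h5⟩ := h3
          exact Or.inr ⟨K', ⟨h4, fun h => hx (by rw [← (h : K' = K)]; exact h5)⟩, h5⟩
        · exact Or.inl fun K' hK' h5 => absurd ⟨K', hK', h5⟩ h3
      have h3 : LK.cr G K ≤ LK.rk G K (Sv KK r) + LK.rk G K (⋃₀ (KK \ {K})) :=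
        (rk_mono G (Set.Subset.refl K) h2).trans (rk_union_right G _ _ _)
      have h4 : LK.rk G K (Sv KK r) ≤ (B + 1) * b := (rk_card_right G _ _).trans hSv
      have h5 : LK.rk G K (⋃₀ (KK \ {K})) ≤ (KK \ {K}).ncard * r₀ :=
        rk_sUnion_le G K _ fun K' hK' => hC K hK K' hK'.1 fun h => hK'.2 h.symm
      have h6 : (KK \ {K}).ncard * r₀ ≤ b * r₀ :=
        Nat.mul_le_mul_right _ ((Set.ncard_le_ncard (fun x hx => hx.1) (Set.toFinite _)).trans hKK)
      omega
    rcases hLk c (le_max_right _ _) K h1 with h2 | h2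
    · exact h2
    · have h3 := hF.half K hK
      have h4 := Set.ncard_add_ncard_compl K
      omega
  have hV : Nat.card V ≤ (B + 1) * b + b * β c := by
    have h1 : (Set.univ : Set V) ⊆ Sv KK r ∪ ⋃₀ KK := by
      intro x _
      by_cases h3 : ∃ K' ∈ KK, x ∈ K'
      · obtain ⟨K', h4, h5⟩ := h3
        exact Or.inr ⟨K', h4, h5⟩
      · exact Or.inl fun K' hK' h5 => absurd ⟨K', hK', h5⟩ h3
    have h2 := (Set.ncard_le_ncard h1 (Set.toFinite _)).trans (Set.ncard_union_le _ _)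
    have h3 := ncard_sUnion_le KK hK
    have h4 : KK.ncard * β c ≤ b * β c := Nat.mul_le_mul_right _ hKK
    rw [Set.ncard_univ] at h2
    omega
  exact H3T.pfLN V G _ hV

section rem

variable {I I' : Type} {H : SimpleGraph I} {J : SimpleGraph I'}

/-- **The removal of a type by cells** (the form in which END is used).  `n` does not depend on `k`; the constants `c`,
`B`, `r₀`, `g` may depend on `k`. -/
theorem remE [Finite I] [Finite I'] {T : Set Ty} (τ : Ty) (h : ∀ m : ℕ, 1 ≤ m → ∀ β : ℕ → ℕ, ∃ n : ℕ, ∀ k : ℕ,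
      ∃ c B r₀ g : ℕ, ∀ (V : Type) [Finite V] (G : SimpleGraph V), Rep.Fr H J G → NoT T m G → Link β c G →
        ∃ (KK : Set (Set V)) (r : Set V → V) (W₀ : Set V), Fam KK r ∧ (∀ K ∈ KK, r K ∉ W₀) ∧
          (Sv KK r ∩ W₀).ncard ≤ B * KK.ncard ∧ Lif G (Sv KK r) W₀ k g ∧
          (∀ K ∈ KK, ∀ K' ∈ KK, K ≠ K' → LK.rk G K K' ≤ r₀) ∧
          NoTP (G.induce (Sv KK r)) n τ.1 τ.2.1 τ.2.2)
    (hB : BLT H J (insert τ T)) : BLT H J T := by
  refine blt_link T fun m hm β => ?_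
  obtain ⟨n, hn⟩ := h m hm β
  obtain ⟨k, hk⟩ := hB (max m n)
  obtain ⟨c, B, r₀, g, h1⟩ := hn k
  obtain ⟨c₀, k', h2⟩ := endT β B r₀ k g
  refine ⟨max c c₀, k', fun V _ G hF hT hL => ?_⟩
  obtain ⟨KK, r, W₀, h3, h4, h5, h6, h7, h8⟩ := h1 V G hF hT (link_mono (le_max_left _ _) hL)
  refine h2 V G KK r W₀ h3 h4 h5 h6 h7 (link_mono (le_max_right _ _) hL) (hk _ _ (fr_induce _ hF) ?_)
  rintro τ' (rfl | hτ)
  · exact h8.mono (le_max_right _ _)
  · exact (noT_induce _ hT τ' hτ).mono (le_max_left _ _)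

end rem

end Pool.Agent.MPd439b2.RN
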