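import Pool.Agent.Lib.MP_d439b2_co.RN.Defs
import Pool.Agent.Lib.MP_d439b2_co.RB.Base
import Pool.Agent.Lib.MP_d439b2_co.X3.H1R.FinalA
import Pool.Agent.Lib.MP_d439b2_co.W.Dirt

/-!
# MP_d439b2_co, RN/AsmA: poor cells are good cells; the environment `RB.En` (helper26)

* `poor_cr`: a poor cell with its mixers has cut rank at most `3`.
* `uEn`: `S_CS` (Block 1), `S_Mx` (Block 2), `S_One` (no rich cells) give `RB.En` in the linked graphs of the class.
-/

set_option autoImplicit false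

namespace Pool.Agent.MPd439b2.RN

open Pool.Agent.MPd439b2 Pool.Agent.MPd439b2.Rep Pool.Agent.MPd439b2.NK
open Pool.Agent.MPd439b2.P41N (LS Mi)

variable {V : Type} {G : SimpleGraph V}

/-- no rich cells in linked graphs: the form used below -/
def C_One : Prop := ∀ (β : ℕ → ℕ) (c₀ : ℕ) (V : Type) [Finite V] (G : SimpleGraph V) (n k : ℕ) (v : ℕ → V)
  (K : ℕ → Set V), 1 ≤ c₀ → Link β c₀ G → H1T.FH G → H1T.FJ 2 G → CS G n v K → k < n →
    Rich G n v K (β 1 + 1) k → False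

theorem Rich.mono {n : ℕ} {v : ℕ → V} {K : ℕ → Set V} {b b' k : ℕ} (hb : b' ≤ b) (h : Rich G n v K b k) :
    Rich G n v K b' k := by
  obtain ⟨w, z₁, z₂, h1, h2, h3, h4, ⟨L, hL, h5⟩, j, h6, h7, h8, h9, L', hL', h10⟩ := h
  exact ⟨w, z₁, z₂, h1, h2, h3, h4, ⟨L, by omega, h5⟩, j, h6, h7, h8, h9, L', by omega, h10⟩

theorem mx_eq (K : Set V) : Mx G K = Mi G K := by
  ext b
  unfold Mx Mi CoK AnK
  simp only [Set.mem_ofPred_eq, not_forall, Classical.not_not, exists_prop]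
  exact ⟨fun ⟨h1, h2, h3⟩ => ⟨h1, h3, h2⟩, fun ⟨h1, h2, h3⟩ => ⟨h1, h3, h2⟩⟩

theorem xk_eq (K : Set V) : XK G K = RB.Xc G K := by
  unfold XK RB.Xc
  rw [mx_eq]

/-- a vertex outside `X(K)` is complete or anticomplete to `K` -/
theorem out_xk {K : Set V} {b : V} (h : b ∉ XK G K) : CoK G b K ∨ AnK G b K := by
  by_contra hcon
  rw [not_or] at hcon
  exact h (Or.inr ⟨fun h' => h (Or.inl h'), hcon.1, hcon.2⟩)

/-- a poor cell with its mixers has cut rank at most `3` -/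
theorem poor_cr [Finite V] {K : Set V} (h : Poor G K) : LK.cr G (XK G K) ≤ 3 := by
  have h1 : LK.rk G K (XK G K)ᶜ ≤ 1 := rk_col G fun b hb => (out_xk hb).imp
    (fun h' a ha => (h' a ha).symm) fun h' a ha hab => h' a ha hab.symm
  have h2 : LK.rk G (Mx G K) (XK G K)ᶜ ≤ 2 := by
    rcases (Mx G K).eq_empty_or_nonempty with h0 | ⟨w₀, hw₀⟩
    · rw [h0]
      have := rk_card G ∅ (XK G K)ᶜ
      rw [Set.ncard_empty] at this
      omega
    let M₀ : Set V := {w | w ∈ Mx G K ∧ ∀ z ∉ XK G K, (G.Adj w z ↔ G.Adj w₀ z)}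
    let M₁ : Set V := {w | w ∈ Mx G K ∧ ¬ ∀ z ∉ XK G K, (G.Adj w z ↔ G.Adj w₀ z)}
    have hM : Mx G K ⊆ M₀ ∪ M₁ := fun w hw => by
      by_cases h' : ∀ z ∉ XK G K, (G.Adj w z ↔ G.Adj w₀ z)
      · exact Or.inl ⟨hw, h'⟩
      · exact Or.inr ⟨hw, h'⟩
    have h3 : LK.rk G M₀ (XK G K)ᶜ ≤ 1 := rk_one G {z | G.Adj w₀ z} fun w hw => Or.inl fun z hz => hw.2 z hz
    have h4 : LK.rk G M₁ (XK G K)ᶜ ≤ 1 := by
      rcases M₁.eq_empty_or_nonempty with h0 | ⟨w₁, hw₁⟩
      · rw [h0]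
        have := rk_card G ∅ (XK G K)ᶜ
        rw [Set.ncard_empty] at this
        omega
      refine rk_one G {z | G.Adj w₁ z} fun w hw => Or.inl fun z hz => ?_
      rcases h w₀ hw₀ w₁ hw₁.1 w hw.1 with h5 | h5 | h5
      · exact absurd (fun z hz => (h5 z hz).symm) hw₁.2
      · exact absurd (fun z hz => (h5 z hz).symm) hw.2
      · exact (h5 z hz).symm
    have h5 := (rk_mono G hM (Set.Subset.refl (XK G K)ᶜ)).trans (rk_union G M₀ M₁ _)
    omega
  unfold LK.cr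
  have h3 := rk_union G K (Mx G K) (XK G K)ᶜ
  have h4 : K ∪ Mx G K = XK G K := rfl
  rw [h4] at h3
  omega

section cells

variable {n : ℕ} {v : ℕ → V} {K : ℕ → Set V}

/-- the other cells are outside `X(K k)` -/
theorem CS.out (h : CS G n v K) {k l : ℕ} (hk : k < n) (hl : l < n) (hkl : l ≠ k) {x : V} (hx : x ∈ K l) :
    x ∉ XK G (K k) := by
  have h1 := h.dis l hl k hk hkl
  rintro (h2 | h2)
  · exact Set.disjoint_left.1 h1.1 hx h2
  · exact h2.2.2 fun y hy => h1.2 x hx y hy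

/-- poor cells are small in linked graphs -/
theorem CS.bd [Finite V] {β : ℕ → ℕ} {c₀ : ℕ} (h : CS G n v K) {k : ℕ} (hk : k < n) (hp : Poor G (K k))
    (hL : Link β c₀ G) (hc : 3 ≤ c₀) (hn : β 3 + 1 < n) : (XK G (K k)).ncard ≤ β 3 := by
  rcases hL 3 hc _ (poor_cr hp) with h1 | h1
  · exact h1
  exfalso
  have h2 : ∀ l : ℕ, ∃ x : V, l < n → x ∈ K l := fun l => by
    by_cases hl : l < n
    · obtain ⟨x, hx⟩ := (h.con l hl).1
      exact ⟨x, fun _ => hx⟩
    · obtain ⟨x, hx⟩ := (h.con k hk).1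
      exact ⟨x, fun h' => absurd h' hl⟩
  choose y hy using h2
  have h3 := RB.count1 (X := (XK G (K k))ᶜ) (J := (Finset.range n).erase k) (y := y)
    (fun i hi j hj hij he => by
      have hi' := Finset.mem_range.1 (Finset.mem_of_mem_erase hi)
      have hj' := Finset.mem_range.1 (Finset.mem_of_mem_erase hj)
      exact Set.disjoint_left.1 (h.dis i hi' j hj' hij).1 (hy i hi') (he ▸ hy j hj'))
    (fun i hi => by
      have hi' := Finset.mem_range.1 (Finset.mem_of_mem_erase hi)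
      exact h.out hk hi' (Finset.ne_of_mem_erase hi) (hy i hi'))
  rw [Finset.card_erase_of_mem (Finset.mem_range.2 hk), Finset.card_range] at h3
  omega

/-- a poor cell of a system is a good cell -/
theorem CS.gl [Finite V] {β : ℕ → ℕ} {c₀ L : ℕ} (h : CS G n v K) {k : ℕ} (hk : L ≤ k) (hk' : k + L < n)
    (hp : Poor G (K k)) (hL : Link β c₀ G) (hc : 3 ≤ c₀) (hn : β 3 + 1 < n) {e : Bool → ℕ → V}
    {S : Finset ℕ} {ρ : ℕ → ℕ} (hρ : ∀ l < n, ρ l ∈ S ∧ ∀ s, e s (ρ l) ∈ K l)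
    (hi : ∀ l < n, ∀ l' < n, ρ l = ρ l' → l = l') : RB.Gl G (β 3) L e S (ρ k) (K k) := by
  classical
  have hkn : k < n := by omega
  have key : ∀ l < n, l ≠ k → ρ l ≠ ρ k ∧ ∀ x ∈ K k, ¬ Tc G e x (ρ l) := by
    intro l hl hlk
    refine ⟨fun h' => hlk (hi l hl k hkn h'), fun x hx => ?_⟩
    rintro ⟨s, hs⟩
    exact (h.dis k hkn l hl (Ne.symm hlk)).2 x hx _ ((hρ l hl).2 s) hs
  let f : Bool → ℕ → ℕ := fun s a => if s = true then k + 1 + a else a
  have hf : ∀ s, ∀ a < L, f s a < n ∧ f s a ≠ k := by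
    intro s a ha
    cases s
    · have h1 : f false a = a := rfl
      rw [h1]
      omega
    · have h1 : f true a = k + 1 + a := rfl
      rw [h1]
      omega
  refine ⟨h.con k hkn, (hρ k hkn).2, xk_eq (G := G) (K k) ▸ h.bd hkn hp hL hc hn,
    fun s => (Finset.range L).image fun a => ρ (f s a), ?_, fun s => ⟨?_, ?_, ?_, ?_⟩, ?_⟩
  · rw [Finset.disjoint_left]
    intro j hj hj'
    obtain ⟨a, ha, rfl⟩ := Finset.mem_image.1 hj
    obtain ⟨a', ha', h1⟩ := Finset.mem_image.1 hj'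
    have ha := Finset.mem_range.1 ha
    have ha' := Finset.mem_range.1 ha'
    have h2 : f true a' = f false a := hi _ (hf true a' ha').1 _ (hf false a ha).1 h1
    have h3 : f true a' = k + 1 + a' := rfl
    have h4 : f false a = a := rfl
    omega
  · intro j hj
    obtain ⟨a, ha, rfl⟩ := Finset.mem_image.1 hj
    exact (hρ _ (hf s a (Finset.mem_range.1 ha)).1).1
  · intro hj
    obtain ⟨a, ha, h1⟩ := Finset.mem_image.1 hj
    have h2 := hf s a (Finset.mem_range.1 ha)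
    exact (key _ h2.1 h2.2).1 h1
  · rw [Finset.card_image_of_injOn, Finset.card_range]
    intro a ha a' ha' h1
    have ha := Finset.mem_range.1 (Finset.mem_coe.1 ha)
    have ha' := Finset.mem_range.1 (Finset.mem_coe.1 ha')
    have h2 : f s a = f s a' := hi _ (hf s a ha).1 _ (hf s a' ha').1 h1
    cases s
    · exact h2
    · have h3 : ∀ c, f true c = k + 1 + c := fun c => rfl
      rw [h3, h3] at h2
      omega
  · intro x hx j hj
    obtain ⟨a, ha, rfl⟩ := Finset.mem_image.1 hj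
    have h2 := hf s a (Finset.mem_range.1 ha)
    exact (key _ h2.1 h2.2).2 x hx
  · rintro b hb ⟨x, hx, hbx⟩
    rcases h.big k hkn b hb (fun h' => h' x hx hbx) with h1 | h1
    · refine ⟨true, fun j hj t => ?_⟩
      obtain ⟨a, ha, rfl⟩ := Finset.mem_image.1 hj
      have h2 := hf true a (Finset.mem_range.1 ha)
      exact h1 _ h2.1 (by
        have h3 : f true a = k + 1 + a := rfl
        omega) _ ((hρ _ h2.1).2 t)
    · refine ⟨false, fun j hj t => ?_⟩
      obtain ⟨a, ha, rfl⟩ := Finset.mem_image.1 hj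
      have h2 := hf false a (Finset.mem_range.1 ha)
      have h3 : f false a = a := rfl
      have ha := Finset.mem_range.1 ha
      exact h1 _ (by omega) _ ((hρ _ h2.1).2 t)

end cells

/-- **The environment of STEP B.** -/
theorem uEn (h1 : S_CS) (h2 : S_Mx) (h3 : C_One) (m L : ℕ) (β : ℕ → ℕ) : ∃ c₀ N : ℕ,
    ∀ (V : Type) [Finite V] (G : SimpleGraph V), H1T.FH G → H1T.FJ 2 G → H1R.Pm G →
      NoTP G m true false false → Link β c₀ G → β 3 + 1 ≤ L → RB.En G (β 3) L N := by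
  obtain ⟨n, hn⟩ := h2 (β 1 + β 3 + L + 2)
  obtain ⟨c₀, N, hN⟩ := h1 m n β
  refine ⟨c₀ + 3, N, fun V _ G hH hJ hP hT hL hBL => ⟨hH, hJ, hBL, fun e S he hS => ?_⟩⟩
  have hL' : ∀ c ≤ c₀ + 3, Link β c G := fun c hc c' hc' => hL c' (hc'.trans hc)
  obtain ⟨τ, hτ, hτi⟩ := W.Dirt56.enum S N hS
  have hLt : NK.Lt G N fun s i => e s (τ i) := fun i hi j hj s t => by
    rw [he _ (hτ i hi) _ (hτ j hj)]
    exact and_congr_left fun _ => ⟨hτi i hi j hj, fun h' => by rw [h']⟩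
  obtain ⟨v, K, σ, hC, hσ, hσi⟩ := hN V G _ hH hJ hP hT (hL' c₀ (by omega)) hLt
  obtain ⟨k, hk, hk', h4⟩ := hn V G v K hH hJ hC
  rcases h4 with h4 | h4
  · exact ⟨τ (σ k), hτ _ (hσ k (by omega)).1, K k,
      hC.gl (ρ := fun l => τ (σ l)) (by omega) (by omega) h4 hL (by omega) (by omega)
        (fun l hl => ⟨hτ _ (hσ l hl).1, (hσ l hl).2⟩)
        fun l hl l' hl' h' => hσi l hl l' hl' (hτi _ (hσ l hl).1 _ (hσ l' hl').1 h')⟩
  · exact (h3 β (c₀ + 3) V G n k v K (by omega) hL hH hJ hC (by omega) (h4.mono (by omega))).elim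

end Pool.Agent.MPd439b2.RN
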