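import Pool.Agent.Lib.MP_d439b2_co.RN.AsmA
import Pool.Agent.Lib.MP_d439b2_co.RB.SpecB
import Pool.Agent.Lib.MP_d439b2_co.X3.H3T.Final

/-!
# MP_d439b2_co, RN/AsmB: the removal of the large induced matchings (helper26)

* `nRem`: `S_CS`, `S_Mx`, `C_One` and STEP B (`RB.C_SB`) give
  `BLT K302 (JP 2) {fff, tff} → BLT K302 (JP 2) {tff}`.
-/

set_option autoImplicit false

namespace Pool.Agent.MPd439b2.RN

open Pool.Agent.MPd439b2 Pool.Agent.MPd439b2.Rep
open Pool.Agent.MPd439b2.P41N (LS)

/-- a pattern of the type `fff` in a subgraph is a matching -/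
theorem tp_ls {V : Type} {G : SimpleGraph V} {S : Set V} {n : ℕ} {a b : ℕ → S}
    (h : TP (G.induce S) n false false false a b) :
    LS G (fun s i => if s = true then (b i : V) else (a i : V)) (Finset.range n) := by
  intro i hi j hj s t
  have hi := Finset.mem_range.1 hi
  have hj := Finset.mem_range.1 hj
  have haa : ¬ G.Adj (a i) (a j) := fun h' => by
    by_cases hij : i = j
    · rw [hij] at h'
      exact G.loopless.irrefl _ h'
    · exact absurd ((h.aa i hi j hj hij).1 h') (by decide)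
  have hbb : ¬ G.Adj (b i) (b j) := fun h' => by
    by_cases hij : i = j
    · rw [hij] at h'
      exact G.loopless.irrefl _ h'
    · exact absurd ((h.bb i hi j hj hij).1 h') (by decide)
  have hab : G.Adj (a i) (b j) ↔ i = j := by
    have h1 : G.Adj (a i) (b j) ↔ (i = j ↔ false = false) := h.ab i hi j hj
    simpa using h1
  have hba : G.Adj (b i) (a j) ↔ i = j := by
    have h1 : G.Adj (a j) (b i) ↔ (j = i ↔ false = false) := h.ab j hj i hi
    rw [SimpleGraph.adj_comm, h1, eq_comm (a := i)]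
    simp
  cases s <;> cases t <;> simp [haa, hbb, hab, hba]

/-- **The removal.** -/
theorem nRem (h1 : S_CS) (h2 : S_Mx) (h3 : C_One) {L₁ : ℕ} (h4 : RB.C_SB L₁)
    (hB : BLT H1T.K302 (A0.JP 2) {(false, false, false), (true, false, false)}) :
    BLT H1T.K302 (A0.JP 2) {(true, false, false)} := by
  refine blt_removeS H3T.hlsF (false, false, false) (fun m hm β => ?_) hB
  obtain ⟨c, N, hN⟩ := uEn h1 h2 h3 m (β 3 + 1 + L₁) β
  obtain ⟨N₁, f, hf⟩ := h4 (β 3) N
  refine ⟨N₁, fun k => ⟨c, f k, fun V _ G hF hT hL hSp => ?_⟩⟩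
  have hFH : H1T.FH G := hF.1
  have hFJ : H1T.FJ 2 G := hF.2
  obtain ⟨S, hS1, hS2⟩ := hf V G (β 3 + 1 + L₁) (hN V G hFH hFJ (H1R.pm_of_spo hSp)
    (hT _ rfl) hL (by omega)) (by omega)
  refine ⟨Sᶜ, ?_, ?_⟩
  · rw [compl_compl]
    intro a b hab
    have h5 := hS1 (fun s i => if s = true then (b i : V) else (a i : V)) (Finset.range N₁) (tp_ls hab)
      (fun i _ s => by cases s <;> exact Subtype.coe_prop _)
    rw [Finset.card_range] at h5
    omega
  · rw [compl_compl]
    exact hS2 k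

end Pool.Agent.MPd439b2.RN
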