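import Pool.Agent.Lib.MP_d439b2_co.RN.Final
import Pool.Agent.Lib.MP_d439b2_co.BT.SEnd

/-!
# MP_d439b2_co, RN/Base3: the last base pair `(K3:0,1,02, co(P_3 + 2 P_2))` (helper26)
-/

set_option autoImplicit false

namespace Pool.Agent.MPd439b2.RN

open Pool.Agent.MPd439b2 Pool.Agent.MPd439b2.Rep

/-- **The base pair `(K3:0,1,02, co(P_3 + 2 P_2))`** -/
theorem base3 : BoundedCW (F9.KF 3 3 ![{0}, {1}, {0, 2}]) (F9.JS ![0, 1, 1] 2) := BP.pair3 BT.sEnd nFin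

end Pool.Agent.MPd439b2.RN
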