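import Pool.Agent.Lib.MP_d439b2_co.X3.H1R.Base
import Pool.Agent.Lib.MP_d439b2_co.CR.Defs

/-!
# MP_d439b2_co, RN: one rich cell (helper38; proof of helper26, note 3160, and helper94, note 3166 (1))

`G` has no induced minor `K3:0,1,02` (`FH G`).  `K` is a set of vertices (the cell), `W₁`, `W₂` are mixers, `z` is a
vertex which distinguishes `W₁` and `W₂` and has no neighbours in `K`, `b` is complete to `W₁` and anticomplete to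
`K` (`OC`).  `Ms G K W`: the vertices of `K` missed by some vertex of `W`.

`cell`: `K` has a subset `K₁` which contains `Ms G K W₁` and no vertex of `Ms G K W₂`, and there is a clique
`Q ⊆ Ms G K W₁` such that every vertex of `K₁` has the same neighbours in `K \ K₁` as some vertex of `Q`.
`cell_rows`: so the number of rows of `K₁ ∪ W₁` on `(K \ K₁) ∪ W₂` is at most `|Q| + 1`.
-/

set_option autoImplicit false

namespace Pool.Agent.MPd439b2.RN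

open Pool.Agent.MPd439b2 Pool.Agent.MPd439b2.H1T Pool.Agent.MPd439b2.H1R

variable {V : Type}

/-- the vertices of `K` which are missed by a vertex of `W` -/
def Ms (G : SimpleGraph V) (K W : Set V) : Set V := {x | x ∈ K ∧ ∃ w ∈ W, ¬ G.Adj w x}

/-- one cell `K` with the mixers `W₁`, `W₂` -/
structure OC (G : SimpleGraph V) (K W₁ W₂ : Set V) (z b : V) : Prop where
  w1K : ∀ w ∈ W₁, w ∉ K
  w2K : ∀ w ∈ W₂, w ∉ K
  zK : z ∉ K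
  ww : ∀ w ∈ W₁, ∀ a ∈ W₂, G.Adj w a
  z1 : ∀ w ∈ W₁, G.Adj z w
  z2 : ∀ w ∈ W₂, ¬ G.Adj z w
  za : ∀ x ∈ K, ¬ G.Adj z x
  b1 : ∀ w ∈ W₁, G.Adj b w
  ba : ∀ x ∈ K, ¬ G.Adj b x
  dis : ∀ w ∈ W₁, ∀ a ∈ W₂, ∀ x ∈ K, G.Adj w x ∨ G.Adj a x
  sn : ∀ x ∈ K, ∃ a ∈ W₂, G.Adj a x

/-- six vertices: the triangle `p q r`; `x` sees `p`, `y` sees `q`, `z` sees `p` and `r` -/
theorem mdl6 {G : SimpleGraph V} (hG : FH G) {p q r x y z : V} (pq : G.Adj p q) (pr : G.Adj p r)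
    (qr : G.Adj q r) (px : G.Adj p x) (qx : ¬ G.Adj q x) (rx : ¬ G.Adj r x) (py : ¬ G.Adj p y)
    (qy : G.Adj q y) (ry : ¬ G.Adj r y) (pz : G.Adj p z) (qz : ¬ G.Adj q z) (rz : G.Adj r z)
    (xy : ¬ G.Adj x y) (xz : ¬ G.Adj x z) (yz : ¬ G.Adj y z) : False := by
  refine engV hG (fun i => [p, q, r, x, y, z].getD i p) [[0], [1], [2], [3], [4], [5]]
    [(0, 1), (0, 2), (1, 2), (0, 3), (1, 4), (0, 5), (2, 5)]
    [(1, 3), (2, 3), (0, 4), (2, 4), (1, 5), (3, 4), (3, 5), (4, 5)] [] ?_ ?_ ?_ (by decide)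
  · intro i hi
    fin_cases hi <;> assumption
  · intro i hi
    fin_cases hi <;> assumption
  · intro i hi
    simp at hi

section rules

variable {G : SimpleGraph V} {K W₁ W₂ : Set V} {z b : V}

/-- rule R0 -/
theorem r0 (hG : FH G) (h : OC G K W₁ W₂ z b) {w a y₁ y₂ x : V} (hw : w ∈ W₁) (ha : a ∈ W₂) (h1 : y₁ ∈ K)
    (h2 : y₂ ∈ K) (hx : x ∈ K) (hwy : ¬ G.Adj w y₁) (hay : ¬ G.Adj a y₂) (hyy : ¬ G.Adj y₁ y₂)
    (hwx : G.Adj w x) (hax : G.Adj a x) (hxy : G.Adj x y₂) : G.Adj x y₁ := by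
  by_contra hcon
  have h3 : G.Adj w y₂ := (h.dis w hw a ha y₂ h2).resolve_right hay
  have h4 : G.Adj a y₁ := (h.dis w hw a ha y₁ h1).resolve_left hwy
  exact mdl6 hG (h.ww w hw a ha) hwx hax (h.z1 w hw).symm (fun h' => h.z2 a ha h'.symm)
    (fun h' => h.za x hx h'.symm) hwy h4 hcon h3 hay hxy (h.za y₁ h1) (h.za y₂ h2) hyy

/-- rule R3 -/
theorem r3 (hG : FH G) (h : OC G K W₁ W₂ z b) {w y q : V} {P : Set V} (hw : w ∈ W₁) (hy : y ∈ K)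
    (hwy : ¬ G.Adj w y) (hq : q ∈ K) (hwq : G.Adj w q) (hqy : G.Adj q y) (hP : Conn G P)
    (hPK : ∀ p ∈ P, p ∈ K ∧ ¬ G.Adj y p ∧ G.Adj w p) {p : V} (hp : p ∈ P) (hqp : G.Adj q p) :
    ∀ u ∈ P, G.Adj q u := by
  by_contra hcon
  push Not at hcon
  obtain ⟨u, hu, hqu⟩ := hcon
  obtain ⟨f, hf, e, he, hfe⟩ := hP.2 {v | v ∈ P ∧ G.Adj q v} (fun v hv => hv.1) ⟨p, hp, hqp⟩
    fun h' => hqu (by
      have h1 : u ∈ {v | v ∈ P ∧ G.Adj q v} := by rw [h']; exact hu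
      exact h1.2)
  have heq : ¬ G.Adj q e := fun h' => he.2 ⟨he.1, h'⟩
  obtain ⟨f1, f2, f3⟩ := hPK f hf.1
  obtain ⟨e1, e2, e3⟩ := hPK e he.1
  exact mdl6 hG hwq f3 hf.2 (h.b1 w hw).symm (fun h' => h.ba q hq h'.symm) (fun h' => h.ba f f1 h'.symm)
    hwy hqy (fun h' => f2 h'.symm) e3 heq hfe (h.ba y hy) (h.ba e e1) e2

/-- rule TW -/
theorem tw (hG : FH G) (h : OC G K W₁ W₂ z b) {w y q x : V} (hw : w ∈ W₁) (hy : y ∈ K) (hq : q ∈ K)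
    (hx : x ∈ K) (hwy : ¬ G.Adj w y) (hwq : ¬ G.Adj w q) (hyq : ¬ G.Adj y q) (hwx : G.Adj w x)
    (hxy : G.Adj x y) : G.Adj x q := by
  by_contra hcon
  obtain ⟨a, ha, hax⟩ := h.sn x hx
  have h3 : G.Adj a y := (h.dis w hw a ha y hy).resolve_left hwy
  have h4 : G.Adj a q := (h.dis w hw a ha q hq).resolve_left hwq
  exact mdl6 hG (h.ww w hw a ha).symm hax hwx h4 hwq hcon (fun h' => h.z2 a ha h'.symm)
    (h.z1 w hw).symm (fun h' => h.za x hx h'.symm) h3 hwy hxy (fun h' => h.za q hq h'.symm)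
    (fun h' => hyq h'.symm) (h.za y hy)

end rules

/-- the invariant (I3) of a vertex `c` over the co-component `D` -/
def I3 (G : SimpleGraph V) (K W₁ D : Set V) (c : V) : Prop :=
  ∃ y ∈ D, ∃ y' ∈ D, ∃ w ∈ W₁, ∃ P : Set V, ¬ G.Adj w y ∧ Conn G P ∧ c ∈ P ∧ y' ∈ P ∧
    ∀ p ∈ P, p ∈ K ∧ ¬ G.Adj y p ∧ G.Adj w p

/-- the sets between a co-component `D` and its closure -/
structure Cl (G : SimpleGraph V) (K W₁ W₂ D C : Set V) : Prop where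
  sub : D ⊆ C
  cc : Conn Gᶜ C
  co : ∀ c ∈ C, c ∉ D → c ∈ K ∧ c ∉ Ms G K W₁ ∧ c ∉ Ms G K W₂ ∧ I3 G K W₁ D c

section main

variable {G : SimpleGraph V} {K W₁ W₂ D C : Set V} {z b : V}

theorem nm {W : Set V} {x w : V} (hx : x ∈ K) (h : x ∉ Ms G K W) (hw : w ∈ W) : G.Adj w x := by
  by_contra h'
  exact h ⟨hx, w, hw, h'⟩

/-- a core vertex (or a vertex of `T₂`) complete to `D` is complete to `C` -/
theorem comp_to (hG : FH G) (h : OC G K W₁ W₂ z b) (hC : Cl G K W₁ W₂ D C)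
    (hD : D ⊆ Ms G K W₁) {c : V} (hc : c ∈ K) (hc1 : c ∉ Ms G K W₁) (hcD : ∀ u ∈ D, G.Adj c u) :
    ∀ u ∈ C, G.Adj c u := by
  intro u hu
  by_cases huD : u ∈ D
  · exact hcD u huD
  · obtain ⟨_, _, _, y, hy, y', hy', w, hw, P, hwy, hP, hcP, hyP, hPK⟩ := hC.co u hu huD
    exact r3 hG h hw (hD hy).1 hwy hc (nm hc hc1 hw) (hcD y hy) hP hPK hyP (hcD y' hy') u hcP

/-- a new vertex -/
theorem ext (hG : FH G) (h : OC G K W₁ W₂ z b) (hDc : Conn Gᶜ D) (hD : D ⊆ Ms G K W₁)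
    (hC : Cl G K W₁ W₂ D C) {c u u' : V} (hc : c ∈ K) (hc1 : c ∉ Ms G K W₁) (hc2 : c ∉ Ms G K W₂)
    (hu : u ∈ C) (hu' : u' ∈ C) (hcu : G.Adj c u) (hcu' : ¬ G.Adj c u') (hcC : c ∉ C) :
    Cl G K W₁ W₂ D (insert c C) := by
  have hne : u' ≠ c := fun h' => hcC (h' ▸ hu')
  refine ⟨hC.sub.trans (Set.subset_insert _ _), ?_, ?_⟩
  · exact hC.cc.insert ⟨u', hu', by rw [SimpleGraph.compl_adj]; exact ⟨hne, fun h' => hcu' h'.symm⟩⟩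
  · intro c' hc' hcD'
    rcases hc' with rfl | hc'
    · refine ⟨hc, hc1, hc2, ?_⟩
      by_cases h1 : ∀ v ∈ D, G.Adj c' v
      · exact absurd (comp_to hG h hC hD hc hc1 h1 u' hu') hcu'
      · push Not at h1
        obtain ⟨v₀, hv₀, hcv₀⟩ := h1
        by_cases h2 : ∃ v ∈ D, G.Adj c' v
        · obtain ⟨v₁, hv₁, hcv₁⟩ := h2
          obtain ⟨v, hv, v', hv', hvv⟩ := hDc.2 {x | x ∈ D ∧ G.Adj c' x} (fun x hx => hx.1)
            ⟨v₁, hv₁, hcv₁⟩ fun h' => hcv₀ (by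
              have h3 : v₀ ∈ {x | x ∈ D ∧ G.Adj c' x} := by rw [h']; exact hv₀
              exact h3.2)
          rw [SimpleGraph.compl_adj] at hvv
          have hcv' : ¬ G.Adj c' v' := fun h' => hv'.2 ⟨hv'.1, h'⟩
          obtain ⟨hvK', w, hw, hwv'⟩ := hD hv'.1
          have hvK := (hD hv.1).1
          have hwc := nm hc hc1 hw
          have hwv : G.Adj w v := by
            by_contra hwv
            exact hcv' (tw hG h hw hvK hvK' hc hwv hwv' hvv.2 hwc hv.2)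
          refine ⟨v', hv'.1, v, hv.1, w, hw, {c', v}, hwv', Conn.pair hv.2, Or.inl rfl,
            Or.inr rfl, ?_⟩
          rintro p (rfl | rfl)
          · exact ⟨hc, fun h' => hcv' h'.symm, hwc⟩
          · exact ⟨hvK, fun h' => hvv.2 h'.symm, hwv⟩
        · push Not at h2
          have huD : u ∉ D := fun h' => h2 u h' hcu
          obtain ⟨_, _, _, y, hy, y', hy', w, hw, P, hwy, hP, hcP, hyP, hPK⟩ := hC.co u hu huD
          refine ⟨y, hy, y', hy', w, hw, insert c' P, hwy, hP.insert ⟨u, hcP, hcu.symm⟩,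
            Or.inl rfl, Or.inr hyP, ?_⟩
          rintro p (rfl | hp)
          · exact ⟨hc, fun h' => h2 y hy h'.symm, nm hc hc1 hw⟩
          · exact hPK p hp
    · exact hC.co c' hc' hcD'

/-- the vertices of `T₂` are constant on `C` -/
theorem t2 (hG : FH G) (h : OC G K W₁ W₂ z b) (hDc : Conn Gᶜ D) (hD : D ⊆ Ms G K W₁)
    (hC : Cl G K W₁ W₂ D C) {x : V} (hx : x ∈ Ms G K W₂) :
    (∀ u ∈ C, G.Adj x u) ∨ ∀ u ∈ C, ¬ G.Adj x u := by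
  obtain ⟨hxK, a, ha, hax⟩ := hx
  have hx1 : x ∉ Ms G K W₁ := by
    rintro ⟨_, w, hw, hwx⟩
    rcases h.dis w hw a ha x hxK with h1 | h1
    · exact hwx h1
    · exact hax h1
  have key : (∀ u ∈ D, G.Adj x u) ∨ ∀ u ∈ D, ¬ G.Adj x u := by
    by_contra hcon
    push Not at hcon
    obtain ⟨⟨v₀, hv₀, hxv₀⟩, v₁, hv₁, hxv₁⟩ := hcon
    obtain ⟨v, hv, v', hv', hvv⟩ := hDc.2 {x' | x' ∈ D ∧ G.Adj x x'} (fun x hx => hx.1)
      ⟨v₁, hv₁, hxv₁⟩ fun h' => hxv₀ (by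
        have h3 : v₀ ∈ {x' | x' ∈ D ∧ G.Adj x x'} := by rw [h']; exact hv₀
        exact h3.2)
    rw [SimpleGraph.compl_adj] at hvv
    have hxv' : ¬ G.Adj x v' := fun h' => hv'.2 ⟨hv'.1, h'⟩
    obtain ⟨hvK', w, hw, hwv'⟩ := hD hv'.1
    obtain ⟨hvK, w₀, hw₀, hwv₀⟩ := hD hv.1
    by_cases hwv : G.Adj w v
    · have hav : G.Adj a v := (h.dis w₀ hw₀ a ha v hvK).resolve_left hwv₀
      exact hvv.2 (r0 hG h hw ha hvK' hxK hvK hwv' hax (fun h' => hxv' h'.symm) hwv hav hv.2.symm)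
    · exact hxv' (tw hG h hw hvK hvK' hxK hwv hwv' hvv.2 (nm hxK hx1 hw) hv.2)
  rcases key with h1 | h1
  · exact Or.inl (comp_to hG h hC hD hxK hx1 h1)
  · refine Or.inr fun u hu hxu => ?_
    by_cases huD : u ∈ D
    · exact h1 u huD hxu
    · obtain ⟨huK, hu1, hu2, y, hy, y', hy', w, hw, P, hwy, hP, hcP, hyP, hPK⟩ := hC.co u hu huD
      have h2 := r0 hG h hw ha (hD hy).1 hxK huK hwy hax (fun h' => h1 y hy h'.symm)
        (nm huK hu1 hw) (nm huK hu2 ha) hxu.symm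
      exact (hPK u hcP).2.1 h2.symm

/-- the closure of a co-component -/
theorem closure [Finite V] (hG : FH G) (h : OC G K W₁ W₂ z b) (hDc : Conn Gᶜ D)
    (hD : D ⊆ Ms G K W₁) : ∃ C, Cl G K W₁ W₂ D C ∧
      ∀ x ∈ K, x ∉ Ms G K W₁ → x ∉ C → (∀ u ∈ C, G.Adj x u) ∨ ∀ u ∈ C, ¬ G.Adj x u := by
  obtain ⟨C, hC, hmax⟩ := (Set.toFinite {C : Set V | Cl G K W₁ W₂ D C}).exists_maximal
    ⟨D, subset_rfl, hDc, fun c hc hc' => absurd hc hc'⟩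
  refine ⟨C, hC, fun x hx hx1 hxC => ?_⟩
  by_cases hx2 : x ∈ Ms G K W₂
  · exact t2 hG h hDc hD hC hx2
  · by_contra hcon
    push Not at hcon
    obtain ⟨⟨u', hu', hxu'⟩, u, hu, hxu⟩ := hcon
    have h1 := hmax (ext hG h hDc hD hC hx hx1 hx2 hu hu' hxu hxu' hxC) (Set.subset_insert _ _)
    exact hxC (h1 (Or.inl rfl))

end main

/-- **One rich cell.** -/
theorem cell [Finite V] {G : SimpleGraph V} {K W₁ W₂ : Set V} {z b : V} (hG : FH G)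
    (h : OC G K W₁ W₂ z b) : ∃ K₁ Q : Set V, K₁ ⊆ K ∧ Ms G K W₁ ⊆ K₁ ∧ (∀ x ∈ K₁, x ∉ Ms G K W₂) ∧
      Q ⊆ Ms G K W₁ ∧ (∀ x ∈ Q, ∀ y ∈ Q, x ≠ y → G.Adj x y) ∧
      (∀ x ∈ Q, ∀ y ∈ Q, x ≠ y → ∀ D, CR.Cmp Gᶜ (Ms G K W₁) D → x ∈ D → y ∉ D) ∧
      ∀ u ∈ K₁, ∃ q ∈ Q, ∀ x ∈ K, x ∉ K₁ → (G.Adj x u ↔ G.Adj x q) := by
  classical
  have hne : Nonempty V := ⟨z⟩
  have hC : ∀ D : Set V, CR.Cmp Gᶜ (Ms G K W₁) D → ∃ C, Cl G K W₁ W₂ D C ∧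
      ∀ x ∈ K, x ∉ Ms G K W₁ → x ∉ C → (∀ u ∈ C, G.Adj x u) ∨ ∀ u ∈ C, ¬ G.Adj x u :=
    fun D hD => closure hG h hD.2.1 hD.1
  choose! C hC1 hC2 using hC
  have hr : ∀ D : Set V, CR.Cmp Gᶜ (Ms G K W₁) D → ∃ r, r ∈ D := fun D hD => hD.2.1.1
  choose! r hr using hr
  have hT2 : ∀ x ∈ Ms G K W₁, x ∉ Ms G K W₂ := by
    rintro x ⟨hxK, w, hw, hwx⟩ ⟨_, a, ha, hax⟩
    rcases h.dis w hw a ha x hxK with h1 | h1
    · exact hwx h1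
    · exact hax h1
  have hCK : ∀ D, CR.Cmp Gᶜ (Ms G K W₁) D → ∀ u ∈ C D, u ∈ K ∧ u ∉ Ms G K W₂ := by
    intro D hD u hu
    by_cases huD : u ∈ D
    · exact ⟨(hD.1 huD).1, hT2 u (hD.1 huD)⟩
    · obtain ⟨h1, h2, h3, _⟩ := (hC1 D hD).co u hu huD
      exact ⟨h1, h3⟩
  refine ⟨{u | ∃ D, CR.Cmp Gᶜ (Ms G K W₁) D ∧ u ∈ C D}, {q | ∃ D, CR.Cmp Gᶜ (Ms G K W₁) D ∧ q = r D},
    ?_, ?_, ?_, ?_, ?_, ?_, ?_⟩
  · rintro u ⟨D, hD, hu⟩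
    exact (hCK D hD u hu).1
  · intro x hx
    obtain ⟨D, hD, hxD⟩ := CR.exists_cmp (G := Gᶜ) hx
    exact ⟨D, hD, (hC1 D hD).sub hxD⟩
  · rintro u ⟨D, hD, hu⟩
    exact (hCK D hD u hu).2
  · rintro q ⟨D, hD, rfl⟩
    exact hD.1 (hr D hD)
  · rintro x ⟨D, hD, rfl⟩ y ⟨D', hD', rfl⟩ hne
    by_contra hcon
    have h1 : D ≠ D' := fun h' => hne (by rw [h'])
    exact (hD.sp hD' h1).2 ⟨_, hr D hD, _, hr D' hD', by
      rw [SimpleGraph.compl_adj]; exact ⟨hne, hcon⟩⟩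
  · rintro x ⟨D₁, hD₁, rfl⟩ y ⟨D₂, hD₂, rfl⟩ hne D hD hx hy
    have e1 := hD.eq hD₁ ⟨_, hx, hr D₁ hD₁⟩
    have e2 := hD.eq hD₂ ⟨_, hy, hr D₂ hD₂⟩
    exact hne (by rw [← e1, ← e2])
  · rintro u ⟨D, hD, hu⟩
    refine ⟨r D, ⟨D, hD, rfl⟩, fun x hx hxK₁ => ?_⟩
    have hx1 : x ∉ Ms G K W₁ := by
      intro hx1
      obtain ⟨D', hD', hxD'⟩ := CR.exists_cmp (G := Gᶜ) hx1
      exact hxK₁ ⟨D', hD', (hC1 D' hD').sub hxD'⟩
    have hrC : r D ∈ C D := (hC1 D hD).sub (hr D hD)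
    rcases hC2 D hD x hx hx1 (fun h' => hxK₁ ⟨D, hD, h'⟩) with h2 | h2
    · exact ⟨fun _ => h2 _ hrC, fun _ => h2 _ hu⟩
    · exact ⟨fun h' => absurd h' (h2 _ hu), fun h' => absurd h' (h2 _ hrC)⟩

/-- the rows -/
theorem cell_rows [Finite V] {G : SimpleGraph V} {K W₁ W₂ : Set V} {z b : V} (hG : FH G)
    (h : OC G K W₁ W₂ z b) : ∃ K₁ Q : Set V, K₁ ⊆ K ∧ Ms G K W₁ ⊆ K₁ ∧ (∀ x ∈ K₁, x ∉ Ms G K W₂) ∧
      Q ⊆ Ms G K W₁ ∧ (∀ x ∈ Q, ∀ y ∈ Q, x ≠ y → G.Adj x y) ∧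
      (∀ x ∈ Q, ∀ y ∈ Q, x ≠ y → ∀ D, CR.Cmp Gᶜ (Ms G K W₁) D → x ∈ D → y ∉ D) ∧
      (∀ u ∈ K₁, ∃ q ∈ Q, ∀ x ∈ K, x ∉ K₁ → (G.Adj x u ↔ G.Adj x q)) ∧
      LK.rk G (K₁ ∪ W₁) ((K \ K₁) ∪ W₂) ≤ Q.ncard + 1 := by
  obtain ⟨K₁, Q, h1, h2, h3, h4, h5, h5', h6⟩ := cell hG h
  refine ⟨K₁, Q, h1, h2, h3, h4, h5, h5', h6, ?_⟩
  set B : Set V := (K \ K₁) ∪ W₂ with hB
  have hsub : Rw G (K₁ ∪ W₁) B ⊆ insert B ((fun q => {x | x ∈ B ∧ G.Adj q x}) '' Q) := by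
    rintro _ ⟨u, hu, rfl⟩
    rcases hu with hu | hu
    · right
      obtain ⟨q, hq, hqx⟩ := h6 u hu
      refine ⟨q, hq, ?_⟩
      ext x
      simp only [Set.mem_ofPred_eq]
      refine and_congr_right fun hx => ?_
      rcases hx with hx | hx
      · rw [G.adj_comm q, G.adj_comm u]
        exact (hqx x hx.1 hx.2).symm
      · have h7 : G.Adj x u := nm (h1 hu) (h3 u hu) hx
        have h8 : G.Adj x q := nm (h4 hq).1 (h3 q (h2 (h4 hq))) hx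
        exact ⟨fun _ => h7.symm, fun _ => h8.symm⟩
    · left
      ext x
      simp only [Set.mem_ofPred_eq]
      refine ⟨fun h' => h'.1, fun hx => ⟨hx, ?_⟩⟩
      rcases hx with hx | hx
      · exact nm hx.1 (fun h' => hx.2 (h2 h')) hu
      · exact h.ww u hu x hx
  refine (rk_le_rows G _ _).trans ((Set.ncard_le_ncard hsub (Set.toFinite _)).trans ?_)
  exact (Set.ncard_insert_le _ _).trans (Nat.add_le_add_right (Set.ncard_image_le (Set.toFinite _)) 1)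

end Pool.Agent.MPd439b2.RN
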