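import Pool.Agent.Lib.MP_d439b2_co.RN.Eng

/-!
# MP_d439b2_co, RN/H4: at most two mixers miss vertices of different co-components (helper38; table of helper26)

`h4`: three mixers `w i`, each missing two adjacent vertices `y i`, `q i`, such that for `i < j` each of `y j`, `q j` is
adjacent to `y i` or to `q i`: there is `K3:0,1,02` or `J_2`.
-/

set_option autoImplicit false

namespace Pool.Agent.MPd439b2.RN

open Pool.Agent.MPd439b2 Pool.Agent.MPd439b2.H1T Pool.Agent.MPd439b2.H1R

namespace H4

open Tr

/-- the edges -/
def A : List (ℕ × ℕ) := [(2, 1), (3, 0), (3, 1), (3, 2), (4, 2), (5, 2), (5, 4), (7, 3), (8, 3), (10, 3), (11,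
    3), (6, 0), (6, 1), (6, 2), (7, 2), (8, 2), (8, 7), (6, 3), (6, 4), (6, 5), (10, 6), (11, 6), (9, 0), (9,
    1), (9, 2), (10, 2), (11, 2), (11, 10), (9, 3), (9, 4), (9, 5), (9, 6), (9, 7), (9, 8)]

/-- the non-edges -/
def N : List (ℕ × ℕ) := [(1, 0), (2, 0), (4, 0), (5, 0), (4, 1), (5, 1), (4, 3), (5, 3), (7, 0), (8, 0), (7,
    1), (8, 1), (7, 6), (8, 6), (10, 0), (11, 0), (10, 1), (11, 1), (10, 9), (11, 9)]

/-- excluded: both non-adjacent -/
def I : List (List (ℕ × ℕ) × List (ℕ × ℕ)) := [([], [(7, 4), (7, 5)]), ([], [(8, 4), (8, 5)]), ([], [(10, 4),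
    (10, 5)]), ([], [(11, 4), (11, 5)]), ([], [(10, 7), (10, 8)]), ([], [(11, 7), (11, 8)])]

/-- certificates -/
def cs : List Cert := [
  (true, 104209837083037626135213901513967442704080263747494477824,
      15420924913674222324044814531849379282347194922844553216, [[6], [5], [10], [0], [7], [11]]),
  (false, 125664926662213173390496378817491082353041711752468758528,
      49040605596546778668165015094461806643463460178970542080, [[7], [6], [8], [3], [5], [9], [10, 11]]),
  (false, 131028871505413743739392730393709664265031588096071696384,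
      49040605596546778668165015094452135384480495735249305600, [[10], [9], [11], [3], [4], [6], [7, 8]]),
  (false, 124132431120990472608878463802708387019888543475014041600,
      49040605596546778668165015094461806791037412768646955008, [[7], [6], [8], [3], [4, 5], [9], [10, 11]]),
  (false, 125664926661856361467236810829858696203507282597197643776,
      49040605596546778668165015094461806791037412768646955008, [[7], [6], [8], [3], [4, 5], [9], [10, 11]]),
  (false, 110340205093816257751379821135561225122137465479839612928,
      49040605596546778668165015094461806643463460178970542080, [[7], [6], [8], [3], [5], [9], [10, 11]]),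
  (true, 7662477704329455180827480487981682758147509577949642752,
      27680700706890145066969363773919209106723036070550700032, [[6], [5], [4], [0], [8], [11]]),
  (false, 120301239031525963481886618349165681062524937932455804928,
      49040605596546778668165015094461806643463460178970542080, [[10], [9], [11], [3], [5], [6], [7, 8]]),
  (false, 110340181709433248533673561888971515512074721829647810560,
      49040605596546778668165015094461806791037412768646955008, [[7], [6], [8], [3], [4, 5], [9], [10, 11]]),
  (false, 110340205093459445828120253147928838972603036324568498176,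
      49040605596546778668165015094461806791037412768646955008, [[7], [6], [8], [3], [4, 5], [9], [10, 11]]),
  (true, 116920130986472399613676459037798820924507587346432,
      235301763610275790406838800597303743493510690504704, [[6], [5], [4], [0], [7], [10]]),
  (false, 132561390430662641815457336667469025871826904935242399744,
      49040605596546778668165015094461806643463460178970542080, [[10], [9], [11], [3], [5], [6], [7, 8]]),
  (false, 110340205093459440383685459162649980800665805357544636416,
      49040605596546778668165015094461806791037412768646955008, [[7], [6], [8], [3], [4, 5], [9], [10, 11]]),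
  (false, 110340205093459440383602382412913423558609317416277114880,
      49040605596546778668165015094461806791037412768646955008, [[7], [6], [8], [3], [4, 5], [9], [10, 11]]),
  (false, 131028684433204170828253994307329934752742303103730057216,
      49040605596546778668165015094452135384480495735249305600, [[10], [9], [11], [3], [4], [6], [7, 8]]),
  (false, 118768720106277059961387218090127461283792390126261239808,
      49040605596546778668165015094452135384480495735249305600, [[10], [9], [11], [3], [4], [6], [7, 8]]),
  (false, 131028707817230368122700685566306601026384451665446043648,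
      49040605596546778668165015094461806791037412768646955008, [[10], [9], [11], [3], [4, 5], [6], [7, 8]]),
  (false, 118768743490303257255833909349104127557434538687977226240,
      49040605596546778668165015094461806791037412768646955008, [[10], [9], [11], [3], [4, 5], [6], [7, 8]]),
  (false, 120301215647142948819745565117297113280524963315240140800,
      49040605596546778668165015094461806791037412768646955008, [[10], [9], [11], [3], [4, 5], [6], [7, 8]]),
  (false, 120301239031169146114192256376254436741053277810160828416,
      49040605596546778668165015094461806791037412768646955008, [[10], [9], [11], [3], [4, 5], [6], [7, 8]]),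
  (false, 132561179974070059686612341334499586749474876292708958208,
      49040605596546778668165015094461806791037412768646955008, [[10], [9], [11], [3], [4, 5], [6], [7, 8]]),
  (false, 132561203358096256981059032593456910210003190787629645824,
      49040605596546778668165015094461806791037412768646955008, [[10], [9], [11], [3], [4, 5], [6], [7, 8]]),
  (false, 110340181709433243089155691153936757284967168854561128448,
      49040605596546778668165015094452135384480495735249305600, [[7], [6], [8], [3], [4], [9], [10, 11]]),
  (false, 131028894889439941033839421652686330538673736657787682816,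
      49040605596546778668165015094461806791037412768646955008, [[10], [9], [11], [3], [4, 5], [6], [7, 8]]),
  (false, 124132431120990472608961540552444944261945031416281563136,
      49040605596546778668165015094461806791037412768646955008, [[7], [6], [8], [3], [4, 5], [9], [10, 11]]),
  (false, 120301215647142954264263435852312528694518682223531524096,
      49040605596546778668165015094461806791037412768646955008, [[10], [9], [11], [3], [4, 5], [6], [7, 8]]),
  (false, 132561390430305829892197768679836639722292475779971284992,
      49040605596546778668165015094461806791037412768646955008, [[10], [9], [11], [3], [4, 5], [6], [7, 8]]),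
  (true, 104209813699011428840684132237622961773266059814603063296,
      13888429372808333465686467504697861191355585245195796480, [[6], [4], [10], [0], [7], [11]])]

/-- the tree -/
def t : Tr := bt 167 (bt 168 (im 4) (bt 116 (bt 117 (im 0) (bt 165 (bt 164 (im 2) (lf 10)) (bt 183 (bt 181 (lf
    0) (bt 184 (im 5) (lf 11))) (bt 132 (bt 133 (im 1) (lf 5)) (lf 12))))) (bt 165 (bt 164 (im 2) (bt 183 (bt
    180 (lf 27) (bt 184 (im 5) (lf 2))) (bt 133 (bt 132 (im 1) (lf 22)) (lf 8)))) (bt 183 (bt 184 (im 5) (bt
    181 (bt 180 (im 3) (lf 23)) (lf 26))) (bt 133 (bt 132 (im 1) (lf 13)) (lf 9)))))) (bt 181 (bt 180 (im 3)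
    (bt 184 (bt 183 (im 5) (bt 132 (bt 133 (im 1) (lf 6)) (bt 165 (bt 164 (im 2) (lf 15)) (lf 17)))) (bt 132
    (bt 133 (im 1) (bt 116 (bt 117 (im 0) (lf 24)) (lf 3))) (bt 165 (bt 164 (im 2) (lf 14)) (lf 16))))) (bt
    183 (bt 184 (im 5) (bt 132 (bt 133 (im 1) (bt 116 (bt 117 (im 0) (lf 1)) (lf 4))) (bt 165 (bt 164 (im 2)
    (lf 20)) (lf 21)))) (bt 165 (bt 164 (im 2) (bt 132 (bt 133 (im 1) (lf 25)) (lf 18))) (bt 132 (bt 133 (im
    1) (lf 7)) (lf 19)))))

theorem ok : ck 12 A N [] I cs t = true := by decide +kernel

end H4

/-- **Three mixers.** -/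
theorem h4 {V : Type} {G : SimpleGraph V} (hH : FH G) (hJ : FJ 2 G) {z b c : V} {w y q : ℕ → V}
    (zb : ¬ G.Adj z b) (zc : ¬ G.Adj z c) (bc : G.Adj b c)
    (h : ∀ i < 3, G.Adj z (w i) ∧ ¬ G.Adj z (y i) ∧ ¬ G.Adj z (q i) ∧ G.Adj b (w i) ∧ ¬ G.Adj b (y i) ∧
      ¬ G.Adj b (q i) ∧ G.Adj c (w i) ∧ G.Adj c (y i) ∧ G.Adj c (q i) ∧ ¬ G.Adj (w i) (y i) ∧
      ¬ G.Adj (w i) (q i) ∧ G.Adj (y i) (q i))
    (hw : ∀ i < 3, ∀ j < 3, i ≠ j → G.Adj (w i) (w j) ∧ G.Adj (w i) (y j) ∧ G.Adj (w i) (q j))
    (ho : ∀ j < 3, ∀ i < j, (G.Adj (y j) (y i) ∨ G.Adj (y j) (q i)) ∧ (G.Adj (q j) (y i) ∨ G.Adj (q j) (q i))) :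
    False := by
  obtain ⟨a1, a2, a3, a4, a5, a6, a7, a8, a9, a10, a11, a12⟩ := h 0 (by norm_num)
  obtain ⟨b1, b2, b3, b4, b5, b6, b7, b8, b9, b10, b11, b12⟩ := h 1 (by norm_num)
  obtain ⟨c1, c2, c3, c4, c5, c6, c7, c8, c9, c10, c11, c12⟩ := h 2 (by norm_num)
  obtain ⟨d1, d2, d3⟩ := hw 0 (by norm_num) 1 (by norm_num) (by norm_num)
  obtain ⟨e1, e2, e3⟩ := hw 0 (by norm_num) 2 (by norm_num) (by norm_num)
  obtain ⟨f1, f2, f3⟩ := hw 1 (by norm_num) 0 (by norm_num) (by norm_num)
  obtain ⟨g1, g2, g3⟩ := hw 1 (by norm_num) 2 (by norm_num) (by norm_num)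
  obtain ⟨k1, k2, k3⟩ := hw 2 (by norm_num) 0 (by norm_num) (by norm_num)
  obtain ⟨l1, l2, l3⟩ := hw 2 (by norm_num) 1 (by norm_num) (by norm_num)
  obtain ⟨m1, m2⟩ := ho 1 (by norm_num) 0 (by norm_num)
  obtain ⟨m3, m4⟩ := ho 2 (by norm_num) 0 (by norm_num)
  obtain ⟨m5, m6⟩ := ho 2 (by norm_num) 1 (by norm_num)
  have s1 : ∀ {u v : V}, G.Adj u v → G.Adj v u := fun h => h.symm
  have s2 : ∀ {u v : V}, ¬ G.Adj u v → ¬ G.Adj v u := fun h h' => h h'.symm
  refine refute hH hJ (fun k => [z, b, c, w 0, y 0, q 0, w 1, y 1, q 1, w 2, y 2, q 2].getD k z) 12 H4.A H4.N []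
    ?_ ?_ (by simp) H4.I ?_ H4.cs H4.t H4.ok
  · intro p hp
    simp only [H4.A, List.mem_cons, List.not_mem_nil, or_false] at hp
    rcases hp with rfl | rfl | rfl | rfl | rfl | rfl | rfl | rfl | rfl | rfl | rfl | rfl | rfl | rfl | rfl | rfl | rfl | rfl | rfl | rfl | rfl | rfl | rfl | rfl | rfl | rfl | rfl | rfl | rfl | rfl | rfl | rfl | rfl | rfl <;> first | assumption | (exact s1 (by assumption))
  · intro p hp
    simp only [H4.N, List.mem_cons, List.not_mem_nil, or_false] at hp
    rcases hp with rfl | rfl | rfl | rfl | rfl | rfl | rfl | rfl | rfl | rfl | rfl | rfl | rfl | rfl | rfl | rfl | rfl | rfl | rfl | rfl <;> first | assumption | (exact s2 (by assumption))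
  · intro c hc
    simp only [H4.I, List.mem_cons, List.not_mem_nil, or_false] at hc
    rcases hc with rfl | rfl | rfl | rfl | rfl | rfl <;> rintro ⟨-, hn⟩

    · have n1 := hn _ List.mem_cons_self
      have n2 := hn _ (List.mem_cons_of_mem _ List.mem_cons_self)
      exact (m1).elim n1 n2
    · have n1 := hn _ List.mem_cons_self
      have n2 := hn _ (List.mem_cons_of_mem _ List.mem_cons_self)
      exact (m2).elim n1 n2
    · have n1 := hn _ List.mem_cons_self
      have n2 := hn _ (List.mem_cons_of_mem _ List.mem_cons_self)
      exact (m3).elim n1 n2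
    · have n1 := hn _ List.mem_cons_self
      have n2 := hn _ (List.mem_cons_of_mem _ List.mem_cons_self)
      exact (m4).elim n1 n2
    · have n1 := hn _ List.mem_cons_self
      have n2 := hn _ (List.mem_cons_of_mem _ List.mem_cons_self)
      exact (m5).elim n1 n2
    · have n1 := hn _ List.mem_cons_self
      have n2 := hn _ (List.mem_cons_of_mem _ List.mem_cons_self)
      exact (m6).elim n1 n2

end Pool.Agent.MPd439b2.RN
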