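import Pool.Agent.Lib.MP_d439b2_co.RN.Cell
import Pool.Agent.Lib.MP_d439b2_co.RN.H4
import Pool.Agent.Lib.MP_d439b2_co.Rep.Pat3
import Pool.Agent.Lib.MP_d439b2_co.Rep.RowX2

/-!
# MP_d439b2_co, RN/CellB: one rich cell is cut with bounded rank (helper38; helper26 3160, helper94 3166)

`cellB`: without `K3:0,1,02`, `J_2` and thin spiders of size `m`, and if the missed sets of different members of the
clique `W₁` are disjoint, the cell `K` is cut into `K₁` and `K \ K₁` such that all but at most two members of `W₁` are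
complete to `K \ K₁`, `W₂` is complete to `K₁`, and the rank is bounded.
-/

set_option autoImplicit false

namespace Pool.Agent.MPd439b2.RN

open Pool.Agent.MPd439b2 Pool.Agent.MPd439b2.H1T Pool.Agent.MPd439b2.H1R
open Pool.Agent.MPd439b2.Rep

variable {V : Type}

/-- two cliques with a matching of size 8 contain `J_2` -/
theorem ttf {G : SimpleGraph V} (hJ : FJ 2 G) : NoTP G 8 true true false := fun _ _ h =>
  FT.spfJ2 hJ _ (HC.chkG_sp (L := [[10, 13], [0, 1], [11, 14], [2, 3, 4], [8, 15], [5, 6, 7], [9, 12]])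
    (sp_of_tp h) (by decide))

/-- `w i ~ y j` iff `i ≠ j`, both cliques; `x` complete to the `w i`, adjacent to `y 1`, `y 2`, not to `y 0` -/
theorem jx {G : SimpleGraph V} (hH : FH G) (hJ : FJ 2 G) {x : V} {w y : ℕ → V}
    (hw : ∀ i < 3, ∀ j < 3, i ≠ j → G.Adj (w i) (w j) ∧ G.Adj (w i) (y j) ∧ G.Adj (y i) (y j))
    (hn : ∀ i < 3, ¬ G.Adj (w i) (y i) ∧ w i ≠ y i) (xw : ∀ i < 3, G.Adj x (w i)) (x0 : ¬ G.Adj x (y 0))
    (x1 : G.Adj x (y 1)) (x2 : G.Adj x (y 2)) : False := by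
  obtain ⟨a1, a2, a3⟩ := hw 0 (by norm_num) 1 (by norm_num) (by norm_num)
  obtain ⟨b1, b2, b3⟩ := hw 0 (by norm_num) 2 (by norm_num) (by norm_num)
  obtain ⟨c1, c2, c3⟩ := hw 1 (by norm_num) 2 (by norm_num) (by norm_num)
  obtain ⟨-, d2, -⟩ := hw 1 (by norm_num) 0 (by norm_num) (by norm_num)
  obtain ⟨-, e2, -⟩ := hw 2 (by norm_num) 0 (by norm_num) (by norm_num)
  obtain ⟨-, f2, -⟩ := hw 2 (by norm_num) 1 (by norm_num) (by norm_num)
  have g0 := xw 0 (by norm_num)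
  have g1 := xw 1 (by norm_num)
  have g2 := xw 2 (by norm_num)
  obtain ⟨k0, l0⟩ := hn 0 (by norm_num)
  obtain ⟨k1, l1⟩ := hn 1 (by norm_num)
  obtain ⟨k2, l2⟩ := hn 2 (by norm_num)
  have s1 : ∀ {u v : V}, G.Adj u v → G.Adj v u := fun h => h.symm
  have s2 : ∀ {u v : V}, ¬ G.Adj u v → ¬ G.Adj v u := fun h h' => h h'.symm
  refine refute hH hJ (fun k => [w 0, y 0, x, w 1, y 1, w 2, y 2].getD k x) 7
    [(2, 0), (3, 0), (3, 1), (3, 2), (4, 0), (4, 1), (4, 2), (5, 0), (5, 1), (5, 2), (5, 3), (5, 4),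
      (6, 0), (6, 1), (6, 2), (6, 3), (6, 4)] [(1, 0), (2, 1), (4, 3), (6, 5)] [(4, 3), (6, 5), (1, 0)] ?_ ?_ ?_ []
    (by simp) [(false, msk [(2, 0), (3, 0), (3, 1), (3, 2), (4, 0), (4, 1), (4, 2), (5, 0), (5, 1), (5, 2),
      (5, 3), (5, 4), (6, 0), (6, 1), (6, 2), (6, 3), (6, 4)], msk [(1, 0), (2, 1), (4, 3), (6, 5)],
      [[0], [1], [2], [3], [4], [5], [6]])] (Tr.lf 0) (by decide +kernel)
  · intro p hp
    simp only [List.mem_cons, List.not_mem_nil, or_false] at hp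
    rcases hp with rfl | rfl | rfl | rfl | rfl | rfl | rfl | rfl | rfl | rfl | rfl | rfl | rfl | rfl | rfl |
      rfl | rfl <;> first | assumption | (exact s1 (by assumption))
  · intro p hp
    simp only [List.mem_cons, List.not_mem_nil, or_false] at hp
    rcases hp with rfl | rfl | rfl | rfl <;> first | assumption | (exact s2 (by assumption))
  · intro p hp
    simp only [List.mem_cons, List.not_mem_nil, or_false] at hp
    rcases hp with rfl | rfl | rfl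
    · exact l1.symm
    · exact l2.symm
    · exact l0.symm

/-- `w` misses vertices of one co-component only -/
def One (G : SimpleGraph V) (K W : Set V) (w : V) : Prop :=
  ∀ D, CR.Cmp Gᶜ (Ms G K W) D → ∀ y ∈ K, ¬ G.Adj w y → ∀ q ∈ K, ¬ G.Adj w q → y ∈ D → q ∈ D

theorem not_one {G : SimpleGraph V} {K W : Set V} {w : V} (hw : w ∈ W) (h : ¬ One G K W w) :
    ∃ y ∈ K, ∃ q ∈ K, ¬ G.Adj w y ∧ ¬ G.Adj w q ∧ G.Adj y q ∧
      ∀ v ∈ Ms G K W, v ≠ y → v ≠ q → G.Adj v y ∨ G.Adj v q := by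
  unfold One at h
  push Not at h
  obtain ⟨D, hD, y, hy, hwy, q, hq, hwq, hyD, hqD⟩ := h
  have hqT : q ∈ Ms G K W := ⟨hq, w, hw, hwq⟩
  refine ⟨y, hy, q, hq, hwy, hwq, ?_, fun v hv hvy hvq => ?_⟩
  · by_contra hcon
    exact hqD (hD.mem_of_adj hyD hqT (by
      rw [SimpleGraph.compl_adj]; exact ⟨fun h' => hqD (h' ▸ hyD), hcon⟩))
  · by_contra hcon
    push Not at hcon
    have h1 : v ∈ D := hD.mem_of_adj hyD hv (by
      rw [SimpleGraph.compl_adj]; exact ⟨hvy.symm, fun h' => hcon.1 h'.symm⟩)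
    exact hqD (hD.mem_of_adj h1 hqT (by rw [SimpleGraph.compl_adj]; exact ⟨hvq, hcon.2⟩))

/-- the missed sets of different members of `W` are disjoint -/
def Dj (G : SimpleGraph V) (K W : Set V) : Prop :=
  ∀ w ∈ W, ∀ w' ∈ W, w ≠ w' → ∀ x ∈ K, G.Adj w x ∨ G.Adj w' x

/-- at most two members of `W₁` have to be dropped -/
theorem drop [Finite V] {G : SimpleGraph V} (hH : FH G) (hJ : FJ 2 G) {K W₁ W₂ : Set V} {z b : V}
    (h : OC G K W₁ W₂ z b) (zb : ¬ G.Adj z b) (hb : ∃ a ∈ W₂, G.Adj b a)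
    (hc : ∀ w ∈ W₁, ∀ w' ∈ W₁, w ≠ w' → G.Adj w w') (hd : Dj G K W₁) :
    ∃ W' ⊆ W₁, (W₁ \ W').ncard ≤ 2 ∧ ∀ w ∈ W', One G K W' w := by
  by_contra hcon
  push Not at hcon
  obtain ⟨w₀, hw₀, h₀⟩ := hcon W₁ subset_rfl (by simp)
  obtain ⟨w₁, hw₁, h₁⟩ := hcon (W₁ \ {w₀}) Set.sdiff_subset (by
    have h1 : (W₁ \ (W₁ \ {w₀})).ncard ≤ ({w₀} : Set V).ncard :=
      Set.ncard_le_ncard (fun x hx => by
        by_contra hx'
        exact hx.2 ⟨hx.1, hx'⟩) (Set.toFinite _)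
    rw [Set.ncard_singleton] at h1
    omega)
  have h01 : w₀ ≠ w₁ := fun h' => hw₁.2 h'.symm
  obtain ⟨w₂, hw₂, h₂⟩ := hcon (W₁ \ {w₀, w₁}) Set.sdiff_subset (by
    have h1 : (W₁ \ (W₁ \ {w₀, w₁})).ncard ≤ ({w₀, w₁} : Set V).ncard :=
      Set.ncard_le_ncard (fun x hx => by
        by_contra hx'
        exact hx.2 ⟨hx.1, hx'⟩) (Set.toFinite _)
    rw [Set.ncard_pair h01] at h1
    omega)
  have h02 : w₀ ≠ w₂ := fun h' => hw₂.2 (by rw [← h']; exact Or.inl rfl)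
  have h12 : w₁ ≠ w₂ := fun h' => hw₂.2 (by rw [← h']; exact Or.inr rfl)
  obtain ⟨y₀, y0K, q₀, q0K, wy0, wq0, yq0, o0⟩ := not_one hw₀ h₀
  obtain ⟨y₁, y1K, q₁, q1K, wy1, wq1, yq1, o1⟩ := not_one hw₁ h₁
  obtain ⟨y₂, y2K, q₂, q2K, wy2, wq2, yq2, o2⟩ := not_one hw₂ h₂
  obtain ⟨c, hcW, hbc⟩ := hb
  have hw1 := hw₁.1
  have hw2 := hw₂.1
  -- the vertices of the different missed sets
  have sep : ∀ w ∈ W₁, ∀ w' ∈ W₁, w ≠ w' → ∀ u ∈ K, ∀ v ∈ K, ¬ G.Adj w u → ¬ G.Adj w' v → v ≠ u := by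
    intro w hw w' hw' hne u hu v hv hwu hwv huv
    rcases hd w hw w' hw' hne u hu with h1 | h1
    · exact hwu h1
    · exact hwv (huv ▸ h1)
  have cc : ∀ w ∈ W₁, ∀ u ∈ K, ¬ G.Adj w u → G.Adj c u := fun w hw u hu hwu =>
    (h.dis w hw c hcW u hu).resolve_left hwu
  have see : ∀ w ∈ W₁, ∀ w' ∈ W₁, w ≠ w' → ∀ u ∈ K, ¬ G.Adj w' u → G.Adj w u :=
    fun w hw w' hw' hne u hu hwu => (hd w hw w' hw' hne u hu).resolve_right hwu
  have m1 : ∀ {u : V}, u ∈ K → ¬ G.Adj w₁ u → u ∈ Ms G K W₁ := fun hu hwu => ⟨hu, w₁, hw1, hwu⟩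
  have m2 : ∀ {u : V}, u ∈ K → ¬ G.Adj w₂ u → u ∈ Ms G K W₁ := fun hu hwu => ⟨hu, w₂, hw2, hwu⟩
  have m3 : ∀ {u : V}, u ∈ K → ¬ G.Adj w₂ u → u ∈ Ms G K (W₁ \ {w₀}) := fun hu hwu =>
    ⟨hu, w₂, ⟨hw2, fun h' => h02 h'.symm⟩, hwu⟩
  refine h4 hH hJ (z := z) (b := b) (c := c) (w := fun i => [w₀, w₁, w₂].getD i w₀)
    (y := fun i => [y₀, y₁, y₂].getD i y₀) (q := fun i => [q₀, q₁, q₂].getD i q₀) zb (h.z2 c hcW) hbc ?_ ?_ ?_
  · have key : ∀ w ∈ W₁, ∀ y ∈ K, ∀ q ∈ K, ¬ G.Adj w y → ¬ G.Adj w q → G.Adj y q →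
        G.Adj z w ∧ ¬ G.Adj z y ∧ ¬ G.Adj z q ∧ G.Adj b w ∧ ¬ G.Adj b y ∧ ¬ G.Adj b q ∧ G.Adj c w ∧
        G.Adj c y ∧ G.Adj c q ∧ ¬ G.Adj w y ∧ ¬ G.Adj w q ∧ G.Adj y q := fun w hw y hy q hq h1 h2 h3 =>
      ⟨h.z1 w hw, h.za y hy, h.za q hq, h.b1 w hw, h.ba y hy, h.ba q hq, (h.ww w hw c hcW).symm,
        cc w hw y hy h1, cc w hw q hq h2, h1, h2, h3⟩
    intro i hi
    interval_cases i
    · exact key _ hw₀ _ y0K _ q0K wy0 wq0 yq0
    · exact key _ hw1 _ y1K _ q1K wy1 wq1 yq1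
    · exact key _ hw2 _ y2K _ q2K wy2 wq2 yq2
  · have key : ∀ w ∈ W₁, ∀ w' ∈ W₁, w ≠ w' → ∀ y ∈ K, ∀ q ∈ K, ¬ G.Adj w' y → ¬ G.Adj w' q →
        G.Adj w w' ∧ G.Adj w y ∧ G.Adj w q := fun w hw w' hw' hne y hy q hq h1 h2 =>
      ⟨hc w hw w' hw' hne, see w hw w' hw' hne y hy h1, see w hw w' hw' hne q hq h2⟩
    intro i hi j hj hij
    interval_cases i <;> interval_cases j
    · exact absurd rfl hij
    · exact key _ hw₀ _ hw1 h01 _ y1K _ q1K wy1 wq1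
    · exact key _ hw₀ _ hw2 h02 _ y2K _ q2K wy2 wq2
    · exact key _ hw1 _ hw₀ h01.symm _ y0K _ q0K wy0 wq0
    · exact absurd rfl hij
    · exact key _ hw1 _ hw2 h12 _ y2K _ q2K wy2 wq2
    · exact key _ hw2 _ hw₀ h02.symm _ y0K _ q0K wy0 wq0
    · exact key _ hw2 _ hw1 h12.symm _ y1K _ q1K wy1 wq1
    · exact absurd rfl hij
  · have k01 : ∀ v ∈ K, ¬ G.Adj w₁ v → G.Adj v y₀ ∨ G.Adj v q₀ := fun v hv hwv =>
      o0 v (m1 hv hwv) (sep _ hw₀ _ hw1 h01 _ y0K _ hv wy0 hwv) (sep _ hw₀ _ hw1 h01 _ q0K _ hv wq0 hwv)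
    have k02 : ∀ v ∈ K, ¬ G.Adj w₂ v → G.Adj v y₀ ∨ G.Adj v q₀ := fun v hv hwv =>
      o0 v (m2 hv hwv) (sep _ hw₀ _ hw2 h02 _ y0K _ hv wy0 hwv) (sep _ hw₀ _ hw2 h02 _ q0K _ hv wq0 hwv)
    have k12 : ∀ v ∈ K, ¬ G.Adj w₂ v → G.Adj v y₁ ∨ G.Adj v q₁ := fun v hv hwv =>
      o1 v (m3 hv hwv) (sep _ hw1 _ hw2 h12 _ y1K _ hv wy1 hwv) (sep _ hw1 _ hw2 h12 _ q1K _ hv wq1 hwv)
    intro j hj i hij
    interval_cases j
    · exact absurd hij (Nat.not_lt_zero _)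
    · interval_cases i
      exact ⟨k01 _ y1K wy1, k01 _ q1K wq1⟩
    · interval_cases i
      · exact ⟨k02 _ y2K wy2, k02 _ q2K wq2⟩
      · exact ⟨k12 _ y2K wy2, k12 _ q2K wq2⟩

theorem OC.sub {G : SimpleGraph V} {K W₁ W₂ W' : Set V} {z b : V} (h : OC G K W₁ W₂ z b)
    (hW : W' ⊆ W₁) : OC G K W' W₂ z b :=
  ⟨fun w hw => h.w1K w (hW hw), h.w2K, h.zK, fun w hw => h.ww w (hW hw), fun w hw => h.z1 w (hW hw), h.z2,
    h.za, fun w hw => h.b1 w (hW hw), h.ba, fun w hw => h.dis w (hW hw), h.sn⟩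

/-- rows of `A` which are rows of `Q` -/
theorem rk_sub [Finite V] {G : SimpleGraph V} {A Q B : Set V}
    (h : ∀ u ∈ A, ∃ q ∈ Q, ∀ x ∈ B, (G.Adj u x ↔ G.Adj q x)) : LK.rk G A B ≤ LK.rk G Q B := by
  unfold LK.rk
  refine Submodule.finrank_mono (Submodule.span_mono ?_)
  rintro _ ⟨u, hu, rfl⟩
  obtain ⟨q, hq, hqx⟩ := h u hu
  refine ⟨q, hq, ?_⟩
  funext x
  unfold LK.row
  by_cases hx : x ∈ B
  · by_cases hux : G.Adj u x
    · rw [if_pos ⟨hx, (hqx x hx).1 hux⟩, if_pos ⟨hx, hux⟩]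
    · rw [if_neg fun h' => hux ((hqx x hx).2 h'.2), if_neg fun h' => hux h'.2]
  · rw [if_neg fun h' => hx h'.1, if_neg fun h' => hx h'.1]

/-- **One rich cell is cut with bounded rank.** -/
theorem cellB (m : ℕ) : ∃ R : ℕ, ∀ (V : Type) [Finite V] (G : SimpleGraph V), FH G → FJ 2 G →
    NoTP G m true false false → ∀ (K W₁ W₂ : Set V) (z b : V), OC G K W₁ W₂ z b → ¬ G.Adj z b →
    (∃ a ∈ W₂, G.Adj b a) → (∀ w ∈ W₁, ∀ w' ∈ W₁, w ≠ w' → G.Adj w w') → Dj G K W₁ →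
    ∃ W' K₁ : Set V, W' ⊆ W₁ ∧ (W₁ \ W').ncard ≤ 2 ∧ K₁ ⊆ K ∧ Ms G K W' ⊆ K₁ ∧
      (∀ x ∈ K₁, x ∉ Ms G K W₂) ∧ LK.rk G (K₁ ∪ W') ((K \ K₁) ∪ W₂) ≤ R := by
  classical
  obtain ⟨M, hM⟩ := W.ramC Prop (max (max m 8) 3)
  obtain ⟨N, hN⟩ := rk3 (max M 3)
  refine ⟨N + 2, fun V _ G hH hJ hT K W₁ W₂ z b h zb hb hc hd => ?_⟩
  obtain ⟨W', hW', hW2, hone⟩ := drop hH hJ h zb hb hc hd
  have h' := h.sub hW'
  obtain ⟨K₁, Q, k1, k2, k3, q1, q2, q3, q4, -⟩ := cell_rows hH h'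
  refine ⟨W', K₁, hW', hW2, k1, k2, k3, ?_⟩
  have hr : ∀ q ∈ Q, ∃ w, w ∈ W' ∧ ¬ G.Adj w q := fun q hq => by
    obtain ⟨_, w, hw, hwq⟩ := q1 hq
    exact ⟨w, hw, hwq⟩
  have hnV : Nonempty V := ⟨z⟩
  choose! r hr1 hr2 using hr
  have hr3 : ∀ q ∈ Q, ∀ q' ∈ Q, q ≠ q' → G.Adj (r q) q' := by
    intro q hq q' hq' hne
    by_contra hcon
    obtain ⟨D, hD, hqD⟩ := CR.exists_cmp (G := Gᶜ) (q1 hq)
    exact q3 q hq q' hq' hne D hD hqD (hone _ (hr1 q hq) D hD q (q1 hq).1 (hr2 q hq) q' (q1 hq').1 hcon hqD)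
  have hr4 : ∀ q ∈ Q, ∀ q' ∈ Q, q ≠ q' → G.Adj (r q) (r q') := by
    intro q hq q' hq' hne
    refine hc _ (hW' (hr1 q hq)) _ (hW' (hr1 q' hq')) fun h1 => hr2 q' hq' ?_
    rw [← h1]
    exact hr3 q hq q' hq' hne
  have hcore : LK.rk G Q (K \ K₁) ≤ N := by
    refine hN V G Q (K \ K₁) ?_
    rintro ⟨a, d, hp⟩
    have h3M : 3 ≤ max M 3 := le_max_right _ _
    have hMM : M ≤ max M 3 := le_max_left _ _
    -- the vertices `d i` see all `r q`
    have hd1 : ∀ x ∈ K \ K₁, ∀ q ∈ Q, G.Adj x (r q) := fun x hx q hq =>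
      (nm hx.1 (fun h' => hx.2 (k2 h')) (hr1 q hq)).symm
    -- the three vertices of `jx`
    have kill : ∀ (u v t x : V), u ∈ Q → v ∈ Q → t ∈ Q → x ∈ K \ K₁ → u ≠ v → u ≠ t → v ≠ t →
        ¬ G.Adj x u → G.Adj x v → G.Adj x t → False := by
      intro u v t x hu hv ht hx huv hut hvt xu xv xt
      refine jx hH hJ (x := x) (w := fun i => [r u, r v, r t].getD i x) (y := fun i => [u, v, t].getD i x)
        ?_ ?_ ?_ xu xv xt
      · intro i hi j hj hij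
        interval_cases i <;> interval_cases j
        · exact absurd rfl hij
        · exact ⟨hr4 _ hu _ hv huv, hr3 _ hu _ hv huv, q2 _ hu _ hv huv⟩
        · exact ⟨hr4 _ hu _ ht hut, hr3 _ hu _ ht hut, q2 _ hu _ ht hut⟩
        · exact ⟨hr4 _ hv _ hu huv.symm, hr3 _ hv _ hu huv.symm, q2 _ hv _ hu huv.symm⟩
        · exact absurd rfl hij
        · exact ⟨hr4 _ hv _ ht hvt, hr3 _ hv _ ht hvt, q2 _ hv _ ht hvt⟩
        · exact ⟨hr4 _ ht _ hu hut.symm, hr3 _ ht _ hu hut.symm, q2 _ ht _ hu hut.symm⟩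
        · exact ⟨hr4 _ ht _ hv hvt.symm, hr3 _ ht _ hv hvt.symm, q2 _ ht _ hv hvt.symm⟩
        · exact absurd rfl hij
      · have key : ∀ q ∈ Q, ¬ G.Adj (r q) q ∧ r q ≠ q := fun q hq =>
          ⟨hr2 q hq, fun h1 => h.w1K _ (hW' (hr1 q hq)) (by rw [h1]; exact (q1 hq).1)⟩
        intro i hi
        interval_cases i
        · exact key _ hu
        · exact key _ hv
        · exact key _ ht
      · intro i hi
        interval_cases i
        · exact hd1 x hx _ hu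
        · exact hd1 x hx _ hv
        · exact hd1 x hx _ ht
    rcases hp with ⟨p1, p2, p3⟩ | ⟨p1, p2, p3⟩ | ⟨p1, p2, p3⟩
    · -- a matching
      have inja : ∀ i < M, ∀ j < M, i ≠ j → a i ≠ a j := by
        intro i hi j hj hij h1
        have h2 := (p3 i (by omega) i (by omega)).2 rfl
        rw [h1] at h2
        exact hij ((p3 j (by omega) i (by omega)).1 h2).symm
      have injd : ∀ i < M, ∀ j < M, i ≠ j → d i ≠ d j := by
        intro i hi j hj hij h1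
        have h2 := (p3 i (by omega) i (by omega)).2 rfl
        rw [h1] at h2
        exact hij ((p3 i (by omega) j (by omega)).1 h2)
      obtain ⟨σ, c, s1, s2, s3⟩ := hM fun i j => G.Adj (d i) (d j)
      have hK : m ≤ max (max m 8) 3 := (le_max_left _ _).trans (le_max_left _ _)
      have hK' : 8 ≤ max (max m 8) 3 := (le_max_right _ _).trans (le_max_left _ _)
      have inj : ∀ i < max (max m 8) 3, ∀ j < max (max m 8) 3, i ≠ j → σ i ≠ σ j := by
        intro i hi j hj hij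
        rcases lt_or_gt_of_ne hij with h1 | h1
        · exact (s1 i j h1 hj).ne
        · exact (s1 j i h1 hi).ne'
      have tp : ∀ n ≤ max (max m 8) 3, TP G n true (decide c) false (fun i => a (σ i)) (fun i => d (σ i)) := by
        intro n hn
        refine ⟨fun i hi j hj h1 => ?_, fun i hi j hj hij => inja _ (s2 _ (by omega)) _ (s2 _ (by omega))
          (inj _ (by omega) _ (by omega) hij), fun i hi j hj hij => injd _ (s2 _ (by omega)) _
          (s2 _ (by omega)) (inj _ (by omega) _ (by omega) hij), fun i hi j hj hij => ?_,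
          fun i hi j hj hij => ?_, fun i hi j hj => ?_⟩
        · have h2 := s2 i (by omega)
          have h3 := s2 j (by omega)
          exact (p2 (σ j) (by omega)).2 (h1 ▸ k2 (q1 (p1 (σ i) (by omega))))
        · have h2 := s2 i (by omega)
          have h3 := s2 j (by omega)
          exact iff_of_true (q2 _ (p1 _ (by omega)) _ (p1 _ (by omega))
            (inja _ h2 _ h3 (inj _ (by omega) _ (by omega) hij))) rfl
        · rw [decide_eq_true_iff]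
          rcases lt_or_gt_of_ne hij with h1 | h1
          · exact iff_of_eq (s3 i j h1 (by omega))
          · rw [G.adj_comm]
            exact iff_of_eq (s3 j i h1 (by omega))
        · have h2 := s2 i (by omega)
          have h3 := s2 j (by omega)
          show G.Adj (a (σ i)) (d (σ j)) ↔ _
          rw [p3 _ (by omega) _ (by omega)]
          by_cases hij : i = j
          · subst hij
            simp
          · have h4 := inj i (by omega) j (by omega) hij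
            simp [hij, h4]
      by_cases hcc : c
      · have h1 := tp 8 hK'
        rw [decide_eq_true hcc] at h1
        exact ttf hJ _ _ h1
      · have h1 := tp m hK
        rw [decide_eq_false hcc] at h1
        exact hT _ _ h1
    · -- a co-matching
      have inja : ∀ i < 3, ∀ j < 3, i ≠ j → a i ≠ a j := by
        intro i hi j hj hij h1
        have h2 := (p3 i (by omega) j (by omega)).2 hij
        rw [h1] at h2
        exact (p3 j (by omega) j (by omega)).1 h2 rfl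
      exact kill (a 0) (a 1) (a 2) (d 0) (p1 0 (by omega)) (p1 1 (by omega)) (p1 2 (by omega))
        (p2 0 (by omega)) (inja _ (by norm_num) _ (by norm_num) (by norm_num))
        (inja _ (by norm_num) _ (by norm_num) (by norm_num)) (inja _ (by norm_num) _ (by norm_num) (by norm_num))
        (fun h1 => (p3 0 (by omega) 0 (by omega)).1 h1.symm rfl)
        ((p3 1 (by omega) 0 (by omega)).2 (by norm_num)).symm
        ((p3 2 (by omega) 0 (by omega)).2 (by norm_num)).symm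
    · -- a half graph
      have inja : ∀ i j, i < j → j < 3 → a i ≠ a j := by
        intro i j hij hj h1
        have h2 := (p3 i (by omega) i (by omega)).2 le_rfl
        rw [h1] at h2
        have h3 := (p3 j (by omega) i (by omega)).1 h2
        omega
      exact kill (a 2) (a 0) (a 1) (d 1) (p1 2 (by omega)) (p1 0 (by omega)) (p1 1 (by omega))
        (p2 1 (by omega)) (inja 0 2 (by norm_num) (by norm_num)).symm
        (inja 1 2 (by norm_num) (by norm_num)).symm (inja 0 1 (by norm_num) (by norm_num))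
        (fun h1 => absurd ((p3 2 (by omega) 1 (by omega)).1 h1.symm) (by norm_num))
        ((p3 0 (by omega) 1 (by omega)).2 (by norm_num)).symm
        ((p3 1 (by omega) 1 (by omega)).2 le_rfl).symm
  obtain ⟨sy, mo, su, -, on, -⟩ := LK.a1 V G
  have hK1 : LK.rk G K₁ (K \ K₁) ≤ N := (rk_sub fun u hu => by
    obtain ⟨q, hq, hqx⟩ := q4 u hu
    refine ⟨q, hq, fun x hx => ?_⟩
    rw [G.adj_comm u, G.adj_comm q]
    exact hqx x hx.1 hx.2).trans hcore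
  have e1 : LK.rk G W' (K \ K₁) ≤ 1 := on _ _ Set.univ fun w hw => Or.inl fun x hx =>
    iff_of_true (nm hx.1 (fun h1 => hx.2 (k2 h1)) hw) trivial
  have e2 : LK.rk G (K₁ ∪ W') W₂ ≤ 1 := on _ _ Set.univ fun u hu => Or.inl fun a ha =>
    iff_of_true (by
      rcases hu with hu | hu
      · exact (nm (k1 hu) (k3 u hu) ha).symm
      · exact h'.ww u hu a ha) trivial
  have e3 := su K₁ W' (K \ K₁)
  have e4 : LK.rk G (K₁ ∪ W') ((K \ K₁) ∪ W₂) ≤ LK.rk G (K₁ ∪ W') (K \ K₁) + LK.rk G (K₁ ∪ W') W₂ := by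
    rw [sy (K₁ ∪ W') ((K \ K₁) ∪ W₂), sy (K₁ ∪ W') (K \ K₁), sy (K₁ ∪ W') W₂]
    exact su _ _ _
  omega

end Pool.Agent.MPd439b2.RN
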