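import Pool.Agent.Lib.MP_d439b2_co.RN.Cell

/-!
# MP_d439b2_co, RN/ClZ: half cells and chains of classes (helper29, note 3194: Claims Z and N)

`HC G K W`: `K` is a cell all of whose mixers are half mixers, `W` is the set of the mixers.  `Ch G K W A w z y`: `A`
classes of mixers of `K` separated by the stable vertices `z a`.  `claimZ`: another half cell contains at most three of
the `z a`.  `claimN`: if a half cell contains `K` and `z e` then at most one `z c`, `c > e`, is outside `K` and `W`.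
-/

set_option autoImplicit false

namespace Pool.Agent.MPd439b2.RN

open Pool.Agent.MPd439b2 Pool.Agent.MPd439b2.H1T Pool.Agent.MPd439b2.H1R

variable {V : Type}

/-- a cell with half mixers -/
structure HC (G : SimpleGraph V) (K W : Set V) : Prop where
  out : ∀ w ∈ W, w ∉ K
  nb : ∀ v, v ∉ K → ∀ x ∈ K, G.Adj v x → ∀ y ∈ K, ¬ G.Adj v y → v ∈ W
  cl : ∀ w ∈ W, ∀ w' ∈ W, w ≠ w' → G.Adj w w'
  row : ∀ w ∈ W, ∀ w' ∈ W, ∀ x ∈ K, ¬ G.Adj w x → ¬ G.Adj w' x → ∀ z, z ∉ K → z ∉ W →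
    (∀ u ∈ K, ¬ G.Adj z u) → G.Adj z w → G.Adj z w'
  lt : ∀ w ∈ W, ∃ p, G.Adj w p ∧ ∀ x ∈ K, ¬ G.Adj p x

/-- a chain of `A` classes -/
structure Ch (G : SimpleGraph V) (K W : Set V) (A : ℕ) (w z y : ℕ → V) : Prop where
  wW : ∀ a, a < A → w a ∈ W
  zO : ∀ a, a < A → z a ∉ K ∧ ∀ x ∈ K, ¬ G.Adj (z a) x
  st : ∀ a, a < A → ∀ b, b < A → a ≠ b → z a ≠ z b ∧ ¬ G.Adj (z a) (z b)
  wz : ∀ a, a < A → ∀ b, b < A → (G.Adj (z a) (w b) ↔ b < a)
  yK : ∀ a, a < A → y a ∈ K ∧ ¬ G.Adj (y a) (w a)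
  yw : ∀ a, a < A → ∀ b, b < A → a ≠ b → G.Adj (y a) (w b)

variable {G : SimpleGraph V} {K W K' W' : Set V} {A : ℕ} {w z y : ℕ → V}

/-- two mixers of `K` outside `K'` -/
theorem two_out (h : Ch G K W A w z y) (h' : HC G K' W') (hd : Disjoint K K') {a b c d : ℕ} (hab : a < b)
    (hbd : b < d) (hca : c ≤ a) (hd' : d < A) (hc : z c ∈ K') (hdz : z d ∈ K')
    (ha : w a ∉ K') (hb : w b ∉ K') : False := by
  have h1 : w a ∈ W' := h'.nb _ ha _ hdz ((h.wz d hd' a (by omega)).2 (by omega)).symm _ hc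
    (fun h2 => by have := (h.wz c (by omega) a (by omega)).1 h2.symm; omega)
  have h2 : w b ∈ W' := h'.nb _ hb _ hdz ((h.wz d hd' b (by omega)).2 (by omega)).symm _ hc
    (fun h2 => by have := (h.wz c (by omega) b (by omega)).1 h2.symm; omega)
  have h3 : y a ∉ K' := fun h3 => Set.disjoint_left.mp hd (h.yK a (by omega)).1 h3
  have h4 : ¬ G.Adj (y a) (w a) := (h.yK a (by omega)).2
  have h5 : G.Adj (y a) (w b) := h.yw a (by omega) b (by omega) (by omega)
  have h6 : y a ∉ W' := fun h6 => h4 (h'.cl _ h6 _ h1 fun h7 => by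
    rw [h7] at h5 h6
    have h8 : z d ∈ K' := hdz
    have h9 := (h.zO d hd').2 _ (h.yK a (by omega)).1
    rw [h7] at h9
    exact h9 ((h.wz d hd' a (by omega)).2 (by omega)))
  have h7 : ∀ u ∈ K', ¬ G.Adj (y a) u := by
    intro u hu h8
    exact h6 (h'.nb _ h3 _ hu h8 _ hc fun h9 => (h.zO c (by omega)).2 _ (h.yK a (by omega)).1 h9.symm)
  exact h4 (h'.row _ h2 _ h1 _ hc (fun h8 => by have := (h.wz c (by omega) b (by omega)).1 h8.symm; omega)
    (fun h8 => by have := (h.wz c (by omega) a (by omega)).1 h8.symm; omega) _ h3 h6 h7 h5)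

/-- the model -/
theorem two_in (hG : FH G) (h : Ch G K W A w z y) (hWc : ∀ w ∈ W, ∀ w' ∈ W, w ≠ w' → G.Adj w w')
    (h' : HC G K' W') (hd : Disjoint K K') {b d e : ℕ} (hbd : b < d)
    (hde : d < e) (he : e < A) (hdz : z d ∈ K') (hez : z e ∈ K') (hb : w b ∈ K') (hdw : w d ∈ K') : False := by
  have h1 : y e ∉ K' := fun h3 => Set.disjoint_left.mp hd (h.yK e he).1 h3
  have h2 : G.Adj (y e) (w b) := h.yw e he b (by omega) (by omega)
  have h3 : G.Adj (y e) (w d) := h.yw e he d (by omega) (by omega)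
  have h4 : y e ∈ W' := h'.nb _ h1 _ hb h2 _ hez fun h4 => (h.zO e he).2 _ (h.yK e he).1 h4.symm
  obtain ⟨p, hp, hpK⟩ := h'.lt _ h4
  have hne : w b ≠ w d := by
    intro h5
    have h6 := (h.wz d (by omega) b (by omega)).2 hbd
    rw [h5] at h6
    have := (h.wz d (by omega) d (by omega)).1 h6
    omega
  exact mdl6 hG (p := w b) (q := y e) (r := w d) (x := z d) (y := p) (z := z e) h2.symm
    (hWc _ (h.wW b (by omega)) _ (h.wW d (by omega)) hne) h3
    ((h.wz d (by omega) b (by omega)).2 hbd).symm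
    (fun h5 => (h.zO d (by omega)).2 _ (h.yK e he).1 h5.symm)
    (fun h5 => by have := (h.wz d (by omega) d (by omega)).1 h5.symm; omega)
    (fun h5 => hpK _ hb h5.symm) hp (fun h5 => hpK _ hdw h5.symm)
    ((h.wz e he b (by omega)).2 (by omega)).symm
    (fun h5 => (h.zO e he).2 _ (h.yK e he).1 h5.symm)
    ((h.wz e he d (by omega)).2 hde).symm
    (fun h5 => hpK _ hdz h5.symm) (h.st d (by omega) e he (by omega)).2
    (fun h5 => hpK _ hez h5)

/-- **Claim Z.** -/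
theorem claimZ (hG : FH G) (h : Ch G K W A w z y) (hWc : ∀ w ∈ W, ∀ w' ∈ W, w ≠ w' → G.Adj w w')
    (h' : HC G K' W') (hd : Disjoint K K') {a b c d : ℕ} (hab : a < b) (hbc : b < c) (hcd : c < d) (hA : d < A)
    (ha : z a ∈ K') (hb : z b ∈ K') (hc : z c ∈ K') (hdz : z d ∈ K') : False := by
  by_cases h1 : w a ∈ K'
  · by_cases h2 : w b ∈ K'
    · exact two_in hG h hWc h' hd hab (by omega) hA hb hdz h1 h2
    · by_cases h3 : w c ∈ K'
      · exact two_in hG h hWc h' hd (by omega : a < c) hcd hA hc hdz h1 h3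
      · exact two_out h h' hd hbc hcd (by omega : a ≤ b) hA ha hdz h2 h3
  · by_cases h2 : w b ∈ K'
    · by_cases h3 : w c ∈ K'
      · exact two_in hG h hWc h' hd hbc hcd hA hc hdz h2 h3
      · exact two_out h h' hd (by omega : a < c) hcd (le_refl a) hA ha hdz h1 h3
    · exact two_out h h' hd hab (by omega) (le_refl a) hA ha hdz h1 h2

/-- **Claim N.** -/
theorem claimN (h : Ch G K W A w z y) (hK : K ⊆ K') (h' : HC G K' W') {e c d : ℕ} (hec : e < c) (hcd : c < d)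
    (hA : d < A) (he : z e ∈ K') (hc : z c ∉ K') (hc' : z c ∉ W') (hd : z d ∉ K') (hd' : z d ∉ W') : False := by
  have key : ∀ a, a < A → z a ∉ K' → z a ∉ W' → ∀ u ∈ K', ¬ G.Adj (z a) u := by
    intro a ha h1 h2 u hu h3
    exact h2 (h'.nb _ h1 _ hu h3 _ (hK (h.yK a ha).1) ((h.zO a ha).2 _ (h.yK a ha).1))
  have hw : ∀ a, a < d → w a ∈ W' := by
    intro a ha
    have h1 : w a ∉ K' := fun h1 => key d hA hd hd' _ h1 ((h.wz d hA a (by omega)).2 ha)
    have h2 : d ≠ a := by omega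
    exact h'.nb _ h1 _ (hK (h.yK d hA).1) (h.yw d hA a (by omega) h2).symm _ (hK (h.yK a (by omega)).1)
      fun h3 => (h.yK a (by omega)).2 h3.symm
  have h1 := h'.row _ (hw e (by omega)) _ (hw c hcd) _ he
    (fun h2 => by have := (h.wz e (by omega) e (by omega)).1 h2.symm; omega)
    (fun h2 => by have := (h.wz e (by omega) c (by omega)).1 h2.symm; omega) _ hc hc'
    (key c (by omega) hc hc') ((h.wz c (by omega) e (by omega)).2 hec)
  have := (h.wz c (by omega) c (by omega)).1 h1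
  omega

end Pool.Agent.MPd439b2.RN
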