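import Pool.Agent.Lib.MP_d439b2_co.RN.Eng

/-!
# MP_d439b2_co, RN/ClqA: many induced matchings with constant relations are pairwise anticomplete (helper28)

`eng`: the engine for vertices with a known adjacency.  `Cln G m n e cd`: the matchings `e k s` (`k < m`, `s : Bool`,
letters `a < n`, vertices `b : Bool`), all different, the two matchings of one index `k` are together an induced matching,
the relation between the matchings of the indices `k < l` is the code `cd`.  `Cln.zero` (`m ≥ 6`, `n ≥ 3`): without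
`K3:0,1,02` and `J_2` the code is zero.  Used in `RN/Clq.lean` (CLQ lemma of helper90, note 3199 (A)).
-/

set_option autoImplicit false

namespace Pool.Agent.MPd439b2.RN

open Pool.Agent.MPd439b2 Pool.Agent.MPd439b2.H1T Pool.Agent.MPd439b2.H1R
open Pool.Agent.MPd439b2.BU
open Pool.Agent.MPd439b2.HC

variable {V : Type}

namespace Clq

/-- the engine: vertices `x i` with the known adjacency `ad` -/
theorem eng {G : SimpleGraph V} {ι : Type} (x : ι → V) (ad : ι → ι → Bool) (hne : ∀ i j, i ≠ j → x i ≠ x j)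
    (had : ∀ i j, i ≠ j → (G.Adj (x i) (x j) ↔ ad i j = true)) (d : ι) (T : List ι) (hT : T.Nodup) {k : ℕ}
    {q : ℕ → ℕ → Bool} (hq : SPF G Set.univ k q) (C : List (List ℕ))
    (hc : chkG T.length k (fun i j => ad (T.getD i d) (T.getD j d)) q C = true) : False := by
  have hd : ∀ i < T.length, ∀ j < i, T.getD i d ≠ T.getD j d := by
    intro i hi j hj h
    rw [List.getD_eq_getElem _ _ hi, List.getD_eq_getElem _ _ (hj.trans hi)] at h
    have := (List.Nodup.getElem_inj_iff hT).1 h
    omega
  refine hq _ (chkG_sp (L := C) (S := fun p => {x (T.getD p d)}) ⟨fun _ _ => Set.subset_univ _,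
    fun _ _ => Conn.singleton G _, fun p hp q hq => ?_, fun p hp q hq => ?_⟩ hc)
  · exact Set.disjoint_singleton.2 (hne _ _ (hd p hp q hq))
  · rw [tch_single]
    exact had _ _ (hd p hp q hq)

/-- matchings with constant relations -/
structure Cln (G : SimpleGraph V) (m n : ℕ) (e : ℕ → Bool → ℕ → Bool → V)
    (cd : Bool → Bool → Bool → Bool → Bool) : Prop where
  mat : ∀ k < m, ∀ s, ∀ a < n, G.Adj (e k s a false) (e k s a true)
  ind : ∀ k < m, ∀ s s' a a' b b', a < n → a' < n → (s, a) ≠ (s', a') →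
    e k s a b ≠ e k s' a' b' ∧ ¬ G.Adj (e k s a b) (e k s' a' b')
  ne : ∀ k l, k < l → l < m → ∀ s s' a a' b b', a < n → a' < n → e k s a b ≠ e l s' a' b'
  cr : ∀ k l, k < l → l < m → ∀ s s' a a' b b', a < n → a' < n →
    (G.Adj (e k s a b) (e l s' a' b') ↔ cd s s' b b' = true)

variable {G : SimpleGraph V} {m n : ℕ} {e : ℕ → Bool → ℕ → Bool → V} {cd : Bool → Bool → Bool → Bool → Bool}

theorem Cln.nea (h : Cln G m n e cd) {k : ℕ} (hk : k < m) {s s' : Bool} {a a' : ℕ} {b b' : Bool} {l : ℕ} (hl : l < m)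
    (ha : a < n) (ha' : a' < n) (hne : (k, s, a, b) ≠ (l, s', a', b')) : e k s a b ≠ e l s' a' b' := by
  rcases lt_trichotomy k l with hkl | rfl | hkl
  · exact h.ne k l hkl hl s s' a a' b b' ha ha'
  · by_cases h1 : (s, a) = (s', a')
    · obtain ⟨rfl, rfl⟩ := Prod.mk.inj h1
      rcases b with _ | _ <;> rcases b' with _ | _
      · exact absurd rfl hne
      · exact (h.mat k hk s a ha).ne
      · exact (h.mat k hk s a ha).ne'
      · exact absurd rfl hne
    · exact (h.ind k hk s s' a a' b b' ha ha' h1).1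
  · exact (h.ne l k hkl hk s' s a' a b' b ha' ha).symm

/-- the adjacency in one index -/
theorem Cln.adk (h : Cln G m n e cd) {k : ℕ} (hk : k < m) {s s' : Bool} {a a' : ℕ} {b b' : Bool}
    (ha : a < n) (ha' : a' < n) :
    G.Adj (e k s a b) (e k s' a' b') ↔ (s = s' ∧ a = a' ∧ b ≠ b') := by
  by_cases h1 : (s, a) = (s', a')
  · obtain ⟨rfl, rfl⟩ := Prod.mk.inj h1
    rcases b with _ | _ <;> rcases b' with _ | _
    · simp
    · simpa using h.mat k hk s a ha
    · simpa using (h.mat k hk s a ha).symm
    · simp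
  · refine iff_of_false (h.ind k hk s s' a a' b b' ha ha' h1).2 ?_
    rintro ⟨rfl, rfl, -⟩
    exact h1 rfl

/-- the adjacency table of two matchings with the code `v` -/
def ad2 (v : ℕ) (i j : Bool × Fin 3 × Bool) : Bool :=
  bif i.1 == j.1 then (i.2.1 == j.2.1) && !(i.2.2 == j.2.2)
  else bif i.1 then v.testBit (2 * j.2.2.toNat + i.2.2.toNat) else v.testBit (2 * i.2.2.toNat + j.2.2.toNat)

/-- the list of the vertices -/
def T2 : List (Bool × Fin 3 × Bool) :=
  [(false, 0, false), (false, 0, true), (false, 1, false), (false, 1, true), (false, 2, false), (false, 2, true),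
    (true, 0, false), (true, 0, true), (true, 1, false), (true, 1, true), (true, 2, false), (true, 2, true)]

/-- the models -/
def C2 : List (List (List ℕ)) :=
  [[],
  [[0], [6], [2, 8], [1], [7], [10]], [[0], [7], [2, 9], [1], [6], [11]], [[0, 6], [2], [7], [1], [3], [4]],
  [[1], [6], [3, 8], [0], [7], [10]], [[0, 6], [8], [1], [7], [9], [10]], [[1, 6], [3], [8], [0], [2], [5]],
  [[1, 6], [8], [3], [7], [9], [10]], [[1], [7], [3, 9], [0], [6], [11]], [[0, 6], [2], [8], [1], [3], [4]],
  [[0, 7], [9], [1], [6], [8], [11]], [[0, 6], [2], [8], [1], [3], [4]], [[1, 6], [3], [7], [0], [2], [5]],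
  [[0, 6], [8], [2], [7], [9], [10]], [[1, 6], [3], [8], [0], [2], [5]]]

theorem ok2 : ∀ v < 15, v ≠ 0 → chkG T2.length 6 (fun i j => ad2 v (T2.getD i (false, 0, false))
    (T2.getD j (false, 0, false))) R3.q2 (C2.getD v []) = true := by decide +kernel

/-- the code as a number -/
def cn (c : Bool → Bool → Bool) : ℕ :=
  (c false false).toNat + 2 * (c false true).toNat + 4 * (c true false).toNat + 8 * (c true true).toNat

theorem cn_bit (c : Bool → Bool → Bool) (b b' : Bool) : (cn c).testBit (2 * b.toNat + b'.toNat) = c b b' := by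
  unfold cn
  rcases h1 : c false false with _ | _ <;> rcases h2 : c false true with _ | _ <;>
    rcases h3 : c true false with _ | _ <;> rcases h4 : c true true with _ | _ <;>
    rcases b with _ | _ <;> rcases b' with _ | _ <;> simp only [h1, h2, h3, h4] <;> decide

theorem cn_lt (c : Bool → Bool → Bool) : cn c < 16 := by
  unfold cn
  rcases c false false with _ | _ <;> rcases c false true with _ | _ <;>
    rcases c true false with _ | _ <;> rcases c true true with _ | _ <;> decide

/-- two matchings with a constant relation are complete or anticomplete -/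
theorem Cln.two (hH : FH G) (h : Cln G m n e cd) (hm : 2 ≤ m) (hn : 3 ≤ n) (s s' : Bool) :
    (∀ b b', cd s s' b b' = true) ∨ ∀ b b', cd s s' b b' = false := by
  by_cases h0 : cn (cd s s') = 0
  · right
    intro b b'
    rw [← cn_bit (cd s s') b b', h0, Nat.zero_testBit]
  by_cases h15 : cn (cd s s') = 15
  · left
    intro b b'
    rw [← cn_bit (cd s s') b b', h15]
    rcases b with _ | _ <;> rcases b' with _ | _ <;> decide
  exfalso
  have hlt : cn (cd s s') < 15 := by
    have := cn_lt (cd s s')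
    omega
  have hv : ∀ u : Fin 3, (u : ℕ) < n := fun u => lt_of_lt_of_le u.2 hn
  have hm0 : 0 < m := by omega
  have hm1 : 1 < m := by omega
  refine eng (G := G) (fun i : Bool × Fin 3 × Bool => bif i.1 then e 1 s' i.2.1 i.2.2 else e 0 s i.2.1 i.2.2)
    (ad2 (cn (cd s s'))) ?_ ?_ (false, 0, false) T2 (by decide) (R3.spf2 hH) _ (ok2 _ hlt h0)
  · rintro ⟨i1, i2, i3⟩ ⟨j1, j2, j3⟩ hij
    rcases i1 with _ | _ <;> rcases j1 with _ | _ <;> simp only [cond_true, cond_false]
    · refine h.nea hm0 hm0 (hv _) (hv _) fun h1 => hij ?_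
      simp only [Prod.mk.injEq, true_and] at h1
      rw [Fin.ext h1.1, h1.2]
    · exact h.nea hm0 hm1 (hv _) (hv _) (by simp)
    · exact h.nea hm1 hm0 (hv _) (hv _) (by simp)
    · refine h.nea hm1 hm1 (hv _) (hv _) fun h1 => hij ?_
      simp only [Prod.mk.injEq, true_and] at h1
      rw [Fin.ext h1.1, h1.2]
  · rintro ⟨i1, i2, i3⟩ ⟨j1, j2, j3⟩ hij
    rcases i1 with _ | _ <;> rcases j1 with _ | _ <;> simp only [cond_true, cond_false, ad2]
    · rw [h.adk hm0 (hv _) (hv _)]
      simp [Fin.ext_iff]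
    · rw [h.cr 0 1 Nat.zero_lt_one hm1 s s' _ _ _ _ (hv _) (hv _)]
      simp [cn_bit]
    · rw [G.adj_comm, h.cr 0 1 Nat.zero_lt_one hm1 s s' _ _ _ _ (hv _) (hv _)]
      simp [cn_bit]
    · rw [h.adk hm1 (hv _) (hv _)]
      simp [Fin.ext_iff]

/-- three pairwise complete matchings contain `J_2` -/
theorem Cln.three (hJ : FJ 2 G) (h : Cln G m n e cd) (hm : 3 ≤ m) (hn : 2 ≤ n) (s : Bool)
    (hc : ∀ b b', cd s s b b' = true) : False := by
  have hv : ∀ u : Fin 2, (u : ℕ) < n := fun u => lt_of_lt_of_le u.2 hn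
  have hw : ∀ u : Fin 3, (u : ℕ) < m := fun u => lt_of_lt_of_le u.2 hm
  refine eng (G := G) (fun i : Fin 3 × Fin 2 × Bool => e i.1 s i.2.1 i.2.2)
    (fun i j => bif i.1 == j.1 then (i.2.1 == j.2.1) && !(i.2.2 == j.2.2) else true) ?_ ?_ (0, 0, false)
    [(0, 0, false), (0, 1, false), (0, 0, true), (1, 0, false), (1, 1, false), (2, 0, false), (2, 1, false)]
    (by decide) (FT.spfJ2 hJ) [[0], [1], [2], [3], [4], [5], [6]] (by decide +kernel)
  · rintro ⟨i1, i2, i3⟩ ⟨j1, j2, j3⟩ hij
    refine h.nea (hw _) (hw _) (hv _) (hv _) fun h1 => hij ?_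
    simp only [Prod.mk.injEq, true_and] at h1
    rw [Fin.ext h1.1, Fin.ext h1.2.1, h1.2.2]
  · rintro ⟨i1, i2, i3⟩ ⟨j1, j2, j3⟩ hij
    rcases lt_trichotomy i1 j1 with h1 | rfl | h1
    · rw [h.cr i1 j1 h1 (hw _) s s _ _ _ _ (hv _) (hv _)]
      simp [hc, h1.ne]
    · rw [h.adk (hw _) (hv _) (hv _)]
      simp [Fin.ext_iff]
    · rw [G.adj_comm, h.cr j1 i1 h1 (hw _) s s _ _ _ _ (hv _) (hv _)]
      simp [hc, h1.ne']

/-- the table of six double matchings with the code `K` -/
def ad6 (K : Bool → Bool → Bool) (i j : Fin 6 × Bool × Bool) : Bool :=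
  bif i.1 == j.1 then (i.2.1 == j.2.1) && !(i.2.2 == j.2.2)
  else bif decide (i.1 < j.1) then K i.2.1 j.2.1 else K j.2.1 i.2.1

/-- the engine for six double matchings with the code `K` -/
theorem Cln.six (h : Cln G m n e cd) (hm : 6 ≤ m) (hn : 1 ≤ n) (K : Bool → Bool → Bool)
    (hK : ∀ s s' b b', cd s s' b b' = K s s') (T : List (Fin 6 × Bool × Bool)) (hT : T.Nodup) {k : ℕ}
    {q : ℕ → ℕ → Bool} (hq : SPF G Set.univ k q) (C : List (List ℕ))
    (hc : chkG T.length k (fun i j => ad6 K (T.getD i (0, false, false)) (T.getD j (0, false, false))) q C = true) :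
    False := by
  have hw : ∀ u : Fin 6, (u : ℕ) < m := fun u => lt_of_lt_of_le u.2 hm
  refine eng (G := G) (fun i : Fin 6 × Bool × Bool => e i.1 i.2.1 0 i.2.2) (ad6 K) ?_ ?_ (0, false, false) T hT hq C hc
  · rintro ⟨i1, i2, i3⟩ ⟨j1, j2, j3⟩ hij
    refine h.nea (hw _) (hw _) hn hn fun h1 => hij ?_
    simp only [Prod.mk.injEq] at h1
    rw [Fin.ext h1.1, h1.2.1, h1.2.2.2]
  · rintro ⟨i1, i2, i3⟩ ⟨j1, j2, j3⟩ hij
    rcases lt_trichotomy i1 j1 with h1 | rfl | h1
    · rw [h.cr i1 j1 h1 (hw _) _ _ _ _ _ _ hn hn]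
      simp [ad6, hK, h1.ne, h1]
    · rw [h.adk (hw _) hn hn]
      simp [ad6]
    · rw [G.adj_comm, h.cr j1 i1 h1 (hw _) _ _ _ _ _ _ hn hn]
      simp [ad6, hK, h1.ne', h1.not_gt]

/-- **The code is zero.** -/
theorem Cln.zero (hH : FH G) (hJ : FJ 2 G) (h : Cln G m n e cd) (hm : 6 ≤ m) (hn : 3 ≤ n) (s s' b b' : Bool) :
    cd s s' b b' = false := by
  have h2 := fun s s' => h.two hH (by omega) hn s s'
  obtain ⟨K, hK⟩ : ∃ K : Bool → Bool → Bool, ∀ s s' b b', cd s s' b b' = K s s' := by
    refine ⟨fun s s' => cd s s' false false, fun s s' b b' => ?_⟩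
    rcases h2 s s' with h3 | h3
    · exact (h3 b b').trans (h3 false false).symm
    · exact (h3 b b').trans (h3 false false).symm
  have hd : ∀ s, K s s = false := by
    intro s
    rcases h3 : K s s with _ | _
    · rfl
    · exact (h.three hJ (by omega) (by omega) s fun b b' => by rw [hK, h3]).elim
  rw [hK]
  have hff := hd false
  have htt := hd true
  rcases hft : K false true with _ | _ <;> rcases htf : K true false with _ | _
  · rcases s with _ | _ <;> rcases s' with _ | _ <;> assumption
  · exfalso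
    obtain rfl : K = fun s s' => s && !s' := by
      funext s s'
      rcases s with _ | _ <;> rcases s' with _ | _ <;> assumption
    exact h.six hm (by omega) _ hK [(5, false, false), (0, true, false), (4, false, false), (2, true, false),
      (4, true, false), (1, false, false), (3, true, false)] (by decide) (R3.spf2 hH)
      [[0], [1], [2, 3], [4], [5], [6]] (by decide +kernel)
  · exfalso
    obtain rfl : K = fun s s' => !s && s' := by
      funext s s'
      rcases s with _ | _ <;> rcases s' with _ | _ <;> assumption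
    exact h.six hm (by omega) _ hK [(5, true, false), (0, false, false), (4, true, false), (2, false, false),
      (4, false, false), (1, true, false), (3, false, false)] (by decide) (R3.spf2 hH)
      [[0], [1], [2, 3], [4], [5], [6]] (by decide +kernel)
  · exfalso
    obtain rfl : K = fun s s' => xor s s' := by
      funext s s'
      rcases s with _ | _ <;> rcases s' with _ | _ <;> assumption
    exact h.six hm (by omega) _ hK [(0, true, false), (0, true, true), (0, false, false), (1, true, false),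
      (2, false, false), (3, true, false), (2, true, false), (3, false, false), (4, false, false), (5, true, false),
      (4, true, false), (5, false, false)] (by decide) (FT.spfJ2 hJ)
      [[0], [2, 3], [1], [4, 5], [6, 7], [8, 9], [10, 11]] (by decide +kernel)

end Clq

end Pool.Agent.MPd439b2.RN
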