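import Pool.Agent.Lib.MP_d439b2_co.RN.RA
import Pool.Agent.Lib.MP_d439b2_co.Rep.RowX4
import Pool.Agent.Lib.MP_d439b2_co.X3.H1T.Base
import Pool.Agent.Lib.MP_d439b2_co.NK.Base
import Pool.Agent.Lib.MP_d439b2_co.X3.H1R.Base

/-!
# MP_d439b2_co, RN/Defs: the removal of `n K_2` for `K3:0,1,02` and `co(P_3 + 2 P_2)`: common definitions (helper90)

`CoK G b K`, `AnK G b K`: `b` is complete / anticomplete to `K`; `Mx G K`: the mixers of `K` (outside `K`, neither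
complete nor anticomplete to `K`); `XK G K`: the cell with its mixers.
`CS G n v K`: a system of `n` cells along a clean ladder (output of Block 1, `S_CS`).
`Rich G K b`: the output (R) of Block 2 (`S_Mx`).
-/

set_option autoImplicit false

namespace Pool.Agent.MPd439b2.RN

open Pool.Agent.MPd439b2 Pool.Agent.MPd439b2.Rep

variable {V : Type}

/-- `b` is complete to `K` -/
def CoK (G : SimpleGraph V) (b : V) (K : Set V) : Prop := ∀ x ∈ K, G.Adj b x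

/-- `b` is anticomplete to `K` -/
def AnK (G : SimpleGraph V) (b : V) (K : Set V) : Prop := ∀ x ∈ K, ¬ G.Adj b x

/-- the mixers of `K` -/
def Mx (G : SimpleGraph V) (K : Set V) : Set V := {b | b ∉ K ∧ ¬ CoK G b K ∧ ¬ AnK G b K}

/-- the set `K` with its mixers -/
def XK (G : SimpleGraph V) (K : Set V) : Set V := K ∪ Mx G K

/-- **A system of cells.**  `v 0, .., v (n - 1)`: a clique; `K 0, .., K (n - 1)`: connected, pairwise disjoint and
anticomplete; `v i` is complete to `K k` for `i < k` and anticomplete for `k ≤ i`; a vertex outside `K k` with a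
neighbour in `K k` is complete to all cells on one side of `K k` (`big`); if it is mixed on `K k`, then on each side of
`K k` it is complete or anticomplete to all cells (`mix`). -/
structure CS (G : SimpleGraph V) (n : ℕ) (v : ℕ → V) (K : ℕ → Set V) : Prop where
  vv : ∀ i < n, ∀ j < n, i ≠ j → v i ≠ v j ∧ G.Adj (v i) (v j)
  con : ∀ k < n, Conn G (K k)
  dis : ∀ k < n, ∀ l < n, k ≠ l → Disjoint (K k) (K l) ∧ ∀ x ∈ K k, ∀ y ∈ K l, ¬ G.Adj x y
  vK : ∀ i < n, ∀ k < n, v i ∉ K k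
  lo : ∀ i < n, ∀ k < n, i < k → CoK G (v i) (K k)
  hi : ∀ i < n, ∀ k < n, k ≤ i → AnK G (v i) (K k)
  big : ∀ k < n, ∀ b, b ∉ K k → ¬ AnK G b (K k) →
    (∀ l < n, k < l → CoK G b (K l)) ∨ ∀ l < k, CoK G b (K l)
  mix : ∀ k < n, ∀ b ∈ Mx G (K k),
    ((∀ l < n, k < l → CoK G b (K l)) ∨ ∀ l < n, k < l → AnK G b (K l)) ∧
      ((∀ l < k, CoK G b (K l)) ∨ ∀ l < k, AnK G b (K l))

/-- **(P)**: a poor cell: at most two rows of the mixers on the outside: three mixers, two of them have the same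
neighbours outside `X(K)`. -/
def Poor (G : SimpleGraph V) (K : Set V) : Prop :=
  ∀ w₀ ∈ Mx G K, ∀ w₁ ∈ Mx G K, ∀ w₂ ∈ Mx G K,
    (∀ z ∉ XK G K, (G.Adj w₀ z ↔ G.Adj w₁ z)) ∨ (∀ z ∉ XK G K, (G.Adj w₀ z ↔ G.Adj w₂ z)) ∨
      ∀ z ∉ XK G K, (G.Adj w₁ z ↔ G.Adj w₂ z)

/-- `z` is outside `K` and anticomplete to `K` -/
def OuK (G : SimpleGraph V) (z : V) (K : Set V) : Prop := z ∉ K ∧ AnK G z K

/-- **(R)**: the cell `K k` has three half mixers `w 0, w 1, w 2` (complete to the later cells, anticomplete to the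
earlier ones), pairwise adjacent, with three different rows on `z₁, z₂`; `z₁, z₂` are outside `X(K k)`, anticomplete to
`K k`, to more than `b` earlier cells, to a vertex `v j` (`k ≤ j`) and to more than `b` cells after it. -/
def Rich (G : SimpleGraph V) (n : ℕ) (v : ℕ → V) (K : ℕ → Set V) (b k : ℕ) : Prop :=
  ∃ (w : ℕ → V) (z₁ z₂ : V),
    (∀ i < 3, w i ∈ Mx G (K k) ∧ (∀ l < n, k < l → CoK G (w i) (K l)) ∧ ∀ l < k, AnK G (w i) (K l)) ∧
    (∀ i < 3, ∀ j < 3, i ≠ j → w i ≠ w j ∧ G.Adj (w i) (w j) ∧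
      ¬ ((G.Adj (w i) z₁ ↔ G.Adj (w j) z₁) ∧ (G.Adj (w i) z₂ ↔ G.Adj (w j) z₂))) ∧
    (z₁ ∉ Mx G (K k) ∧ OuK G z₁ (K k)) ∧ (z₂ ∉ Mx G (K k) ∧ OuK G z₂ (K k)) ∧
    (∃ L : Finset ℕ, b < L.card ∧ ∀ l ∈ L, l < k ∧ OuK G z₁ (K l) ∧ OuK G z₂ (K l)) ∧
    ∃ j, k ≤ j ∧ j < n ∧ (v j ≠ z₁ ∧ ¬ G.Adj (v j) z₁) ∧ (v j ≠ z₂ ∧ ¬ G.Adj (v j) z₂) ∧
      ∃ L : Finset ℕ, b < L.card ∧ ∀ l ∈ L, j < l ∧ l < n ∧ OuK G z₁ (K l) ∧ OuK G z₂ (K l)

/-- **Block 1** (helper53): a long induced matching in a linked graph contains a system of cells; the letters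
`σ 0, σ 1, ..` of the matching are in the cells. -/
def S_CS : Prop := ∀ (m n : ℕ) (β : ℕ → ℕ), ∃ c₀ N : ℕ, ∀ (V : Type) [Finite V] (G : SimpleGraph V)
  (e : Bool → ℕ → V), H1T.FH G → H1T.FJ 2 G → H1R.Pm G → NoTP G m true false false → Link β c₀ G →
    NK.Lt G N e →
    ∃ (v : ℕ → V) (K : ℕ → Set V) (σ : ℕ → ℕ), CS G n v K ∧ (∀ k < n, σ k < N ∧ ∀ s, e s (σ k) ∈ K k) ∧
      ∀ k < n, ∀ l < n, σ k = σ l → k = l

/-- **Block 2** (helper90): a long system of cells has a poor cell or a rich one (in the middle: more than `b` cells on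
each side). -/
def S_Mx : Prop := ∀ b : ℕ, ∃ n : ℕ, ∀ (V : Type) (G : SimpleGraph V) (v : ℕ → V) (K : ℕ → Set V),
  H1T.FH G → H1T.FJ 2 G → CS G n v K → ∃ k, b < k ∧ k + b < n ∧ (Poor G (K k) ∨ Rich G n v K b k)

end Pool.Agent.MPd439b2.RN
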