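import Pool.Agent.Lib.MP_d439b2_co.RN.Eng

/-!
# MP_d439b2_co, RN/EngS: the engine of RN/Eng for disjoint connected sets (helper29)
-/

set_option autoImplicit false

namespace Pool.Agent.MPd439b2.RN

open Pool.Agent.MPd439b2 Pool.Agent.MPd439b2.H1T Pool.Agent.MPd439b2.H1R
open Pool.Agent.MPd439b2.BU
open Pool.Agent.MPd439b2.HC
open Pool.Agent.MPd439b2.FT (Mt)

variable {V : Type}

/-- the table of the sets `X 0, .., X (n - 1)` -/
noncomputable def tbS (G : SimpleGraph V) (X : ℕ → Set V) (b : ℕ) : Bool :=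
  @decide (Tch G (X (b / 16)) (X (b % 16))) (Classical.dec _)

theorem tbS_iff {G : SimpleGraph V} {X : ℕ → Set V} {i j : ℕ} (hj : j < 16) :
    tbS G X (16 * i + j) = true ↔ Tch G (X i) (X j) := by
  have h1 : (16 * i + j) / 16 = i := by omega
  have h2 : (16 * i + j) % 16 = j := by omega
  unfold tbS
  rw [h1, h2]
  exact @decide_eq_true_iff _ (Classical.dec _)

theorem sp_pvS {G : SimpleGraph V} {X : ℕ → Set V} {n : ℕ} (hn : n ≤ 16) (hc : ∀ i < n, Conn G (X i))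
    (hx : ∀ i < n, ∀ j < i, Disjoint (X i) (X j)) :
    SP G Set.univ n X (fun p q => tbS G X (16 * p + q)) := by
  refine ⟨fun _ _ => Set.subset_univ _, hc, hx, fun p hp q hq => ?_⟩
  rw [tbS_iff (by omega)]

theorem ngS {G : SimpleGraph V} {X : ℕ → Set V} {n p m k : ℕ} {q : ℕ → ℕ → Bool} {C : List (List ℕ)}
    (hn : n ≤ 16) (hcn : ∀ i < n, Conn G (X i)) (hx : ∀ i < n, ∀ j < i, Disjoint (X i) (X j))
    (hq : SPF G Set.univ k q) (hc : ckN n p m k q C = true) : ¬ Mt p m (tbS G X) := by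
  intro hF
  refine hq _ (chkG_sp (L := C) (sp_pvS hn hcn hx) ?_)
  simp only [ckN, Bool.and_eq_true, List.all_eq_true, List.mem_range] at hc
  obtain ⟨⟨⟨h1, h2⟩, h3⟩, h4⟩ := hc
  have hp : ∀ a b, p.testBit (16 * a + b) = true → tbS G X (16 * a + b) = true := fun a b => hF.1 _
  have hn' : ∀ a b, tbS G X (16 * a + b) = true → (!(m.testBit (16 * a + b))) = true := by
    intro a b hab
    rcases h5 : m.testBit (16 * a + b) with _ | _
    · rfl
    · rw [hF.2 _ h5] at hab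
      exact absurd hab (by decide)
  simp only [chkG, Bool.and_eq_true, List.all_eq_true, List.mem_range, beq_iff_eq]
  refine ⟨⟨⟨h1, h2⟩, fun l hl => FT.connL_mono hp (h3 l hl)⟩, fun i hi j hj => ?_⟩
  have h5 := h4 i hi j hj
  rcases hq' : q i j with _ | _
  · rw [hq', cond_false, Bool.not_eq_true'] at h5
    rcases h6 : Eng.tchL (fun a b => tbS G X (16 * a + b)) (C.getD i []) (C.getD j []) with _ | _
    · rfl
    · rw [FT.tchL_mono hn' h6] at h5
      exact absurd h5 (by decide)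
  · rw [hq', cond_true] at h5
    exact FT.tchL_mono hp h5

theorem mt_ofS {G : SimpleGraph V} {X : ℕ → Set V} {A N : List (ℕ × ℕ)} (hsA : sm A = true)
    (hsN : sm N = true) (hA : ∀ p ∈ A, Tch G (X p.1) (X p.2)) (hN : ∀ p ∈ N, ¬ Tch G (X p.1) (X p.2)) :
    Mt (msk A) (msk N) (tbS G X) := by
  simp only [sm, List.all_eq_true, Nat.blt_eq] at hsA hsN
  refine ⟨fun b hb => ?_, fun b hb => ?_⟩
  · obtain ⟨p, hp, rfl⟩ := msk_bit hb
    exact (tbS_iff (hsA p hp)).2 (hA p hp)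
  · obtain ⟨p, hp, rfl⟩ := msk_bit hb
    rw [Bool.eq_false_iff]
    exact fun h => hN p hp ((tbS_iff (hsN p hp)).1 h)

/-- the whole check -/
def ckS (n : ℕ) (A N : List (ℕ × ℕ)) (I : List (List (ℕ × ℕ) × List (ℕ × ℕ))) (cs : List Cert)
    (t : Tr) : Bool :=
  Nat.ble n 16 && sm A && sm N && (I.all fun c => sm c.1 && sm c.2) && cs.all (ckC n) &&
    ckT (cs.map fun c => (c.2.1, c.2.2.1)) (I.map fun c => (msk c.1, msk c.2)) t (msk A) (msk N)

/-- **The engine for sets.**  `A`: pairs which touch, `N`: anticomplete pairs, `I`: excluded partial tables -/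
theorem refuteS {G : SimpleGraph V} (hH : FH G) (hJ : FJ 2 G) (X : ℕ → Set V) (n : ℕ)
    (A N : List (ℕ × ℕ)) (hcn : ∀ i < n, Conn G (X i)) (hx : ∀ i < n, ∀ j < i, Disjoint (X i) (X j))
    (hA : ∀ p ∈ A, Tch G (X p.1) (X p.2)) (hN : ∀ p ∈ N, ¬ Tch G (X p.1) (X p.2))
    (I : List (List (ℕ × ℕ) × List (ℕ × ℕ)))
    (hI : ∀ c ∈ I, ¬ ((∀ p ∈ c.1, Tch G (X p.1) (X p.2)) ∧ ∀ p ∈ c.2, ¬ Tch G (X p.1) (X p.2)))
    (cs : List Cert) (t : Tr) (hc : ckS n A N I cs t = true) : False := by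
  simp only [ckS, Bool.and_eq_true, List.all_eq_true] at hc
  obtain ⟨⟨⟨⟨⟨h1, h2⟩, h3⟩, h4⟩, h6⟩, h7⟩ := hc
  have hn : n ≤ 16 := Nat.le_of_ble_eq_true h1
  refine tr_false (F := tbS G X) ?_ ?_ t _ _ (mt_ofS h2 h3 hA hN) h7
  · intro c hc
    obtain ⟨d, hd, rfl⟩ := List.mem_map.1 hc
    have h8 := h6 d hd
    simp only [ckC] at h8
    rcases hb : d.1 with _ | _
    · rw [hb, cond_false] at h8
      exact ngS hn hcn hx (FT.spfJ2 hJ) h8
    · rw [hb, cond_true] at h8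
      exact ngS hn hcn hx (R3.spf2 hH) h8
  · intro c hc hM
    obtain ⟨d, hd, rfl⟩ := List.mem_map.1 hc
    have h8 := h4 d hd
    simp only [sm, List.all_eq_true, Nat.blt_eq] at h8
    refine hI d hd ⟨fun p hp => ?_, fun p hp hadj => ?_⟩
    · exact (tbS_iff (h8.1 p hp)).1 (hM.1 _ (msk_mem hp))
    · have h9 := hM.2 _ (msk_mem hp)
      rw [(tbS_iff (h8.2 p hp)).2 hadj] at h9
      exact absurd h9 (by decide)

end Pool.Agent.MPd439b2.RN
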