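import Pool.Agent.Lib.MP_d439b2_co.RN.EngS

/-!
# MP_d439b2_co, RN/EngU: the engine for vertices and some connected sets (helper38)

`refuteU`: the sets `X i`, `i < n`, are single vertices, the sets `X i`, `n ≤ i < m`, are connected sets.
-/

set_option autoImplicit false

namespace Pool.Agent.MPd439b2.RN

open Pool.Agent.MPd439b2 Pool.Agent.MPd439b2.H1T Pool.Agent.MPd439b2.H1R
open Pool.Agent.MPd439b2.BU
open Pool.Agent.MPd439b2.HC
open Pool.Agent.MPd439b2.FT (Mt)

variable {V : Type}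

theorem tch1 {G : SimpleGraph V} {a b : V} : Tch G {a} {b} ↔ G.Adj a b := by
  constructor
  · rintro ⟨u, rfl, v, rfl, h⟩
    exact h
  · exact fun h => ⟨a, rfl, b, rfl, h⟩

theorem tch2 {G : SimpleGraph V} {a b : V} (h : ¬ G.Adj a b) : ¬ Tch G {a} {b} := fun h' => h (tch1.1 h')

theorem sne {a b : V} (h : a ≠ b) : ({a} : Set V) ≠ {b} := fun h' => h (Set.singleton_eq_singleton_iff.1 h')

/-- the whole check -/
def ckU (n m : ℕ) (A N D : List (ℕ × ℕ)) (I : List (List (ℕ × ℕ) × List (ℕ × ℕ))) (cs : List Cert)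
    (t : Tr) : Bool :=
  Nat.ble m 16 && Nat.ble n m && sm A && sm N && (I.all fun c => sm c.1 && sm c.2) &&
    ((List.range n).all fun i => (List.range i).all fun j => dif A N D i j) && cs.all (ckC m) &&
    ckT (cs.map fun c => (c.2.1, c.2.2.1)) (I.map fun c => (msk c.1, msk c.2)) t (msk A) (msk N)

/-- **The engine for vertices and connected sets.** -/
theorem refuteU {G : SimpleGraph V} (hH : FH G) (hJ : FJ 2 G) (x : ℕ → V) (X : ℕ → Set V) (n m : ℕ)
    (hX : ∀ i < n, X i = {x i}) (hC : ∀ i < m, n ≤ i → Conn G (X i)) (hx : ∀ i < m, n ≤ i → ∀ j < n, x j ∉ X i)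
    (hd : ∀ i < m, n ≤ i → ∀ j < i, n ≤ j → Disjoint (X i) (X j)) (A N D : List (ℕ × ℕ))
    (hA : ∀ p ∈ A, Tch G (X p.1) (X p.2)) (hN : ∀ p ∈ N, ¬ Tch G (X p.1) (X p.2)) (hD : ∀ p ∈ D, X p.1 ≠ X p.2)
    (I : List (List (ℕ × ℕ) × List (ℕ × ℕ)))
    (hI : ∀ c ∈ I, ¬ ((∀ p ∈ c.1, Tch G (X p.1) (X p.2)) ∧ ∀ p ∈ c.2, ¬ Tch G (X p.1) (X p.2)))
    (cs : List Cert) (t : Tr) (hc : ckU n m A N D I cs t = true) : False := by
  simp only [ckU, Bool.and_eq_true, List.all_eq_true, List.mem_range] at hc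
  obtain ⟨⟨⟨⟨⟨⟨⟨h1, h0⟩, h2⟩, h3⟩, h4⟩, h5⟩, h6⟩, h7⟩ := hc
  have hn : n ≤ m := Nat.le_of_ble_eq_true h0
  have hAa : ∀ i j, adjL A i j = true → Tch G (X i) (X j) := by
    intro i j h
    rw [adjL_iff] at h
    rcases h with h | h
    · exact hA _ h
    · exact (hA _ h).symm
  have hNn : ∀ i j, adjL N i j = true → ¬ Tch G (X i) (X j) := by
    intro i j h
    rw [adjL_iff] at h
    rcases h with h | h
    · exact hN _ h
    · exact fun h' => hN _ h h'.symm
  have hdif : ∀ i < n, ∀ j < n, dif A N D i j = true → X i ≠ X j := by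
    intro i hi j hj h
    simp only [dif, Bool.or_eq_true, List.any_eq_true, Bool.and_eq_true] at h
    rcases h with (h | h) | ⟨k, _, h | h⟩
    · intro h'
      have h8 := hAa i j h
      rw [h', hX j hj, tch1] at h8
      exact h8.ne rfl
    · rw [adjL_iff] at h
      rcases h with h | h
      · exact hD _ h
      · exact (hD _ h).symm
    · intro h'
      exact hNn j k h.2 (h' ▸ hAa i k h.1)
    · intro h'
      exact hNn i k h.2 (h'.symm ▸ hAa j k h.1)
  refine refuteS hH hJ X m A N ?_ ?_ hA hN I hI cs t ?_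
  · intro i hi
    rcases Nat.lt_or_ge i n with h | h
    · rw [hX i h]
      exact Conn.singleton G _
    · exact hC i hi h
  · intro i hi j hj
    rcases Nat.lt_or_ge i n with h | h
    · have h8 := hdif i h j (hj.trans h) (h5 i h j hj)
      rw [hX i h, hX j (hj.trans h)] at h8 ⊢
      exact Set.disjoint_singleton.2 fun h9 => h8 (by rw [h9])
    · rcases Nat.lt_or_ge j n with h' | h'
      · rw [hX j h', Set.disjoint_singleton_right]
        exact hx i hi h j h'
      · exact hd i hi h j hj h'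
  · simp only [ckS, Bool.and_eq_true, List.all_eq_true]
    exact ⟨⟨⟨⟨⟨h1, h2⟩, h3⟩, h4⟩, h6⟩, h7⟩

end Pool.Agent.MPd439b2.RN
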