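import Pool.Agent.Lib.MP_d439b2_co.RN.LS
import Pool.Agent.Lib.MP_d439b2_co.X3.H1R.FinalA

/-!
# MP_d439b2_co, RN/LAsm: Block 1, assembly (helper53)
-/

set_option autoImplicit false

namespace Pool.Agent.MPd439b2.RN.L

open Pool.Agent.MPd439b2 Pool.Agent.MPd439b2.RN Pool.Agent.MPd439b2.Rep

variable {V : Type}

section

variable {G : SimpleGraph V} {n : ℕ} {v : ℕ → V} {e : Bool → ℕ → V}

private theorem dsj {k l : ℕ} {K L : Set V} (hK : Cel G n v e k K) (hL : Cel G n v e l L)
    (hkl : k + 10 ≤ l) (hl : l < n) : Disjoint K L ∧ ∀ x ∈ K, ∀ y ∈ L, ¬ G.Adj x y := by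
  have h1 : ∀ x ∈ K, x ∉ L := by
    intro x hx hx'
    have h2 := hK.hi x hx (l - 5) (by omega) (by omega)
    have h3 := hL.lo x hx' (l - 5) (by omega)
    omega
  refine ⟨Set.disjoint_left.2 h1, fun x hx y hy h2 => ?_⟩
  exact hK.out y (hL.sub hy) (fun h3 => h1 y h3 hy) x hx h2.symm

private theorem vnr (hC : CH.Ch G n v e) {p : ℕ} (hp : p + 2 < n) : v p ∉ Rv G n v e := by
  rintro ⟨a, ha⟩
  have h1 : cl G v e (v p) (p + 1) = 2 := cl_two.2 fun s =>
    ((hC.ve p (by omega) (p + 1) (by omega) s).2 (by omega)).symm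
  have h2 : cl G v e (v p) (p + 2) = 2 := cl_two.2 fun s =>
    ((hC.ve p (by omega) (p + 2) (by omega) s).2 (by omega)).symm
  rcases lt_trichotomy a (p + 1) with h | h | h
  · have h3 := (ha (p + 1) (by omega)).2 h
    omega
  · have h3 := (ha (p + 2) (by omega)).2 (by omega)
    omega
  · have h3 := (ha (p + 1) (by omega)).1 h
    omega

/-- the cells `20 c (2 k + 1) + 10` are a system of cells -/
private theorem mkCS {N m : ℕ} (hT : TL G (20 * N) v e)
    (hCel : ∀ l < N, Cel G (20 * N) v e (20 * l + 10) (Kc G (20 * N) v e (20 * l + 10)))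
    (hB : Bb G N v e) {c : ℕ → ℕ} (hc : ∀ i j, i < j → j < 2 * m → c i < c j)
    (hcN : ∀ i < 2 * m, c i < N)
    (hNB : ∀ i j l, i < j → j < l → l < 2 * m → ∀ b a, Wt G (20 * N) v e b a 1 2 →
      20 * c i ≤ a → a < 20 * c j → CoK G b (Kc G (20 * N) v e (20 * c l + 10))) :
    CS G m (fun i => v (20 * c (2 * i + 1) + 15))
      (fun k => Kc G (20 * N) v e (20 * c (2 * k + 1) + 10)) := by
  have hd : ∀ k < m, c (2 * k + 1) < N := fun k hk => hcN _ (by omega)
  have hdd : ∀ k l, k < l → l < m → c (2 * k + 1) + 2 ≤ c (2 * l + 1) := by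
    intro k l hkl hl
    have h1 := hc (2 * k + 1) (2 * k + 2) (by omega) (by omega)
    have h2 := hc (2 * k + 2) (2 * l + 1) (by omega) (by omega)
    omega
  have hde : ∀ k l, k < l → l < m → c (2 * k + 1) < c (2 * l) := by
    intro k l hkl hl
    exact hc _ _ (by omega) (by omega)
  have h0 : ∀ k < m, c 0 < c (2 * k + 1) := fun k hk => hc _ _ (by omega) (by omega)
  have one : ∀ b a, Wt G (20 * N) v e b a 2 2 → ∀ k l, k ≠ l → k < m → l < m →
      CoK G b (Kc G (20 * N) v e (20 * c (2 * k + 1) + 10)) ∨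
        CoK G b (Kc G (20 * N) v e (20 * c (2 * l + 1) + 10)) := by
    intro b a hb k l hkl hk hl
    rcases lt_or_gt_of_ne hkl with h | h
    · exact hB.t22 b a hb _ _ (by have := hdd k l h hl; omega) (hd l hl)
    · exact (hB.t22 b a hb _ _ (by have := hdd l k h hk; omega) (hd k hk)).symm
  have one' : ∀ b a, Wt G (20 * N) v e b a 1 2 → a < 20 * c 0 → ∀ k l, k ≠ l → k < m → l < m →
      CoK G b (Kc G (20 * N) v e (20 * c (2 * k + 1) + 10)) ∨
        CoK G b (Kc G (20 * N) v e (20 * c (2 * l + 1) + 10)) := by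
    intro b a hb ha k l hkl hk hl
    rcases lt_or_gt_of_ne hkl with h | h
    · exact (hB.t12 b a hb).2 _ _ (by have := hdd k l h hl; omega) (hd l hl)
        (by have := h0 k hk; omega)
    · exact ((hB.t12 b a hb).2 _ _ (by have := hdd l k h hk; omega) (hd k hk)
        (by have := h0 l hl; omega)).symm
  -- the types of the vertices outside `Rv`
  have typ : ∀ b, b ∉ Rv G (20 * N) v e → ∀ k < m,
      ¬ AnK G b (Kc G (20 * N) v e (20 * c (2 * k + 1) + 10)) → ∃ a,
      Wt G (20 * N) v e b a 2 2 ∨ (a + 1 < 20 * N ∧ Wt G (20 * N) v e b a 2 0) ∨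
        Wt G (20 * N) v e b a 1 2 := by
    intro b hb k hk hkA
    obtain ⟨a, s, t, hst, hw⟩ := hT.wd b
    refine ⟨a, ?_⟩
    rcases hst with ⟨rfl, rfl⟩ | ⟨rfl, rfl⟩ | ⟨rfl, rfl⟩ | ⟨rfl, rfl⟩ | ⟨rfl, rfl⟩ | ⟨rfl, rfl⟩
    · exact absurd (hB.t00 b a hw _ (hd k hk)) hkA
    · exact absurd (hB.t11 b a hw _ (hd k hk)) hkA
    · exact Or.inl hw
    · exact absurd ⟨a, hw⟩ hb
    · exact Or.inr (Or.inr hw)
    · by_cases h : a + 1 < 20 * N
      · exact Or.inr (Or.inl ⟨h, hw⟩)
      · exact Or.inl fun i hi => ⟨(hw i hi).1, fun h1 => absurd h1 (by omega)⟩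
  have hout : ∀ k < m, ∀ b, b ∉ Kc G (20 * N) v e (20 * c (2 * k + 1) + 10) →
      ¬ AnK G b (Kc G (20 * N) v e (20 * c (2 * k + 1) + 10)) → b ∉ Rv G (20 * N) v e :=
    fun k hk b hb hA hR => hA ((hCel _ (hd k hk)).out b hR hb)
  refine ⟨?_, ?_, ?_, ?_, ?_, ?_, ?_, ?_⟩
  · intro i hi j hj hij
    have h1 : 20 * c (2 * i + 1) + 15 ≠ 20 * c (2 * j + 1) + 15 := by
      rcases lt_or_gt_of_ne hij with h | h
      · have := hdd i j h hj
        omega
      · have := hdd j i h hi
        omega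
    have h2 := hd i hi
    have h3 := hd j hj
    exact ⟨hT.ch.nvv (by omega) (by omega) h1, hT.ch.vv _ (by omega) _ (by omega) h1⟩
  · intro k hk
    exact (hCel _ (hd k hk)).con
  · intro k hk l hl hkl
    have h2 := hd k hk
    have h3 := hd l hl
    rcases lt_or_gt_of_ne hkl with h | h
    · have h4 := hdd k l h hl
      exact dsj (hCel _ h2) (hCel _ h3) (by omega) (by omega)
    · have h4 := hdd l k h hk
      obtain ⟨h5, h6⟩ := dsj (hCel _ h3) (hCel _ h2) (by omega) (by omega)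
      exact ⟨h5.symm, fun x hx y hy h7 => h6 y hy x hx h7.symm⟩
  · intro i hi k hk h1
    have h2 := hd i hi
    exact vnr hT.ch (by omega) ((hCel _ (hd k hk)).sub h1)
  · intro i hi k hk hik x hx
    have h4 := hdd i k hik hk
    exact (cl_one.1 ((hCel _ (hd k hk)).lo x hx _ (by omega))).1
  · intro i hi k hk hki x hx
    have h2 := hd i hi
    have h4 : c (2 * k + 1) ≤ c (2 * i + 1) := by
      rcases Nat.eq_or_lt_of_le hki with h | h
      · rw [h]
      · have := hdd k i h hi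
        omega
    exact (cl_zero.1 ((hCel _ (hd k hk)).hi x hx _ (by omega) (by omega))).1
  · -- big
    intro k hk b hb hA
    obtain ⟨a, h22 | ⟨ha, h20⟩ | h12⟩ := typ b (hout k hk b hb hA) k hk hA
    · by_contra hcon
      push Not at hcon
      obtain ⟨⟨l, hl, hkl, h1⟩, l', hl', h2⟩ := hcon
      rcases one b a h22 l l' (by omega) hl (by omega) with h3 | h3
      · exact h1 h3
      · exact h2 h3
    · right
      intro l hl
      refine (hB.t20 b a ha h20).1 _ ?_
      have h1 : ¬ a < 20 * c (2 * k + 1) := fun h2 =>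
        hA ((hB.t20 b a ha h20).2 _ (hd k hk) h2)
      have h3 := hdd l k hl hk
      omega
    · by_contra hcon
      push Not at hcon
      obtain ⟨⟨l, hl, hkl, h1⟩, l', hl', h2⟩ := hcon
      have ha : ¬ 20 * c (2 * k + 1) + 20 ≤ a := fun h3 =>
        hA ((hB.t12 b a h12).1 _ (hd k hk) h3)
      by_cases h0a : a < 20 * c 0
      · rcases one' b a h12 h0a l l' (by omega) hl (by omega) with h3 | h3
        · exact h1 h3
        · exact h2 h3
      · refine h1 (hNB 0 (2 * l) (2 * l + 1) (by omega) (by omega) (by omega) b a h12 (by omega) ?_)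
        have h3 := hde k l hkl hl
        omega
  · -- mix
    intro k hk b hb
    obtain ⟨hbK, hC, hA⟩ := hb
    obtain ⟨a, h22 | ⟨ha, h20⟩ | h12⟩ := typ b (hout k hk b hbK hA) k hk hA
    · have h1 : ∀ l < m, l ≠ k → CoK G b (Kc G (20 * N) v e (20 * c (2 * l + 1) + 10)) := by
        intro l hl hlk
        rcases one b a h22 l k hlk hl hk with h3 | h3
        · exact h3
        · exact absurd h3 hC
      exact ⟨Or.inl fun l hl hkl => h1 l hl (by omega), Or.inl fun l hl => h1 l (by omega) (by omega)⟩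
    · have h1 : ¬ a < 20 * c (2 * k + 1) := fun h2 =>
        hA ((hB.t20 b a ha h20).2 _ (hd k hk) h2)
      have h2 : ¬ 20 * c (2 * k + 1) + 20 ≤ a := fun h2 => hC ((hB.t20 b a ha h20).1 _ h2)
      refine ⟨Or.inr fun l hl hkl => ?_, Or.inl fun l hl => ?_⟩
      · refine (hB.t20 b a ha h20).2 _ (hd l hl) ?_
        have h3 := hdd k l hkl hl
        omega
      · refine (hB.t20 b a ha h20).1 _ ?_
        have h3 := hdd l k hl hk
        omega
    · have ha : ¬ 20 * c (2 * k + 1) + 20 ≤ a := fun h3 =>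
        hA ((hB.t12 b a h12).1 _ (hd k hk) h3)
      refine ⟨Or.inl fun l hl hkl => ?_, ?_⟩
      · by_cases h0a : a < 20 * c 0
        · rcases one' b a h12 h0a l k (by omega) hl hk with h3 | h3
          · exact h3
          · exact absurd h3 hC
        · refine hNB 0 (2 * l) (2 * l + 1) (by omega) (by omega) (by omega) b a h12 (by omega) ?_
          have h3 := hde k l hkl hl
          omega
      · by_cases h0a : a < 20 * c 0
        · left
          intro l hl
          rcases one' b a h12 h0a l k (by omega) (by omega) hk with h3 | h3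
          · exact h3
          · exact absurd h3 hC
        · right
          intro l hl
          refine (hB.t12 b a h12).1 _ (hd l (by omega)) ?_
          have h4 : ¬ a < 20 * c (2 * k) := fun h4 =>
            hC (hNB 0 (2 * k) (2 * k + 1) (by omega) (by omega) (by omega) b a h12 (by omega) h4)
          have h3 := hde l k hl hk
          omega

end

/-- **Block 1.** -/
theorem tCS (hCln : S_Cln) (hWd : S_Wd) (hCel : S_Cel) (hBb : S_Bb) (hGam : S_Gam) : S_CS := by
  intro m n β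
  obtain ⟨N₁, hN₁⟩ := hGam (2 * n)
  obtain ⟨N₂, hN₂⟩ := hCln (20 * N₁ + 18)
  obtain ⟨c₀, hLad⟩ := H1R.oLad 2 β
  obtain ⟨N, hN⟩ := hLad N₂
  refine ⟨c₀, N, ?_⟩
  intro V _ G e hG hJ hP _ hL he
  obtain ⟨v, σ₀, hσ₀, hinj, hC⟩ := hN V G e hG hJ hP hL he
  obtain ⟨σ, hσ, hσN, hcl⟩ := hN₂ V G v _ hG hJ hC
  have hC' := hC.comp σ hσN (fun i _ j hj hij => hσ i j hij hj)
  have hT := hWd (20 * N₁) V G _ _ hG hC' hcl
  obtain ⟨c, hc, hcN, hNB⟩ := hN₁ V G _ _ hG hJ hT
  have hK : ∀ l < N₁, _ := fun l hl => hCel _ _ _ _ _ hG hT (20 * l + 10) (by omega) (by omega)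
  have hCS := mkCS (m := n) hT hK (hBb N₁ V G _ _ hG hT) hc hcN hNB
  refine ⟨_, _, fun k => σ₀ (σ (20 * c (2 * k + 1) + 10 + 9)), hCS, fun k hk => ⟨?_, fun s => ?_⟩, ?_⟩
  · have h1 := hcN (2 * k + 1) (by omega)
    exact hσ₀ _ (hσN _ (by omega))
  · exact (hK _ (hcN (2 * k + 1) (by omega))).mem s
  · intro k hk l hl hkl
    have h1 := hcN (2 * k + 1) (by omega)
    have h2 := hcN (2 * l + 1) (by omega)
    have h3 := hinj _ (hσN _ (by omega)) _ (hσN _ (by omega)) hkl
    have h4 : 20 * c (2 * k + 1) + 10 + 9 = 20 * c (2 * l + 1) + 10 + 9 := by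
      rcases lt_trichotomy (20 * c (2 * k + 1) + 10 + 9) (20 * c (2 * l + 1) + 10 + 9) with h | h | h
      · exact absurd h3 (hσ _ _ h (by omega)).ne
      · exact h
      · exact absurd h3 (hσ _ _ h (by omega)).ne'
    rcases lt_trichotomy k l with h | h | h
    · have := hc (2 * k + 1) (2 * l + 1) (by omega) (by omega)
      omega
    · exact h
    · have := hc (2 * l + 1) (2 * k + 1) (by omega) (by omega)
      omega

end Pool.Agent.MPd439b2.RN.L
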