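import Pool.Agent.Lib.MP_d439b2_co.RN.LFac

/-!
# MP_d439b2_co, RN/LBb: the behaviour of the vertices of the other types on the cells (helper53)
-/

set_option autoImplicit false

namespace Pool.Agent.MPd439b2.RN.L

open Pool.Agent.MPd439b2 Pool.Agent.MPd439b2.RN

variable {V : Type}

section

variable {G : SimpleGraph V} {n : ℕ} {v : ℕ → V} {e : Bool → ℕ → V}

/-- three places of class 0 on the left of the cell -/
private theorem n0 (hG : H1T.FH G) (hC : CH.Ch G n v e) {k : ℕ} {K : Set V} (hK : Cel G n v e k K)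
    (hk : k < n) {b : V} {i j l : ℕ} (hij : i < j) (hjl : j < l) (hl : l + 5 ≤ k)
    (h1 : cl G v e b i = 0) (h2 : cl G v e b j = 0) (h3 : cl G v e b l = 0) : AnK G b K := by
  intro z hz
  rw [cl_zero] at h1 h2 h3
  have z1 := cl_one.1 (hK.lo z hz i (by omega))
  have z2 := cl_one.1 (hK.lo z hz j (by omega))
  have z3 := cl_one.1 (hK.lo z hz l (by omega))
  exact fA hG hC hij hjl (by omega) h1.1 h2.1 z1.1 z2.1 (h2.2 false) (z2.2 false) (h3.2 false)
    (z3.2 false)

/-- three places of class 1 on the right of the cell -/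
private theorem n1 (hG : H1T.FH G) (hC : CH.Ch G n v e) {k : ℕ} {K : Set V} (hK : Cel G n v e k K)
    {b : V} {i j l : ℕ} (hi : k + 5 ≤ i) (hij : i < j) (hjl : j < l) (hl : l < n)
    (h1 : cl G v e b i = 1) (h2 : cl G v e b j = 1) (h3 : cl G v e b l = 1) : AnK G b K := by
  intro z hz hbz
  rw [cl_one] at h1 h2 h3
  have z1 := cl_zero.1 (hK.hi z hz i (by omega) (by omega))
  have z2 := cl_zero.1 (hK.hi z hz j (by omega) (by omega))
  have z3 := cl_zero.1 (hK.hi z hz l (by omega) (by omega))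
  exact fA hG hC hij hjl (by omega) z1.1 z2.1 h1.1 h2.1 (z2.2 false) (h2.2 false) (z3.2 false)
    (h3.2 false) hbz.symm

/-- a vertex which is full at a place on the left of the cell and misses a vertex of the cell -/
private theorem lf (hG : H1T.FH G) (hC : CH.Ch G n v e) {k : ℕ} {K : Set V} (hK : Cel G n v e k K)
    {b z : V} (hz : z ∈ K) (hbz : ¬ G.Adj b z) {i : ℕ} (hi : i + 5 ≤ k) (h1 : cl G v e b i = 2)
    {j : ℕ} (hj : k + 6 ≤ j) (hjn : j < n) (h2 : cl G v e b j = 2) :
    G.Adj (v j) b ∧ ∀ l, j < l → l < n → cl G v e b l = 2 := by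
  rw [cl_two] at h1 h2
  have z1 := cl_one.1 (hK.lo z hz i hi)
  have zh : ∀ p, k + 5 ≤ p → p < n → ¬ G.Adj (v p) z ∧ ∀ s, ¬ G.Adj (e s p) z := fun p h3 h4 =>
    cl_zero.1 (hK.hi z hz p h4 h3)
  have hv : G.Adj (v j) b := by
    by_contra h3
    exact hbz (fM4 hG hC (show i < k + 5 by omega) (show k + 5 < j by omega) hjn z1.1
      (zh (k + 5) le_rfl (by omega)).1 (zh j (by omega) hjn).1 (z1.2 false)
      (zh j (by omega) hjn).2 (h1 false) (h2 false) h3)
  refine ⟨hv, fun l hjl hl => ?_⟩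
  rw [cl_two]
  by_contra h3
  push Not at h3
  obtain ⟨r, hr⟩ := h3
  exact hbz (fM5 hG hC (show i < j by omega) hjl hl z1.1 (zh j (by omega) hjn).1 (z1.2 false)
    ((zh j (by omega) hjn).2 false) (zh l (by omega) hl).2 (h1 false) (h2 false) hv hr)

/-- two cells with missed vertices -/
private theorem lg (hG : H1T.FH G) (hC : CH.Ch G n v e) {k k' : ℕ} {K K' : Set V}
    (hK : Cel G n v e k K) (hK' : Cel G n v e k' K') {b : V} (h1 : ¬ CoK G b K)
    (h2 : ¬ CoK G b K') {i j : ℕ} (hi : i + 5 ≤ k) (hj : k + 6 ≤ j) (hj' : j + 5 ≤ k')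
    (hn : k' + 5 < n) (b1 : cl G v e b i = 2) (b2 : cl G v e b j = 2) : False := by
  unfold CoK at h1 h2
  push Not at h1 h2
  obtain ⟨z, hz, hbz⟩ := h1
  obtain ⟨y, hy, hby⟩ := h2
  obtain ⟨c1, c2⟩ := lf hG hC hK hz hbz hi b1 hj (by omega) b2
  have c3 := cl_two.1 (c2 (k' + 5) (by omega) hn)
  have b1' := cl_two.1 b1
  have z1 := cl_one.1 (hK.lo z hz i hi)
  have z2 := cl_zero.1 (hK.hi z hz j (by omega) (by omega))
  have z3 := cl_zero.1 (hK.hi z hz (k' + 5) hn (by omega))
  have y1 := cl_one.1 (hK'.lo y hy i (by omega))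
  have y2 := hK'.lo y hy j hj'
  have y3 := cl_zero.1 (hK'.hi y hy (k' + 5) hn (by omega))
  have hyK : y ∉ K := by
    intro h3
    have h4 := hK.hi y h3 j (by omega) (by omega)
    omega
  have hzy : ¬ G.Adj z y := fun h3 => hK.out y (hK'.sub hy) hyK z hz h3.symm
  exact fG hG hC (show i < j by omega) (show j < k' + 5 by omega) hn z1.1 z2.1 (z1.2 false)
    (z3.2 false) y1.1 (cl_one.1 y2).1 (y1.2 false) (y3.2 false) hzy (b1' false) c1 (c3 false)
    hbz hby

end

theorem tBb (hCel : S_Cel) : S_Bb := by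
  intro N V G v e hG hT
  have hK : ∀ m < N, Cel G (20 * N) v e (20 * m + 10) (Kc G (20 * N) v e (20 * m + 10)) :=
    fun m hm => hCel _ _ _ _ _ hG hT _ (by omega) (by omega)
  refine ⟨?_, ?_, ?_, ?_, ?_⟩
  · intro b a hb m hm
    have h0 : ∀ i, i < 20 * N → i ≠ a → cl G v e b i = 0 := by
      intro i hi hia
      rcases lt_or_gt_of_ne hia with h | h
      · exact (hb i hi).1 h
      · exact (hb i hi).2 h
    by_cases ha : a ≤ 20 * m + 2
    · exact n0 hG hT.ch (hK m hm) (by omega) (show 20 * m + 3 < 20 * m + 4 by omega)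
        (show 20 * m + 4 < 20 * m + 5 by omega) (by omega) (h0 _ (by omega) (by omega))
        (h0 _ (by omega) (by omega)) (h0 _ (by omega) (by omega))
    · exact n0 hG hT.ch (hK m hm) (by omega) (show 20 * m < 20 * m + 1 by omega)
        (show 20 * m + 1 < 20 * m + 2 by omega) (by omega) (h0 _ (by omega) (by omega))
        (h0 _ (by omega) (by omega)) (h0 _ (by omega) (by omega))
  · intro b a hb m hm
    have h0 : ∀ i, i < 20 * N → i ≠ a → cl G v e b i = 1 := by
      intro i hi hia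
      rcases lt_or_gt_of_ne hia with h | h
      · exact (hb i hi).1 h
      · exact (hb i hi).2 h
    by_cases ha : a ≤ 20 * m + 16
    · exact n1 hG hT.ch (hK m hm) (show 20 * m + 10 + 5 ≤ 20 * m + 17 by omega)
        (show 20 * m + 17 < 20 * m + 18 by omega) (show 20 * m + 18 < 20 * m + 19 by omega)
        (by omega) (h0 _ (by omega) (by omega)) (h0 _ (by omega) (by omega))
        (h0 _ (by omega) (by omega))
    · by_cases ha' : a = 20 * m + 17
      · exact n1 hG hT.ch (hK m hm) (show 20 * m + 10 + 5 ≤ 20 * m + 15 by omega)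
          (show 20 * m + 15 < 20 * m + 16 by omega) (show 20 * m + 16 < 20 * m + 18 by omega)
          (by omega) (h0 _ (by omega) (by omega)) (h0 _ (by omega) (by omega))
          (h0 _ (by omega) (by omega))
      · exact n1 hG hT.ch (hK m hm) (show 20 * m + 10 + 5 ≤ 20 * m + 15 by omega)
          (show 20 * m + 15 < 20 * m + 16 by omega) (show 20 * m + 16 < 20 * m + 17 by omega)
          (by omega) (h0 _ (by omega) (by omega)) (h0 _ (by omega) (by omega))
          (h0 _ (by omega) (by omega))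
  · intro b a hb m l hml hl
    have h0 : ∀ i, i < 20 * N → i ≠ a → cl G v e b i = 2 := by
      intro i hi hia
      rcases lt_or_gt_of_ne hia with h | h
      · exact (hb i hi).1 h
      · exact (hb i hi).2 h
    by_contra hcon
    push Not at hcon
    obtain ⟨i, hi1, hi2⟩ : ∃ i, i + 5 ≤ 20 * m + 10 ∧ cl G v e b i = 2 := by
      by_cases ha : a = 20 * m
      · exact ⟨20 * m + 1, by omega, h0 _ (by omega) (by omega)⟩
      · exact ⟨20 * m, by omega, h0 _ (by omega) (by omega)⟩
    obtain ⟨j, hj1, hj2, hj3⟩ : ∃ j, 20 * m + 10 + 6 ≤ j ∧ j + 5 ≤ 20 * l + 10 ∧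
        cl G v e b j = 2 := by
      by_cases ha : a = 20 * m + 16
      · exact ⟨20 * m + 17, by omega, by omega, h0 _ (by omega) (by omega)⟩
      · exact ⟨20 * m + 16, by omega, by omega, h0 _ (by omega) (by omega)⟩
    exact lg hG hT.ch (hK m (by omega)) (hK l hl) hcon.1 hcon.2 hi1 hj1 hj2 (by omega) hi2 hj3
  · intro b a ha hb
    refine ⟨fun m hm z hz => ?_, fun m hm ham => ?_⟩
    · by_contra hbz
      have h1 := (lf hG hT.ch (hK m (by omega)) hz hbz (show 20 * m + 5 ≤ 20 * m + 10 by omega)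
        ((hb _ (by omega)).1 (by omega)) (show 20 * m + 10 + 6 ≤ 20 * m + 16 by omega) (by omega)
        ((hb _ (by omega)).1 (by omega))).2 (a + 1) (by omega) (by omega)
      have h2 := (hb (a + 1) (by omega)).2 (by omega)
      omega
    · exact n0 hG hT.ch (hK m hm) (by omega) (show 20 * m < 20 * m + 1 by omega)
        (show 20 * m + 1 < 20 * m + 2 by omega) (by omega) ((hb _ (by omega)).2 (by omega))
        ((hb _ (by omega)).2 (by omega)) ((hb _ (by omega)).2 (by omega))
  · intro b a hb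
    refine ⟨fun m hm ham => ?_, fun m l hml hl ham => ?_⟩
    · exact n1 hG hT.ch (hK m hm) (show 20 * m + 10 + 5 ≤ 20 * m + 15 by omega)
        (show 20 * m + 15 < 20 * m + 16 by omega) (show 20 * m + 16 < 20 * m + 17 by omega)
        (by omega) ((hb _ (by omega)).1 (by omega)) ((hb _ (by omega)).1 (by omega))
        ((hb _ (by omega)).1 (by omega))
    · by_contra hcon
      push Not at hcon
      exact lg hG hT.ch (hK m (by omega)) (hK l hl) hcon.1 hcon.2
        (show 20 * m + 5 ≤ 20 * m + 10 by omega) (show 20 * m + 10 + 6 ≤ 20 * m + 16 by omega)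
        (by omega) (by omega) ((hb _ (by omega)).2 (by omega)) ((hb _ (by omega)).2 (by omega))

end Pool.Agent.MPd439b2.RN.L
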