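import Pool.Agent.Lib.MP_d439b2_co.RN.LS
import Pool.Agent.Lib.MP_d439b2_co.X3.H1R.Base

/-!
# MP_d439b2_co, RN/LCel: the cells of a typed ladder are local (helper88)
-/

set_option autoImplicit false

namespace Pool.Agent.MPd439b2.RN.L

open Pool.Agent.MPd439b2 Pool.Agent.MPd439b2.RN

variable {V : Type}

section

variable {G : SimpleGraph V} {n : ℕ} {v : ℕ → V} {e : Bool → ℕ → V}

/-- the facts on a vertex of type `(1, 0)` -/
private theorem wlo {u : V} {a : ℕ} (h : Wt G n v e u a 1 0) {i : ℕ} (hi : i < n) (hia : i < a) :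
    G.Adj (v i) u ∧ ∀ s, ¬ G.Adj (e s i) u := cl_one.1 ((h i hi).1 hia)

private theorem whi {u : V} {a : ℕ} (h : Wt G n v e u a 1 0) {i : ℕ} (hi : i < n) (hia : a < i) :
    ¬ G.Adj (v i) u ∧ ∀ s, ¬ G.Adj (e s i) u := cl_zero.1 ((h i hi).2 hia)

private theorem wle {u : V} {a : ℕ} (h : Wt G n v e u a 1 0) {i : ℕ} (hi : i < n)
    (hv : G.Adj (v i) u) : i ≤ a := by
  by_contra hc
  exact (whi h hi (by omega)).1 hv

private theorem wge {u : V} {a : ℕ} (h : Wt G n v e u a 1 0) {i : ℕ} (hi : i < n)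
    (hv : ¬ G.Adj (v i) u) : a ≤ i := by
  by_contra hc
  exact hv (wlo h hi (by omega)).1

private theorem wne {u : V} {a : ℕ} (h : Wt G n v e u a 1 0) {i : ℕ} (hi : i < n) (hia : i ≠ a)
    (s : Bool) : ¬ G.Adj (e s i) u := by
  rcases Nat.lt_or_gt_of_ne hia with h1 | h1
  · exact (wlo h hi h1).2 s
  · exact (whi h hi h1).2 s

private theorem fc {α : Type} {P : α → Prop} {a : α} {l : List α} (h : P a) (h' : ∀ x ∈ l, P x) :
    ∀ x ∈ a :: l, P x := by
  intro x hx
  rcases List.mem_cons.1 hx with rfl | hx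
  · exact h
  · exact h' x hx

private theorem fn {α : Type} {P : α → Prop} : ∀ x ∈ ([] : List α), P x := fun x hx => by simp at hx

/-- **The fact.** -/
private theorem fact (hG : H1T.FH G) (hc : CH.Ch G n v e) {x y : V} {t : ℕ} (hx : x ∈ Rv G n v e)
    (hy : y ∈ Rv G n v e) (ht : t + 3 < n) (h1 : ¬ G.Adj (v t) x) (h2 : G.Adj (v (t + 2)) y) :
    ¬ G.Adj x y := by
  intro hxy
  obtain ⟨a, ha⟩ := hx
  obtain ⟨b, hb⟩ := hy
  have h3 : a ≤ t := wge ha (by omega) h1
  have h4 : t + 2 ≤ b := wle hb (by omega) h2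
  obtain ⟨j, hj, hjb⟩ : ∃ j, (j = t + 2 ∨ j = t + 3) ∧ j ≠ b := by
    by_cases h : b = t + 2
    · exact ⟨t + 3, Or.inr rfl, by omega⟩
    · exact ⟨t + 2, Or.inl rfl, fun h' => h h'.symm⟩
  have hjn : j < n := by omega
  have hjt : t + 1 < j := by omega
  refine H1R.engV hG (fun i => [v t, y, v (t + 1), e false (t + 1), x, e false j].getD i y)
    [[0], [1], [2], [3], [4], [5]]
    [(0, 1), (0, 2), (1, 2), (0, 3), (1, 4), (0, 5), (2, 5)]
    [(1, 3), (2, 3), (0, 4), (2, 4), (1, 5), (3, 4), (3, 5), (4, 5)] [] ?_ ?_ ?_ (by decide)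
  · exact fc (wlo hb (by omega) (by omega)).1 <| fc (hc.vv t (by omega) (t + 1) (by omega) (by omega)) <|
      fc (wlo hb (by omega) (by omega)).1.symm <|
      fc ((hc.ve t (by omega) (t + 1) (by omega) false).2 (by omega)) <| fc hxy.symm <|
      fc ((hc.ve t (by omega) j hjn false).2 (by omega)) <|
      fc ((hc.ve (t + 1) (by omega) j hjn false).2 hjt) <| fn
  · exact fc (fun h => wne hb (by omega) (by omega) false h.symm) <|
      fc (fun h => lt_irrefl _ ((hc.ve (t + 1) (by omega) (t + 1) (by omega) false).1 h)) <| fc h1 <|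
      fc (whi ha (by omega) (by omega)).1 <| fc (fun h => wne hb hjn hjb false h.symm) <|
      fc (wne ha (by omega) (by omega) false) <|
      fc (fun h => absurd ((hc.ee (t + 1) (by omega) j hjn false false).1 h).1 (by omega)) <|
      fc (fun h => wne ha hjn (by omega) false h.symm) <| fn
  · exact fn

/-- **Lemma A.** -/
private theorem lemA (hG : H1T.FH G) (hc : CH.Ch G n v e) {T : Set V} (hT : Conn G T)
    (hR : T ⊆ Rv G n v e) {p : ℕ} (hp : p + 4 < n) {y₀ z : V} (hy₀ : y₀ ∈ T) (hz : z ∈ T)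
    (h1 : ¬ G.Adj (v p) y₀) (h2 : G.Adj (v (p + 3)) z) : False := by
  obtain ⟨B, hB⟩ : ∃ B, B = {u | u ∈ T ∧ ¬ G.Adj (v p) u} := ⟨_, rfl⟩
  obtain ⟨E, hE⟩ : ∃ E, E = {u | u ∈ T ∧ G.Adj (v p) u ∧
    (G.Adj (v (p + 3)) u ∨ ∃ s, G.Adj (e s (p + 3)) u)} := ⟨_, rfl⟩
  obtain ⟨D, hD⟩ : ∃ D, D = {u | u ∈ T ∧ G.Adj (v p) u ∧
    ¬ (G.Adj (v (p + 3)) u ∨ ∃ s, G.Adj (e s (p + 3)) u)} := ⟨_, rfl⟩
  have cov : ∀ u ∈ T, u ∈ B ∨ u ∈ E ∨ u ∈ D := by
    intro u hu
    rw [hB, hE, hD]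
    by_cases h3 : G.Adj (v p) u
    · by_cases h4 : G.Adj (v (p + 3)) u ∨ ∃ s, G.Adj (e s (p + 3)) u
      · exact Or.inr (Or.inl ⟨hu, h3, h4⟩)
      · exact Or.inr (Or.inr ⟨hu, h3, h4⟩)
    · exact Or.inl ⟨hu, h3⟩
  have noBE : ∀ x ∈ B, ∀ y ∈ E, ¬ G.Adj x y := by
    intro x hx y hy
    rw [hB] at hx
    rw [hE] at hy
    refine fact hG hc (t := p) (hR hx.1) (hR hy.1) (by omega) hx.2 ?_
    obtain ⟨b, hb⟩ := hR hy.1
    have h3 : p + 3 ≤ b := by
      rcases hy.2.2 with h | ⟨s, h⟩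
      · exact wle hb (by omega) h
      · by_contra h3
        exact wne hb (by omega) (by omega) s h
    exact (wlo hb (by omega) (by omega)).1
  have zE : z ∈ E := by
    rw [hE]
    refine ⟨hz, ?_, Or.inl h2⟩
    obtain ⟨b, hb⟩ := hR hz
    have h3 : p + 3 ≤ b := wle hb (by omega) h2
    exact (wlo hb (by omega) (by omega)).1
  have BE : ∀ u, u ∈ B → u ∈ E → False := by
    intro u hu hu'
    rw [hB] at hu
    rw [hE] at hu'
    exact hu.2 hu'.2.1
  have DE : ∀ u, u ∈ D → u ∈ E → False := by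
    intro u hu hu'
    rw [hD] at hu
    rw [hE] at hu'
    exact hu.2.2 hu'.2.2
  -- a connected set `C ⊆ D` which touches `B` and `E`
  obtain ⟨C, x, y, hCc, hCD, hxB, hyE, hxC, hyC⟩ : ∃ (C : Set V) (x y : V), Conn G C ∧ C ⊆ D ∧ x ∈ B ∧
      y ∈ E ∧ (∃ c ∈ C, G.Adj x c) ∧ ∃ c ∈ C, G.Adj y c := by
    obtain ⟨X, hX⟩ : ∃ X, X = B ∪ {d | ∃ Q : Set V, Conn G Q ∧ Q ⊆ D ∧ d ∈ Q ∧
      ∃ x ∈ B, ∃ c ∈ Q, G.Adj x c} := ⟨_, rfl⟩
    have hXT : X ⊆ T := by
      rw [hX]
      rintro u (hu | ⟨Q, _, hQ, hu, _⟩)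
      · rw [hB] at hu
        exact hu.1
      · have := hQ hu
        rw [hD] at this
        exact this.1
    have hXn : X.Nonempty := by
      refine ⟨y₀, ?_⟩
      rw [hX, hB]
      exact Or.inl ⟨hy₀, h1⟩
    have hXT' : X ≠ T := by
      intro h
      have hzX : z ∈ X := by rw [h]; exact hz
      rw [hX] at hzX
      rcases hzX with hu | ⟨Q, _, hQ, hu, _⟩
      · exact BE z hu zE
      · exact DE z (hQ hu) zE
    obtain ⟨b, hb, a, ha, hab⟩ := hT.2 X hXT hXn hXT'
    have haX : a ∉ X := ha.2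
    rw [hX] at hb
    rcases hb with hb | ⟨Q, hQ1, hQ2, hQ3, x, hx, c, hc', hxc⟩
    · exfalso
      rcases cov a ha.1 with h | h | h
      · exact haX (by rw [hX]; exact Or.inl h)
      · exact noBE b hb a h hab
      · exact haX (by
          rw [hX]
          exact Or.inr ⟨{a}, Conn.singleton G a, Set.singleton_subset_iff.2 h, rfl, b, hb, a, rfl, hab⟩)
    · rcases cov a ha.1 with h | h | h
      · exact absurd (by rw [hX]; exact Or.inl h) haX
      · exact ⟨Q, x, a, hQ1, hQ2, hx, h, ⟨c, hc', hxc⟩, b, hQ3, hab.symm⟩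
      · refine absurd ?_ haX
        rw [hX]
        exact Or.inr ⟨insert a Q, hQ1.insert ⟨b, hQ3, hab⟩, Set.insert_subset h hQ2, Set.mem_insert _ _,
          x, hx, c, Set.mem_insert_of_mem _ hc', hxc⟩
  -- facts on `C`, `x`, `y`
  have hC : ∀ c ∈ C, G.Adj (v p) c ∧ ¬ G.Adj (v (p + 3)) c ∧ (∀ s, ¬ G.Adj (e s (p + 3)) c) ∧
      ∀ s, ¬ G.Adj (e s (p + 4)) c := by
    intro c hc'
    have h3 := hCD hc'
    rw [hD] at h3
    obtain ⟨h4, h5, h6⟩ := h3
    rw [not_or, not_exists] at h6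
    obtain ⟨b, hb⟩ := hR h4
    have h7 : b ≤ p + 3 := wge hb (by omega) h6.1
    exact ⟨h5, h6.1, h6.2, fun s => wne hb (by omega) (by omega) s⟩
  have hx1 := hxB
  rw [hB] at hx1
  obtain ⟨a, ha⟩ := hR hx1.1
  have hap : a ≤ p := wge ha (by omega) hx1.2
  have hy1 := hyE
  rw [hE] at hy1
  obtain ⟨b, hb⟩ := hR hy1.1
  have hxy : ¬ G.Adj x y := noBE x hxB y hyE
  have evp : ∀ s i, p < i → i < n → G.Adj (v p) (e s i) := fun s i h3 h4 =>
    (hc.ve p (by omega) i h4 s).2 h3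
  have xvp : x ≠ v p := by
    intro h
    exact wne ha (i := p + 4) (by omega) (by omega) false (h ▸ (evp false (p + 4) (by omega) (by omega)).symm)
  have vpC : v p ∉ C := fun h => (hC _ h).1.ne rfl
  have xC : x ∉ C := fun h => hx1.2 (hC x h).1
  have yC : y ∉ C := fun h => DE y (hCD h) hyE
  have ey3 : ∀ s, y ≠ e s (p + 3) := by
    rintro s rfl
    obtain ⟨c, hc', h⟩ := hyC
    exact (hC c hc').2.2.1 s h
  have ey4 : ∀ s, y ≠ e s (p + 4) := by
    rintro s rfl
    obtain ⟨c, hc', h⟩ := hyC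
    exact (hC c hc').2.2.2 s h
  have e3C : ∀ s, e s (p + 3) ∉ C := by
    intro s h
    exact (hC _ h).2.2.1 (!s) ((hc.ee (p + 3) (by omega) (p + 3) (by omega) (!s) s).2 ⟨rfl, by cases s <;> simp⟩)
  have e4C : ∀ s, e s (p + 4) ∉ C := by
    intro s h
    exact (hC _ h).2.2.2 (!s) ((hc.ee (p + 4) (by omega) (p + 4) (by omega) (!s) s).2 ⟨rfl, by cases s <;> simp⟩)
  have e34 : ∀ s t, ¬ G.Adj (e s (p + 3)) (e t (p + 4)) := by
    intro s t h
    have := ((hc.ee (p + 3) (by omega) (p + 4) (by omega) s t).1 h).1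
    omega
  have yx : y ≠ x := fun h => BE x hxB (h ▸ hyE)
  have dj1 : ∀ (S : Set V) (u : V), u ∉ S → Disjoint {u} S := fun S u h => Set.disjoint_singleton_left.2 h
  by_cases ht : ∃ s, G.Adj (e s (p + 3)) y
  · obtain ⟨s, hs⟩ := ht
    have hb3 : b = p + 3 := by
      by_contra h3
      exact wne hb (by omega) (fun h => h3 h.symm) s hs
    refine H1T.mdlV hG (P := {v p}) (Q := C) (R := {y, e s (p + 3)}) (x := e s (p + 4)) (y := x)
      (z := e (!s) (p + 3)) (Conn.singleton G _) hCc (Conn.pair hs.symm) (dj1 _ _ vpC) (dj1 _ _ ?_) ?_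
      (evp s (p + 4) (by omega) (by omega)).ne' (e4C s) ?_ xvp xC ?_
      (evp (!s) (p + 3) (by omega) (by omega)).ne' (e3C _) ?_ ?_ ?_ ?_ ?_ ?_ ?_ ?_ ?_ ?_ ?_ ?_ ?_ ?_ ?_ ?_
    · rintro (h | h)
      · exact hy1.2.1.ne h
      · exact (evp s (p + 3) (by omega) (by omega)).ne h
    · rw [Set.disjoint_right]
      rintro u (rfl | rfl)
      · exact yC
      · exact e3C s
    · rintro (h | h)
      · exact ey4 s h.symm
      · have h3 := (hc.ve (p + 3) (by omega) (p + 4) (by omega) s).2 (by omega)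
        rw [h] at h3
        exact lt_irrefl _ ((hc.ve (p + 3) (by omega) (p + 3) (by omega) s).1 h3)
    · rintro (h | h)
      · exact yx h.symm
      · exact hx1.2 (h ▸ evp s (p + 3) (by omega) (by omega))
    · rintro (h | h)
      · exact ey3 _ h.symm
      · have h3 := (hc.ee (p + 3) (by omega) (p + 3) (by omega) (!s) s).2 ⟨rfl, by cases s <;> simp⟩
        exact h3.ne h
    · obtain ⟨c, hc'⟩ := hCc.1
      exact ⟨v p, rfl, c, hc', (hC c hc').1⟩
    · exact ⟨v p, rfl, y, Or.inl rfl, hy1.2.1⟩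
    · obtain ⟨c, hc', h⟩ := hyC
      exact ⟨c, hc', y, Or.inl rfl, h.symm⟩
    · exact ⟨v p, rfl, (evp s (p + 4) (by omega) (by omega)).symm⟩
    · exact fun c hc' => (hC c hc').2.2.2 s
    · rintro u (rfl | rfl)
      · exact wne hb (by omega) (by omega) s
      · exact fun h => e34 _ _ h.symm
    · exact hxC
    · rintro u rfl h
      exact hx1.2 h.symm
    · rintro u (rfl | rfl)
      · exact hxy
      · exact fun h => wne ha (by omega) (by omega) s h.symm
    · exact ⟨v p, rfl, (evp (!s) (p + 3) (by omega) (by omega)).symm⟩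
    · exact ⟨e s (p + 3), Or.inr rfl, (hc.ee (p + 3) (by omega) (p + 3) (by omega) (!s) s).2
        ⟨rfl, by cases s <;> simp⟩⟩
    · exact fun c hc' => (hC c hc').2.2.1 _
    · exact wne ha (by omega) (by omega) s
    · exact fun h => e34 _ _ h.symm
    · exact fun h => wne ha (by omega) (by omega) (!s) h.symm
  · rw [not_exists] at ht
    have hv3 : G.Adj (v (p + 3)) y := by
      rcases hy1.2.2 with h | ⟨s, h⟩
      · exact h
      · exact absurd h (ht s)
    have vv3 : G.Adj (v p) (v (p + 3)) := hc.vv p (by omega) (p + 3) (by omega) (by omega)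
    have ve34 : G.Adj (v (p + 3)) (e false (p + 4)) := (hc.ve (p + 3) (by omega) (p + 4) (by omega) false).2 (by omega)
    have ve33 : ¬ G.Adj (v (p + 3)) (e false (p + 3)) := fun h =>
      lt_irrefl _ ((hc.ve (p + 3) (by omega) (p + 3) (by omega) false).1 h)
    refine H1T.mdlV hG (P := {v p}) (Q := C) (R := {y, v (p + 3)}) (x := e false (p + 3)) (y := x)
      (z := e false (p + 4)) (Conn.singleton G _) hCc (Conn.pair hv3.symm) (dj1 _ _ vpC) (dj1 _ _ ?_) ?_
      (evp false (p + 3) (by omega) (by omega)).ne' (e3C false) ?_ xvp xC ?_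
      (evp false (p + 4) (by omega) (by omega)).ne' (e4C _) ?_ ?_ ?_ ?_ ?_ ?_ ?_ ?_ ?_ ?_ ?_ ?_ ?_ ?_ ?_ ?_
    · rintro (h | h)
      · exact hy1.2.1.ne h
      · exact vv3.ne h
    · rw [Set.disjoint_right]
      rintro u (rfl | rfl)
      · exact yC
      · intro h
        exact (hC _ h).2.2.2 false ve34.symm
    · rintro (h | h)
      · exact ey3 _ h.symm
      · exact e34 false false (h ▸ ve34)
    · rintro (h | h)
      · exact yx h.symm
      · exact hx1.2 (h ▸ vv3)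
    · rintro (h | h)
      · exact ey4 _ h.symm
      · exact ve34.ne h.symm
    · obtain ⟨c, hc'⟩ := hCc.1
      exact ⟨v p, rfl, c, hc', (hC c hc').1⟩
    · exact ⟨v p, rfl, y, Or.inl rfl, hy1.2.1⟩
    · obtain ⟨c, hc', h⟩ := hyC
      exact ⟨c, hc', y, Or.inl rfl, h.symm⟩
    · exact ⟨v p, rfl, (evp false (p + 3) (by omega) (by omega)).symm⟩
    · exact fun c hc' => (hC c hc').2.2.1 false
    · rintro u (rfl | rfl)
      · exact ht false
      · exact fun h => ve33 h.symm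
    · exact hxC
    · rintro u rfl h
      exact hx1.2 h.symm
    · rintro u (rfl | rfl)
      · exact hxy
      · exact fun h => (whi ha (by omega) (by omega)).1 h.symm
    · exact ⟨v p, rfl, (evp false (p + 4) (by omega) (by omega)).symm⟩
    · exact ⟨v (p + 3), Or.inr rfl, ve34.symm⟩
    · exact fun c hc' => (hC c hc').2.2.2 _
    · exact wne ha (by omega) (by omega) false
    · exact e34 _ _
    · exact fun h => wne ha (by omega) (by omega) false h.symm

end

theorem tCel : S_Cel := by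
  intro n V G v e hG hTL k hk hkn
  have hc : CH.Ch G n v e := hTL.ch
  have we : ∀ s, Wt G n v e (e s k) k 1 0 := by
    intro s i hi
    refine ⟨fun h => ?_, fun h => ?_⟩
    · rw [cl_one]
      refine ⟨(hc.ve i hi k (by omega) s).2 h, fun t h' => ?_⟩
      have := ((hc.ee i hi k (by omega) t s).1 h').1
      omega
    · rw [cl_zero]
      refine ⟨fun h' => ?_, fun t h' => ?_⟩
      · have := (hc.ve i hi k (by omega) s).1 h'
        omega
      · have := ((hc.ee i hi k (by omega) t s).1 h').1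
        omega
  have eR : ∀ s, e s k ∈ Rv G n v e := fun s => ⟨k, we s⟩
  obtain ⟨C, hCR, hkC, hCc, hCn⟩ := exists_comp G (eR false)
  have hK : Kc G n v e k = C := by
    apply Set.Subset.antisymm
    · rintro x ⟨Q, hQ, hQR, hkQ, hxQ⟩
      by_contra hx
      obtain ⟨b, hb, a, ha, hab⟩ := hQ.2 (Q ∩ C) Set.inter_subset_left ⟨_, hkQ, hkC⟩
        (fun h => hx (by rw [← h] at hxQ; exact hxQ.2))
      exact hCn a (hQR ha.1) ⟨fun h => ha.2 ⟨ha.1, h⟩, b, hb.2, hab⟩
    · intro x hx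
      exact ⟨C, hCc, hCR, hkC, hx⟩
  rw [hK]
  have key1 : ∀ x ∈ C, ¬ G.Adj (v (k + 3)) x := by
    intro x hx h
    refine lemA hG hc hCc hCR (p := k) (by omega) hkC hx ?_ h
    intro h'
    have := (hc.ve k (by omega) k (by omega) false).1 h'
    omega
  have key2 : ∀ x ∈ C, G.Adj (v (k - 4)) x := by
    intro x hx
    by_contra h
    refine lemA hG hc hCc hCR (p := k - 4) (by omega) hx hkC h ?_
    have h3 : k - 4 + 3 = k - 1 := by omega
    rw [h3]
    exact (hc.ve (k - 1) (by omega) k (by omega) false).2 (by omega)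
  refine ⟨hCc, hCR, ?_, ?_, ?_, ?_⟩
  · intro s
    cases s
    · exact hkC
    · by_contra h
      refine hCn _ (eR true) ⟨h, _, hkC, ?_⟩
      exact (hc.ee k (by omega) k (by omega) false true).2 ⟨rfl, by simp⟩
  · intro x hx i hi
    obtain ⟨a, ha⟩ := hCR hx
    have h1 : k - 4 ≤ a := wle ha (by omega) (key2 x hx)
    exact (ha i (by omega)).1 (by omega)
  · intro x hx i hi hki
    obtain ⟨a, ha⟩ := hCR hx
    have h1 : a ≤ k + 3 := wge ha (by omega) (key1 x hx)
    exact (ha i hi).2 (by omega)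
  · intro b hb hbC x hx h
    exact hCn b hb ⟨hbC, x, hx, h.symm⟩

end Pool.Agent.MPd439b2.RN.L
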