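import Pool.Agent.Lib.MP_d439b2_co.RN.MxR

/-!
# MP_d439b2_co, RN/MxC: configurations of two mixers, homogeneous rails of a cell system (helper90)
-/

set_option autoImplicit false

namespace Pool.Agent.MPd439b2.RN

open Pool.Agent.MPd439b2 Pool.Agent.MPd439b2.Rep Pool.Agent.MPd439b2.FT

variable {V : Type} {G : SimpleGraph V}

/-- the three configurations of two mixers on the vertices `c 1, .., c m` -/
def CfK (G : SimpleGraph V) (m : ℕ) (c : ℕ → V) (w u : V) : Prop :=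
  (m = 2 ∧ G.Adj (c 1) (c 2) ∧ (G.Adj w (c 1) ↔ ¬ G.Adj w (c 2)) ∧ (G.Adj u (c 1) ↔ ¬ G.Adj u (c 2))) ∨
  (m = 3 ∧ G.Adj (c 1) (c 2) ∧ G.Adj (c 2) (c 3) ∧ ¬ G.Adj (c 1) (c 3) ∧ (G.Adj w (c 1) ↔ ¬ G.Adj w (c 2)) ∧
    (G.Adj w (c 2) ↔ G.Adj w (c 3)) ∧ (G.Adj u (c 1) ↔ G.Adj u (c 2)) ∧ (G.Adj u (c 2) ↔ ¬ G.Adj u (c 3))) ∨
  (m = 4 ∧ G.Adj (c 1) (c 2) ∧ G.Adj (c 3) (c 4) ∧ G.Adj w (c 1) ∧ ¬ G.Adj w (c 2) ∧ G.Adj u (c 3) ∧
    ¬ G.Adj u (c 4))

/-- the vertices of the configuration are different vertices of `K` -/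
def InK (K : Set V) (m : ℕ) (c : ℕ → V) : Prop :=
  (∀ a, 1 ≤ a → a ≤ m → c a ∈ K) ∧ ∀ a b, 1 ≤ a → a ≤ m → 1 ≤ b → b ≤ m → a ≠ b → c a ≠ c b

theorem conf3 {K : Set V} {w u s c t : V} (hs : s ∈ K) (hc : c ∈ K) (ht : t ∈ K) (sc : G.Adj s c)
    (ct : G.Adj c t) (st : s ≠ t) (hw : G.Adj w s ↔ ¬ G.Adj w c) (hu : G.Adj u c ↔ ¬ G.Adj u t) :
    ∃ (m : ℕ) (c : ℕ → V), 2 ≤ m ∧ m ≤ 4 ∧ InK K m c ∧ CfK G m c w u := by
  have two : ∀ a b : V, a ∈ K → b ∈ K → G.Adj a b → (G.Adj w a ↔ ¬ G.Adj w b) → (G.Adj u a ↔ ¬ G.Adj u b) →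
      ∃ (m : ℕ) (c : ℕ → V), 2 ≤ m ∧ m ≤ 4 ∧ InK K m c ∧ CfK G m c w u := by
    intro a b ha hb hab h1 h2
    refine ⟨2, fun i => if i = 1 then a else b, le_rfl, by omega, ⟨?_, ?_⟩, Or.inl ⟨rfl, ?_, ?_, ?_⟩⟩
    · intro i _ _
      dsimp only
      split_ifs <;> assumption
    · intro i j hi hi' hj hj' hij
      have : (i = 1 ∧ j = 2) ∨ (i = 2 ∧ j = 1) := by omega
      rcases this with ⟨rfl, rfl⟩ | ⟨rfl, rfl⟩
      · simpa using hab.ne
      · simpa using hab.ne'
    · simpa using hab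
    · simpa using h1
    · simpa using h2
  by_cases h1 : G.Adj u s ↔ ¬ G.Adj u c
  · exact two s c hs hc sc hw h1
  by_cases h2 : G.Adj w c ↔ ¬ G.Adj w t
  · exact two c t hc ht ct h2 hu
  by_cases h3 : G.Adj s t
  · exact two s t hs ht h3 (by tauto) (by tauto)
  refine ⟨3, fun i => if i = 1 then s else if i = 2 then c else t, by omega, by omega, ⟨?_, ?_⟩,
    Or.inr (Or.inl ⟨rfl, ?_⟩)⟩
  · intro i _ _
    dsimp only
    split_ifs <;> assumption
  · intro i j hi hi' hj hj' hij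
    have e1 := sc.ne
    have e2 := ct.ne
    have : (i = 1 ∧ j = 2) ∨ (i = 2 ∧ j = 1) ∨ (i = 1 ∧ j = 3) ∨ (i = 3 ∧ j = 1) ∨ (i = 2 ∧ j = 3) ∨
      (i = 3 ∧ j = 2) := by omega
    rcases this with ⟨rfl, rfl⟩ | ⟨rfl, rfl⟩ | ⟨rfl, rfl⟩ | ⟨rfl, rfl⟩ | ⟨rfl, rfl⟩ | ⟨rfl, rfl⟩
    · simpa using e1
    · simpa using e1.symm
    · simpa using st
    · simpa using st.symm
    · simpa using e2
    · simpa using e2.symm
  · have h1' : G.Adj u s ↔ G.Adj u c := by tauto
    have h2' : G.Adj w c ↔ G.Adj w t := by tauto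
    simp only [if_true, if_false, show (2 : ℕ) ≠ 1 from by decide, show (3 : ℕ) ≠ 1 from by decide,
      show (3 : ℕ) ≠ 2 from by decide]
    exact ⟨sc, ct, h3, hw, h2', h1', hu⟩

/-- **Two mixers of a connected set are in one of the three configurations.** -/
theorem conf {K : Set V} (hK : Conn G K) {w u : V} (hw : w ∈ Mx G K) (hu : u ∈ Mx G K) :
    ∃ (m : ℕ) (c : ℕ → V), 2 ≤ m ∧ m ≤ 4 ∧ InK K m c ∧ CfK G m c w u := by
  obtain ⟨x, hx, y, hy, xy, wx, wy⟩ := edge hK hw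
  obtain ⟨x', hx', y', hy', xy', ux, uy⟩ := edge hK hu
  by_cases h1 : x = x'
  · subst h1
    by_cases h2 : y = y'
    · subst h2
      refine ⟨2, fun i => if i = 1 then x else y, le_rfl, by omega, ⟨?_, ?_⟩, Or.inl ⟨rfl, ?_, ?_, ?_⟩⟩
      · intro i _ _
        dsimp only
        split_ifs <;> assumption
      · intro i j hi hi' hj hj' hij
        have : (i = 1 ∧ j = 2) ∨ (i = 2 ∧ j = 1) := by omega
        rcases this with ⟨rfl, rfl⟩ | ⟨rfl, rfl⟩
        · simpa using xy.ne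
        · simpa using xy.ne'
      · simpa using xy
      · simpa using ⟨fun _ => wy, fun _ => wx⟩
      · simpa using ⟨fun _ => uy, fun _ => ux⟩
    · exact conf3 hy hx hy' xy.symm xy' h2 (by tauto) (by tauto)
  by_cases h2 : x = y'
  · subst h2
    by_cases h3 : y = x'
    · subst h3
      refine ⟨2, fun i => if i = 1 then x else y, le_rfl, by omega, ⟨?_, ?_⟩, Or.inl ⟨rfl, ?_, ?_, ?_⟩⟩
      · intro i _ _
        dsimp only
        split_ifs <;> assumption
      · intro i j hi hi' hj hj' hij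
        have : (i = 1 ∧ j = 2) ∨ (i = 2 ∧ j = 1) := by omega
        rcases this with ⟨rfl, rfl⟩ | ⟨rfl, rfl⟩
        · simpa using xy.ne
        · simpa using xy.ne'
      · simpa using xy
      · simpa using ⟨fun _ => wy, fun _ => wx⟩
      · simpa using ⟨fun h => absurd h uy, fun h => absurd ux h⟩
    · exact conf3 hy hx hx' xy.symm xy'.symm h3 (by tauto) (by tauto)
  by_cases h3 : y = x'
  · subst h3
    exact conf3 hx hy hy' xy xy' h2 (by tauto) (by tauto)
  by_cases h4 : y = y'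
  · subst h4
    exact conf3 hx hy hx' xy xy'.symm h1 (by tauto) (by tauto)
  refine ⟨4, fun i => if i = 1 then x else if i = 2 then y else if i = 3 then x' else y', by omega, le_rfl,
    ⟨?_, ?_⟩, Or.inr (Or.inr ⟨rfl, ?_⟩)⟩
  · intro i _ _
    dsimp only
    split_ifs <;> assumption
  · intro i j hi hi' hj hj' hij
    have e1 := xy.ne
    have e2 := xy'.ne
    interval_cases i <;> interval_cases j <;> first | exact absurd rfl hij | simp_all
    all_goals simp_all [eq_comm]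
  · simp only [if_true, if_false, show (2 : ℕ) ≠ 1 from by decide, show (3 : ℕ) ≠ 1 from by decide,
      show (3 : ℕ) ≠ 2 from by decide, show (4 : ℕ) ≠ 1 from by decide, show (4 : ℕ) ≠ 2 from by decide,
      show (4 : ℕ) ≠ 3 from by decide]
    exact ⟨xy, xy', wx, wy, ux, uy⟩

/-! ### selecting rails -/

/-- the bits of the rails `σ 0, σ 1, ..` -/
def sbt (σ : ℕ → ℕ) (F : ℕ → Bool) (b : ℕ) : Bool :=
  if b < 256 then F (16 * σ (b / 16) + σ (b % 16)) else
    F (256 + 16 * min (σ ((b - 256) / 16)) (σ ((b - 256) % 16)) + max (σ ((b - 256) / 16)) (σ ((b - 256) % 16)))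

theorem sbt_lt (σ : ℕ → ℕ) (F : ℕ → Bool) {i j : ℕ} (hi : i < 16) (hj : j < 16) :
    sbt σ F (16 * i + j) = F (16 * σ i + σ j) := by
  unfold sbt
  rw [if_pos (by omega), show (16 * i + j) / 16 = i from by omega, show (16 * i + j) % 16 = j from by omega]

theorem sbt_ge (σ : ℕ → ℕ) (F : ℕ → Bool) {i j : ℕ} (hj : j < 16) :
    sbt σ F (256 + 16 * i + j) = F (256 + 16 * min (σ i) (σ j) + max (σ i) (σ j)) := by
  unfold sbt
  rw [if_neg (by omega), show (256 + 16 * i + j - 256) / 16 = i from by omega,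
    show (256 + 16 * i + j - 256) % 16 = j from by omega]

theorem hr_sel {L M : ℕ} {x : ℕ → ℕ → V} {F : ℕ → Bool} (h : HR G L M x F) {L' : ℕ} (hL : L' ≤ 16)
    {σ : ℕ → ℕ} (hσ : ∀ i < L', σ i < L) (hi : ∀ i < L', ∀ j < L', i ≠ j → σ i ≠ σ j) :
    HR G L' M (fun i => x (σ i)) (sbt σ F) := by
  refine ⟨?_, ?_, ?_⟩
  · intro i hi' j hj k hk l hl hkl
    refine h.dis _ (hσ i hi') _ (hσ j hj) k hk l hl ?_
    by_cases hij : i = j
    · subst hij
      rcases hkl with h' | h'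
      · exact absurd rfl h'
      · exact Or.inr h'
    · exact Or.inl (hi i hi' j hj hij)
  · intro i hi' j hj k l hkl hl
    rw [sbt_lt σ F (by omega) (by omega)]
    exact h.rel _ (hσ i hi') _ (hσ j hj) k l hkl hl
  · intro i hi' j hj hij k hk
    rw [sbt_ge σ F (by omega)]
    rcases lt_or_gt_of_ne (hi i hi' j hj hij.ne) with h1 | h1
    · rw [min_eq_left h1.le, max_eq_right h1.le]
      exact h.dg _ (hσ i hi') _ (hσ j hj) h1 k hk
    · rw [min_eq_right h1.le, max_eq_left h1.le, SimpleGraph.adj_comm]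
      exact h.dg _ (hσ j hj) _ (hσ i hi') h1 k hk

/-- **Rails of a cell system**: rail `0` = `v`, rails `1, .., m` in the cells. -/
structure RE (G : SimpleGraph V) (M : ℕ) (v : ℕ → V) (K : ℕ → Set V) (m L : ℕ) (x : ℕ → ℕ → V)
    (F : ℕ → Bool) : Prop where
  hr : HR G L M x F
  lm : m < L
  lL : L ≤ 16
  x0 : ∀ k < M, x 0 k = v k
  xK : ∀ a, 1 ≤ a → a ≤ m → ∀ k < M, x a k ∈ K k

namespace RE

variable {M : ℕ} {v : ℕ → V} {K : ℕ → Set V} {m L : ℕ} {x : ℕ → ℕ → V} {F : ℕ → Bool}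

theorem kr (h : RE G M v K m L x F) (hC : CS G M v K) (hM : 2 ≤ M) : Kr F m := by
  have hl := h.lm
  refine ⟨?_, fun a ha ha' => ⟨?_, ?_, ?_, fun b hb hb' => ?_⟩⟩
  · have := (h.hr.rel 0 (by omega) 0 (by omega) 0 1 (by omega) (by omega)).1
      (by rw [h.x0 0 (by omega), h.x0 1 (by omega)]; exact (hC.vv 0 (by omega) 1 (by omega) (by omega)).2)
    simpa using this
  · have := (h.hr.rel 0 (by omega) a (by omega) 0 1 (by omega) (by omega)).1
      (by rw [h.x0 0 (by omega)]; exact hC.lo 0 (by omega) 1 (by omega) (by omega) _ (h.xK a ha ha' 1 (by omega)))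
    simpa using this
  · have := (h.hr.rel a (by omega) 0 (by omega) 0 1 (by omega) (by omega)).not.1
      (by rw [h.x0 1 (by omega)]
          exact fun h' => hC.hi 1 (by omega) 0 (by omega) (by omega) _ (h.xK a ha ha' 0 (by omega)) h'.symm)
    simpa using this
  · have := (h.hr.dg 0 (by omega) a (by omega) (by omega) 0 (by omega)).not.1
      (by rw [h.x0 0 (by omega)]
          exact hC.hi 0 (by omega) 0 (by omega) (by omega) _ (h.xK a ha ha' 0 (by omega)))
    simpa using this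
  · have := (h.hr.rel a (by omega) b (by omega) 0 1 (by omega) (by omega)).not.1
      ((hC.dis 0 (by omega) 1 (by omega) (by omega)).2 _ (h.xK a ha ha' 0 (by omega)) _
        (h.xK b hb hb' 1 (by omega)))
    simpa using this

/-- a mixer rail -/
theorem mr (h : RE G M v K m L x F) (hC : CS G M v K) (hM : 16 ≤ M) (hH : H1T.FH G) (hJ : H1T.FJ 2 G)
    (T : S_T1b) {r : ℕ} (hr : m < r) (hrL : r < L) {hh : Bool} (hK : ∀ k < M, Kd G M K k (x r k) true hh)
    {a b : ℕ} (ha : 1 ≤ a) (ha' : a ≤ m) (hb : 1 ≤ b) (hb' : b ≤ m)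
    (e1 : G.Adj (x a 0) (x b 0)) (e2 : G.Adj (x r 0) (x a 0)) (e3 : ¬ G.Adj (x r 0) (x b 0)) : Mr F m r hh := by
  have hl := h.lm
  have hL := h.lL
  have hab : a ≠ b := fun h' => e3 (h' ▸ e2)
  have hk := h.kr hC (by omega)
  -- the bits of a mixer against the cells
  have f1 : ∀ c, 1 ≤ c → c ≤ m → F (16 * r + c) = true ∧ F (16 * c + r) = hh := by
    intro c hc hc'
    constructor
    · exact (h.hr.rel r hrL c (by omega) 0 1 (by omega) (by omega)).1
        (((hK 0 (by omega)).1 1 (by omega) (by omega)).1 rfl _ (h.xK c hc hc' 1 (by omega)))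
    · have h2 := (hK 1 (by omega)).2 0 (by omega)
      have h3 := h.hr.rel c (by omega) r hrL 0 1 (by omega) (by omega)
      cases hh with
      | true =>
        exact h3.1 (h2.1 rfl _ (h.xK c hc hc' 0 (by omega))).symm
      | false =>
        rw [← Bool.not_eq_true]
        exact fun h4 => h2.2 rfl _ (h.xK c hc hc' 0 (by omega)) (h3.2 h4).symm
  set σ : ℕ → ℕ := fun i => if i = 0 then 0 else if i = 1 then a else if i = 2 then b else r with hσ
  have s0 : σ 0 = 0 := by simp [hσ]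
  have s1 : σ 1 = a := by simp [hσ]
  have s2 : σ 2 = b := by simp [hσ]
  have s3 : σ 3 = r := by simp [hσ]
  have hsel : HR G 4 M (fun i => x (σ i)) (sbt σ F) := by
    refine hr_sel h.hr (by omega) (fun i hi => ?_) (fun i hi j hj hij => ?_)
    · interval_cases i
      · rw [s0]; omega
      · rw [s1]; omega
      · rw [s2]; omega
      · rw [s3]; omega
    · interval_cases i <;> interval_cases j <;> first | exact absurd rfl hij | skip
      all_goals simp only [s0, s1, s2, s3]; omega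
  have hre : RE G M v K 2 4 (fun i => x (σ i)) (sbt σ F) := by
    refine ⟨hsel, by omega, by omega, fun k hk => ?_, fun c hc hc' k hk => ?_⟩
    · show x (σ 0) k = v k
      rw [s0]
      exact h.x0 k hk
    · have : c = 1 ∨ c = 2 := by omega
      rcases this with rfl | rfl
      · show x (σ 1) k ∈ K k
        rw [s1]
        exact h.xK a ha ha' k hk
      · show x (σ 2) k ∈ K k
        rw [s2]
        exact h.xK b hb hb' k hk
  have g1 : sbt σ F 274 = true := by
    have := (hsel.dg 1 (by omega) 2 (by omega) (by omega) 0 (by omega)).1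
      (by show G.Adj (x (σ 1) 0) (x (σ 2) 0); rw [s1, s2]; exact e1)
    exact this
  have g2 : sbt σ F (256 + 16 + 3) = true := by
    have := (hsel.dg 1 (by omega) 3 (by omega) (by omega) 0 (by omega)).1
      (by show G.Adj (x (σ 1) 0) (x (σ 3) 0); rw [s1, s3]; exact e2.symm)
    exact this
  have g3 : sbt σ F (256 + 32 + 3) = false := by
    have := (hsel.dg 2 (by omega) 3 (by omega) (by omega) 0 (by omega)).not.1
      (by show ¬ G.Adj (x (σ 2) 0) (x (σ 3) 0); rw [s2, s3]; exact fun h' => e3 h'.symm)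
    rw [Bool.not_eq_true] at this
    exact this
  have q1 : sbt σ F 49 = true := by
    rw [show (49 : ℕ) = 16 * 3 + 1 from rfl, sbt_lt σ F (by omega) (by omega), s3, s1]
    exact (f1 a ha ha').1
  have q2 : sbt σ F 50 = true := by
    rw [show (50 : ℕ) = 16 * 3 + 2 from rfl, sbt_lt σ F (by omega) (by omega), s3, s2]
    exact (f1 b hb hb').1
  have q3 : sbt σ F 19 = sbt σ F 35 := by
    rw [show (19 : ℕ) = 16 * 1 + 3 from rfl, show (35 : ℕ) = 16 * 2 + 3 from rfl,
      sbt_lt σ F (by omega) (by omega), sbt_lt σ F (by omega) (by omega), s3, s1, s2, (f1 a ha ha').2,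
      (f1 b hb hb').2]
  obtain ⟨r1, r2, r3, r4⟩ := T V G _ _ ⟨hH, hJ, hsel.mono le_rfl hM⟩ (hre.kr hC (by omega)) g1 g2 g3 q1 q2 q3
  rw [show (51 : ℕ) = 16 * 3 + 3 from rfl, sbt_lt σ F (by omega) (by omega), s3] at r1
  rw [show (3 : ℕ) = 16 * 0 + 3 from rfl, sbt_lt σ F (by omega) (by omega), s0, s3] at r2
  rw [show (48 : ℕ) = 16 * 3 + 0 from rfl, sbt_lt σ F (by omega) (by omega), s0, s3] at r3
  rw [show (259 : ℕ) = 256 + 16 * 0 + 3 from rfl, sbt_ge σ F (by omega), s0, s3, Nat.zero_min, Nat.zero_max] at r4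
  refine ⟨?_, ?_, ?_, ?_, f1⟩
  · rw [show 17 * r = 16 * r + r from by ring]
    exact r1
  · simpa using r2
  · simpa using r3
  · simpa using r4

end RE

end Pool.Agent.MPd439b2.RN
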