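import Pool.Agent.Lib.MP_d439b2_co.RN.LS
import Pool.Agent.Lib.MP_d439b2_co.RN.T1
import Pool.Agent.Lib.MP_d439b2_co.RN.MxC
import Pool.Agent.Lib.MP_577a3c26_an.Ramsey

/-!
# MP_d439b2_co, RN/LCln: Block 1: long ladders contain clean ladders (helper90)
-/

set_option autoImplicit false
set_option linter.style.longLine false

namespace Pool.Agent.MPd439b2.RN.L

open Pool.Agent.MPd439b2 Pool.Agent.MPd439b2.RN

/-! ### the models -/

/-- one letter seen, `v` missed, on three places -/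
private theorem m1 {V : Type} {G : SimpleGraph V} (hG : H1T.FH G) {N : ℕ} {v : ℕ → V} {e : Bool → ℕ → V}
    (hC : CH.Ch G N v e) {u : V} {i j k : ℕ} (hij : i < j) (hjk : j < k) (hk : k < N) (s : Bool)
    (a1 : ¬ G.Adj (u) (v i))
    (a2 : ¬ G.Adj (u) (v j))
    (a3 : ¬ G.Adj (u) (v k))
    (a4 : G.Adj (u) (e s k))
    (a5 : ¬ G.Adj (u) (e (!s) j)) : False := by
  have hi : i < N := by omega
  have hj : j < N := by omega
  refine H1R.engV hG (fun q => [v i, e s k, v j, e (!s) j, u, v k].getD q u)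
    [[0], [1], [2], [3], [4], [5]]
    [(0, 1), (0, 2), (1, 2), (0, 3), (1, 4), (0, 5), (2, 5)]
    [(1, 3), (2, 3), (0, 4), (2, 4), (3, 4), (1, 5), (3, 5), (4, 5)]
    [] ?_ ?_ ?_ (by decide)
  · intro p hp
    simp only [List.mem_cons, List.not_mem_nil, or_false] at hp
    rcases hp with rfl | rfl | rfl | rfl | rfl | rfl | rfl
    · exact (hC.ve _ hi _ hk s).2 (by omega)
    · exact hC.vv _ hi _ hj (by omega)
    · exact ((hC.ve _ hj _ hk s).2 (by omega)).symm
    · exact (hC.ve _ hi _ hj (!s)).2 (by omega)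
    · exact a4.symm
    · exact hC.vv _ hi _ hk (by omega)
    · exact hC.vv _ hj _ hk (by omega)
  · intro p hp
    simp only [List.mem_cons, List.not_mem_nil, or_false] at hp
    rcases hp with rfl | rfl | rfl | rfl | rfl | rfl | rfl | rfl
    · exact fun h' => absurd ((hC.ee _ hk _ hj s (!s)).1 h').1 (by omega)
    · exact fun h' => absurd ((hC.ve _ hj _ hj (!s)).1 h') (by omega)
    · exact fun h' => a1 h'.symm
    · exact fun h' => a2 h'.symm
    · exact fun h' => a5 h'.symm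
    · exact fun h' => absurd ((hC.ve _ hk _ hk s).1 h'.symm) (by omega)
    · exact fun h' => absurd ((hC.ve _ hk _ hj (!s)).1 h'.symm) (by omega)
    · exact a3
  · intro p hp
    exact absurd hp (List.not_mem_nil)

/-- one letter seen, `v` seen, on three places -/
private theorem m2 {V : Type} {G : SimpleGraph V} (hG : H1T.FH G) {N : ℕ} {v : ℕ → V} {e : Bool → ℕ → V}
    (hC : CH.Ch G N v e) {u : V} {i j k : ℕ} (hij : i < j) (hjk : j < k) (hk : k < N) (s : Bool)
    (a1 : G.Adj (u) (v i))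
    (a2 : G.Adj (u) (v j))
    (a3 : G.Adj (u) (e s i))
    (a4 : ¬ G.Adj (u) (e (!s) j))
    (a5 : ¬ G.Adj (u) (e (!s) k)) : False := by
  have hi : i < N := by omega
  have hj : j < N := by omega
  refine H1R.engV hG (fun q => [v i, u, v j, e (!s) j, e s i, e (!s) k].getD q u)
    [[0], [1], [2], [3], [4], [5]]
    [(0, 1), (0, 2), (1, 2), (0, 3), (1, 4), (0, 5), (2, 5)]
    [(1, 3), (2, 3), (0, 4), (2, 4), (3, 4), (1, 5), (3, 5), (4, 5)]
    [] ?_ ?_ ?_ (by decide)
  · intro p hp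
    simp only [List.mem_cons, List.not_mem_nil, or_false] at hp
    rcases hp with rfl | rfl | rfl | rfl | rfl | rfl | rfl
    · exact a1.symm
    · exact hC.vv _ hi _ hj (by omega)
    · exact a2
    · exact (hC.ve _ hi _ hj (!s)).2 (by omega)
    · exact a3
    · exact (hC.ve _ hi _ hk (!s)).2 (by omega)
    · exact (hC.ve _ hj _ hk (!s)).2 (by omega)
  · intro p hp
    simp only [List.mem_cons, List.not_mem_nil, or_false] at hp
    rcases hp with rfl | rfl | rfl | rfl | rfl | rfl | rfl | rfl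
    · exact a4
    · exact fun h' => absurd ((hC.ve _ hj _ hj (!s)).1 h') (by omega)
    · exact fun h' => absurd ((hC.ve _ hi _ hi s).1 h') (by omega)
    · exact fun h' => absurd ((hC.ve _ hj _ hi s).1 h') (by omega)
    · exact fun h' => absurd ((hC.ee _ hj _ hi (!s) s).1 h').1 (by omega)
    · exact a5
    · exact fun h' => absurd ((hC.ee _ hj _ hk (!s) (!s)).1 h').1 (by omega)
    · exact fun h' => absurd ((hC.ee _ hi _ hk s (!s)).1 h').1 (by omega)
  · intro p hp
    exact absurd hp (List.not_mem_nil)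

/-- classes `0 0 1` -/
private theorem m3 {V : Type} {G : SimpleGraph V} (hG : H1T.FH G) {N : ℕ} {v : ℕ → V} {e : Bool → ℕ → V}
    (hC : CH.Ch G N v e) {u : V} {i j k : ℕ} (hij : i < j) (hjk : j < k) (hk : k < N)
    (a1 : ¬ G.Adj (u) (v i))
    (a2 : ¬ G.Adj (u) (v j))
    (a3 : G.Adj (u) (v k))
    (a4 : ¬ G.Adj (u) (e false j))
    (a5 : ¬ G.Adj (u) (e false k)) : False := by
  have hi : i < N := by omega
  have hj : j < N := by omega
  refine H1R.engV hG (fun q => [v i, v k, v j, e false j, u, e false k].getD q u)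
    [[0], [1], [2], [3], [4], [5]]
    [(0, 1), (0, 2), (1, 2), (0, 3), (1, 4), (0, 5), (2, 5)]
    [(1, 3), (2, 3), (0, 4), (2, 4), (3, 4), (1, 5), (3, 5), (4, 5)]
    [] ?_ ?_ ?_ (by decide)
  · intro p hp
    simp only [List.mem_cons, List.not_mem_nil, or_false] at hp
    rcases hp with rfl | rfl | rfl | rfl | rfl | rfl | rfl
    · exact hC.vv _ hi _ hk (by omega)
    · exact hC.vv _ hi _ hj (by omega)
    · exact hC.vv _ hk _ hj (by omega)
    · exact (hC.ve _ hi _ hj false).2 (by omega)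
    · exact a3.symm
    · exact (hC.ve _ hi _ hk false).2 (by omega)
    · exact (hC.ve _ hj _ hk false).2 (by omega)
  · intro p hp
    simp only [List.mem_cons, List.not_mem_nil, or_false] at hp
    rcases hp with rfl | rfl | rfl | rfl | rfl | rfl | rfl | rfl
    · exact fun h' => absurd ((hC.ve _ hk _ hj false).1 h') (by omega)
    · exact fun h' => absurd ((hC.ve _ hj _ hj false).1 h') (by omega)
    · exact fun h' => a1 h'.symm
    · exact fun h' => a2 h'.symm
    · exact fun h' => a4 h'.symm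
    · exact fun h' => absurd ((hC.ve _ hk _ hk false).1 h') (by omega)
    · exact fun h' => absurd ((hC.ee _ hj _ hk false false).1 h').1 (by omega)
    · exact a5
  · intro p hp
    exact absurd hp (List.not_mem_nil)

/-- classes `0 0 0 2` -/
private theorem m5 {V : Type} {G : SimpleGraph V} (hG : H1T.FH G) {N : ℕ} {v : ℕ → V} {e : Bool → ℕ → V}
    (hC : CH.Ch G N v e) {u : V} {i j k l : ℕ} (hij : i < j) (hjk : j < k) (hkl : k < l) (hl : l < N)
    (a1 : ¬ G.Adj (u) (v i))
    (a2 : ¬ G.Adj (u) (v j))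
    (a3 : G.Adj (u) (e false l))
    (a4 : ¬ G.Adj (u) (e false j))
    (a5 : ¬ G.Adj (u) (e false k)) : False := by
  have hi : i < N := by omega
  have hj : j < N := by omega
  have hk : k < N := by omega
  refine H1R.engV hG (fun q => [v i, e false l, v j, e false j, u, e false k].getD q u)
    [[0], [1], [2], [3], [4], [5]]
    [(0, 1), (0, 2), (1, 2), (0, 3), (1, 4), (0, 5), (2, 5)]
    [(1, 3), (2, 3), (0, 4), (2, 4), (3, 4), (1, 5), (3, 5), (4, 5)]
    [] ?_ ?_ ?_ (by decide)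
  · intro p hp
    simp only [List.mem_cons, List.not_mem_nil, or_false] at hp
    rcases hp with rfl | rfl | rfl | rfl | rfl | rfl | rfl
    · exact (hC.ve _ hi _ hl false).2 (by omega)
    · exact hC.vv _ hi _ hj (by omega)
    · exact ((hC.ve _ hj _ hl false).2 (by omega)).symm
    · exact (hC.ve _ hi _ hj false).2 (by omega)
    · exact a3.symm
    · exact (hC.ve _ hi _ hk false).2 (by omega)
    · exact (hC.ve _ hj _ hk false).2 (by omega)
  · intro p hp
    simp only [List.mem_cons, List.not_mem_nil, or_false] at hp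
    rcases hp with rfl | rfl | rfl | rfl | rfl | rfl | rfl | rfl
    · exact fun h' => absurd ((hC.ee _ hl _ hj false false).1 h').1 (by omega)
    · exact fun h' => absurd ((hC.ve _ hj _ hj false).1 h') (by omega)
    · exact fun h' => a1 h'.symm
    · exact fun h' => a2 h'.symm
    · exact fun h' => a4 h'.symm
    · exact fun h' => absurd ((hC.ee _ hl _ hk false false).1 h').1 (by omega)
    · exact fun h' => absurd ((hC.ee _ hj _ hk false false).1 h').1 (by omega)
    · exact a5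
  · intro p hp
    exact absurd hp (List.not_mem_nil)

/-- classes `2 1 1` -/
private theorem m7 {V : Type} {G : SimpleGraph V} (hG : H1T.FH G) {N : ℕ} {v : ℕ → V} {e : Bool → ℕ → V}
    (hC : CH.Ch G N v e) {u : V} {i j k : ℕ} (hij : i < j) (hjk : j < k) (hk : k < N)
    (a1 : G.Adj (u) (v k))
    (a2 : G.Adj (u) (v j))
    (a3 : G.Adj (u) (e false i))
    (a4 : ¬ G.Adj (u) (e false j))
    (a5 : ¬ G.Adj (u) (e false k)) : False := by
  have hi : i < N := by omega
  have hj : j < N := by omega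
  refine H1R.engV hG (fun q => [v i, u, v j, e false j, e false i, e false k, v k].getD q u)
    [[0], [1, 6], [2], [3], [4], [5]]
    [(1, 6), (0, 6), (0, 2), (1, 2), (0, 3), (1, 4), (0, 5), (2, 5)]
    [(1, 3), (6, 3), (2, 3), (0, 4), (2, 4), (3, 4), (1, 5), (6, 5), (3, 5), (4, 5)]
    [] ?_ ?_ ?_ (by decide)
  · intro p hp
    simp only [List.mem_cons, List.not_mem_nil, or_false] at hp
    rcases hp with rfl | rfl | rfl | rfl | rfl | rfl | rfl | rfl
    · exact a1
    · exact hC.vv _ hi _ hk (by omega)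
    · exact hC.vv _ hi _ hj (by omega)
    · exact a2
    · exact (hC.ve _ hi _ hj false).2 (by omega)
    · exact a3
    · exact (hC.ve _ hi _ hk false).2 (by omega)
    · exact (hC.ve _ hj _ hk false).2 (by omega)
  · intro p hp
    simp only [List.mem_cons, List.not_mem_nil, or_false] at hp
    rcases hp with rfl | rfl | rfl | rfl | rfl | rfl | rfl | rfl | rfl | rfl
    · exact a4
    · exact fun h' => absurd ((hC.ve _ hk _ hj false).1 h') (by omega)
    · exact fun h' => absurd ((hC.ve _ hj _ hj false).1 h') (by omega)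
    · exact fun h' => absurd ((hC.ve _ hi _ hi false).1 h') (by omega)
    · exact fun h' => absurd ((hC.ve _ hj _ hi false).1 h') (by omega)
    · exact fun h' => absurd ((hC.ee _ hj _ hi false false).1 h').1 (by omega)
    · exact a5
    · exact fun h' => absurd ((hC.ve _ hk _ hk false).1 h') (by omega)
    · exact fun h' => absurd ((hC.ee _ hj _ hk false false).1 h').1 (by omega)
    · exact fun h' => absurd ((hC.ee _ hi _ hk false false).1 h').1 (by omega)
  · intro p hp
    exact absurd hp (List.not_mem_nil)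

private theorem bitsP {V : Type} {G : SimpleGraph V} {N : ℕ} {v : ℕ → V} {e : Bool → ℕ → V} (hC : CH.Ch G N v e)
    {P Q : ℕ → ℕ} {x : ℕ → ℕ → V} {F : ℕ → Bool} (hr : FT.HR G 7 16 x F) (hx0 : ∀ k < 16, x 0 k = v (P k))
    (hx1 : ∀ k < 16, x 1 k = e false (P k)) (hx2 : ∀ k < 16, x 2 k = e true (P k))
    (hx3 : ∀ k < 16, x 3 k = v (Q k)) (hx4 : ∀ k < 16, x 4 k = e false (Q k))
    (hx5 : ∀ k < 16, x 5 k = e true (Q k)) (hPP : ∀ k l, k < l → l < 16 → P k < P l)
    (hQQ : ∀ k l, k < l → l < 16 → Q k < Q l) (hPQ : ∀ k < 16, ∀ l < 16, P k < Q l) (hPN : ∀ k < 16, P k < N)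
    (hQN : ∀ k < 16, Q k < N) : ∀ b ∈ ([0, 1, 2, 3, 4, 5, 48, 51, 52, 53, 64, 80, 259, 260, 261, 274, 325] : List ℕ), F b = true := by
  intro b hb
  simp only [List.mem_cons, List.not_mem_nil, or_false] at hb
  rcases hb with rfl | rfl | rfl | rfl | rfl | rfl | rfl | rfl | rfl | rfl | rfl | rfl | rfl | rfl | rfl | rfl | rfl
  · exact (hr.rel 0 (by omega) 0 (by omega) 0 1 (by omega) (by omega)).1 (by rw [hx0 0 (by omega), hx0 1 (by omega)]; exact hC.vv _ (hPN 0 (by omega)) _ (hPN 1 (by omega)) ((hPP 0 1 (by omega) (by omega))).ne)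
  · exact (hr.rel 0 (by omega) 1 (by omega) 0 1 (by omega) (by omega)).1 (by rw [hx0 0 (by omega), hx1 1 (by omega)]; exact (hC.ve _ (hPN 0 (by omega)) _ (hPN 1 (by omega)) false).2 (hPP 0 1 (by omega) (by omega)))
  · exact (hr.rel 0 (by omega) 2 (by omega) 0 1 (by omega) (by omega)).1 (by rw [hx0 0 (by omega), hx2 1 (by omega)]; exact (hC.ve _ (hPN 0 (by omega)) _ (hPN 1 (by omega)) true).2 (hPP 0 1 (by omega) (by omega)))
  · exact (hr.rel 0 (by omega) 3 (by omega) 0 1 (by omega) (by omega)).1 (by rw [hx0 0 (by omega), hx3 1 (by omega)]; exact hC.vv _ (hPN 0 (by omega)) _ (hQN 1 (by omega)) ((hPQ 0 (by omega) 1 (by omega))).ne)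
  · exact (hr.rel 0 (by omega) 4 (by omega) 0 1 (by omega) (by omega)).1 (by rw [hx0 0 (by omega), hx4 1 (by omega)]; exact (hC.ve _ (hPN 0 (by omega)) _ (hQN 1 (by omega)) false).2 (hPQ 0 (by omega) 1 (by omega)))
  · exact (hr.rel 0 (by omega) 5 (by omega) 0 1 (by omega) (by omega)).1 (by rw [hx0 0 (by omega), hx5 1 (by omega)]; exact (hC.ve _ (hPN 0 (by omega)) _ (hQN 1 (by omega)) true).2 (hPQ 0 (by omega) 1 (by omega)))
  · exact (hr.rel 3 (by omega) 0 (by omega) 0 1 (by omega) (by omega)).1 (by rw [hx3 0 (by omega), hx0 1 (by omega)]; exact hC.vv _ (hQN 0 (by omega)) _ (hPN 1 (by omega)) ((hPQ 1 (by omega) 0 (by omega))).ne')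
  · exact (hr.rel 3 (by omega) 3 (by omega) 0 1 (by omega) (by omega)).1 (by rw [hx3 0 (by omega), hx3 1 (by omega)]; exact hC.vv _ (hQN 0 (by omega)) _ (hQN 1 (by omega)) ((hQQ 0 1 (by omega) (by omega))).ne)
  · exact (hr.rel 3 (by omega) 4 (by omega) 0 1 (by omega) (by omega)).1 (by rw [hx3 0 (by omega), hx4 1 (by omega)]; exact (hC.ve _ (hQN 0 (by omega)) _ (hQN 1 (by omega)) false).2 (hQQ 0 1 (by omega) (by omega)))
  · exact (hr.rel 3 (by omega) 5 (by omega) 0 1 (by omega) (by omega)).1 (by rw [hx3 0 (by omega), hx5 1 (by omega)]; exact (hC.ve _ (hQN 0 (by omega)) _ (hQN 1 (by omega)) true).2 (hQQ 0 1 (by omega) (by omega)))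
  · exact (hr.rel 4 (by omega) 0 (by omega) 0 1 (by omega) (by omega)).1 (by rw [hx4 0 (by omega), hx0 1 (by omega)]; exact ((hC.ve _ (hPN 1 (by omega)) _ (hQN 0 (by omega)) false).2 (hPQ 1 (by omega) 0 (by omega))).symm)
  · exact (hr.rel 5 (by omega) 0 (by omega) 0 1 (by omega) (by omega)).1 (by rw [hx5 0 (by omega), hx0 1 (by omega)]; exact ((hC.ve _ (hPN 1 (by omega)) _ (hQN 0 (by omega)) true).2 (hPQ 1 (by omega) 0 (by omega))).symm)
  · exact (hr.dg 0 (by omega) 3 (by omega) (by omega) 0 (by omega)).1 (by rw [hx0 0 (by omega), hx3 0 (by omega)]; exact hC.vv _ (hPN 0 (by omega)) _ (hQN 0 (by omega)) ((hPQ 0 (by omega) 0 (by omega))).ne)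
  · exact (hr.dg 0 (by omega) 4 (by omega) (by omega) 0 (by omega)).1 (by rw [hx0 0 (by omega), hx4 0 (by omega)]; exact (hC.ve _ (hPN 0 (by omega)) _ (hQN 0 (by omega)) false).2 (hPQ 0 (by omega) 0 (by omega)))
  · exact (hr.dg 0 (by omega) 5 (by omega) (by omega) 0 (by omega)).1 (by rw [hx0 0 (by omega), hx5 0 (by omega)]; exact (hC.ve _ (hPN 0 (by omega)) _ (hQN 0 (by omega)) true).2 (hPQ 0 (by omega) 0 (by omega)))
  · exact (hr.dg 1 (by omega) 2 (by omega) (by omega) 0 (by omega)).1 (by rw [hx1 0 (by omega), hx2 0 (by omega)]; exact (hC.ee _ (hPN 0 (by omega)) _ (hPN 0 (by omega)) false true).2 ⟨rfl, by decide⟩)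
  · exact (hr.dg 4 (by omega) 5 (by omega) (by omega) 0 (by omega)).1 (by rw [hx4 0 (by omega), hx5 0 (by omega)]; exact (hC.ee _ (hQN 0 (by omega)) _ (hQN 0 (by omega)) false true).2 ⟨rfl, by decide⟩)

private theorem bitsN {V : Type} {G : SimpleGraph V} {N : ℕ} {v : ℕ → V} {e : Bool → ℕ → V} (hC : CH.Ch G N v e)
    {P Q : ℕ → ℕ} {x : ℕ → ℕ → V} {F : ℕ → Bool} (hr : FT.HR G 7 16 x F) (hx0 : ∀ k < 16, x 0 k = v (P k))
    (hx1 : ∀ k < 16, x 1 k = e false (P k)) (hx2 : ∀ k < 16, x 2 k = e true (P k))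
    (hx3 : ∀ k < 16, x 3 k = v (Q k)) (hx4 : ∀ k < 16, x 4 k = e false (Q k))
    (hx5 : ∀ k < 16, x 5 k = e true (Q k)) (hPP : ∀ k l, k < l → l < 16 → P k < P l)
    (hQQ : ∀ k l, k < l → l < 16 → Q k < Q l) (hPQ : ∀ k < 16, ∀ l < 16, P k < Q l) (hPN : ∀ k < 16, P k < N)
    (hQN : ∀ k < 16, Q k < N) : ∀ b ∈ ([16, 17, 18, 19, 20, 21, 32, 33, 34, 35, 36, 37, 49, 50, 65, 66, 67, 68, 69, 81, 82, 83, 84, 85, 257, 258, 275, 276, 277, 291, 292, 293, 308, 309] : List ℕ), F b = false := by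
  intro b hb
  simp only [List.mem_cons, List.not_mem_nil, or_false] at hb
  rcases hb with rfl | rfl | rfl | rfl | rfl | rfl | rfl | rfl | rfl | rfl | rfl | rfl | rfl | rfl | rfl | rfl | rfl | rfl | rfl | rfl | rfl | rfl | rfl | rfl | rfl | rfl | rfl | rfl | rfl | rfl | rfl | rfl | rfl | rfl
  · exact Bool.not_eq_true _ ▸ (hr.rel 1 (by omega) 0 (by omega) 0 1 (by omega) (by omega)).not.1 (by rw [hx1 0 (by omega), hx0 1 (by omega)]; exact fun h' => lt_asymm ((hC.ve _ (hPN 1 (by omega)) _ (hPN 0 (by omega)) false).1 h'.symm) (hPP 0 1 (by omega) (by omega)))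
  · exact Bool.not_eq_true _ ▸ (hr.rel 1 (by omega) 1 (by omega) 0 1 (by omega) (by omega)).not.1 (by rw [hx1 0 (by omega), hx1 1 (by omega)]; exact fun h' => ((hPP 0 1 (by omega) (by omega))).ne ((hC.ee _ (hPN 0 (by omega)) _ (hPN 1 (by omega)) false false).1 h').1)
  · exact Bool.not_eq_true _ ▸ (hr.rel 1 (by omega) 2 (by omega) 0 1 (by omega) (by omega)).not.1 (by rw [hx1 0 (by omega), hx2 1 (by omega)]; exact fun h' => ((hPP 0 1 (by omega) (by omega))).ne ((hC.ee _ (hPN 0 (by omega)) _ (hPN 1 (by omega)) false true).1 h').1)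
  · exact Bool.not_eq_true _ ▸ (hr.rel 1 (by omega) 3 (by omega) 0 1 (by omega) (by omega)).not.1 (by rw [hx1 0 (by omega), hx3 1 (by omega)]; exact fun h' => lt_asymm ((hC.ve _ (hQN 1 (by omega)) _ (hPN 0 (by omega)) false).1 h'.symm) (hPQ 0 (by omega) 1 (by omega)))
  · exact Bool.not_eq_true _ ▸ (hr.rel 1 (by omega) 4 (by omega) 0 1 (by omega) (by omega)).not.1 (by rw [hx1 0 (by omega), hx4 1 (by omega)]; exact fun h' => ((hPQ 0 (by omega) 1 (by omega))).ne ((hC.ee _ (hPN 0 (by omega)) _ (hQN 1 (by omega)) false false).1 h').1)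
  · exact Bool.not_eq_true _ ▸ (hr.rel 1 (by omega) 5 (by omega) 0 1 (by omega) (by omega)).not.1 (by rw [hx1 0 (by omega), hx5 1 (by omega)]; exact fun h' => ((hPQ 0 (by omega) 1 (by omega))).ne ((hC.ee _ (hPN 0 (by omega)) _ (hQN 1 (by omega)) false true).1 h').1)
  · exact Bool.not_eq_true _ ▸ (hr.rel 2 (by omega) 0 (by omega) 0 1 (by omega) (by omega)).not.1 (by rw [hx2 0 (by omega), hx0 1 (by omega)]; exact fun h' => lt_asymm ((hC.ve _ (hPN 1 (by omega)) _ (hPN 0 (by omega)) true).1 h'.symm) (hPP 0 1 (by omega) (by omega)))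
  · exact Bool.not_eq_true _ ▸ (hr.rel 2 (by omega) 1 (by omega) 0 1 (by omega) (by omega)).not.1 (by rw [hx2 0 (by omega), hx1 1 (by omega)]; exact fun h' => ((hPP 0 1 (by omega) (by omega))).ne ((hC.ee _ (hPN 0 (by omega)) _ (hPN 1 (by omega)) true false).1 h').1)
  · exact Bool.not_eq_true _ ▸ (hr.rel 2 (by omega) 2 (by omega) 0 1 (by omega) (by omega)).not.1 (by rw [hx2 0 (by omega), hx2 1 (by omega)]; exact fun h' => ((hPP 0 1 (by omega) (by omega))).ne ((hC.ee _ (hPN 0 (by omega)) _ (hPN 1 (by omega)) true true).1 h').1)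
  · exact Bool.not_eq_true _ ▸ (hr.rel 2 (by omega) 3 (by omega) 0 1 (by omega) (by omega)).not.1 (by rw [hx2 0 (by omega), hx3 1 (by omega)]; exact fun h' => lt_asymm ((hC.ve _ (hQN 1 (by omega)) _ (hPN 0 (by omega)) true).1 h'.symm) (hPQ 0 (by omega) 1 (by omega)))
  · exact Bool.not_eq_true _ ▸ (hr.rel 2 (by omega) 4 (by omega) 0 1 (by omega) (by omega)).not.1 (by rw [hx2 0 (by omega), hx4 1 (by omega)]; exact fun h' => ((hPQ 0 (by omega) 1 (by omega))).ne ((hC.ee _ (hPN 0 (by omega)) _ (hQN 1 (by omega)) true false).1 h').1)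
  · exact Bool.not_eq_true _ ▸ (hr.rel 2 (by omega) 5 (by omega) 0 1 (by omega) (by omega)).not.1 (by rw [hx2 0 (by omega), hx5 1 (by omega)]; exact fun h' => ((hPQ 0 (by omega) 1 (by omega))).ne ((hC.ee _ (hPN 0 (by omega)) _ (hQN 1 (by omega)) true true).1 h').1)
  · exact Bool.not_eq_true _ ▸ (hr.rel 3 (by omega) 1 (by omega) 0 1 (by omega) (by omega)).not.1 (by rw [hx3 0 (by omega), hx1 1 (by omega)]; exact fun h' => lt_asymm ((hC.ve _ (hQN 0 (by omega)) _ (hPN 1 (by omega)) false).1 h') (hPQ 1 (by omega) 0 (by omega)))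
  · exact Bool.not_eq_true _ ▸ (hr.rel 3 (by omega) 2 (by omega) 0 1 (by omega) (by omega)).not.1 (by rw [hx3 0 (by omega), hx2 1 (by omega)]; exact fun h' => lt_asymm ((hC.ve _ (hQN 0 (by omega)) _ (hPN 1 (by omega)) true).1 h') (hPQ 1 (by omega) 0 (by omega)))
  · exact Bool.not_eq_true _ ▸ (hr.rel 4 (by omega) 1 (by omega) 0 1 (by omega) (by omega)).not.1 (by rw [hx4 0 (by omega), hx1 1 (by omega)]; exact fun h' => ((hPQ 1 (by omega) 0 (by omega))).ne' ((hC.ee _ (hQN 0 (by omega)) _ (hPN 1 (by omega)) false false).1 h').1)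
  · exact Bool.not_eq_true _ ▸ (hr.rel 4 (by omega) 2 (by omega) 0 1 (by omega) (by omega)).not.1 (by rw [hx4 0 (by omega), hx2 1 (by omega)]; exact fun h' => ((hPQ 1 (by omega) 0 (by omega))).ne' ((hC.ee _ (hQN 0 (by omega)) _ (hPN 1 (by omega)) false true).1 h').1)
  · exact Bool.not_eq_true _ ▸ (hr.rel 4 (by omega) 3 (by omega) 0 1 (by omega) (by omega)).not.1 (by rw [hx4 0 (by omega), hx3 1 (by omega)]; exact fun h' => lt_asymm ((hC.ve _ (hQN 1 (by omega)) _ (hQN 0 (by omega)) false).1 h'.symm) (hQQ 0 1 (by omega) (by omega)))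
  · exact Bool.not_eq_true _ ▸ (hr.rel 4 (by omega) 4 (by omega) 0 1 (by omega) (by omega)).not.1 (by rw [hx4 0 (by omega), hx4 1 (by omega)]; exact fun h' => ((hQQ 0 1 (by omega) (by omega))).ne ((hC.ee _ (hQN 0 (by omega)) _ (hQN 1 (by omega)) false false).1 h').1)
  · exact Bool.not_eq_true _ ▸ (hr.rel 4 (by omega) 5 (by omega) 0 1 (by omega) (by omega)).not.1 (by rw [hx4 0 (by omega), hx5 1 (by omega)]; exact fun h' => ((hQQ 0 1 (by omega) (by omega))).ne ((hC.ee _ (hQN 0 (by omega)) _ (hQN 1 (by omega)) false true).1 h').1)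
  · exact Bool.not_eq_true _ ▸ (hr.rel 5 (by omega) 1 (by omega) 0 1 (by omega) (by omega)).not.1 (by rw [hx5 0 (by omega), hx1 1 (by omega)]; exact fun h' => ((hPQ 1 (by omega) 0 (by omega))).ne' ((hC.ee _ (hQN 0 (by omega)) _ (hPN 1 (by omega)) true false).1 h').1)
  · exact Bool.not_eq_true _ ▸ (hr.rel 5 (by omega) 2 (by omega) 0 1 (by omega) (by omega)).not.1 (by rw [hx5 0 (by omega), hx2 1 (by omega)]; exact fun h' => ((hPQ 1 (by omega) 0 (by omega))).ne' ((hC.ee _ (hQN 0 (by omega)) _ (hPN 1 (by omega)) true true).1 h').1)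
  · exact Bool.not_eq_true _ ▸ (hr.rel 5 (by omega) 3 (by omega) 0 1 (by omega) (by omega)).not.1 (by rw [hx5 0 (by omega), hx3 1 (by omega)]; exact fun h' => lt_asymm ((hC.ve _ (hQN 1 (by omega)) _ (hQN 0 (by omega)) true).1 h'.symm) (hQQ 0 1 (by omega) (by omega)))
  · exact Bool.not_eq_true _ ▸ (hr.rel 5 (by omega) 4 (by omega) 0 1 (by omega) (by omega)).not.1 (by rw [hx5 0 (by omega), hx4 1 (by omega)]; exact fun h' => ((hQQ 0 1 (by omega) (by omega))).ne ((hC.ee _ (hQN 0 (by omega)) _ (hQN 1 (by omega)) true false).1 h').1)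
  · exact Bool.not_eq_true _ ▸ (hr.rel 5 (by omega) 5 (by omega) 0 1 (by omega) (by omega)).not.1 (by rw [hx5 0 (by omega), hx5 1 (by omega)]; exact fun h' => ((hQQ 0 1 (by omega) (by omega))).ne ((hC.ee _ (hQN 0 (by omega)) _ (hQN 1 (by omega)) true true).1 h').1)
  · exact Bool.not_eq_true _ ▸ (hr.dg 0 (by omega) 1 (by omega) (by omega) 0 (by omega)).not.1 (by rw [hx0 0 (by omega), hx1 0 (by omega)]; exact fun h' => lt_irrefl _ ((hC.ve _ (hPN 0 (by omega)) _ (hPN 0 (by omega)) false).1 h'))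
  · exact Bool.not_eq_true _ ▸ (hr.dg 0 (by omega) 2 (by omega) (by omega) 0 (by omega)).not.1 (by rw [hx0 0 (by omega), hx2 0 (by omega)]; exact fun h' => lt_irrefl _ ((hC.ve _ (hPN 0 (by omega)) _ (hPN 0 (by omega)) true).1 h'))
  · exact Bool.not_eq_true _ ▸ (hr.dg 1 (by omega) 3 (by omega) (by omega) 0 (by omega)).not.1 (by rw [hx1 0 (by omega), hx3 0 (by omega)]; exact fun h' => lt_asymm ((hC.ve _ (hQN 0 (by omega)) _ (hPN 0 (by omega)) false).1 h'.symm) (hPQ 0 (by omega) 0 (by omega)))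
  · exact Bool.not_eq_true _ ▸ (hr.dg 1 (by omega) 4 (by omega) (by omega) 0 (by omega)).not.1 (by rw [hx1 0 (by omega), hx4 0 (by omega)]; exact fun h' => ((hPQ 0 (by omega) 0 (by omega))).ne ((hC.ee _ (hPN 0 (by omega)) _ (hQN 0 (by omega)) false false).1 h').1)
  · exact Bool.not_eq_true _ ▸ (hr.dg 1 (by omega) 5 (by omega) (by omega) 0 (by omega)).not.1 (by rw [hx1 0 (by omega), hx5 0 (by omega)]; exact fun h' => ((hPQ 0 (by omega) 0 (by omega))).ne ((hC.ee _ (hPN 0 (by omega)) _ (hQN 0 (by omega)) false true).1 h').1)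
  · exact Bool.not_eq_true _ ▸ (hr.dg 2 (by omega) 3 (by omega) (by omega) 0 (by omega)).not.1 (by rw [hx2 0 (by omega), hx3 0 (by omega)]; exact fun h' => lt_asymm ((hC.ve _ (hQN 0 (by omega)) _ (hPN 0 (by omega)) true).1 h'.symm) (hPQ 0 (by omega) 0 (by omega)))
  · exact Bool.not_eq_true _ ▸ (hr.dg 2 (by omega) 4 (by omega) (by omega) 0 (by omega)).not.1 (by rw [hx2 0 (by omega), hx4 0 (by omega)]; exact fun h' => ((hPQ 0 (by omega) 0 (by omega))).ne ((hC.ee _ (hPN 0 (by omega)) _ (hQN 0 (by omega)) true false).1 h').1)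
  · exact Bool.not_eq_true _ ▸ (hr.dg 2 (by omega) 5 (by omega) (by omega) 0 (by omega)).not.1 (by rw [hx2 0 (by omega), hx5 0 (by omega)]; exact fun h' => ((hPQ 0 (by omega) 0 (by omega))).ne ((hC.ee _ (hPN 0 (by omega)) _ (hQN 0 (by omega)) true true).1 h').1)
  · exact Bool.not_eq_true _ ▸ (hr.dg 3 (by omega) 4 (by omega) (by omega) 0 (by omega)).not.1 (by rw [hx3 0 (by omega), hx4 0 (by omega)]; exact fun h' => lt_irrefl _ ((hC.ve _ (hQN 0 (by omega)) _ (hQN 0 (by omega)) false).1 h'))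
  · exact Bool.not_eq_true _ ▸ (hr.dg 3 (by omega) 5 (by omega) (by omega) 0 (by omega)).not.1 (by rw [hx3 0 (by omega), hx5 0 (by omega)]; exact fun h' => lt_irrefl _ ((hC.ve _ (hQN 0 (by omega)) _ (hQN 0 (by omega)) true).1 h'))

/-! ### states -/

/-- the state of `u` at the place `i` -/
private def Sta {V : Type} (G : SimpleGraph V) (v : ℕ → V) (e : Bool → ℕ → V) (u : V) (i : ℕ)
    (p : Bool × Bool × Bool) : Prop :=
  (G.Adj u (v i) ↔ p.1 = true) ∧ (G.Adj u (e false i) ↔ p.2.1 = true) ∧ (G.Adj u (e true i) ↔ p.2.2 = true)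

private def kls (p : Bool × Bool × Bool) : ℕ :=
  if p.2.1 = true ∧ p.2.2 = true then 2
  else if p.2.1 = false ∧ p.2.2 = false then (if p.1 = true then 1 else 0)
  else 3

private theorem cl_sta {V : Type} {G : SimpleGraph V} {v : ℕ → V} {e : Bool → ℕ → V} {u : V} {i : ℕ}
    {p : Bool × Bool × Bool} (h : Sta G v e u i p) : cl G v e u i = kls p := by
  obtain ⟨a, b, c⟩ := p
  obtain ⟨h1, h2, h3⟩ := h
  rw [SimpleGraph.adj_comm] at h1 h2 h3
  dsimp only at h1 h2 h3
  cases b <;> cases c <;> simp only [kls] <;> simp only [Bool.false_eq_true, iff_false, iff_true] at h2 h3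
  · cases a
    · simp only [Bool.false_eq_true, iff_false] at h1
      exact cl_zero.2 ⟨h1, fun s => by cases s <;> assumption⟩
    · simp only [iff_true] at h1
      exact cl_one.2 ⟨h1, fun s => by cases s <;> assumption⟩
  · exact cl_three.2 ⟨⟨true, h3⟩, false, h2⟩
  · exact cl_three.2 ⟨⟨false, h2⟩, true, h3⟩
  · exact cl_two.2 fun s => by cases s <;> assumption

private theorem no3 {V : Type} {G : SimpleGraph V} (hG : H1T.FH G) {N : ℕ} {v : ℕ → V} {e : Bool → ℕ → V}
    (hC : CH.Ch G N v e) {u : V} {i j k : ℕ} (hij : i < j) (hjk : j < k) (hk : k < N)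
    {p : Bool × Bool × Bool} (hi : Sta G v e u i p) (hj : Sta G v e u j p) (hk' : Sta G v e u k p)
    (h : kls p = 3) : False := by
  obtain ⟨a, b, c⟩ := p
  obtain ⟨i1, i2, i3⟩ := hi
  obtain ⟨j1, j2, j3⟩ := hj
  obtain ⟨k1, k2, k3⟩ := hk'
  dsimp only at i1 i2 i3 j1 j2 j3 k1 k2 k3
  cases b <;> cases c <;> simp only [Bool.false_eq_true, iff_false, iff_true] at i2 i3 j2 j3 k2 k3
  · cases a <;> exact absurd h (by decide)
  · cases a
    · simp only [Bool.false_eq_true, iff_false] at i1 j1 k1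
      exact m1 hG hC hij hjk hk true i1 j1 k1 k3 j2
    · simp only [iff_true] at i1 j1 k1
      exact m2 hG hC hij hjk hk true i1 j1 i3 j2 k2
  · cases a
    · simp only [Bool.false_eq_true, iff_false] at i1 j1 k1
      exact m1 hG hC hij hjk hk false i1 j1 k1 k2 j3
    · simp only [iff_true] at i1 j1 k1
      exact m2 hG hC hij hjk hk false i1 j1 i2 j3 k3
  · cases a <;> exact absurd h (by decide)

private theorem no001 {V : Type} {G : SimpleGraph V} (hG : H1T.FH G) {N : ℕ} {v : ℕ → V} {e : Bool → ℕ → V}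
    (hC : CH.Ch G N v e) {u : V} {i j k : ℕ} (hij : i < j) (hjk : j < k) (hk : k < N)
    (h1 : cl G v e u i = 0) (h2 : cl G v e u j = 0) (h3 : cl G v e u k = 1) : False := by
  rw [cl_zero] at h1 h2
  rw [cl_one] at h3
  exact m3 hG hC hij hjk hk (fun h => h1.1 h.symm) (fun h => h2.1 h.symm) h3.1.symm
    (fun h => h2.2 false h.symm) fun h => h3.2 false h.symm

private theorem no0002 {V : Type} {G : SimpleGraph V} (hG : H1T.FH G) {N : ℕ} {v : ℕ → V} {e : Bool → ℕ → V}
    (hC : CH.Ch G N v e) {u : V} {i j k l : ℕ} (hij : i < j) (hjk : j < k) (hkl : k < l) (hl : l < N)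
    (h1 : cl G v e u i = 0) (h2 : cl G v e u j = 0) (h3 : cl G v e u k = 0) (h4 : cl G v e u l = 2) :
    False := by
  rw [cl_zero] at h1 h2 h3
  rw [cl_two] at h4
  exact m5 hG hC hij hjk hkl hl (fun h => h1.1 h.symm) (fun h => h2.1 h.symm) (h4 false).symm
    (fun h => h2.2 false h.symm) fun h => h3.2 false h.symm

private theorem no211 {V : Type} {G : SimpleGraph V} (hG : H1T.FH G) {N : ℕ} {v : ℕ → V} {e : Bool → ℕ → V}
    (hC : CH.Ch G N v e) {u : V} {i j k : ℕ} (hij : i < j) (hjk : j < k) (hk : k < N)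
    (h1 : cl G v e u i = 2) (h2 : cl G v e u j = 1) (h3 : cl G v e u k = 1) : False := by
  rw [cl_two] at h1
  rw [cl_one] at h2 h3
  exact m7 hG hC hij hjk hk h3.1.symm h2.1.symm (h1 false).symm (fun h => h2.2 false h.symm)
    fun h => h3.2 false h.symm

private theorem kls_cases (p : Bool × Bool × Bool) : kls p = 0 ∨ kls p = 1 ∨ kls p = 2 ∨ kls p = 3 := by
  obtain ⟨a, b, c⟩ := p
  cases a <;> cases b <;> cases c <;> decide

/-- the classes of a vertex do not alternate -/
private theorem alt {V : Type} {G : SimpleGraph V} (hG : H1T.FH G) {N : ℕ} {v : ℕ → V} {e : Bool → ℕ → V}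
    (hC : CH.Ch G N v e) {u : V} {g : ℕ → ℕ} (hg : ∀ i j, i < j → j < 8 → g i < g j) (hN : g 7 < N)
    {p q : Bool × Bool × Bool} (hp : ∀ i < 4, Sta G v e u (g (2 * i)) p)
    (hq : ∀ i < 4, Sta G v e u (g (2 * i + 1)) q) (hne : kls p ≠ kls q) : False := by
  have b : ∀ i < 8, g i < N := fun i hi => by
    rcases lt_or_eq_of_le (show i ≤ 7 by omega) with h | h
    · exact lt_trans (hg i 7 h (by omega)) hN
    · rw [h]; exact hN
  have cp : ∀ i < 4, cl G v e u (g (2 * i)) = kls p := fun i hi => cl_sta (hp i hi)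
  have cq : ∀ i < 4, cl G v e u (g (2 * i + 1)) = kls q := fun i hi => cl_sta (hq i hi)
  have g01 := hg 0 1 (by omega) (by omega)
  have g12 := hg 1 2 (by omega) (by omega)
  have g23 := hg 2 3 (by omega) (by omega)
  have g34 := hg 3 4 (by omega) (by omega)
  have g45 := hg 4 5 (by omega) (by omega)
  have g56 := hg 5 6 (by omega) (by omega)
  have p0 := cp 0 (by omega)
  have p1 := cp 1 (by omega)
  have p2 := cp 2 (by omega)
  have p3 := cp 3 (by omega)
  have q0 := cq 0 (by omega)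
  have q1 := cq 1 (by omega)
  have q2 := cq 2 (by omega)
  norm_num at p0 p1 p2 p3 q0 q1 q2
  have n3p : kls p ≠ 3 := fun h => no3 hG hC (i := g 0) (j := g 2) (k := g 4) (by omega) (by omega)
    (b 4 (by omega)) (hp 0 (by omega)) (hp 1 (by omega)) (hp 2 (by omega)) h
  have n3q : kls q ≠ 3 := fun h => no3 hG hC (i := g 1) (j := g 3) (k := g 5) (by omega) (by omega)
    (b 5 (by omega)) (hq 0 (by omega)) (hq 1 (by omega)) (hq 2 (by omega)) h
  rcases kls_cases p with h | h | h | h <;> rcases kls_cases q with h' | h' | h' | h' <;>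
    first | exact hne (h.trans h'.symm) | exact n3p h | exact n3q h' | skip
  · rw [h] at p0 p1 p2 p3; rw [h'] at q0 q1 q2
    exact no001 hG hC (i := g 0) (j := g 2) (k := g 3) (by omega) (by omega) (b 3 (by omega)) p0 p1 q1
  · rw [h] at p0 p1 p2 p3; rw [h'] at q0 q1 q2
    exact no0002 hG hC (i := g 0) (j := g 2) (k := g 4) (l := g 5) (by omega) (by omega) (by omega)
      (b 5 (by omega)) p0 p1 p2 q2
  · rw [h] at p0 p1 p2 p3; rw [h'] at q0 q1 q2
    exact no001 hG hC (i := g 1) (j := g 3) (k := g 4) (by omega) (by omega) (b 4 (by omega)) q0 q1 p2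
  · rw [h] at p0 p1 p2 p3; rw [h'] at q0 q1 q2
    exact no211 hG hC (i := g 1) (j := g 2) (k := g 4) (by omega) (by omega) (b 4 (by omega)) q0 p1 p2
  · rw [h] at p0 p1 p2 p3; rw [h'] at q0 q1 q2
    exact no0002 hG hC (i := g 1) (j := g 3) (k := g 5) (l := g 6) (by omega) (by omega) (by omega)
      (b 6 (by omega)) q0 q1 q2 p3
  · rw [h] at p0 p1 p2 p3; rw [h'] at q0 q1 q2
    exact no211 hG hC (i := g 0) (j := g 1) (k := g 3) (by omega) (by omega) (b 3 (by omega)) p0 q0 q1

/-! ### the table -/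

private def mkL : List ℕ → ℕ
  | [] => 0
  | b :: l => (1 <<< b) ||| mkL l

private theorem mkL_bit {b : ℕ} : ∀ {l : List ℕ}, (mkL l).testBit b = true → b ∈ l
  | [], h => by simp [mkL] at h
  | c :: l, h => by
    rw [mkL, Nat.testBit_or, Bool.or_eq_true] at h
    rcases h with h | h
    · rw [Nat.shiftLeft_eq, one_mul, Nat.testBit_two_pow] at h
      rw [(of_decide_eq_true h : c = b)]
      exact List.mem_cons_self
    · exact List.mem_cons_of_mem _ (mkL_bit h)

private def LP : List ℕ := [0, 1, 2, 3, 4, 5, 48, 51, 52, 53, 64, 80, 259, 260, 261, 274, 325]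

private def LN : List ℕ := [16, 17, 18, 19, 20, 21, 32, 33, 34, 35, 36, 37, 49, 50, 65, 66, 67, 68, 69, 81, 82, 83,
  84, 85, 257, 258, 275, 276, 277, 291, 292, 293, 308, 309]

private def ck0 (r : ℕ) (c : ℕ × ℕ) : Bool := (List.range 3).all fun i =>
  (c.1.testBit (96 + r + i) && c.1.testBit (16 * (r + i) + 6) && c.1.testBit (256 + 16 * (r + i) + 6)) ||
    (c.2.testBit (96 + r + i) && c.2.testBit (16 * (r + i) + 6) && c.2.testBit (256 + 16 * (r + i) + 6))

private theorem ck_all : (FV.RN1.k1_I.all fun c => ck0 0 c || ck0 3 c) = true := by decide +kernel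

private theorem ck0_mt {F : ℕ → Bool} {r : ℕ} {c : ℕ × ℕ} (h : ck0 r c = true) (hM : FT.Mt c.1 c.2 F) :
    ∀ i < 3, F (96 + r + i) = F (16 * (r + i) + 6) ∧ F (256 + 16 * (r + i) + 6) = F (16 * (r + i) + 6) := by
  intro i hi
  simp only [ck0, List.all_eq_true, List.mem_range] at h
  have h1 := h i hi
  simp only [Bool.or_eq_true, Bool.and_eq_true] at h1
  rcases h1 with ⟨⟨h1, h2⟩, h3⟩ | ⟨⟨h1, h2⟩, h3⟩
  · rw [hM.1 _ h1, hM.1 _ h2, hM.1 _ h3]
    exact ⟨rfl, rfl⟩
  · rw [hM.2 _ h1, hM.2 _ h2, hM.2 _ h3]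
    exact ⟨rfl, rfl⟩

private theorem tb {V : Type} {G : SimpleGraph V} (hH : H1T.FH G) (hJ : H1T.FJ 2 G) {N : ℕ} {v : ℕ → V}
    {e : Bool → ℕ → V} (hC : CH.Ch G N v e)
    {P Q : ℕ → ℕ} {x : ℕ → ℕ → V} {F : ℕ → Bool} (hr : FT.HR G 7 16 x F) (hx0 : ∀ k < 16, x 0 k = v (P k))
    (hx1 : ∀ k < 16, x 1 k = e false (P k)) (hx2 : ∀ k < 16, x 2 k = e true (P k))
    (hx3 : ∀ k < 16, x 3 k = v (Q k)) (hx4 : ∀ k < 16, x 4 k = e false (Q k))
    (hx5 : ∀ k < 16, x 5 k = e true (Q k)) (hPP : ∀ k l, k < l → l < 16 → P k < P l)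
    (hQQ : ∀ k l, k < l → l < 16 → Q k < Q l) (hPQ : ∀ k < 16, ∀ l < 16, P k < Q l) (hPN : ∀ k < 16, P k < N)
    (hQN : ∀ k < 16, Q k < N)
    (n0 : ¬ ∀ i < 3, F (96 + 0 + i) = F (16 * (0 + i) + 6) ∧ F (256 + 16 * (0 + i) + 6) = F (16 * (0 + i) + 6))
    (n3 : ¬ ∀ i < 3, F (96 + 3 + i) = F (16 * (3 + i) + 6) ∧ F (256 + 16 * (3 + i) + 6) = F (16 * (3 + i) + 6)) :
    False := by
  have hP : ∀ b ∈ LP, F b = true := bitsP hC hr hx0 hx1 hx2 hx3 hx4 hx5 hPP hQQ hPQ hPN hQN
  have hN : ∀ b ∈ LN, F b = false := bitsN hC hr hx0 hx1 hx2 hx3 hx4 hx5 hPP hQQ hPQ hPN hQN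
  refine FV.RN1.k1 hH hJ (FV.HV.of_hr hr) ⟨fun i j h => ?_, fun i j h => ?_, fun c hc hM => ?_⟩ ?_
  · rw [Nat.zero_testBit] at h
    exact absurd h (by decide)
  · rw [Nat.zero_testBit] at h
    exact absurd h (by decide)
  · have h := (List.all_eq_true.1 ck_all) c hc
    rw [Bool.or_eq_true] at h
    rcases h with h | h
    · exact n0 (ck0_mt h hM)
    · exact n3 (ck0_mt h hM)
  · have e1 : (68351585149469152997326492621732107727598813993382327765695310781266922371967968757960154929954879 : ℕ) =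
        mkL LP := by decide +kernel
    have e2 : (1564471480351083777233040648265103483198128164835357307623296045204164011070480580784567549952 : ℕ) =
        mkL LN := by decide +kernel
    rw [e1, e2]
    exact ⟨fun b hb => hP b (mkL_bit hb), fun b hb => hN b (mkL_bit hb)⟩

/-! ### Ramsey for quadruples -/

private theorem tup {a b c d a' b' c' d' : ℕ} (h1 : a < b) (h2 : b < c) (h3 : c < d) (h1' : a' < b') (h2' : b' < c')
    (h3' : c' < d') (h : ({a, b, c, d} : Finset ℕ) = {a', b', c', d'}) : a = a' ∧ b = b' ∧ c = c' ∧ d = d' := by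
  have m : ∀ x, x ∈ ({a, b, c, d} : Finset ℕ) ↔ x ∈ ({a', b', c', d'} : Finset ℕ) := fun x => by rw [h]
  simp only [Finset.mem_insert, Finset.mem_singleton] at m
  have ma := (m a).1 (Or.inl rfl)
  have mb := (m b).1 (Or.inr (Or.inl rfl))
  have mc := (m c).1 (Or.inr (Or.inr (Or.inl rfl)))
  have md := (m d).1 (Or.inr (Or.inr (Or.inr rfl)))
  have ma' := (m a').2 (Or.inl rfl)
  have mb' := (m b').2 (Or.inr (Or.inl rfl))
  have mc' := (m c').2 (Or.inr (Or.inr (Or.inl rfl)))
  have md' := (m d').2 (Or.inr (Or.inr (Or.inr rfl)))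
  clear m h
  have ea : a = a' := by omega
  have ed : d = d' := by omega
  subst ea
  subst ed
  have eb : b = b' := by omega
  subst eb
  have ec : c = c' := by omega
  exact ⟨rfl, rfl, ec, rfl⟩

/-- Ramsey for a property of quadruples -/
private theorem ram4 (M : ℕ) : ∃ N : ℕ, ∀ R : ℕ → ℕ → ℕ → ℕ → Prop, ∃ h : ℕ → ℕ,
    (∀ i j, i < j → j < M → h i < h j) ∧ (∀ i < M, h i < N) ∧
      ((∀ a b c d, a < b → b < c → c < d → d < M → R (h a) (h b) (h c) (h d)) ∨
        ∀ a b c d, a < b → b < c → c < d → d < M → ¬ R (h a) (h b) (h c) (h d)) := by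
  classical
  obtain ⟨N, hN⟩ := Pool.Agent.Lib.MP_577a3c26_an.ramsey 4 M Bool
  refine ⟨N, fun R => ?_⟩
  obtain ⟨H, hH, hc, col, hcol⟩ := hN fun D => decide (∃ a b c d, a < b ∧ b < c ∧ c < d ∧
    D = {a, b, c, d} ∧ R a b c d)
  set h : ℕ → ℕ := fun i => if hi : i < M then H.orderEmbOfFin hc ⟨i, hi⟩ else 0 with hh
  have hm : ∀ i (hi : i < M), h i = H.orderEmbOfFin hc ⟨i, hi⟩ := fun i hi => by
    simp only [hh]
    rw [dif_pos hi]
  have hlt : ∀ i j, i < j → j < M → h i < h j := fun i j hij hj => by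
    rw [hm i (by omega), hm j hj]
    exact (H.orderEmbOfFin hc).lt_iff_lt.2 hij
  have hmem : ∀ i < M, h i ∈ H := fun i hi => by
    rw [hm i hi]
    exact Finset.orderEmbOfFin_mem _ _ _
  have key : ∀ a b c d, a < b → b < c → c < d → d < M → (R (h a) (h b) (h c) (h d) ↔ col = true) := by
    intro a b c d hab hbc hcd hd
    have l1 := hlt a b hab (by omega)
    have l2 := hlt b c hbc (by omega)
    have l3 := hlt c d hcd hd
    have hD := hcol {h a, h b, h c, h d} (by
      intro x hx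
      simp only [Finset.mem_insert, Finset.mem_singleton] at hx
      rcases hx with rfl | rfl | rfl | rfl
      · exact hmem a (by omega)
      · exact hmem b (by omega)
      · exact hmem c (by omega)
      · exact hmem d hd) (by
      rw [Finset.card_insert_of_notMem, Finset.card_insert_of_notMem, Finset.card_insert_of_notMem,
        Finset.card_singleton]
      · simp only [Finset.mem_singleton]; omega
      · simp only [Finset.mem_insert, Finset.mem_singleton]; omega
      · simp only [Finset.mem_insert, Finset.mem_singleton]; omega)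
    rw [← hD, decide_eq_true_iff]
    constructor
    · exact fun hR => ⟨_, _, _, _, l1, l2, l3, rfl, hR⟩
    · rintro ⟨a', b', c', d', h1, h2, h3, h4, h5⟩
      obtain ⟨e1, e2, e3, e4⟩ := tup l1 l2 l3 h1 h2 h3 h4
      rw [e1, e2, e3, e4]
      exact h5
  refine ⟨h, hlt, fun i hi => Finset.mem_range.1 (hH (hmem i hi)), ?_⟩
  cases col with
  | true => exact Or.inl fun a b c d h1 h2 h3 h4 => (key a b c d h1 h2 h3 h4).2 rfl
  | false => exact Or.inr fun a b c d h1 h2 h3 h4 h5 => absurd ((key a b c d h1 h2 h3 h4).1 h5) (by decide)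

/-! ### the ladder vertices change their class only once -/

section

variable {V : Type} {G : SimpleGraph V} {N : ℕ} {v : ℕ → V} {e : Bool → ℕ → V}

private theorem cl_vl (hC : CH.Ch G N v e) {i j : ℕ} (hi : i < N) (hj : j < N) (hij : i < j) :
    cl G v e (v j) i = 1 :=
  cl_one.2 ⟨hC.vv i hi j hj hij.ne, fun s h => absurd ((hC.ve j hj i hi s).1 h.symm) (by omega)⟩

private theorem cl_vr (hC : CH.Ch G N v e) {i j : ℕ} (hi : i < N) (hj : j < N) (hij : j < i) :
    cl G v e (v j) i = 2 :=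
  cl_two.2 fun s => ((hC.ve j hj i hi s).2 hij).symm

private theorem cl_el (hC : CH.Ch G N v e) {i j : ℕ} (hi : i < N) (hj : j < N) (hij : i < j) (t : Bool) :
    cl G v e (e t j) i = 1 :=
  cl_one.2 ⟨(hC.ve i hi j hj t).2 hij, fun s h => absurd ((hC.ee i hi j hj s t).1 h).1 (by omega)⟩

private theorem cl_er (hC : CH.Ch G N v e) {i j : ℕ} (hi : i < N) (hj : j < N) (hij : j < i) (t : Bool) :
    cl G v e (e t j) i = 0 :=
  cl_zero.2 ⟨fun h => absurd ((hC.ve i hi j hj t).1 h) (by omega),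
    fun s h => absurd ((hC.ee i hi j hj s t).1 h).1 (by omega)⟩

/-- `u` changes its class twice -/
private def Ch2 (G : SimpleGraph V) (v : ℕ → V) (e : Bool → ℕ → V) (u : V) (a b c d : ℕ) : Prop :=
  a < b ∧ b < c ∧ c < d ∧ cl G v e u a ≠ cl G v e u b ∧ cl G v e u c ≠ cl G v e u d

private theorem ch2_v (hC : CH.Ch G N v e) {u : V} {a b c d : ℕ} (hd : d < N) (h : Ch2 G v e u a b c d)
    {j : ℕ} (hj : j < N) : u ≠ v j := by
  rintro rfl
  obtain ⟨h1, h2, h3, h4, h5⟩ := h
  rcases lt_trichotomy j c with h | h | h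
  · exact h5 (by rw [cl_vr hC (by omega) hj h, cl_vr hC hd hj (by omega)])
  · exact h4 (by rw [cl_vl hC (by omega) hj (by omega), cl_vl hC (by omega) hj (by omega)])
  · exact h4 (by rw [cl_vl hC (by omega) hj (by omega), cl_vl hC (by omega) hj (by omega)])

private theorem ch2_e (hC : CH.Ch G N v e) {u : V} {a b c d : ℕ} (hd : d < N) (h : Ch2 G v e u a b c d)
    {j : ℕ} (hj : j < N) (t : Bool) : u ≠ e t j := by
  rintro rfl
  obtain ⟨h1, h2, h3, h4, h5⟩ := h
  rcases lt_trichotomy j c with h | h | h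
  · exact h5 (by rw [cl_er hC (by omega) hj h, cl_er hC hd hj (by omega)])
  · exact h4 (by rw [cl_el hC (by omega) hj (by omega), cl_el hC (by omega) hj (by omega)])
  · exact h4 (by rw [cl_el hC (by omega) hj (by omega), cl_el hC (by omega) hj (by omega)])

/-- the bits of `u` at the place `i` -/
private theorem sta_ex (u : V) (i : ℕ) : ∃ p, Sta G v e u i p := by
  classical
  exact ⟨(decide (G.Adj u (v i)), decide (G.Adj u (e false i)), decide (G.Adj u (e true i))),
    decide_eq_true_iff.symm, decide_eq_true_iff.symm, decide_eq_true_iff.symm⟩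

/-- the vertex of the type `a` at the place `p` -/
private def lad (v : ℕ → V) (e : Bool → ℕ → V) (a p : ℕ) : V :=
  if a = 0 then v p else if a = 1 then e false p else e true p

private theorem lad_ne (hC : CH.Ch G N v e) {a b p q : ℕ} (ha : a < 3) (hb : b < 3) (hp : p < N) (hq : q < N)
    (h : a ≠ b ∨ p ≠ q) : lad v e a p ≠ lad v e b q := by
  have n1 : ∀ s : Bool, ∀ i < N, ∀ j < N, e s i ≠ v j := fun s i hi j hj => (hC.nve hj hi s).symm
  interval_cases a <;> interval_cases b <;> simp only [lad, if_true, if_false, one_ne_zero, reduceIte,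
    show (2 : ℕ) ≠ 0 from by decide, show (2 : ℕ) ≠ 1 from by decide]
  · exact hC.nvv hp hq (by tauto)
  · exact hC.nve hp hq _
  · exact hC.nve hp hq _
  · exact n1 _ _ hp _ hq
  · exact hC.nee hp hq (by tauto)
  · by_cases hpq : p = q
    · subst hpq
      exact hC.ft hp false
    · exact hC.nee hp hq hpq
  · exact n1 _ _ hp _ hq
  · by_cases hpq : p = q
    · subst hpq
      exact hC.ft hp true
    · exact hC.nee hp hq hpq
  · exact hC.nee hp hq (by tauto)

private theorem lad_u (hC : CH.Ch G N v e) {u : V} {a b c d : ℕ} (hd : d < N) (h : Ch2 G v e u a b c d)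
    {j : ℕ} (hj : j < N) (t : ℕ) : u ≠ lad v e t j := by
  unfold lad
  split_ifs
  · exact ch2_v hC hd h hj
  · exact ch2_e hC hd h hj _
  · exact ch2_e hC hd h hj _

end

/-- the places -/
private def pl (h : ℕ → ℕ) (m c s : ℕ) : ℕ := h (2 * s + c % 2 + if c < 2 then 0 else 2 * m)

private theorem pl_lt {h : ℕ → ℕ} {m : ℕ} (hh : ∀ i j, i < j → j < 4 * m → h i < h j) {c c' s s' : ℕ} (hs : s < m)
    (hs' : s' < m) (h1 : (c < 2 ∧ 2 ≤ c') ∨ ((c < 2 ↔ c' < 2) ∧ (s < s' ∨ (s = s' ∧ c % 2 < c' % 2)))) :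
    pl h m c s < pl h m c' s' := by
  unfold pl
  refine hh _ _ ?_ ?_
  · split_ifs <;> omega
  · split_ifs <;> omega

private theorem pl_bd {h : ℕ → ℕ} {m N : ℕ} (hN : ∀ i < 4 * m, h i < N) {c s : ℕ} (hs : s < m) : pl h m c s < N := by
  unfold pl
  refine hN _ ?_
  split_ifs <;> omega

private theorem yes : ∃ m : ℕ, ∀ (V : Type) (G : SimpleGraph V) (N : ℕ) (v : ℕ → V) (e : Bool → ℕ → V) (h : ℕ → ℕ),
    H1T.FH G → H1T.FJ 2 G → CH.Ch G N v e → (∀ i j, i < j → j < 4 * m → h i < h j) → (∀ i < 4 * m, h i < N) →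
    (∀ s < m, ∃ u, Ch2 G v e u (pl h m 0 s) (pl h m 1 s) (pl h m 2 s) (pl h m 3 s)) → False := by
  classical
  obtain ⟨N1, hhr⟩ := hr_exists 13 16 (by omega)
  obtain ⟨N2, hpig⟩ := pig ((Bool × Bool × Bool) × (Bool × Bool × Bool)) 4
  obtain ⟨m, hci⟩ := const_or_inj (N1 + N2)
  refine ⟨m, fun V G N v e h hH hJ hC hh hN hR => ?_⟩
  have hR' : ∀ s, ∃ u, s < m → Ch2 G v e u (pl h m 0 s) (pl h m 1 s) (pl h m 2 s) (pl h m 3 s) := fun s => by
    by_cases hs : s < m
    · obtain ⟨u, hu⟩ := hR s hs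
      exact ⟨u, fun _ => hu⟩
    · exact ⟨v 0, fun h => absurd h hs⟩
  choose u hu using hR'
  obtain ⟨s1, a1, a2, hcase⟩ := hci V u
  -- the alternating places
  have galt : ∀ (r : ℕ) (t : ℕ → ℕ), (r = 0 ∨ r = 2) → (∀ k l, k < l → l < 4 → t k < t l) → (∀ k < 4, t k < m) →
      (∀ i j, i < j → j < 8 → pl h m (r + i % 2) (t (i / 2)) < pl h m (r + j % 2) (t (j / 2))) ∧
        pl h m (r + 7 % 2) (t (7 / 2)) < N := by
    intro r t hr ht htm
    refine ⟨fun i j hij hj => ?_, pl_bd hN (htm _ (by omega))⟩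
    refine pl_lt hh (htm _ (by omega)) (htm _ (by omega)) (Or.inr ⟨by omega, ?_⟩)
    rcases lt_or_eq_of_le (show i / 2 ≤ j / 2 by omega) with h1 | h1
    · exact Or.inl (ht _ _ h1 (by omega))
    · exact Or.inr ⟨by rw [h1], by omega⟩
  rcases hcase with hc | hinj
  · -- `u` is constant
    choose pf hpf using fun k => sta_ex (G := G) (v := v) (e := e) (u (s1 k)) (pl h m 0 (s1 k))
    choose qf hqf using fun k => sta_ex (G := G) (v := v) (e := e) (u (s1 k)) (pl h m 1 (s1 k))
    obtain ⟨s2, ⟨p, q⟩, b1, b2, b3⟩ := hpig fun k => (pf k, qf k)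
    have c1 : ∀ k l, k < l → l < 4 → s1 (s2 k) < s1 (s2 l) := fun k l hkl hl =>
      a1 _ _ (b1 k l hkl hl) (by have := b2 l hl; omega)
    have c2 : ∀ k < 4, s1 (s2 k) < m := fun k hk => a2 _ (by have := b2 k hk; omega)
    have c3 : ∀ k < 4, u (s1 (s2 k)) = u (s1 (s2 0)) := fun k hk =>
      hc _ (by have := b2 k hk; omega) _ (by have := b2 0 (by omega); omega)
    obtain ⟨g1, g2⟩ := galt 0 (fun k => s1 (s2 k)) (Or.inl rfl) c1 c2
    have hp : ∀ k < 4, Sta G v e (u (s1 (s2 0))) (pl h m 0 (s1 (s2 k))) p := fun k hk => by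
      have h1 := hpf (s2 k)
      rw [c3 k hk] at h1
      have h2 : pf (s2 k) = p := congrArg Prod.fst (b3 k hk)
      rw [h2] at h1
      exact h1
    have hq : ∀ k < 4, Sta G v e (u (s1 (s2 0))) (pl h m 1 (s1 (s2 k))) q := fun k hk => by
      have h1 := hqf (s2 k)
      rw [c3 k hk] at h1
      have h2 : qf (s2 k) = q := congrArg Prod.snd (b3 k hk)
      rw [h2] at h1
      exact h1
    refine alt hH hC (u := u (s1 (s2 0))) (g := fun i => pl h m (0 + i % 2) (s1 (s2 (i / 2)))) g1 g2 (p := p) (q := q)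
      (fun i hi => ?_) (fun i hi => ?_) ?_
    · have e1 : 2 * i % 2 = 0 := by omega
      have e2 : 2 * i / 2 = i := by omega
      simp only [e1, e2]
      exact hp i hi
    · have e1 : (2 * i + 1) % 2 = 1 := by omega
      have e2 : (2 * i + 1) / 2 = i := by omega
      simp only [e1, e2]
      exact hq i hi
    · rw [← cl_sta (hp 0 (by omega)), ← cl_sta (hq 0 (by omega))]
      exact (hu _ (c2 0 (by omega))).2.2.2.1
  · -- `u` is injective
    set t : ℕ → ℕ → V := fun i k => if i < 12 then lad v e (i % 3) (pl h m (i / 3) (s1 k)) else u (s1 k) with ht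
    have tl : ∀ i < 12, ∀ k, t i k = lad v e (i % 3) (pl h m (i / 3) (s1 k)) := fun i hi k => by
      simp only [ht]
      rw [if_pos hi]
    have tu : ∀ k, t 12 k = u (s1 k) := fun k => by
      simp only [ht]
      rw [if_neg (by omega)]
    have sb : ∀ k < N1, s1 k < m := fun k hk => a2 k (by omega)
    have sne : ∀ k < N1, ∀ l < N1, k < l → s1 k < s1 l := fun k hk l hl hkl => a1 k l hkl (by omega)
    have d1 : ∀ i < 13, ∀ k < N1, ∀ l < N1, k ≠ l → t i k ≠ t i l := by
      intro i hi k hk l hl hkl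
      rcases lt_or_ge i 12 with h1 | h1
      · rw [tl i h1, tl i h1]
        refine lad_ne hC (by omega) (by omega) (pl_bd hN (sb k hk)) (pl_bd hN (sb l hl)) (Or.inr ?_)
        rcases lt_or_gt_of_ne hkl with h2 | h2
        · exact (pl_lt hh (sb k hk) (sb l hl) (Or.inr ⟨Iff.rfl, Or.inl (sne k hk l hl h2)⟩)).ne
        · exact (pl_lt hh (sb l hl) (sb k hk) (Or.inr ⟨Iff.rfl, Or.inl (sne l hl k hk h2)⟩)).ne'
      · have : i = 12 := by omega
        subst this
        rw [tu, tu]
        exact hinj k (by omega) l (by omega) hkl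
    have d2 : ∀ i < 13, ∀ j < 13, i ≠ j → ∀ k < N1, t i k ≠ t j k := by
      have key : ∀ i < 13, ∀ j < 13, i < j → ∀ k < N1, t i k ≠ t j k := by
        intro i hi j hj hij k hk
        rcases lt_or_ge j 12 with h1 | h1
        · rw [tl i (by omega), tl j h1]
          refine lad_ne hC (by omega) (by omega) (pl_bd hN (sb k hk)) (pl_bd hN (sb k hk)) ?_
          by_cases h2 : i % 3 = j % 3
          · refine Or.inr ?_
            rcases lt_or_ge (i / 3) 2 with h3 | h3 <;> rcases lt_or_ge (j / 3) 2 with h4 | h4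
            · exact (pl_lt hh (sb k hk) (sb k hk) (Or.inr ⟨by omega, Or.inr ⟨rfl, by omega⟩⟩)).ne
            · exact (pl_lt hh (sb k hk) (sb k hk) (Or.inl ⟨h3, h4⟩)).ne
            · omega
            · exact (pl_lt hh (sb k hk) (sb k hk) (Or.inr ⟨by omega, Or.inr ⟨rfl, by omega⟩⟩)).ne
          · exact Or.inl h2
        · have : j = 12 := by omega
          subst this
          rw [tl i (by omega), tu]
          exact (lad_u hC (pl_bd hN (sb k hk)) (hu _ (sb k hk)) (pl_bd hN (sb k hk)) _).symm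
      intro i hi j hj hij k hk
      rcases lt_or_gt_of_ne hij with h1 | h1
      · exact key i hi j hj h1 k hk
      · exact (key j hj i hi h1 k hk).symm
    obtain ⟨s2, F, b1, b2, hr⟩ := hhr V G t d1 d2
    have c1 : ∀ k l, k < l → l < 16 → s1 (s2 k) < s1 (s2 l) := fun k l hkl hl =>
      a1 _ _ (b1 k l hkl hl) (by have := b2 l hl; omega)
    have c2 : ∀ k < 16, s1 (s2 k) < m := fun k hk => sb _ (b2 k hk)
    -- one of the two words of a block is not constant
    have claim : ∀ r, (r = 0 ∨ r = 2) → ∃ b < 2, ¬ ∀ i < 3,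
        F (16 * 12 + (3 * (r + b) + i)) = F (16 * (3 * (r + b) + i) + 12) ∧
          F (256 + 16 * (3 * (r + b) + i) + 12) = F (16 * (3 * (r + b) + i) + 12) := by
      intro r hr'
      by_contra hcon
      push Not at hcon
      have st : ∀ b < 2, (∀ l < 4, Sta G v e (u (s1 (s2 5))) (pl h m (r + b) (s1 (s2 l)))
          (F (16 * (3 * (r + b) + 0) + 12), F (16 * (3 * (r + b) + 1) + 12), F (16 * (3 * (r + b) + 2) + 12))) ∧
          Sta G v e (u (s1 (s2 5))) (pl h m (r + b) (s1 (s2 5)))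
          (F (16 * (3 * (r + b) + 0) + 12), F (16 * (3 * (r + b) + 1) + 12),
            F (16 * (3 * (r + b) + 2) + 12)) := by
        intro b hb
        have w : ∀ i < 3, ∀ l, t (3 * (r + b) + i) (s2 l) = lad v e i (pl h m (r + b) (s1 (s2 l))) := by
          intro i hi l
          rw [tl _ (by omega), show (3 * (r + b) + i) % 3 = i from by omega,
            show (3 * (r + b) + i) / 3 = r + b from by omega]
        constructor
        · intro l hl
          have q : ∀ i < 3, (G.Adj (u (s1 (s2 5))) (lad v e i (pl h m (r + b) (s1 (s2 l)))) ↔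
              F (16 * (3 * (r + b) + i) + 12) = true) := by
            intro i hi
            have h1 := hr.rel (3 * (r + b) + i) (by omega) 12 (by omega) l 5 (by omega) (by omega)
            rw [w i hi, tu] at h1
            rw [SimpleGraph.adj_comm]
            exact h1
          exact ⟨q 0 (by omega), q 1 (by omega), q 2 (by omega)⟩
        · have q : ∀ i < 3, (G.Adj (u (s1 (s2 5))) (lad v e i (pl h m (r + b) (s1 (s2 5)))) ↔
              F (16 * (3 * (r + b) + i) + 12) = true) := by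
            intro i hi
            have h1 := hr.dg (3 * (r + b) + i) (by omega) 12 (by omega) (by omega) 5 (by omega)
            rw [w i hi, tu, (hcon b hb i hi).2] at h1
            rw [SimpleGraph.adj_comm]
            exact h1
          exact ⟨q 0 (by omega), q 1 (by omega), q 2 (by omega)⟩
      obtain ⟨g1, g2⟩ := galt r (fun k => s1 (s2 k)) hr' (fun k l hkl hl => c1 k l hkl (by omega))
        (fun k hk => c2 k (by omega))
      refine alt hH hC (g := fun i => pl h m (r + i % 2) (s1 (s2 (i / 2)))) g1 g2 (u := u (s1 (s2 5)))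
        (p := (F (16 * (3 * (r + 0) + 0) + 12), F (16 * (3 * (r + 0) + 1) + 12), F (16 * (3 * (r + 0) + 2) + 12)))
        (q := (F (16 * (3 * (r + 1) + 0) + 12), F (16 * (3 * (r + 1) + 1) + 12), F (16 * (3 * (r + 1) + 2) + 12)))
        (fun i hi => ?_) (fun i hi => ?_) ?_
      · have e1 : 2 * i % 2 = 0 := by omega
        have e2 : 2 * i / 2 = i := by omega
        simp only [e1, e2]
        exact (st 0 (by omega)).1 i hi
      · have e1 : (2 * i + 1) % 2 = 1 := by omega
        have e2 : (2 * i + 1) / 2 = i := by omega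
        simp only [e1, e2]
        exact (st 1 (by omega)).1 i hi
      · rw [← cl_sta (st 0 (by omega)).2, ← cl_sta (st 1 (by omega)).2]
        have h2 := hu _ (c2 5 (by omega))
        rcases hr' with rfl | rfl
        · exact h2.2.2.2.1
        · exact h2.2.2.2.2
    obtain ⟨b, hb, n0⟩ := claim 0 (Or.inl rfl)
    obtain ⟨b', hb', n3⟩ := claim 2 (Or.inr rfl)
    set σ : ℕ → ℕ := fun i => if i < 3 then 3 * (0 + b) + i else if i < 6 then 3 * (2 + b') + (i - 3) else 12 with hσ
    have σ0 : ∀ i < 3, σ i = 3 * (0 + b) + i := fun i hi => by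
      simp only [hσ]
      rw [if_pos hi]
    have σ3 : ∀ i < 3, σ (3 + i) = 3 * (2 + b') + i := fun i hi => by
      simp only [hσ]
      rw [if_neg (by omega), if_pos (by omega), show 3 + i - 3 = i from by omega]
    have σ6 : σ 6 = 12 := by
      simp only [hσ]
      rw [if_neg (by omega), if_neg (by omega)]
    have σσ : ∀ i < 7, (i < 3 ∧ σ i = 3 * (0 + b) + i) ∨ (3 ≤ i ∧ i < 6 ∧ σ i = 3 * (2 + b') + (i - 3)) ∨
        (i = 6 ∧ σ i = 12) := fun i hi => by
      rcases lt_or_ge i 3 with h1 | h1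
      · exact Or.inl ⟨h1, σ0 i h1⟩
      rcases lt_or_ge i 6 with h2 | h2
      · refine Or.inr (Or.inl ⟨h1, h2, ?_⟩)
        have := σ3 (i - 3) (by omega)
        rwa [show 3 + (i - 3) = i from by omega] at this
      · have : i = 6 := by omega
        subst this
        exact Or.inr (Or.inr ⟨rfl, σ6⟩)
    have hs := hr_sel hr (L' := 7) (by omega) (σ := σ) (fun i hi => by have := σσ i hi; omega)
      (fun i hi j hj hij => by have := σσ i hi; have := σσ j hj; omega)
    have w : ∀ i < 3, ∀ l, t (3 * (0 + b) + i) (s2 l) = lad v e i (pl h m (0 + b) (s1 (s2 l))) := by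
      intro i hi l
      rw [tl _ (by omega), show (3 * (0 + b) + i) % 3 = i from by omega,
        show (3 * (0 + b) + i) / 3 = 0 + b from by omega]
    have w' : ∀ i < 3, ∀ l, t (3 * (2 + b') + i) (s2 l) = lad v e i (pl h m (2 + b') (s1 (s2 l))) := by
      intro i hi l
      rw [tl _ (by omega), show (3 * (2 + b') + i) % 3 = i from by omega,
        show (3 * (2 + b') + i) / 3 = 2 + b' from by omega]
    refine tb hH hJ hC (P := fun k => pl h m (0 + b) (s1 (s2 k))) (Q := fun k => pl h m (2 + b') (s1 (s2 k))) hs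
      (fun k _ => ?_) (fun k _ => ?_) (fun k _ => ?_) (fun k _ => ?_) (fun k _ => ?_) (fun k _ => ?_)
      (fun k l hkl hl => ?_) (fun k l hkl hl => ?_) (fun k hk l hl => ?_) (fun k hk => ?_) (fun k hk => ?_)
      (fun hcon => n0 fun i hi => ?_) (fun hcon => n3 fun i hi => ?_)
    · show t (σ 0) (s2 k) = _
      rw [σ0 0 (by omega), w 0 (by omega)]
      rfl
    · show t (σ 1) (s2 k) = _
      rw [σ0 1 (by omega), w 1 (by omega)]
      rfl
    · show t (σ 2) (s2 k) = _
      rw [σ0 2 (by omega), w 2 (by omega)]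
      rfl
    · show t (σ (3 + 0)) (s2 k) = _
      rw [σ3 0 (by omega), w' 0 (by omega)]
      rfl
    · show t (σ (3 + 1)) (s2 k) = _
      rw [σ3 1 (by omega), w' 1 (by omega)]
      rfl
    · show t (σ (3 + 2)) (s2 k) = _
      rw [σ3 2 (by omega), w' 2 (by omega)]
      rfl
    · exact pl_lt hh (c2 k (by omega)) (c2 l hl) (Or.inr ⟨Iff.rfl, Or.inl (c1 k l hkl hl)⟩)
    · exact pl_lt hh (c2 k (by omega)) (c2 l hl) (Or.inr ⟨Iff.rfl, Or.inl (c1 k l hkl hl)⟩)
    · exact pl_lt hh (c2 k hk) (c2 l hl) (Or.inl ⟨by omega, by omega⟩)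
    · exact pl_bd hN (c2 k hk)
    · exact pl_bd hN (c2 k hk)
    · have h1 := hcon i hi
      rw [show 96 + 0 + i = 16 * 6 + i from by omega, sbt_lt σ F (by omega) (by omega),
        sbt_lt σ F (by omega) (by omega), sbt_ge σ F (by omega), σ6, show 0 + i = i from by omega, σ0 i hi,
        min_eq_left (by omega), max_eq_right (by omega)] at h1
      exact h1
    · have h1 := hcon i hi
      rw [show 96 + 3 + i = 16 * 6 + (3 + i) from by omega, sbt_lt σ F (by omega) (by omega),
        sbt_lt σ F (by omega) (by omega), sbt_ge σ F (by omega), σ6, σ3 i hi,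
        min_eq_left (by omega), max_eq_right (by omega)] at h1
      exact h1

/-- **Clean ladders.** -/
theorem tCln : S_Cln := by
  classical
  intro n
  obtain ⟨m, hm⟩ := yes
  obtain ⟨N, hN⟩ := ram4 (n + 4 * m)
  refine ⟨N, fun V G v e hH hJ hC => ?_⟩
  obtain ⟨h, h1, h2, h3⟩ := hN fun a b c d => ∃ u, cl G v e u a ≠ cl G v e u b ∧ cl G v e u c ≠ cl G v e u d
  rcases h3 with h3 | h3
  · exfalso
    refine hm V G N v e h hH hJ hC (fun i j hij hj => h1 i j hij (by omega)) (fun i hi => h2 i (by omega)) ?_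
    intro s hs
    have e0 : pl h m 0 s = h (2 * s) := rfl
    have e1 : pl h m 1 s = h (2 * s + 1) := rfl
    have e2 : pl h m 2 s = h (2 * s + 2 * m) := rfl
    have e3 : pl h m 3 s = h (2 * s + 1 + 2 * m) := rfl
    obtain ⟨u, hu1, hu2⟩ := h3 (2 * s) (2 * s + 1) (2 * s + 2 * m) (2 * s + 1 + 2 * m) (by omega) (by omega)
      (by omega) (by omega)
    refine ⟨u, ?_⟩
    rw [e0, e1, e2, e3]
    exact ⟨h1 _ _ (by omega) (by omega), h1 _ _ (by omega) (by omega), h1 _ _ (by omega) (by omega), hu1, hu2⟩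
  · refine ⟨h, fun i j hij hj => h1 i j hij (by omega), fun i hi => h2 i (by omega), ?_⟩
    intro u a b c d hab hbc hcd hd hne
    by_contra hcon
    exact h3 a b c d hab hbc hcd (by omega) ⟨u, hne, hcon⟩

end Pool.Agent.MPd439b2.RN.L
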