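import Pool.Agent.Lib.MP_d439b2_co.RN.LS

/-!
# MP_d439b2_co, RN/LFac: facts on single vertices and pairs next to a ladder (helper53)
-/

set_option autoImplicit false
set_option linter.style.longLine false
set_option linter.unusedVariables false

namespace Pool.Agent.MPd439b2.RN.L

open Pool.Agent.MPd439b2 Pool.Agent.MPd439b2.RN

variable {V : Type}

theorem co {α : Type} {P : α → Prop} {a : α} {l : List α} (h : P a) (h' : ∀ x ∈ l, P x) :
    ∀ x ∈ a :: l, P x := List.forall_mem_cons.2 ⟨h, h'⟩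

theorem ni {α : Type} {P : α → Prop} : ∀ x ∈ ([] : List α), P x := by
  intro x h
  cases h

section

variable {G : SimpleGraph V} {n : ℕ} {v : ℕ → V} {e : Bool → ℕ → V}

theorem ns {a b : V} (h : ¬ G.Adj a b) : ¬ G.Adj b a := fun h' => h h'.symm

/-- a vertex which misses `v i`, `v j` and a vertex which sees them are not adjacent -/
theorem fA (hG : H1T.FH G) (hC : CH.Ch G n v e) {i j k : ℕ} (hij : i < j) (hjk : j < k) (hk : k < n)
    {z y : V} {s t : Bool} (h1 : ¬ G.Adj (v i) z) (h2 : ¬ G.Adj (v j) z) (h3 : G.Adj (v i) y)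
    (h4 : G.Adj (v j) y) (h5 : ¬ G.Adj (e s j) z) (h6 : ¬ G.Adj (e s j) y) (h7 : ¬ G.Adj (e t k) z)
    (h8 : ¬ G.Adj (e t k) y) : ¬ G.Adj z y := by
  intro hzy
  have hi : i < n := by omega
  have hj : j < n := by omega
  have vv : ∀ {p q : ℕ}, p < n → q < n → p ≠ q → G.Adj (v p) (v q) := fun hp hq h =>
    hC.vv _ hp _ hq h
  have ve : ∀ {p q : ℕ} (r : Bool), p < n → q < n → p < q → G.Adj (v p) (e r q) := fun r hp hq h =>
    (hC.ve _ hp _ hq r).2 h
  have nve : ∀ {p q : ℕ} (r : Bool), p < n → q < n → q ≤ p → ¬ G.Adj (v p) (e r q) :=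
    fun r hp hq h h' => absurd ((hC.ve _ hp _ hq r).1 h') (by omega)
  have nee : ∀ {p q : ℕ} (r r' : Bool), p < n → q < n → p ≠ q → ¬ G.Adj (e r p) (e r' q) :=
    fun r r' hp hq h h' => h ((hC.ee _ hp _ hq r r').1 h').1
  refine H1R.engV hG (fun p => [v i, y, v j, e s j, z, e t k].getD p (v i))
    [[0], [1], [2], [3], [4], [5]] [(1, 0), (2, 0), (2, 1), (3, 0), (4, 1), (5, 0), (5, 2)] [(3, 1), (3, 2), (4, 0), (4, 2), (4, 3), (5, 1), (5, 3), (5, 4)] [] ?_ ?_ ni (by decide)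
  · exact (co (SimpleGraph.Adj.symm h3) (co (vv hj hi (by omega)) (co h4 (co (SimpleGraph.Adj.symm (ve s hi hj (by omega))) (co hzy (co (SimpleGraph.Adj.symm (ve t hi hk (by omega))) (co (SimpleGraph.Adj.symm (ve t hj hk (by omega))) ni)))))))
  · exact (co h6 (co (ns (nve s hj hj (by omega))) (co (ns h1) (co (ns h2) (co (ns h5) (co h8 (co (nee t s hk hj (by omega)) (co h7 ni))))))))

/-- `b` touches the letter `i` on the left of `z` and sees a vertex of the letter `k` but not `v k` -/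
theorem fM4 (hG : H1T.FH G) (hC : CH.Ch G n v e) {i j k : ℕ} (hij : i < j) (hjk : j < k) (hk : k < n)
    {z b : V} {s t : Bool} (h1 : G.Adj (v i) z) (h2 : ¬ G.Adj (v j) z) (h3 : ¬ G.Adj (v k) z)
    (h4 : ¬ G.Adj (e s i) z) (h5 : ∀ r, ¬ G.Adj (e r k) z) (b1 : G.Adj (e s i) b)
    (b2 : G.Adj (e t k) b) (b3 : ¬ G.Adj (v k) b) : G.Adj b z := by
  by_contra hzb
  have hi : i < n := by omega
  have hj : j < n := by omega
  have vv : ∀ {p q : ℕ}, p < n → q < n → p ≠ q → G.Adj (v p) (v q) := fun hp hq h =>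
    hC.vv _ hp _ hq h
  have ve : ∀ {p q : ℕ} (r : Bool), p < n → q < n → p < q → G.Adj (v p) (e r q) := fun r hp hq h =>
    (hC.ve _ hp _ hq r).2 h
  have nve : ∀ {p q : ℕ} (r : Bool), p < n → q < n → q ≤ p → ¬ G.Adj (v p) (e r q) :=
    fun r hp hq h h' => absurd ((hC.ve _ hp _ hq r).1 h') (by omega)
  have nee : ∀ {p q : ℕ} (r r' : Bool), p < n → q < n → p ≠ q → ¬ G.Adj (e r p) (e r' q) :=
    fun r r' hp hq h h' => h ((hC.ee _ hp _ hq r r').1 h').1
  refine H1R.engV hG (fun p => [v i, e t k, b, e (!t) k, v j, z, e s i, v k].getD p (v i))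
    [[0], [1, 2], [3, 4], [5], [6], [7]] [(1, 2), (3, 4), (1, 0), (3, 0), (3, 1), (5, 0), (6, 2), (7, 0), (7, 4)] [(5, 1), (5, 2), (5, 3), (5, 4), (6, 0), (6, 3), (6, 4), (6, 5), (7, 1), (7, 2), (7, 5), (7, 6)] [] ?_ ?_ ni (by decide)
  · exact (co b2 (co (SimpleGraph.Adj.symm (ve (!t) hj hk (by omega))) (co (SimpleGraph.Adj.symm (ve t hi hk (by omega))) (co (SimpleGraph.Adj.symm (ve (!t) hi hk (by omega))) (co (SimpleGraph.Adj.symm (hC.adj_e hk t)) (co (SimpleGraph.Adj.symm h1) (co b1 (co (vv hk hi (by omega)) (co (vv hk hj (by omega)) ni)))))))))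
  · exact (co (ns (h5 t)) (co (ns hzb) (co (ns (h5 (!t))) (co (ns h2) (co (ns (nve s hi hi (by omega))) (co (nee s (!t) hi hk (by omega)) (co (ns (nve s hj hi (by omega))) (co h4 (co (nve t hk hk (by omega)) (co b3 (co h3 (co (nve s hk hi (by omega)) ni))))))))))))

/-- `b` touches the letter `i` on the left of `z`, the letter `j`, sees `v j` and misses a vertex of the letter `k` -/
theorem fM5 (hG : H1T.FH G) (hC : CH.Ch G n v e) {i j k : ℕ} (hij : i < j) (hjk : j < k) (hk : k < n)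
    {z b : V} {s t r : Bool} (h1 : G.Adj (v i) z) (h2 : ¬ G.Adj (v j) z) (h3 : ¬ G.Adj (e s i) z)
    (h4 : ¬ G.Adj (e t j) z) (h5 : ∀ r, ¬ G.Adj (e r k) z) (b1 : G.Adj (e s i) b)
    (b2 : G.Adj (e t j) b) (b3 : G.Adj (v j) b) (b4 : ¬ G.Adj (e r k) b) : G.Adj b z := by
  by_contra hzb
  have hi : i < n := by omega
  have hj : j < n := by omega
  have vv : ∀ {p q : ℕ}, p < n → q < n → p ≠ q → G.Adj (v p) (v q) := fun hp hq h =>
    hC.vv _ hp _ hq h
  have ve : ∀ {p q : ℕ} (r : Bool), p < n → q < n → p < q → G.Adj (v p) (e r q) := fun r hp hq h =>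
    (hC.ve _ hp _ hq r).2 h
  have nve : ∀ {p q : ℕ} (r : Bool), p < n → q < n → q ≤ p → ¬ G.Adj (v p) (e r q) :=
    fun r hp hq h h' => absurd ((hC.ve _ hp _ hq r).1 h') (by omega)
  have nee : ∀ {p q : ℕ} (r r' : Bool), p < n → q < n → p ≠ q → ¬ G.Adj (e r p) (e r' q) :=
    fun r r' hp hq h h' => h ((hC.ee _ hp _ hq r r').1 h').1
  refine H1R.engV hG (fun p => [e (!r) k, v i, e t j, b, v j, z, e s i, e r k].getD p (v i))
    [[0, 1], [2, 3], [4], [5], [6], [7]] [(0, 1), (2, 3), (2, 1), (4, 0), (4, 3), (5, 1), (6, 3), (7, 0), (7, 4)] [(5, 2), (5, 3), (5, 4), (6, 0), (6, 1), (6, 4), (6, 5), (7, 2), (7, 3), (7, 5), (7, 6)] [] ?_ ?_ ni (by decide)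
  · exact (co (SimpleGraph.Adj.symm (ve (!r) hi hk (by omega))) (co b2 (co (SimpleGraph.Adj.symm (ve t hi hj (by omega))) (co (ve (!r) hj hk (by omega)) (co b3 (co (SimpleGraph.Adj.symm h1) (co b1 (co (hC.adj_e hk r) (co (SimpleGraph.Adj.symm (ve r hj hk (by omega))) ni)))))))))
  · exact (co (ns h4) (co (ns hzb) (co (ns h2) (co (nee s (!r) hi hk (by omega)) (co (ns (nve s hi hi (by omega))) (co (ns (nve s hj hi (by omega))) (co h3 (co (nee r t hk hj (by omega)) (co b4 (co (h5 r) (co (nee r s hk hi (by omega)) ni)))))))))))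

/-- `b` touches the letters `i` and `k` and sees `v j`; it does not miss `z` (between `i` and `j`) and `y` (between
`j` and `k`) -/
theorem fG (hG : H1T.FH G) (hC : CH.Ch G n v e) {i j k : ℕ} (hij : i < j) (hjk : j < k) (hk : k < n)
    {z y b : V} {s t : Bool} (h1 : G.Adj (v i) z) (h2 : ¬ G.Adj (v j) z) (h3 : ¬ G.Adj (e s i) z)
    (h4 : ¬ G.Adj (e t k) z) (y1 : G.Adj (v i) y) (y2 : G.Adj (v j) y) (y3 : ¬ G.Adj (e s i) y)
    (y4 : ¬ G.Adj (e t k) y) (hzy : ¬ G.Adj z y) (b1 : G.Adj (e s i) b) (b2 : G.Adj (v j) b)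
    (b3 : G.Adj (e t k) b) (bz : ¬ G.Adj b z) (bY : ¬ G.Adj b y) : False := by
  have hi : i < n := by omega
  have hj : j < n := by omega
  have vv : ∀ {p q : ℕ}, p < n → q < n → p ≠ q → G.Adj (v p) (v q) := fun hp hq h =>
    hC.vv _ hp _ hq h
  have ve : ∀ {p q : ℕ} (r : Bool), p < n → q < n → p < q → G.Adj (v p) (e r q) := fun r hp hq h =>
    (hC.ve _ hp _ hq r).2 h
  have nve : ∀ {p q : ℕ} (r : Bool), p < n → q < n → q ≤ p → ¬ G.Adj (v p) (e r q) :=
    fun r hp hq h h' => absurd ((hC.ve _ hp _ hq r).1 h') (by omega)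
  have nee : ∀ {p q : ℕ} (r r' : Bool), p < n → q < n → p ≠ q → ¬ G.Adj (e r p) (e r' q) :=
    fun r r' hp hq h h' => h ((hC.ee _ hp _ hq r r').1 h').1
  refine H1R.engV hG (fun p => [v i, e t k, b, v j, z, e s i, y].getD p (v i))
    [[0], [1, 2], [3], [4], [5], [6]] [(1, 2), (1, 0), (3, 0), (3, 1), (4, 0), (5, 2), (6, 0), (6, 3)] [(4, 1), (4, 2), (4, 3), (5, 0), (5, 3), (5, 4), (6, 1), (6, 2), (6, 4), (6, 5)] [] ?_ ?_ ni (by decide)
  · exact (co b3 (co (SimpleGraph.Adj.symm (ve t hi hk (by omega))) (co (vv hj hi (by omega)) (co (ve t hj hk (by omega)) (co (SimpleGraph.Adj.symm h1) (co b1 (co (SimpleGraph.Adj.symm y1) (co (SimpleGraph.Adj.symm y2) ni))))))))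
  · exact (co (ns h4) (co (ns bz) (co (ns h2) (co (ns (nve s hi hi (by omega))) (co (ns (nve s hj hi (by omega))) (co h3 (co (ns y4) (co (ns bY) (co (ns hzy) (co (ns y3) ni))))))))))

end

end Pool.Agent.MPd439b2.RN.L
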