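import Pool.Agent.Lib.MP_d439b2_co.RN.MxT
import Pool.Agent.Lib.MP_d439b2_co.W.RamC

/-!
# MP_d439b2_co, RN/MxR: Ramsey part and basic facts on cell systems for Block 2 (helper90)
-/

set_option autoImplicit false

namespace Pool.Agent.MPd439b2.RN

open Pool.Agent.MPd439b2 Pool.Agent.MPd439b2.Rep Pool.Agent.MPd439b2.FT

variable {V : Type} {G : SimpleGraph V}

/-- **Ramsey for rails**: rails which are injective and different on every index become homogeneous -/
theorem hr_exists (L M : ℕ) (hL : L ≤ 16) : ∃ N : ℕ, ∀ (V : Type) (G : SimpleGraph V) (t : ℕ → ℕ → V),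
    (∀ i < L, ∀ k < N, ∀ l < N, k ≠ l → t i k ≠ t i l) →
    (∀ i < L, ∀ j < L, i ≠ j → ∀ k < N, t i k ≠ t j k) →
    ∃ (s : ℕ → ℕ) (F : ℕ → Bool), (∀ k l, k < l → l < M → s k < s l) ∧ (∀ k < M, s k < N) ∧
      HR G L M (fun i k => t i (s k)) F := by
  classical
  obtain ⟨N, hN⟩ := W.ramC ((Fin 16 → Fin 16 → Bool) × (Fin 16 → Fin 16 → Bool) × (Fin 16 → Fin 16 → Bool) ×
    (Fin 16 → Fin 16 → Bool)) (M + 3)
  refine ⟨N, fun V G t hinj hne => ?_⟩
  obtain ⟨s, c, h1, h2, h3⟩ := hN fun k l =>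
    (fun i j => decide (G.Adj (t i k) (t j l)), fun i j => decide (G.Adj (t i k) (t j k)),
      fun i j => decide (t i k = t j l), fun i j => decide (t j k = t i l))
  have key : ∀ i < 16, ∀ j < 16, ∀ k l, k < l → l < M + 3 →
      ((G.Adj (t i (s k)) (t j (s l)) ↔ c.1 (Fin.ofNat 16 i) (Fin.ofNat 16 j) = true) ∧
      (G.Adj (t i (s k)) (t j (s k)) ↔ c.2.1 (Fin.ofNat 16 i) (Fin.ofNat 16 j) = true) ∧
      (t i (s k) = t j (s l) ↔ c.2.2.1 (Fin.ofNat 16 i) (Fin.ofNat 16 j) = true) ∧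
      (t j (s k) = t i (s l) ↔ c.2.2.2 (Fin.ofNat 16 i) (Fin.ofNat 16 j) = true)) := by
    intro i hi j hj k l hkl hl
    have h4 := h3 k l hkl hl
    have ei : ((Fin.ofNat 16 i : Fin 16) : ℕ) = i := Nat.mod_eq_of_lt hi
    have ej : ((Fin.ofNat 16 j : Fin 16) : ℕ) = j := Nat.mod_eq_of_lt hj
    rw [← h4]
    simp only [ei, ej, decide_eq_true_eq, iff_self, and_self]
  have ofN : ∀ i < 16, (Fin.ofNat 16 i : Fin 16) = Fin.ofNat 16 i := fun _ _ => rfl
  refine ⟨s, fun b => if b < 256 then c.1 (Fin.ofNat 16 (b / 16)) (Fin.ofNat 16 (b % 16)) else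
    c.2.1 (Fin.ofNat 16 ((b - 256) / 16)) (Fin.ofNat 16 ((b - 256) % 16)), ?_, ?_, ?_, ?_, ?_⟩
  · exact fun k l hkl hl => h1 k l hkl (by omega)
  · exact fun k hk => h2 k (by omega)
  · -- distinct
    have aux : ∀ i < L, ∀ j < L, i ≠ j → ∀ k l, k < l → l < M → t i (s k) ≠ t j (s l) := by
      intro i hi j hj hij k l hkl hl heq
      have hc := ((key i (by omega) j (by omega) k l hkl (by omega)).2.2.1).1 heq
      have e1 := ((key i (by omega) j (by omega) 0 M (by omega) (by omega)).2.2.1).2 hc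
      have e2 := ((key i (by omega) j (by omega) 0 (M + 1) (by omega) (by omega)).2.2.1).2 hc
      refine hinj j hj (s M) (h2 _ (by omega)) (s (M + 1)) (h2 _ (by omega)) ?_ (e1.symm.trans e2)
      exact (h1 M (M + 1) (by omega) (by omega)).ne
    intro i hi j hj k hk l hl hkl
    rcases lt_trichotomy k l with h | h | h
    · by_cases hij : i = j
      · subst hij
        exact hinj i hi _ (h2 _ (by omega)) _ (h2 _ (by omega)) (h1 k l h (by omega)).ne
      · exact aux i hi j hj hij k l h hl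
    · subst h
      rcases hkl with h' | h'
      · exact hne i hi j hj h' _ (h2 _ (by omega))
      · exact absurd rfl h'
    · by_cases hij : i = j
      · subst hij
        exact hinj i hi _ (h2 _ (by omega)) _ (h2 _ (by omega)) (h1 l k h (by omega)).ne'
      · exact (aux j hj i hi (Ne.symm hij) l k h hk).symm
  · intro i hi j hj k l hkl hl
    have h4 := (key i (by omega) j (by omega) k l hkl (by omega)).1
    rw [h4, if_pos (by omega : 16 * i + j < 256), show (16 * i + j) / 16 = i from by omega,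
      show (16 * i + j) % 16 = j from by omega]
  · intro i hi j hj hij k hk
    have h4 := (key i (by omega) j (by omega) k (M + 1) (by omega) (by omega)).2.1
    rw [h4, if_neg (by omega : ¬ 256 + 16 * i + j < 256), show (256 + 16 * i + j - 256) / 16 = i from by omega,
      show (256 + 16 * i + j - 256) % 16 = j from by omega]

/-- a sequence is constant or injective on a long subsequence -/
theorem const_or_inj (M : ℕ) : ∃ N : ℕ, ∀ (V : Type) (z : ℕ → V), ∃ s : ℕ → ℕ,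
    (∀ k l, k < l → l < M → s k < s l) ∧ (∀ k < M, s k < N) ∧
      ((∀ k < M, ∀ l < M, z (s k) = z (s l)) ∨ ∀ k < M, ∀ l < M, k ≠ l → z (s k) ≠ z (s l)) := by
  classical
  obtain ⟨N, hN⟩ := W.ramC Bool M
  refine ⟨N, fun V z => ?_⟩
  obtain ⟨s, c, h1, h2, h3⟩ := hN fun k l => decide (z k = z l)
  refine ⟨s, h1, h2, ?_⟩
  rcases c with _ | _
  · right
    intro k hk l hl hkl heq
    rcases lt_or_gt_of_ne hkl with h | h
    · have := h3 k l h hl
      rw [decide_eq_false_iff_not] at this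
      exact this heq
    · have := h3 l k h hk
      rw [decide_eq_false_iff_not] at this
      exact this heq.symm
  · left
    intro k hk l hl
    rcases lt_trichotomy k l with h | h | h
    · exact of_decide_eq_true (h3 k l h hl)
    · rw [h]
    · exact (of_decide_eq_true (h3 l k h hk)).symm

/-- pigeonhole: a long subsequence with a constant colour -/
theorem pig (κ : Type) [Finite κ] (M : ℕ) : ∃ N : ℕ, ∀ χ : ℕ → κ, ∃ (s : ℕ → ℕ) (c : κ),
    (∀ k l, k < l → l < M → s k < s l) ∧ (∀ k < M, s k < N) ∧ ∀ k < M, χ (s k) = c := by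
  obtain ⟨N, hN⟩ := W.ramC κ (M + 1)
  refine ⟨N, fun χ => ?_⟩
  obtain ⟨s, c, h1, h2, h3⟩ := hN fun k _ => χ k
  exact ⟨s, c, fun k l hkl hl => h1 k l hkl (by omega), fun k hk => h2 k (by omega),
    fun k hk => h3 k (k + 1) (by omega) (by omega)⟩

/-- an increasing map is at least the identity -/
theorem mono_lt {M : ℕ} {s : ℕ → ℕ} (h : ∀ k l, k < l → l < M → s k < s l) {k l : ℕ} (hk : k < M) (hl : l < M) :
    s k < s l ↔ k < l := by
  constructor
  · intro h1
    by_contra h2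
    rcases lt_or_eq_of_le (not_lt.1 h2) with h3 | h3
    · exact absurd (h l k h3 hk) (by omega)
    · rw [h3] at h1
      omega
  · exact fun h1 => h k l h1 hl

/-! ### cell systems -/

/-- the right side and the left side of a mixer -/
def Kd (G : SimpleGraph V) (n : ℕ) (K : ℕ → Set V) (k : ℕ) (w : V) (r l : Bool) : Prop :=
  (∀ j < n, k < j → (r = true → CoK G w (K j)) ∧ (r = false → AnK G w (K j))) ∧
    ∀ j < k, (l = true → CoK G w (K j)) ∧ (l = false → AnK G w (K j))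

namespace CS

variable {n : ℕ} {v : ℕ → V} {K : ℕ → Set V}

theorem ne (h : CS G n v K) {k : ℕ} (hk : k < n) : (K k).Nonempty := (h.con k hk).1

theorem comp (h : CS G n v K) {N : ℕ} {s : ℕ → ℕ} (hs : ∀ k l, k < l → l < N → s k < s l)
    (hn : ∀ k < N, s k < n) : CS G N (fun k => v (s k)) (fun k => K (s k)) where
  vv i hi j hj hij := h.vv _ (hn i hi) _ (hn j hj) fun h' => by
    rcases lt_or_gt_of_ne hij with h1 | h1
    · exact absurd (hs i j h1 hj) (by omega)
    · exact absurd (hs j i h1 hi) (by omega)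
  con k hk := h.con _ (hn k hk)
  dis k hk l hl hkl := h.dis _ (hn k hk) _ (hn l hl) fun h' => by
    rcases lt_or_gt_of_ne hkl with h1 | h1
    · exact absurd (hs k l h1 hl) (by omega)
    · exact absurd (hs l k h1 hk) (by omega)
  vK i hi k hk := h.vK _ (hn i hi) _ (hn k hk)
  lo i hi k hk hik := h.lo _ (hn i hi) _ (hn k hk) (hs i k hik hk)
  hi i hi k hk hki := h.hi _ (hn i hi) _ (hn k hk) (by
    rcases lt_or_eq_of_le hki with h1 | h1
    · exact (hs k i h1 hi).le
    · rw [h1])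
  big k hk b hb hb' := by
    rcases h.big _ (hn k hk) b hb hb' with h1 | h1
    · exact Or.inl fun l hl hkl => h1 _ (hn l hl) (hs k l hkl hl)
    · exact Or.inr fun l hl => h1 _ (hs l k hl hk)
  mix k hk b hb := by
    obtain ⟨h1, h2⟩ := h.mix _ (hn k hk) b hb
    exact ⟨h1.imp (fun h3 l hl hkl => h3 _ (hn l hl) (hs k l hkl hl))
      (fun h3 l hl hkl => h3 _ (hn l hl) (hs k l hkl hl)),
      h2.imp (fun h3 l hl => h3 _ (hs l k hl hk)) (fun h3 l hl => h3 _ (hs l k hl hk))⟩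

/-- a mixer of `K k` is not in another cell -/
theorem mx_nK (h : CS G n v K) {k l : ℕ} (hk : k < n) (hl : l < n) {b : V} (hb : b ∈ Mx G (K k)) : b ∉ K l := by
  by_cases hkl : k = l
  · rw [← hkl]
    exact hb.1
  · intro hbl
    exact hb.2.2 fun x hx => (h.dis l hl k hk (Ne.symm hkl)).2 b hbl x hx

/-- a mixer of `K k` is not a mixer of another cell -/
theorem mx_mx (h : CS G n v K) {k l : ℕ} (hk : k < n) (hl : l < n) (hkl : k ≠ l) {b : V}
    (hb : b ∈ Mx G (K k)) : b ∉ Mx G (K l) := by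
  intro hb'
  obtain ⟨h1, h2⟩ := h.mix k hk b hb
  rcases lt_or_gt_of_ne hkl with h3 | h3
  · rcases h1 with h1 | h1
    · exact hb'.2.1 (h1 l hl h3)
    · exact hb'.2.2 (h1 l hl h3)
  · rcases h2 with h2 | h2
    · exact hb'.2.1 (h2 l h3)
    · exact hb'.2.2 (h2 l h3)

/-- `v i` is not a mixer -/
theorem v_mx (h : CS G n v K) {i k : ℕ} (hi : i < n) (hk : k < n) : v i ∉ Mx G (K k) := by
  intro hb
  rcases lt_or_ge i k with h1 | h1
  · exact hb.2.1 (h.lo i hi k hk h1)
  · exact hb.2.2 (h.hi i hi k hk h1)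

/-- the kind of a mixer -/
theorem kd (h : CS G n v K) {k : ℕ} (hk : k < n) {b : V} (hb : b ∈ Mx G (K k)) :
    ∃ r l : Bool, Kd G n K k b r l := by
  obtain ⟨h1, h2⟩ := h.mix k hk b hb
  rcases h1 with h1 | h1 <;> rcases h2 with h2 | h2
  · exact ⟨true, true, fun j hj hkj => ⟨fun _ => h1 j hj hkj, by simp⟩, fun j hj => ⟨fun _ => h2 j hj, by simp⟩⟩
  · exact ⟨true, false, fun j hj hkj => ⟨fun _ => h1 j hj hkj, by simp⟩, fun j hj => ⟨by simp, fun _ => h2 j hj⟩⟩
  · exact ⟨false, true, fun j hj hkj => ⟨by simp, fun _ => h1 j hj hkj⟩, fun j hj => ⟨fun _ => h2 j hj, by simp⟩⟩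
  · exact ⟨false, false, fun j hj hkj => ⟨by simp, fun _ => h1 j hj hkj⟩, fun j hj => ⟨by simp, fun _ => h2 j hj⟩⟩

/-- a vertex which sees a part of two cells on the right is not mixed on them -/
theorem no_mix2 (h : CS G n v K) {k l : ℕ} (hk : k < n) (hl : l < n) (hkl : k ≠ l) {b x y x' y' : V}
    (hx : x ∈ K k) (hy : y ∈ K k) (hx' : x' ∈ K l) (hy' : y' ∈ K l) (h1 : G.Adj b x) (h2 : ¬ G.Adj b y)
    (h3 : G.Adj b x') (h4 : ¬ G.Adj b y') : False := by
  have hbk : b ∉ K k := fun hb => (h.dis k hk l hl hkl).2 b hb x' hx' h3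
  have hbl : b ∉ K l := fun hb => (h.dis l hl k hk (Ne.symm hkl)).2 b hb x hx h1
  exact h.mx_mx hk hl hkl ⟨hbk, fun h5 => h2 (h5 y hy), fun h5 => h5 x hx h1⟩
    ⟨hbl, fun h5 => h4 (h5 y' hy'), fun h5 => h5 x' hx' h3⟩

end CS

theorem Kd.comp {n N k : ℕ} {K : ℕ → Set V} {w : V} {r l : Bool} {s : ℕ → ℕ}
    (hs : ∀ k l, k < l → l < N → s k < s l) (hn : ∀ k < N, s k < n) (hk : k < N)
    (h : Kd G n K (s k) w r l) : Kd G N (fun j => K (s j)) k w r l :=
  ⟨fun j hj hkj => h.1 _ (hn j hj) (hs k j hkj hj), fun j hj => h.2 _ (hs j k hj hk)⟩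

/-- an edge of `K` on which `w` is mixed -/
theorem edge {K : Set V} (hK : Conn G K) {w : V} (hw : w ∈ Mx G K) :
    ∃ x ∈ K, ∃ y ∈ K, G.Adj x y ∧ G.Adj w x ∧ ¬ G.Adj w y := by
  obtain ⟨hwK, h1, h2⟩ := hw
  unfold CoK at h1
  unfold AnK at h2
  push Not at h1 h2
  obtain ⟨y, hy, hwy⟩ := h1
  obtain ⟨x, hx, hwx⟩ := h2
  obtain ⟨a, ha, b, hb, hab⟩ := hK.2 {u | u ∈ K ∧ G.Adj w u} (fun u hu => hu.1) ⟨x, hx, hwx⟩
    (fun h' => hwy (by
      have : y ∈ {u | u ∈ K ∧ G.Adj w u} := by rw [h']; exact hy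
      exact this.2))
  exact ⟨a, ha.1, b, hb.1, hab, ha.2, fun h' => hb.2 ⟨hb.1, h'⟩⟩

end Pool.Agent.MPd439b2.RN
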