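import Pool.Agent.Lib.MP_d439b2_co.RN.LS
import Pool.Agent.Lib.MP_d439b2_co.RN.TG
import Pool.Agent.Lib.MP_d439b2_co.RN.MxR
import Pool.Agent.Lib.MP_d439b2_co.RN.LFac
import Pool.Agent.Lib.MP_d439b2_co.FT.F2w
import Pool.Agent.Lib.MP_577a3c26_an.Ramsey

/-!
# MP_d439b2_co, RN/LGam: vertices of type (1, 2) and far cells (helper38; proof of helper53)
-/

set_option autoImplicit false
set_option linter.style.longLine false

namespace Pool.Agent.MPd439b2.RN.L

open Pool.Agent.MPd439b2 Pool.Agent.MPd439b2.RN

variable {V : Type} {G : SimpleGraph V} {n M : ℕ} {v : ℕ → V} {e : Bool → ℕ → V} {p r q a : ℕ → ℕ} {b z : ℕ → V}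
  {K : ℕ → Set V}

/-- the data of the bad triples -/
private structure Dat (G : SimpleGraph V) (n M : ℕ) (v : ℕ → V) (e : Bool → ℕ → V) (p r q a : ℕ → ℕ) (b z : ℕ → V)
    (K : ℕ → Set V) : Prop where
  hC : CH.Ch G n v e
  pr : ∀ s < M, p s + 2 < r s
  pa : ∀ s < M, p s ≤ a s ∧ a s < r s
  rp : ∀ s t, s < t → t < M → r s < p t
  rq : ∀ s < M, ∀ t < M, r s + 5 ≤ q t
  qq : ∀ s t, s < t → t < M → q s + 20 ≤ q t
  qn : ∀ s < M, q s + 6 ≤ n
  wb : ∀ s < M, Wt G n v e (b s) (a s) 1 2
  cz : ∀ s < M, Cel G n v e (q s) (K s)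
  zK : ∀ s < M, z s ∈ K s
  bz : ∀ s < M, ¬ G.Adj (b s) (z s)

private theorem Dat.VV (D : Dat G n M v e p r q a b z K) {x y : ℕ} (hx : x < n) (hy : y < n) (h : x ≠ y) :
    G.Adj (v x) (v y) := D.hC.vv x hx y hy h

private theorem Dat.VE (D : Dat G n M v e p r q a b z K) {x y : ℕ} (hy : y < n) (h : x < y) (s : Bool) :
    G.Adj (v x) (e s y) := (D.hC.ve x (h.trans hy) y hy s).2 h

private theorem Dat.NVE (D : Dat G n M v e p r q a b z K) {x y : ℕ} (hx : x < n) (h : y ≤ x) (s : Bool) :
    ¬ G.Adj (v x) (e s y) := fun h' => absurd ((D.hC.ve x hx y (h.trans_lt hx) s).1 h') (by omega)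

private theorem Dat.NEE (D : Dat G n M v e p r q a b z K) {x y : ℕ} (hx : x < n) (hy : y < n) (h : x ≠ y)
    (s t : Bool) : ¬ G.Adj (e s x) (e t y) := fun h' => h ((D.hC.ee x hx y hy s t).1 h').1

private theorem Dat.EE (D : Dat G n M v e p r q a b z K) {x : ℕ} (hx : x < n) : G.Adj (e false x) (e true x) :=
  (D.hC.ee x hx x hx false true).2 ⟨rfl, by decide⟩

private theorem Dat.EN (D : Dat G n M v e p r q a b z K) {x : ℕ} (hx : x < n) (s : Bool) : G.Adj (e s x) (e (!s) x) :=
  (D.hC.ee x hx x hx s (!s)).2 ⟨rfl, by cases s <;> decide⟩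

private theorem Dat.U1 (D : Dat G n M v e p r q a b z K) {s i : ℕ} (hs : s < M) (hi : i < n) (h : i < a s) :
    G.Adj (v i) (b s) ∧ ∀ t, ¬ G.Adj (e t i) (b s) := cl_one.1 ((D.wb s hs i hi).1 h)

private theorem Dat.U2 (D : Dat G n M v e p r q a b z K) {s i : ℕ} (hs : s < M) (hi : i < n) (h : a s < i) (t : Bool) :
    G.Adj (e t i) (b s) := cl_two.1 ((D.wb s hs i hi).2 h) t

private theorem Dat.Z1 (D : Dat G n M v e p r q a b z K) {s i : ℕ} (hs : s < M) (h : i + 5 ≤ q s) :
    G.Adj (v i) (z s) ∧ ∀ t, ¬ G.Adj (e t i) (z s) := cl_one.1 ((D.cz s hs).lo _ (D.zK s hs) i h)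

private theorem Dat.Z0 (D : Dat G n M v e p r q a b z K) {s i : ℕ} (hs : s < M) (hi : i < n) (h : q s + 5 ≤ i) :
    ¬ G.Adj (v i) (z s) ∧ ∀ t, ¬ G.Adj (e t i) (z s) := cl_zero.1 ((D.cz s hs).hi _ (D.zK s hs) i hi h)

private theorem Dat.ZN (D : Dat G n M v e p r q a b z K) {s i : ℕ} (hs : s < M) (hi : i < n)
    (h : i + 5 ≤ q s ∨ q s + 5 ≤ i) (t : Bool) : ¬ G.Adj (e t i) (z s) := by
  rcases h with h | h
  · exact (D.Z1 hs h).2 t
  · exact (D.Z0 hs hi h).2 t

private theorem Dat.ZZ (D : Dat G n M v e p r q a b z K) {s t : ℕ} (hst : s < t) (ht : t < M) :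
    ¬ G.Adj (z s) (z t) := by
  have h1 := D.qq s t hst ht
  have h2 := D.qn t ht
  refine fun h => (D.cz s (hst.trans ht)).out (z t) ((D.cz t ht).sub (D.zK t ht)) (fun h' => ?_) (z s)
    (D.zK s (hst.trans ht)) h.symm
  have h3 := cl_zero.1 ((D.cz s (hst.trans ht)).hi _ h' (q s + 5) (by omega) le_rfl)
  exact h3.1 (D.Z1 ht (by omega)).1

private theorem Dat.UZ (D : Dat G n M v e p r q a b z K) {s : ℕ} (hs : s < M) : ¬ G.Adj (b s) (z s) := D.bz s hs

/-- the rails -/
private def rls (v : ℕ → V) (e : Bool → ℕ → V) (p q : ℕ → ℕ) (b z : ℕ → V) : ℕ → ℕ → V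
  | 0, s => v (p s)
  | 1, s => e false (p s)
  | 2, s => e true (p s)
  | 3, s => v (q s)
  | 4, s => e false (q s)
  | 5, s => e true (q s)
  | 6, s => b s
  | _, s => z s

private theorem nea {x y w : V} (h : G.Adj x w) (h' : ¬ G.Adj y w) : x ≠ y := fun h1 => h' (h1 ▸ h)

/-- injectivity -/
private theorem Dat.inj (D : Dat G n M v e p r q a b z K) : ∀ i < 8, ∀ k l, k < l → l < M →
    rls v e p q b z i k ≠ rls v e p q b z i l := by
  intro i hi k l hkl hl
  have hk := hkl.trans hl
  have a1 := D.pr k hk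
  have a2 := D.pr l hl
  have a3 := D.pa k hk
  have a4 := D.pa l hl
  have a5 := D.rp k l hkl hl
  have a6 := D.rq k hk k hk
  have a7 := D.rq k hk l hl
  have a8 := D.rq l hl k hk
  have a9 := D.qq k l hkl hl
  have b1 := D.qn k hk
  have b2 := D.qn l hl
  have b3 := D.rq l hl l hl
  interval_cases i
  · exact (D.VV (by omega) (by omega) (by omega)).ne
  · exact (nea (w := v (p k)) (D.VE (by omega) (by omega) false).symm
      fun h => D.NVE (by omega) le_rfl _ h.symm).symm
  · exact (nea (w := v (p k)) (D.VE (by omega) (by omega) true).symm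
      fun h => D.NVE (by omega) le_rfl _ h.symm).symm
  · exact (D.VV (by omega) (by omega) (by omega)).ne
  · exact (nea (w := v (q k)) (D.VE (by omega) (by omega) false).symm
      fun h => D.NVE (by omega) le_rfl _ h.symm).symm
  · exact (nea (w := v (q k)) (D.VE (by omega) (by omega) true).symm
      fun h => D.NVE (by omega) le_rfl _ h.symm).symm
  · exact nea (w := e true (r k)) (D.U2 hk (by omega) (by omega) true).symm
      fun h => (D.U1 hl (by omega) (by omega)).2 true h.symm
  · exact (nea (w := v (q k + 5)) (D.Z1 hl (by omega)).1.symm fun h => (D.Z0 hk (by omega) le_rfl).1 h.symm).symm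

/-- different rails -/
private theorem Dat.dif (D : Dat G n M v e p r q a b z K) : ∀ i < 8, ∀ j < i, ∀ k < M,
    rls v e p q b z i k ≠ rls v e p q b z j k := by
  intro i hi j hj k hk
  have a1 := D.pr k hk
  have a3 := D.pa k hk
  have a6 := D.rq k hk k hk
  have b1 := D.qn k hk
  have zb : ¬ G.Adj (z k) (b k) := fun h => D.bz k hk h.symm
  interval_cases i
  · omega
  · interval_cases j
    exact nea (w := e true (p k)) (D.EE (by omega)) (D.NVE (by omega) le_rfl _)
  · interval_cases j
    · exact nea (w := e false (p k)) (D.EE (by omega)).symm (D.NVE (by omega) le_rfl _)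
    · exact (D.EE (by omega)).ne.symm
  · interval_cases j
    · exact (D.VV (by omega) (by omega) (by omega)).ne
    · exact nea (w := v (p k)) (D.VV (by omega) (by omega) (by omega)) fun h => D.NVE (by omega) le_rfl _ h.symm
    · exact nea (w := v (p k)) (D.VV (by omega) (by omega) (by omega)) fun h => D.NVE (by omega) le_rfl _ h.symm
  · interval_cases j
    · exact (D.VE (by omega) (by omega) _).ne.symm
    · exact nea (w := v (p k)) (D.VE (by omega) (by omega) _).symm fun h => D.NVE (by omega) le_rfl _ h.symm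
    · exact nea (w := v (p k)) (D.VE (by omega) (by omega) _).symm fun h => D.NVE (by omega) le_rfl _ h.symm
    · exact nea (w := e true (q k)) (D.EE (by omega)) (D.NVE (by omega) le_rfl _)
  · interval_cases j
    · exact (D.VE (by omega) (by omega) _).ne.symm
    · exact nea (w := v (p k)) (D.VE (by omega) (by omega) _).symm fun h => D.NVE (by omega) le_rfl _ h.symm
    · exact nea (w := v (p k)) (D.VE (by omega) (by omega) _).symm fun h => D.NVE (by omega) le_rfl _ h.symm
    · exact nea (w := e false (q k)) (D.EE (by omega)).symm (D.NVE (by omega) le_rfl _)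
    · exact (D.EE (by omega)).ne.symm
  · interval_cases j
    · exact (nea (w := z k) (D.Z1 hk (by omega)).1 (D.bz k hk)).symm
    · exact nea (w := e true (q k)) (D.U2 hk (by omega) (by omega) _).symm (D.NEE (by omega) (by omega) (by omega) _ _)
    · exact nea (w := e true (q k)) (D.U2 hk (by omega) (by omega) _).symm (D.NEE (by omega) (by omega) (by omega) _ _)
    · exact nea (w := e true (q k)) (D.U2 hk (by omega) (by omega) _).symm (D.NVE (by omega) le_rfl _)
    · exact (D.U2 hk (by omega) (by omega) _).ne.symm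
    · exact (D.U2 hk (by omega) (by omega) _).ne.symm
  · interval_cases j
    · exact (D.Z1 hk (by omega)).1.ne.symm
    · exact nea (w := v (p k)) (D.Z1 hk (by omega)).1.symm fun h => D.NVE (by omega) le_rfl _ h.symm
    · exact nea (w := v (p k)) (D.Z1 hk (by omega)).1.symm fun h => D.NVE (by omega) le_rfl _ h.symm
    · exact (nea (w := v (q k + 5)) (D.VV (by omega) (by omega) (by omega))
        fun h => (D.Z0 hk (by omega) le_rfl).1 h.symm).symm
    · exact (nea (w := b k) (D.U2 hk (by omega) (by omega) _) zb).symm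
    · exact (nea (w := b k) (D.U2 hk (by omega) (by omega) _) zb).symm
    · exact (nea (w := e true (q k + 5)) (D.U2 hk (by omega) (by omega) _).symm
        fun h => D.ZN hk (by omega) (Or.inr le_rfl) _ h.symm).symm

/-- **The table.** -/
private theorem core (hG : H1T.FH G) (hJ : H1T.FJ 2 G) (D : Dat G n M v e p r q a b z K)
    {s : ℕ → ℕ} {F : ℕ → Bool} (h1 : ∀ k l, k < l → l < 16 → s k < s l) (h2 : ∀ k < 16, s k < M)
    (hr : FT.HR G 8 16 (fun i k => rls v e p q b z i (s k)) F) : False := by
  have hk := h2 0 (by norm_num)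
  have hl := h2 1 (by norm_num)
  have hkl := h1 0 1 (by norm_num) (by norm_num)
  have a1 := D.pr _ hk
  have a2 := D.pr _ hl
  have a3 := D.pa _ hk
  have a4 := D.pa _ hl
  have a5 := D.rp _ _ hkl hl
  have a6 := D.rq _ hk _ hk
  have a7 := D.rq _ hk _ hl
  have a8 := D.rq _ hl _ hk
  have a9 := D.qq _ _ hkl hl
  have b1 := D.qn _ hk
  have b2 := D.qn _ hl
  have b3 := D.rq _ hl _ hl
  have rl : ∀ i < 8, ∀ j < 8, (G.Adj (rls v e p q b z i (s 0)) (rls v e p q b z j (s 1)) ↔ F (16 * i + j) = true) :=
    fun i hi j hj => hr.rel i hi j hj 0 1 (by norm_num) (by norm_num)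
  have dg : ∀ i < 8, ∀ j < 8, i < j →
      (G.Adj (rls v e p q b z i (s 0)) (rls v e p q b z j (s 0)) ↔ F (256 + 16 * i + j) = true) :=
    fun i hi j hj hij => hr.dg i hi j hj hij 0 (by norm_num)
  have rt : ∀ i j, i < 8 → j < 8 → G.Adj (rls v e p q b z i (s 0)) (rls v e p q b z j (s 1)) →
      F (16 * i + j) = true := fun i j hi hj h => (rl i hi j hj).1 h
  have rf : ∀ i j, i < 8 → j < 8 → ¬ G.Adj (rls v e p q b z i (s 0)) (rls v e p q b z j (s 1)) →
      F (16 * i + j) = false := fun i j hi hj h => Bool.eq_false_iff.2 fun h' => h ((rl i hi j hj).2 h')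
  have dt : ∀ i j, i < 8 → j < 8 → i < j → G.Adj (rls v e p q b z i (s 0)) (rls v e p q b z j (s 0)) →
      F (256 + 16 * i + j) = true := fun i j hi hj hij h => (dg i hi j hj hij).1 h
  have df : ∀ i j, i < 8 → j < 8 → i < j → ¬ G.Adj (rls v e p q b z i (s 0)) (rls v e p q b z j (s 0)) →
      F (256 + 16 * i + j) = false := fun i j hi hj hij h => Bool.eq_false_iff.2 fun h' => h ((dg i hi j hj hij).2 h')
  have P0 : F 0 = true := rt 0 0 (by norm_num) (by norm_num) (D.VV (by omega) (by omega) (by omega))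
  have P1 : F 1 = true := rt 0 1 (by norm_num) (by norm_num) (D.VE (by omega) (by omega) _)
  have P2 : F 2 = true := rt 0 2 (by norm_num) (by norm_num) (D.VE (by omega) (by omega) _)
  have P3 : F 3 = true := rt 0 3 (by norm_num) (by norm_num) (D.VV (by omega) (by omega) (by omega))
  have P4 : F 4 = true := rt 0 4 (by norm_num) (by norm_num) (D.VE (by omega) (by omega) _)
  have P5 : F 5 = true := rt 0 5 (by norm_num) (by norm_num) (D.VE (by omega) (by omega) _)
  have P6 : F 6 = true := rt 0 6 (by norm_num) (by norm_num) ((D.U1 (by omega) (by omega) (by omega)).1)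
  have P7 : F 7 = true := rt 0 7 (by norm_num) (by norm_num) ((D.Z1 (by omega) (by omega)).1)
  have P48 : F 48 = true := rt 3 0 (by norm_num) (by norm_num) (D.VV (by omega) (by omega) (by omega))
  have P51 : F 51 = true := rt 3 3 (by norm_num) (by norm_num) (D.VV (by omega) (by omega) (by omega))
  have P52 : F 52 = true := rt 3 4 (by norm_num) (by norm_num) (D.VE (by omega) (by omega) _)
  have P53 : F 53 = true := rt 3 5 (by norm_num) (by norm_num) (D.VE (by omega) (by omega) _)
  have P55 : F 55 = true := rt 3 7 (by norm_num) (by norm_num) ((D.Z1 (by omega) (by omega)).1)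
  have P64 : F 64 = true := rt 4 0 (by norm_num) (by norm_num) ((D.VE (by omega) (by omega) _).symm)
  have P70 : F 70 = true := rt 4 6 (by norm_num) (by norm_num) (D.U2 (by omega) (by omega) (by omega) _)
  have P80 : F 80 = true := rt 5 0 (by norm_num) (by norm_num) ((D.VE (by omega) (by omega) _).symm)
  have P86 : F 86 = true := rt 5 6 (by norm_num) (by norm_num) (D.U2 (by omega) (by omega) (by omega) _)
  have P97 : F 97 = true := rt 6 1 (by norm_num) (by norm_num) ((D.U2 (by omega) (by omega) (by omega) _).symm)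
  have P98 : F 98 = true := rt 6 2 (by norm_num) (by norm_num) ((D.U2 (by omega) (by omega) (by omega) _).symm)
  have P100 : F 100 = true := rt 6 4 (by norm_num) (by norm_num) ((D.U2 (by omega) (by omega) (by omega) _).symm)
  have P101 : F 101 = true := rt 6 5 (by norm_num) (by norm_num) ((D.U2 (by omega) (by omega) (by omega) _).symm)
  have P112 : F 112 = true := rt 7 0 (by norm_num) (by norm_num) (((D.Z1 (by omega) (by omega)).1).symm)
  have P259 : F 259 = true := dt 0 3 (by norm_num) (by norm_num) (by norm_num) (D.VV (by omega) (by omega) (by omega))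
  have P260 : F 260 = true := dt 0 4 (by norm_num) (by norm_num) (by norm_num) (D.VE (by omega) (by omega) _)
  have P261 : F 261 = true := dt 0 5 (by norm_num) (by norm_num) (by norm_num) (D.VE (by omega) (by omega) _)
  have P263 : F 263 = true := dt 0 7 (by norm_num) (by norm_num) (by norm_num) ((D.Z1 (by omega) (by omega)).1)
  have P274 : F 274 = true := dt 1 2 (by norm_num) (by norm_num) (by norm_num) (D.EE (by omega))
  have P325 : F 325 = true := dt 4 5 (by norm_num) (by norm_num) (by norm_num) (D.EE (by omega))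
  have P326 : F 326 = true := dt 4 6 (by norm_num) (by norm_num) (by norm_num) (D.U2 (by omega) (by omega) (by omega) _)
  have P342 : F 342 = true := dt 5 6 (by norm_num) (by norm_num) (by norm_num) (D.U2 (by omega) (by omega) (by omega) _)
  have N16 : F 16 = false := rf 1 0 (by norm_num) (by norm_num) ((fun h => D.NVE (by omega) (by omega) _ h.symm))
  have N17 : F 17 = false := rf 1 1 (by norm_num) (by norm_num) (D.NEE (by omega) (by omega) (by omega) _ _)
  have N18 : F 18 = false := rf 1 2 (by norm_num) (by norm_num) (D.NEE (by omega) (by omega) (by omega) _ _)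
  have N19 : F 19 = false := rf 1 3 (by norm_num) (by norm_num) ((fun h => D.NVE (by omega) (by omega) _ h.symm))
  have N20 : F 20 = false := rf 1 4 (by norm_num) (by norm_num) (D.NEE (by omega) (by omega) (by omega) _ _)
  have N21 : F 21 = false := rf 1 5 (by norm_num) (by norm_num) (D.NEE (by omega) (by omega) (by omega) _ _)
  have N22 : F 22 = false := rf 1 6 (by norm_num) (by norm_num) ((D.U1 (by omega) (by omega) (by omega)).2 _)
  have N23 : F 23 = false := rf 1 7 (by norm_num) (by norm_num) ((D.ZN (by omega) (by omega) (by omega) _))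
  have N32 : F 32 = false := rf 2 0 (by norm_num) (by norm_num) ((fun h => D.NVE (by omega) (by omega) _ h.symm))
  have N33 : F 33 = false := rf 2 1 (by norm_num) (by norm_num) (D.NEE (by omega) (by omega) (by omega) _ _)
  have N34 : F 34 = false := rf 2 2 (by norm_num) (by norm_num) (D.NEE (by omega) (by omega) (by omega) _ _)
  have N35 : F 35 = false := rf 2 3 (by norm_num) (by norm_num) ((fun h => D.NVE (by omega) (by omega) _ h.symm))
  have N36 : F 36 = false := rf 2 4 (by norm_num) (by norm_num) (D.NEE (by omega) (by omega) (by omega) _ _)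
  have N37 : F 37 = false := rf 2 5 (by norm_num) (by norm_num) (D.NEE (by omega) (by omega) (by omega) _ _)
  have N38 : F 38 = false := rf 2 6 (by norm_num) (by norm_num) ((D.U1 (by omega) (by omega) (by omega)).2 _)
  have N39 : F 39 = false := rf 2 7 (by norm_num) (by norm_num) ((D.ZN (by omega) (by omega) (by omega) _))
  have N49 : F 49 = false := rf 3 1 (by norm_num) (by norm_num) (D.NVE (by omega) (by omega) _)
  have N50 : F 50 = false := rf 3 2 (by norm_num) (by norm_num) (D.NVE (by omega) (by omega) _)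
  have N65 : F 65 = false := rf 4 1 (by norm_num) (by norm_num) (D.NEE (by omega) (by omega) (by omega) _ _)
  have N66 : F 66 = false := rf 4 2 (by norm_num) (by norm_num) (D.NEE (by omega) (by omega) (by omega) _ _)
  have N67 : F 67 = false := rf 4 3 (by norm_num) (by norm_num) ((fun h => D.NVE (by omega) (by omega) _ h.symm))
  have N68 : F 68 = false := rf 4 4 (by norm_num) (by norm_num) (D.NEE (by omega) (by omega) (by omega) _ _)
  have N69 : F 69 = false := rf 4 5 (by norm_num) (by norm_num) (D.NEE (by omega) (by omega) (by omega) _ _)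
  have N71 : F 71 = false := rf 4 7 (by norm_num) (by norm_num) ((D.ZN (by omega) (by omega) (by omega) _))
  have N81 : F 81 = false := rf 5 1 (by norm_num) (by norm_num) (D.NEE (by omega) (by omega) (by omega) _ _)
  have N82 : F 82 = false := rf 5 2 (by norm_num) (by norm_num) (D.NEE (by omega) (by omega) (by omega) _ _)
  have N83 : F 83 = false := rf 5 3 (by norm_num) (by norm_num) ((fun h => D.NVE (by omega) (by omega) _ h.symm))
  have N84 : F 84 = false := rf 5 4 (by norm_num) (by norm_num) (D.NEE (by omega) (by omega) (by omega) _ _)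
  have N85 : F 85 = false := rf 5 5 (by norm_num) (by norm_num) (D.NEE (by omega) (by omega) (by omega) _ _)
  have N87 : F 87 = false := rf 5 7 (by norm_num) (by norm_num) ((D.ZN (by omega) (by omega) (by omega) _))
  have N113 : F 113 = false := rf 7 1 (by norm_num) (by norm_num) ((fun h => ((D.ZN (by omega) (by omega) (by omega) _)) h.symm))
  have N114 : F 114 = false := rf 7 2 (by norm_num) (by norm_num) ((fun h => ((D.ZN (by omega) (by omega) (by omega) _)) h.symm))
  have N115 : F 115 = false := rf 7 3 (by norm_num) (by norm_num) ((fun h => ((D.Z0 (by omega) (by omega) (by omega)).1) h.symm))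
  have N116 : F 116 = false := rf 7 4 (by norm_num) (by norm_num) ((fun h => ((D.ZN (by omega) (by omega) (by omega) _)) h.symm))
  have N117 : F 117 = false := rf 7 5 (by norm_num) (by norm_num) ((fun h => ((D.ZN (by omega) (by omega) (by omega) _)) h.symm))
  have N119 : F 119 = false := rf 7 7 (by norm_num) (by norm_num) (D.ZZ (by omega) (by omega))
  have N257 : F 257 = false := df 0 1 (by norm_num) (by norm_num) (by norm_num) (D.NVE (by omega) (by omega) _)
  have N258 : F 258 = false := df 0 2 (by norm_num) (by norm_num) (by norm_num) (D.NVE (by omega) (by omega) _)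
  have N275 : F 275 = false := df 1 3 (by norm_num) (by norm_num) (by norm_num) ((fun h => D.NVE (by omega) (by omega) _ h.symm))
  have N276 : F 276 = false := df 1 4 (by norm_num) (by norm_num) (by norm_num) (D.NEE (by omega) (by omega) (by omega) _ _)
  have N277 : F 277 = false := df 1 5 (by norm_num) (by norm_num) (by norm_num) (D.NEE (by omega) (by omega) (by omega) _ _)
  have N279 : F 279 = false := df 1 7 (by norm_num) (by norm_num) (by norm_num) ((D.ZN (by omega) (by omega) (by omega) _))
  have N291 : F 291 = false := df 2 3 (by norm_num) (by norm_num) (by norm_num) ((fun h => D.NVE (by omega) (by omega) _ h.symm))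
  have N292 : F 292 = false := df 2 4 (by norm_num) (by norm_num) (by norm_num) (D.NEE (by omega) (by omega) (by omega) _ _)
  have N293 : F 293 = false := df 2 5 (by norm_num) (by norm_num) (by norm_num) (D.NEE (by omega) (by omega) (by omega) _ _)
  have N295 : F 295 = false := df 2 7 (by norm_num) (by norm_num) (by norm_num) ((D.ZN (by omega) (by omega) (by omega) _))
  have N308 : F 308 = false := df 3 4 (by norm_num) (by norm_num) (by norm_num) (D.NVE (by omega) (by omega) _)
  have N309 : F 309 = false := df 3 5 (by norm_num) (by norm_num) (by norm_num) (D.NVE (by omega) (by omega) _)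
  have N359 : F 359 = false := df 6 7 (by norm_num) (by norm_num) (by norm_num) (D.UZ (by omega))
  refine FV.RNG.tg hG hJ (FV.HV.of_hr hr) ⟨fun i j h => ?_, fun i j h => ?_, fun c hc => ?_⟩
    (FT.Mt.list (ps := [0, 1, 2, 3, 4, 5, 6, 7, 48, 51, 52, 53, 55, 64, 70, 80, 86, 97, 98, 100, 101, 112, 259, 260, 261, 263, 274, 325, 326, 342])
      (ns := [16, 17, 18, 19, 20, 21, 22, 23, 32, 33, 34, 35, 36, 37, 38, 39, 49, 50, 65, 66, 67, 68, 69, 71, 81, 82, 83, 84, 85, 87, 113, 114, 115, 116, 117, 119, 257, 258, 275, 276, 277, 279, 291, 292, 293, 295, 308, 309, 359])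
      (co P0 <| co P1 <| co P2 <| co P3 <| co P4 <| co P5 <| co P6 <| co P7 <| co P48 <| co P51 <| co P52 <| co P53 <| co P55 <| co P64 <| co P70 <| co P80 <| co P86 <| co P97 <| co P98 <| co P100 <| co P101 <| co P112 <| co P259 <| co P260 <| co P261 <| co P263 <| co P274 <| co P325 <| co P326 <| co P342 <| ni)
      (co N16 <| co N17 <| co N18 <| co N19 <| co N20 <| co N21 <| co N22 <| co N23 <| co N32 <| co N33 <| co N34 <| co N35 <| co N36 <| co N37 <| co N38 <| co N39 <| co N49 <| co N50 <| co N65 <| co N66 <| co N67 <| co N68 <| co N69 <| co N71 <| co N81 <| co N82 <| co N83 <| co N84 <| co N85 <| co N87 <| co N113 <| co N114 <| co N115 <| co N116 <| co N117 <| co N119 <| co N257 <| co N258 <| co N275 <| co N276 <| co N277 <| co N279 <| co N291 <| co N292 <| co N293 <| co N295 <| co N308 <| co N309 <| co N359 <| ni)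
      (by decide +kernel) (by decide +kernel))
  · simp at h
  · simp at h
  · simp [FV.RNG.tg_I] at hc

/-- increasing enumeration -/
private theorem inc (S : Finset ℕ) : ∃ h : ℕ → ℕ, (∀ i < S.card, h i ∈ S) ∧
    ∀ i j, i < j → j < S.card → h i < h j := by
  refine ⟨fun i => if hi : i < S.card then S.orderEmbOfFin rfl ⟨i, hi⟩ else 0, fun i hi => ?_,
    fun i j hij hj => ?_⟩
  · dsimp only
    rw [dif_pos hi]
    exact S.orderEmbOfFin_mem rfl _
  · dsimp only
    rw [dif_pos (hij.trans hj), dif_pos hj]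
    exact (S.orderEmbOfFin rfl).strictMono (by exact hij)

private theorem tri {i j l i' j' l' : ℕ} (h1 : i < j) (h2 : j < l) (h3 : i' < j') (h4 : j' < l')
    (h : ({i, j, l} : Finset ℕ) = {i', j', l'}) : i = i' ∧ j = j' ∧ l = l' := by
  have m1 : i ∈ ({i', j', l'} : Finset ℕ) := h ▸ by simp
  have m2 : j ∈ ({i', j', l'} : Finset ℕ) := h ▸ by simp
  have m3 : l ∈ ({i', j', l'} : Finset ℕ) := h ▸ by simp
  have m4 : i' ∈ ({i, j, l} : Finset ℕ) := h ▸ by simp
  have m5 : j' ∈ ({i, j, l} : Finset ℕ) := h ▸ by simp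
  have m6 : l' ∈ ({i, j, l} : Finset ℕ) := h ▸ by simp
  simp only [Finset.mem_insert, Finset.mem_singleton] at m1 m2 m3 m4 m5 m6
  omega

theorem tGam : S_Cel → S_Gam := by
  intro hCel n
  obtain ⟨M, hM⟩ := hr_exists 8 16 (by norm_num)
  obtain ⟨N, hN⟩ := Pool.Agent.Lib.MP_577a3c26_an.ramsey 3 (max n (3 * M)) Bool
  refine ⟨N, fun V G v e hG hJ hT => ?_⟩
  classical
  let Q : ℕ → ℕ → ℕ → Prop := fun i j l => ∃ b a, Wt G (20 * N) v e b a 1 2 ∧ 20 * i ≤ a ∧ a < 20 * j ∧
    ¬ CoK G b (Kc G (20 * N) v e (20 * l + 10))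
  let f : Finset ℕ → Bool := fun D => decide (∃ i j l, i < j ∧ j < l ∧ D = {i, j, l} ∧ Q i j l)
  obtain ⟨H, hH, hc, c, hf⟩ := hN f
  obtain ⟨h, hh1, hh2⟩ := inc H
  have hlt : ∀ i < H.card, h i < N := fun i hi => Finset.mem_range.1 (hH (hh1 i hi))
  have key : ∀ i j l, i < j → j < l → l < H.card → (Q (h i) (h j) (h l) ↔ c = true) := by
    intro i j l hij hjl hl
    have h1 := hh2 i j hij (hjl.trans hl)
    have h2 := hh2 j l hjl hl
    have h3 : f {h i, h j, h l} = c := by
      refine hf _ (fun x hx => ?_) ?_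
      · simp only [Finset.mem_insert, Finset.mem_singleton] at hx
        rcases hx with rfl | rfl | rfl
        · exact hh1 i (by omega)
        · exact hh1 j (by omega)
        · exact hh1 l hl
      · rw [Finset.card_insert_of_notMem, Finset.card_insert_of_notMem, Finset.card_singleton]
        · simp only [Finset.mem_singleton]; omega
        · simp only [Finset.mem_insert, Finset.mem_singleton]; omega
    rw [← h3]
    show _ ↔ decide _ = true
    rw [decide_eq_true_iff]
    constructor
    · exact fun hQ => ⟨h i, h j, h l, h1, h2, rfl, hQ⟩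
    · rintro ⟨i', j', l', h4, h5, h6, hQ⟩
      obtain ⟨rfl, rfl, rfl⟩ := tri h1 h2 h4 h5 h6
      exact hQ
  rcases c with _ | _
  · refine ⟨h, fun i j hij hj => hh2 i j hij (by omega), fun i hi => hlt i (by omega), ?_⟩
    intro i j l hij hjl hl b a hb h1 h2
    by_contra h3
    exact absurd ((key i j l hij hjl (by omega)).1 ⟨b, a, hb, h1, h2, h3⟩) (by decide)
  exfalso
  have h3M : 3 * M ≤ H.card := by omega
  have hch : ∀ s, ∃ (b z : V) (a : ℕ), s < M → Wt G (20 * N) v e b a 1 2 ∧ 20 * h (2 * s) ≤ a ∧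
      a < 20 * h (2 * s + 1) ∧ z ∈ Kc G (20 * N) v e (20 * h (2 * M + s) + 10) ∧ ¬ G.Adj b z := by
    intro s
    by_cases hs : s < M
    · obtain ⟨b, a, h1, h2, h3, h4⟩ := (key (2 * s) (2 * s + 1) (2 * M + s) (by omega) (by omega) (by omega)).2 rfl
      unfold CoK at h4
      push Not at h4
      obtain ⟨z, hz, hbz⟩ := h4
      exact ⟨b, z, a, fun _ => ⟨h1, h2, h3, hz, hbz⟩⟩
    · exact ⟨v 0, v 0, 0, fun h' => absurd h' hs⟩
  choose b z a hba using hch
  have D : Dat G (20 * N) M v e (fun s => 20 * h (2 * s)) (fun s => 20 * h (2 * s + 1))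
      (fun s => 20 * h (2 * M + s) + 10) a b z fun s => Kc G (20 * N) v e (20 * h (2 * M + s) + 10) := by
    refine ⟨hT.ch, fun s hs => ?_, fun s hs => ⟨(hba s hs).2.1, (hba s hs).2.2.1⟩, fun s t hst ht => ?_,
      fun s hs t ht => ?_, fun s t hst ht => ?_, fun s hs => ?_, fun s hs => (hba s hs).1, fun s hs => ?_,
      fun s hs => (hba s hs).2.2.2.1, fun s hs => (hba s hs).2.2.2.2⟩
    · have := hh2 (2 * s) (2 * s + 1) (by omega) (by omega)
      show 20 * h (2 * s) + 2 < 20 * h (2 * s + 1)
      omega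
    · have := hh2 (2 * s + 1) (2 * t) (by omega) (by omega)
      show 20 * h (2 * s + 1) < 20 * h (2 * t)
      omega
    · have := hh2 (2 * s + 1) (2 * M + t) (by omega) (by omega)
      show 20 * h (2 * s + 1) + 5 ≤ 20 * h (2 * M + t) + 10
      omega
    · have := hh2 (2 * M + s) (2 * M + t) (by omega) (by omega)
      show 20 * h (2 * M + s) + 10 + 20 ≤ 20 * h (2 * M + t) + 10
      omega
    · have := hlt (2 * M + s) (by omega)
      show 20 * h (2 * M + s) + 10 + 6 ≤ 20 * N
      omega
    · have := hlt (2 * M + s) (by omega)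
      exact hCel (20 * N) V G v e hG hT (20 * h (2 * M + s) + 10) (by omega) (by omega)
  obtain ⟨s, F, h1, h2, hr⟩ := hM V G (rls v e (fun s => 20 * h (2 * s)) (fun s => 20 * h (2 * M + s) + 10) b z)
    (fun i hi k hk l hl hkl => by
      rcases Nat.lt_or_gt_of_ne hkl with h' | h'
      · exact D.inj i hi k l h' hl
      · exact (D.inj i hi l k h' hk).symm)
    (fun i hi j hj hij k hk => by
      rcases Nat.lt_or_gt_of_ne hij with h' | h'
      · exact (D.dif j hj i h' k hk).symm
      · exact D.dif i hi j h' k hk)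
  exact core hG hJ D h1 h2 hr

end Pool.Agent.MPd439b2.RN.L
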