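import Pool.Agent.Lib.MP_d439b2_co.RN.LS

/-!
# MP_d439b2_co, RN/LWd: words (helper38; proof of helper53)
-/

set_option autoImplicit false

namespace Pool.Agent.MPd439b2.RN.L

open Pool.Agent.MPd439b2 Pool.Agent.MPd439b2.RN Pool.Agent.MPd439b2.H1R

variable {V : Type} {G : SimpleGraph V} {M : ℕ} {v : ℕ → V} {e : Bool → ℕ → V} {u : V}

/-- the relations of the ladder -/
private structure Fa (G : SimpleGraph V) (M : ℕ) (v : ℕ → V) (e : Bool → ℕ → V) : Prop where
  vv : ∀ {i j}, i < j → j < M → G.Adj (v i) (v j)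
  ve : ∀ {i j}, i < j → j < M → ∀ s, G.Adj (v i) (e s j)
  nv : ∀ {i j}, j ≤ i → i < M → ∀ s, ¬ G.Adj (v i) (e s j)
  ee : ∀ {i j}, i < j → j < M → ∀ s t, ¬ G.Adj (e s i) (e t j)

private theorem fa (h : CH.Ch G M v e) : Fa G M v e where
  vv := fun hij hj => h.vv _ (hij.trans hj) _ hj hij.ne
  ve := fun hij hj s => (h.ve _ (hij.trans hj) _ hj s).2 hij
  nv := fun hij hi s h' => absurd ((h.ve _ hi _ (hij.trans_lt hi) s).1 h') (by omega)
  ee := fun hij hj s t h' => hij.ne ((h.ee _ (hij.trans hj) _ hj s t).1 h').1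

/-- six vertices -/
private theorem m6 (hG : H1T.FH G) {a b c x y z : V} (h1 : G.Adj a b) (h2 : G.Adj a c) (h3 : G.Adj b c)
    (h4 : G.Adj a x) (h5 : G.Adj b y) (h6 : G.Adj a z) (h7 : G.Adj c z) (n1 : ¬ G.Adj b x) (n2 : ¬ G.Adj c x)
    (n3 : ¬ G.Adj a y) (n4 : ¬ G.Adj c y) (n5 : ¬ G.Adj b z) (n6 : ¬ G.Adj x y) (n7 : ¬ G.Adj x z)
    (n8 : ¬ G.Adj y z) : False := by
  refine engV hG (fun k => [a, b, c, x, y, z].getD k a) [[0], [1], [2], [3], [4], [5]]
    [(0, 1), (0, 2), (1, 2), (0, 3), (1, 4), (0, 5), (2, 5)]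
    [(1, 3), (2, 3), (0, 4), (2, 4), (1, 5), (3, 4), (3, 5), (4, 5)] [] ?_ ?_ (by simp) (by decide)
  · intro p hp
    simp only [List.mem_cons, List.not_mem_nil, or_false] at hp
    rcases hp with rfl | rfl | rfl | rfl | rfl | rfl | rfl <;> assumption
  · intro p hp
    simp only [List.mem_cons, List.not_mem_nil, or_false] at hp
    rcases hp with rfl | rfl | rfl | rfl | rfl | rfl | rfl | rfl <;> assumption

/-- six bags, the second one has two vertices `b`, `b'` -/
private theorem m7 (hG : H1T.FH G) {a b b' c x y z : V} (h0 : G.Adj b b') (h1 : G.Adj a b') (h2 : G.Adj a c)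
    (h3 : G.Adj b c) (h4 : G.Adj a x) (h5 : G.Adj b y) (h6 : G.Adj a z) (h7 : G.Adj c z) (n1 : ¬ G.Adj b x)
    (n1' : ¬ G.Adj b' x) (n2 : ¬ G.Adj c x) (n3 : ¬ G.Adj a y) (n4 : ¬ G.Adj c y) (n5 : ¬ G.Adj b z)
    (n5' : ¬ G.Adj b' z) (n6 : ¬ G.Adj x y) (n7 : ¬ G.Adj x z) (n8 : ¬ G.Adj y z) (n9 : ¬ G.Adj b' y)
    (h8 : G.Adj b' c) : False := by
  refine engV hG (fun k => [a, b, c, x, y, z, b'].getD k a) [[0], [1, 6], [2], [3], [4], [5]]
    [(0, 6), (0, 2), (1, 2), (0, 3), (1, 4), (0, 5), (2, 5), (1, 6), (6, 2)]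
    [(1, 3), (2, 3), (0, 4), (2, 4), (1, 5), (3, 4), (3, 5), (4, 5), (6, 3), (6, 5), (6, 4)] [] ?_ ?_ (by simp)
    (by decide)
  · intro p hp
    simp only [List.mem_cons, List.not_mem_nil, or_false] at hp
    rcases hp with rfl | rfl | rfl | rfl | rfl | rfl | rfl | rfl | rfl <;> assumption
  · intro p hp
    simp only [List.mem_cons, List.not_mem_nil, or_false] at hp
    rcases hp with rfl | rfl | rfl | rfl | rfl | rfl | rfl | rfl | rfl | rfl | rfl <;> assumption

private theorem kA (hG : H1T.FH G) (F : Fa G M v e) {i j k : ℕ} (hij : i < j) (hjk : j < k) (hk : k < M) (s : Bool)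
    (h1 : G.Adj (e s k) u) (h2 : ¬ G.Adj (e (!s) j) u) (h3 : ¬ G.Adj (v i) u) (h4 : ¬ G.Adj (v j) u)
    (h5 : ¬ G.Adj (v k) u) : False :=
  m6 hG (a := v i) (b := e s k) (c := v j) (x := e (!s) j) (y := u) (z := v k) (F.ve (hij.trans hjk) hk s)
    (F.vv hij (hjk.trans hk)) (F.ve hjk hk s).symm (F.ve hij (hjk.trans hk) _) h1 (F.vv (hij.trans hjk) hk)
    (F.vv hjk hk) (fun h => F.ee hjk hk _ _ h.symm) (F.nv le_rfl (hjk.trans hk) _) h3 h4
    (fun h => F.nv le_rfl hk _ h.symm) h2 (fun h => F.nv hjk.le hk _ h.symm) fun h => h5 h.symm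

private theorem kB (hG : H1T.FH G) (F : Fa G M v e) {i j k : ℕ} (hij : i < j) (hjk : j < k) (hk : k < M) (s : Bool)
    (h1 : G.Adj (v i) u) (h2 : G.Adj (v j) u) (h3 : ¬ G.Adj (e (!s) j) u) (h4 : G.Adj (e s i) u)
    (h5 : ¬ G.Adj (e (!s) k) u) : False :=
  m6 hG (a := v i) (b := u) (c := v j) (x := e (!s) j) (y := e s i) (z := e (!s) k) h1
    (F.vv hij (hjk.trans hk)) h2.symm (F.ve hij (hjk.trans hk) _) h4.symm (F.ve (hij.trans hjk) hk _)
    (F.ve hjk hk _) (fun h => h3 h.symm) (F.nv le_rfl (hjk.trans hk) _) (F.nv le_rfl (hij.trans (hjk.trans hk)) _)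
    (F.nv hij.le (hjk.trans hk) _) (fun h => h5 h.symm) (fun h => F.ee hij (hjk.trans hk) _ _ h.symm)
    (F.ee hjk hk _ _) (F.ee (hij.trans hjk) hk _ _)

private theorem k3 (hG : H1T.FH G) (F : Fa G M v e) {i j k : ℕ} (hij : i < j) (hjk : j < k) (hk : k < M)
    (h1 : cl G v e u i = 0) (h2 : cl G v e u j = 0) (h3 : cl G v e u k = 1) : False := by
  rw [cl_zero] at h1 h2
  rw [cl_one] at h3
  exact m6 hG (a := v i) (b := v k) (c := v j) (x := e true j) (y := u) (z := e true k)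
    (F.vv (hij.trans hjk) hk) (F.vv hij (hjk.trans hk)) (F.vv hjk hk).symm (F.ve hij (hjk.trans hk) _) h3.1
    (F.ve (hij.trans hjk) hk _) (F.ve hjk hk _) (F.nv hjk.le hk _) (F.nv le_rfl (hjk.trans hk) _) h1.1 h2.1
    (F.nv le_rfl hk _) (h2.2 _) (F.ee hjk hk _ _) fun h => h3.2 _ h.symm

private theorem k5 (hG : H1T.FH G) (F : Fa G M v e) {i j k l : ℕ} (hij : i < j) (hjk : j < k) (hkl : k < l)
    (hl : l < M) (h1 : cl G v e u i = 0) (h2 : cl G v e u j = 0) (h3 : cl G v e u k = 0)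
    (h4 : cl G v e u l = 2) : False := by
  rw [cl_zero] at h1 h2 h3
  rw [cl_two] at h4
  have hk := hkl.trans hl
  have hj := hjk.trans hk
  exact m6 hG (a := v i) (b := e false l) (c := v j) (x := e true j) (y := u) (z := e false k)
    (F.ve (hij.trans (hjk.trans hkl)) hl _) (F.vv hij hj) (F.ve (hjk.trans hkl) hl _).symm (F.ve hij hj _) (h4 _)
    (F.ve (hij.trans hjk) hk _) (F.ve hjk hk _) (fun h => F.ee (hjk.trans hkl) hl _ _ h.symm) (F.nv le_rfl hj _)
    h1.1 h2.1 (fun h => F.ee hkl hl _ _ h.symm) (h2.2 _) (F.ee hjk hk _ _) fun h => h3.2 _ h.symm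

private theorem k7 (hG : H1T.FH G) (F : Fa G M v e) {i j k : ℕ} (hij : i < j) (hjk : j < k) (hk : k < M)
    (h1 : cl G v e u i = 2) (h2 : cl G v e u j = 1) (h3 : cl G v e u k = 1) : False := by
  rw [cl_two] at h1
  rw [cl_one] at h2 h3
  have hj := hjk.trans hk
  exact m7 hG (a := v i) (b := u) (b' := v k) (c := v j) (x := e false j) (y := e false i) (z := e true k)
    h3.1.symm (F.vv (hij.trans hjk) hk) (F.vv hij hj) h2.1.symm (F.ve hij hj _) (h1 _).symm
    (F.ve (hij.trans hjk) hk _) (F.ve hjk hk _) (fun h => h2.2 _ h.symm) (F.nv hjk.le hk _) (F.nv le_rfl hj _)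
    (F.nv le_rfl (hij.trans hj) _) (F.nv hij.le hj _) (fun h => h3.2 _ h.symm) (F.nv le_rfl hk _)
    (fun h => F.ee hij hj _ _ h.symm) (F.ee hjk hk _ _) (F.ee (hij.trans hjk) hk _ _)
    (F.nv (hij.trans hjk).le hk _) (F.vv hjk hk).symm

/-- three elements in increasing order -/
private theorem three {S : Finset ℕ} (h : 2 < S.card) : ∃ i ∈ S, ∃ j ∈ S, ∃ k ∈ S, i < j ∧ j < k := by
  obtain ⟨a, b, c, ha, hb, hc, hab, hac, hbc⟩ := Finset.two_lt_card_iff.1 h
  rcases lt_trichotomy a b with h1 | h1 | h1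
  · rcases lt_trichotomy b c with h2 | h2 | h2
    · exact ⟨a, ha, b, hb, c, hc, h1, h2⟩
    · exact absurd h2 hbc
    · rcases lt_trichotomy a c with h3 | h3 | h3
      · exact ⟨a, ha, c, hc, b, hb, h3, h2⟩
      · exact absurd h3 hac
      · exact ⟨c, hc, a, ha, b, hb, h3, h1⟩
  · exact absurd h1 hab
  · rcases lt_trichotomy a c with h2 | h2 | h2
    · exact ⟨b, hb, a, ha, c, hc, h1, h2⟩
    · exact absurd h2 hac
    · rcases lt_trichotomy b c with h3 | h3 | h3
      · exact ⟨b, hb, c, hc, a, ha, h3, h2⟩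
      · exact absurd h3 hbc
      · exact ⟨c, hc, b, hb, a, ha, h3, h1⟩

/-- **No block of nine places of class 3.** -/
private theorem blk (hG : H1T.FH G) (F : Fa G M v e) {p : ℕ} (hp : p + 9 ≤ M)
    (h : ∀ i, p ≤ i → i < p + 9 → cl G v e u i = 3) : False := by
  classical
  let f : ℕ → Bool × Bool := fun i => (decide (G.Adj (e true i) u), decide (G.Adj (v i) u))
  obtain ⟨y, -, hy⟩ := Finset.exists_lt_card_fiber_of_mul_lt_card_of_maps_to (s := Finset.Ico p (p + 9))
    (t := (Finset.univ : Finset (Bool × Bool))) (f := f) (n := 2) (fun _ _ => Finset.mem_univ _) (by simp)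
  obtain ⟨i, hi, j, hj, k, hk, hij, hjk⟩ := three hy
  simp only [Finset.mem_filter, Finset.mem_Ico] at hi hj hk
  obtain ⟨⟨hi1, hi2⟩, hi3⟩ := hi
  obtain ⟨⟨hj1, hj2⟩, hj3⟩ := hj
  obtain ⟨⟨hk1, hk2⟩, hk3⟩ := hk
  obtain ⟨s, t⟩ := y
  have key : ∀ l, p ≤ l → l < p + 9 → f l = (s, t) → G.Adj (e s l) u ∧ ¬ G.Adj (e (!s) l) u ∧
      (G.Adj (v l) u ↔ t = true) := by
    intro l h1 h2 h3
    have h4 := cl_three.1 (h l h1 h2)
    obtain ⟨⟨s₁, h5⟩, s₂, h6⟩ := h4
    have h7 : decide (G.Adj (e true l) u) = s := congrArg Prod.fst h3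
    have h8 : decide (G.Adj (v l) u) = t := congrArg Prod.snd h3
    refine ⟨?_, ?_, ?_⟩
    · rcases s with _ | _
      · rw [decide_eq_false_iff_not] at h7
        rcases s₁ with _ | _
        · exact h5
        · exact absurd h5 h7
      · exact of_decide_eq_true h7
    · rcases s with _ | _
      · rw [decide_eq_false_iff_not] at h7
        exact h7
      · have h9 := of_decide_eq_true h7
        rcases s₂ with _ | _
        · exact h6
        · exact absurd h9 h6
    · rw [← h8, decide_eq_true_iff]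
  obtain ⟨a1, a2, a3⟩ := key i hi1 hi2 hi3
  obtain ⟨b1, b2, b3⟩ := key j hj1 hj2 hj3
  obtain ⟨c1, c2, c3⟩ := key k hk1 hk2 hk3
  rcases t with _ | _
  · exact kA hG F hij hjk (by omega) s c1 b2 (by simpa using a3) (by simpa using b3) (by simpa using c3)
  · exact kB hG F hij hjk (by omega) s (by simpa using a3) (by simpa using b3) b2 a1 c2

theorem tWd : S_Wd := by
  intro n V G v e hG hC hcl
  have F := fa hC
  have hb : ∀ (u : V) (p : ℕ), p + 9 ≤ n + 18 → ∀ t, (∀ i, p ≤ i → i < p + 9 → cl G v e u i = t) → t < 3 := by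
    intro u p hp t h
    have h1 := cl_lt G v e u p
    rw [h p le_rfl (by omega)] at h1
    rcases Nat.lt_or_ge t 3 with h2 | h2
    · exact h2
    · have h3 : t = 3 := by omega
      subst h3
      exact (blk hG F hp h).elim
  have hsh : ∀ (u : V) i, cl G (fun i => v (i + 9)) (fun s i => e s (i + 9)) u i = cl G v e u (i + 9) :=
    fun _ _ => rfl
  refine ⟨⟨fun i hi j hj hij => hC.vv _ (by omega) _ (by omega) (by omega), fun i hi j hj s t => ?_,
    fun i hi j hj s => ?_⟩, fun u => ?_⟩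
  · rw [hC.ee _ (by omega) _ (by omega)]
    constructor
    · rintro ⟨h1, h2⟩
      exact ⟨by omega, h2⟩
    · rintro ⟨h1, h2⟩
      exact ⟨by omega, h2⟩
  · rw [hC.ve _ (by omega) _ (by omega)]
    omega
  -- the place of the change
  obtain ⟨a, s, t, h1, h2⟩ : ∃ a s t, (∀ i < n + 18, i < a → cl G v e u i = s) ∧
      ∀ i < n + 18, a < i → cl G v e u i = t := by
    by_cases h : ∃ a < n + 18, cl G v e u a ≠ cl G v e u 0
    · classical
      obtain ⟨ha, ha'⟩ := Nat.find_spec h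
      refine ⟨Nat.find h, cl G v e u 0, cl G v e u (Nat.find h + 1), fun i hi hia => ?_, fun i hi hia => ?_⟩
      · by_contra h3
        exact Nat.find_min h hia ⟨hi, h3⟩
      · have h0 : 0 < Nat.find h := Nat.pos_of_ne_zero fun h4 => ha' (by rw [h4])
        rcases Nat.lt_or_ge (Nat.find h + 1) i with h3 | h3
        · exact (hcl u 0 (Nat.find h) (Nat.find h + 1) i h0 (by omega) h3 hi (Ne.symm ha')).symm
        · have h4 : i = Nat.find h + 1 := by omega
          rw [h4]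
    · push Not at h
      exact ⟨n + 18, cl G v e u 0, 0, fun i hi _ => h i hi, fun i hi hia => by omega⟩
  rcases Nat.lt_or_ge a 9 with ha | ha
  · have ht := hb u 9 (by omega) t fun i hi hi' => h2 i (by omega) (by omega)
    refine ⟨n, t, t, ?_, fun i hi => ⟨fun _ => ?_, fun h3 => by omega⟩⟩
    · unfold Tp
      omega
    · rw [hsh]
      exact h2 _ (by omega) (by omega)
  · have hs := hb u 0 (by omega) s fun i _ hi' => h1 i (by omega) (by omega)
    rcases Nat.lt_or_ge (n + 8) a with ha' | ha'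
    · refine ⟨n, s, s, ?_, fun i hi => ⟨fun _ => ?_, fun h3 => by omega⟩⟩
      · unfold Tp
        omega
      · rw [hsh]
        exact h1 _ (by omega) (by omega)
    · have ht := hb u (a + 1) (by omega) t fun i hi hi' => h2 i (by omega) (by omega)
      have c : ∀ i, i < 9 → cl G v e u i = s := fun i hi => h1 i (by omega) (by omega)
      have d : ∀ i, 1 ≤ i → i ≤ 9 → cl G v e u (a + i) = t := fun i hi hi' => h2 _ (by omega) (by omega)
      refine ⟨a - 9, s, t, ?_, fun i hi => ⟨fun h3 => ?_, fun h3 => ?_⟩⟩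
      · have g1 : ¬ (s = 0 ∧ t = 1) := by
          rintro ⟨rfl, rfl⟩
          exact k3 hG F (i := 0) (j := 1) (k := a + 1) (by omega) (by omega) (by omega) (c 0 (by omega))
            (c 1 (by omega)) (d 1 (by omega) (by omega))
        have g2 : ¬ (s = 0 ∧ t = 2) := by
          rintro ⟨rfl, rfl⟩
          exact k5 hG F (i := 0) (j := 1) (k := 2) (l := a + 1) (by omega) (by omega) (by omega) (by omega)
            (c 0 (by omega)) (c 1 (by omega)) (c 2 (by omega)) (d 1 (by omega) (by omega))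
        have g3 : ¬ (s = 2 ∧ t = 1) := by
          rintro ⟨rfl, rfl⟩
          exact k7 hG F (i := 0) (j := a + 1) (k := a + 2) (by omega) (by omega) (by omega) (c 0 (by omega))
            (d 1 (by omega) (by omega)) (d 2 (by omega) (by omega))
        unfold Tp
        omega
      · rw [hsh]
        exact h1 _ (by omega) (by omega)
      · rw [hsh]
        exact h2 _ (by omega) (by omega)

end Pool.Agent.MPd439b2.RN.L
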