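import Pool.Agent.Lib.MP_d439b2_co.RN.TabS

/-!
# MP_d439b2_co, RN: tables for the cells and their mixers: T1 (helper32)
-/

set_option autoImplicit false

namespace Pool.Agent.MPd439b2.RN.Tb

open Pool.Agent.MPd439b2 Pool.Agent.MPd439b2.H1T

variable {V : Type}

/-! ### (a) -/

def t1al : List (List CertX × Tr) := [
    ([(true, [19, 35, 274, 275], [18, 34, 50, 51, 291], [[1], [11], [2], [3], [6], [7]]), (true, [0, 1, 48, 259,
     275], [16, 17, 49, 257], [[0], [3], [4], [5], [1], [9]]), (true, [0, 1, 2, 19, 274, 275], [16, 17, 18, 257,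
     258, 259, 291], [[0], [11, 5], [9], [8], [1], [10]]), (true, [0, 2, 51, 259, 275], [16, 18, 32, 48, 50, 257,
     258, 291], [[0], [7, 3], [4], [6], [1], [8]])], (Tr.bt 51 (Tr.lf 0) (Tr.bt 259 (Tr.lf 2) (Tr.bt 48 (Tr.lf 3)
     (Tr.lf 1)))))]

theorem t1ak : 
    ckHX 4 0 (pos ((256 + 16 * 1 + 2, true) :: (256 + 16 * 1 + 3, true) :: (256 + 16 * 2 + 3, false) :: 
      (16 * 3 + 1, false) :: (16 * 3 + 2, false) :: (16 * 1 + 3, true) :: (16 * 2 + 3, true) :: knK 2)) (neg ((256 + 16 * 1 + 2, true) :: (256 + 16 * 1 + 3, true) :: (256 + 16 * 2 + 3, false) :: 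
      (16 * 3 + 1, false) :: (16 * 3 + 2, false) :: (16 * 1 + 3, true) :: (16 * 2 + 3, true) :: knK 2))
      (sel t1al []).1 (sel t1al []).2 = true := by
  decide +kernel

/-- **T1 (a)**: a rail `w` with `w k` mixed on the edge `x k`, `y k`, not adjacent to the later letters, is not
complete to the earlier ones. -/
theorem tab1a {G : SimpleGraph V} (hH : FH G) (hJ : FJ 2 G) {x : ℕ → ℕ → V} {F : ℕ → Bool}
    (h : FT.HR G 4 16 x F) (hk : Kn 2 F) (xy : F (256 + 16 * 1 + 2) = true) (xw : F (256 + 16 * 1 + 3) = true)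
    (yw : F (256 + 16 * 2 + 3) = false)
    (h1 : F (16 * 3 + 1) = false) (h2 : F (16 * 3 + 2) = false) (h3 : F (16 * 1 + 3) = true)
    (h4 : F (16 * 2 + 3) = true) : False :=
  refuteK hH hJ (HRZ.of h) _ (mem_cs xy (mem_cs xw (mem_cs yw (mem_cs h1 (mem_cs h2 (mem_cs h3
    (mem_cs h4 hk.mem))))))) _ t1ak

/-! ### (b), `w` is a clique -/

def t1bwl : List (List CertX × Tr) := [
    ([(true, [49, 50, 274, 275], [17, 18, 19, 51, 291], [[9], [3], [10], [11], [1], [7]])], (Tr.lf 0)),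
    ([(false, [0, 2, 3, 19, 35, 48, 50, 259, 275], [16, 34, 51, 257, 291], [[0], [1], [4], [3], [7], [15, 10], [14,
     11]]), (true, [0, 1, 2, 3, 19, 274, 275], [16, 17, 18, 257, 258, 259, 291], [[0], [7], [5], [4], [1], [6]]),
     (false, [0, 1, 19, 48, 49, 259, 275], [3, 51, 257], [[0], [7], [3], [4], [11, 5], [8], [9]]), (true, [0, 1, 2,
     19, 49, 50, 259], [3, 16, 18, 32, 48, 51, 291], [[0], [5], [3], [12], [11], [10]]), (true, [0, 1, 2, 19, 35,
     274, 275], [3, 51, 257, 258, 259, 291], [[5], [0], [6], [7], [4], [11]]), (true, [0, 3, 35, 259], [32, 48, 51,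
     258, 291], [[0], [7], [4], [3], [2], [8]])], (Tr.bt 3 (Tr.bt 259 (Tr.lf 4) (Tr.bt 48 (Tr.lf 3) (Tr.lf 2)))
     (Tr.bt 259 (Tr.lf 1) (Tr.bt 48 (Tr.lf 5) (Tr.lf 0)))))]

theorem t1bwk : ∀ be : Bool, 
    ckHX 4 0 (pos ((256 + 16 * 1 + 2, true) :: (256 + 16 * 1 + 3, true) :: (256 + 16 * 2 + 3, false) :: 
      (16 * 3 + 1, true) :: (16 * 3 + 2, true) :: (16 * 1 + 3, be) :: (16 * 2 + 3, be) :: (16 * 3 + 3, false) :: knK 2)) (neg ((256 + 16 * 1 + 2, true) :: (256 + 16 * 1 + 3, true) :: (256 + 16 * 2 + 3, false) :: 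
      (16 * 3 + 1, true) :: (16 * 3 + 2, true) :: (16 * 1 + 3, be) :: (16 * 2 + 3, be) :: (16 * 3 + 3, false) :: knK 2))
      (sel t1bwl [be]).1 (sel t1bwl [be]).2 = true := by
  decide +kernel

/-! ### (b), `w` is complete to the earlier `v` -/

def t1bvl : List (List CertX × Tr) := [
    ([(true, [0, 1, 275], [3, 16, 17, 19, 257, 259], [[0], [9], [4], [5], [11], [8]]), (true, [0, 1, 2, 259], [3,
     16, 18, 19, 257, 258, 291], [[0], [8], [4], [5], [11], [10]])], (Tr.bt 259 (Tr.lf 0) (Tr.lf 1))),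
    ([(false, [0, 1, 19, 48, 49, 259, 275], [3, 257], [[0], [11], [4], [8], [15, 9], [12], [13]]), (true, [35, 48,
     49, 50, 51, 274, 275], [32, 33, 34, 257, 258, 259, 291], [[3], [7], [5], [4], [2], [6]]), (true, [0, 1, 2, 49],
     [3, 32, 33, 48, 257, 291], [[0], [13], [8], [6], [7], [12]]), (true, [0, 1, 2, 19, 35, 274, 275], [3, 51, 257,
     258, 259, 291], [[5], [0], [6], [7], [4], [11]])], (Tr.bt 48 (Tr.lf 2) (Tr.bt 259 (Tr.bt 51 (Tr.lf 3) (Tr.lf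
     1)) (Tr.lf 0))))]

theorem t1bvk : ∀ be : Bool, 
    ckHX 4 0 (pos ((256 + 16 * 1 + 2, true) :: (256 + 16 * 1 + 3, true) :: (256 + 16 * 2 + 3, false) :: 
      (16 * 3 + 1, true) :: (16 * 3 + 2, true) :: (16 * 1 + 3, be) :: (16 * 2 + 3, be) :: (3, false) :: knK 2)) (neg ((256 + 16 * 1 + 2, true) :: (256 + 16 * 1 + 3, true) :: (256 + 16 * 2 + 3, false) :: 
      (16 * 3 + 1, true) :: (16 * 3 + 2, true) :: (16 * 1 + 3, be) :: (16 * 2 + 3, be) :: (3, false) :: knK 2))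
      (sel t1bvl [be]).1 (sel t1bvl [be]).2 = true := by
  decide +kernel

/-! ### (b), `w` is complete to the later `v` -/

def t1bul : List (List CertX × Tr) := [
    ([(true, [49, 50, 51, 259, 274, 275], [16, 17, 18, 19, 48, 257, 258, 291], [[3], [7], [5], [1], [4], [6]]),
     (true, [1, 49, 51, 275], [16, 17, 19, 48, 257, 259], [[3], [9], [7], [1], [4], [5]]), (true, [49, 50, 274,
     275], [17, 18, 19, 51, 291], [[9], [3], [10], [11], [1], [7]])], (Tr.bt 51 (Tr.lf 2) (Tr.bt 259 (Tr.lf 1)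
     (Tr.lf 0)))),
    ([(true, [0, 1, 2, 49], [3, 32, 33, 48, 257, 258, 259, 291], [[0], [9], [4], [6], [7], [8]]), (true, [0, 1, 2,
     3, 19, 274, 275], [16, 17, 18, 257, 258, 259, 291], [[0], [7], [5], [4], [1], [6]]), (true, [19, 35, 50, 51,
     259, 274, 275], [16, 18, 32, 34, 48, 258, 291], [[7], [3], [1], [4], [6], [2]]), (true, [0, 1, 2, 49, 50, 259],
     [3, 32, 33, 48, 51, 257, 291], [[0], [9], [3], [8], [7], [6]]), (true, [0, 3, 35, 259], [32, 48, 51, 258, 291],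
     [[0], [7], [4], [3], [2], [8]])], (Tr.bt 259 (Tr.bt 3 (Tr.lf 0) (Tr.lf 1)) (Tr.bt 51 (Tr.bt 3 (Tr.lf 3) (Tr.lf
     4)) (Tr.lf 2))))]

theorem t1buk : ∀ be : Bool, 
    ckHX 4 0 (pos ((256 + 16 * 1 + 2, true) :: (256 + 16 * 1 + 3, true) :: (256 + 16 * 2 + 3, false) :: 
      (16 * 3 + 1, true) :: (16 * 3 + 2, true) :: (16 * 1 + 3, be) :: (16 * 2 + 3, be) :: (16 * 3, false) :: knK 2)) (neg ((256 + 16 * 1 + 2, true) :: (256 + 16 * 1 + 3, true) :: (256 + 16 * 2 + 3, false) :: 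
      (16 * 3 + 1, true) :: (16 * 3 + 2, true) :: (16 * 1 + 3, be) :: (16 * 2 + 3, be) :: (16 * 3, false) :: knK 2))
      (sel t1bul [be]).1 (sel t1bul [be]).2 = true := by
  decide +kernel

/-! ### (b), `w k` is adjacent to `v k` -/

def t1bdl : List (List CertX × Tr) := [
    ([(true, [0, 1, 275], [3, 16, 17, 19, 257, 259], [[0], [9], [4], [5], [11], [8]]), (false, [0, 1, 2, 3, 48, 49,
     50, 51, 274], [257, 258, 259], [[9], [8], [10], [0], [3], [4], [7]]), (true, [49, 50, 274, 275], [17, 18, 19,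
     51, 291], [[9], [3], [10], [11], [1], [7]]), (true, [1, 49, 51, 275], [16, 17, 19, 48, 257, 259], [[3], [9],
     [7], [1], [4], [5]])], (Tr.bt 3 (Tr.lf 0) (Tr.bt 51 (Tr.lf 2) (Tr.bt 48 (Tr.lf 3) (Tr.lf 1))))),
    ([(true, [0, 1, 2, 49], [3, 32, 33, 48, 257, 258, 259, 291], [[0], [9], [4], [6], [7], [8]]), (true, [0, 1, 2,
     3, 19, 274, 275], [16, 17, 18, 257, 258, 259, 291], [[0], [7], [5], [4], [1], [6]]), (true, [35, 48, 49, 50,
     51, 274, 275], [32, 33, 34, 257, 258, 259, 291], [[3], [7], [5], [4], [2], [6]]), (true, [0, 1, 2, 19, 35, 274,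
     275], [3, 51, 257, 258, 259, 291], [[5], [0], [6], [7], [4], [11]])], (Tr.bt 3 (Tr.bt 48 (Tr.lf 0) (Tr.bt 51
     (Tr.lf 3) (Tr.lf 2))) (Tr.lf 1)))]

theorem t1bdk : ∀ be : Bool, 
    ckHX 4 0 (pos ((256 + 16 * 1 + 2, true) :: (256 + 16 * 1 + 3, true) :: (256 + 16 * 2 + 3, false) :: 
      (16 * 3 + 1, true) :: (16 * 3 + 2, true) :: (16 * 1 + 3, be) :: (16 * 2 + 3, be) :: (256 + 3, false) :: knK 2)) (neg ((256 + 16 * 1 + 2, true) :: (256 + 16 * 1 + 3, true) :: (256 + 16 * 2 + 3, false) :: 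
      (16 * 3 + 1, true) :: (16 * 3 + 2, true) :: (16 * 1 + 3, be) :: (16 * 2 + 3, be) :: (256 + 3, false) :: knK 2))
      (sel t1bdl [be]).1 (sel t1bdl [be]).2 = true := by
  decide +kernel

/-- **T1 (b)**: a rail `w` with `w k` mixed on the edge `x k`, `y k`, complete to the later letters, is a clique and
complete to `v`. -/
theorem tab1b {G : SimpleGraph V} (hH : FH G) (hJ : FJ 2 G) {x : ℕ → ℕ → V} {F : ℕ → Bool}
    (h : FT.HR G 4 16 x F) (hk : Kn 2 F) (xy : F (256 + 16 * 1 + 2) = true) (xw : F (256 + 16 * 1 + 3) = true)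
    (yw : F (256 + 16 * 2 + 3) = false)
    (h1 : F (16 * 3 + 1) = true) (h2 : F (16 * 3 + 2) = true) (h3 : F (16 * 1 + 3) = F (16 * 2 + 3)) :
    F (17 * 3) = true ∧ F 3 = true ∧ F (16 * 3) = true ∧ F (256 + 3) = true := by
  have key : ∀ b, (∀ be, (∀ c ∈ (256 + 16 * 1 + 2, true) :: (256 + 16 * 1 + 3, true) ::
      (256 + 16 * 2 + 3, false) :: (16 * 3 + 1, true) :: (16 * 3 + 2, true) :: (16 * 1 + 3, be) ::
        (16 * 2 + 3, be) :: (b, false) :: knK 2, F c.1 = c.2) → False) → F b = true := by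
    intro b hb
    by_contra hcon
    rw [Bool.not_eq_true] at hcon
    exact hb _ (mem_cs xy (mem_cs xw (mem_cs yw (mem_cs h1 (mem_cs h2 (mem_cs h3 (mem_cs rfl
      (mem_cs hcon hk.mem))))))))
  refine ⟨key 51 fun be hb => ?_, key 3 fun be hb => ?_, key 48 fun be hb => ?_, key 259 fun be hb => ?_⟩
  · exact refuteK hH hJ (HRZ.of h) _ hb _ (t1bwk be)
  · exact refuteK hH hJ (HRZ.of h) _ hb _ (t1bvk be)
  · exact refuteK hH hJ (HRZ.of h) _ hb _ (t1buk be)
  · exact refuteK hH hJ (HRZ.of h) _ hb _ (t1bdk be)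

end Pool.Agent.MPd439b2.RN.Tb
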