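import Pool.Agent.Lib.MP_d439b2_co.RN.TabS

/-!
# MP_d439b2_co, RN: tables for the cells and their mixers: T2 and T3 (helper32)
-/

set_option autoImplicit false

namespace Pool.Agent.MPd439b2.RN.Tb

open Pool.Agent.MPd439b2 Pool.Agent.MPd439b2.H1T

variable {V : Type}

/-! ### T2, form E -/

def t2El : List (List CertX × Tr) := [
    ([(true, [20, 259, 260, 274, 291, 292, 308], [16, 17, 18, 19, 257, 258, 275, 276], [[9], [7], [8], [1], [6],
     [5]]), (true, [0, 1, 3, 4, 20, 259, 260], [16, 17, 19, 257, 275, 276, 308], [[0], [9], [5], [6], [1], [8]])],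
     (Tr.bt 308 (Tr.lf 1) (Tr.lf 0))),
    ([(true, [2, 4, 20, 36, 259, 274, 291], [16, 17, 18, 19, 34, 257, 275, 292], [[14], [8, 5], [7], [1], [12],
     [6]])], (Tr.lf 0)),
    ([(true, [1, 4, 20, 36, 259, 274, 275], [16, 17, 18, 19, 33, 258, 276, 291], [[14], [8, 5], [6], [1], [11],
     [7]])], (Tr.lf 0)),
    ([(true, [20, 259, 260, 274, 275, 276, 308], [16, 17, 18, 19, 257, 258, 291, 292], [[9], [6], [8], [1], [7],
     [5]]), (true, [0, 2, 3, 4, 20, 259, 260], [16, 18, 19, 257, 258, 291, 292, 308], [[0], [9], [5], [7], [1],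
     [8]])], (Tr.bt 308 (Tr.lf 1) (Tr.lf 0))),
    ([(true, [19, 259, 260, 274, 291, 292, 308], [16, 17, 18, 20, 257, 258, 275, 276], [[8], [7], [9], [1], [6],
     [5]]), (true, [0, 1, 3, 4, 19, 259, 260], [16, 17, 20, 257, 275, 276, 308], [[0], [8], [5], [6], [1], [9]])],
     (Tr.bt 308 (Tr.lf 1) (Tr.lf 0))),
    ([(true, [1, 3, 19, 35, 260, 274, 276], [16, 17, 18, 20, 33, 258, 275, 292], [[13], [9, 5], [6], [1], [11],
     [7]])], (Tr.lf 0)),
    ([(true, [2, 3, 19, 35, 260, 274, 292], [16, 17, 18, 20, 34, 257, 276, 291], [[13], [9, 5], [7], [1], [12],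
     [6]])], (Tr.lf 0)),
    ([(true, [19, 259, 260, 274, 275, 276, 308], [16, 17, 18, 20, 257, 258, 291, 292], [[8], [6], [9], [1], [7],
     [5]]), (true, [0, 2, 3, 4, 19, 259, 260], [16, 18, 20, 257, 258, 291, 292, 308], [[0], [8], [5], [7], [1],
     [9]])], (Tr.bt 308 (Tr.lf 1) (Tr.lf 0)))]

theorem t2Ek : ∀ h wc a : Bool, 
    ckHX 5 0 (pos (feK wc a ++ knK 2 ++ mrK 2 3 h ++ mrK 2 4 (!h))) (neg (feK wc a ++ knK 2 ++ mrK 2 3 h ++ mrK 2 4 (!h)))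
      (sel t2El [h, wc, a]).1 (sel t2El [h, wc, a]).2 = true := by
  decide +kernel

/-- **T2**, form E: no thick mixer together with a half one -/
theorem tab2E {G : SimpleGraph V} (hH : FH G) (hJ : FJ 2 G) {x : ℕ → ℕ → V} {F : ℕ → Bool}
    (hx : FT.HR G 5 16 x F) (hk : Kn 2 F) (hf : FmE F) {h : Bool} (hw : Mr 2 3 h F)
    (hu : Mr 2 4 (!h) F) : False := by
  obtain ⟨wc, a, ha⟩ := hf.mem
  exact refuteK hH hJ (HRZ.of hx) _ (mem_app (mem_app (mem_app ha hk.mem) hw.mem) hu.mem) _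
    (t2Ek h wc a)

/-! ### T2, form P -/

def t2Pl : List (List CertX × Tr) := [
    ([(true, [21, 260, 261, 274, 291, 292, 309, 325], [16, 17, 18, 19, 20, 257, 258, 259, 276, 277], [[11], [9, 8],
     [10], [1], [7], [6]]), (true, [0, 1, 4, 5, 21, 260, 261], [16, 17, 20, 257, 276, 277, 325], [[0], [11], [6],
     [7], [1], [10]])], (Tr.bt 325 (Tr.lf 1) (Tr.lf 0))),
    ([(true, [3, 5, 21, 37, 260, 274, 292], [16, 17, 18, 19, 20, 35, 257, 276, 309], [[17], [10, 6], [8], [1], [15],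
     [7]])], (Tr.lf 0)),
    ([(true, [21, 37, 65, 69, 274, 276], [17, 18, 20, 33, 277, 292], [[17], [10], [7], [1], [13], [8]]), (true, [21,
     37, 53, 274, 276, 291], [17, 18, 19, 20, 69, 275, 292, 308], [[17], [7], [8], [1], [10], [9]])], (Tr.bt 69
     (Tr.lf 1) (Tr.lf 0))),
    ([(true, [21, 274, 276, 277, 291, 293, 325], [17, 18, 19, 20, 275, 292, 308, 309], [[11], [8], [7], [1], [9],
     [10]]), (true, [0, 3, 4, 5, 21, 260, 261], [16, 19, 20, 257, 259, 308, 309, 325], [[0], [11], [6], [9], [1],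
     [10]])], (Tr.bt 325 (Tr.lf 1) (Tr.lf 0))),
    ([(true, [20, 274, 291, 292, 308, 309, 325], [17, 18, 19, 21, 275, 276, 277, 293], [[10], [8], [9], [1], [7],
     [11]]), (true, [0, 1, 4, 5, 20, 260, 261], [16, 17, 21, 257, 276, 277, 325], [[0], [10], [6], [7], [1],
     [11]])], (Tr.bt 325 (Tr.lf 1) (Tr.lf 0))),
    ([(true, [1, 4, 20, 36, 52, 261, 291, 293], [16, 17, 18, 19, 21, 33, 49, 259, 276, 309], [[16], [11, 6], [8],
     [1], [13], [9]])], (Tr.lf 0)),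
    ([(true, [20, 36, 52, 82, 84, 291, 309], [18, 19, 21, 34, 50, 292, 293], [[16], [11], [9], [1], [14], [8]]),
     (true, [20, 36, 52, 274, 291, 309], [17, 18, 19, 21, 84, 275, 277, 293], [[16], [9], [8], [1], [11], [7]])],
     (Tr.bt 84 (Tr.lf 1) (Tr.lf 0))),
    ([(true, [2, 4, 5, 36, 66, 68, 260], [34, 37, 69, 258, 292], [[0], [10], [4], [17], [2], [8]]), (true, [20, 260,
     261, 274, 276, 277, 291, 325], [16, 17, 18, 19, 21, 257, 258, 259, 308, 309], [[10], [8, 7], [11], [1], [9],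
     [6]]), (true, [0, 3, 4, 5, 20, 260, 261], [16, 19, 21, 257, 259, 308, 309, 325], [[0], [10], [6], [9], [1],
     [11]])], (Tr.bt 69 (Tr.lf 0) (Tr.bt 325 (Tr.lf 2) (Tr.lf 1))))]

theorem t2Pk : ∀ h a b : Bool, 
    ckHX 6 0 (pos (fpK a b ++ knK 3 ++ mrK 3 4 h ++ mrK 3 5 (!h))) (neg (fpK a b ++ knK 3 ++ mrK 3 4 h ++ mrK 3 5 (!h)))
      (sel t2Pl [h, a, b]).1 (sel t2Pl [h, a, b]).2 = true := by
  decide +kernel

/-- **T2**, form P: no thick mixer together with a half one -/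
theorem tab2P {G : SimpleGraph V} (hH : FH G) (hJ : FJ 2 G) {x : ℕ → ℕ → V} {F : ℕ → Bool}
    (hx : FT.HR G 6 16 x F) (hk : Kn 3 F) (hf : FmP F) {h : Bool} (hw : Mr 3 4 h F)
    (hu : Mr 3 5 (!h) F) : False := by
  obtain ⟨a, b, ha⟩ := hf.mem
  exact refuteK hH hJ (HRZ.of hx) _ (mem_app (mem_app (mem_app ha hk.mem) hw.mem) hu.mem) _
    (t2Pk h a b)

/-! ### T2, form D -/

def t2Dl : List (List CertX × Tr) := [
    ([(true, [4, 6, 22, 38, 261, 274, 277], [16, 17, 18, 20, 21, 36, 258, 293, 326], [[20], [12, 7], [8], [1], [18],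
     [9]])], (Tr.lf 0)),
    ([(true, [2, 5, 21, 53, 69, 262, 308, 310], [16, 18, 19, 20, 22, 50, 66, 260, 293, 326], [[19], [13, 7], [10],
     [1], [16], [11]])], (Tr.lf 0))]

theorem t2Dk : ∀ h : Bool, 
    ckHX 7 0 (pos (fdK ++ knK 4 ++ mrK 4 5 h ++ mrK 4 6 (!h))) (neg (fdK ++ knK 4 ++ mrK 4 5 h ++ mrK 4 6 (!h)))
      (sel t2Dl [h]).1 (sel t2Dl [h]).2 = true := by
  decide +kernel

/-- **T2**, form D: no thick mixer together with a half one -/
theorem tab2D {G : SimpleGraph V} (hH : FH G) (hJ : FJ 2 G) {x : ℕ → ℕ → V} {F : ℕ → Bool}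
    (hx : FT.HR G 7 16 x F) (hk : Kn 4 F) (hf : FmD F) {h : Bool} (hw : Mr 4 5 h F)
    (hu : Mr 4 6 (!h) F) : False := by
  have ha := hf.mem
  exact refuteK hH hJ (HRZ.of hx) _ (mem_app (mem_app (mem_app ha hk.mem) hw.mem) hu.mem) _
    (t2Dk h)

/-! ### T3, form E, the bit `16 * 3 + 4` -/

def t3Epl : List (List CertX × Tr) := [
    ([(true, [4, 48, 50, 51, 259, 291], [32, 34, 35, 36, 52, 258], [[3], [5], [8], [2], [14], [7]])], (Tr.lf 0)),
    ([(true, [4, 48, 50, 51, 259, 291], [32, 34, 35, 36, 52, 258], [[3], [5], [8], [2], [14], [7]])], (Tr.lf 0)),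
    ([(true, [4, 48, 49, 51, 259, 275], [16, 17, 19, 20, 52, 257], [[3], [5], [8], [1], [14], [6]])], (Tr.lf 0)),
    ([(true, [4, 48, 49, 51, 259, 275], [16, 17, 19, 20, 52, 257], [[3], [5], [8], [1], [14], [6]])], (Tr.lf 0)),
    ([(false, [1, 3, 4, 19, 20, 49, 51, 65, 68, 259], [52, 67, 257, 275], [[0], [1], [3], [8], [14, 6], [13], [11,
     9]]), (false, [0, 1, 3, 4, 20, 35, 36, 48, 49, 51, 68, 259, 260, 291, 308], [32, 52, 258, 275], [[0], [2], [5],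
     [3], [9], [8], [14, 6]]), (false, [0, 1, 3, 4, 20, 35, 36, 48, 49, 51, 64, 65, 67, 259, 260, 291, 292], [32,
     52, 258, 275, 308], [[0], [2], [5], [3], [4], [8], [14, 6]])], (Tr.bt 308 (Tr.bt 67 (Tr.lf 0) (Tr.lf 2)) (Tr.lf
     1))),
    ([(false, [3, 4, 19, 20, 49, 51, 65, 68, 259, 260, 276], [67, 257, 275], [[0], [1], [3], [8], [6, 4], [13], [11,
     9]]), (false, [1, 3, 4, 20, 35, 36, 49, 51, 65, 67, 68, 259, 260, 276, 291, 308], [52, 258, 275, 292], [[0],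
     [2], [4], [3], [9], [8], [14, 6]]), (false, [0, 3, 4, 19, 20, 35, 36, 48, 64, 67, 68, 259, 260, 274, 276, 291],
     [16, 257, 292, 308], [[0], [1], [5], [4], [3, 2], [8], [9]])], (Tr.bt 67 (Tr.lf 0) (Tr.bt 308 (Tr.lf 2) (Tr.lf
     1)))),
    ([(false, [3, 4, 19, 20, 49, 51, 65, 68, 259, 260, 275], [52, 257, 276], [[0], [1], [4], [9], [6, 3], [14], [11,
     8]])], (Tr.lf 0)),
    ([(false, [0, 2, 3, 4, 19, 20, 35, 48, 50, 64, 66, 68, 259, 260, 275, 276], [16, 34, 67, 257, 291, 292, 308],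
     [[0], [1], [5], [3], [4], [13, 7], [12, 9]]), (false, [0, 2, 3, 4, 19, 20, 36, 48, 50, 51, 68, 259, 260, 275,
     308], [16, 52, 257, 291], [[0], [1], [5], [3], [9], [8], [14, 7]]), (false, [0, 2, 3, 4, 19, 20, 36, 48, 50,
     51, 64, 66, 67, 259, 260, 275, 276], [16, 52, 257, 291, 308], [[0], [1], [5], [3], [4], [8], [14, 7]])], (Tr.bt
     308 (Tr.bt 67 (Tr.lf 0) (Tr.lf 2)) (Tr.lf 1)))]

theorem t3Epk : ∀ h wc a : Bool, 
    ckHX 5 0 (pos (feK wc a ++ knK 2 ++ mrK 2 3 h ++ mrK 2 4 h ++ [(16 * 3 + 4, false)])) (neg (feK wc a ++ knK 2 ++ mrK 2 3 h ++ mrK 2 4 h ++ [(16 * 3 + 4, false)]))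
      (sel t3Epl [h, wc, a]).1 (sel t3Epl [h, wc, a]).2 = true := by
  decide +kernel

/-! ### T3, form E, the bit `16 * 4 + 3` -/

def t3Eql : List (List CertX × Tr) := [
    ([(true, [3, 64, 66, 68, 260, 292], [32, 34, 35, 36, 67, 258], [[4], [5], [9], [2], [13], [7]])], (Tr.lf 0)),
    ([(true, [3, 64, 65, 68, 260, 276], [16, 17, 19, 20, 67, 257], [[4], [5], [9], [1], [13], [6]])], (Tr.lf 0)),
    ([(true, [3, 64, 66, 68, 260, 292], [32, 34, 35, 36, 67, 258], [[4], [5], [9], [2], [13], [7]])], (Tr.lf 0)),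
    ([(true, [3, 64, 65, 68, 260, 276], [16, 17, 19, 20, 67, 257], [[4], [5], [9], [1], [13], [6]])], (Tr.lf 0)),
    ([(false, [1, 3, 4, 19, 20, 49, 51, 65, 68, 259], [52, 67, 257, 275], [[0], [1], [3], [8], [14, 6], [13], [11,
     9]]), (false, [0, 1, 3, 4, 19, 35, 36, 51, 64, 65, 68, 259, 260, 292, 308], [32, 67, 258, 276], [[0], [2], [5],
     [4], [8], [9], [13, 6]]), (false, [0, 1, 3, 4, 19, 35, 36, 48, 49, 52, 64, 65, 68, 259, 260, 291, 292], [32,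
     67, 258, 276, 308], [[0], [2], [5], [3], [4], [9], [13, 6]])], (Tr.bt 308 (Tr.bt 52 (Tr.lf 0) (Tr.lf 2)) (Tr.lf
     1))),
    ([(false, [3, 4, 19, 20, 49, 51, 65, 68, 259, 260, 276], [67, 257, 275], [[0], [1], [3], [8], [6, 4], [13], [11,
     9]])], (Tr.lf 0)),
    ([(false, [3, 4, 19, 20, 49, 51, 65, 68, 259, 260, 275], [52, 257, 276], [[0], [1], [4], [9], [6, 3], [14], [11,
     8]]), (false, [1, 3, 4, 19, 35, 36, 49, 51, 52, 65, 68, 259, 260, 275, 292, 308], [67, 258, 276, 291], [[0],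
     [2], [3], [4], [8], [9], [13, 6]]), (false, [0, 3, 4, 19, 20, 35, 36, 48, 51, 52, 64, 259, 260, 274, 275, 292],
     [16, 257, 291, 308], [[0], [1], [5], [3], [4, 2], [8], [9]])], (Tr.bt 52 (Tr.lf 0) (Tr.bt 308 (Tr.lf 2) (Tr.lf
     1)))),
    ([(false, [0, 2, 3, 4, 19, 20, 35, 48, 50, 64, 66, 68, 259, 260, 275, 276], [16, 34, 67, 257, 291, 292, 308],
     [[0], [1], [5], [3], [4], [13, 7], [12, 9]]), (false, [0, 2, 3, 4, 19, 20, 35, 51, 64, 66, 68, 259, 260, 276,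
     308], [16, 67, 257, 292], [[0], [1], [5], [4], [8], [9], [13, 7]])], (Tr.bt 308 (Tr.lf 0) (Tr.lf 1)))]

theorem t3Eqk : ∀ h wc a : Bool, 
    ckHX 5 0 (pos (feK wc a ++ knK 2 ++ mrK 2 3 h ++ mrK 2 4 h ++ [(16 * 4 + 3, false)])) (neg (feK wc a ++ knK 2 ++ mrK 2 3 h ++ mrK 2 4 h ++ [(16 * 4 + 3, false)]))
      (sel t3Eql [h, wc, a]).1 (sel t3Eql [h, wc, a]).2 = true := by
  decide +kernel

/-! ### T3, form E, the bit `256 + 16 * 3 + 4` -/

def t3Edl : List (List CertX × Tr) := [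
    ([(true, [4, 48, 50, 51, 259, 291], [32, 34, 35, 36, 52, 258], [[3], [5], [8], [2], [14], [7]]), (false, [0, 48,
     50, 51, 52, 64, 66, 67, 68, 259, 260, 291, 292], [32, 258, 308], [[5], [7], [10], [3], [4], [8], [9]]), (true,
     [3, 64, 66, 68, 260, 292], [32, 34, 35, 36, 67, 258], [[4], [5], [9], [2], [13], [7]])], (Tr.bt 52 (Tr.lf 0)
     (Tr.bt 67 (Tr.lf 2) (Tr.lf 1)))),
    ([(true, [48, 50, 51, 259, 260, 291], [32, 34, 35, 36, 52, 258, 292, 308], [[3], [5], [8], [2], [9], [7]]),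
     (false, [48, 49, 51, 52, 64, 65, 67, 68, 259], [257, 275, 308], [[10], [11], [13], [3], [4], [8], [9]]), (true,
     [50, 51, 66, 291], [34, 35, 67, 292, 308], [[3], [7], [8], [2], [4], [13]])], (Tr.bt 52 (Tr.lf 0) (Tr.bt 67
     (Tr.lf 2) (Tr.lf 1)))),
    ([(true, [48, 49, 51, 259, 260, 275], [16, 17, 19, 20, 52, 257, 276, 308], [[3], [5], [8], [1], [9], [6]]),
     (false, [48, 49, 51, 52, 64, 65, 67, 68, 260], [257, 276, 308], [[10], [11], [14], [3], [4], [8], [9]]), (true,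
     [49, 51, 65, 275], [17, 19, 67, 276, 308], [[3], [6], [8], [1], [4], [13]])], (Tr.bt 52 (Tr.lf 0) (Tr.bt 67
     (Tr.lf 2) (Tr.lf 1)))),
    ([(true, [4, 48, 49, 51, 259, 275], [16, 17, 19, 20, 52, 257], [[3], [5], [8], [1], [14], [6]]), (false, [0, 48,
     49, 51, 52, 64, 65, 67, 68, 259, 260, 275, 276], [16, 257, 308], [[5], [6], [10], [3], [4], [8], [9]]), (true,
     [3, 64, 65, 68, 260, 276], [16, 17, 19, 20, 67, 257], [[4], [5], [9], [1], [13], [6]])], (Tr.bt 52 (Tr.lf 0)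
     (Tr.bt 67 (Tr.lf 2) (Tr.lf 1)))),
    ([(false, [1, 3, 4, 19, 20, 49, 51, 65, 68, 259], [52, 67, 257, 275], [[0], [1], [3], [8], [14, 6], [13], [11,
     9]]), (false, [3, 4, 19, 20, 51, 52, 67, 68, 259], [257, 275, 308], [[0], [1], [3], [8], [9], [13], [14]]),
     (false, [0, 1, 3, 4, 20, 35, 36, 48, 49, 51, 64, 65, 67, 259, 260, 291, 292], [32, 52, 258, 275, 308], [[0],
     [2], [5], [3], [4], [8], [14, 6]]), (false, [0, 1, 3, 4, 19, 35, 36, 48, 49, 52, 64, 65, 68, 259, 260, 291,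
     292], [32, 67, 258, 276, 308], [[0], [2], [5], [3], [4], [9], [13, 6]])], (Tr.bt 52 (Tr.bt 67 (Tr.lf 0) (Tr.lf
     2)) (Tr.bt 67 (Tr.lf 3) (Tr.lf 1)))),
    ([(false, [3, 4, 19, 20, 49, 51, 65, 68, 259, 260, 276], [67, 257, 275], [[0], [1], [3], [8], [6, 4], [13], [11,
     9]]), (false, [0, 3, 4, 19, 20, 35, 36, 48, 64, 67, 68, 259, 260, 274, 276, 291], [16, 257, 292, 308], [[0],
     [1], [5], [4], [3, 2], [8], [9]])], (Tr.bt 67 (Tr.lf 0) (Tr.lf 1))),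
    ([(false, [3, 4, 19, 20, 49, 51, 65, 68, 259, 260, 275], [52, 257, 276], [[0], [1], [4], [9], [6, 3], [14], [11,
     8]]), (false, [0, 3, 4, 19, 20, 35, 36, 48, 51, 52, 64, 259, 260, 274, 275, 292], [16, 257, 291, 308], [[0],
     [1], [5], [3], [4, 2], [8], [9]])], (Tr.bt 52 (Tr.lf 0) (Tr.lf 1))),
    ([(false, [0, 2, 3, 4, 19, 20, 35, 48, 50, 64, 66, 68, 259, 260, 275, 276], [16, 34, 67, 257, 291, 292, 308],
     [[0], [1], [5], [3], [4], [13, 7], [12, 9]]), (false, [0, 3, 4, 19, 20, 48, 51, 52, 64, 67, 68, 259, 260, 275,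
     276], [16, 257, 308], [[0], [1], [5], [3], [4], [8], [9]]), (false, [0, 2, 3, 4, 19, 20, 36, 48, 50, 51, 64,
     66, 67, 259, 260, 275, 276], [16, 52, 257, 291, 308], [[0], [1], [5], [3], [4], [8], [14, 7]])], (Tr.bt 67
     (Tr.lf 0) (Tr.bt 52 (Tr.lf 2) (Tr.lf 1))))]

theorem t3Edk : ∀ h wc a : Bool, 
    ckHX 5 0 (pos (feK wc a ++ knK 2 ++ mrK 2 3 h ++ mrK 2 4 h ++ [(256 + 16 * 3 + 4, false)])) (neg (feK wc a ++ knK 2 ++ mrK 2 3 h ++ mrK 2 4 h ++ [(256 + 16 * 3 + 4, false)]))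
      (sel t3Edl [h, wc, a]).1 (sel t3Edl [h, wc, a]).2 = true := by
  decide +kernel


/-- **T3**, form E: two mixers of the same kind are complete to each other -/
theorem tab3E {G : SimpleGraph V} (hH : FH G) (hJ : FJ 2 G) {x : ℕ → ℕ → V} {F : ℕ → Bool}
    (hx : FT.HR G 5 16 x F) (hk : Kn 2 F) (hf : FmE F) {h : Bool} (hw : Mr 2 3 h F)
    (hu : Mr 2 4 h F) : WU 3 4 F := by
  obtain ⟨wc, a, ha⟩ := hf.mem
  have key : ∀ n : ℕ, ((∀ c ∈ feK wc a ++ knK 2 ++ mrK 2 3 h ++ mrK 2 4 h ++ [(n, false)],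
      F c.1 = c.2) → False) → F n = true := by
    intro n hb
    by_contra hcon
    rw [Bool.not_eq_true] at hcon
    exact hb (mem_app (mem_app (mem_app (mem_app ha hk.mem) hw.mem) hu.mem) (mem_cs hcon mem_nl))
  refine ⟨key _ fun hb => ?_, key _ fun hb => ?_, key _ fun hb => ?_⟩
  · exact refuteK hH hJ (HRZ.of hx) _ hb _ (t3Epk h wc a)
  · exact refuteK hH hJ (HRZ.of hx) _ hb _ (t3Eqk h wc a)
  · exact refuteK hH hJ (HRZ.of hx) _ hb _ (t3Edk h wc a)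

/-! ### T3, form P, the bit `16 * 4 + 5` -/

def t3Ppl : List (List CertX × Tr) := [
    ([(true, [5, 64, 66, 68, 260, 292], [32, 34, 36, 37, 69, 258], [[4], [6], [10], [2], [17], [8]])], (Tr.lf 0)),
    ([(true, [5, 64, 66, 68, 260, 292], [32, 34, 36, 37, 69, 258], [[4], [6], [10], [2], [17], [8]])], (Tr.lf 0)),
    ([(true, [5, 64, 65, 68, 260, 276], [16, 17, 20, 21, 69, 257], [[4], [6], [10], [1], [17], [7]])], (Tr.lf 0)),
    ([(true, [5, 64, 65, 68, 260, 276], [16, 17, 20, 21, 69, 257], [[4], [6], [10], [1], [17], [7]])], (Tr.lf 0)),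
    ([(false, [1, 4, 5, 20, 21, 65, 68, 81, 85, 260], [69, 84, 257, 276], [[0], [1], [4], [10], [17, 7], [16], [13,
     11]]), (false, [1, 4, 5, 21, 36, 37, 65, 68, 81, 84, 85, 260, 261, 292, 325], [69, 258, 276, 293], [[0], [2],
     [5], [4], [11], [10], [17, 7]]), (false, [2, 4, 5, 20, 21, 36, 37, 82, 84, 85, 261, 292], [257, 277, 293, 325],
     [[0], [1], [5], [11], [10, 8], [16], [17]])], (Tr.bt 84 (Tr.lf 0) (Tr.bt 325 (Tr.lf 2) (Tr.lf 1)))),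
    ([(false, [4, 5, 20, 21, 65, 68, 81, 85, 260, 261, 277], [84, 257, 276], [[0], [1], [4], [10], [7, 5], [16],
     [13, 11]]), (false, [0, 1, 4, 5, 21, 36, 37, 64, 65, 68, 260, 261, 277, 292, 325], [32, 69, 258, 276], [[0],
     [2], [6], [4], [11], [10], [17, 7]]), (false, [0, 1, 4, 5, 20, 21, 65, 68, 81, 84, 260, 261, 277], [16, 257,
     276, 325], [[0], [1], [6], [10], [11], [16], [17, 13]])], (Tr.bt 325 (Tr.bt 84 (Tr.lf 0) (Tr.lf 2)) (Tr.lf 1))),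
    ([(false, [4, 5, 20, 21, 65, 68, 81, 85, 260, 261, 276], [69, 257, 277], [[0], [1], [5], [11], [7, 4], [17],
     [13, 10]])], (Tr.lf 0)),
    ([(false, [0, 2, 4, 5, 20, 21, 37, 64, 66, 67, 68, 80, 82, 83, 260, 261, 276, 277], [16, 35, 69, 257, 292, 309,
     325], [[0], [1], [6], [4], [5], [17, 8], [15, 10]]), (false, [0, 2, 4, 5, 20, 21, 37, 64, 66, 68, 260, 261,
     276, 293, 325], [16, 69, 257, 292], [[0], [1], [6], [4], [11], [10], [17, 8]])], (Tr.bt 325 (Tr.lf 0) (Tr.lf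
     1)))]

theorem t3Ppk : ∀ h a b : Bool, 
    ckHX 6 0 (pos (fpK a b ++ knK 3 ++ mrK 3 4 h ++ mrK 3 5 h ++ [(16 * 4 + 5, false)])) (neg (fpK a b ++ knK 3 ++ mrK 3 4 h ++ mrK 3 5 h ++ [(16 * 4 + 5, false)]))
      (sel t3Ppl [h, a, b]).1 (sel t3Ppl [h, a, b]).2 = true := by
  decide +kernel

/-! ### T3, form P, the bit `16 * 5 + 4` -/

def t3Pql : List (List CertX × Tr) := [
    ([(true, [68, 274, 291, 292, 308, 309, 325], [20, 36, 52, 84, 275, 276, 277, 293], [[4], [2], [3], [10], [1],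
     [5]]), (true, [66, 68, 82, 292], [34, 36, 84, 293, 325], [[4], [8], [10], [2], [5], [16]])], (Tr.bt 325 (Tr.lf
     1) (Tr.lf 0))),
    ([(true, [4, 68, 260, 261, 277, 308, 325], [20, 52, 84, 257, 259, 275, 276, 309], [[4], [5], [0], [3], [1],
     [10]]), (true, [66, 68, 82, 292, 308], [36, 50, 52, 84, 309, 325], [[4], [8], [10], [3], [5], [16]])], (Tr.bt
     325 (Tr.lf 1) (Tr.lf 0))),
    ([(true, [4, 68, 260, 261, 276, 309, 325], [20, 52, 84, 257, 259, 275, 277, 308], [[4], [5], [0], [1], [3],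
     [10]]), (true, [65, 68, 81, 276], [17, 20, 84, 277, 325], [[4], [7], [10], [1], [5], [16]])], (Tr.bt 325 (Tr.lf
     1) (Tr.lf 0))),
    ([(true, [4, 80, 81, 85, 261, 277], [16, 17, 20, 21, 84, 257], [[5], [6], [11], [1], [16], [7]])], (Tr.lf 0)),
    ([(false, [1, 4, 5, 20, 21, 65, 68, 81, 85, 260], [69, 84, 257, 276], [[0], [1], [4], [10], [17, 7], [16], [13,
     11]]), (false, [0, 1, 4, 5, 20, 52, 53, 68, 80, 81, 85, 260, 261, 309, 325], [48, 84, 259, 277], [[0], [3],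
     [6], [5], [10], [11], [16, 7]]), (false, [2, 4, 5, 20, 21, 66, 68, 69, 82, 85, 260, 292], [257, 276, 293, 325],
     [[0], [1], [4], [10], [11], [17], [16, 14]])], (Tr.bt 325 (Tr.bt 69 (Tr.lf 0) (Tr.lf 2)) (Tr.lf 1))),
    ([(false, [4, 5, 20, 21, 65, 68, 81, 85, 260, 261, 277], [84, 257, 276], [[0], [1], [4], [10], [7, 5], [16],
     [13, 11]])], (Tr.lf 0)),
    ([(false, [4, 5, 20, 21, 65, 68, 81, 85, 260, 261, 276], [69, 257, 277], [[0], [1], [5], [11], [7, 4], [17],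
     [13, 10]]), (false, [1, 4, 5, 20, 52, 53, 65, 68, 69, 81, 85, 260, 261, 276, 309, 325], [84, 259, 277, 308],
     [[0], [3], [4], [5], [10], [11], [16, 7]]), (false, [0, 1, 4, 5, 20, 21, 65, 69, 81, 85, 260, 261, 276], [16,
     257, 277, 325], [[0], [1], [6], [10], [11], [17], [16, 13]])], (Tr.bt 69 (Tr.lf 0) (Tr.bt 325 (Tr.lf 2) (Tr.lf
     1)))),
    ([(false, [0, 2, 4, 5, 20, 21, 37, 64, 66, 67, 68, 80, 82, 83, 260, 261, 276, 277], [16, 35, 69, 257, 292, 309,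
     325], [[0], [1], [6], [4], [5], [17, 8], [15, 10]]), (false, [0, 3, 4, 5, 20, 21, 52, 68, 80, 83, 85, 260, 261,
     277, 325], [16, 84, 257, 309], [[0], [1], [6], [5], [10], [11], [16, 9]]), (false, [0, 3, 4, 5, 20, 21, 52, 64,
     67, 69, 80, 83, 85, 260, 261, 276, 277], [16, 84, 257, 309, 325], [[0], [1], [6], [4], [5], [11], [16, 9]])],
     (Tr.bt 325 (Tr.bt 69 (Tr.lf 0) (Tr.lf 2)) (Tr.lf 1)))]

theorem t3Pqk : ∀ h a b : Bool, 
    ckHX 6 0 (pos (fpK a b ++ knK 3 ++ mrK 3 4 h ++ mrK 3 5 h ++ [(16 * 5 + 4, false)])) (neg (fpK a b ++ knK 3 ++ mrK 3 4 h ++ mrK 3 5 h ++ [(16 * 5 + 4, false)]))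
      (sel t3Pql [h, a, b]).1 (sel t3Pql [h, a, b]).2 = true := by
  decide +kernel

/-! ### T3, form P, the bit `256 + 16 * 4 + 5` -/

def t3Pdl : List (List CertX × Tr) := [
    ([(true, [64, 66, 68, 260, 261, 292], [32, 34, 36, 37, 69, 258, 293, 325], [[4], [6], [10], [2], [11], [8]]),
     (false, [0, 64, 67, 68, 69, 80, 83, 84, 85, 260, 261, 308, 309], [48, 259, 325], [[6], [9], [12], [4], [5],
     [10], [11]]), (true, [66, 68, 82, 292], [34, 36, 84, 293, 325], [[4], [8], [10], [2], [5], [16]])], (Tr.bt 69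
     (Tr.lf 0) (Tr.bt 84 (Tr.lf 2) (Tr.lf 1)))),
    ([(true, [64, 67, 68, 260, 261, 292, 308], [32, 35, 36, 37, 69, 259, 309, 325], [[4], [6], [10], [2], [11],
     [9]]), (false, [0, 64, 66, 68, 69, 80, 82, 84, 85, 260, 261, 292, 293], [32, 258, 325], [[6], [8], [12], [4],
     [5], [10], [11]]), (true, [66, 68, 82, 292, 308], [36, 50, 52, 84, 309, 325], [[4], [8], [10], [3], [5],
     [16]])], (Tr.bt 69 (Tr.lf 0) (Tr.bt 84 (Tr.lf 2) (Tr.lf 1)))),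
    ([(true, [64, 65, 68, 260, 261, 276], [16, 17, 20, 21, 69, 257, 277, 325], [[4], [6], [10], [1], [11], [7]]),
     (false, [64, 65, 68, 69, 80, 81, 84, 85, 261], [257, 277, 325], [[12], [13], [17], [4], [5], [10], [11]]),
     (true, [65, 68, 81, 276], [17, 20, 84, 277, 325], [[4], [7], [10], [1], [5], [16]])], (Tr.bt 69 (Tr.lf 0)
     (Tr.bt 84 (Tr.lf 2) (Tr.lf 1)))),
    ([(true, [5, 64, 65, 68, 260, 276], [16, 17, 20, 21, 69, 257], [[4], [6], [10], [1], [17], [7]]), (false, [0,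
     64, 65, 68, 69, 80, 81, 84, 85, 260, 261, 276, 277], [16, 257, 325], [[6], [7], [12], [4], [5], [10], [11]]),
     (true, [80, 82, 85, 260, 261, 277, 293], [16, 18, 20, 21, 84, 258, 292, 325], [[5], [6], [11], [1], [10],
     [8]])], (Tr.bt 69 (Tr.lf 0) (Tr.bt 84 (Tr.lf 2) (Tr.lf 1)))),
    ([(false, [1, 4, 5, 20, 21, 65, 68, 81, 85, 260], [69, 84, 257, 276], [[0], [1], [4], [10], [17, 7], [16], [13,
     11]]), (false, [2, 4, 5, 20, 21, 36, 37, 82, 84, 85, 261, 292], [257, 277, 293, 325], [[0], [1], [5], [11],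
     [10, 8], [16], [17]]), (false, [2, 4, 5, 20, 21, 66, 68, 69, 82, 85, 260, 292], [257, 276, 293, 325], [[0],
     [1], [4], [10], [11], [17], [16, 14]])], (Tr.bt 69 (Tr.bt 84 (Tr.lf 0) (Tr.lf 1)) (Tr.lf 2))),
    ([(false, [4, 5, 20, 21, 65, 68, 81, 85, 260, 261, 277], [84, 257, 276], [[0], [1], [4], [10], [7, 5], [16],
     [13, 11]]), (false, [0, 1, 4, 5, 20, 21, 65, 68, 81, 84, 260, 261, 277], [16, 257, 276, 325], [[0], [1], [6],
     [10], [11], [16], [17, 13]])], (Tr.bt 84 (Tr.lf 0) (Tr.lf 1))),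
    ([(false, [4, 5, 20, 21, 65, 68, 81, 85, 260, 261, 276], [69, 257, 277], [[0], [1], [5], [11], [7, 4], [17],
     [13, 10]]), (false, [0, 1, 4, 5, 20, 21, 65, 69, 81, 85, 260, 261, 276], [16, 257, 277, 325], [[0], [1], [6],
     [10], [11], [17], [16, 13]])], (Tr.bt 69 (Tr.lf 0) (Tr.lf 1))),
    ([(false, [0, 2, 4, 5, 20, 21, 37, 64, 66, 67, 68, 80, 82, 83, 260, 261, 276, 277], [16, 35, 69, 257, 292, 309,
     325], [[0], [1], [6], [4], [5], [17, 8], [15, 10]]), (false, [0, 4, 5, 20, 21, 64, 68, 69, 80, 84, 85, 260,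
     261, 276, 277], [16, 257, 325], [[0], [1], [6], [4], [5], [10], [11]]), (false, [0, 3, 4, 5, 20, 21, 52, 64,
     67, 69, 80, 83, 85, 260, 261, 276, 277], [16, 84, 257, 309, 325], [[0], [1], [6], [4], [5], [11], [16, 9]])],
     (Tr.bt 69 (Tr.lf 0) (Tr.bt 84 (Tr.lf 2) (Tr.lf 1))))]

theorem t3Pdk : ∀ h a b : Bool, 
    ckHX 6 0 (pos (fpK a b ++ knK 3 ++ mrK 3 4 h ++ mrK 3 5 h ++ [(256 + 16 * 4 + 5, false)])) (neg (fpK a b ++ knK 3 ++ mrK 3 4 h ++ mrK 3 5 h ++ [(256 + 16 * 4 + 5, false)]))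
      (sel t3Pdl [h, a, b]).1 (sel t3Pdl [h, a, b]).2 = true := by
  decide +kernel


/-- **T3**, form P: two mixers of the same kind are complete to each other -/
theorem tab3P {G : SimpleGraph V} (hH : FH G) (hJ : FJ 2 G) {x : ℕ → ℕ → V} {F : ℕ → Bool}
    (hx : FT.HR G 6 16 x F) (hk : Kn 3 F) (hf : FmP F) {h : Bool} (hw : Mr 3 4 h F)
    (hu : Mr 3 5 h F) : WU 4 5 F := by
  obtain ⟨a, b, ha⟩ := hf.mem
  have key : ∀ n : ℕ, ((∀ c ∈ fpK a b ++ knK 3 ++ mrK 3 4 h ++ mrK 3 5 h ++ [(n, false)],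
      F c.1 = c.2) → False) → F n = true := by
    intro n hb
    by_contra hcon
    rw [Bool.not_eq_true] at hcon
    exact hb (mem_app (mem_app (mem_app (mem_app ha hk.mem) hw.mem) hu.mem) (mem_cs hcon mem_nl))
  refine ⟨key _ fun hb => ?_, key _ fun hb => ?_, key _ fun hb => ?_⟩
  · exact refuteK hH hJ (HRZ.of hx) _ hb _ (t3Ppk h a b)
  · exact refuteK hH hJ (HRZ.of hx) _ hb _ (t3Pqk h a b)
  · exact refuteK hH hJ (HRZ.of hx) _ hb _ (t3Pdk h a b)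

/-! ### T3, form D, the bit `16 * 5 + 6` -/

def t3Dpl : List (List CertX × Tr) := [
    ([(true, [6, 80, 81, 85, 261, 277], [16, 17, 21, 22, 86, 257], [[5], [7], [12], [1], [20], [8]])], (Tr.lf 0)),
    ([(false, [0, 2, 5, 6, 21, 22, 38, 80, 82, 85, 102, 261, 262, 277, 342], [16, 86, 257, 293], [[0], [1], [7],
     [5], [13], [12], [20, 9]]), (false, [0, 2, 5, 6, 21, 22, 38, 80, 82, 84, 85, 96, 98, 100, 261, 262, 277, 278],
     [16, 36, 86, 257, 293, 326, 342], [[0], [1], [7], [5], [6], [20, 9], [18, 12]]), (false, [5, 6, 21, 22, 81, 85,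
     97, 102, 261, 262, 277], [86, 257, 278], [[0], [1], [6], [13], [8, 5], [20], [15, 12]])], (Tr.bt 342 (Tr.bt 278
     (Tr.lf 2) (Tr.lf 1)) (Tr.lf 0)))]

theorem t3Dpk : ∀ h : Bool, 
    ckHX 7 0 (pos (fdK ++ knK 4 ++ mrK 4 5 h ++ mrK 4 6 h ++ [(16 * 5 + 6, false)])) (neg (fdK ++ knK 4 ++ mrK 4 5 h ++ mrK 4 6 h ++ [(16 * 5 + 6, false)]))
      (sel t3Dpl [h]).1 (sel t3Dpl [h]).2 = true := by
  decide +kernel

/-! ### T3, form D, the bit `16 * 6 + 5` -/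

def t3Dql : List (List CertX × Tr) := [
    ([(true, [5, 96, 99, 102, 262, 310], [48, 51, 53, 54, 101, 259], [[6], [7], [13], [3], [19], [10]])], (Tr.lf 0)),
    ([(false, [0, 4, 5, 6, 21, 22, 69, 85, 96, 100, 102, 261, 262, 278, 342], [16, 101, 257, 326], [[0], [1], [7],
     [6], [12], [13], [19, 11]]), (false, [0, 4, 5, 6, 21, 22, 69, 80, 84, 86, 96, 100, 102, 261, 262, 277, 278],
     [16, 101, 257, 326, 342], [[0], [1], [7], [5], [6], [13], [19, 11]]), (false, [0, 1, 5, 6, 21, 22, 81, 86, 97,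
     102, 261, 262, 277], [16, 257, 278, 342], [[0], [1], [7], [12], [13], [20], [19, 15]]), (false, [0, 2, 5, 6,
     21, 22, 38, 80, 82, 84, 85, 96, 98, 100, 261, 262, 277, 278], [16, 36, 86, 257, 293, 326, 342], [[0], [1], [7],
     [5], [6], [20, 9], [18, 12]]), (false, [5, 6, 21, 22, 81, 85, 97, 102, 261, 262, 277], [86, 257, 278], [[0],
     [1], [6], [13], [8, 5], [20], [15, 12]]), (false, [0, 1, 5, 6, 21, 53, 54, 96, 97, 102, 261, 262, 277, 310,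
     342], [48, 101, 259, 278], [[0], [3], [7], [6], [12], [13], [19, 8]])], (Tr.bt 278 (Tr.bt 86 (Tr.lf 4) (Tr.bt
     342 (Tr.lf 2) (Tr.lf 5))) (Tr.bt 342 (Tr.bt 86 (Tr.lf 3) (Tr.lf 1)) (Tr.lf 0))))]

theorem t3Dqk : ∀ h : Bool, 
    ckHX 7 0 (pos (fdK ++ knK 4 ++ mrK 4 5 h ++ mrK 4 6 h ++ [(16 * 6 + 5, false)])) (neg (fdK ++ knK 4 ++ mrK 4 5 h ++ mrK 4 6 h ++ [(16 * 6 + 5, false)]))
      (sel t3Dql [h]).1 (sel t3Dql [h]).2 = true := by
  decide +kernel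

/-! ### T3, form D, the bit `256 + 16 * 5 + 6` -/

def t3Ddl : List (List CertX × Tr) := [
    ([(false, [0, 80, 81, 85, 86, 96, 97, 101, 102, 261, 262, 277, 278], [16, 257, 342], [[7], [8], [14], [5], [6],
     [12], [13]]), (true, [6, 80, 81, 85, 261, 277], [16, 17, 21, 22, 86, 257], [[5], [7], [12], [1], [20], [8]]),
     (true, [81, 85, 97, 277], [17, 21, 101, 278, 342], [[5], [8], [12], [1], [6], [19]]), (true, [5, 96, 97, 102,
     262, 278], [16, 17, 21, 22, 101, 257], [[6], [7], [13], [1], [19], [8]]), (false, [80, 81, 85, 86, 96, 97, 101,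
     102, 262], [257, 278, 342], [[14], [15], [20], [5], [6], [12], [13]])], (Tr.bt 86 (Tr.lf 1) (Tr.bt 101 (Tr.bt
     278 (Tr.lf 2) (Tr.lf 3)) (Tr.bt 278 (Tr.lf 4) (Tr.lf 0))))),
    ([(false, [0, 5, 6, 21, 22, 80, 85, 86, 96, 101, 102, 261, 262, 277, 278], [16, 257, 342], [[0], [1], [7], [5],
     [6], [12], [13]]), (false, [0, 2, 5, 6, 21, 22, 37, 80, 82, 96, 98, 102, 261, 262, 277, 278], [16, 34, 101,
     257, 293, 294, 342], [[0], [1], [7], [5], [6], [19, 9], [16, 13]]), (false, [0, 5, 6, 21, 22, 37, 38, 80, 85,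
     86, 96, 261, 262, 274, 277, 294], [16, 257, 293, 342], [[0], [1], [7], [5], [6, 2], [12], [13]]), (false, [0,
     1, 5, 6, 21, 22, 81, 86, 97, 102, 261, 262, 277], [16, 257, 278, 342], [[0], [1], [7], [12], [13], [20], [19,
     15]]), (false, [5, 6, 21, 22, 81, 85, 97, 102, 261, 262, 277], [86, 257, 278], [[0], [1], [6], [13], [8, 5],
     [20], [15, 12]]), (false, [0, 2, 5, 6, 21, 22, 38, 80, 82, 84, 85, 96, 98, 100, 261, 262, 277, 278], [16, 36,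
     86, 257, 293, 326, 342], [[0], [1], [7], [5], [6], [20, 9], [18, 12]])], (Tr.bt 86 (Tr.bt 278 (Tr.lf 4) (Tr.lf
     5)) (Tr.bt 294 (Tr.bt 278 (Tr.lf 3) (Tr.bt 101 (Tr.lf 1) (Tr.lf 0))) (Tr.lf 2))))]

theorem t3Ddk : ∀ h : Bool, 
    ckHX 7 0 (pos (fdK ++ knK 4 ++ mrK 4 5 h ++ mrK 4 6 h ++ [(256 + 16 * 5 + 6, false)])) (neg (fdK ++ knK 4 ++ mrK 4 5 h ++ mrK 4 6 h ++ [(256 + 16 * 5 + 6, false)]))
      (sel t3Ddl [h]).1 (sel t3Ddl [h]).2 = true := by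
  decide +kernel


/-- **T3**, form D: two mixers of the same kind are complete to each other -/
theorem tab3D {G : SimpleGraph V} (hH : FH G) (hJ : FJ 2 G) {x : ℕ → ℕ → V} {F : ℕ → Bool}
    (hx : FT.HR G 7 16 x F) (hk : Kn 4 F) (hf : FmD F) {h : Bool} (hw : Mr 4 5 h F)
    (hu : Mr 4 6 h F) : WU 5 6 F := by
  have ha := hf.mem
  have key : ∀ n : ℕ, ((∀ c ∈ fdK ++ knK 4 ++ mrK 4 5 h ++ mrK 4 6 h ++ [(n, false)],
      F c.1 = c.2) → False) → F n = true := by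
    intro n hb
    by_contra hcon
    rw [Bool.not_eq_true] at hcon
    exact hb (mem_app (mem_app (mem_app (mem_app ha hk.mem) hw.mem) hu.mem) (mem_cs hcon mem_nl))
  refine ⟨key _ fun hb => ?_, key _ fun hb => ?_, key _ fun hb => ?_⟩
  · exact refuteK hH hJ (HRZ.of hx) _ hb _ (t3Dpk h)
  · exact refuteK hH hJ (HRZ.of hx) _ hb _ (t3Dqk h)
  · exact refuteK hH hJ (HRZ.of hx) _ hb _ (t3Ddk h)


end Pool.Agent.MPd439b2.RN.Tb
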