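import Pool.Agent.Lib.MP_d439b2_co.RN.TabS

/-!
# MP_d439b2_co, RN: tables for the cells and their mixers: T4, form D (helper32)
-/

set_option autoImplicit false

namespace Pool.Agent.MPd439b2.RN.Tb

open Pool.Agent.MPd439b2 Pool.Agent.MPd439b2.H1T

variable {V : Type}

def t4Dl : List (List CertX × Tr) := [
    ([(true, [2, 5, 37, 82, 85, 261, 263], [34, 114, 117, 258, 293, 295, 343], [[0], [13], [5], [7], [2], [10]]),
     (true, [1, 2, 5, 7, 21, 274, 277], [17, 18, 23, 257, 279, 293, 295, 343], [[0], [13], [9], [15], [1], [10]]),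
     (true, [2, 5, 37, 82, 85, 87, 261], [7, 34, 39, 258, 293, 295, 343], [[5], [13], [0], [15], [2], [10]]), (true,
     [2, 5, 69, 98, 101, 103, 262], [7, 66, 71, 260, 293, 295, 326, 343], [[6], [13], [0], [15], [4], [10]]), (true,
     [21, 37, 82, 85, 117, 274, 277], [18, 34, 114, 279, 293, 295, 343], [[13], [5], [1], [7], [10], [2]]), (true,
     [2, 5, 69, 98, 101, 262, 359], [66, 114, 117, 260, 263, 293, 326, 327], [[6], [13], [0], [7], [4], [10]])],
     (Tr.bt 7 (Tr.bt 87 (Tr.bt 103 (Tr.bt 117 (Tr.bt 263 (Tr.lf 5) (Tr.lf 0)) (Tr.lf 4)) (Tr.lf 3)) (Tr.lf 2))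
     (Tr.lf 1))),
    ([(true, [3, 4, 6, 7, 22, 308, 310], [19, 20, 23, 257, 311, 326, 327, 359], [[0], [14], [11], [15], [1], [12]]),
     (true, [4, 6, 38, 84, 86, 87, 261], [7, 36, 39, 258, 293, 326, 327, 359], [[5], [14], [0], [15], [2], [12]]),
     (true, [21, 37, 82, 85, 274, 277, 343], [18, 23, 34, 39, 87, 293, 295], [[13], [5], [1], [15], [10], [2]])],
     (Tr.bt 7 (Tr.bt 87 (Tr.lf 2) (Tr.lf 1)) (Tr.lf 0))),
    ([], Tr.lf 0),
    ([], Tr.lf 0),
    ([(true, [2, 5, 37, 82, 85, 261, 263], [34, 114, 117, 258, 293, 295, 343], [[0], [13], [5], [7], [2], [10]]),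
     (true, [21, 37, 82, 85, 117, 274, 277], [18, 34, 114, 279, 293, 295, 343], [[13], [5], [1], [7], [10], [2]]),
     (true, [2, 5, 69, 98, 101, 262, 359], [66, 114, 117, 260, 263, 293, 326, 327], [[6], [13], [0], [7], [4],
     [10]])], (Tr.bt 117 (Tr.bt 263 (Tr.lf 2) (Tr.lf 0)) (Tr.lf 1))),
    ([(true, [0, 1, 4, 6, 22, 23, 262], [7, 16, 20, 260, 263, 326, 327, 359], [[0], [9], [22], [20], [23], [16]]),
     (true, [2, 5, 69, 98, 101, 262, 263], [66, 114, 117, 260, 293, 326, 327, 359], [[0], [13], [6], [7], [4],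
     [10]]), (true, [0, 1, 7, 23, 112], [16, 17, 257, 263, 279], [[0], [15], [16], [9], [1], [8]]), (true, [0, 2, 5,
     7, 119, 261, 343], [112, 114, 117, 258, 263, 293, 295], [[0], [15], [13], [10], [7], [8]]), (true, [4, 6, 38,
     84, 86, 261, 343], [36, 116, 118, 258, 263, 293, 295, 326], [[5], [14], [0], [7], [2], [12]]), (true, [3, 4, 6,
     7, 118, 308, 310], [115, 116, 119, 263, 311, 326, 327, 359], [[0], [14], [11], [15], [7], [12]]), (true, [53,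
     69, 98, 101, 117, 308, 310], [50, 66, 114, 293, 311, 326, 327, 359], [[13], [6], [3], [7], [10], [4]])], (Tr.bt
     117 (Tr.bt 263 (Tr.bt 7 (Tr.lf 0) (Tr.bt 112 (Tr.bt 119 (Tr.bt 118 (Tr.lf 4) (Tr.lf 5)) (Tr.lf 3)) (Tr.lf 2)))
     (Tr.lf 1)) (Tr.lf 6))),
    ([(true, [0, 1, 80, 81, 261, 263, 279], [7, 16, 87, 112, 113, 119, 343], [[0], [9], [5], [7], [15], [16]]),
     (true, [0, 1, 5, 117, 261, 277, 279], [7, 112, 113, 119, 257, 263, 343], [[13], [9], [0], [7], [15], [8]]),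
     (false, [21, 23, 37, 39, 85, 87, 117, 119, 274, 277, 279], [17, 33, 343], [[1], [9], [2], [13], [15], [21],
     [23]]), (false, [2, 4, 5, 6, 69, 71, 82, 84, 85, 86, 98, 101, 117, 119, 261, 295, 327, 359], [7, 87, 293, 326,
     343], [[0], [15], [5], [12], [14], [21], [23, 18]]), (true, [23, 80, 81, 87, 277, 279], [16, 17, 112, 113, 119,
     343], [[5], [1], [15], [16], [7], [9]]), (true, [0, 7, 80, 117, 261, 263], [87, 112, 119, 343], [[8], [13],
     [16], [15], [7], [23]]), (true, [21, 80, 82, 85, 261, 277, 279], [16, 18, 112, 114, 117, 258, 293, 343], [[5],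
     [1], [13], [10], [7], [8]]), (true, [0, 5, 7, 117, 261], [87, 112, 119, 263, 343], [[0], [13], [8], [15], [7],
     [23]]), (false, [1, 2, 5, 7, 21, 23, 81, 82, 85, 117, 119, 261, 277, 279, 295], [17, 87, 257, 293, 343], [[0],
     [1], [9], [5], [15], [21], [23, 18]]), (true, [1, 96, 97, 112, 327, 359], [17, 64, 65, 113, 257, 326], [[6],
     [7], [8], [9], [4], [17]])], (Tr.bt 112 (Tr.bt 117 (Tr.lf 6) (Tr.bt 119 (Tr.bt 87 (Tr.bt 7 (Tr.bt 263 (Tr.lf 1)
     (Tr.lf 0)) (Tr.bt 263 (Tr.lf 7) (Tr.lf 5))) (Tr.lf 4)) (Tr.bt 87 (Tr.bt 7 (Tr.lf 3) (Tr.lf 8)) (Tr.lf 2))))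
     (Tr.lf 9))),
    ([(false, [1, 2, 5, 6, 22, 23, 38, 39, 86, 87, 102, 103, 274, 277, 294, 342], [7, 278, 293, 359], [[0], [23],
     [22], [9], [14], [10], [13]]), (true, [0, 1, 96, 97, 262, 263, 279], [7, 16, 103, 112, 113, 119, 359], [[0],
     [9], [6], [7], [15], [16]]), (true, [21, 23, 117, 261, 279, 295, 343], [16, 18, 112, 114, 119, 258, 263, 293],
     [[13], [15], [1], [8], [10], [7]]), (false, [22, 23, 38, 39, 102, 103, 118, 119, 274], [278, 294, 359], [[1],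
     [6], [2], [14], [15], [22], [23]]), (false, [21, 22, 23, 101, 102, 103, 117, 118, 119, 279, 342, 343], [87,
     278, 359], [[1], [6], [7], [13], [23], [14], [15]]), (true, [0, 1, 4, 6, 22, 262, 279], [7, 16, 20, 112, 116,
     118, 260, 326], [[0], [9], [22], [20], [15], [16]]), (false, [22, 23, 38, 39, 102, 103, 118, 119, 274, 278,
     279], [17, 33, 359], [[1], [9], [2], [14], [15], [22], [23]]), (false, [2, 4, 5, 6, 38, 39, 84, 86, 98, 100,
     101, 102, 118, 119, 262, 295, 327, 343], [7, 103, 293, 326, 359], [[0], [15], [6], [10], [13], [22], [23,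
     20]]), (true, [53, 96, 98, 101, 261, 310, 311], [48, 50, 112, 114, 117, 258, 293, 359], [[6], [3], [13], [10],
     [7], [8]]), (true, [22, 96, 100, 102, 262, 278, 279], [16, 20, 112, 116, 118, 260, 326, 359], [[6], [1], [14],
     [12], [7], [8]]), (true, [0, 7, 96, 118, 262, 263], [103, 112, 119, 359], [[8], [14], [16], [15], [7], [23]]),
     (true, [54, 96, 97, 102, 262, 310, 311], [48, 49, 112, 113, 118, 257, 278, 359], [[6], [3], [14], [9], [7],
     [8]]), (true, [55, 96, 97, 103, 279, 310, 311], [16, 48, 49, 112, 113, 119, 359], [[6], [3], [15], [16], [7],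
     [9]]), (false, [1, 4, 6, 7, 22, 23, 97, 100, 102, 118, 119, 262, 278, 279, 327], [17, 103, 257, 326, 359],
     [[0], [1], [9], [6], [15], [22], [23, 20]]), (false, [1, 3, 6, 7, 22, 23, 54, 55, 97, 102, 118, 119, 279, 310,
     311], [19, 257, 278, 359], [[0], [1], [11], [14], [15], [22], [23, 17]]), (true, [1, 80, 81, 112, 295, 343],
     [17, 32, 33, 113, 257, 293], [[5], [7], [8], [9], [2], [17]])], (Tr.bt 112 (Tr.bt 117 (Tr.lf 8) (Tr.bt 118
     (Tr.bt 7 (Tr.lf 5) (Tr.bt 278 (Tr.lf 11) (Tr.lf 9))) (Tr.bt 119 (Tr.bt 263 (Tr.lf 2) (Tr.bt 103 (Tr.bt 7 (Tr.lf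
     1) (Tr.lf 10)) (Tr.lf 12))) (Tr.bt 103 (Tr.bt 7 (Tr.lf 7) (Tr.bt 278 (Tr.lf 14) (Tr.lf 13))) (Tr.bt 278 (Tr.bt
     87 (Tr.lf 4) (Tr.bt 7 (Tr.bt 294 (Tr.lf 3) (Tr.lf 0)) (Tr.lf 14))) (Tr.lf 6)))))) (Tr.lf 15))),
    ([(true, [0, 1, 263], [7, 16, 17, 23, 257, 279], [[0], [16], [8], [9], [23], [17]]), (true, [2, 5, 37, 82, 85,
     87, 261], [7, 34, 39, 258, 293, 295, 343], [[5], [13], [0], [15], [2], [10]]), (true, [0, 1, 113], [7, 16, 17,
     112, 257, 263, 279], [[0], [17], [8], [9], [15], [16]]), (true, [0, 1, 80, 81, 112, 261, 277], [7, 16, 17, 23,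
     87, 257, 279], [[5], [16], [0], [1], [15], [9]]), (true, [1, 2, 5, 7, 21, 274, 277], [17, 18, 23, 257, 279,
     293, 295, 343], [[0], [13], [9], [15], [1], [10]])], (Tr.bt 7 (Tr.bt 263 (Tr.bt 87 (Tr.bt 112 (Tr.lf 2) (Tr.lf
     3)) (Tr.lf 1)) (Tr.lf 0)) (Tr.lf 4))),
    ([(true, [0, 1, 263], [7, 16, 17, 23, 257, 279], [[0], [16], [8], [9], [23], [17]]), (true, [4, 6, 38, 84, 86,
     87, 261], [7, 36, 39, 258, 293, 326, 327, 359], [[5], [14], [0], [15], [2], [12]]), (true, [0, 1, 113], [7, 16,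
     17, 112, 257, 263, 279], [[0], [17], [8], [9], [15], [16]]), (true, [0, 1, 80, 81, 112, 261, 277], [7, 16, 17,
     23, 87, 257, 279], [[5], [16], [0], [1], [15], [9]]), (true, [3, 4, 6, 7, 22, 308, 310], [19, 20, 23, 257, 311,
     326, 327, 359], [[0], [14], [11], [15], [1], [12]])], (Tr.bt 7 (Tr.bt 263 (Tr.bt 87 (Tr.bt 112 (Tr.lf 2) (Tr.lf
     3)) (Tr.lf 1)) (Tr.lf 0)) (Tr.lf 4))),
    ([(false, [0, 80, 81, 85, 87, 112, 113, 117, 119, 261, 263, 277, 279], [16, 257, 343], [[8], [9], [16], [5],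
     [7], [13], [15]]), (true, [2, 5, 7, 37, 82, 85, 261], [34, 39, 87, 258, 293], [[0], [13], [5], [23], [2],
     [10]]), (true, [0, 1, 279], [7, 16, 17, 23, 257, 263], [[0], [17], [8], [9], [23], [16]]), (true, [0, 2, 5, 21,
     80, 87, 263], [7, 16, 18, 23, 32, 39, 257, 293], [[13], [0], [16], [1], [10], [23]]), (true, [1, 7, 113, 263,
     279], [17, 23, 119, 257], [[0], [7], [9], [23], [1], [15]]), (true, [1, 113, 119, 279], [16, 17, 23, 112, 257,
     263], [[7], [17], [15], [1], [8], [9]]), (true, [113, 119, 263, 279], [16, 17, 23, 112], [[7], [23], [15], [1],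
     [16], [9]]), (false, [21, 80, 81, 85, 87, 112, 113, 119, 261, 263, 277, 279], [23, 117, 257, 343], [[5], [7],
     [13], [16], [17], [23], [21, 1]]), (true, [96, 97, 103, 113, 279, 327, 359], [64, 65, 71, 112, 119, 257, 263,
     326], [[6], [7], [9], [8], [4], [15]]), (true, [7, 96, 103, 112, 327, 359], [64, 71, 119, 263, 326], [[6], [7],
     [8], [15], [4], [23]]), (true, [0, 22, 96, 112, 262, 327, 359], [16, 20, 23, 64, 260, 263, 326], [[14], [15],
     [16], [1], [12], [8]]), (true, [4, 6, 7, 70, 100, 102, 262], [68, 71, 103, 260, 326], [[0], [14], [6], [23],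
     [4], [12]]), (true, [0, 1, 80, 81, 261, 263, 277], [7, 16, 17, 23, 87, 257], [[5], [16], [0], [1], [23],
     [9]])], (Tr.bt 7 (Tr.bt 263 (Tr.lf 2) (Tr.bt 87 (Tr.lf 12) (Tr.lf 3))) (Tr.bt 87 (Tr.lf 1) (Tr.bt 103 (Tr.lf
     11) (Tr.bt 119 (Tr.bt 263 (Tr.bt 112 (Tr.lf 8) (Tr.lf 9)) (Tr.lf 4)) (Tr.bt 112 (Tr.bt 263 (Tr.lf 5) (Tr.lf 6))
     (Tr.bt 263 (Tr.lf 10) (Tr.bt 117 (Tr.lf 7) (Tr.lf 0))))))))),
    ([(true, [2, 5, 7, 37, 82, 85, 261], [34, 39, 87, 258, 293], [[0], [13], [5], [23], [2], [10]]), (false, [0, 96,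
     99, 102, 103, 112, 115, 118, 119, 262, 263, 310, 311], [48, 259, 359], [[8], [11], [16], [6], [7], [14],
     [15]]), (true, [0, 1, 279], [7, 16, 17, 23, 257, 263], [[0], [17], [8], [9], [23], [16]]), (true, [0, 2, 5, 21,
     80, 87, 263], [7, 16, 18, 23, 32, 39, 257, 293], [[13], [0], [16], [1], [10], [23]]), (true, [80, 81, 87, 113,
     279, 295, 343], [32, 33, 39, 112, 119, 257, 263, 293], [[5], [7], [9], [8], [2], [15]]), (true, [1, 113, 119,
     279], [16, 17, 23, 112, 257, 263], [[7], [17], [15], [1], [8], [9]]), (true, [1, 7, 113, 263, 279], [17, 23,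
     119, 257], [[0], [7], [9], [23], [1], [15]]), (true, [0, 21, 80, 112, 261, 295, 343], [16, 18, 23, 32, 258,
     263, 293], [[13], [15], [16], [1], [10], [8]]), (false, [22, 96, 99, 102, 103, 112, 115, 119, 262, 263, 279,
     310, 311], [23, 118, 259, 359], [[6], [7], [14], [16], [19], [23], [22, 1]]), (true, [113, 119, 263, 279], [16,
     17, 23, 112], [[7], [23], [15], [1], [16], [9]]), (true, [4, 6, 7, 70, 100, 102, 262], [68, 71, 103, 260, 326],
     [[0], [14], [6], [23], [4], [12]]), (true, [0, 1, 80, 81, 261, 263, 277], [7, 16, 17, 23, 87, 257], [[5], [16],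
     [0], [1], [23], [9]])], (Tr.bt 7 (Tr.bt 263 (Tr.lf 2) (Tr.bt 87 (Tr.lf 11) (Tr.lf 3))) (Tr.bt 87 (Tr.lf 0)
     (Tr.bt 103 (Tr.lf 10) (Tr.bt 263 (Tr.bt 112 (Tr.bt 119 (Tr.lf 4) (Tr.lf 5)) (Tr.lf 7)) (Tr.bt 119 (Tr.lf 6)
     (Tr.bt 112 (Tr.lf 9) (Tr.bt 118 (Tr.lf 8) (Tr.lf 1))))))))),
    ([(true, [0, 1, 2, 5, 21, 23, 261], [7, 16, 18, 258, 263, 293, 295, 343], [[0], [9], [21], [18], [23], [16]]),
     (false, [0, 1, 2, 23, 39, 80, 81, 82, 112, 113, 114, 263, 274], [7, 16, 32, 257, 343], [[17], [24], [18], [5],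
     [7], [8], [31, 9]]), (true, [0, 1, 2, 5, 21, 23, 80], [7, 16, 18, 32, 112, 293, 295, 343], [[0], [9], [21],
     [18], [23], [24]]), (true, [0, 1, 7, 23, 113], [16, 17, 257, 263, 279], [[0], [15], [17], [9], [1], [8]]),
     (true, [0, 1, 7, 23, 113, 119, 263], [16, 17, 112, 257, 279], [[0], [15], [7], [16], [1], [9]]), (true, [37,
     39, 82, 85, 117], [87, 119, 293, 295, 343], [[21], [10], [5], [15], [23], [13]]), (true, [0, 7, 23, 263], [16,
     112, 119, 257, 279], [[0], [15], [8], [7], [1], [16]]), (true, [21, 23, 39, 82, 85, 114, 277], [87, 117, 119,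
     279, 293, 295, 343], [[1], [23, 10], [5], [15], [7], [13]]), (false, [0, 1, 5, 7, 21, 23, 81, 87, 113, 261,
     263], [16, 17, 119, 257, 279, 343], [[0], [1], [8], [13], [15], [31, 17], [25, 23]]), (false, [5, 7, 21, 23,
     81, 85, 113, 119, 261, 263, 277], [87, 257, 279], [[0], [1], [7], [15], [9, 5], [23], [17, 13]]), (false, [0,
     1, 5, 7, 21, 23, 81, 87, 113, 119, 261, 263, 277], [16, 257, 279, 343], [[0], [1], [8], [13], [15], [23], [21,
     17]])], (Tr.bt 7 (Tr.bt 112 (Tr.lf 2) (Tr.bt 263 (Tr.lf 0) (Tr.lf 1))) (Tr.bt 263 (Tr.lf 3) (Tr.bt 119 (Tr.bt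
     112 (Tr.lf 6) (Tr.bt 87 (Tr.bt 117 (Tr.lf 7) (Tr.lf 5)) (Tr.lf 8))) (Tr.bt 112 (Tr.lf 4) (Tr.bt 87 (Tr.lf 9)
     (Tr.lf 10))))))),
    ([(false, [6, 7, 22, 23, 102, 103, 118, 119, 263], [257, 279, 359], [[0], [1], [7], [14], [15], [22], [23]]),
     (true, [0, 1, 4, 6, 22, 23, 262], [7, 16, 20, 260, 263, 326, 327, 359], [[0], [9], [22], [20], [23], [16]]),
     (false, [0, 1, 2, 23, 39, 96, 97, 98, 112, 113, 114, 263, 274], [7, 16, 32, 257, 359], [[17], [24], [18], [6],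
     [7], [8], [31, 9]]), (true, [0, 1, 4, 6, 22, 23, 96], [7, 16, 20, 64, 112, 326, 327, 359], [[0], [9], [22],
     [20], [23], [24]]), (true, [0, 1, 7, 23, 113], [16, 17, 257, 263, 279], [[0], [15], [17], [9], [1], [8]]),
     (false, [6, 7, 22, 23, 97, 102, 113, 119, 262, 263, 278], [103, 257, 279], [[0], [1], [7], [15], [9, 6], [23],
     [17, 14]]), (true, [22, 23, 71, 100, 102, 116, 278], [103, 118, 119, 279, 326, 327, 359], [[1], [23, 12], [6],
     [15], [7], [14]]), (true, [22, 23, 102, 113], [103, 118, 119, 278, 279, 359], [[1], [23, 9], [22], [15], [7],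
     [14]]), (true, [0, 1, 7, 23, 113, 119, 263], [16, 17, 112, 257, 279], [[0], [15], [7], [16], [1], [9]]),
     (false, [1, 6, 7, 22, 23, 97, 102, 113, 119, 262], [103, 118, 257, 278], [[0], [1], [6], [14], [23, 9], [22],
     [17, 15]]), (false, [0, 1, 6, 7, 22, 23, 97, 103, 113, 119, 262, 263, 278], [16, 257, 279, 359], [[0], [1],
     [8], [14], [15], [23], [22, 17]]), (false, [1, 6, 7, 22, 23, 97, 102, 103, 113, 119, 262], [118, 257, 278, 279,
     359], [[0], [1], [6], [14], [15], [23], [30, 17]]), (true, [70, 71, 100, 102, 118], [103, 119, 326, 327, 359],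
     [[22], [12], [6], [15], [23], [14]]), (false, [1, 6, 7, 22, 23, 97, 102, 113, 118, 119, 263], [103, 257, 278,
     279, 359], [[0], [1], [7], [14], [15], [22], [31, 17]]), (false, [0, 1, 6, 7, 22, 23, 97, 103, 113, 262, 263],
     [16, 17, 119, 257, 279, 359], [[0], [1], [8], [14], [15], [31, 17], [25, 23]])], (Tr.bt 7 (Tr.bt 112 (Tr.lf 3)
     (Tr.bt 263 (Tr.lf 1) (Tr.lf 2))) (Tr.bt 263 (Tr.lf 4) (Tr.bt 119 (Tr.bt 103 (Tr.bt 118 (Tr.bt 278 (Tr.lf 7)
     (Tr.lf 6)) (Tr.lf 12)) (Tr.lf 14)) (Tr.bt 112 (Tr.lf 8) (Tr.bt 103 (Tr.bt 278 (Tr.bt 118 (Tr.lf 9) (Tr.lf 13))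
     (Tr.lf 5)) (Tr.bt 118 (Tr.bt 278 (Tr.lf 11) (Tr.lf 10)) (Tr.lf 0)))))))),
    ([(false, [2, 5, 21, 23, 82, 85, 98, 101, 114, 117, 261, 262, 263, 277, 279, 295, 342, 359], [257, 278, 293,
     343], [[0], [1], [6], [5], [7], [13], [15, 10]]), (false, [0, 2, 5, 21, 23, 80, 82, 85, 112, 114, 117, 261,
     263, 277, 279, 295], [16, 257, 293, 343], [[0], [1], [8], [5], [7], [13], [15, 10]]), (false, [1, 2, 5, 21, 23,
     37, 82, 85, 113, 114, 277, 279, 295], [17, 117, 257, 293], [[0], [1], [9], [13], [10, 7], [21], [18, 15]]),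
     (true, [0, 5, 117, 261, 263], [7, 112, 119, 343], [[21], [16], [0], [15], [23], [7]]), (false, [0, 2, 5, 7, 21,
     23, 82, 85, 114, 117, 261, 263, 295], [16, 257, 293, 343], [[0], [1], [8], [13], [15], [21], [23, 18]]),
     (false, [1, 2, 5, 81, 82, 85, 113, 114, 117, 261, 274, 277, 295], [17, 263, 293, 343], [[0], [7], [5], [9],
     [17], [13], [15, 10]]), (false, [0, 2, 5, 82, 85, 114, 117, 119, 261, 263], [7, 112, 293, 343], [[0], [15],
     [13], [7], [8], [18], [21]])], (Tr.bt 117 (Tr.lf 2) (Tr.bt 263 (Tr.lf 5) (Tr.bt 278 (Tr.lf 0) (Tr.bt 112 (Tr.bt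
     7 (Tr.bt 119 (Tr.lf 3) (Tr.lf 6)) (Tr.lf 4)) (Tr.lf 1)))))),
    ([(false, [0, 1, 6, 54, 55, 96, 97, 102, 112, 113, 118, 262, 263, 279, 310, 311], [48, 259, 278, 359], [[0],
     [3], [8], [6], [7], [14], [15, 9]]), (false, [1, 6, 22, 23, 97, 102, 113, 262, 279], [118, 257, 278], [[0],
     [1], [6], [14], [9, 7], [22], [17, 15]]), (false, [1, 4, 6, 7, 22, 23, 100, 102, 116, 118, 278, 279, 327], [17,
     257, 326, 359], [[0], [1], [9], [14], [15], [22], [23, 20]]), (false, [1, 4, 6, 22, 23, 70, 100, 102, 113, 116,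
     278, 279, 327], [17, 118, 257, 326], [[0], [1], [9], [14], [12, 7], [22], [20, 15]]), (false, [0, 4, 6, 22, 23,
     96, 100, 102, 112, 116, 118, 262, 263, 278, 279, 327], [16, 257, 326, 359], [[0], [1], [8], [6], [7], [14],
     [15, 12]]), (false, [1, 4, 6, 22, 23, 70, 71, 97, 100, 102, 113, 116, 118, 262, 327], [263, 276, 326, 359],
     [[0], [7], [6], [9], [12], [22], [23, 20]]), (true, [0, 6, 118, 262, 263], [7, 112, 119, 359], [[22], [16],
     [0], [15], [23], [7]]), (false, [1, 4, 6, 97, 100, 102, 113, 116, 118, 262, 276, 278, 327], [17, 263, 326,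
     359], [[0], [7], [6], [9], [17], [14], [15, 12]]), (false, [1, 6, 22, 23, 97, 102, 113, 118, 262, 279], [263,
     278, 359], [[0], [7], [6], [9], [14], [22], [23, 17]]), (false, [0, 1, 6, 97, 102, 113, 118, 119, 262, 263],
     [7, 112, 278, 359], [[0], [15], [14], [7], [8], [17], [22]]), (false, [1, 3, 6, 7, 22, 23, 54, 55, 97, 102,
     113, 118, 279, 310, 311], [19, 257, 278, 359], [[0], [1], [11], [14], [15], [22], [23, 17]]), (false, [0, 4, 6,
     100, 102, 116, 118, 119, 262, 263], [7, 112, 326, 359], [[0], [15], [14], [7], [8], [20], [22]])], (Tr.bt 118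
     (Tr.bt 278 (Tr.lf 1) (Tr.lf 3)) (Tr.bt 263 (Tr.bt 276 (Tr.lf 5) (Tr.bt 278 (Tr.lf 8) (Tr.lf 7))) (Tr.bt 278
     (Tr.bt 112 (Tr.bt 7 (Tr.bt 119 (Tr.lf 6) (Tr.lf 9)) (Tr.lf 10)) (Tr.lf 0)) (Tr.bt 7 (Tr.bt 112 (Tr.bt 119
     (Tr.lf 6) (Tr.lf 11)) (Tr.lf 4)) (Tr.lf 2))))))]

theorem t4Dk : ∀ al be e zw : Bool, (!e || al || be) = true →
    ckHX 8 0 (pos (fdK ++ knK 4 ++ mrK 4 5 true ++ mrK 4 6 true ++ wuK 5 6 ++
      zkK 4 7 al be e ++ [(256 + 16 * 5 + 7, zw), (256 + 16 * 6 + 7, !zw)])) (neg (fdK ++ knK 4 ++ mrK 4 5 true ++ mrK 4 6 true ++ wuK 5 6 ++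
      zkK 4 7 al be e ++ [(256 + 16 * 5 + 7, zw), (256 + 16 * 6 + 7, !zw)]))
      (sel t4Dl [al, be, e, zw]).1 (sel t4Dl [al, be, e, zw]).2 = true := by
  decide +kernel

/-- **T4**, form D: two thick mixers with different bits on an outer rail `z = 7` -/
theorem tab4D {G : SimpleGraph V} (hH : FH G) (hJ : FJ 2 G) {x : ℕ → ℕ → V} {F : ℕ → Bool}
    (hx : FT.HR G 8 16 x F) (hk : Kn 4 F) (hf : FmD F) (hw : Mr 4 5 true F) (hu : Mr 4 6 true F)
    (hwu : WU 5 6 F) {al be e : Bool} (hz : ZK 4 7 al be e F) (he : e = true → al = true ∨ be = true)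
    (hd : F (256 + 16 * 5 + 7) = !F (256 + 16 * 6 + 7)) : False := by
  have ha := hf.mem
  refine refuteK hH hJ (HRZ.of hx) _ (mem_app (mem_app (mem_app (mem_app (mem_app (mem_app ha hk.mem) hw.mem)
    hu.mem) hwu.mem) hz.mem) (mem_cs rfl (mem_cs (?_ : F (256 + 16 * 6 + 7) = !F (256 + 16 * 5 + 7)) mem_nl)))
    _ (t4Dk al be e _ ?_)
  · rw [hd, Bool.not_not]
  · rcases e with _ | _
    · rfl
    · rcases he rfl with rfl | rfl
      · rfl
      · simp

end Pool.Agent.MPd439b2.RN.Tb
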