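import Pool.Agent.Lib.MP_d439b2_co.RN.TabS

/-!
# MP_d439b2_co, RN: tables for the cells and their mixers: T4, form E (helper32)
-/

set_option autoImplicit false

namespace Pool.Agent.MPd439b2.RN.Tb

open Pool.Agent.MPd439b2 Pool.Agent.MPd439b2.H1T

variable {V : Type}

def t4El : List (List CertX × Tr) := [
    ([(true, [259, 260, 274, 291, 292, 308, 325], [257, 258, 261, 275, 276, 277, 293, 309], [[4], [2], [3], [5],
     [1], [0]]), (true, [0, 1, 3, 5, 19, 259, 261], [16, 17, 21, 257, 275, 277, 309], [[0], [9], [6], [7], [1],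
     [11]]), (true, [0, 1, 261], [5, 16, 17, 21, 257, 277], [[0], [12], [6], [7], [17], [13]])], (Tr.bt 261 (Tr.lf
     0) (Tr.bt 5 (Tr.lf 2) (Tr.lf 1)))),
    ([(true, [1, 3, 35, 65, 67, 260, 325], [33, 81, 83, 258, 261, 275, 292, 293], [[4], [9], [0], [5], [2], [7]]),
     (true, [1, 3, 19, 49, 51, 259, 261], [17, 81, 83, 257, 275, 277, 309], [[0], [9], [3], [5], [1], [7]]), (true,
     [19, 35, 49, 51, 83, 274, 291], [17, 33, 81, 275, 277, 293, 309], [[9], [3], [2], [5], [7], [1]])], (Tr.bt 83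
     (Tr.bt 261 (Tr.lf 0) (Tr.lf 1)) (Tr.lf 2))),
    ([(true, [2, 3, 19, 66, 67, 260, 325], [18, 82, 83, 257, 261, 276, 277, 291], [[4], [9], [0], [5], [1], [8]]),
     (true, [2, 3, 35, 50, 51, 259, 261], [34, 82, 83, 258, 291, 293, 309], [[0], [9], [3], [5], [2], [8]]), (true,
     [19, 35, 50, 51, 83, 274, 275], [18, 34, 82, 277, 291, 293, 309], [[9], [3], [1], [5], [8], [2]])], (Tr.bt 83
     (Tr.bt 261 (Tr.lf 0) (Tr.lf 1)) (Tr.lf 2))),
    ([(true, [259, 260, 274, 275, 276, 308, 325], [257, 258, 261, 277, 291, 292, 293, 309], [[4], [1], [3], [5],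
     [2], [0]]), (true, [0, 2, 3, 5, 19, 259, 261], [16, 18, 21, 257, 258, 291, 293, 309], [[0], [9], [6], [8], [1],
     [11]]), (true, [0, 1, 261], [5, 16, 17, 21, 257, 277], [[0], [12], [6], [7], [17], [13]])], (Tr.bt 261 (Tr.lf
     0) (Tr.bt 5 (Tr.lf 2) (Tr.lf 1)))),
    ([(true, [259, 260, 274, 291, 292, 308, 309], [257, 258, 261, 275, 276, 277, 293, 325], [[3], [2], [4], [5],
     [1], [0]]), (true, [1, 4, 20, 65, 68, 260, 261], [17, 81, 84, 257, 276, 277, 325], [[0], [10], [4], [5], [1],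
     [7]]), (true, [0, 1, 4, 5, 20, 260, 261], [16, 17, 21, 257, 276, 277, 325], [[0], [10], [6], [7], [1], [11]]),
     (true, [0, 1, 261], [5, 16, 17, 21, 257, 277], [[0], [12], [6], [7], [17], [13]])], (Tr.bt 261 (Tr.lf 0) (Tr.bt
     84 (Tr.lf 1) (Tr.bt 5 (Tr.lf 3) (Tr.lf 2))))),
    ([(true, [1, 2, 4, 5, 20, 274, 276], [17, 18, 21, 257, 277, 292, 293, 325], [[0], [10], [7], [11], [1], [8]]),
     (true, [2, 4, 20, 50, 52, 53, 259], [5, 18, 21, 257, 275, 292, 293, 325], [[3], [10], [0], [11], [1], [8]]),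
     (true, [19, 35, 49, 51, 274, 291, 309], [17, 21, 33, 37, 53, 275, 277], [[9], [3], [2], [11], [7], [1]])],
     (Tr.bt 5 (Tr.bt 53 (Tr.lf 2) (Tr.lf 1)) (Tr.lf 0))),
    ([(true, [1, 2, 4, 5, 20, 274, 292], [17, 18, 21, 257, 276, 277, 293, 325], [[0], [10], [8], [11], [1], [7]]),
     (true, [1, 4, 36, 49, 52, 53, 259], [5, 33, 37, 258, 276, 277, 291, 325], [[3], [10], [0], [11], [2], [7]]),
     (true, [19, 35, 50, 51, 274, 275, 309], [18, 21, 34, 37, 53, 291, 293], [[9], [3], [1], [11], [8], [2]])],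
     (Tr.bt 5 (Tr.bt 53 (Tr.lf 2) (Tr.lf 1)) (Tr.lf 0))),
    ([(true, [259, 260, 274, 275, 276, 308, 309], [257, 258, 261, 277, 291, 292, 293, 325], [[3], [1], [4], [5],
     [2], [0]]), (true, [2, 4, 36, 66, 68, 260, 261], [34, 82, 84, 258, 292, 293, 325], [[0], [10], [4], [5], [2],
     [8]]), (true, [0, 2, 4, 5, 20, 260, 261], [16, 18, 21, 257, 258, 292, 293, 325], [[0], [10], [6], [8], [1],
     [11]]), (true, [0, 1, 261], [5, 16, 17, 21, 257, 277], [[0], [12], [6], [7], [17], [13]])], (Tr.bt 261 (Tr.lf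
     0) (Tr.bt 84 (Tr.lf 1) (Tr.bt 5 (Tr.lf 3) (Tr.lf 2))))),
    ([], Tr.lf 0),
    ([], Tr.lf 0),
    ([], Tr.lf 0),
    ([], Tr.lf 0),
    ([], Tr.lf 0),
    ([], Tr.lf 0),
    ([], Tr.lf 0),
    ([], Tr.lf 0),
    ([(true, [0, 1, 5, 21, 261], [16, 17, 81, 257, 277], [[0], [11], [6], [7], [1], [13]]), (true, [1, 3, 49, 83,
     85, 261], [5, 17, 81, 275, 277, 309], [[0], [5], [9], [7], [11], [13]]), (true, [1, 3, 19, 49, 51, 259, 261],
     [17, 81, 83, 257, 275, 277, 309], [[0], [9], [3], [5], [1], [7]]), (true, [1, 3, 19, 21, 83, 261], [5, 17, 81,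
     85, 275, 277, 309], [[0], [7], [15], [13], [17], [5]]), (true, [259, 260, 274, 291, 292, 308, 325], [257, 258,
     261, 275, 276, 277, 293, 309], [[4], [2], [3], [5], [1], [0]])], (Tr.bt 261 (Tr.lf 4) (Tr.bt 5 (Tr.bt 83 (Tr.lf
     2) (Tr.bt 85 (Tr.lf 3) (Tr.lf 1))) (Tr.lf 0)))),
    ([(true, [1, 3, 19, 49, 51, 259, 261], [17, 81, 83, 257, 275, 277, 309], [[0], [9], [3], [5], [1], [7]]), (true,
     [19, 35, 49, 51, 83, 274, 291], [17, 33, 81, 275, 277, 293, 309], [[9], [3], [2], [5], [7], [1]]), (true, [1,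
     3, 35, 65, 67, 260, 325], [33, 81, 83, 258, 261, 275, 292, 293], [[4], [9], [0], [5], [2], [7]])], (Tr.bt 83
     (Tr.bt 261 (Tr.lf 2) (Tr.lf 0)) (Tr.lf 1))),
    ([(true, [2, 3, 35, 50, 51, 259, 261], [34, 82, 83, 258, 291, 293, 309], [[0], [9], [3], [5], [2], [8]]), (true,
     [19, 35, 50, 51, 83, 274, 275], [18, 34, 82, 277, 291, 293, 309], [[9], [3], [1], [5], [8], [2]]), (true, [2,
     3, 19, 66, 67, 260, 325], [18, 82, 83, 257, 261, 276, 277, 291], [[4], [9], [0], [5], [1], [8]])], (Tr.bt 83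
     (Tr.bt 261 (Tr.lf 2) (Tr.lf 0)) (Tr.lf 1))),
    ([(true, [0, 1, 5, 21, 261], [16, 17, 81, 257, 277], [[0], [11], [6], [7], [1], [13]]), (true, [1, 2, 3, 49, 83,
     85, 261], [5, 33, 81, 82, 291, 293, 309], [[0], [5], [9], [8], [11], [13]]), (true, [2, 3, 35, 50, 51, 259,
     261], [34, 82, 83, 258, 291, 293, 309], [[0], [9], [3], [5], [2], [8]]), (true, [1, 2, 3, 19, 21, 83, 261], [5,
     18, 81, 82, 85, 291, 293, 309], [[0], [7], [15], [14], [17], [5]]), (true, [259, 260, 274, 275, 276, 308, 325],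
     [257, 258, 261, 277, 291, 292, 293, 309], [[4], [1], [3], [5], [2], [0]])], (Tr.bt 261 (Tr.lf 4) (Tr.bt 5
     (Tr.bt 83 (Tr.lf 2) (Tr.bt 85 (Tr.lf 3) (Tr.lf 1))) (Tr.lf 0)))),
    ([(true, [0, 1, 5, 21, 261], [16, 17, 81, 257, 277], [[0], [11], [6], [7], [1], [13]]), (true, [1, 4, 65, 84,
     85, 261], [5, 17, 81, 276, 277, 325], [[0], [5], [10], [7], [11], [13]]), (true, [1, 3, 19, 65, 67, 260, 261],
     [17, 81, 83, 257, 275, 276, 277, 325], [[0], [9], [4], [5], [1], [7]]), (true, [1, 4, 20, 21, 84, 261], [5, 17,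
     81, 85, 276, 277, 325], [[0], [7], [16], [13], [17], [5]]), (true, [1, 4, 20, 65, 68, 260, 261], [17, 81, 84,
     257, 276, 277, 325], [[0], [10], [4], [5], [1], [7]]), (true, [259, 260, 274, 291, 292, 308, 309], [257, 258,
     261, 275, 276, 277, 293, 325], [[3], [2], [4], [5], [1], [0]])], (Tr.bt 261 (Tr.lf 5) (Tr.bt 5 (Tr.bt 83 (Tr.lf
     2) (Tr.bt 84 (Tr.lf 4) (Tr.bt 85 (Tr.lf 3) (Tr.lf 1)))) (Tr.lf 0)))),
    ([(true, [0, 1, 2, 4, 20, 21, 260], [5, 16, 18, 258, 261, 292, 293, 325], [[0], [7], [16], [14], [17], [12]]),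
     (true, [1, 3, 5, 49, 85, 309], [17, 81, 83, 261, 275, 277], [[0], [11], [9], [7], [5], [13]]), (true, [0, 5,
     48, 259, 309], [53, 80, 85, 261], [[0], [3], [6], [11], [5], [17]]), (true, [1, 3, 35, 65, 67, 260, 261], [33,
     81, 83, 258, 275, 292, 293, 325], [[0], [9], [4], [5], [2], [7]]), (true, [0, 1, 5, 21, 80], [16, 17, 257, 261,
     277], [[0], [11], [12], [7], [1], [6]]), (true, [19, 35, 65, 67, 83, 274, 276], [17, 33, 81, 275, 277, 292,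
     293, 325], [[9], [4], [1], [5], [7], [2]]), (true, [1, 2, 4, 5, 84, 274, 276], [81, 82, 85, 261, 277, 292, 293,
     325], [[0], [10], [7], [11], [5], [8]]), (true, [19, 20, 21, 276, 308, 309], [17, 81, 83, 84, 85, 275, 277,
     325], [[1], [16], [15], [11], [13], [17]])], (Tr.bt 83 (Tr.bt 261 (Tr.bt 5 (Tr.lf 0) (Tr.bt 85 (Tr.bt 80 (Tr.bt
     53 (Tr.lf 2) (Tr.bt 84 (Tr.lf 7) (Tr.lf 6))) (Tr.lf 4)) (Tr.lf 1))) (Tr.lf 3)) (Tr.lf 5))),
    ([(true, [0, 1, 4, 20, 21, 260], [5, 16, 17, 257, 261, 276, 277, 325], [[0], [7], [16], [13], [17], [12]]),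
     (true, [1, 2, 3, 5, 49, 85, 309], [33, 81, 82, 83, 261, 291, 293], [[0], [11], [9], [8], [5], [13]]), (true,
     [0, 5, 48, 259, 309], [53, 80, 85, 261], [[0], [3], [6], [11], [5], [17]]), (true, [2, 3, 19, 66, 67, 260,
     261], [18, 82, 83, 257, 276, 277, 291, 325], [[0], [9], [4], [5], [1], [8]]), (true, [0, 1, 5, 21, 80], [16,
     17, 257, 261, 277], [[0], [11], [12], [7], [1], [6]]), (true, [19, 35, 66, 67, 83, 274, 292], [18, 34, 82, 276,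
     277, 291, 293, 325], [[9], [4], [2], [5], [8], [1]]), (true, [1, 2, 4, 5, 84, 274, 292], [81, 82, 85, 261, 276,
     277, 293, 325], [[0], [10], [8], [11], [5], [7]]), (true, [19, 20, 21, 292, 308, 309], [18, 82, 83, 84, 85,
     291, 293, 325], [[1], [16], [15], [11], [14], [17]])], (Tr.bt 83 (Tr.bt 261 (Tr.bt 5 (Tr.lf 0) (Tr.bt 85 (Tr.bt
     80 (Tr.bt 53 (Tr.lf 2) (Tr.bt 84 (Tr.lf 7) (Tr.lf 6))) (Tr.lf 4)) (Tr.lf 1))) (Tr.lf 3)) (Tr.lf 5))),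
    ([(true, [0, 1, 5, 21, 261], [16, 17, 81, 257, 277], [[0], [11], [6], [7], [1], [13]]), (true, [1, 2, 4, 65, 84,
     85, 261], [5, 33, 81, 82, 292, 293, 325], [[0], [5], [10], [8], [11], [13]]), (true, [2, 3, 35, 66, 67, 260,
     261], [34, 82, 83, 258, 291, 292, 293, 325], [[0], [9], [4], [5], [2], [8]]), (true, [1, 2, 4, 20, 21, 84,
     261], [5, 18, 81, 82, 85, 292, 293, 325], [[0], [7], [16], [14], [17], [5]]), (true, [2, 4, 36, 66, 68, 260,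
     261], [34, 82, 84, 258, 292, 293, 325], [[0], [10], [4], [5], [2], [8]]), (true, [259, 260, 274, 275, 276, 308,
     309], [257, 258, 261, 277, 291, 292, 293, 325], [[3], [1], [4], [5], [2], [0]])], (Tr.bt 261 (Tr.lf 5) (Tr.bt 5
     (Tr.bt 83 (Tr.lf 2) (Tr.bt 84 (Tr.lf 4) (Tr.bt 85 (Tr.lf 3) (Tr.lf 1)))) (Tr.lf 0)))),
    ([(false, [19, 21, 51, 53, 83, 85, 277], [275, 309], [[1], [3], [5], [9], [11], [15], [17]]), (true, [35, 48,
     49, 51, 259, 291, 293], [32, 33, 80, 81, 83, 257, 275, 309], [[3], [2], [9], [7], [5], [6]]), (true, [36, 48,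
     49, 52, 260, 291, 293], [32, 33, 80, 81, 84, 257, 276, 309], [[3], [2], [10], [7], [5], [6]]), (true, [37, 48,
     49, 53, 277, 291, 293], [16, 32, 33, 80, 81, 85, 309], [[3], [2], [11], [12], [5], [7]]), (true, [0, 5, 48, 83,
     259, 261], [53, 80, 85, 309], [[6], [9], [12], [11], [5], [17]]), (true, [0, 1, 48, 49, 259, 261, 277], [5, 16,
     53, 80, 81, 85, 309], [[0], [7], [3], [5], [11], [12]]), (true, [0, 3, 5, 83, 259], [53, 80, 85, 261, 309],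
     [[0], [9], [6], [11], [5], [17]]), (true, [0, 2, 3, 83, 259, 291, 293], [5, 80, 82, 85, 258, 261, 309], [[9],
     [8], [0], [5], [11], [6]]), (false, [1, 3, 4, 19, 21, 49, 51, 52, 65, 67, 83, 85, 259, 277, 325], [5, 53, 275,
     276, 309], [[0], [11], [3], [7], [10], [15], [17, 13]]), (false, [1, 2, 3, 5, 19, 21, 35, 37, 49, 51, 83, 85,
     277, 291, 293], [18, 257, 275, 309], [[0], [1], [8], [9], [11], [15], [17, 13]]), (true, [1, 64, 65, 80, 277,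
     325], [16, 17, 81, 257, 276], [[4], [5], [6], [7], [1], [13]])], (Tr.bt 80 (Tr.bt 83 (Tr.lf 1) (Tr.bt 84 (Tr.lf
     2) (Tr.bt 85 (Tr.bt 53 (Tr.bt 5 (Tr.bt 261 (Tr.lf 7) (Tr.lf 5)) (Tr.bt 261 (Tr.lf 6) (Tr.lf 4))) (Tr.lf 3))
     (Tr.bt 53 (Tr.bt 5 (Tr.lf 8) (Tr.lf 9)) (Tr.lf 0))))) (Tr.lf 10))),
    ([(false, [1, 2, 3, 4, 19, 21, 35, 37, 51, 53, 67, 69, 274, 276, 291, 308], [5, 275, 292, 309], [[0], [17],
     [15], [7], [9], [8], [10]]), (false, [19, 20, 21, 51, 52, 53, 83, 84, 85, 277, 308, 325], [69, 275, 309], [[1],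
     [3], [5], [9], [11], [10], [17]]), (false, [1, 3, 35, 37, 49, 51, 65, 67, 83, 85, 259, 260, 261, 277, 291, 293,
     308, 325], [258, 275, 292, 309], [[0], [2], [4], [3], [5], [9], [11, 7]]), (false, [1, 2, 3, 4, 19, 20, 21, 49,
     50, 51, 52, 259, 274, 276, 277, 291, 293, 325], [5, 17, 53, 275, 292], [[0], [11], [3], [7], [9, 1], [8],
     [10]]), (true, [0, 3, 5, 83, 259], [53, 80, 85, 261, 309], [[0], [9], [6], [11], [5], [17]]), (true, [35, 48,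
     49, 51, 259, 291, 293], [32, 33, 80, 81, 83, 257, 275, 309], [[3], [2], [9], [7], [5], [6]]), (true, [36, 48,
     50, 52, 260, 291, 293], [32, 34, 80, 82, 84, 258, 292, 309], [[3], [2], [10], [8], [5], [6]]), (false, [1, 2,
     3, 5, 19, 21, 35, 37, 49, 51, 83, 85, 277, 291, 293], [18, 257, 275, 309], [[0], [1], [8], [9], [11], [15],
     [17, 13]]), (true, [37, 48, 49, 53, 277, 291, 293], [16, 32, 33, 80, 81, 85, 309], [[3], [2], [11], [12], [5],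
     [7]]), (true, [0, 5, 48, 83, 259, 261], [53, 80, 85, 309], [[6], [9], [12], [11], [5], [17]]), (true, [1, 64,
     65, 80, 293, 325], [17, 32, 33, 81, 257, 292], [[4], [5], [6], [7], [2], [13]])], (Tr.bt 80 (Tr.bt 83 (Tr.lf 5)
     (Tr.bt 84 (Tr.lf 6) (Tr.bt 85 (Tr.bt 53 (Tr.bt 5 (Tr.lf 3) (Tr.bt 261 (Tr.lf 4) (Tr.lf 9))) (Tr.lf 8)) (Tr.bt
     261 (Tr.bt 5 (Tr.bt 53 (Tr.lf 3) (Tr.bt 69 (Tr.lf 1) (Tr.lf 0))) (Tr.lf 7)) (Tr.lf 2))))) (Tr.lf 10))),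
    ([(false, [19, 21, 35, 37, 51, 53, 83, 85, 274, 275, 277], [17, 33, 309], [[1], [7], [2], [9], [11], [15],
     [17]]), (false, [1, 2, 3, 4, 19, 20, 21, 49, 50, 52, 259, 274, 275, 277, 292, 293, 325], [5, 18, 53, 276, 291],
     [[0], [11], [3], [7], [10], [8], [9, 1]]), (true, [0, 3, 5, 83, 259], [53, 80, 85, 261, 309], [[0], [9], [6],
     [11], [5], [17]]), (true, [19, 48, 50, 51, 259, 275, 277], [16, 18, 80, 82, 83, 258, 291, 309], [[3], [1], [9],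
     [8], [5], [6]]), (true, [20, 48, 49, 52, 260, 275, 277], [16, 17, 80, 81, 84, 257, 276, 309], [[3], [1], [10],
     [7], [5], [6]]), (true, [21, 48, 49, 53, 275, 277], [16, 17, 80, 81, 85, 309], [[3], [1], [11], [12], [5],
     [7]]), (true, [0, 5, 48, 83, 259, 261], [53, 80, 85, 309], [[6], [9], [12], [11], [5], [17]]), (false, [1, 2,
     3, 5, 19, 21, 49, 50, 51, 83, 85, 259, 275, 277, 293], [17, 53, 257, 291, 309], [[0], [1], [7], [3], [11],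
     [15], [17, 14]]), (true, [1, 64, 65, 80, 277, 325], [16, 17, 81, 257, 276], [[4], [5], [6], [7], [1], [13]])],
     (Tr.bt 80 (Tr.bt 83 (Tr.lf 3) (Tr.bt 84 (Tr.lf 4) (Tr.bt 53 (Tr.bt 5 (Tr.lf 1) (Tr.bt 85 (Tr.bt 261 (Tr.lf 2)
     (Tr.lf 6)) (Tr.lf 7))) (Tr.bt 85 (Tr.lf 5) (Tr.lf 0))))) (Tr.lf 8))),
    ([(false, [19, 21, 35, 37, 51, 53, 83, 85, 274, 275, 277], [17, 33, 309], [[1], [7], [2], [9], [11], [15],
     [17]]), (true, [19, 48, 50, 51, 259, 275, 277], [16, 18, 80, 82, 83, 258, 291, 309], [[3], [1], [9], [8], [5],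
     [6]]), (true, [20, 48, 50, 52, 260, 275, 277], [16, 18, 80, 82, 84, 258, 292, 309], [[3], [1], [10], [8], [5],
     [6]]), (false, [1, 2, 3, 5, 19, 21, 49, 50, 51, 83, 85, 259, 275, 277, 293], [17, 53, 257, 291, 309], [[0],
     [1], [7], [3], [11], [15], [17, 14]]), (true, [21, 48, 49, 53, 275, 277], [16, 17, 80, 81, 85, 309], [[3], [1],
     [11], [12], [5], [7]]), (true, [0, 5, 48, 83, 259, 261], [53, 80, 85, 309], [[6], [9], [12], [11], [5], [17]]),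
     (true, [0, 1, 48, 49, 259, 261, 277], [5, 16, 53, 80, 81, 85, 309], [[0], [7], [3], [5], [11], [12]]), (true,
     [0, 3, 5, 83, 259], [53, 80, 85, 261, 309], [[0], [9], [6], [11], [5], [17]]), (true, [0, 1, 3, 83, 259, 275,
     277], [5, 80, 81, 85, 257, 261, 309], [[9], [7], [0], [5], [11], [6]]), (false, [2, 3, 4, 35, 37, 50, 51, 52,
     66, 67, 83, 85, 259, 293, 325], [5, 53, 291, 292, 309], [[0], [11], [3], [8], [10], [15], [17, 14]]), (true,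
     [1, 64, 65, 80, 293, 325], [17, 32, 33, 81, 257, 292], [[4], [5], [6], [7], [2], [13]])], (Tr.bt 80 (Tr.bt 83
     (Tr.lf 1) (Tr.bt 84 (Tr.lf 2) (Tr.bt 85 (Tr.bt 53 (Tr.bt 5 (Tr.bt 261 (Tr.lf 8) (Tr.lf 6)) (Tr.bt 261 (Tr.lf 7)
     (Tr.lf 5))) (Tr.lf 4)) (Tr.bt 53 (Tr.bt 5 (Tr.lf 9) (Tr.lf 3)) (Tr.lf 0))))) (Tr.lf 10))),
    ([(false, [1, 4, 5, 20, 21, 49, 52, 53, 65, 68, 84, 85, 259, 277], [257, 275, 276, 325], [[0], [1], [3], [10],
     [11], [16], [17, 13]]), (false, [20, 21, 68, 69, 84, 85, 277], [276, 325], [[1], [4], [5], [10], [11], [16],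
     [17]]), (false, [1, 3, 4, 20, 21, 49, 52, 65, 67, 68, 84, 85, 260, 277, 309], [5, 69, 275, 276, 325], [[0],
     [11], [4], [7], [9], [16], [17, 13]]), (true, [19, 21, 83, 259, 277, 309], [16, 17, 80, 81, 85, 257, 261, 275],
     [[9], [11], [1], [6], [7], [5]]), (true, [0, 1, 64, 65, 260, 261, 277], [5, 16, 69, 80, 81, 85, 325], [[0],
     [7], [4], [5], [11], [12]]), (true, [36, 64, 65, 68, 260, 292, 293], [32, 33, 80, 81, 84, 257, 276, 325], [[4],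
     [2], [10], [7], [5], [6]]), (true, [37, 64, 65, 69, 277, 292, 293], [16, 32, 33, 80, 81, 85, 325], [[4], [2],
     [11], [12], [5], [7]]), (false, [0, 2, 3, 5, 19, 20, 21, 37, 85, 259, 260, 291, 292, 293, 309], [18, 53, 257,
     261, 325], [[0], [1], [8], [9], [17], [11], [10, 6]]), (false, [0, 3, 4, 5, 19, 20, 21, 64, 85, 259, 260, 261,
     308, 309], [16, 53, 80, 257, 325], [[0], [1], [6], [9], [17], [11], [12, 10]]), (true, [35, 64, 65, 67, 259,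
     292, 293], [32, 33, 80, 81, 83, 257, 275, 325], [[4], [2], [9], [7], [5], [6]]), (true, [0, 5, 64, 84, 260,
     261], [69, 80, 85, 325], [[6], [10], [12], [11], [5], [17]]), (true, [1, 48, 49, 80, 277, 309], [16, 17, 81,
     257, 275], [[3], [5], [6], [7], [1], [13]])], (Tr.bt 80 (Tr.bt 84 (Tr.lf 5) (Tr.bt 83 (Tr.lf 9) (Tr.bt 85
     (Tr.bt 261 (Tr.lf 3) (Tr.bt 69 (Tr.bt 5 (Tr.lf 4) (Tr.lf 10)) (Tr.lf 6))) (Tr.bt 69 (Tr.bt 5 (Tr.lf 2) (Tr.bt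
     53 (Tr.bt 261 (Tr.lf 7) (Tr.lf 8)) (Tr.lf 0))) (Tr.lf 1))))) (Tr.lf 11))),
    ([(false, [1, 2, 3, 4, 19, 20, 21, 65, 66, 67, 260, 274, 276, 277, 291, 293, 309], [5, 18, 69, 275, 292], [[0],
     [11], [4], [7], [9], [8], [10, 1]]), (false, [20, 21, 36, 37, 68, 69, 84, 85, 274, 276, 277], [17, 33, 325],
     [[1], [7], [2], [10], [11], [16], [17]]), (true, [21, 64, 65, 69, 276, 277], [16, 17, 80, 81, 85, 325], [[4],
     [1], [11], [12], [5], [7]]), (true, [19, 64, 65, 67, 259, 276, 277], [16, 17, 80, 81, 83, 257, 275, 325], [[4],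
     [1], [9], [7], [5], [6]]), (true, [0, 5, 64, 84, 260, 261], [69, 80, 85, 325], [[6], [10], [12], [11], [5],
     [17]]), (true, [20, 64, 66, 68, 260, 276, 277], [16, 18, 80, 82, 84, 258, 292, 325], [[4], [1], [10], [8], [5],
     [6]]), (true, [0, 4, 5, 84, 260], [69, 80, 85, 261, 325], [[0], [10], [6], [11], [5], [17]]), (false, [1, 2, 4,
     5, 20, 21, 65, 66, 68, 84, 85, 260, 276, 277, 293], [17, 69, 257, 292, 325], [[0], [1], [7], [4], [11], [16],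
     [17, 14]]), (true, [1, 48, 49, 80, 277, 309], [16, 17, 81, 257, 275], [[3], [5], [6], [7], [1], [13]])], (Tr.bt
     80 (Tr.bt 83 (Tr.lf 3) (Tr.bt 84 (Tr.lf 5) (Tr.bt 69 (Tr.bt 5 (Tr.lf 0) (Tr.bt 85 (Tr.bt 261 (Tr.lf 6) (Tr.lf
     4)) (Tr.lf 7))) (Tr.bt 85 (Tr.lf 2) (Tr.lf 1))))) (Tr.lf 8))),
    ([(false, [1, 2, 3, 4, 20, 21, 36, 37, 52, 53, 68, 69, 274, 275, 292, 308], [5, 276, 291, 325], [[0], [17],
     [16], [7], [10], [8], [9]]), (false, [1, 2, 3, 4, 19, 20, 21, 65, 66, 67, 68, 260, 274, 275, 277, 292, 293,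
     309], [5, 17, 69, 276, 291], [[0], [11], [4], [7], [10, 1], [8], [9]]), (false, [19, 20, 21, 67, 68, 69, 83,
     84, 85, 277, 308, 309], [53, 276, 325], [[1], [4], [5], [9], [17], [10], [11]]), (true, [37, 64, 65, 69, 277,
     292, 293], [16, 32, 33, 80, 81, 85, 325], [[4], [2], [11], [12], [5], [7]]), (true, [35, 64, 66, 67, 259, 292,
     293], [32, 34, 80, 82, 83, 258, 291, 325], [[4], [2], [9], [8], [5], [6]]), (true, [0, 5, 64, 84, 260, 261],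
     [69, 80, 85, 325], [[6], [10], [12], [11], [5], [17]]), (true, [36, 64, 65, 68, 260, 292, 293], [32, 33, 80,
     81, 84, 257, 276, 325], [[4], [2], [10], [7], [5], [6]]), (true, [0, 4, 5, 84, 260], [69, 80, 85, 261, 325],
     [[0], [10], [6], [11], [5], [17]]), (false, [1, 2, 3, 5, 19, 21, 37, 49, 50, 51, 259, 274, 275, 277, 293, 309],
     [17, 53, 257, 291], [[0], [1], [7], [3], [11], [9], [17, 8]]), (false, [1, 2, 4, 5, 20, 21, 36, 37, 65, 68, 84,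
     85, 277, 292, 293], [18, 257, 276, 325], [[0], [1], [8], [10], [11], [16], [17, 13]]), (true, [1, 48, 49, 80,
     293, 309], [17, 32, 33, 81, 257, 291], [[3], [5], [6], [7], [2], [13]])], (Tr.bt 80 (Tr.bt 83 (Tr.lf 4) (Tr.bt
     84 (Tr.lf 6) (Tr.bt 5 (Tr.bt 69 (Tr.lf 1) (Tr.bt 53 (Tr.bt 85 (Tr.lf 3) (Tr.lf 2)) (Tr.lf 0))) (Tr.bt 53 (Tr.lf
     8) (Tr.bt 85 (Tr.bt 69 (Tr.bt 261 (Tr.lf 7) (Tr.lf 5)) (Tr.lf 3)) (Tr.lf 9)))))) (Tr.lf 10))),
    ([(false, [20, 21, 36, 37, 68, 69, 84, 85, 274, 276, 277], [17, 33, 325], [[1], [7], [2], [10], [11], [16],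
     [17]]), (false, [2, 3, 4, 36, 37, 50, 52, 66, 67, 68, 84, 85, 260, 293, 309], [5, 69, 291, 292, 325], [[0],
     [11], [4], [8], [9], [16], [17, 14]]), (true, [19, 21, 83, 259, 277, 293, 309], [16, 18, 80, 82, 85, 258, 261,
     291], [[9], [11], [1], [6], [8], [5]]), (true, [0, 1, 64, 65, 260, 261, 277], [5, 16, 69, 80, 81, 85, 325],
     [[0], [7], [4], [5], [11], [12]]), (true, [20, 64, 66, 68, 260, 276, 277], [16, 18, 80, 82, 84, 258, 292, 325],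
     [[4], [1], [10], [8], [5], [6]]), (true, [21, 64, 65, 69, 276, 277], [16, 17, 80, 81, 85, 325], [[4], [1],
     [11], [12], [5], [7]]), (true, [0, 5, 64, 84, 260, 261], [69, 80, 85, 325], [[6], [10], [12], [11], [5],
     [17]]), (false, [1, 2, 4, 5, 20, 21, 65, 66, 68, 84, 85, 260, 276, 277, 293], [17, 69, 257, 292, 325], [[0],
     [1], [7], [4], [11], [16], [17, 14]]), (true, [1, 48, 49, 80, 293, 309], [17, 32, 33, 81, 257, 291], [[3], [5],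
     [6], [7], [2], [13]]), (true, [19, 64, 66, 67, 259, 276, 277], [16, 18, 80, 82, 83, 258, 291, 325], [[4], [1],
     [9], [8], [5], [6]])], (Tr.bt 80 (Tr.bt 84 (Tr.lf 4) (Tr.bt 83 (Tr.lf 9) (Tr.bt 85 (Tr.bt 261 (Tr.lf 2) (Tr.bt
     69 (Tr.bt 5 (Tr.lf 3) (Tr.lf 6)) (Tr.lf 5))) (Tr.bt 69 (Tr.bt 5 (Tr.lf 1) (Tr.lf 7)) (Tr.lf 0))))) (Tr.lf 8))),
    ([(true, [0, 1, 81], [5, 16, 17, 80, 257, 261, 277], [[0], [13], [6], [7], [11], [12]]), (true, [0, 1, 261], [5,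
     16, 17, 21, 257, 277], [[0], [12], [6], [7], [17], [13]]), (true, [1, 3, 19, 49, 51, 53, 259], [5, 17, 21, 257,
     275, 277, 309], [[3], [9], [0], [11], [1], [7]]), (true, [0, 1, 48, 49, 80, 259, 291], [5, 16, 32, 33, 37, 53,
     258, 277], [[3], [12], [0], [2], [11], [7]]), (true, [1, 2, 3, 5, 19, 274, 291], [17, 18, 21, 257, 275, 277,
     293, 309], [[0], [9], [8], [11], [1], [7]])], (Tr.bt 5 (Tr.bt 261 (Tr.bt 80 (Tr.lf 0) (Tr.bt 53 (Tr.lf 3)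
     (Tr.lf 2))) (Tr.lf 1)) (Tr.lf 4))),
    ([(true, [0, 1, 81], [5, 16, 17, 80, 257, 261, 277], [[0], [13], [6], [7], [11], [12]]), (true, [0, 1, 261], [5,
     16, 17, 21, 257, 277], [[0], [12], [6], [7], [17], [13]]), (true, [1, 3, 19, 49, 51, 53, 259], [5, 17, 21, 257,
     275, 277, 309], [[3], [9], [0], [11], [1], [7]]), (true, [0, 1, 48, 49, 80, 259, 291], [5, 16, 32, 33, 37, 53,
     258, 277], [[3], [12], [0], [2], [11], [7]]), (true, [1, 2, 3, 5, 19, 274, 291], [17, 18, 21, 257, 275, 277,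
     293, 309], [[0], [9], [8], [11], [1], [7]])], (Tr.bt 5 (Tr.bt 261 (Tr.bt 80 (Tr.lf 0) (Tr.bt 53 (Tr.lf 3)
     (Tr.lf 2))) (Tr.lf 1)) (Tr.lf 4))),
    ([(true, [0, 1, 81], [5, 16, 17, 80, 257, 261, 277], [[0], [13], [6], [7], [11], [12]]), (true, [0, 1, 261], [5,
     16, 17, 21, 257, 277], [[0], [12], [6], [7], [17], [13]]), (true, [2, 3, 35, 50, 51, 53, 259], [5, 34, 37, 258,
     291, 293, 309], [[3], [9], [0], [11], [2], [8]]), (true, [0, 1, 48, 49, 80, 259, 275], [5, 16, 17, 21, 53, 257,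
     277], [[3], [12], [0], [1], [11], [7]]), (true, [1, 2, 3, 5, 19, 274, 275], [17, 18, 21, 257, 277, 291, 293,
     309], [[0], [9], [7], [11], [1], [8]])], (Tr.bt 5 (Tr.bt 261 (Tr.bt 80 (Tr.lf 0) (Tr.bt 53 (Tr.lf 3) (Tr.lf
     2))) (Tr.lf 1)) (Tr.lf 4))),
    ([(true, [0, 1, 81], [5, 16, 17, 80, 257, 261, 277], [[0], [13], [6], [7], [11], [12]]), (true, [0, 1, 261], [5,
     16, 17, 21, 257, 277], [[0], [12], [6], [7], [17], [13]]), (true, [2, 3, 35, 50, 51, 53, 259], [5, 34, 37, 258,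
     291, 293, 309], [[3], [9], [0], [11], [2], [8]]), (true, [0, 1, 48, 49, 80, 259, 275], [5, 16, 17, 21, 53, 257,
     277], [[3], [12], [0], [1], [11], [7]]), (true, [1, 2, 3, 5, 19, 274, 275], [17, 18, 21, 257, 277, 291, 293,
     309], [[0], [9], [7], [11], [1], [8]])], (Tr.bt 5 (Tr.bt 261 (Tr.bt 80 (Tr.lf 0) (Tr.bt 53 (Tr.lf 3) (Tr.lf
     2))) (Tr.lf 1)) (Tr.lf 4))),
    ([(true, [0, 1, 4, 5, 20, 260, 261], [16, 17, 21, 257, 276, 277, 325], [[0], [10], [6], [7], [1], [11]]), (true,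
     [0, 1, 261], [5, 16, 17, 21, 257, 277], [[0], [12], [6], [7], [17], [13]]), (true, [259, 260, 274, 291, 292,
     308, 309], [257, 258, 261, 275, 276, 277, 293, 325], [[3], [2], [4], [5], [1], [0]])], (Tr.bt 261 (Tr.lf 2)
     (Tr.bt 5 (Tr.lf 1) (Tr.lf 0)))),
    ([(true, [0, 1, 81], [5, 16, 17, 80, 257, 261, 277], [[0], [13], [6], [7], [11], [12]]), (true, [0, 1, 261], [5,
     16, 17, 21, 257, 277], [[0], [12], [6], [7], [17], [13]]), (true, [2, 4, 20, 50, 52, 53, 259], [5, 18, 21, 257,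
     275, 292, 293, 325], [[3], [10], [0], [11], [1], [8]]), (true, [0, 1, 48, 49, 80, 259, 291], [5, 16, 32, 33,
     37, 53, 258, 277], [[3], [12], [0], [2], [11], [7]]), (true, [1, 2, 4, 5, 20, 274, 276], [17, 18, 21, 257, 277,
     292, 293, 325], [[0], [10], [7], [11], [1], [8]])], (Tr.bt 5 (Tr.bt 261 (Tr.bt 80 (Tr.lf 0) (Tr.bt 53 (Tr.lf 3)
     (Tr.lf 2))) (Tr.lf 1)) (Tr.lf 4))),
    ([(true, [0, 1, 81], [5, 16, 17, 80, 257, 261, 277], [[0], [13], [6], [7], [11], [12]]), (true, [0, 1, 261], [5,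
     16, 17, 21, 257, 277], [[0], [12], [6], [7], [17], [13]]), (true, [1, 4, 36, 49, 52, 53, 259], [5, 33, 37, 258,
     276, 277, 291, 325], [[3], [10], [0], [11], [2], [7]]), (true, [0, 1, 48, 49, 80, 259, 275], [5, 16, 17, 21,
     53, 257, 277], [[3], [12], [0], [1], [11], [7]]), (true, [1, 2, 4, 5, 20, 274, 292], [17, 18, 21, 257, 276,
     277, 293, 325], [[0], [10], [8], [11], [1], [7]])], (Tr.bt 5 (Tr.bt 261 (Tr.bt 80 (Tr.lf 0) (Tr.bt 53 (Tr.lf 3)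
     (Tr.lf 2))) (Tr.lf 1)) (Tr.lf 4))),
    ([(true, [0, 2, 4, 5, 20, 260, 261], [16, 18, 21, 257, 258, 292, 293, 325], [[0], [10], [6], [8], [1], [11]]),
     (true, [0, 1, 261], [5, 16, 17, 21, 257, 277], [[0], [12], [6], [7], [17], [13]]), (true, [259, 260, 274, 275,
     276, 308, 309], [257, 258, 261, 277, 291, 292, 293, 325], [[3], [1], [4], [5], [2], [0]])], (Tr.bt 261 (Tr.lf
     2) (Tr.bt 5 (Tr.lf 1) (Tr.lf 0)))),
    ([(true, [0, 1, 277], [5, 16, 17, 21, 257, 261], [[0], [13], [6], [7], [17], [12]]), (false, [0, 48, 50, 51, 53,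
     80, 82, 83, 85, 259, 261, 291, 293], [32, 258, 309], [[6], [8], [12], [3], [5], [9], [11]]), (true, [1, 4, 5,
     20, 65, 68, 260], [17, 21, 69, 257, 276], [[0], [10], [4], [17], [1], [7]]), (true, [0, 1, 3, 19, 48, 53, 261],
     [5, 16, 17, 21, 257, 275], [[9], [0], [12], [1], [7], [17]]), (true, [0, 1, 48, 49, 259, 261, 291], [5, 16, 21,
     32, 33, 37, 53, 258], [[3], [12], [0], [2], [17], [7]]), (true, [1, 3, 5, 19, 49, 51, 259], [17, 21, 53, 257,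
     275], [[0], [9], [3], [17], [1], [7]]), (true, [81, 85, 261, 277], [16, 17, 21, 80], [[5], [17], [11], [1],
     [12], [7]]), (true, [1, 5, 81, 261, 277], [17, 21, 85, 257], [[0], [5], [7], [17], [1], [11]]), (true, [64, 65,
     69, 81, 277, 325], [16, 17, 21, 80, 85, 257, 261, 276], [[4], [5], [7], [6], [1], [11]]), (true, [1, 81, 85,
     277], [16, 17, 21, 80, 257, 261], [[5], [13], [11], [1], [6], [7]]), (true, [0, 20, 64, 80, 260, 277, 325],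
     [16, 17, 21, 257, 261, 276], [[10], [11], [12], [1], [7], [6]]), (false, [19, 48, 50, 51, 53, 80, 82, 85, 259,
     261, 277, 291, 293], [21, 83, 258, 309], [[3], [5], [9], [12], [14], [17], [15, 1]])], (Tr.bt 5 (Tr.bt 261
     (Tr.lf 0) (Tr.bt 53 (Tr.lf 4) (Tr.lf 3))) (Tr.bt 69 (Tr.lf 2) (Tr.bt 53 (Tr.lf 5) (Tr.bt 261 (Tr.bt 80 (Tr.bt
     85 (Tr.lf 8) (Tr.lf 9)) (Tr.lf 10)) (Tr.bt 85 (Tr.lf 7) (Tr.bt 80 (Tr.lf 6) (Tr.bt 83 (Tr.lf 11) (Tr.lf
     1))))))))),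
    ([(true, [0, 1, 277], [5, 16, 17, 21, 257, 261], [[0], [13], [6], [7], [17], [12]]), (false, [48, 50, 51, 52,
     53, 80, 82, 83, 84, 85, 259, 260, 261, 291, 293, 308, 325], [258, 292, 309], [[6], [8], [10], [3], [5], [9],
     [11]]), (true, [2, 4, 5, 36, 66, 68, 260], [34, 37, 69, 258, 292], [[0], [10], [4], [17], [2], [8]]), (true,
     [0, 1, 3, 19, 48, 53, 261], [5, 16, 17, 21, 257, 275], [[9], [0], [12], [1], [7], [17]]), (true, [0, 1, 48, 49,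
     259, 261, 291], [5, 16, 21, 32, 33, 37, 53, 258], [[3], [12], [0], [2], [17], [7]]), (true, [1, 3, 5, 19, 49,
     51, 259], [17, 21, 53, 257, 275], [[0], [9], [3], [17], [1], [7]]), (true, [81, 85, 261, 277], [16, 17, 21,
     80], [[5], [17], [11], [1], [12], [7]]), (true, [1, 5, 81, 261, 277], [17, 21, 85, 257], [[0], [5], [7], [17],
     [1], [11]]), (true, [64, 65, 69, 81, 277, 293, 325], [32, 33, 37, 80, 85, 257, 261, 292], [[4], [5], [7], [6],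
     [2], [11]]), (true, [1, 81, 85, 277], [16, 17, 21, 80, 257, 261], [[5], [13], [11], [1], [6], [7]]), (true, [0,
     20, 64, 80, 260, 293, 325], [16, 18, 21, 32, 258, 261, 292], [[10], [11], [12], [1], [8], [6]]), (false, [48,
     49, 51, 52, 53, 64, 65, 80, 81, 83, 85, 308, 325], [84, 257, 309], [[3], [5], [10], [9], [11], [12], [13]]),
     (false, [19, 48, 50, 51, 53, 80, 82, 85, 259, 261, 277, 291, 293], [21, 83, 258, 309], [[3], [5], [9], [12],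
     [14], [17], [15, 1]])], (Tr.bt 5 (Tr.bt 261 (Tr.lf 0) (Tr.bt 53 (Tr.lf 4) (Tr.lf 3))) (Tr.bt 69 (Tr.lf 2)
     (Tr.bt 53 (Tr.lf 5) (Tr.bt 261 (Tr.bt 80 (Tr.bt 85 (Tr.lf 8) (Tr.lf 9)) (Tr.lf 10)) (Tr.bt 85 (Tr.lf 7) (Tr.bt
     80 (Tr.lf 6) (Tr.bt 83 (Tr.lf 12) (Tr.bt 84 (Tr.lf 11) (Tr.lf 1)))))))))),
    ([(true, [0, 1, 277], [5, 16, 17, 21, 257, 261], [[0], [13], [6], [7], [17], [12]]), (false, [48, 49, 51, 52,
     53, 80, 81, 83, 84, 85, 259, 260, 261, 275, 277, 308, 325], [257, 276, 309], [[6], [7], [10], [3], [5], [9],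
     [11]]), (true, [1, 4, 5, 20, 65, 68, 260], [17, 21, 69, 257, 276], [[0], [10], [4], [17], [1], [7]]), (true,
     [0, 2, 3, 19, 48, 53, 261], [5, 16, 18, 21, 32, 37, 257, 291], [[9], [0], [12], [1], [8], [17]]), (true, [0, 1,
     48, 49, 259, 261, 275], [5, 16, 17, 21, 53, 257], [[3], [12], [0], [1], [17], [7]]), (true, [2, 3, 5, 35, 50,
     51, 259], [34, 37, 53, 258, 291], [[0], [9], [3], [17], [2], [8]]), (true, [81, 85, 261, 277], [16, 17, 21,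
     80], [[5], [17], [11], [1], [12], [7]]), (true, [1, 5, 81, 261, 277], [17, 21, 85, 257], [[0], [5], [7], [17],
     [1], [11]]), (true, [64, 65, 69, 81, 277, 325], [16, 17, 21, 80, 85, 257, 261, 276], [[4], [5], [7], [6], [1],
     [11]]), (true, [1, 81, 85, 277], [16, 17, 21, 80, 257, 261], [[5], [13], [11], [1], [6], [7]]), (true, [0, 20,
     64, 80, 260, 277, 325], [16, 17, 21, 257, 261, 276], [[10], [11], [12], [1], [7], [6]]), (false, [48, 49, 51,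
     52, 53, 64, 65, 80, 81, 83, 85, 308, 325], [84, 257, 309], [[3], [5], [10], [9], [11], [12], [13]]), (false,
     [19, 48, 49, 51, 53, 80, 81, 85, 259, 261, 275, 277], [21, 83, 257, 309], [[3], [5], [9], [12], [13], [17],
     [15, 1]])], (Tr.bt 5 (Tr.bt 261 (Tr.lf 0) (Tr.bt 53 (Tr.lf 4) (Tr.lf 3))) (Tr.bt 69 (Tr.lf 2) (Tr.bt 53 (Tr.lf
     5) (Tr.bt 261 (Tr.bt 80 (Tr.bt 85 (Tr.lf 8) (Tr.lf 9)) (Tr.lf 10)) (Tr.bt 85 (Tr.lf 7) (Tr.bt 80 (Tr.lf 6)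
     (Tr.bt 83 (Tr.lf 12) (Tr.bt 84 (Tr.lf 11) (Tr.lf 1)))))))))),
    ([(true, [0, 1, 277], [5, 16, 17, 21, 257, 261], [[0], [13], [6], [7], [17], [12]]), (false, [0, 48, 49, 51, 53,
     80, 81, 83, 85, 259, 261, 275, 277], [16, 257, 309], [[6], [7], [12], [3], [5], [9], [11]]), (true, [2, 4, 5,
     36, 66, 68, 260], [34, 37, 69, 258, 292], [[0], [10], [4], [17], [2], [8]]), (true, [0, 2, 3, 19, 48, 53, 261],
     [5, 16, 18, 21, 32, 37, 257, 291], [[9], [0], [12], [1], [8], [17]]), (true, [0, 1, 48, 49, 259, 261, 275], [5,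
     16, 17, 21, 53, 257], [[3], [12], [0], [1], [17], [7]]), (true, [2, 3, 5, 35, 50, 51, 259], [34, 37, 53, 258,
     291], [[0], [9], [3], [17], [2], [8]]), (true, [81, 85, 261, 277], [16, 17, 21, 80], [[5], [17], [11], [1],
     [12], [7]]), (true, [1, 5, 81, 261, 277], [17, 21, 85, 257], [[0], [5], [7], [17], [1], [11]]), (true, [64, 65,
     69, 81, 277, 293, 325], [32, 33, 37, 80, 85, 257, 261, 292], [[4], [5], [7], [6], [2], [11]]), (true, [1, 81,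
     85, 277], [16, 17, 21, 80, 257, 261], [[5], [13], [11], [1], [6], [7]]), (true, [0, 20, 64, 80, 260, 293, 325],
     [16, 18, 21, 32, 258, 261, 292], [[10], [11], [12], [1], [8], [6]]), (false, [19, 48, 49, 51, 53, 80, 81, 85,
     259, 261, 275, 277], [21, 83, 257, 309], [[3], [5], [9], [12], [13], [17], [15, 1]])], (Tr.bt 5 (Tr.bt 261
     (Tr.lf 0) (Tr.bt 53 (Tr.lf 4) (Tr.lf 3))) (Tr.bt 69 (Tr.lf 2) (Tr.bt 53 (Tr.lf 5) (Tr.bt 261 (Tr.bt 80 (Tr.bt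
     85 (Tr.lf 8) (Tr.lf 9)) (Tr.lf 10)) (Tr.bt 85 (Tr.lf 7) (Tr.bt 80 (Tr.lf 6) (Tr.bt 83 (Tr.lf 11) (Tr.lf
     1))))))))),
    ([(true, [0, 1, 277], [5, 16, 17, 21, 257, 261], [[0], [13], [6], [7], [17], [12]]), (false, [0, 64, 66, 68, 69,
     80, 82, 84, 85, 260, 261, 292, 293], [32, 258, 325], [[6], [8], [12], [4], [5], [10], [11]]), (true, [1, 4, 5,
     20, 65, 68, 260], [17, 21, 69, 257, 276], [[0], [10], [4], [17], [1], [7]]), (true, [0, 1, 3, 19, 48, 53, 261],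
     [5, 16, 17, 21, 257, 275], [[9], [0], [12], [1], [7], [17]]), (true, [0, 1, 48, 49, 259, 261, 291], [5, 16, 21,
     32, 33, 37, 53, 258], [[3], [12], [0], [2], [17], [7]]), (true, [1, 3, 5, 19, 49, 51, 259], [17, 21, 53, 257,
     275], [[0], [9], [3], [17], [1], [7]]), (true, [1, 5, 81, 261, 277], [17, 21, 85, 257], [[0], [5], [7], [17],
     [1], [11]]), (true, [48, 49, 53, 81, 277, 309], [16, 17, 21, 80, 85, 257, 261, 275], [[3], [5], [7], [6], [1],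
     [11]]), (true, [81, 85, 261, 277], [16, 17, 21, 80], [[5], [17], [11], [1], [12], [7]]), (true, [1, 81, 85,
     277], [16, 17, 21, 80, 257, 261], [[5], [13], [11], [1], [6], [7]]), (true, [0, 19, 48, 80, 259, 277, 309],
     [16, 17, 21, 257, 261, 275], [[9], [11], [12], [1], [7], [6]]), (false, [20, 64, 66, 68, 69, 80, 82, 85, 260,
     261, 277, 292, 293], [21, 84, 258, 325], [[4], [5], [10], [12], [14], [17], [16, 1]])], (Tr.bt 5 (Tr.bt 261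
     (Tr.lf 0) (Tr.bt 53 (Tr.lf 4) (Tr.lf 3))) (Tr.bt 69 (Tr.lf 2) (Tr.bt 53 (Tr.lf 5) (Tr.bt 261 (Tr.bt 80 (Tr.bt
     85 (Tr.lf 7) (Tr.lf 9)) (Tr.lf 10)) (Tr.bt 85 (Tr.lf 6) (Tr.bt 80 (Tr.lf 8) (Tr.bt 84 (Tr.lf 11) (Tr.lf
     1))))))))),
    ([(true, [0, 1, 277], [5, 16, 17, 21, 257, 261], [[0], [13], [6], [7], [17], [12]]), (false, [64, 65, 67, 68,
     69, 80, 81, 83, 84, 85, 259, 260, 261, 276, 277, 308, 309], [257, 275, 325], [[6], [7], [9], [4], [5], [10],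
     [11]]), (true, [2, 4, 5, 36, 66, 68, 260], [34, 37, 69, 258, 292], [[0], [10], [4], [17], [2], [8]]), (true,
     [0, 1, 3, 19, 48, 53, 261], [5, 16, 17, 21, 257, 275], [[9], [0], [12], [1], [7], [17]]), (true, [0, 1, 48, 49,
     259, 261, 291], [5, 16, 21, 32, 33, 37, 53, 258], [[3], [12], [0], [2], [17], [7]]), (true, [1, 3, 5, 19, 49,
     51, 259], [17, 21, 53, 257, 275], [[0], [9], [3], [17], [1], [7]]), (true, [1, 5, 81, 261, 277], [17, 21, 85,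
     257], [[0], [5], [7], [17], [1], [11]]), (true, [48, 49, 53, 81, 277, 309], [16, 17, 21, 80, 85, 257, 261,
     275], [[3], [5], [7], [6], [1], [11]]), (true, [81, 85, 261, 277], [16, 17, 21, 80], [[5], [17], [11], [1],
     [12], [7]]), (true, [1, 81, 85, 277], [16, 17, 21, 80, 257, 261], [[5], [13], [11], [1], [6], [7]]), (true, [0,
     19, 48, 80, 259, 277, 309], [16, 17, 21, 257, 261, 275], [[9], [11], [12], [1], [7], [6]]), (false, [48, 49,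
     64, 65, 67, 68, 69, 80, 81, 84, 85, 308, 309], [83, 257, 325], [[4], [5], [9], [10], [11], [12], [13]]),
     (false, [20, 64, 65, 68, 69, 80, 81, 85, 260, 261, 276, 277], [21, 84, 257, 325], [[4], [5], [10], [12], [13],
     [17], [16, 1]])], (Tr.bt 5 (Tr.bt 261 (Tr.lf 0) (Tr.bt 53 (Tr.lf 4) (Tr.lf 3))) (Tr.bt 69 (Tr.lf 2) (Tr.bt 53
     (Tr.lf 5) (Tr.bt 261 (Tr.bt 80 (Tr.bt 85 (Tr.lf 7) (Tr.lf 9)) (Tr.lf 10)) (Tr.bt 85 (Tr.lf 6) (Tr.bt 80 (Tr.lf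
     8) (Tr.bt 84 (Tr.lf 12) (Tr.bt 83 (Tr.lf 11) (Tr.lf 1)))))))))),
    ([(true, [0, 1, 277], [5, 16, 17, 21, 257, 261], [[0], [13], [6], [7], [17], [12]]), (false, [64, 66, 67, 68,
     69, 80, 82, 83, 84, 85, 259, 260, 261, 292, 293, 308, 309], [258, 291, 325], [[6], [8], [9], [4], [5], [10],
     [11]]), (true, [1, 4, 5, 20, 65, 68, 260], [17, 21, 69, 257, 276], [[0], [10], [4], [17], [1], [7]]), (true,
     [0, 2, 3, 19, 48, 53, 261], [5, 16, 18, 21, 32, 37, 257, 291], [[9], [0], [12], [1], [8], [17]]), (true, [0, 1,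
     48, 49, 259, 261, 275], [5, 16, 17, 21, 53, 257], [[3], [12], [0], [1], [17], [7]]), (true, [2, 3, 5, 35, 50,
     51, 259], [34, 37, 53, 258, 291], [[0], [9], [3], [17], [2], [8]]), (true, [1, 5, 81, 261, 277], [17, 21, 85,
     257], [[0], [5], [7], [17], [1], [11]]), (true, [48, 49, 53, 81, 277, 293, 309], [32, 33, 37, 80, 85, 257, 261,
     291], [[3], [5], [7], [6], [2], [11]]), (true, [81, 85, 261, 277], [16, 17, 21, 80], [[5], [17], [11], [1],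
     [12], [7]]), (true, [1, 81, 85, 277], [16, 17, 21, 80, 257, 261], [[5], [13], [11], [1], [6], [7]]), (true, [0,
     19, 48, 80, 259, 293, 309], [16, 18, 21, 32, 258, 261, 291], [[9], [11], [12], [1], [8], [6]]), (false, [48,
     49, 64, 65, 67, 68, 69, 80, 81, 84, 85, 308, 309], [83, 257, 325], [[4], [5], [9], [10], [11], [12], [13]]),
     (false, [20, 64, 66, 68, 69, 80, 82, 85, 260, 261, 277, 292, 293], [21, 84, 258, 325], [[4], [5], [10], [12],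
     [14], [17], [16, 1]])], (Tr.bt 5 (Tr.bt 261 (Tr.lf 0) (Tr.bt 53 (Tr.lf 4) (Tr.lf 3))) (Tr.bt 69 (Tr.lf 2)
     (Tr.bt 53 (Tr.lf 5) (Tr.bt 261 (Tr.bt 80 (Tr.bt 85 (Tr.lf 7) (Tr.lf 9)) (Tr.lf 10)) (Tr.bt 85 (Tr.lf 6) (Tr.bt
     80 (Tr.lf 8) (Tr.bt 84 (Tr.lf 12) (Tr.bt 83 (Tr.lf 11) (Tr.lf 1)))))))))),
    ([(true, [0, 1, 277], [5, 16, 17, 21, 257, 261], [[0], [13], [6], [7], [17], [12]]), (false, [0, 64, 65, 68, 69,
     80, 81, 84, 85, 260, 261, 276, 277], [16, 257, 325], [[6], [7], [12], [4], [5], [10], [11]]), (true, [2, 4, 5,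
     36, 66, 68, 260], [34, 37, 69, 258, 292], [[0], [10], [4], [17], [2], [8]]), (true, [0, 2, 3, 19, 48, 53, 261],
     [5, 16, 18, 21, 32, 37, 257, 291], [[9], [0], [12], [1], [8], [17]]), (true, [0, 1, 48, 49, 259, 261, 275], [5,
     16, 17, 21, 53, 257], [[3], [12], [0], [1], [17], [7]]), (true, [2, 3, 5, 35, 50, 51, 259], [34, 37, 53, 258,
     291], [[0], [9], [3], [17], [2], [8]]), (true, [1, 5, 81, 261, 277], [17, 21, 85, 257], [[0], [5], [7], [17],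
     [1], [11]]), (true, [48, 49, 53, 81, 277, 293, 309], [32, 33, 37, 80, 85, 257, 261, 291], [[3], [5], [7], [6],
     [2], [11]]), (true, [81, 85, 261, 277], [16, 17, 21, 80], [[5], [17], [11], [1], [12], [7]]), (true, [1, 81,
     85, 277], [16, 17, 21, 80, 257, 261], [[5], [13], [11], [1], [6], [7]]), (true, [0, 19, 48, 80, 259, 293, 309],
     [16, 18, 21, 32, 258, 261, 291], [[9], [11], [12], [1], [8], [6]]), (false, [20, 64, 65, 68, 69, 80, 81, 85,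
     260, 261, 276, 277], [21, 84, 257, 325], [[4], [5], [10], [12], [13], [17], [16, 1]])], (Tr.bt 5 (Tr.bt 261
     (Tr.lf 0) (Tr.bt 53 (Tr.lf 4) (Tr.lf 3))) (Tr.bt 69 (Tr.lf 2) (Tr.bt 53 (Tr.lf 5) (Tr.bt 261 (Tr.bt 80 (Tr.bt
     85 (Tr.lf 7) (Tr.lf 9)) (Tr.lf 10)) (Tr.bt 85 (Tr.lf 6) (Tr.bt 80 (Tr.lf 8) (Tr.bt 84 (Tr.lf 11) (Tr.lf
     1))))))))),
    ([(true, [0, 1, 3, 19, 21, 259], [5, 16, 17, 257, 261, 275, 277, 309], [[0], [7], [15], [13], [17], [12]]),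
     (false, [3, 5, 19, 21, 51, 53, 83, 85, 259], [257, 275, 309], [[0], [1], [3], [9], [11], [15], [17]]), (true,
     [0, 1, 3, 19, 21, 48], [5, 16, 17, 80, 275, 277, 309], [[0], [7], [15], [13], [17], [18]]), (false, [0, 1, 2,
     21, 37, 48, 49, 50, 80, 81, 82, 261, 274], [5, 16, 32, 257, 309], [[13], [18], [14], [3], [5], [6], [23, 7]]),
     (true, [0, 1, 5, 21, 81, 85, 261], [16, 17, 80, 257, 277], [[0], [11], [5], [12], [1], [7]]), (true, [0, 1, 5,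
     21, 81], [16, 17, 257, 261, 277], [[0], [11], [13], [7], [1], [6]]), (false, [1, 3, 5, 19, 21, 49, 51, 53, 81,
     259], [17, 85, 257, 275, 277, 309], [[0], [1], [3], [9], [11], [23, 13], [19, 17]]), (true, [19, 21, 49, 51,
     83], [53, 85, 275, 277, 309], [[15], [7], [3], [11], [17], [9]]), (true, [19, 21, 51, 81], [53, 83, 85, 275,
     277, 309], [[1], [17, 7], [15], [11], [5], [9]]), (false, [1, 3, 5, 19, 21, 49, 51, 53, 81, 85, 259], [83, 257,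
     275, 277, 309], [[0], [1], [3], [9], [11], [17], [21, 13]]), (false, [1, 3, 5, 19, 21, 49, 51, 81, 85, 259],
     [53, 83, 257, 275], [[0], [1], [3], [9], [17, 7], [15], [13, 11]]), (false, [1, 3, 5, 19, 21, 49, 51, 81, 83,
     85, 261], [53, 257, 275, 277, 309], [[0], [1], [5], [9], [11], [15], [23, 13]])], (Tr.bt 5 (Tr.bt 261 (Tr.lf 0)
     (Tr.bt 80 (Tr.lf 2) (Tr.lf 3))) (Tr.bt 261 (Tr.lf 5) (Tr.bt 85 (Tr.bt 53 (Tr.bt 83 (Tr.lf 8) (Tr.lf 7)) (Tr.lf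
     6)) (Tr.bt 80 (Tr.lf 4) (Tr.bt 53 (Tr.bt 83 (Tr.lf 10) (Tr.lf 11)) (Tr.bt 83 (Tr.lf 9) (Tr.lf 1)))))))),
    ([(true, [0, 1, 3, 19, 21, 259], [5, 16, 17, 257, 261, 275, 277, 309], [[0], [7], [15], [13], [17], [12]]),
     (false, [3, 5, 19, 21, 51, 53, 83, 85, 259], [257, 275, 309], [[0], [1], [3], [9], [11], [15], [17]]), (false,
     [1, 2, 3, 4, 19, 20, 21, 49, 50, 51, 52, 81, 82, 84, 259, 274, 276, 291], [5, 17, 53, 275, 292], [[0], [11],
     [3], [13], [15, 1], [14], [16]]), (true, [0, 1, 3, 48, 49, 81], [5, 16, 17, 80, 257, 275, 277, 309], [[0],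
     [13], [9], [7], [11], [12]]), (true, [20, 21, 68, 276, 325], [69, 84, 85, 277], [[1], [4], [10], [17], [5],
     [11]]), (false, [1, 2, 3, 4, 65, 66, 67, 68, 81, 82, 83, 84, 260, 274, 276, 291, 308], [5, 69, 275, 292], [[0],
     [11], [4], [13], [15], [14], [16]]), (true, [0, 4, 80, 261, 325], [5, 84, 85], [[6], [16], [0], [11], [17],
     [5]]), (false, [0, 1, 2, 4, 20, 21, 36, 37, 80, 81, 82, 85, 260, 261, 274, 325], [5, 16, 32, 84], [[7], [12],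
     [8], [0], [17], [5], [16]]), (false, [1, 2, 3, 4, 19, 21, 35, 37, 51, 53, 67, 69, 274, 276, 291, 308], [5, 275,
     292, 309], [[0], [17], [15], [7], [9], [8], [10]]), (false, [19, 20, 49, 50, 51, 52, 81, 82, 84, 274, 276,
     291], [17, 83, 275, 292, 309], [[3], [5], [9], [13], [15, 7], [14], [16]]), (true, [19, 21, 49, 51, 83], [53,
     85, 275, 277, 309], [[15], [7], [3], [11], [17], [9]]), (false, [0, 4, 5, 20, 21, 68, 85, 260, 261, 325], [16,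
     69, 84, 257], [[0], [1], [6], [10], [17], [11], [16]]), (true, [0, 1, 5, 21, 81], [16, 17, 257, 261, 277],
     [[0], [11], [13], [7], [1], [6]]), (true, [49, 51, 52, 81, 276, 308, 325], [53, 83, 84, 85, 275, 277, 309],
     [[10], [7], [3], [11], [5], [9]]), (true, [0, 1, 5, 21, 81, 85, 261], [16, 17, 80, 257, 277], [[0], [11], [5],
     [12], [1], [7]]), (false, [0, 2, 3, 4, 5, 19, 20, 21, 50, 52, 82, 85, 259, 325], [16, 53, 84, 257, 292], [[0],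
     [1], [6], [9], [17], [16], [14, 11]]), (false, [49, 50, 51, 52, 53, 81, 82, 83, 84, 274, 276, 291, 308], [85,
     275, 292, 309], [[3], [5], [11], [13], [15], [14], [16]]), (false, [19, 20, 21, 35, 36, 37, 51, 52, 53, 67, 68,
     69, 274, 276, 291, 308], [84, 275, 292, 309], [[9], [11], [16], [1], [3], [2], [4]]), (false, [49, 50, 51, 52,
     81, 82, 83, 84, 274, 276, 291, 308], [53, 275, 292, 309], [[3], [11], [9], [13], [15], [14], [16]])], (Tr.bt 5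
     (Tr.bt 261 (Tr.lf 0) (Tr.bt 80 (Tr.lf 3) (Tr.bt 84 (Tr.bt 85 (Tr.lf 6) (Tr.lf 7)) (Tr.bt 53 (Tr.lf 2) (Tr.bt 69
     (Tr.bt 83 (Tr.lf 9) (Tr.lf 5)) (Tr.lf 8)))))) (Tr.bt 261 (Tr.lf 12) (Tr.bt 85 (Tr.bt 84 (Tr.bt 69 (Tr.lf 4)
     (Tr.bt 53 (Tr.bt 83 (Tr.lf 13) (Tr.lf 10)) (Tr.lf 17))) (Tr.bt 83 (Tr.lf 9) (Tr.bt 53 (Tr.lf 10) (Tr.lf 16))))
     (Tr.bt 80 (Tr.lf 14) (Tr.bt 84 (Tr.bt 69 (Tr.lf 11) (Tr.bt 53 (Tr.lf 15) (Tr.lf 17))) (Tr.bt 83 (Tr.lf 9)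
     (Tr.bt 53 (Tr.lf 18) (Tr.lf 1))))))))),
    ([(true, [0, 1, 2, 3, 19, 21, 259], [5, 16, 18, 258, 261, 291, 293, 309], [[0], [7], [15], [14], [17], [12]]),
     (true, [0, 1, 5, 21, 81, 85, 261], [16, 17, 80, 257, 277], [[0], [11], [5], [12], [1], [7]]), (false, [1, 2, 3,
     4, 19, 20, 21, 49, 50, 52, 81, 82, 84, 259, 274, 275, 292], [5, 18, 53, 276, 291], [[0], [11], [3], [13], [16],
     [14], [15, 1]]), (true, [0, 1, 2, 3, 48, 49, 81], [5, 32, 33, 80, 257, 291, 293, 309], [[0], [13], [9], [8],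
     [11], [12]]), (true, [36, 37, 68, 292, 325], [69, 84, 85, 293], [[2], [4], [10], [17], [5], [11]]), (false, [1,
     2, 3, 4, 65, 66, 67, 68, 81, 82, 83, 84, 260, 274, 275, 292, 308], [5, 69, 276, 291], [[0], [11], [4], [13],
     [16], [14], [15]]), (true, [0, 4, 80, 261, 325], [5, 84, 85], [[6], [16], [0], [11], [17], [5]]), (false, [0,
     1, 2, 4, 20, 21, 36, 37, 80, 81, 82, 85, 260, 261, 274, 325], [5, 16, 32, 84], [[7], [12], [8], [0], [17], [5],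
     [16]]), (false, [1, 2, 3, 4, 19, 21, 35, 37, 51, 53, 67, 69, 274, 275, 292, 308], [5, 276, 291, 309], [[0],
     [17], [15], [7], [10], [8], [9]]), (false, [19, 20, 49, 50, 51, 52, 81, 82, 84, 274, 275, 292], [18, 83, 276,
     291, 309], [[3], [5], [9], [13], [16], [14], [15, 7]]), (true, [35, 37, 50, 51, 83], [53, 85, 291, 293, 309],
     [[15], [8], [3], [11], [17], [9]]), (false, [3, 5, 19, 21, 51, 53, 83, 85, 261], [257, 277, 309], [[0], [1],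
     [5], [9], [11], [15], [17]]), (false, [0, 4, 5, 20, 21, 68, 85, 260, 261, 325], [16, 69, 84, 257], [[0], [1],
     [6], [10], [17], [11], [16]]), (true, [0, 1, 5, 21, 81], [16, 17, 257, 261, 277], [[0], [11], [13], [7], [1],
     [6]]), (true, [50, 51, 52, 82, 292, 308, 325], [53, 83, 84, 85, 291, 293, 309], [[10], [8], [3], [11], [5],
     [9]]), (false, [4, 5, 20, 21, 49, 52, 68, 69, 81, 85, 259, 260, 275, 308, 325], [53, 84, 257, 276], [[0], [1],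
     [4], [3], [17], [16], [13, 11]]), (false, [49, 50, 51, 52, 53, 81, 82, 83, 84, 274, 275, 292, 308], [85, 276,
     291, 309], [[3], [5], [11], [13], [16], [14], [15]]), (false, [19, 20, 21, 35, 36, 37, 51, 52, 53, 67, 68, 69,
     274, 275, 292, 308], [84, 276, 291, 309], [[9], [11], [16], [1], [4], [2], [3]]), (false, [49, 50, 51, 52, 81,
     82, 83, 84, 274, 275, 292, 308], [53, 276, 291, 309], [[3], [11], [9], [13], [16], [14], [15]]), (true, [0, 5,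
     21, 261], [16, 80, 85, 257, 277], [[0], [11], [6], [5], [1], [12]])], (Tr.bt 5 (Tr.bt 261 (Tr.lf 0) (Tr.bt 80
     (Tr.lf 3) (Tr.bt 84 (Tr.bt 85 (Tr.lf 6) (Tr.lf 7)) (Tr.bt 53 (Tr.lf 2) (Tr.bt 69 (Tr.bt 83 (Tr.lf 9) (Tr.lf 5))
     (Tr.lf 8)))))) (Tr.bt 261 (Tr.lf 13) (Tr.bt 85 (Tr.bt 80 (Tr.lf 19) (Tr.bt 84 (Tr.bt 69 (Tr.lf 4) (Tr.bt 53
     (Tr.bt 83 (Tr.lf 14) (Tr.lf 10)) (Tr.lf 17))) (Tr.bt 83 (Tr.lf 9) (Tr.bt 53 (Tr.lf 10) (Tr.lf 16))))) (Tr.bt 80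
     (Tr.lf 1) (Tr.bt 84 (Tr.bt 69 (Tr.lf 12) (Tr.bt 53 (Tr.lf 15) (Tr.lf 17))) (Tr.bt 83 (Tr.lf 9) (Tr.bt 53 (Tr.lf
     18) (Tr.lf 11))))))))),
    ([(true, [0, 1, 2, 3, 19, 21, 259], [5, 16, 18, 258, 261, 291, 293, 309], [[0], [7], [15], [14], [17], [12]]),
     (true, [0, 1, 2, 3, 19, 21, 48], [5, 16, 18, 32, 80, 291, 293, 309], [[0], [7], [15], [14], [17], [18]]),
     (false, [0, 1, 2, 21, 37, 48, 49, 50, 80, 81, 82, 261, 274], [5, 16, 32, 257, 309], [[13], [18], [14], [3],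
     [5], [6], [23, 7]]), (true, [0, 1, 5, 21, 81], [16, 17, 257, 261, 277], [[0], [11], [13], [7], [1], [6]]),
     (false, [0, 1, 3, 5, 19, 21, 49, 81, 259, 261], [16, 17, 85, 257, 277, 309], [[0], [1], [6], [9], [11], [23,
     13], [19, 17]]), (false, [0, 1, 3, 5, 19, 21, 49, 53, 81, 85, 259, 261, 275], [16, 257, 277, 309], [[0], [1],
     [6], [9], [11], [17], [15, 13]]), (false, [3, 5, 19, 21, 49, 51, 81, 85, 259, 261, 275], [53, 257, 277], [[0],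
     [1], [5], [11], [7, 3], [17], [13, 9]])], (Tr.bt 5 (Tr.bt 261 (Tr.lf 0) (Tr.bt 80 (Tr.lf 1) (Tr.lf 2))) (Tr.bt
     261 (Tr.lf 3) (Tr.bt 85 (Tr.lf 4) (Tr.bt 53 (Tr.lf 6) (Tr.lf 5)))))),
    ([(true, [0, 1, 4, 20, 21, 260], [5, 16, 17, 257, 261, 276, 277, 325], [[0], [7], [16], [13], [17], [12]]),
     (false, [4, 5, 20, 21, 52, 53, 68, 69, 84, 85, 259], [257, 275, 325], [[0], [1], [3], [10], [11], [16], [17]]),
     (true, [0, 1, 5, 21, 81, 85, 261], [16, 17, 80, 257, 277], [[0], [11], [5], [12], [1], [7]]), (true, [0, 1, 4,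
     20, 21, 64], [5, 16, 17, 80, 276, 277, 325], [[0], [7], [16], [13], [17], [18]]), (true, [35, 37, 51, 291,
     309], [53, 83, 85, 293], [[2], [3], [9], [17], [5], [11]]), (false, [0, 1, 2, 21, 37, 64, 65, 66, 80, 81, 82,
     261, 274], [5, 16, 32, 257, 325], [[13], [18], [14], [4], [5], [6], [23, 7]]), (true, [0, 1, 5, 21, 81], [16,
     17, 257, 261, 277], [[0], [11], [13], [7], [1], [6]]), (false, [1, 4, 5, 20, 21, 49, 52, 53, 65, 68, 81, 84,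
     259], [69, 257, 275, 276, 325], [[0], [1], [3], [10], [11], [16], [23, 13]]), (false, [0, 3, 5, 19, 21, 51, 85,
     259, 261, 309], [16, 53, 83, 257], [[0], [1], [6], [9], [17], [11], [15]]), (false, [1, 3, 4, 5, 19, 20, 21,
     65, 67, 68, 69, 81, 83, 260], [53, 257, 275, 276, 325], [[0], [1], [4], [10], [11], [15], [23, 13]]), (true,
     [19, 21, 49, 51, 52, 67, 83], [53, 69, 85, 276, 277, 325], [[15], [7], [3], [11], [23], [10]]), (false, [2, 3,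
     5, 19, 20, 21, 37, 82, 83, 85, 261, 291, 292, 309], [53, 257, 277, 293, 325], [[0], [1], [5], [9], [17], [11],
     [10, 8]]), (false, [1, 4, 5, 20, 21, 49, 52, 53, 65, 81, 259], [17, 84, 257, 275, 276, 277, 325], [[0], [1],
     [3], [10], [11], [22, 13], [19, 17]]), (false, [1, 4, 5, 20, 21, 49, 52, 53, 65, 81, 259], [17, 85, 257, 275,
     277, 325], [[0], [1], [3], [10], [11], [23, 13], [19, 17]])], (Tr.bt 5 (Tr.bt 261 (Tr.lf 0) (Tr.bt 80 (Tr.lf 3)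
     (Tr.lf 5))) (Tr.bt 261 (Tr.lf 6) (Tr.bt 53 (Tr.bt 85 (Tr.bt 83 (Tr.lf 4) (Tr.bt 69 (Tr.lf 10) (Tr.lf 9)))
     (Tr.bt 80 (Tr.lf 2) (Tr.bt 83 (Tr.lf 8) (Tr.lf 11)))) (Tr.bt 84 (Tr.lf 12) (Tr.bt 69 (Tr.lf 7) (Tr.bt 85 (Tr.lf
     13) (Tr.lf 1)))))))),
    ([(true, [0, 1, 2, 4, 20, 21, 260], [5, 16, 18, 258, 261, 292, 293, 325], [[0], [7], [16], [14], [17], [12]]),
     (false, [4, 5, 20, 21, 52, 53, 68, 69, 84, 85, 259], [257, 275, 325], [[0], [1], [3], [10], [11], [16], [17]]),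
     (true, [0, 1, 5, 21, 81, 85, 261], [16, 17, 80, 257, 277], [[0], [11], [5], [12], [1], [7]]), (true, [0, 1, 2,
     4, 64, 65, 81], [5, 32, 33, 80, 257, 292, 293, 325], [[0], [13], [10], [8], [11], [12]]), (false, [0, 1, 2, 3,
     19, 21, 35, 37, 80, 81, 82, 85, 259, 261, 274, 309], [5, 16, 32, 83], [[7], [12], [8], [0], [17], [5], [15]]),
     (true, [35, 37, 51, 291, 309], [53, 83, 85, 293], [[2], [3], [9], [17], [5], [11]]), (false, [1, 2, 3, 4, 81,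
     82, 83, 84, 261, 274, 276, 291, 308], [5, 85, 275, 292], [[0], [11], [5], [13], [15], [14], [16]]), (true, [4,
     68, 69, 260, 261], [5, 84, 85, 325], [[4], [0], [10], [11], [5], [17]]), (true, [0, 3, 80, 261, 309], [5, 83,
     85], [[6], [15], [0], [11], [17], [5]]), (true, [20, 21, 37, 66, 68, 82, 276], [69, 84, 85, 277, 292, 293,
     325], [[1], [17, 8], [4], [11], [5], [10]]), (false, [1, 2, 3, 4, 20, 21, 36, 37, 52, 53, 68, 69, 274, 276,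
     291, 308], [5, 275, 292, 325], [[0], [17], [16], [7], [9], [8], [10]]), (false, [0, 1, 21, 48, 49, 64, 65, 80,
     81, 85, 259, 260, 261, 276, 308, 309], [5, 53, 257, 277, 325], [[0], [11], [3], [5], [4, 1], [12], [13]]),
     (false, [1, 2, 3, 4, 19, 20, 21, 65, 66, 67, 81, 82, 83, 260, 274, 276, 291], [5, 18, 69, 275, 292], [[0],
     [11], [4], [13], [15], [14], [16, 1]]), (true, [0, 1, 5, 21, 81], [16, 17, 257, 261, 277], [[0], [11], [13],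
     [7], [1], [6]]), (true, [0, 5, 21, 261], [16, 80, 85, 257, 277], [[0], [11], [6], [5], [1], [12]]), (false, [0,
     3, 5, 19, 21, 51, 85, 259, 261, 309], [16, 53, 83, 257], [[0], [1], [6], [9], [17], [11], [15]]), (false, [3,
     5, 19, 21, 65, 67, 81, 83, 85, 260, 261, 276, 309], [53, 69, 257, 277], [[0], [1], [5], [9], [17], [11], [7,
     4]]), (false, [65, 66, 67, 68, 69, 81, 82, 83, 84, 274, 276, 291, 308], [85, 275, 292, 325], [[4], [5], [11],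
     [13], [15], [14], [16]]), (true, [36, 66, 68, 69, 82], [84, 85, 292, 293, 325], [[4], [8], [16], [11], [5],
     [10]]), (true, [36, 37, 66, 68, 84], [69, 85, 292, 293, 325], [[16], [8], [4], [11], [17], [10]]), (false, [19,
     20, 21, 35, 36, 37, 51, 52, 53, 67, 68, 69, 274, 276, 291, 308], [83, 275, 292, 325], [[10], [11], [15], [1],
     [3], [2], [4]]), (false, [0, 3, 4, 5, 19, 20, 21, 69, 85, 259, 260, 261, 308, 309], [16, 53, 257, 325], [[0],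
     [1], [6], [9], [17], [10], [11]]), (false, [3, 5, 19, 21, 51, 53, 65, 67, 81, 85, 259, 260, 276, 308, 309],
     [69, 83, 257, 275], [[0], [1], [3], [4], [17], [15], [13, 11]]), (false, [20, 21, 36, 37, 52, 53, 68, 69, 274,
     276, 291, 308], [84, 275, 292, 325], [[10], [11], [16], [1], [3], [2], [4]]), (false, [65, 66, 67, 68, 81, 82,
     83, 84, 274, 276, 291, 308], [69, 275, 292, 325], [[4], [11], [10], [13], [15], [14], [16]]), (false, [19, 20,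
     65, 66, 67, 68, 81, 82, 83, 274, 276, 291], [18, 84, 275, 292, 325], [[4], [5], [10], [13], [15], [14], [16,
     7]])], (Tr.bt 5 (Tr.bt 261 (Tr.lf 0) (Tr.bt 80 (Tr.lf 3) (Tr.bt 83 (Tr.bt 85 (Tr.lf 8) (Tr.lf 4)) (Tr.bt 69
     (Tr.lf 12) (Tr.bt 53 (Tr.bt 85 (Tr.bt 84 (Tr.lf 7) (Tr.lf 6)) (Tr.lf 11)) (Tr.lf 10)))))) (Tr.bt 261 (Tr.lf 13)
     (Tr.bt 85 (Tr.bt 80 (Tr.lf 14) (Tr.bt 69 (Tr.bt 84 (Tr.lf 9) (Tr.lf 19)) (Tr.bt 84 (Tr.lf 18) (Tr.bt 83 (Tr.bt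
     53 (Tr.lf 5) (Tr.lf 20)) (Tr.lf 17))))) (Tr.bt 80 (Tr.lf 2) (Tr.bt 53 (Tr.bt 83 (Tr.lf 15) (Tr.bt 69 (Tr.lf 16)
     (Tr.lf 21))) (Tr.bt 69 (Tr.bt 83 (Tr.lf 22) (Tr.bt 84 (Tr.lf 25) (Tr.lf 24))) (Tr.bt 84 (Tr.lf 23) (Tr.lf
     1))))))))),
    ([(true, [0, 1, 4, 20, 21, 260], [5, 16, 17, 257, 261, 276, 277, 325], [[0], [7], [16], [13], [17], [12]]),
     (false, [4, 5, 20, 21, 68, 69, 84, 85, 260], [257, 276, 325], [[0], [1], [4], [10], [11], [16], [17]]), (true,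
     [0, 1, 5, 21, 81, 85, 261], [16, 17, 80, 257, 277], [[0], [11], [5], [12], [1], [7]]), (true, [0, 1, 4, 64, 65,
     81], [5, 16, 17, 80, 257, 276, 277, 325], [[0], [13], [10], [7], [11], [12]]), (false, [0, 1, 2, 3, 19, 21, 35,
     37, 80, 81, 82, 85, 259, 261, 274, 309], [5, 16, 32, 83], [[7], [12], [8], [0], [17], [5], [15]]), (true, [19,
     21, 51, 275, 309], [53, 83, 85, 277], [[1], [3], [9], [17], [5], [11]]), (false, [1, 2, 3, 4, 81, 82, 83, 84,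
     261, 274, 275, 292, 308], [5, 85, 276, 291], [[0], [11], [5], [13], [16], [14], [15]]), (true, [4, 68, 69, 260,
     261], [5, 84, 85, 325], [[4], [0], [10], [11], [5], [17]]), (true, [0, 3, 80, 261, 309], [5, 83, 85], [[6],
     [15], [0], [11], [17], [5]]), (true, [20, 21, 68, 81], [69, 84, 85, 276, 277, 325], [[1], [17, 7], [16], [11],
     [5], [10]]), (false, [1, 2, 3, 4, 20, 21, 36, 37, 52, 53, 68, 69, 274, 275, 292, 308], [5, 276, 291, 325],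
     [[0], [17], [16], [7], [10], [8], [9]]), (false, [1, 2, 3, 4, 19, 20, 21, 65, 66, 67, 68, 81, 82, 83, 260, 274,
     275, 292], [5, 17, 69, 276, 291], [[0], [11], [4], [13], [16, 1], [14], [15]]), (false, [0, 1, 48, 49, 64, 65,
     69, 80, 81, 85, 259, 260, 261, 308, 309], [5, 53, 257, 325], [[0], [11], [3], [4], [5], [12], [13]]), (true,
     [0, 5, 21, 64, 69, 260, 261], [16, 80, 85, 257, 276, 277, 325], [[0], [11], [4], [5], [1], [12]]), (true, [0,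
     1, 5, 21, 81], [16, 17, 257, 261, 277], [[0], [11], [13], [7], [1], [6]]), (false, [19, 20, 65, 66, 67, 68, 81,
     82, 83, 274, 275, 292], [17, 84, 276, 291, 325], [[4], [5], [10], [13], [16, 7], [14], [15]]), (false, [19, 20,
     21, 35, 36, 37, 51, 52, 53, 67, 68, 69, 274, 275, 292, 308], [83, 276, 291, 325], [[10], [11], [15], [1], [4],
     [2], [3]]), (false, [0, 3, 5, 19, 21, 51, 85, 259, 261, 309], [16, 53, 83, 257], [[0], [1], [6], [9], [17],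
     [11], [15]]), (true, [20, 21, 65, 68, 84], [69, 85, 276, 277, 325], [[16], [7], [4], [11], [17], [10]]),
     (false, [65, 66, 67, 68, 69, 81, 82, 83, 84, 274, 275, 292, 308], [85, 276, 291, 325], [[4], [5], [11], [13],
     [16], [14], [15]]), (false, [0, 3, 4, 5, 19, 20, 21, 66, 67, 82, 85, 260, 261, 309], [16, 69, 83, 257, 291],
     [[0], [1], [6], [10], [17], [15], [14, 11]]), (false, [65, 66, 67, 68, 81, 82, 83, 84, 274, 275, 292, 308],
     [69, 276, 291, 325], [[4], [11], [10], [13], [16], [14], [15]]), (true, [20, 65, 68, 69, 81], [84, 85, 276,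
     277, 325], [[4], [7], [16], [11], [5], [10]])], (Tr.bt 5 (Tr.bt 261 (Tr.lf 0) (Tr.bt 80 (Tr.lf 3) (Tr.bt 83
     (Tr.bt 85 (Tr.lf 8) (Tr.lf 4)) (Tr.bt 69 (Tr.lf 11) (Tr.bt 53 (Tr.bt 85 (Tr.bt 84 (Tr.lf 7) (Tr.lf 6)) (Tr.lf
     12)) (Tr.lf 10)))))) (Tr.bt 261 (Tr.lf 14) (Tr.bt 85 (Tr.bt 69 (Tr.bt 84 (Tr.lf 9) (Tr.lf 18)) (Tr.bt 80 (Tr.lf
     13) (Tr.bt 84 (Tr.lf 22) (Tr.bt 83 (Tr.bt 53 (Tr.lf 5) (Tr.lf 16)) (Tr.lf 19))))) (Tr.bt 80 (Tr.lf 2) (Tr.bt 83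
     (Tr.bt 53 (Tr.lf 17) (Tr.bt 69 (Tr.lf 20) (Tr.lf 16))) (Tr.bt 84 (Tr.lf 15) (Tr.bt 69 (Tr.lf 21) (Tr.lf
     1))))))))),
    ([(true, [0, 1, 2, 4, 20, 21, 260], [5, 16, 18, 258, 261, 292, 293, 325], [[0], [7], [16], [14], [17], [12]]),
     (true, [0, 1, 2, 4, 20, 21, 64], [5, 16, 18, 32, 80, 292, 293, 325], [[0], [7], [16], [14], [17], [18]]),
     (false, [0, 1, 2, 21, 37, 64, 65, 66, 80, 81, 82, 261, 274], [5, 16, 32, 257, 325], [[13], [18], [14], [4],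
     [5], [6], [23, 7]]), (true, [0, 1, 5, 21, 81], [16, 17, 257, 261, 277], [[0], [11], [13], [7], [1], [6]]),
     (false, [0, 1, 4, 5, 20, 21, 65, 69, 81, 85, 260, 261, 276], [16, 257, 277, 325], [[0], [1], [6], [10], [11],
     [17], [16, 13]]), (false, [0, 1, 4, 5, 20, 21, 65, 81, 260, 261], [16, 17, 85, 257, 277, 325], [[0], [1], [6],
     [10], [11], [23, 13], [19, 17]]), (false, [4, 5, 20, 21, 65, 68, 81, 85, 260, 261, 276], [69, 257, 277], [[0],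
     [1], [5], [11], [7, 4], [17], [13, 10]])], (Tr.bt 5 (Tr.bt 261 (Tr.lf 0) (Tr.bt 80 (Tr.lf 1) (Tr.lf 2))) (Tr.bt
     261 (Tr.lf 3) (Tr.bt 85 (Tr.lf 5) (Tr.bt 69 (Tr.lf 6) (Tr.lf 4)))))),
    ([(false, [0, 1, 3, 35, 37, 48, 49, 51, 80, 81, 83, 259, 261, 277, 291, 293], [32, 258, 275, 309], [[0], [2],
     [6], [3], [5], [9], [11, 7]]), (false, [1, 3, 19, 21, 49, 51, 81, 83, 259, 277], [261, 275, 309], [[0], [5],
     [3], [7], [9], [15], [17, 13]]), (false, [1, 3, 19, 21, 49, 51, 81, 259, 277], [83, 257, 275], [[0], [1], [3],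
     [9], [7, 5], [15], [13, 11]]), (false, [0, 1, 3, 5, 19, 21, 49, 51, 81, 83, 259, 261, 277], [16, 257, 275,
     309], [[0], [1], [6], [9], [11], [15], [17, 13]]), (true, [0, 3, 83, 259, 261], [5, 80, 85, 309], [[15], [12],
     [0], [11], [17], [5]]), (false, [0, 1, 3, 49, 51, 81, 83, 85, 259, 261], [5, 80, 275, 309], [[0], [11], [9],
     [5], [6], [13], [15]])], (Tr.bt 83 (Tr.lf 2) (Tr.bt 261 (Tr.lf 1) (Tr.bt 80 (Tr.bt 5 (Tr.bt 85 (Tr.lf 4) (Tr.lf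
     5)) (Tr.lf 3)) (Tr.lf 0))))),
    ([(false, [1, 2, 4, 49, 50, 52, 65, 81, 82, 259, 276, 277, 293, 325], [5, 17, 53, 84, 292], [[0], [11], [3],
     [7], [13], [10], [8, 5]]), (false, [3, 5, 19, 21, 51, 53, 83, 85, 259], [257, 275, 309], [[0], [1], [3], [9],
     [11], [15], [17]]), (false, [49, 50, 51, 52, 81, 82, 83, 84, 274, 276, 291, 308], [53, 275, 292, 309], [[3],
     [11], [9], [13], [15], [14], [16]]), (false, [0, 2, 3, 4, 5, 19, 20, 21, 50, 52, 82, 259, 277, 293, 325], [16,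
     53, 84, 257, 292], [[0], [1], [6], [9], [17], [16], [14, 5]]), (false, [19, 20, 49, 50, 51, 52, 81, 82, 84,
     274, 276, 277, 291], [17, 83, 275, 292, 309], [[3], [5], [9], [13], [15, 1], [14], [16]]), (false, [1, 2, 3, 4,
     49, 50, 51, 52, 81, 82, 83, 84, 259, 274, 276, 291, 308], [261, 275, 292, 309], [[0], [5], [3], [7], [9], [8],
     [10]]), (false, [20, 21, 36, 37, 68, 85, 274, 276, 277, 325], [17, 33, 69, 84], [[1], [7], [2], [10], [17],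
     [11], [16]]), (true, [52, 53, 68, 308, 325], [69, 84, 85, 309], [[3], [4], [10], [17], [5], [11]]), (false,
     [19, 20, 21, 35, 36, 37, 51, 52, 53, 67, 68, 69, 274, 276, 291, 308], [84, 275, 292, 309], [[9], [11], [16],
     [1], [3], [2], [4]]), (false, [1, 2, 3, 4, 48, 49, 50, 51, 52, 81, 82, 83, 84, 274, 276, 291, 308], [80, 275,
     292, 309], [[3], [5], [6], [13], [15], [14], [16]]), (false, [49, 50, 51, 52, 53, 81, 82, 83, 84, 274, 276,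
     291, 308], [85, 275, 292, 309], [[3], [5], [11], [13], [15], [14], [16]]), (false, [0, 2, 3, 48, 50, 51, 53,
     80, 82, 83, 85, 259, 261, 291, 293], [5, 258, 309], [[0], [11], [9], [3], [5], [6], [8]])], (Tr.bt 84 (Tr.bt 53
     (Tr.bt 5 (Tr.lf 0) (Tr.lf 3)) (Tr.bt 69 (Tr.bt 85 (Tr.lf 7) (Tr.lf 6)) (Tr.lf 8))) (Tr.bt 83 (Tr.lf 4) (Tr.bt
     261 (Tr.lf 5) (Tr.bt 53 (Tr.lf 2) (Tr.bt 80 (Tr.lf 9) (Tr.bt 85 (Tr.lf 10) (Tr.bt 5 (Tr.lf 11) (Tr.lf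
     1))))))))),
    ([(false, [1, 2, 3, 4, 19, 20, 21, 49, 50, 52, 259, 274, 275, 277, 292, 293, 325], [5, 18, 53, 276, 291], [[0],
     [11], [3], [7], [10], [8], [9, 1]]), (false, [49, 50, 51, 52, 81, 82, 83, 84, 274, 275, 292, 308], [53, 276,
     291, 309], [[3], [11], [9], [13], [16], [14], [15]]), (false, [1, 4, 5, 20, 21, 49, 52, 68, 69, 81, 259, 260,
     275, 277, 308, 325], [53, 84, 257, 276], [[0], [1], [4], [3], [11], [10], [7, 5]]), (false, [1, 2, 4, 5, 20,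
     21, 49, 50, 52, 259, 274, 275, 277, 292, 293, 325], [18, 53, 69, 257, 276], [[0], [1], [8], [3], [11], [10],
     [17, 7]]), (false, [1, 2, 3, 4, 19, 20, 49, 50, 52, 81, 82, 84, 259, 274, 275, 277, 292], [18, 261, 276, 291,
     309], [[0], [5], [3], [7], [10], [8], [9, 1]]), (false, [1, 2, 3, 4, 19, 20, 48, 49, 50, 52, 81, 82, 84, 274,
     275, 277, 292], [18, 80, 276, 291, 309], [[3], [5], [6], [13], [16], [14], [15, 1]]), (false, [19, 20, 49, 50,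
     51, 52, 81, 82, 84, 274, 275, 277, 292], [18, 83, 276, 291, 309], [[3], [5], [9], [13], [16], [14], [15, 1]]),
     (false, [49, 50, 51, 52, 53, 81, 82, 83, 84, 274, 275, 292, 308], [85, 276, 291, 309], [[3], [5], [11], [13],
     [16], [14], [15]]), (false, [0, 1, 48, 49, 53, 80, 81, 85, 259, 261, 277], [5, 257, 309], [[0], [17], [6], [3],
     [5], [12], [13]]), (false, [19, 20, 21, 35, 36, 37, 51, 52, 53, 67, 68, 69, 274, 275, 292, 308], [84, 276, 291,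
     309], [[9], [11], [16], [1], [4], [2], [3]]), (true, [52, 53, 68, 308, 325], [69, 84, 85, 309], [[3], [4],
     [10], [17], [5], [11]]), (false, [20, 21, 36, 37, 68, 85, 274, 292, 293, 325], [18, 34, 69, 84], [[1], [8],
     [2], [10], [17], [11], [16]]), (false, [0, 3, 5, 19, 21, 48, 51, 53, 80, 83, 85, 259, 261, 275, 277], [16, 257,
     309], [[0], [1], [6], [3], [5], [9], [11]])], (Tr.bt 84 (Tr.bt 53 (Tr.bt 5 (Tr.lf 0) (Tr.bt 69 (Tr.lf 3) (Tr.lf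
     2))) (Tr.bt 69 (Tr.bt 85 (Tr.lf 10) (Tr.lf 11)) (Tr.lf 9))) (Tr.bt 261 (Tr.lf 4) (Tr.bt 80 (Tr.lf 5) (Tr.bt 83
     (Tr.lf 6) (Tr.bt 53 (Tr.lf 1) (Tr.bt 85 (Tr.lf 7) (Tr.bt 5 (Tr.lf 8) (Tr.lf 12))))))))),
    ([(false, [0, 2, 3, 19, 21, 48, 50, 51, 80, 82, 83, 259, 261, 275, 277, 293], [16, 257, 291, 309], [[0], [1],
     [6], [3], [5], [9], [11, 8]]), (false, [1, 2, 3, 49, 50, 51, 81, 82, 83, 259, 274, 275, 293], [17, 261, 291,
     309], [[0], [5], [3], [7], [13], [9], [11, 8]]), (false, [1, 2, 3, 19, 21, 35, 50, 51, 81, 82, 275, 277, 293],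
     [17, 83, 257, 291], [[0], [1], [7], [9], [8, 5], [15], [14, 11]]), (false, [0, 2, 3, 5, 19, 21, 50, 51, 82, 83,
     259, 261, 293], [16, 257, 291, 309], [[0], [1], [6], [9], [11], [15], [17, 14]]), (true, [0, 3, 83, 259, 261],
     [5, 80, 85, 309], [[15], [12], [0], [11], [17], [5]]), (false, [0, 2, 3, 50, 51, 82, 83, 85, 259, 261], [5, 80,
     291, 309], [[0], [11], [9], [5], [6], [14], [15]])], (Tr.bt 83 (Tr.lf 2) (Tr.bt 261 (Tr.lf 1) (Tr.bt 80 (Tr.bt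
     5 (Tr.bt 85 (Tr.lf 4) (Tr.lf 5)) (Tr.lf 3)) (Tr.lf 0))))),
    ([(false, [1, 2, 3, 49, 50, 51, 81, 82, 259, 277, 291, 293, 309], [5, 33, 53, 83, 275], [[0], [11], [3], [8],
     [13], [9], [7, 5]]), (false, [4, 5, 20, 21, 52, 53, 68, 69, 84, 85, 259], [257, 275, 325], [[0], [1], [3],
     [10], [11], [16], [17]]), (false, [1, 3, 5, 65, 67, 81, 83, 84, 85, 260, 261, 277, 309], [69, 80, 275, 325],
     [[11], [10], [17], [5], [6], [13], [15]]), (false, [1, 3, 4, 19, 20, 21, 49, 51, 52, 81, 83, 259, 261, 277,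
     309], [53, 84, 257, 275], [[0], [1], [3], [5], [16], [9], [17, 7]]), (false, [1, 2, 3, 21, 49, 65, 66, 67, 81,
     82, 83, 260, 274, 277, 291], [33, 53, 261, 275, 325], [[0], [5], [4], [8], [13], [9], [17, 7]]), (false, [0, 1,
     4, 36, 37, 64, 65, 68, 80, 81, 84, 260, 261, 277, 292, 293], [32, 258, 276, 325], [[0], [2], [6], [4], [5],
     [10], [11, 7]]), (false, [1, 4, 20, 21, 52, 53, 65, 68, 81, 259, 277, 309], [84, 257, 275, 276], [[0], [1],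
     [3], [10], [7, 5], [16], [13, 11]]), (false, [0, 1, 3, 4, 65, 67, 81, 83, 84, 85, 260, 261], [5, 80, 275, 325],
     [[0], [11], [10], [5], [6], [13], [15]]), (true, [0, 4, 84, 260, 261], [5, 80, 85, 325], [[16], [12], [0],
     [11], [17], [5]]), (false, [1, 4, 20, 21, 65, 68, 81, 84, 260, 277], [261, 276, 325], [[0], [5], [4], [7],
     [10], [16], [17, 13]]), (false, [3, 4, 5, 19, 20, 21, 67, 68, 69, 85, 260, 308, 309], [53, 257, 276, 325],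
     [[0], [1], [4], [9], [17], [10], [11]]), (true, [0, 5, 48, 261, 309], [53, 80, 85], [[6], [3], [12], [11], [5],
     [17]]), (false, [1, 3, 4, 19, 20, 21, 49, 51, 52, 81, 84, 259, 261, 277, 308, 309], [83, 257, 275, 276, 325],
     [[0], [1], [3], [5], [9], [10], [11, 7]]), (false, [1, 4, 5, 20, 21, 49, 52, 53, 81, 84, 259, 261, 277, 309],
     [85, 257, 275, 276, 325], [[0], [1], [3], [5], [11], [16], [17, 13]]), (false, [0, 1, 3, 5, 19, 21, 49, 51, 81,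
     259, 277, 309], [16, 53, 83, 257, 275], [[0], [1], [6], [9], [17], [15], [13, 5]])], (Tr.bt 84 (Tr.bt 53 (Tr.bt
     83 (Tr.bt 5 (Tr.lf 0) (Tr.lf 14)) (Tr.bt 261 (Tr.lf 4) (Tr.lf 3))) (Tr.lf 6)) (Tr.bt 261 (Tr.lf 9) (Tr.bt 80
     (Tr.bt 83 (Tr.lf 12) (Tr.bt 5 (Tr.bt 85 (Tr.lf 8) (Tr.lf 7)) (Tr.bt 85 (Tr.bt 53 (Tr.lf 11) (Tr.lf 13)) (Tr.bt
     69 (Tr.lf 2) (Tr.bt 53 (Tr.lf 10) (Tr.lf 1)))))) (Tr.lf 5))))),
    ([(false, [1, 2, 3, 4, 19, 20, 21, 49, 50, 51, 52, 259, 274, 276, 277, 291, 293, 309], [5, 18, 53, 275, 292],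
     [[0], [11], [3], [7], [9], [8], [10, 1]]), (false, [4, 5, 20, 21, 52, 53, 68, 69, 84, 85, 259, 260, 261, 276,
     277, 308, 309], [257, 275, 325], [[0], [1], [3], [4], [5], [10], [11]]), (false, [1, 2, 3, 4, 65, 66, 67, 68,
     81, 82, 83, 84, 260, 274, 276, 291, 308], [261, 275, 292, 325], [[0], [5], [4], [7], [9], [8], [10]]), (false,
     [1, 2, 3, 4, 19, 20, 21, 65, 66, 67, 260, 274, 276, 277, 291, 293, 309], [5, 18, 69, 275, 292], [[0], [11],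
     [4], [7], [9], [8], [10, 1]]), (false, [1, 2, 3, 4, 20, 21, 36, 37, 52, 53, 68, 69, 274, 276, 291, 308], [5,
     275, 292, 325], [[0], [17], [16], [7], [9], [8], [10]]), (false, [0, 3, 5, 19, 21, 64, 67, 69, 80, 83, 85, 259,
     260, 261, 276, 277], [16, 53, 257, 325], [[0], [1], [6], [4], [5], [9], [17]]), (false, [19, 20, 21, 35, 36,
     37, 51, 52, 53, 67, 68, 69, 274, 276, 291, 308], [83, 275, 292, 325], [[10], [11], [15], [1], [3], [2], [4]]),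
     (true, [51, 67, 69, 308, 309], [53, 83, 85, 325], [[4], [3], [9], [17], [5], [11]]), (true, [5, 48, 51, 259,
     261, 309], [53, 80, 83, 85], [[6], [3], [9], [17], [5], [11]]), (true, [51, 52, 84, 308, 309], [53, 83, 85,
     325], [[16], [15], [3], [11], [17], [5]]), (true, [3, 5, 51, 259, 309], [53, 83, 85, 261], [[0], [3], [9],
     [17], [5], [11]]), (false, [0, 3, 5, 19, 21, 64, 65, 67, 80, 81, 259, 260, 261, 276, 277, 309], [16, 69, 83,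
     257, 275], [[0], [1], [6], [4], [11], [9], [7, 5]]), (false, [2, 3, 5, 19, 21, 35, 37, 51, 85, 291, 293, 309],
     [18, 53, 83, 257], [[0], [1], [8], [9], [17], [11], [15]]), (false, [1, 3, 5, 19, 21, 51, 53, 65, 67, 81, 259,
     260, 276, 277, 308, 309], [69, 83, 257, 275], [[0], [1], [3], [4], [11], [9], [7, 5]]), (false, [65, 66, 67,
     68, 81, 82, 83, 84, 274, 276, 291, 308], [69, 275, 292, 325], [[4], [11], [10], [13], [15], [14], [16]]),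
     (false, [1, 2, 3, 4, 19, 20, 64, 65, 66, 67, 81, 82, 83, 274, 276, 277, 291], [18, 80, 275, 292, 325], [[4],
     [5], [6], [13], [15], [14], [16, 1]]), (false, [19, 20, 65, 66, 67, 68, 81, 82, 83, 274, 276, 277, 291], [18,
     84, 275, 292, 325], [[4], [5], [10], [13], [15], [14], [16, 1]]), (false, [65, 66, 67, 68, 69, 81, 82, 83, 84,
     274, 276, 291, 308], [85, 275, 292, 325], [[4], [5], [11], [13], [15], [14], [16]])], (Tr.bt 5 (Tr.bt 53 (Tr.lf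
     0) (Tr.bt 69 (Tr.lf 3) (Tr.lf 4))) (Tr.bt 83 (Tr.bt 53 (Tr.bt 85 (Tr.bt 69 (Tr.bt 84 (Tr.bt 261 (Tr.lf 10)
     (Tr.bt 80 (Tr.lf 8) (Tr.lf 11))) (Tr.lf 9)) (Tr.lf 7)) (Tr.lf 12)) (Tr.bt 69 (Tr.lf 13) (Tr.lf 6))) (Tr.bt 80
     (Tr.lf 15) (Tr.bt 84 (Tr.lf 16) (Tr.bt 261 (Tr.lf 2) (Tr.bt 69 (Tr.lf 14) (Tr.bt 85 (Tr.lf 17) (Tr.bt 53 (Tr.lf
     5) (Tr.lf 1)))))))))),
    ([(false, [1, 2, 3, 49, 51, 81, 82, 259, 275, 277, 293, 309], [5, 17, 53, 83, 291], [[0], [11], [3], [7], [13],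
     [9], [8, 5]]), (false, [4, 5, 20, 21, 68, 69, 84, 85, 260], [257, 276, 325], [[0], [1], [4], [10], [11], [16],
     [17]]), (false, [1, 2, 3, 4, 64, 65, 66, 67, 68, 81, 82, 83, 84, 274, 275, 292, 308], [80, 276, 291, 325],
     [[4], [5], [6], [13], [16], [14], [15]]), (false, [1, 3, 5, 19, 21, 51, 85, 275, 277, 309], [17, 53, 83, 257],
     [[0], [1], [7], [9], [17], [11], [15]]), (false, [19, 20, 21, 35, 36, 37, 51, 52, 53, 67, 68, 69, 274, 275,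
     292, 308], [83, 276, 291, 325], [[10], [11], [15], [1], [4], [2], [3]]), (true, [51, 67, 69, 308, 309], [53,
     83, 85, 325], [[4], [3], [9], [17], [5], [11]]), (false, [1, 2, 3, 49, 65, 66, 67, 81, 82, 260, 275, 277, 293,
     309], [5, 17, 69, 83, 291], [[0], [11], [4], [7], [13], [9], [8, 5]]), (false, [0, 2, 3, 4, 5, 19, 20, 21, 66,
     67, 82, 260, 277, 293, 309], [16, 69, 83, 257, 291], [[0], [1], [6], [10], [17], [15], [14, 5]]), (false, [1,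
     2, 3, 4, 19, 20, 65, 66, 67, 68, 81, 82, 83, 260, 274, 275, 277, 292], [17, 261, 276, 291, 325], [[0], [5],
     [4], [7], [10, 1], [8], [9]]), (false, [19, 20, 65, 66, 67, 68, 81, 82, 83, 274, 275, 277, 292], [17, 84, 276,
     291, 325], [[4], [5], [10], [13], [16, 1], [14], [15]]), (false, [65, 66, 67, 68, 81, 82, 83, 84, 274, 275,
     292, 308], [69, 276, 291, 325], [[4], [11], [10], [13], [16], [14], [15]]), (false, [0, 2, 4, 64, 66, 68, 69,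
     80, 82, 84, 85, 260, 261, 292, 293], [5, 258, 325], [[0], [11], [10], [4], [5], [6], [8]]), (false, [65, 66,
     67, 68, 69, 81, 82, 83, 84, 274, 275, 292, 308], [85, 276, 291, 325], [[4], [5], [11], [13], [16], [14],
     [15]])], (Tr.bt 83 (Tr.bt 69 (Tr.bt 5 (Tr.lf 6) (Tr.lf 7)) (Tr.bt 53 (Tr.bt 5 (Tr.lf 0) (Tr.bt 85 (Tr.lf 5)
     (Tr.lf 3))) (Tr.lf 4))) (Tr.bt 84 (Tr.lf 9) (Tr.bt 80 (Tr.lf 2) (Tr.bt 261 (Tr.lf 8) (Tr.bt 69 (Tr.lf 10)
     (Tr.bt 85 (Tr.lf 12) (Tr.bt 5 (Tr.lf 11) (Tr.lf 1))))))))),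
    ([(false, [0, 2, 4, 20, 21, 64, 66, 68, 80, 82, 84, 260, 261, 276, 277, 293], [16, 257, 292, 325], [[0], [1],
     [6], [4], [5], [10], [11, 8]]), (false, [1, 2, 4, 65, 66, 68, 81, 82, 84, 260, 274, 276, 293], [17, 261, 292,
     325], [[0], [5], [4], [7], [13], [10], [11, 8]]), (false, [1, 2, 4, 20, 21, 36, 66, 68, 81, 82, 276, 277, 293],
     [17, 84, 257, 292], [[0], [1], [7], [10], [8, 5], [16], [14, 11]]), (true, [0, 4, 84, 260, 261], [5, 80, 85,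
     325], [[16], [12], [0], [11], [17], [5]]), (false, [0, 2, 4, 5, 20, 21, 66, 68, 82, 84, 260, 261, 293], [16,
     257, 292, 325], [[0], [1], [6], [10], [11], [16], [17, 14]]), (false, [0, 2, 4, 66, 68, 82, 84, 85, 260, 261],
     [5, 80, 292, 325], [[0], [11], [10], [5], [6], [14], [16]])], (Tr.bt 84 (Tr.lf 2) (Tr.bt 261 (Tr.lf 1) (Tr.bt
     80 (Tr.bt 5 (Tr.bt 85 (Tr.lf 3) (Tr.lf 5)) (Tr.lf 4)) (Tr.lf 0)))))]

theorem t4Ek : ∀ al be e zw wc a : Bool, (!e || al || be) = true →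
    ckHX 6 0 (pos (feK wc a ++ knK 2 ++ mrK 2 3 true ++ mrK 2 4 true ++ wuK 3 4 ++
      zkK 2 5 al be e ++ [(256 + 16 * 3 + 5, zw), (256 + 16 * 4 + 5, !zw)])) (neg (feK wc a ++ knK 2 ++ mrK 2 3 true ++ mrK 2 4 true ++ wuK 3 4 ++
      zkK 2 5 al be e ++ [(256 + 16 * 3 + 5, zw), (256 + 16 * 4 + 5, !zw)]))
      (sel t4El [al, be, e, zw, wc, a]).1 (sel t4El [al, be, e, zw, wc, a]).2 = true := by
  decide +kernel

/-- **T4**, form E: two thick mixers with different bits on an outer rail `z = 5` -/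
theorem tab4E {G : SimpleGraph V} (hH : FH G) (hJ : FJ 2 G) {x : ℕ → ℕ → V} {F : ℕ → Bool}
    (hx : FT.HR G 6 16 x F) (hk : Kn 2 F) (hf : FmE F) (hw : Mr 2 3 true F) (hu : Mr 2 4 true F)
    (hwu : WU 3 4 F) {al be e : Bool} (hz : ZK 2 5 al be e F) (he : e = true → al = true ∨ be = true)
    (hd : F (256 + 16 * 3 + 5) = !F (256 + 16 * 4 + 5)) : False := by
  obtain ⟨wc, a, ha⟩ := hf.mem
  refine refuteK hH hJ (HRZ.of hx) _ (mem_app (mem_app (mem_app (mem_app (mem_app (mem_app ha hk.mem) hw.mem)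
    hu.mem) hwu.mem) hz.mem) (mem_cs rfl (mem_cs (?_ : F (256 + 16 * 4 + 5) = !F (256 + 16 * 3 + 5)) mem_nl)))
    _ (t4Ek al be e _ wc a ?_)
  · rw [hd, Bool.not_not]
  · rcases e with _ | _
    · rfl
    · rcases he rfl with rfl | rfl
      · rfl
      · simp

end Pool.Agent.MPd439b2.RN.Tb
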