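import Pool.Agent.Lib.MP_d439b2_co.RN.TabS

/-!
# MP_d439b2_co, RN: tables for the cells and their mixers: T4, form P (helper32)
-/

set_option autoImplicit false

namespace Pool.Agent.MPd439b2.RN.Tb

open Pool.Agent.MPd439b2 Pool.Agent.MPd439b2.H1T

variable {V : Type}

def t4Pl : List (List CertX × Tr) := [
    ([(true, [1, 4, 20, 81, 84, 261, 342], [17, 97, 100, 257, 262, 276, 277, 278], [[5], [11], [0], [6], [1], [8]]),
     (true, [1, 4, 20, 65, 68, 260, 262], [17, 97, 100, 257, 276, 278, 326], [[0], [11], [4], [6], [1], [8]]),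
     (true, [20, 36, 65, 68, 100, 274, 292], [17, 33, 97, 276, 278, 294, 326], [[11], [4], [2], [6], [8], [1]])],
     (Tr.bt 100 (Tr.bt 262 (Tr.lf 0) (Tr.lf 1)) (Tr.lf 2))),
    ([(true, [1, 4, 52, 81, 84, 261, 342], [49, 97, 100, 259, 262, 276, 309, 310], [[5], [11], [0], [6], [3], [8]]),
     (true, [1, 4, 20, 65, 68, 260, 262], [17, 97, 100, 257, 276, 278, 326], [[0], [11], [4], [6], [1], [8]]),
     (true, [20, 36, 65, 68, 100, 274, 292], [17, 33, 97, 276, 278, 294, 326], [[11], [4], [2], [6], [8], [1]])],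
     (Tr.bt 100 (Tr.bt 262 (Tr.lf 0) (Tr.lf 1)) (Tr.lf 2))),
    ([(true, [2, 4, 20, 82, 84, 261, 342], [18, 98, 100, 257, 262, 277, 278, 292], [[5], [11], [0], [6], [1], [9]]),
     (true, [2, 4, 36, 66, 68, 260, 262], [34, 98, 100, 258, 292, 294, 326], [[0], [11], [4], [6], [2], [9]]),
     (true, [20, 36, 66, 68, 100, 274, 276], [18, 34, 98, 278, 292, 294, 326], [[11], [4], [1], [6], [9], [2]])],
     (Tr.bt 100 (Tr.bt 262 (Tr.lf 0) (Tr.lf 1)) (Tr.lf 2))),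
    ([(true, [274, 276, 277, 291, 293, 325, 342], [275, 278, 292, 294, 308, 309, 310, 326], [[5], [2], [1], [6],
     [3], [4]])], (Tr.lf 0)),
    ([(true, [274, 291, 292, 308, 309, 325, 326], [275, 276, 277, 278, 293, 294, 310, 342], [[4], [2], [3], [6],
     [1], [5]])], (Tr.lf 0)),
    ([(true, [2, 3, 5, 6, 21, 291, 293], [18, 19, 22, 257, 294, 309, 310, 342], [[0], [12], [9], [13], [1], [10]]),
     (true, [3, 5, 21, 67, 69, 70, 260], [6, 19, 22, 257, 276, 309, 310, 342], [[4], [12], [0], [13], [1], [10]]),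
     (true, [20, 36, 65, 68, 274, 292, 326], [17, 22, 33, 38, 70, 276, 278], [[11], [4], [2], [13], [8], [1]])],
     (Tr.bt 6 (Tr.bt 70 (Tr.lf 2) (Tr.lf 1)) (Tr.lf 0))),
    ([(true, [2, 3, 5, 6, 21, 291, 309], [18, 19, 22, 257, 293, 294, 310, 342], [[0], [12], [10], [13], [1], [9]]),
     (true, [2, 4, 5, 20, 21, 325, 326], [6, 18, 22, 257, 292, 293, 294, 342], [[11], [0], [12], [13], [9], [1]])],
     (Tr.bt 6 (Tr.lf 1) (Tr.lf 0))),
    ([(true, [2, 3, 5, 6, 21, 291, 293], [18, 19, 22, 257, 294, 309, 310, 342], [[0], [12], [9], [13], [1], [10]]),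
     (true, [3, 4, 5, 20, 21, 325, 326], [6, 19, 22, 257, 308, 309, 310, 342], [[11], [0], [12], [13], [10], [1]])],
     (Tr.bt 6 (Tr.lf 1) (Tr.lf 0))),
    ([], Tr.lf 0),
    ([], Tr.lf 0),
    ([], Tr.lf 0),
    ([], Tr.lf 0),
    ([], Tr.lf 0),
    ([], Tr.lf 0),
    ([], Tr.lf 0),
    ([], Tr.lf 0),
    ([(true, [20, 36, 65, 68, 100, 274, 292], [17, 33, 97, 276, 278, 294, 326], [[11], [4], [2], [6], [8], [1]]),
     (true, [1, 4, 20, 81, 84, 261, 342], [17, 97, 100, 257, 262, 276, 277, 278], [[5], [11], [0], [6], [1], [8]]),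
     (true, [1, 4, 20, 65, 68, 260, 262], [17, 97, 100, 257, 276, 278, 326], [[0], [11], [4], [6], [1], [8]])],
     (Tr.bt 100 (Tr.bt 262 (Tr.lf 1) (Tr.lf 2)) (Tr.lf 0))),
    ([(true, [20, 36, 65, 68, 100, 274, 292], [17, 33, 97, 276, 278, 294, 326], [[11], [4], [2], [6], [8], [1]]),
     (true, [1, 4, 52, 81, 84, 261, 342], [49, 97, 100, 259, 262, 276, 309, 310], [[5], [11], [0], [6], [3], [8]]),
     (true, [1, 4, 20, 65, 68, 260, 262], [17, 97, 100, 257, 276, 278, 326], [[0], [11], [4], [6], [1], [8]])],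
     (Tr.bt 100 (Tr.bt 262 (Tr.lf 1) (Tr.lf 2)) (Tr.lf 0))),
    ([(true, [20, 36, 66, 68, 100, 274, 276], [18, 34, 98, 278, 292, 294, 326], [[11], [4], [1], [6], [9], [2]]),
     (true, [2, 4, 20, 82, 84, 261, 342], [18, 98, 100, 257, 262, 277, 278, 292], [[5], [11], [0], [6], [1], [9]]),
     (true, [2, 4, 36, 66, 68, 260, 262], [34, 98, 100, 258, 292, 294, 326], [[0], [11], [4], [6], [2], [9]])],
     (Tr.bt 100 (Tr.bt 262 (Tr.lf 1) (Tr.lf 2)) (Tr.lf 0))),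
    ([(true, [274, 276, 277, 291, 293, 325, 342], [275, 278, 292, 294, 308, 309, 310, 326], [[5], [2], [1], [6],
     [3], [4]])], (Tr.lf 0)),
    ([(true, [274, 291, 292, 308, 309, 325, 326], [275, 276, 277, 278, 293, 294, 310, 342], [[4], [2], [3], [6],
     [1], [5]])], (Tr.lf 0)),
    ([(true, [0, 1, 3, 5, 21, 22, 261], [6, 16, 19, 259, 262, 309, 310, 342], [[0], [8], [19], [17], [20], [14]]),
     (true, [0, 1, 3, 4, 96, 260, 308], [97, 99, 100, 257, 259, 262, 275, 276], [[0], [7], [11], [8], [6], [10]]),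
     (true, [0, 1, 4, 6, 102, 260, 326], [96, 97, 100, 257, 262, 276, 278], [[0], [13], [11], [8], [6], [7]]),
     (true, [36, 52, 81, 84, 100, 291, 293], [33, 49, 97, 276, 294, 309, 310, 342], [[11], [5], [2], [6], [8],
     [3]]), (true, [2, 3, 5, 6, 101, 291, 293], [98, 99, 102, 262, 294, 309, 310, 342], [[0], [12], [9], [13], [6],
     [10]]), (true, [20, 21, 22, 277, 325, 326], [17, 97, 100, 101, 102, 276, 278, 342], [[1], [19], [18], [13],
     [15], [20]]), (true, [1, 4, 52, 81, 84, 261, 262], [49, 97, 100, 259, 276, 309, 310, 342], [[0], [11], [5],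
     [6], [3], [8]])], (Tr.bt 100 (Tr.bt 262 (Tr.bt 6 (Tr.lf 0) (Tr.bt 96 (Tr.bt 102 (Tr.bt 101 (Tr.lf 5) (Tr.lf 4))
     (Tr.lf 2)) (Tr.lf 1))) (Tr.lf 6)) (Tr.lf 3))),
    ([(true, [0, 1, 5, 21, 22, 261], [6, 16, 17, 257, 262, 277, 278, 342], [[0], [8], [19], [15], [20], [14]]),
     (true, [0, 1, 3, 4, 96, 260, 276], [97, 99, 100, 257, 259, 262, 275, 308], [[0], [7], [11], [10], [6], [8]]),
     (true, [0, 2, 4, 6, 102, 260, 326], [96, 98, 100, 258, 262, 292, 294], [[0], [13], [11], [9], [6], [7]]),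
     (true, [36, 52, 82, 84, 100, 291, 309], [34, 50, 98, 292, 293, 294, 310, 342], [[11], [5], [3], [6], [9],
     [2]]), (true, [2, 3, 5, 6, 101, 291, 309], [98, 99, 102, 262, 293, 294, 310, 342], [[0], [12], [10], [13], [6],
     [9]]), (true, [20, 21, 22, 309, 325, 326], [19, 99, 100, 101, 102, 308, 310, 342], [[1], [19], [18], [13],
     [17], [20]]), (true, [2, 4, 20, 82, 84, 261, 262], [18, 98, 100, 257, 277, 278, 292, 342], [[0], [11], [5],
     [6], [1], [9]])], (Tr.bt 100 (Tr.bt 262 (Tr.bt 6 (Tr.lf 0) (Tr.bt 96 (Tr.bt 102 (Tr.bt 101 (Tr.lf 5) (Tr.lf 4))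
     (Tr.lf 2)) (Tr.lf 1))) (Tr.lf 6)) (Tr.lf 3))),
    ([(true, [0, 1, 3, 5, 21, 22, 261], [6, 16, 19, 259, 262, 309, 310, 342], [[0], [8], [19], [17], [20], [14]]),
     (true, [0, 1, 3, 4, 96, 260, 276], [97, 99, 100, 257, 259, 262, 275, 308], [[0], [7], [11], [10], [6], [8]]),
     (true, [0, 2, 4, 6, 102, 260, 326], [96, 98, 100, 258, 262, 292, 294], [[0], [13], [11], [9], [6], [7]]),
     (true, [36, 52, 82, 84, 100, 291, 293], [34, 50, 98, 292, 294, 309, 310, 342], [[11], [5], [2], [6], [9],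
     [3]]), (true, [2, 3, 5, 6, 101, 291, 293], [98, 99, 102, 262, 294, 309, 310, 342], [[0], [12], [9], [13], [6],
     [10]]), (true, [20, 21, 22, 293, 325, 326], [18, 98, 100, 101, 102, 292, 294, 342], [[1], [19], [18], [13],
     [16], [20]]), (true, [2, 4, 52, 82, 84, 261, 262], [50, 98, 100, 259, 292, 309, 310, 342], [[0], [11], [5],
     [6], [3], [9]])], (Tr.bt 100 (Tr.bt 262 (Tr.bt 6 (Tr.lf 0) (Tr.bt 96 (Tr.bt 102 (Tr.bt 101 (Tr.lf 5) (Tr.lf 4))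
     (Tr.lf 2)) (Tr.lf 1))) (Tr.lf 6)) (Tr.lf 3))),
    ([(false, [20, 22, 68, 70, 100, 102, 278], [276, 326], [[1], [4], [6], [11], [13], [18], [20]]), (true, [36, 64,
     65, 68, 260, 292, 294], [32, 33, 96, 97, 100, 257, 276, 326], [[4], [2], [11], [8], [6], [7]]), (true, [37, 64,
     65, 69, 261, 292, 294], [32, 33, 96, 97, 101, 257, 277, 326], [[4], [2], [12], [8], [6], [7]]), (true, [38, 64,
     65, 70, 278, 292, 294], [16, 32, 33, 96, 97, 102, 326], [[4], [2], [13], [14], [6], [8]]), (true, [0, 6, 64,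
     100, 260, 262], [70, 96, 102, 326], [[7], [11], [14], [13], [6], [20]]), (true, [0, 1, 64, 65, 260, 262, 278],
     [6, 16, 70, 96, 97, 102, 326], [[0], [8], [4], [6], [13], [14]]), (true, [0, 4, 6, 100, 260], [70, 96, 102,
     262, 326], [[0], [11], [7], [13], [6], [20]]), (true, [0, 2, 4, 100, 260, 292, 294], [6, 96, 98, 102, 258, 262,
     326], [[11], [9], [0], [6], [13], [7]]), (false, [1, 3, 4, 20, 22, 52, 54, 65, 67, 68, 100, 102, 260, 278,
     310], [6, 70, 275, 276, 326], [[0], [13], [4], [8], [10], [18], [20, 15]]), (false, [1, 2, 4, 6, 20, 22, 36,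
     38, 65, 68, 100, 102, 278, 292, 294], [18, 257, 276, 326], [[0], [1], [9], [11], [13], [18], [20, 15]]), (true,
     [1, 80, 81, 96, 278, 342], [16, 17, 97, 257, 277], [[5], [6], [7], [8], [1], [15]])], (Tr.bt 96 (Tr.bt 100
     (Tr.lf 1) (Tr.bt 101 (Tr.lf 2) (Tr.bt 102 (Tr.bt 70 (Tr.bt 6 (Tr.bt 262 (Tr.lf 7) (Tr.lf 5)) (Tr.bt 262 (Tr.lf
     6) (Tr.lf 4))) (Tr.lf 3)) (Tr.bt 70 (Tr.bt 6 (Tr.lf 8) (Tr.lf 9)) (Tr.lf 0))))) (Tr.lf 10))),
    ([(false, [20, 22, 52, 54, 68, 70, 84, 86, 100, 102, 277], [275, 309, 326], [[1], [3], [5], [11], [13], [18],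
     [20]]), (true, [36, 64, 65, 68, 260, 292, 294], [32, 33, 96, 97, 100, 257, 276, 326], [[4], [2], [11], [8],
     [6], [7]]), (true, [37, 64, 67, 69, 261, 292, 294], [32, 35, 96, 99, 101, 259, 309, 326], [[4], [2], [12],
     [10], [6], [7]]), (false, [1, 2, 4, 6, 20, 22, 36, 38, 65, 68, 100, 102, 278, 292, 294], [18, 257, 276, 326],
     [[0], [1], [9], [11], [13], [18], [20, 15]]), (false, [20, 21, 22, 68, 69, 70, 100, 101, 102, 278, 325, 342],
     [86, 276, 326], [[1], [4], [6], [11], [13], [12], [20]]), (true, [0, 1, 64, 65, 260, 262, 278], [6, 16, 70, 96,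
     97, 102, 326], [[0], [8], [4], [6], [13], [14]]), (false, [1, 3, 4, 20, 22, 52, 54, 65, 67, 68, 100, 102, 260,
     278, 310], [6, 70, 275, 276, 326], [[0], [13], [4], [8], [10], [18], [20, 15]]), (true, [0, 2, 4, 100, 260,
     292, 294], [6, 96, 98, 102, 258, 262, 326], [[11], [9], [0], [6], [13], [7]]), (true, [64, 65, 80, 81, 278,
     325, 342], [16, 70, 86, 96, 97, 102, 326], [[5], [8], [4], [6], [13], [14]]), (true, [38, 64, 65, 70, 278, 292,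
     294], [16, 32, 33, 96, 97, 102, 326], [[4], [2], [13], [14], [6], [8]]), (true, [0, 6, 64, 100, 260, 262], [70,
     96, 102, 326], [[7], [11], [14], [13], [6], [20]]), (true, [0, 4, 6, 100, 260], [70, 96, 102, 262, 326], [[0],
     [11], [7], [13], [6], [20]]), (true, [1, 80, 81, 96, 310, 342], [17, 48, 49, 97, 257, 309], [[5], [6], [7],
     [8], [3], [15]])], (Tr.bt 96 (Tr.bt 100 (Tr.lf 1) (Tr.bt 101 (Tr.lf 2) (Tr.bt 102 (Tr.bt 70 (Tr.bt 86 (Tr.lf 8)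
     (Tr.bt 6 (Tr.bt 262 (Tr.lf 7) (Tr.lf 5)) (Tr.bt 262 (Tr.lf 11) (Tr.lf 10)))) (Tr.lf 9)) (Tr.bt 6 (Tr.bt 70
     (Tr.lf 6) (Tr.bt 86 (Tr.lf 4) (Tr.lf 0))) (Tr.lf 3))))) (Tr.lf 12))),
    ([(false, [20, 22, 52, 54, 68, 70, 100, 102, 276], [275, 308, 326], [[1], [3], [4], [11], [13], [18], [20]]),
     (true, [20, 64, 66, 68, 260, 276, 278], [16, 18, 96, 98, 100, 258, 292, 326], [[4], [1], [11], [9], [6], [7]]),
     (true, [21, 64, 65, 69, 261, 276, 278], [16, 17, 96, 97, 101, 257, 277, 326], [[4], [1], [12], [8], [6], [7]]),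
     (true, [22, 64, 65, 70, 276, 278], [16, 17, 96, 97, 102, 326], [[4], [1], [13], [14], [6], [8]]), (true, [0, 6,
     64, 100, 260, 262], [70, 96, 102, 326], [[7], [11], [14], [13], [6], [20]]), (true, [0, 4, 6, 100, 260], [70,
     96, 102, 262, 326], [[0], [11], [7], [13], [6], [20]]), (false, [1, 2, 3, 4, 65, 66, 67, 68, 260, 274, 276,
     278, 291, 294, 309, 310, 325, 342], [6, 70, 275, 292, 293], [[0], [13], [4], [8], [10], [9], [12, 11]]),
     (false, [1, 2, 4, 6, 20, 22, 65, 66, 68, 100, 102, 260, 276, 278, 294], [17, 70, 257, 292, 326], [[0], [1],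
     [8], [4], [13], [18], [20, 16]]), (true, [1, 80, 81, 96, 278, 342], [16, 17, 97, 257, 277], [[5], [6], [7],
     [8], [1], [15]])], (Tr.bt 96 (Tr.bt 100 (Tr.lf 1) (Tr.bt 101 (Tr.lf 2) (Tr.bt 70 (Tr.bt 6 (Tr.lf 6) (Tr.bt 102
     (Tr.bt 262 (Tr.lf 5) (Tr.lf 4)) (Tr.lf 7))) (Tr.bt 102 (Tr.lf 3) (Tr.lf 0))))) (Tr.lf 8))),
    ([(false, [20, 22, 52, 54, 68, 70, 100, 102, 276], [275, 308, 326], [[1], [3], [4], [11], [13], [18], [20]]),
     (true, [20, 64, 66, 68, 260, 276, 278], [16, 18, 96, 98, 100, 258, 292, 326], [[4], [1], [11], [9], [6], [7]]),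
     (true, [21, 64, 67, 69, 261, 276, 278], [16, 19, 96, 99, 101, 259, 309, 326], [[4], [1], [12], [10], [6],
     [7]]), (false, [1, 2, 4, 6, 20, 22, 65, 66, 68, 100, 102, 260, 276, 278, 294], [17, 70, 257, 292, 326], [[0],
     [1], [8], [4], [13], [18], [20, 16]]), (true, [22, 64, 65, 70, 276, 278], [16, 17, 96, 97, 102, 326], [[4],
     [1], [13], [14], [6], [8]]), (true, [0, 6, 64, 100, 260, 262], [70, 96, 102, 326], [[7], [11], [14], [13], [6],
     [20]]), (true, [0, 1, 64, 65, 260, 262, 278], [6, 16, 70, 96, 97, 102, 326], [[0], [8], [4], [6], [13], [14]]),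
     (true, [0, 4, 6, 100, 260], [70, 96, 102, 262, 326], [[0], [11], [7], [13], [6], [20]]), (true, [0, 1, 4, 100,
     260, 276, 278], [6, 96, 97, 102, 257, 262, 326], [[11], [8], [0], [6], [13], [7]]), (false, [1, 2, 3, 4, 20,
     22, 52, 54, 65, 66, 67, 68, 100, 102, 260, 278, 294, 310], [6, 70, 275, 292, 326], [[0], [13], [4], [8], [10],
     [18], [20, 16]]), (true, [1, 80, 81, 96, 310, 342], [17, 48, 49, 97, 257, 309], [[5], [6], [7], [8], [3],
     [15]])], (Tr.bt 96 (Tr.bt 100 (Tr.lf 1) (Tr.bt 101 (Tr.lf 2) (Tr.bt 102 (Tr.bt 70 (Tr.bt 6 (Tr.bt 262 (Tr.lf 8)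
     (Tr.lf 6)) (Tr.bt 262 (Tr.lf 7) (Tr.lf 5))) (Tr.lf 4)) (Tr.bt 70 (Tr.bt 6 (Tr.lf 9) (Tr.lf 3)) (Tr.lf 0)))))
     (Tr.lf 10))),
    ([(false, [1, 5, 6, 21, 22, 65, 69, 70, 81, 85, 101, 102, 260, 278], [257, 276, 277, 342], [[0], [1], [4], [12],
     [13], [19], [20, 15]]), (false, [21, 22, 37, 38, 85, 86, 101, 102, 274], [277, 293, 342], [[1], [5], [2], [12],
     [13], [19], [20]]), (false, [1, 3, 5, 21, 22, 53, 54, 81, 83, 85, 101, 102, 261, 278, 310], [6, 86, 275, 277,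
     342], [[0], [13], [5], [8], [10], [19], [20, 15]]), (true, [20, 22, 100, 260, 278, 326], [16, 17, 96, 97, 102,
     257, 262, 276], [[11], [13], [1], [7], [8], [6]]), (true, [0, 1, 80, 81, 261, 262, 278], [6, 16, 86, 96, 97,
     102, 342], [[0], [8], [5], [6], [13], [14]]), (true, [53, 80, 81, 85, 261, 309, 310], [48, 49, 96, 97, 101,
     257, 277, 342], [[5], [3], [12], [8], [6], [7]]), (true, [54, 80, 81, 86, 278, 309, 310], [16, 48, 49, 96, 97,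
     102, 342], [[5], [3], [13], [14], [6], [8]]), (false, [0, 3, 4, 6, 20, 21, 22, 54, 102, 260, 261, 308, 309,
     310, 326], [19, 70, 257, 262, 342], [[0], [1], [10], [11], [20], [13], [12, 7]]), (false, [0, 4, 5, 6, 20, 21,
     22, 80, 102, 260, 261, 262, 325, 326], [16, 70, 96, 257, 342], [[0], [1], [7], [11], [20], [13], [14, 12]]),
     (true, [52, 80, 81, 84, 260, 309, 310], [48, 49, 96, 97, 100, 257, 276, 342], [[5], [3], [11], [8], [6], [7]]),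
     (true, [0, 6, 80, 101, 261, 262], [86, 96, 102, 342], [[7], [12], [14], [13], [6], [20]]), (true, [1, 64, 65,
     96, 278, 326], [16, 17, 97, 257, 276], [[4], [6], [7], [8], [1], [15]])], (Tr.bt 96 (Tr.bt 101 (Tr.lf 5) (Tr.bt
     100 (Tr.lf 9) (Tr.bt 102 (Tr.bt 262 (Tr.lf 3) (Tr.bt 86 (Tr.bt 6 (Tr.lf 4) (Tr.lf 10)) (Tr.lf 6))) (Tr.bt 86
     (Tr.bt 6 (Tr.lf 2) (Tr.bt 70 (Tr.bt 262 (Tr.lf 7) (Tr.lf 8)) (Tr.lf 0))) (Tr.lf 1))))) (Tr.lf 11))),
    ([(false, [3, 5, 21, 22, 67, 69, 83, 85, 101, 102, 260, 261, 262, 277, 278, 310, 325, 326], [257, 276, 309,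
     342], [[0], [1], [4], [5], [6], [12], [13, 10]]), (false, [1, 3, 5, 21, 22, 53, 54, 81, 83, 85, 101, 102, 261,
     278, 310], [6, 86, 275, 309, 342], [[0], [13], [5], [8], [10], [19], [20, 17]]), (false, [21, 22, 53, 54, 85,
     86, 101, 102, 277], [275, 309, 342], [[1], [3], [5], [12], [13], [19], [20]]), (true, [20, 22, 100, 260, 278,
     326], [16, 17, 96, 97, 102, 257, 262, 276], [[11], [13], [1], [7], [8], [6]]), (true, [0, 1, 80, 81, 261, 262,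
     278], [6, 16, 86, 96, 97, 102, 342], [[0], [8], [5], [6], [13], [14]]), (true, [21, 80, 83, 85, 261, 277, 278],
     [16, 19, 96, 99, 101, 259, 309, 342], [[5], [1], [12], [10], [6], [7]]), (true, [22, 80, 81, 86, 277, 278],
     [16, 17, 96, 97, 102, 342], [[5], [1], [13], [14], [6], [8]]), (true, [0, 6, 80, 101, 261, 262], [86, 96, 102,
     342], [[7], [12], [14], [13], [6], [20]]), (false, [1, 3, 5, 6, 21, 22, 81, 83, 85, 101, 102, 261, 277, 278,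
     310], [17, 86, 257, 309, 342], [[0], [1], [8], [5], [13], [19], [20, 17]]), (true, [1, 64, 65, 96, 278, 326],
     [16, 17, 97, 257, 276], [[4], [6], [7], [8], [1], [15]]), (true, [20, 80, 81, 84, 260, 277, 278], [16, 17, 96,
     97, 100, 257, 276, 342], [[5], [1], [11], [8], [6], [7]])], (Tr.bt 96 (Tr.bt 101 (Tr.lf 5) (Tr.bt 100 (Tr.lf
     10) (Tr.bt 102 (Tr.bt 86 (Tr.bt 262 (Tr.lf 3) (Tr.bt 6 (Tr.lf 4) (Tr.lf 7))) (Tr.lf 6)) (Tr.bt 262 (Tr.bt 86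
     (Tr.bt 6 (Tr.lf 1) (Tr.lf 8)) (Tr.lf 2)) (Tr.lf 0))))) (Tr.lf 9))),
    ([(true, [0, 1, 2, 4, 20, 260, 278], [6, 16, 18, 96, 98, 100, 258, 292], [[0], [8], [18], [16], [13], [14]]),
     (false, [21, 22, 53, 54, 69, 70, 85, 86, 101, 102, 276], [275, 308, 342], [[1], [3], [4], [12], [13], [19],
     [20]]), (false, [1, 2, 3, 4, 81, 82, 83, 84, 261, 274, 276, 278, 291, 294, 309, 310, 325, 326], [6, 86, 275,
     292, 293], [[0], [13], [5], [8], [10], [9], [12, 11]]), (false, [20, 21, 22, 36, 37, 38, 84, 85, 86, 102, 274,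
     325, 326], [70, 277, 293, 342], [[1], [5], [2], [11], [20], [12], [13]]), (true, [54, 80, 81, 86, 278, 309,
     310], [16, 48, 49, 96, 97, 102, 342], [[5], [3], [13], [14], [6], [8]]), (false, [1, 3, 5, 6, 21, 22, 53, 54,
     81, 85, 101, 102, 278, 309, 310], [19, 257, 277, 342], [[0], [1], [10], [12], [13], [19], [20, 15]]), (true,
     [0, 6, 80, 101, 261, 262], [86, 96, 102, 342], [[7], [12], [14], [13], [6], [20]]), (true, [53, 80, 81, 85,
     261, 309, 310], [48, 49, 96, 97, 101, 257, 277, 342], [[5], [3], [12], [8], [6], [7]]), (true, [0, 5, 6, 101,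
     261], [86, 96, 102, 262, 342], [[0], [12], [7], [13], [6], [20]]), (true, [1, 64, 65, 96, 294, 326], [17, 32,
     33, 97, 257, 292], [[4], [6], [7], [8], [2], [15]])], (Tr.bt 96 (Tr.bt 101 (Tr.lf 7) (Tr.bt 6 (Tr.bt 100 (Tr.lf
     0) (Tr.bt 86 (Tr.lf 2) (Tr.bt 102 (Tr.lf 4) (Tr.bt 70 (Tr.lf 3) (Tr.lf 1))))) (Tr.bt 102 (Tr.bt 86 (Tr.bt 262
     (Tr.lf 8) (Tr.lf 6)) (Tr.lf 4)) (Tr.lf 5)))) (Tr.lf 9))),
    ([(false, [21, 22, 53, 54, 69, 70, 85, 86, 101, 102, 276], [275, 308, 342], [[1], [3], [4], [12], [13], [19],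
     [20]]), (false, [1, 3, 5, 21, 22, 53, 54, 81, 83, 85, 101, 102, 261, 278, 310], [6, 86, 275, 309, 342], [[0],
     [13], [5], [8], [10], [19], [20, 17]]), (false, [20, 21, 22, 52, 53, 54, 84, 85, 86, 102, 277, 325, 326], [70,
     275, 309, 342], [[1], [3], [5], [11], [20], [12], [13]]), (true, [0, 1, 80, 81, 261, 262, 278], [6, 16, 86, 96,
     97, 102, 342], [[0], [8], [5], [6], [13], [14]]), (true, [20, 22, 100, 260, 278, 294, 326], [16, 18, 96, 98,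
     102, 258, 262, 292], [[11], [13], [1], [7], [9], [6]]), (true, [21, 80, 83, 85, 261, 277, 278], [16, 19, 96,
     99, 101, 259, 309, 342], [[5], [1], [12], [10], [6], [7]]), (false, [1, 3, 5, 6, 21, 22, 81, 83, 85, 101, 102,
     261, 277, 278, 310], [17, 86, 257, 309, 342], [[0], [1], [8], [5], [13], [19], [20, 17]]), (true, [22, 80, 81,
     86, 277, 278], [16, 17, 96, 97, 102, 342], [[5], [1], [13], [14], [6], [8]]), (true, [0, 6, 80, 101, 261, 262],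
     [86, 96, 102, 342], [[7], [12], [14], [13], [6], [20]]), (true, [1, 64, 65, 96, 294, 326], [17, 32, 33, 97,
     257, 292], [[4], [6], [7], [8], [2], [15]]), (true, [20, 80, 82, 84, 260, 277, 278], [16, 18, 96, 98, 100, 258,
     292, 342], [[5], [1], [11], [9], [6], [7]])], (Tr.bt 96 (Tr.bt 101 (Tr.lf 5) (Tr.bt 100 (Tr.lf 10) (Tr.bt 102
     (Tr.bt 86 (Tr.bt 262 (Tr.lf 4) (Tr.bt 6 (Tr.lf 3) (Tr.lf 8))) (Tr.lf 7)) (Tr.bt 86 (Tr.bt 6 (Tr.lf 1) (Tr.lf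
     6)) (Tr.bt 70 (Tr.lf 2) (Tr.lf 0)))))) (Tr.lf 9))),
    ([(true, [0, 1, 97], [6, 16, 17, 96, 257, 262, 278], [[0], [15], [7], [8], [13], [14]]), (true, [0, 1, 3, 4,
     260, 262, 308], [6, 257, 259, 275, 276, 278, 310, 326], [[0], [7], [11], [8], [13], [10]]), (true, [0, 1, 3, 4,
     64, 96, 308], [6, 16, 48, 275, 276, 278, 310, 326], [[0], [14], [11], [8], [13], [10]]), (true, [1, 2, 4, 6,
     20, 274, 292], [17, 18, 22, 257, 276, 278, 294, 326], [[0], [11], [9], [13], [1], [8]])], (Tr.bt 6 (Tr.bt 96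
     (Tr.bt 262 (Tr.lf 0) (Tr.lf 1)) (Tr.lf 2)) (Tr.lf 3))),
    ([(true, [0, 1, 97], [6, 16, 17, 96, 257, 262, 278], [[0], [15], [7], [8], [13], [14]]), (true, [0, 1, 3, 4,
     260, 262, 308], [6, 257, 259, 275, 276, 278, 310, 326], [[0], [7], [11], [8], [13], [10]]), (true, [0, 1, 3, 4,
     64, 96, 308], [6, 16, 48, 275, 276, 278, 310, 326], [[0], [14], [11], [8], [13], [10]]), (true, [1, 2, 4, 6,
     20, 274, 292], [17, 18, 22, 257, 276, 278, 294, 326], [[0], [11], [9], [13], [1], [8]])], (Tr.bt 6 (Tr.bt 96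
     (Tr.bt 262 (Tr.lf 0) (Tr.lf 1)) (Tr.lf 2)) (Tr.lf 3))),
    ([(true, [0, 1, 97], [6, 16, 17, 96, 257, 262, 278], [[0], [15], [7], [8], [13], [14]]), (true, [0, 1, 3, 4,
     260, 262, 276], [6, 257, 259, 275, 278, 308, 310, 326], [[0], [7], [11], [10], [13], [8]]), (true, [0, 1, 3, 4,
     64, 96, 276], [6, 16, 48, 275, 278, 308, 310, 326], [[0], [14], [11], [10], [13], [8]]), (true, [1, 2, 4, 6,
     20, 274, 276], [17, 18, 22, 257, 278, 292, 294, 326], [[0], [11], [8], [13], [1], [9]])], (Tr.bt 6 (Tr.bt 96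
     (Tr.bt 262 (Tr.lf 0) (Tr.lf 1)) (Tr.lf 2)) (Tr.lf 3))),
    ([(true, [0, 1, 97], [6, 16, 17, 96, 257, 262, 278], [[0], [15], [7], [8], [13], [14]]), (true, [0, 1, 3, 4,
     260, 262, 276], [6, 257, 259, 275, 278, 308, 310, 326], [[0], [7], [11], [10], [13], [8]]), (true, [0, 1, 3, 4,
     64, 96, 276], [6, 16, 48, 275, 278, 308, 310, 326], [[0], [14], [11], [10], [13], [8]]), (true, [1, 2, 4, 6,
     20, 274, 276], [17, 18, 22, 257, 278, 292, 294, 326], [[0], [11], [8], [13], [1], [9]])], (Tr.bt 6 (Tr.bt 96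
     (Tr.bt 262 (Tr.lf 0) (Tr.lf 1)) (Tr.lf 2)) (Tr.lf 3))),
    ([(true, [0, 1, 97], [6, 16, 17, 96, 257, 262, 278], [[0], [15], [7], [8], [13], [14]]), (true, [0, 1, 3, 5,
     261, 262, 309], [6, 257, 259, 275, 277, 278, 310, 342], [[0], [7], [12], [8], [13], [10]]), (true, [0, 1, 3, 5,
     80, 96, 309], [6, 16, 48, 275, 277, 278, 310, 342], [[0], [14], [12], [8], [13], [10]]), (true, [2, 3, 5, 6,
     21, 291, 309], [18, 19, 22, 257, 293, 294, 310, 342], [[0], [12], [10], [13], [1], [9]])], (Tr.bt 6 (Tr.bt 96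
     (Tr.bt 262 (Tr.lf 0) (Tr.lf 1)) (Tr.lf 2)) (Tr.lf 3))),
    ([(true, [0, 1, 97], [6, 16, 17, 96, 257, 262, 278], [[0], [15], [7], [8], [13], [14]]), (true, [0, 1, 3, 5,
     261, 262, 277], [6, 257, 259, 275, 278, 309, 310, 342], [[0], [7], [12], [10], [13], [8]]), (true, [0, 1, 3, 5,
     80, 96, 277], [6, 16, 48, 275, 278, 309, 310, 342], [[0], [14], [12], [10], [13], [8]]), (true, [2, 3, 5, 6,
     21, 291, 293], [18, 19, 22, 257, 294, 309, 310, 342], [[0], [12], [9], [13], [1], [10]])], (Tr.bt 6 (Tr.bt 96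
     (Tr.bt 262 (Tr.lf 0) (Tr.lf 1)) (Tr.lf 2)) (Tr.lf 3))),
    ([(true, [0, 1, 97], [6, 16, 17, 96, 257, 262, 278], [[0], [15], [7], [8], [13], [14]]), (true, [0, 1, 3, 5,
     261, 262, 309], [6, 257, 259, 275, 277, 278, 310, 342], [[0], [7], [12], [8], [13], [10]]), (true, [0, 1, 3, 5,
     80, 96, 309], [6, 16, 48, 275, 277, 278, 310, 342], [[0], [14], [12], [8], [13], [10]]), (true, [2, 3, 5, 6,
     21, 291, 309], [18, 19, 22, 257, 293, 294, 310, 342], [[0], [12], [10], [13], [1], [9]])], (Tr.bt 6 (Tr.bt 96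
     (Tr.bt 262 (Tr.lf 0) (Tr.lf 1)) (Tr.lf 2)) (Tr.lf 3))),
    ([(true, [0, 1, 97], [6, 16, 17, 96, 257, 262, 278], [[0], [15], [7], [8], [13], [14]]), (true, [0, 1, 3, 5,
     261, 262, 277], [6, 257, 259, 275, 278, 309, 310, 342], [[0], [7], [12], [10], [13], [8]]), (true, [0, 1, 3, 5,
     80, 96, 277], [6, 16, 48, 275, 278, 309, 310, 342], [[0], [14], [12], [10], [13], [8]]), (true, [2, 3, 5, 6,
     21, 291, 293], [18, 19, 22, 257, 294, 309, 310, 342], [[0], [12], [9], [13], [1], [10]])], (Tr.bt 6 (Tr.bt 96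
     (Tr.bt 262 (Tr.lf 0) (Tr.lf 1)) (Tr.lf 2)) (Tr.lf 3))),
    ([(true, [0, 1, 278], [6, 16, 17, 22, 257, 262], [[0], [15], [7], [8], [20], [14]]), (false, [64, 66, 68, 69,
     70, 96, 98, 100, 101, 102, 260, 261, 262, 292, 294, 325, 342], [258, 293, 326], [[7], [9], [12], [4], [6],
     [11], [13]]), (true, [1, 5, 6, 21, 81, 85, 261], [17, 22, 86, 257, 277], [[0], [12], [5], [20], [1], [8]]),
     (true, [0, 1, 4, 20, 64, 70, 262], [6, 16, 17, 22, 257, 276], [[11], [0], [14], [1], [8], [20]]), (true, [0, 1,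
     3, 4, 64, 262, 308], [6, 16, 22, 48, 54, 70, 275, 276], [[0], [14], [11], [8], [20], [10]]), (true, [1, 4, 6,
     20, 65, 68, 260], [17, 22, 70, 257, 276], [[0], [11], [4], [20], [1], [8]]), (true, [97, 102, 262, 278], [16,
     17, 22, 96], [[6], [20], [13], [1], [14], [8]]), (true, [1, 6, 97, 262, 278], [17, 22, 102, 257], [[0], [6],
     [8], [20], [1], [13]]), (true, [80, 81, 86, 97, 278, 342], [16, 17, 22, 96, 102, 257, 262, 277], [[5], [6],
     [8], [7], [1], [13]]), (true, [1, 97, 102, 278], [16, 17, 22, 96, 257, 262], [[6], [15], [13], [1], [7], [8]]),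
     (true, [0, 21, 80, 96, 261, 278, 342], [16, 17, 22, 257, 262, 277], [[12], [13], [14], [1], [8], [7]]), (false,
     [64, 67, 68, 69, 70, 96, 99, 100, 102, 260, 261, 262, 308, 309, 310, 325, 342], [101, 259, 326], [[4], [6],
     [12], [7], [10], [11], [13]]), (false, [20, 64, 66, 68, 70, 96, 98, 102, 260, 262, 278, 292, 294], [22, 100,
     258, 326], [[4], [6], [11], [14], [16], [20], [18, 1]])], (Tr.bt 6 (Tr.bt 262 (Tr.lf 0) (Tr.bt 70 (Tr.lf 4)
     (Tr.lf 3))) (Tr.bt 86 (Tr.lf 2) (Tr.bt 70 (Tr.lf 5) (Tr.bt 262 (Tr.bt 96 (Tr.bt 102 (Tr.lf 8) (Tr.lf 9)) (Tr.lf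
     10)) (Tr.bt 102 (Tr.lf 7) (Tr.bt 96 (Tr.lf 6) (Tr.bt 100 (Tr.lf 12) (Tr.bt 101 (Tr.lf 11) (Tr.lf 1)))))))))),
    ([(true, [0, 1, 278], [6, 16, 17, 22, 257, 262], [[0], [15], [7], [8], [20], [14]]), (false, [0, 64, 66, 68, 70,
     96, 98, 100, 102, 260, 262, 292, 294], [32, 258, 326], [[7], [9], [14], [4], [6], [11], [13]]), (true, [3, 5,
     6, 53, 83, 85, 261], [51, 54, 86, 259, 309], [[0], [12], [5], [20], [3], [10]]), (true, [0, 1, 4, 20, 64, 70,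
     262], [6, 16, 17, 22, 257, 276], [[11], [0], [14], [1], [8], [20]]), (true, [0, 1, 3, 4, 64, 262, 308], [6, 16,
     22, 48, 54, 70, 275, 276], [[0], [14], [11], [8], [20], [10]]), (true, [1, 4, 6, 20, 65, 68, 260], [17, 22, 70,
     257, 276], [[0], [11], [4], [20], [1], [8]]), (true, [97, 102, 262, 278], [16, 17, 22, 96], [[6], [20], [13],
     [1], [14], [8]]), (true, [1, 6, 97, 262, 278], [17, 22, 102, 257], [[0], [6], [8], [20], [1], [13]]), (true,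
     [80, 81, 86, 97, 278, 310, 342], [48, 49, 54, 96, 102, 257, 262, 309], [[5], [6], [8], [7], [3], [13]]), (true,
     [1, 97, 102, 278], [16, 17, 22, 96, 257, 262], [[6], [15], [13], [1], [7], [8]]), (true, [0, 21, 80, 96, 261,
     310, 342], [16, 19, 22, 48, 259, 262, 309], [[12], [13], [14], [1], [10], [7]]), (false, [20, 64, 66, 68, 70,
     96, 98, 102, 260, 262, 278, 292, 294], [22, 100, 258, 326], [[4], [6], [11], [14], [16], [20], [18, 1]])],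
     (Tr.bt 6 (Tr.bt 262 (Tr.lf 0) (Tr.bt 70 (Tr.lf 4) (Tr.lf 3))) (Tr.bt 86 (Tr.lf 2) (Tr.bt 70 (Tr.lf 5) (Tr.bt
     262 (Tr.bt 96 (Tr.bt 102 (Tr.lf 8) (Tr.lf 9)) (Tr.lf 10)) (Tr.bt 102 (Tr.lf 7) (Tr.bt 96 (Tr.lf 6) (Tr.bt 100
     (Tr.lf 11) (Tr.lf 1))))))))),
    ([(true, [0, 1, 278], [6, 16, 17, 22, 257, 262], [[0], [15], [7], [8], [20], [14]]), (false, [64, 65, 68, 69,
     70, 96, 97, 100, 101, 102, 260, 261, 262, 276, 278, 325, 342], [257, 277, 326], [[7], [8], [12], [4], [6],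
     [11], [13]]), (true, [1, 5, 6, 21, 81, 85, 261], [17, 22, 86, 257, 277], [[0], [12], [5], [20], [1], [8]]),
     (true, [0, 2, 4, 20, 64, 70, 262], [6, 16, 18, 22, 32, 38, 257, 292], [[11], [0], [14], [1], [9], [20]]),
     (true, [0, 1, 3, 4, 64, 262, 276], [6, 16, 22, 48, 54, 70, 275, 308], [[0], [14], [11], [10], [20], [8]]),
     (true, [2, 4, 6, 36, 66, 68, 260], [34, 38, 70, 258, 292], [[0], [11], [4], [20], [2], [9]]), (true, [97, 102,
     262, 278], [16, 17, 22, 96], [[6], [20], [13], [1], [14], [8]]), (true, [1, 6, 97, 262, 278], [17, 22, 102,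
     257], [[0], [6], [8], [20], [1], [13]]), (true, [80, 81, 86, 97, 278, 342], [16, 17, 22, 96, 102, 257, 262,
     277], [[5], [6], [8], [7], [1], [13]]), (true, [1, 97, 102, 278], [16, 17, 22, 96, 257, 262], [[6], [15], [13],
     [1], [7], [8]]), (true, [0, 21, 80, 96, 261, 278, 342], [16, 17, 22, 257, 262, 277], [[12], [13], [14], [1],
     [8], [7]]), (false, [64, 65, 68, 69, 70, 80, 81, 96, 97, 100, 102, 325, 342], [101, 257, 326], [[4], [6], [12],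
     [11], [13], [14], [15]]), (false, [20, 64, 65, 68, 70, 96, 97, 102, 260, 262, 276, 278], [22, 100, 257, 326],
     [[4], [6], [11], [14], [15], [20], [18, 1]])], (Tr.bt 6 (Tr.bt 262 (Tr.lf 0) (Tr.bt 70 (Tr.lf 4) (Tr.lf 3)))
     (Tr.bt 86 (Tr.lf 2) (Tr.bt 70 (Tr.lf 5) (Tr.bt 262 (Tr.bt 96 (Tr.bt 102 (Tr.lf 8) (Tr.lf 9)) (Tr.lf 10)) (Tr.bt
     102 (Tr.lf 7) (Tr.bt 96 (Tr.lf 6) (Tr.bt 100 (Tr.lf 12) (Tr.bt 101 (Tr.lf 11) (Tr.lf 1)))))))))),
    ([(true, [0, 1, 278], [6, 16, 17, 22, 257, 262], [[0], [15], [7], [8], [20], [14]]), (false, [0, 64, 65, 68, 70,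
     96, 97, 100, 102, 260, 262, 276, 278], [16, 257, 326], [[7], [8], [14], [4], [6], [11], [13]]), (true, [3, 5,
     6, 53, 83, 85, 261], [51, 54, 86, 259, 309], [[0], [12], [5], [20], [3], [10]]), (true, [0, 2, 4, 20, 64, 70,
     262], [6, 16, 18, 22, 32, 38, 257, 292], [[11], [0], [14], [1], [9], [20]]), (true, [0, 1, 3, 4, 64, 262, 276],
     [6, 16, 22, 48, 54, 70, 275, 308], [[0], [14], [11], [10], [20], [8]]), (true, [2, 4, 6, 36, 66, 68, 260], [34,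
     38, 70, 258, 292], [[0], [11], [4], [20], [2], [9]]), (true, [97, 102, 262, 278], [16, 17, 22, 96], [[6], [20],
     [13], [1], [14], [8]]), (true, [1, 6, 97, 262, 278], [17, 22, 102, 257], [[0], [6], [8], [20], [1], [13]]),
     (true, [80, 81, 86, 97, 278, 310, 342], [48, 49, 54, 96, 102, 257, 262, 309], [[5], [6], [8], [7], [3], [13]]),
     (true, [1, 97, 102, 278], [16, 17, 22, 96, 257, 262], [[6], [15], [13], [1], [7], [8]]), (true, [0, 21, 80, 96,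
     261, 310, 342], [16, 19, 22, 48, 259, 262, 309], [[12], [13], [14], [1], [10], [7]]), (false, [20, 64, 65, 68,
     70, 96, 97, 102, 260, 262, 276, 278], [22, 100, 257, 326], [[4], [6], [11], [14], [15], [20], [18, 1]])],
     (Tr.bt 6 (Tr.bt 262 (Tr.lf 0) (Tr.bt 70 (Tr.lf 4) (Tr.lf 3))) (Tr.bt 86 (Tr.lf 2) (Tr.bt 70 (Tr.lf 5) (Tr.bt
     262 (Tr.bt 96 (Tr.bt 102 (Tr.lf 8) (Tr.lf 9)) (Tr.lf 10)) (Tr.bt 102 (Tr.lf 7) (Tr.bt 96 (Tr.lf 6) (Tr.bt 100
     (Tr.lf 11) (Tr.lf 1))))))))),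
    ([(true, [0, 1, 278], [6, 16, 17, 22, 257, 262], [[0], [15], [7], [8], [20], [14]]), (false, [0, 80, 83, 85, 86,
     96, 99, 101, 102, 261, 262, 309, 310], [48, 259, 342], [[7], [10], [14], [5], [6], [12], [13]]), (true, [1, 5,
     6, 21, 81, 85, 261], [17, 22, 86, 257, 277], [[0], [12], [5], [20], [1], [8]]), (true, [0, 1, 4, 20, 64, 70,
     262], [6, 16, 17, 22, 257, 276], [[11], [0], [14], [1], [8], [20]]), (true, [0, 1, 3, 4, 64, 262, 308], [6, 16,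
     22, 48, 54, 70, 275, 276], [[0], [14], [11], [8], [20], [10]]), (true, [1, 4, 6, 20, 65, 68, 260], [17, 22, 70,
     257, 276], [[0], [11], [4], [20], [1], [8]]), (true, [1, 6, 97, 262, 278], [17, 22, 102, 257], [[0], [6], [8],
     [20], [1], [13]]), (true, [64, 65, 70, 97, 278, 326], [16, 17, 22, 96, 102, 257, 262, 276], [[4], [6], [8],
     [7], [1], [13]]), (true, [97, 102, 262, 278], [16, 17, 22, 96], [[6], [20], [13], [1], [14], [8]]), (true, [1,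
     97, 102, 278], [16, 17, 22, 96, 257, 262], [[6], [15], [13], [1], [7], [8]]), (true, [0, 20, 64, 96, 260, 278,
     326], [16, 17, 22, 257, 262, 276], [[11], [13], [14], [1], [8], [7]]), (false, [21, 80, 83, 85, 86, 96, 99,
     102, 261, 262, 278, 309, 310], [22, 101, 259, 342], [[5], [6], [12], [14], [17], [20], [19, 1]])], (Tr.bt 6
     (Tr.bt 262 (Tr.lf 0) (Tr.bt 70 (Tr.lf 4) (Tr.lf 3))) (Tr.bt 86 (Tr.lf 2) (Tr.bt 70 (Tr.lf 5) (Tr.bt 262 (Tr.bt
     96 (Tr.bt 102 (Tr.lf 7) (Tr.lf 9)) (Tr.lf 10)) (Tr.bt 102 (Tr.lf 6) (Tr.bt 96 (Tr.lf 8) (Tr.bt 101 (Tr.lf 11)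
     (Tr.lf 1))))))))),
    ([(true, [0, 1, 278], [6, 16, 17, 22, 257, 262], [[0], [15], [7], [8], [20], [14]]), (false, [80, 81, 84, 85,
     86, 96, 97, 100, 101, 102, 260, 261, 262, 277, 278, 325, 326], [257, 276, 342], [[7], [8], [11], [5], [6],
     [12], [13]]), (true, [3, 5, 6, 53, 83, 85, 261], [51, 54, 86, 259, 309], [[0], [12], [5], [20], [3], [10]]),
     (true, [0, 1, 4, 20, 64, 70, 262], [6, 16, 17, 22, 257, 276], [[11], [0], [14], [1], [8], [20]]), (true, [0, 1,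
     3, 4, 64, 262, 308], [6, 16, 22, 48, 54, 70, 275, 276], [[0], [14], [11], [8], [20], [10]]), (true, [1, 4, 6,
     20, 65, 68, 260], [17, 22, 70, 257, 276], [[0], [11], [4], [20], [1], [8]]), (true, [1, 6, 97, 262, 278], [17,
     22, 102, 257], [[0], [6], [8], [20], [1], [13]]), (true, [64, 65, 70, 97, 278, 326], [16, 17, 22, 96, 102, 257,
     262, 276], [[4], [6], [8], [7], [1], [13]]), (true, [97, 102, 262, 278], [16, 17, 22, 96], [[6], [20], [13],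
     [1], [14], [8]]), (true, [1, 97, 102, 278], [16, 17, 22, 96, 257, 262], [[6], [15], [13], [1], [7], [8]]),
     (true, [0, 20, 64, 96, 260, 278, 326], [16, 17, 22, 257, 262, 276], [[11], [13], [14], [1], [8], [7]]), (false,
     [80, 82, 84, 85, 86, 96, 98, 101, 102, 260, 261, 262, 292, 293, 294, 325, 326], [100, 258, 342], [[5], [6],
     [11], [7], [9], [12], [13]]), (false, [21, 80, 81, 85, 86, 96, 97, 102, 261, 262, 277, 278], [22, 101, 257,
     342], [[5], [6], [12], [14], [15], [20], [19, 1]])], (Tr.bt 6 (Tr.bt 262 (Tr.lf 0) (Tr.bt 70 (Tr.lf 4) (Tr.lf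
     3))) (Tr.bt 86 (Tr.lf 2) (Tr.bt 70 (Tr.lf 5) (Tr.bt 262 (Tr.bt 96 (Tr.bt 102 (Tr.lf 7) (Tr.lf 9)) (Tr.lf 10))
     (Tr.bt 102 (Tr.lf 6) (Tr.bt 96 (Tr.lf 8) (Tr.bt 101 (Tr.lf 12) (Tr.bt 100 (Tr.lf 11) (Tr.lf 1)))))))))),
    ([(true, [0, 1, 278], [6, 16, 17, 22, 257, 262], [[0], [15], [7], [8], [20], [14]]), (false, [80, 83, 84, 85,
     86, 96, 99, 100, 101, 102, 260, 261, 262, 309, 310, 325, 326], [259, 308, 342], [[7], [10], [11], [5], [6],
     [12], [13]]), (true, [1, 5, 6, 21, 81, 85, 261], [17, 22, 86, 257, 277], [[0], [12], [5], [20], [1], [8]]),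
     (true, [0, 2, 4, 20, 64, 70, 262], [6, 16, 18, 22, 32, 38, 257, 292], [[11], [0], [14], [1], [9], [20]]),
     (true, [0, 1, 3, 4, 64, 262, 276], [6, 16, 22, 48, 54, 70, 275, 308], [[0], [14], [11], [10], [20], [8]]),
     (true, [2, 4, 6, 36, 66, 68, 260], [34, 38, 70, 258, 292], [[0], [11], [4], [20], [2], [9]]), (true, [1, 6, 97,
     262, 278], [17, 22, 102, 257], [[0], [6], [8], [20], [1], [13]]), (true, [64, 65, 70, 97, 278, 294, 326], [32,
     33, 38, 96, 102, 257, 262, 292], [[4], [6], [8], [7], [2], [13]]), (true, [97, 102, 262, 278], [16, 17, 22,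
     96], [[6], [20], [13], [1], [14], [8]]), (true, [1, 97, 102, 278], [16, 17, 22, 96, 257, 262], [[6], [15],
     [13], [1], [7], [8]]), (true, [0, 20, 64, 96, 260, 294, 326], [16, 18, 22, 32, 258, 262, 292], [[11], [13],
     [14], [1], [9], [7]]), (false, [64, 65, 80, 81, 84, 85, 86, 96, 97, 101, 102, 325, 326], [100, 257, 342], [[5],
     [6], [11], [12], [13], [14], [15]]), (false, [21, 80, 83, 85, 86, 96, 99, 102, 261, 262, 278, 309, 310], [22,
     101, 259, 342], [[5], [6], [12], [14], [17], [20], [19, 1]])], (Tr.bt 6 (Tr.bt 262 (Tr.lf 0) (Tr.bt 70 (Tr.lf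
     4) (Tr.lf 3))) (Tr.bt 86 (Tr.lf 2) (Tr.bt 70 (Tr.lf 5) (Tr.bt 262 (Tr.bt 96 (Tr.bt 102 (Tr.lf 7) (Tr.lf 9))
     (Tr.lf 10)) (Tr.bt 102 (Tr.lf 6) (Tr.bt 96 (Tr.lf 8) (Tr.bt 101 (Tr.lf 12) (Tr.bt 100 (Tr.lf 11) (Tr.lf
     1)))))))))),
    ([(true, [0, 1, 278], [6, 16, 17, 22, 257, 262], [[0], [15], [7], [8], [20], [14]]), (false, [0, 80, 81, 85, 86,
     96, 97, 101, 102, 261, 262, 277, 278], [16, 257, 342], [[7], [8], [14], [5], [6], [12], [13]]), (true, [3, 5,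
     6, 53, 83, 85, 261], [51, 54, 86, 259, 309], [[0], [12], [5], [20], [3], [10]]), (true, [0, 2, 4, 20, 64, 70,
     262], [6, 16, 18, 22, 32, 38, 257, 292], [[11], [0], [14], [1], [9], [20]]), (true, [0, 1, 3, 4, 64, 262, 276],
     [6, 16, 22, 48, 54, 70, 275, 308], [[0], [14], [11], [10], [20], [8]]), (true, [2, 4, 6, 36, 66, 68, 260], [34,
     38, 70, 258, 292], [[0], [11], [4], [20], [2], [9]]), (true, [1, 6, 97, 262, 278], [17, 22, 102, 257], [[0],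
     [6], [8], [20], [1], [13]]), (true, [64, 65, 70, 97, 278, 294, 326], [32, 33, 38, 96, 102, 257, 262, 292],
     [[4], [6], [8], [7], [2], [13]]), (true, [97, 102, 262, 278], [16, 17, 22, 96], [[6], [20], [13], [1], [14],
     [8]]), (true, [1, 97, 102, 278], [16, 17, 22, 96, 257, 262], [[6], [15], [13], [1], [7], [8]]), (true, [0, 20,
     64, 96, 260, 294, 326], [16, 18, 22, 32, 258, 262, 292], [[11], [13], [14], [1], [9], [7]]), (false, [21, 80,
     81, 85, 86, 96, 97, 102, 261, 262, 277, 278], [22, 101, 257, 342], [[5], [6], [12], [14], [15], [20], [19,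
     1]])], (Tr.bt 6 (Tr.bt 262 (Tr.lf 0) (Tr.bt 70 (Tr.lf 4) (Tr.lf 3))) (Tr.bt 86 (Tr.lf 2) (Tr.bt 70 (Tr.lf 5)
     (Tr.bt 262 (Tr.bt 96 (Tr.bt 102 (Tr.lf 7) (Tr.lf 9)) (Tr.lf 10)) (Tr.bt 102 (Tr.lf 6) (Tr.bt 96 (Tr.lf 8)
     (Tr.bt 101 (Tr.lf 11) (Tr.lf 1))))))))),
    ([(true, [0, 1, 4, 20, 22, 260], [6, 16, 17, 257, 262, 276, 278, 326], [[0], [8], [18], [15], [20], [14]]),
     (false, [4, 6, 20, 22, 68, 70, 100, 102, 260], [257, 276, 326], [[0], [1], [4], [11], [13], [18], [20]]),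
     (true, [0, 1, 3, 4, 260, 262, 308], [6, 257, 259, 275, 276, 278, 310, 326], [[0], [7], [11], [8], [13], [10]]),
     (true, [36, 38, 65, 67, 68, 292, 308], [33, 35, 70, 275, 276, 278, 310, 326], [[4], [2], [11], [8], [13],
     [10]]), (true, [52, 54, 81, 83, 84, 308, 309], [49, 51, 86, 275, 276, 278, 310, 326], [[5], [3], [11], [8],
     [13], [10]]), (true, [0, 6, 22, 64, 70, 260, 262], [16, 96, 102, 257, 276, 278, 326], [[0], [13], [4], [6],
     [1], [14]]), (true, [0, 1, 6, 22, 97], [16, 17, 257, 262, 278], [[0], [13], [15], [8], [1], [7]]), (true, [96,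
     97, 99, 100, 260, 262, 308], [102, 257, 259, 275, 276, 278, 310, 326], [[6], [7], [11], [8], [13], [10]]),
     (true, [4, 20, 52, 68, 260, 262, 308], [100, 257, 259, 275, 276, 278, 310, 326], [[11], [0], [4], [1], [6],
     [3]])], (Tr.bt 70 (Tr.lf 3) (Tr.bt 86 (Tr.lf 4) (Tr.bt 6 (Tr.bt 262 (Tr.lf 0) (Tr.lf 2)) (Tr.bt 262 (Tr.lf 6)
     (Tr.bt 100 (Tr.lf 8) (Tr.bt 102 (Tr.bt 96 (Tr.lf 5) (Tr.lf 7)) (Tr.lf 1)))))))),
    ([(true, [0, 1, 4, 20, 22, 260], [6, 16, 17, 257, 262, 276, 278, 326], [[0], [8], [18], [15], [20], [14]]),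
     (true, [260, 261, 262, 277, 308, 325, 342], [257, 259, 275, 276, 278, 309, 310, 326], [[5], [4], [0], [1], [3],
     [6]]), (true, [0, 1, 6, 22, 97], [16, 17, 257, 262, 278], [[0], [13], [15], [8], [1], [7]])], (Tr.bt 262 (Tr.bt
     6 (Tr.lf 0) (Tr.lf 2)) (Tr.lf 1))),
    ([(true, [0, 1, 2, 4, 20, 22, 260], [6, 16, 18, 258, 262, 292, 294, 326], [[0], [8], [18], [16], [20], [14]]),
     (true, [260, 261, 262, 276, 309, 325, 342], [257, 259, 275, 277, 278, 308, 310, 326], [[5], [4], [0], [3], [1],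
     [6]]), (true, [0, 1, 6, 22, 97], [16, 17, 257, 262, 278], [[0], [13], [15], [8], [1], [7]])], (Tr.bt 262 (Tr.bt
     6 (Tr.lf 0) (Tr.lf 2)) (Tr.lf 1))),
    ([(true, [274, 276, 277, 291, 293, 325, 342], [275, 278, 292, 294, 308, 309, 310, 326], [[5], [2], [1], [6],
     [3], [4]])], (Tr.lf 0)),
    ([(true, [274, 291, 292, 308, 309, 325, 326], [275, 276, 277, 278, 293, 294, 310, 342], [[4], [2], [3], [6],
     [1], [5]])], (Tr.lf 0)),
    ([(true, [0, 1, 3, 5, 21, 22, 261], [6, 16, 19, 259, 262, 309, 310, 342], [[0], [8], [19], [17], [20], [14]]),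
     (true, [260, 261, 262, 277, 308, 325, 326], [257, 259, 275, 276, 278, 309, 310, 342], [[4], [5], [0], [3], [1],
     [6]]), (true, [0, 1, 6, 22, 97], [16, 17, 257, 262, 278], [[0], [13], [15], [8], [1], [7]])], (Tr.bt 262 (Tr.bt
     6 (Tr.lf 0) (Tr.lf 2)) (Tr.lf 1))),
    ([(true, [0, 1, 5, 21, 22, 261], [6, 16, 17, 257, 262, 277, 278, 342], [[0], [8], [19], [15], [20], [14]]),
     (true, [260, 261, 262, 276, 309, 325, 326], [257, 259, 275, 277, 278, 308, 310, 342], [[4], [5], [0], [1], [3],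
     [6]]), (true, [0, 1, 6, 22, 97], [16, 17, 257, 262, 278], [[0], [13], [15], [8], [1], [7]])], (Tr.bt 262 (Tr.bt
     6 (Tr.lf 0) (Tr.lf 2)) (Tr.lf 1))),
    ([(true, [0, 1, 3, 5, 21, 22, 261], [6, 16, 19, 259, 262, 309, 310, 342], [[0], [8], [19], [17], [20], [14]]),
     (false, [5, 6, 21, 22, 85, 86, 101, 102, 262], [257, 278, 342], [[0], [1], [6], [12], [13], [19], [20]]),
     (true, [0, 1, 3, 5, 261, 262, 277], [6, 257, 259, 275, 278, 309, 310, 342], [[0], [7], [12], [10], [13], [8]]),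
     (true, [21, 22, 65, 67, 69, 276, 277], [17, 19, 70, 275, 278, 309, 310, 342], [[4], [1], [12], [10], [13],
     [8]]), (true, [21, 22, 81, 83, 85, 277], [17, 19, 86, 275, 278, 309, 310, 342], [[5], [1], [12], [10], [13],
     [8]]), (true, [0, 6, 54, 80, 86, 261, 262], [48, 96, 102, 259, 309, 310, 342], [[0], [13], [5], [6], [3],
     [14]]), (true, [0, 1, 6, 22, 97], [16, 17, 257, 262, 278], [[0], [13], [15], [8], [1], [7]]), (true, [5, 21,
     53, 85, 261, 262, 277], [101, 257, 259, 275, 278, 309, 310, 342], [[12], [0], [5], [3], [6], [1]]), (true, [96,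
     97, 99, 101, 261, 262, 277], [102, 257, 259, 275, 278, 309, 310, 342], [[6], [7], [12], [10], [13], [8]])],
     (Tr.bt 6 (Tr.bt 262 (Tr.lf 0) (Tr.lf 2)) (Tr.bt 70 (Tr.lf 3) (Tr.bt 86 (Tr.lf 4) (Tr.bt 262 (Tr.lf 6) (Tr.bt
     101 (Tr.lf 7) (Tr.bt 102 (Tr.bt 96 (Tr.lf 5) (Tr.lf 8)) (Tr.lf 1)))))))),
    ([(false, [1, 4, 36, 38, 65, 68, 81, 84, 97, 100, 260, 261, 262, 278, 292, 294, 325, 342], [258, 276, 293, 326],
     [[0], [2], [5], [4], [6], [11], [13, 8]]), (false, [1, 3, 4, 20, 22, 52, 54, 65, 67, 68, 97, 99, 100, 260,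
     278], [262, 275, 276, 326], [[0], [6], [4], [8], [10], [18], [20, 15]]), (false, [1, 4, 20, 22, 65, 68, 97,
     260, 278], [100, 257, 276], [[0], [1], [4], [11], [8, 6], [18], [15, 13]])], (Tr.bt 100 (Tr.lf 2) (Tr.bt 262
     (Tr.lf 1) (Tr.lf 0)))),
    ([(false, [0, 1, 4, 6, 20, 22, 65, 68, 97, 100, 260, 262, 278], [16, 257, 276, 326], [[0], [1], [7], [11], [13],
     [18], [20, 15]]), (false, [0, 1, 4, 36, 38, 64, 65, 68, 96, 97, 100, 260, 262, 278, 292, 294], [32, 258, 276,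
     326], [[0], [2], [7], [4], [6], [11], [13, 8]]), (false, [1, 3, 4, 20, 22, 52, 54, 65, 67, 68, 97, 99, 100,
     260, 278], [262, 275, 276, 326], [[0], [6], [4], [8], [10], [18], [20, 15]]), (false, [1, 4, 20, 22, 65, 68,
     97, 260, 278], [100, 257, 276], [[0], [1], [4], [11], [8, 6], [18], [15, 13]]), (true, [0, 4, 100, 260, 262],
     [6, 96, 102, 326], [[18], [14], [0], [13], [20], [6]]), (false, [0, 1, 3, 4, 65, 67, 97, 99, 100, 102, 260,
     262], [6, 96, 275, 326], [[0], [13], [11], [6], [7], [15], [17]])], (Tr.bt 100 (Tr.lf 3) (Tr.bt 262 (Tr.lf 2)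
     (Tr.bt 96 (Tr.bt 6 (Tr.bt 102 (Tr.lf 4) (Tr.lf 5)) (Tr.lf 0)) (Tr.lf 1))))),
    ([(true, [68, 70, 84, 325, 342], [86, 100, 102, 326], [[4], [5], [11], [13], [6], [20]]), (false, [2, 4, 20, 22,
     66, 68, 82, 84, 98, 100, 260, 261, 262, 276, 278, 294, 325, 342], [257, 277, 292, 326], [[0], [1], [5], [4],
     [6], [11], [13, 9]]), (false, [0, 5, 6, 21, 22, 85, 102, 261, 262, 342], [16, 86, 101, 257], [[0], [1], [7],
     [12], [20], [13], [19]]), (false, [1, 2, 3, 4, 65, 66, 67, 68, 97, 98, 99, 101, 260, 274, 276, 291, 309, 325],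
     [262, 275, 292, 293, 326], [[0], [6], [4], [8], [10], [9], [12, 11]]), (true, [5, 6, 85, 261, 342], [86, 101,
     102, 262], [[0], [5], [12], [20], [6], [13]]), (false, [3, 5, 6, 21, 22, 53, 54, 85, 102, 309, 310, 342], [19,
     86, 101, 257], [[0], [1], [10], [12], [20], [13], [19]]), (true, [6, 80, 85, 261, 262, 342], [86, 96, 101,
     102], [[7], [5], [12], [20], [6], [13]]), (false, [0, 5, 6, 21, 22, 64, 65, 69, 96, 97, 260, 261, 262, 276,
     278, 342], [16, 70, 101, 257, 277], [[0], [1], [7], [4], [13], [12], [8, 6]]), (false, [65, 66, 67, 68, 97, 98,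
     99, 101, 274, 276, 291, 309, 325], [100, 275, 292, 293, 326], [[4], [6], [11], [15], [17], [16], [19, 18]]),
     (false, [1, 4, 5, 6, 20, 21, 22, 84, 85, 86, 97, 261, 276, 278, 325, 342], [101, 257, 277, 326], [[0], [1],
     [5], [11], [13], [12], [8, 6]]), (false, [1, 3, 4, 5, 65, 67, 81, 83, 97, 99, 276, 278, 325, 342], [6, 101,
     275, 277, 326], [[0], [13], [11], [12], [8, 6], [15], [17]])], (Tr.bt 262 (Tr.bt 101 (Tr.bt 6 (Tr.lf 10) (Tr.bt
     86 (Tr.bt 102 (Tr.lf 4) (Tr.lf 5)) (Tr.lf 9))) (Tr.lf 3)) (Tr.bt 100 (Tr.bt 101 (Tr.bt 6 (Tr.lf 10) (Tr.bt 86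
     (Tr.bt 102 (Tr.bt 70 (Tr.bt 96 (Tr.lf 6) (Tr.lf 7)) (Tr.lf 0)) (Tr.lf 2)) (Tr.lf 9))) (Tr.lf 8)) (Tr.lf 1)))),
    ([(false, [0, 2, 4, 20, 22, 64, 66, 68, 96, 98, 100, 260, 262, 276, 278, 294], [16, 257, 292, 326], [[0], [1],
     [7], [4], [6], [11], [13, 9]]), (false, [1, 2, 3, 4, 20, 22, 52, 54, 65, 66, 67, 68, 97, 98, 99, 100, 260,
     294], [262, 275, 292, 326], [[0], [6], [4], [8], [10], [18], [20, 16]]), (false, [1, 2, 4, 20, 22, 36, 66, 68,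
     97, 98, 276, 278, 294], [17, 100, 257, 292], [[0], [1], [8], [11], [9, 6], [18], [16, 13]]), (true, [0, 4, 100,
     260, 262], [6, 96, 102, 326], [[18], [14], [0], [13], [20], [6]]), (false, [0, 2, 4, 6, 20, 22, 66, 68, 98,
     100, 260, 262, 294], [16, 257, 292, 326], [[0], [1], [7], [11], [13], [18], [20, 16]]), (false, [0, 1, 3, 4,
     65, 67, 97, 99, 100, 102, 260, 262], [6, 96, 275, 326], [[0], [13], [11], [6], [7], [15], [17]])], (Tr.bt 100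
     (Tr.lf 2) (Tr.bt 262 (Tr.lf 1) (Tr.bt 96 (Tr.bt 6 (Tr.bt 102 (Tr.lf 3) (Tr.lf 5)) (Tr.lf 4)) (Tr.lf 0))))),
    ([(false, [1, 2, 4, 65, 66, 68, 97, 98, 260, 278, 292, 294, 326], [6, 33, 70, 100, 276], [[0], [13], [4], [9],
     [15], [11], [8, 6]]), (false, [1, 4, 5, 20, 21, 22, 65, 68, 69, 97, 100, 260, 262, 278, 326], [70, 101, 257,
     276], [[0], [1], [4], [6], [19], [11], [20, 8]]), (false, [1, 2, 4, 22, 65, 81, 82, 84, 97, 98, 100, 261, 274,
     278, 292], [33, 70, 262, 276, 342], [[0], [6], [5], [9], [15], [11], [20, 8]]), (false, [0, 1, 5, 53, 54, 80,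
     81, 85, 96, 97, 101, 261, 262, 278, 309, 310], [48, 259, 277, 342], [[0], [3], [7], [5], [6], [12], [13, 8]]),
     (false, [1, 5, 21, 22, 69, 70, 81, 85, 97, 260, 278, 326], [101, 257, 276, 277], [[0], [1], [4], [12], [8, 6],
     [19], [15, 13]]), (false, [1, 3, 5, 21, 22, 53, 54, 81, 83, 85, 97, 99, 101, 261, 278], [262, 275, 277, 342],
     [[0], [6], [5], [8], [10], [19], [20, 15]]), (false, [0, 1, 3, 5, 81, 83, 97, 99, 101, 102, 261, 262], [6, 96,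
     275, 342], [[0], [13], [12], [6], [7], [15], [17]]), (true, [0, 5, 101, 261, 262], [6, 96, 102, 342], [[19],
     [14], [0], [13], [20], [6]]), (false, [0, 1, 5, 6, 21, 22, 81, 85, 97, 101, 261, 262, 278], [16, 257, 277,
     342], [[0], [1], [7], [12], [13], [19], [20, 15]]), (false, [0, 1, 4, 6, 20, 22, 65, 68, 97, 260, 278, 326],
     [16, 70, 100, 257, 276], [[0], [1], [7], [11], [20], [18], [15, 6]])], (Tr.bt 101 (Tr.bt 70 (Tr.bt 100 (Tr.bt 6
     (Tr.lf 0) (Tr.lf 9)) (Tr.bt 262 (Tr.lf 2) (Tr.lf 1))) (Tr.lf 4)) (Tr.bt 262 (Tr.lf 5) (Tr.bt 96 (Tr.bt 6 (Tr.bt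
     102 (Tr.lf 7) (Tr.lf 6)) (Tr.lf 8)) (Tr.lf 3))))),
    ([(false, [1, 2, 4, 65, 66, 68, 97, 98, 260, 278, 292, 294, 326], [6, 33, 70, 100, 276], [[0], [13], [4], [9],
     [15], [11], [8, 6]]), (false, [20, 21, 22, 52, 53, 54, 84, 85, 86, 102, 277, 325, 326], [70, 275, 309, 342],
     [[1], [3], [5], [11], [20], [12], [13]]), (false, [1, 4, 20, 22, 65, 68, 81, 84, 97, 100, 260, 261, 262, 277,
     278, 325, 326], [70, 257, 276, 342], [[0], [1], [4], [5], [6], [11], [20, 8]]), (false, [1, 2, 4, 22, 65, 81,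
     82, 84, 97, 98, 100, 261, 274, 278, 292], [33, 70, 262, 276, 342], [[0], [6], [5], [9], [15], [11], [20, 8]]),
     (false, [3, 5, 21, 22, 67, 69, 83, 85, 99, 101, 260, 261, 262, 277, 278, 310, 325, 326], [257, 276, 309, 342],
     [[0], [1], [4], [5], [6], [12], [13, 10]]), (false, [1, 3, 5, 21, 22, 53, 54, 81, 83, 85, 97, 99, 101, 261,
     310], [262, 275, 309, 342], [[0], [6], [5], [8], [10], [19], [20, 17]]), (false, [3, 5, 21, 22, 53, 69, 70, 83,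
     85, 99, 260, 278, 310, 326], [101, 257, 276, 309], [[0], [1], [4], [12], [10, 6], [19], [17, 13]]), (true, [69,
     85, 86, 325, 326], [70, 101, 102, 342], [[5], [4], [12], [13], [6], [20]]), (false, [1, 2, 4, 6, 20, 22, 81,
     82, 84, 261, 274, 277, 278, 292, 294, 326], [18, 70, 86, 257, 276], [[0], [1], [9], [5], [13], [11], [20,
     8]])], (Tr.bt 101 (Tr.bt 70 (Tr.bt 86 (Tr.bt 6 (Tr.bt 100 (Tr.lf 0) (Tr.bt 262 (Tr.lf 3) (Tr.lf 2))) (Tr.lf 8))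
     (Tr.bt 102 (Tr.lf 7) (Tr.lf 1))) (Tr.lf 6)) (Tr.bt 262 (Tr.lf 5) (Tr.lf 4)))),
    ([(false, [1, 2, 3, 4, 65, 66, 67, 68, 260, 274, 276, 278, 291, 294, 309, 310, 325, 326], [6, 70, 275, 292,
     293], [[0], [13], [4], [8], [10], [9], [12, 11]]), (false, [1, 2, 3, 4, 81, 82, 83, 84, 261, 274, 276, 278,
     291, 294, 309, 310, 325, 326], [6, 86, 275, 292, 293], [[0], [13], [5], [8], [10], [9], [12, 11]]), (false, [1,
     3, 4, 5, 65, 67, 81, 83, 97, 99, 309, 310, 325, 326], [6, 100, 275, 308, 342], [[0], [13], [12], [11], [10, 6],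
     [15], [17]]), (false, [1, 2, 3, 4, 81, 82, 83, 84, 97, 98, 99, 100, 261, 274, 276, 291, 309, 325], [262, 275,
     292, 293, 342], [[0], [6], [5], [8], [10], [9], [12, 11]]), (false, [1, 5, 53, 54, 65, 69, 81, 85, 97, 101,
     260, 261, 262, 278, 309, 310, 325, 326], [259, 277, 308, 342], [[0], [3], [4], [5], [6], [12], [13, 8]]),
     (false, [0, 2, 4, 5, 6, 20, 21, 22, 82, 84, 98, 261, 278, 294, 326], [16, 86, 100, 257, 292], [[0], [1], [7],
     [12], [20], [18], [16, 6]]), (false, [2, 4, 6, 20, 22, 36, 68, 82, 84, 86, 98, 261, 278, 294, 326], [100, 257,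
     277, 292], [[0], [1], [5], [11], [9, 6], [13], [18]]), (false, [81, 82, 83, 84, 85, 97, 98, 99, 100, 274, 276,
     291, 309, 325], [101, 275, 292, 293, 342], [[5], [6], [12], [15], [17], [16], [19, 18]])], (Tr.bt 6 (Tr.bt 70
     (Tr.lf 0) (Tr.bt 86 (Tr.lf 1) (Tr.bt 100 (Tr.lf 2) (Tr.bt 262 (Tr.lf 3) (Tr.bt 101 (Tr.lf 7) (Tr.lf 4))))))
     (Tr.bt 100 (Tr.bt 86 (Tr.lf 5) (Tr.lf 6)) (Tr.bt 262 (Tr.lf 3) (Tr.bt 101 (Tr.lf 7) (Tr.lf 4)))))),
    ([(false, [0, 1, 3, 5, 81, 83, 97, 99, 101, 102, 261, 262], [6, 96, 275, 342], [[0], [13], [12], [6], [7], [15],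
     [17]]), (false, [0, 3, 5, 21, 22, 80, 83, 85, 96, 99, 101, 261, 262, 277, 278, 310], [16, 257, 309, 342], [[0],
     [1], [7], [5], [6], [12], [13, 10]]), (false, [1, 3, 5, 21, 22, 53, 54, 81, 83, 85, 97, 99, 101, 261, 310],
     [262, 275, 309, 342], [[0], [6], [5], [8], [10], [19], [20, 17]]), (false, [1, 3, 5, 21, 22, 53, 83, 85, 97,
     99, 277, 278, 310], [17, 101, 257, 309], [[0], [1], [8], [12], [10, 6], [19], [17, 13]]), (true, [0, 5, 101,
     261, 262], [6, 96, 102, 342], [[19], [14], [0], [13], [20], [6]]), (false, [0, 3, 5, 6, 21, 22, 83, 85, 99,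
     101, 261, 262, 310], [16, 257, 309, 342], [[0], [1], [7], [12], [13], [19], [20, 17]])], (Tr.bt 101 (Tr.lf 3)
     (Tr.bt 262 (Tr.lf 2) (Tr.bt 96 (Tr.bt 6 (Tr.bt 102 (Tr.lf 4) (Tr.lf 0)) (Tr.lf 5)) (Tr.lf 1)))))]

theorem t4Pk : ∀ al be e zw a b : Bool, (!e || al || be) = true →
    ckHX 7 0 (pos (fpK a b ++ knK 3 ++ mrK 3 4 true ++ mrK 3 5 true ++ wuK 4 5 ++
      zkK 3 6 al be e ++ [(256 + 16 * 4 + 6, zw), (256 + 16 * 5 + 6, !zw)])) (neg (fpK a b ++ knK 3 ++ mrK 3 4 true ++ mrK 3 5 true ++ wuK 4 5 ++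
      zkK 3 6 al be e ++ [(256 + 16 * 4 + 6, zw), (256 + 16 * 5 + 6, !zw)]))
      (sel t4Pl [al, be, e, zw, a, b]).1 (sel t4Pl [al, be, e, zw, a, b]).2 = true := by
  decide +kernel

/-- **T4**, form P: two thick mixers with different bits on an outer rail `z = 6` -/
theorem tab4P {G : SimpleGraph V} (hH : FH G) (hJ : FJ 2 G) {x : ℕ → ℕ → V} {F : ℕ → Bool}
    (hx : FT.HR G 7 16 x F) (hk : Kn 3 F) (hf : FmP F) (hw : Mr 3 4 true F) (hu : Mr 3 5 true F)
    (hwu : WU 4 5 F) {al be e : Bool} (hz : ZK 3 6 al be e F) (he : e = true → al = true ∨ be = true)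
    (hd : F (256 + 16 * 4 + 6) = !F (256 + 16 * 5 + 6)) : False := by
  obtain ⟨a, b, ha⟩ := hf.mem
  refine refuteK hH hJ (HRZ.of hx) _ (mem_app (mem_app (mem_app (mem_app (mem_app (mem_app ha hk.mem) hw.mem)
    hu.mem) hwu.mem) hz.mem) (mem_cs rfl (mem_cs (?_ : F (256 + 16 * 5 + 6) = !F (256 + 16 * 4 + 6)) mem_nl)))
    _ (t4Pk al be e _ a b ?_)
  · rw [hd, Bool.not_not]
  · rcases e with _ | _
    · rfl
    · rcases he rfl with rfl | rfl
      · rfl
      · simp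

end Pool.Agent.MPd439b2.RN.Tb
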