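import Pool.Agent.Lib.MP_d439b2_co.RN.TabS

/-!
# MP_d439b2_co, RN: tables for the cells and their mixers: T5 (helper32)
-/

set_option autoImplicit false

namespace Pool.Agent.MPd439b2.RN.Tb

open Pool.Agent.MPd439b2 Pool.Agent.MPd439b2.H1T

variable {V : Type}

def t5l : List (List CertX × Tr) := [
    ([], Tr.lf 0),
    ([], Tr.lf 0),
    ([], Tr.lf 0),
    ([], Tr.lf 0),
    ([], Tr.lf 0),
    ([], Tr.lf 0),
    ([], Tr.lf 0),
    ([], Tr.lf 0),
    ([], Tr.lf 0),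
    ([], Tr.lf 0),
    ([], Tr.lf 0),
    ([], Tr.lf 0),
    ([], Tr.lf 0),
    ([], Tr.lf 0),
    ([], Tr.lf 0),
    ([], Tr.lf 0),
    ([(true, [0, 1, 4, 21, 260, 325], [16, 17, 20, 257, 261, 276, 277], [[0], [17, 7], [16], [13], [1], [12]]),
     (true, [0, 1, 2, 3, 48, 49, 80], [5, 32, 33, 81, 257, 291, 293, 309], [[0], [12], [9], [8], [11], [13]]),
     (true, [0, 1, 3, 259, 261, 275], [5, 80, 81, 83, 85, 257, 277, 309], [[0], [6], [9], [5], [11], [7]]), (true,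
     [0, 2, 3, 83, 259, 261], [5, 80, 82, 85, 258, 291, 293, 309], [[0], [6], [9], [8], [11], [5]]), (true, [0, 1,
     21, 85, 261], [16, 17, 80, 81, 257, 277], [[0], [11, 5], [6], [7], [1], [12]]), (true, [0, 1, 5, 21, 261], [16,
     17, 81, 257, 277], [[0], [11], [6], [7], [1], [13]])], (Tr.bt 261 (Tr.lf 0) (Tr.bt 5 (Tr.bt 80 (Tr.bt 85 (Tr.bt
     83 (Tr.lf 2) (Tr.lf 3)) (Tr.lf 4)) (Tr.lf 1)) (Tr.lf 5)))),
    ([(true, [0, 1, 4, 21, 260, 325], [16, 17, 20, 257, 261, 276, 277], [[0], [17, 7], [16], [13], [1], [12]]),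
     (true, [21, 259, 260, 261, 292, 308, 325], [16, 18, 19, 20, 258, 291, 293, 309], [[10], [11], [6], [8], [1],
     [9]])], (Tr.bt 261 (Tr.lf 0) (Tr.lf 1))),
    ([(true, [259, 260, 274, 275, 276, 308, 325], [257, 258, 261, 277, 291, 292, 293, 309], [[4], [1], [3], [5],
     [2], [0]]), (true, [0, 1, 2, 3, 48, 49, 80], [5, 32, 33, 81, 257, 291, 293, 309], [[0], [12], [9], [8], [11],
     [13]]), (true, [48, 64, 274, 275, 276, 308, 325], [16, 32, 80, 277, 291, 292, 293, 309], [[4], [1], [3], [5],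
     [2], [6]]), (true, [0, 1, 5, 21, 261], [16, 17, 81, 257, 277], [[0], [11], [6], [7], [1], [13]])], (Tr.bt 261
     (Tr.lf 0) (Tr.bt 5 (Tr.bt 80 (Tr.lf 2) (Tr.lf 1)) (Tr.lf 3)))),
    ([(true, [0, 1, 5, 21, 80], [16, 17, 257, 261, 277], [[0], [11], [12], [7], [1], [6]]), (true, [0, 1, 80], [5,
     16, 17, 81, 257, 261, 277], [[0], [12], [6], [7], [11], [13]]), (true, [1, 4, 49, 52, 84, 259, 275], [17, 20,
     81, 257, 261, 277, 309], [[3], [16], [0], [1], [5], [7]]), (true, [0, 1, 2, 3, 83], [18, 19, 80, 81, 82, 257,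
     261, 291], [[0], [15], [6], [7], [5], [14]]), (true, [21, 37, 52, 85, 259, 274, 275, 325], [5, 36, 84, 257,
     258, 261, 277, 291, 293, 309], [[11], [10, 3], [1], [5], [0], [2]]), (true, [0, 21, 64, 260, 261, 276, 325],
     [16, 17, 20, 80, 257, 277], [[10], [11], [6], [7], [1], [12]]), (true, [0, 1, 2, 3, 48, 49, 80], [5, 32, 33,
     81, 257, 291, 293, 309], [[0], [12], [9], [8], [11], [13]]), (true, [0, 5, 21, 37, 85, 259, 274, 275], [16, 32,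
     80, 258, 261, 277, 291, 293, 309], [[11], [3, 0], [1], [5], [6], [2]]), (true, [21, 37, 48, 53, 274, 275], [16,
     17, 18, 19, 32, 261, 291], [[17], [9], [7], [1], [12], [8]]), (true, [21, 48, 49, 50, 274, 275], [16, 18, 32,
     53, 80, 85, 261, 277, 293], [[3], [1], [17, 7], [12], [11], [8]]), (true, [0, 1, 5, 21, 261], [16, 17, 81, 257,
     277], [[0], [11], [6], [7], [1], [13]])], (Tr.bt 261 (Tr.bt 84 (Tr.bt 53 (Tr.bt 80 (Tr.bt 83 (Tr.bt 85 (Tr.lf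
     9) (Tr.bt 5 (Tr.lf 4) (Tr.lf 7))) (Tr.lf 3)) (Tr.bt 5 (Tr.lf 1) (Tr.lf 0))) (Tr.lf 8)) (Tr.lf 2)) (Tr.bt 5
     (Tr.bt 80 (Tr.lf 5) (Tr.lf 6)) (Tr.lf 10)))),
    ([(true, [0, 1, 2, 3, 21, 259, 309], [16, 18, 19, 257, 258, 261, 291, 293], [[0], [17, 7], [15], [14], [1],
     [12]]), (true, [21, 259, 260, 261, 275, 308, 309], [16, 17, 19, 20, 257, 276, 277, 325], [[9], [11], [6], [7],
     [1], [10]])], (Tr.bt 261 (Tr.lf 0) (Tr.lf 1))),
    ([(true, [0, 1, 2, 3, 21, 259, 309], [16, 18, 19, 257, 258, 261, 291, 293], [[0], [17, 7], [15], [14], [1],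
     [12]]), (true, [21, 259, 260, 261, 275, 308, 309], [16, 17, 19, 20, 257, 276, 277, 325], [[9], [11], [6], [7],
     [1], [10]])], (Tr.bt 261 (Tr.lf 0) (Tr.lf 1))),
    ([(true, [259, 260, 274, 275, 276, 308, 309], [257, 258, 261, 277, 291, 292, 293, 325], [[3], [1], [4], [5],
     [2], [0]]), (true, [0, 1, 2, 4, 64, 65, 80], [5, 32, 33, 81, 257, 292, 293, 325], [[0], [12], [10], [8], [11],
     [13]]), (true, [48, 64, 274, 275, 276, 308, 309], [16, 32, 80, 277, 291, 292, 293, 325], [[3], [1], [4], [5],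
     [2], [6]]), (true, [0, 1, 5, 21, 261], [16, 17, 81, 257, 277], [[0], [11], [6], [7], [1], [13]])], (Tr.bt 261
     (Tr.lf 0) (Tr.bt 80 (Tr.lf 2) (Tr.bt 5 (Tr.lf 1) (Tr.lf 3))))),
    ([(true, [0, 1, 5, 21, 261], [16, 17, 81, 257, 277], [[0], [11], [6], [7], [1], [13]]), (true, [1, 2, 3, 83,
     274, 275], [5, 17, 18, 19, 81, 82, 277, 291], [[0], [15], [13], [7], [11], [14]]), (true, [0, 1, 3, 80, 259,
     275], [5, 16, 17, 19, 81, 83, 257, 277], [[0], [12], [15], [7], [11], [13]]), (true, [0, 21, 48, 259, 261, 275,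
     309], [16, 17, 19, 80, 257, 277], [[9], [11], [6], [7], [1], [12]]), (true, [0, 1, 2, 3, 21, 259, 309], [16,
     18, 19, 257, 258, 261, 291, 293], [[0], [17, 7], [15], [14], [1], [12]])], (Tr.bt 261 (Tr.lf 4) (Tr.bt 5 (Tr.bt
     83 (Tr.bt 80 (Tr.lf 3) (Tr.lf 2)) (Tr.lf 1)) (Tr.lf 0)))),
    ([(true, [0, 1, 80, 261, 277], [16, 17, 81, 257], [[0], [5], [6], [7], [1], [13]]), (true, [0, 21, 259, 261,
     274, 275, 277, 293], [16, 17, 18, 19, 32, 80, 258, 291], [[11], [9, 6], [7], [1], [12], [8]]), (true, [21, 259,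
     274, 275, 277, 293, 308, 325], [16, 17, 18, 19, 20, 257, 258, 261, 291, 292], [[11], [10, 9], [7], [1], [6],
     [8]])], (Tr.bt 261 (Tr.lf 2) (Tr.bt 80 (Tr.lf 1) (Tr.lf 0)))),
    ([(true, [0, 1, 80, 261, 277], [16, 17, 81, 257], [[0], [5], [6], [7], [1], [13]]), (true, [21, 260, 274, 277,
     292, 293, 325], [16, 17, 18, 20, 257, 258, 261, 276], [[11], [10], [8], [1], [6], [7]]), (true, [21, 64, 274,
     277, 292, 293, 325], [16, 17, 18, 20, 32, 80, 276], [[11], [10], [8], [1], [12], [7]])], (Tr.bt 80 (Tr.lf 2)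
     (Tr.bt 261 (Tr.lf 1) (Tr.lf 0)))),
    ([(true, [0, 1, 80, 261, 277], [16, 17, 81, 257], [[0], [5], [6], [7], [1], [13]]), (true, [21, 260, 274, 276,
     277, 293, 325], [16, 17, 18, 20, 257, 258, 261, 292], [[11], [10], [7], [1], [6], [8]]), (true, [21, 64, 274,
     276, 277, 293, 325], [16, 17, 18, 20, 32, 80, 292], [[11], [10], [7], [1], [12], [8]])], (Tr.bt 80 (Tr.lf 2)
     (Tr.bt 261 (Tr.lf 1) (Tr.lf 0)))),
    ([(true, [0, 1, 80, 261, 277], [16, 17, 81, 257], [[0], [5], [6], [7], [1], [13]]), (true, [0, 21, 259, 261,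
     274, 275, 277, 293], [16, 17, 18, 19, 32, 80, 258, 291], [[11], [9, 6], [7], [1], [12], [8]]), (true, [21, 37,
     49, 259, 274, 275, 277], [5, 16, 17, 18, 19, 33, 257, 258, 291], [[17], [13, 9], [7], [1], [6], [8]]), (true,
     [0, 5, 21, 37, 259, 274, 275], [16, 17, 18, 19, 32, 258, 261, 291], [[17], [9, 6], [7], [1], [12], [8]])],
     (Tr.bt 5 (Tr.lf 2) (Tr.bt 261 (Tr.lf 3) (Tr.bt 80 (Tr.lf 1) (Tr.lf 0))))),
    ([(true, [21, 274, 275, 277, 293, 308, 309], [17, 18, 19, 20, 276, 291, 292, 325], [[11], [9], [7], [1], [10],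
     [8]])], (Tr.lf 0)),
    ([(true, [0, 1, 80, 261, 277], [16, 17, 81, 257], [[0], [5], [6], [7], [1], [13]]), (true, [21, 259, 274, 275,
     277, 293, 309], [16, 17, 18, 19, 257, 258, 261, 291], [[11], [9], [7], [1], [6], [8]]), (true, [21, 48, 274,
     275, 277, 293, 309], [16, 17, 18, 19, 32, 80, 291], [[11], [9], [7], [1], [12], [8]])], (Tr.bt 80 (Tr.lf 2)
     (Tr.bt 261 (Tr.lf 1) (Tr.lf 0)))),
    ([(true, [0, 1, 80, 261, 277], [16, 17, 81, 257], [[0], [5], [6], [7], [1], [13]]), (true, [21, 259, 274, 275,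
     277, 293, 309], [16, 17, 18, 19, 257, 258, 261, 291], [[11], [9], [7], [1], [6], [8]]), (true, [21, 48, 274,
     275, 277, 293, 309], [16, 17, 18, 19, 32, 80, 291], [[11], [9], [7], [1], [12], [8]])], (Tr.bt 80 (Tr.lf 2)
     (Tr.bt 261 (Tr.lf 1) (Tr.lf 0)))),
    ([(true, [0, 1, 80, 261, 277], [16, 17, 81, 257], [[0], [5], [6], [7], [1], [13]]), (true, [21, 259, 274, 275,
     277, 293, 309], [16, 17, 18, 19, 257, 258, 261, 291], [[11], [9], [7], [1], [6], [8]]), (true, [21, 48, 274,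
     275, 277, 293, 309], [16, 17, 18, 19, 32, 80, 291], [[11], [9], [7], [1], [12], [8]])], (Tr.bt 80 (Tr.lf 2)
     (Tr.bt 261 (Tr.lf 1) (Tr.lf 0)))),
    ([(false, [48, 49, 51, 52, 53, 80, 81, 83, 84, 85, 260], [257, 276, 309], [[12], [13], [16], [3], [5], [9],
     [11]]), (true, [0, 48, 53, 85, 261, 275], [16, 21, 80, 277, 309], [[3], [11], [6], [1], [5], [12]]), (true, [0,
     1, 4, 325], [5, 17, 20, 21, 257, 276, 277], [[0], [16], [6], [7], [17], [13]]), (true, [5, 48, 49, 51, 259,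
     275], [16, 17, 19, 21, 53, 257], [[3], [6], [9], [1], [17], [7]]), (true, [0, 1, 48, 49, 81, 259, 275], [16,
     17, 80, 257, 261, 277, 309], [[3], [7], [0], [1], [5], [6]]), (false, [0, 1, 5, 48, 49, 53, 80, 81, 85, 259],
     [257, 261, 309], [[0], [5], [3], [6], [11], [12], [13]]), (true, [0, 5, 48, 53, 80, 259, 275], [16, 21, 85,
     257, 261, 277, 309], [[3], [6], [0], [1], [5], [11]]), (true, [49, 51, 81, 275], [17, 19, 83, 277, 309], [[3],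
     [7], [9], [1], [5], [15]]), (true, [48, 51, 53, 83, 259, 261, 275], [16, 19, 21, 80, 85, 277, 309], [[3], [9],
     [6], [1], [5], [11]]), (true, [52, 53, 68, 85, 275, 325], [20, 21, 84, 277, 309], [[3], [11], [10], [1], [5],
     [16]]), (true, [80, 81, 83, 259, 261, 275], [16, 17, 19, 21, 85, 257, 277, 309], [[5], [12], [15], [7], [17],
     [13]])], (Tr.bt 5 (Tr.lf 2) (Tr.bt 53 (Tr.lf 3) (Tr.bt 261 (Tr.bt 80 (Tr.lf 4) (Tr.bt 85 (Tr.lf 6) (Tr.lf 5)))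
     (Tr.bt 83 (Tr.lf 7) (Tr.bt 85 (Tr.bt 80 (Tr.lf 8) (Tr.lf 10)) (Tr.bt 80 (Tr.lf 1) (Tr.bt 84 (Tr.lf 9) (Tr.lf
     0))))))))),
    ([(false, [48, 49, 51, 52, 53, 80, 81, 83, 84, 85, 260], [257, 276, 309], [[12], [13], [16], [3], [5], [9],
     [11]]), (true, [0, 48, 53, 85, 261, 275], [16, 21, 80, 277, 309], [[3], [11], [6], [1], [5], [12]]), (true, [0,
     1, 4, 325], [5, 17, 20, 21, 257, 276, 277], [[0], [16], [6], [7], [17], [13]]), (true, [5, 48, 49, 51, 259,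
     275], [16, 17, 19, 21, 53, 257], [[3], [6], [9], [1], [17], [7]]), (true, [0, 1, 48, 49, 81, 259, 275], [16,
     17, 80, 257, 261, 277, 309], [[3], [7], [0], [1], [5], [6]]), (true, [0, 5, 48, 53, 80, 259, 275], [16, 21, 85,
     257, 261, 277, 309], [[3], [6], [0], [1], [5], [11]]), (true, [49, 51, 81, 275], [17, 19, 83, 277, 309], [[3],
     [7], [9], [1], [5], [15]]), (true, [48, 51, 53, 83, 259, 261, 275], [16, 19, 21, 80, 85, 277, 309], [[3], [9],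
     [6], [1], [5], [11]]), (true, [50, 52, 68, 82, 275, 292], [18, 20, 36, 84, 277, 309], [[3], [8], [10], [1],
     [5], [16]]), (true, [80, 81, 83, 259, 261, 275], [16, 17, 19, 21, 85, 257, 277, 309], [[5], [12], [15], [7],
     [17], [13]])], (Tr.bt 5 (Tr.lf 2) (Tr.bt 53 (Tr.lf 3) (Tr.bt 83 (Tr.lf 6) (Tr.bt 84 (Tr.lf 8) (Tr.bt 80 (Tr.bt
     261 (Tr.lf 4) (Tr.bt 85 (Tr.lf 7) (Tr.lf 1))) (Tr.bt 85 (Tr.bt 261 (Tr.lf 5) (Tr.lf 9)) (Tr.lf 0)))))))),
    ([(false, [48, 49, 51, 53, 80, 81, 83, 85, 261], [257, 277, 309], [[12], [13], [17], [3], [5], [9], [11]]),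
     (true, [49, 53, 65, 274, 275, 276, 308], [17, 21, 33, 37, 69, 277, 291, 292], [[3], [1], [4], [11], [2], [7]]),
     (true, [5, 48, 49, 51, 259, 275], [16, 17, 19, 21, 53, 257], [[3], [6], [9], [1], [17], [7]]), (true, [0, 1, 2,
     4, 325], [5, 18, 20, 21, 257, 292, 293], [[0], [16], [6], [7], [17], [14]]), (true, [0, 48, 53, 85, 261, 275],
     [16, 21, 80, 277, 309], [[3], [11], [6], [1], [5], [12]]), (true, [49, 51, 81, 275], [17, 19, 83, 277, 309],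
     [[3], [7], [9], [1], [5], [15]]), (true, [53, 69, 274, 275, 276, 308, 325], [21, 37, 85, 277, 291, 292, 293,
     309], [[4], [1], [3], [5], [2], [11]]), (true, [259, 260, 274, 275, 276, 308, 325], [257, 258, 261, 277, 291,
     292, 293, 309], [[4], [1], [3], [5], [2], [0]])], (Tr.bt 5 (Tr.lf 3) (Tr.bt 53 (Tr.lf 2) (Tr.bt 69 (Tr.lf 1)
     (Tr.bt 83 (Tr.lf 5) (Tr.bt 85 (Tr.lf 6) (Tr.bt 261 (Tr.lf 7) (Tr.bt 80 (Tr.lf 4) (Tr.lf 0))))))))),
    ([(false, [48, 49, 51, 53, 80, 81, 83, 85, 261], [257, 277, 309], [[12], [13], [17], [3], [5], [9], [11]]),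
     (true, [0, 48, 53, 85, 261, 275], [16, 21, 80, 277, 309], [[3], [11], [6], [1], [5], [12]]), (true, [5, 48, 49,
     51, 259, 275], [16, 17, 19, 21, 53, 257], [[3], [6], [9], [1], [17], [7]]), (true, [0, 1, 261], [5, 16, 17, 21,
     257, 277], [[0], [12], [6], [7], [17], [13]]), (true, [0, 1, 3, 48, 53, 80, 275], [5, 16, 21, 85, 261, 277,
     309], [[9], [12], [0], [17], [11], [7]]), (true, [1, 4, 49, 52, 81, 259, 275], [17, 20, 84, 257, 261, 277,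
     309], [[3], [7], [0], [1], [5], [16]]), (false, [0, 1, 48, 49, 51, 53, 80, 81, 83, 85, 259], [257, 261, 309],
     [[6], [11], [9], [3], [5], [12], [13]]), (true, [0, 1, 48, 49, 80, 259, 275], [5, 16, 17, 21, 53, 257, 277],
     [[3], [12], [0], [1], [11], [7]]), (true, [0, 1, 48, 49, 81, 259, 275], [16, 17, 80, 257, 261, 277, 309], [[3],
     [7], [0], [1], [5], [6]]), (true, [0, 5, 48, 53, 80, 259, 275], [16, 21, 85, 257, 261, 277, 309], [[3], [6],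
     [0], [1], [5], [11]]), (true, [3, 5, 53, 67, 260, 276], [19, 21, 69, 85, 257, 309], [[0], [4], [9], [11], [1],
     [17]]), (true, [49, 51, 81, 275], [17, 19, 83, 277, 309], [[3], [7], [9], [1], [5], [15]]), (true, [48, 51, 53,
     83, 259, 261, 275], [16, 19, 21, 80, 85, 277, 309], [[3], [9], [6], [1], [5], [11]]), (true, [80, 81, 83, 259,
     261, 275], [16, 17, 19, 21, 85, 257, 277, 309], [[5], [12], [15], [7], [17], [13]])], (Tr.bt 83 (Tr.lf 11)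
     (Tr.bt 261 (Tr.bt 84 (Tr.lf 5) (Tr.bt 80 (Tr.lf 8) (Tr.bt 53 (Tr.bt 5 (Tr.lf 7) (Tr.lf 2)) (Tr.bt 85 (Tr.bt 5
     (Tr.lf 4) (Tr.lf 9)) (Tr.lf 6))))) (Tr.bt 5 (Tr.lf 3) (Tr.bt 53 (Tr.lf 2) (Tr.bt 85 (Tr.bt 69 (Tr.lf 10) (Tr.bt
     80 (Tr.lf 12) (Tr.lf 13))) (Tr.bt 80 (Tr.lf 1) (Tr.lf 0)))))))),
    ([(false, [64, 65, 68, 69, 80, 81, 84, 85, 260], [257, 276, 325], [[12], [13], [16], [4], [5], [10], [11]]),
     (true, [81, 82, 83, 274, 275, 308], [17, 18, 19, 20, 84, 276, 291, 292], [[5], [15], [13], [7], [16], [14]]),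
     (true, [0, 1, 2, 3, 309], [5, 18, 19, 21, 257, 291, 293], [[0], [15], [6], [7], [17], [14]]), (true, [64, 65,
     81, 84, 85], [16, 17, 80, 257, 276, 277, 325], [[5], [10], [13], [7], [12], [11]]), (true, [81, 82, 83, 274,
     275, 309], [17, 18, 19, 21, 85, 277, 291, 293], [[5], [15], [13], [7], [17], [14]]), (true, [81, 82, 274, 275],
     [17, 18, 19, 83, 85, 277, 291], [[13], [5], [14], [15], [7], [11]]), (true, [81, 82, 85, 309], [18, 19, 21, 83,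
     277, 291, 293], [[5], [17], [11], [7], [15], [14]]), (true, [65, 66, 67, 68, 309], [18, 19, 21, 69, 276, 291,
     293], [[4], [15], [10], [7], [17], [14]]), (true, [5, 48, 49, 51, 259, 275], [16, 17, 19, 21, 53, 257], [[3],
     [6], [9], [1], [17], [7]])], (Tr.bt 5 (Tr.lf 2) (Tr.bt 69 (Tr.lf 7) (Tr.bt 53 (Tr.lf 8) (Tr.bt 85 (Tr.bt 83
     (Tr.lf 5) (Tr.lf 4)) (Tr.bt 83 (Tr.lf 6) (Tr.bt 84 (Tr.lf 1) (Tr.bt 80 (Tr.lf 3) (Tr.lf 0))))))))),
    ([(false, [64, 65, 68, 69, 80, 81, 84, 85, 260], [257, 276, 325], [[12], [13], [16], [4], [5], [10], [11]]),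
     (true, [0, 1, 2, 3, 309], [5, 18, 19, 21, 257, 291, 293], [[0], [15], [6], [7], [17], [14]]), (true, [0, 1, 64,
     65, 81, 260, 292], [32, 33, 80, 257, 258, 261, 293, 325], [[4], [7], [0], [2], [5], [6]]), (true, [5, 64, 66,
     68, 260, 292], [32, 34, 36, 37, 69, 258], [[4], [6], [10], [2], [17], [8]]), (true, [0, 5, 64, 69, 80, 260,
     292], [32, 37, 85, 258, 261, 293, 325], [[4], [6], [0], [2], [5], [11]]), (true, [66, 68, 82, 292], [34, 36,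
     84, 293, 325], [[4], [8], [10], [2], [5], [16]]), (true, [80, 81, 82, 84, 260, 261, 292], [16, 18, 20, 21, 85,
     258, 293, 325], [[5], [12], [16], [7], [17], [14]]), (true, [64, 68, 69, 84, 260, 261, 292], [32, 36, 37, 80,
     85, 293, 325], [[4], [10], [6], [2], [5], [11]]), (true, [0, 64, 69, 85, 261, 292], [32, 37, 80, 293, 325],
     [[4], [11], [6], [2], [5], [12]])], (Tr.bt 5 (Tr.lf 1) (Tr.bt 69 (Tr.lf 3) (Tr.bt 84 (Tr.lf 5) (Tr.bt 80 (Tr.bt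
     261 (Tr.lf 2) (Tr.bt 85 (Tr.lf 7) (Tr.lf 8))) (Tr.bt 85 (Tr.bt 261 (Tr.lf 4) (Tr.lf 6)) (Tr.lf 0))))))),
    ([(false, [64, 65, 68, 69, 80, 81, 84, 85, 261], [257, 277, 325], [[12], [13], [17], [4], [5], [10], [11]]),
     (true, [48, 64, 274, 275, 276, 308, 309], [16, 32, 80, 277, 291, 292, 293, 325], [[3], [1], [4], [5], [2],
     [6]]), (true, [259, 260, 274, 275, 276, 308, 309], [257, 258, 261, 277, 291, 292, 293, 325], [[3], [1], [4],
     [5], [2], [0]]), (true, [0, 1, 261], [5, 16, 17, 21, 257, 277], [[0], [12], [6], [7], [17], [13]]), (true, [51,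
     67, 274, 275, 276, 308, 309], [19, 35, 83, 277, 291, 292, 293, 325], [[3], [1], [4], [5], [2], [9]]), (true,
     [53, 69, 274, 275, 276, 308, 309], [21, 37, 85, 277, 291, 292, 293, 325], [[3], [1], [4], [5], [2], [11]]),
     (true, [49, 53, 65, 274, 275, 276, 308], [17, 21, 33, 37, 69, 277, 291, 292], [[3], [1], [4], [11], [2], [7]]),
     (true, [5, 48, 49, 51, 259, 275], [16, 17, 19, 21, 53, 257], [[3], [6], [9], [1], [17], [7]]), (true, [52, 68,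
     274, 275, 276, 308, 309], [20, 36, 84, 277, 291, 292, 293, 325], [[3], [1], [4], [5], [2], [10]])], (Tr.bt 80
     (Tr.lf 1) (Tr.bt 261 (Tr.lf 2) (Tr.bt 5 (Tr.lf 3) (Tr.bt 83 (Tr.lf 4) (Tr.bt 84 (Tr.lf 8) (Tr.bt 53 (Tr.lf 7)
     (Tr.bt 69 (Tr.lf 6) (Tr.bt 85 (Tr.lf 5) (Tr.lf 0)))))))))),
    ([(false, [64, 65, 68, 69, 80, 81, 84, 85, 261], [257, 277, 325], [[12], [13], [17], [4], [5], [10], [11]]),
     (false, [0, 1, 5, 64, 65, 69, 80, 81, 85, 260], [257, 261, 325], [[0], [5], [4], [6], [11], [12], [13]]),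
     (true, [0, 1, 2, 3, 309], [5, 18, 19, 21, 257, 291, 293], [[0], [15], [6], [7], [17], [14]]), (true, [0, 1, 64,
     65, 81, 260, 276], [16, 17, 80, 257, 261, 277, 325], [[4], [7], [0], [1], [5], [6]]), (true, [5, 64, 65, 68,
     260, 276], [16, 17, 20, 21, 69, 257], [[4], [6], [10], [1], [17], [7]]), (true, [0, 5, 64, 69, 80, 260, 276],
     [16, 21, 85, 257, 261, 277, 325], [[4], [6], [0], [1], [5], [11]]), (true, [80, 81, 84, 260, 261, 276], [16,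
     17, 20, 21, 85, 257, 277, 325], [[5], [12], [16], [7], [17], [13]]), (true, [65, 68, 81, 276], [17, 20, 84,
     277, 325], [[4], [7], [10], [1], [5], [16]]), (true, [64, 68, 69, 84, 260, 261, 276], [16, 20, 21, 80, 85, 277,
     325], [[4], [10], [6], [1], [5], [11]]), (true, [0, 64, 69, 85, 261, 276], [16, 21, 80, 277, 325], [[4], [11],
     [6], [1], [5], [12]])], (Tr.bt 5 (Tr.lf 2) (Tr.bt 69 (Tr.lf 4) (Tr.bt 84 (Tr.lf 7) (Tr.bt 80 (Tr.bt 261 (Tr.lf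
     3) (Tr.bt 85 (Tr.lf 8) (Tr.lf 9))) (Tr.bt 85 (Tr.bt 261 (Tr.lf 5) (Tr.lf 6)) (Tr.bt 261 (Tr.lf 1) (Tr.lf
     0)))))))),
    ([(false, [48, 49, 51, 52, 53, 80, 81, 83, 84, 85, 259, 260, 261, 275, 277, 308, 325], [257, 276, 309], [[6],
     [7], [10], [3], [5], [9], [11]]), (true, [65, 66, 67, 68, 293], [18, 19, 21, 69, 276, 291, 309], [[4], [14],
     [10], [7], [17], [15]]), (true, [5, 64, 69, 80, 277, 325], [16, 21, 85, 261, 276], [[4], [5], [6], [11], [1],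
     [17]]), (false, [0, 1, 5, 48, 49, 53, 80, 81, 85, 259], [257, 261, 309], [[0], [5], [3], [6], [11], [12],
     [13]]), (true, [5, 48, 49, 51, 259, 275], [16, 17, 19, 21, 53, 257], [[3], [6], [9], [1], [17], [7]]), (true,
     [64, 65, 69, 81, 277, 325], [16, 17, 21, 80, 85, 257, 261, 276], [[4], [5], [7], [6], [1], [11]]), (true, [81,
     82, 83, 259, 274, 275, 277], [16, 17, 18, 19, 80, 257, 258, 291], [[5], [9], [7], [1], [6], [8]]), (true, [0,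
     1, 2, 3, 293], [5, 18, 19, 21, 257, 291, 309], [[0], [14], [6], [7], [17], [15]]), (true, [1, 5, 81, 261, 277],
     [17, 21, 85, 257], [[0], [5], [7], [17], [1], [11]]), (true, [49, 81, 82, 85, 277, 293], [17, 18, 19, 21, 33,
     83, 291, 309], [[5], [13], [11], [1], [9], [8]]), (true, [4, 80, 81, 85, 261, 277], [16, 17, 20, 21, 84, 257],
     [[5], [6], [11], [1], [16], [7]])], (Tr.bt 69 (Tr.lf 1) (Tr.bt 5 (Tr.lf 7) (Tr.bt 53 (Tr.lf 4) (Tr.bt 85 (Tr.bt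
     261 (Tr.bt 80 (Tr.lf 5) (Tr.lf 2)) (Tr.lf 8)) (Tr.bt 83 (Tr.lf 9) (Tr.bt 80 (Tr.lf 6) (Tr.bt 261 (Tr.lf 3)
     (Tr.bt 84 (Tr.lf 10) (Tr.lf 0)))))))))),
    ([(false, [48, 49, 51, 52, 53, 80, 81, 83, 84, 85, 259, 260, 261, 275, 277, 308, 325], [257, 276, 309], [[6],
     [7], [10], [3], [5], [9], [11]]), (true, [5, 64, 66, 68, 260, 292], [32, 34, 36, 37, 69, 258], [[4], [6], [10],
     [2], [17], [8]]), (true, [0, 1, 2, 3, 293], [5, 18, 19, 21, 257, 291, 309], [[0], [14], [6], [7], [17], [15]]),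
     (true, [5, 64, 69, 80, 277, 325], [16, 21, 85, 261, 276], [[4], [5], [6], [11], [1], [17]]), (true, [5, 48, 49,
     51, 259, 275], [16, 17, 19, 21, 53, 257], [[3], [6], [9], [1], [17], [7]]), (true, [64, 65, 69, 81, 277, 325],
     [16, 17, 21, 80, 85, 257, 261, 276], [[4], [5], [7], [6], [1], [11]]), (false, [0, 1, 5, 48, 49, 53, 80, 81,
     85, 259], [257, 261, 309], [[0], [5], [3], [6], [11], [12], [13]]), (true, [81, 82, 83, 259, 274, 275, 277],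
     [16, 17, 18, 19, 80, 257, 258, 291], [[5], [9], [7], [1], [6], [8]]), (true, [49, 81, 82, 85, 277, 293], [17,
     18, 19, 21, 33, 83, 291, 309], [[5], [13], [11], [1], [9], [8]]), (true, [1, 5, 81, 261, 277], [17, 21, 85,
     257], [[0], [5], [7], [17], [1], [11]]), (true, [4, 80, 81, 85, 261, 277], [16, 17, 20, 21, 84, 257], [[5],
     [6], [11], [1], [16], [7]])], (Tr.bt 5 (Tr.lf 2) (Tr.bt 69 (Tr.lf 1) (Tr.bt 53 (Tr.lf 4) (Tr.bt 85 (Tr.bt 261
     (Tr.bt 80 (Tr.lf 5) (Tr.lf 3)) (Tr.lf 9)) (Tr.bt 83 (Tr.lf 8) (Tr.bt 80 (Tr.lf 7) (Tr.bt 261 (Tr.lf 6) (Tr.bt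
     84 (Tr.lf 10) (Tr.lf 0)))))))))),
    ([(false, [0, 48, 49, 51, 53, 80, 81, 83, 85, 259, 261, 275, 277], [16, 257, 309], [[6], [7], [12], [3], [5],
     [9], [11]]), (true, [51, 53, 67, 274, 275, 276, 308], [19, 21, 35, 37, 69, 291, 292, 309], [[3], [1], [4],
     [11], [2], [9]]), (true, [5, 48, 49, 51, 259, 275], [16, 17, 19, 21, 53, 257], [[3], [6], [9], [1], [17],
     [7]]), (true, [0, 1, 2, 3, 293], [5, 18, 19, 21, 257, 291, 309], [[0], [14], [6], [7], [17], [15]]), (true, [5,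
     64, 69, 80, 293, 325], [32, 37, 85, 261, 292], [[4], [5], [6], [11], [2], [17]]), (true, [64, 65, 69, 81, 277,
     293, 325], [32, 33, 37, 80, 85, 257, 261, 292], [[4], [5], [7], [6], [2], [11]]), (false, [0, 1, 5, 48, 49, 53,
     80, 81, 85, 259], [257, 261, 309], [[0], [5], [3], [6], [11], [12], [13]]), (true, [81, 82, 83, 259, 274, 275,
     277], [16, 17, 18, 19, 80, 257, 258, 291], [[5], [9], [7], [1], [6], [8]]), (true, [49, 81, 82, 85, 277, 293],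
     [17, 18, 19, 21, 33, 83, 291, 309], [[5], [13], [11], [1], [9], [8]]), (true, [1, 5, 81, 261, 277], [17, 21,
     85, 257], [[0], [5], [7], [17], [1], [11]])], (Tr.bt 5 (Tr.lf 3) (Tr.bt 53 (Tr.lf 2) (Tr.bt 69 (Tr.lf 1) (Tr.bt
     85 (Tr.bt 261 (Tr.bt 80 (Tr.lf 5) (Tr.lf 4)) (Tr.lf 9)) (Tr.bt 83 (Tr.lf 8) (Tr.bt 80 (Tr.lf 7) (Tr.bt 261
     (Tr.lf 6) (Tr.lf 0))))))))),
    ([(false, [0, 48, 49, 51, 53, 80, 81, 83, 85, 259, 261, 275, 277], [16, 257, 309], [[6], [7], [12], [3], [5],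
     [9], [11]]), (true, [5, 64, 65, 68, 260, 276], [16, 17, 20, 21, 69, 257], [[4], [6], [10], [1], [17], [7]]),
     (true, [0, 1, 2, 3, 293], [5, 18, 19, 21, 257, 291, 309], [[0], [14], [6], [7], [17], [15]]), (true, [80, 81,
     83, 259, 275, 277], [16, 17, 19, 21, 85, 257, 261, 309], [[5], [7], [9], [1], [11], [6]]), (true, [5, 48, 49,
     51, 259, 275], [16, 17, 19, 21, 53, 257], [[3], [6], [9], [1], [17], [7]]), (true, [81, 82, 274, 275, 277,
     293], [17, 18, 19, 21, 83, 85, 291, 309], [[7], [5], [8], [9], [1], [11]]), (false, [0, 1, 5, 48, 49, 53, 80,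
     81, 85, 259], [257, 261, 309], [[0], [5], [3], [6], [11], [12], [13]]), (true, [1, 5, 81, 261, 277], [17, 21,
     85, 257], [[0], [5], [7], [17], [1], [11]]), (true, [81, 82, 83, 259, 274, 275, 277], [16, 17, 18, 19, 80, 257,
     258, 291], [[5], [9], [7], [1], [6], [8]]), (true, [49, 81, 82, 85, 277, 293], [17, 18, 19, 21, 33, 83, 291,
     309], [[5], [13], [11], [1], [9], [8]]), (true, [52, 81, 82, 83, 274, 275, 277], [17, 18, 19, 20, 36, 84, 291],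
     [[5], [9], [7], [1], [16], [8]])], (Tr.bt 5 (Tr.lf 2) (Tr.bt 69 (Tr.lf 1) (Tr.bt 53 (Tr.lf 4) (Tr.bt 83 (Tr.bt
     85 (Tr.lf 5) (Tr.lf 9)) (Tr.bt 84 (Tr.lf 10) (Tr.bt 80 (Tr.lf 8) (Tr.bt 85 (Tr.bt 261 (Tr.lf 3) (Tr.lf 7))
     (Tr.bt 261 (Tr.lf 6) (Tr.lf 0)))))))))),
    ([(false, [64, 65, 68, 69, 80, 81, 84, 85, 260], [257, 276, 325], [[12], [13], [16], [4], [5], [10], [11]]),
     (true, [65, 68, 277], [17, 20, 21, 69, 276, 325], [[4], [13], [10], [7], [17], [16]]), (true, [5, 48, 53, 80,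
     293, 309], [32, 37, 85, 261, 291], [[3], [5], [6], [11], [2], [17]]), (true, [0, 1, 4, 277], [5, 17, 20, 21,
     257, 276, 325], [[0], [13], [6], [7], [17], [16]]), (true, [5, 48, 49, 51, 259, 275], [16, 17, 19, 21, 53,
     257], [[3], [6], [9], [1], [17], [7]]), (true, [48, 49, 53, 81, 277, 293, 309], [32, 33, 37, 80, 85, 257, 261,
     291], [[3], [5], [7], [6], [2], [11]]), (true, [64, 65, 81, 84, 85, 277], [16, 17, 20, 21, 80, 257, 325], [[5],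
     [10], [13], [1], [12], [11]]), (true, [65, 81, 85, 277], [17, 20, 21, 84, 276, 325], [[5], [13], [11], [1],
     [10], [7]]), (true, [1, 5, 81, 261, 277], [17, 21, 85, 257], [[0], [5], [7], [17], [1], [11]])], (Tr.bt 69
     (Tr.lf 1) (Tr.bt 5 (Tr.lf 3) (Tr.bt 53 (Tr.lf 4) (Tr.bt 85 (Tr.bt 261 (Tr.bt 80 (Tr.lf 5) (Tr.lf 2)) (Tr.lf 8))
     (Tr.bt 84 (Tr.lf 7) (Tr.bt 80 (Tr.lf 6) (Tr.lf 0)))))))),
    ([(false, [64, 66, 67, 68, 69, 80, 82, 83, 84, 85, 259, 260, 261, 292, 293, 308, 309], [258, 291, 325], [[6],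
     [8], [9], [4], [5], [10], [11]]), (true, [5, 64, 66, 68, 260, 292], [32, 34, 36, 37, 69, 258], [[4], [6], [10],
     [2], [17], [8]]), (true, [0, 1, 4, 277], [5, 17, 20, 21, 257, 276, 325], [[0], [13], [6], [7], [17], [16]]),
     (true, [5, 48, 53, 80, 293, 309], [32, 37, 85, 261, 291], [[3], [5], [6], [11], [2], [17]]), (true, [5, 48, 49,
     51, 259, 275], [16, 17, 19, 21, 53, 257], [[3], [6], [9], [1], [17], [7]]), (true, [80, 81, 85, 260, 261, 277],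
     [16, 17, 20, 21, 84, 257, 276, 325], [[5], [6], [11], [1], [10], [7]]), (true, [1, 4, 5, 81, 261, 277], [17,
     20, 21, 84, 85, 257, 276, 325], [[0], [5], [7], [10], [1], [11]]), (true, [48, 49, 53, 81, 277, 293, 309], [32,
     33, 37, 80, 85, 257, 261, 291], [[3], [5], [7], [6], [2], [11]]), (false, [0, 1, 5, 64, 65, 69, 80, 81, 85,
     260], [257, 261, 325], [[0], [5], [4], [6], [11], [12], [13]]), (true, [81, 82, 83, 259, 274, 275, 277], [16,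
     17, 18, 19, 80, 257, 258, 291], [[5], [9], [7], [1], [6], [8]]), (true, [81, 82, 84, 260, 274, 277, 292], [16,
     17, 18, 20, 80, 257, 258, 276], [[5], [10], [8], [1], [6], [7]]), (true, [65, 81, 85, 277], [17, 20, 21, 84,
     276, 325], [[5], [13], [11], [1], [10], [7]]), (true, [3, 80, 81, 85, 261, 277], [16, 17, 19, 21, 83, 257],
     [[5], [6], [11], [1], [15], [7]]), (true, [1, 5, 81, 261, 277], [17, 21, 85, 257], [[0], [5], [7], [17], [1],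
     [11]])], (Tr.bt 5 (Tr.lf 2) (Tr.bt 53 (Tr.lf 4) (Tr.bt 69 (Tr.lf 1) (Tr.bt 80 (Tr.bt 83 (Tr.bt 84 (Tr.bt 85
     (Tr.bt 261 (Tr.lf 7) (Tr.lf 6)) (Tr.lf 11)) (Tr.lf 10)) (Tr.lf 9)) (Tr.bt 85 (Tr.bt 261 (Tr.lf 3) (Tr.lf 13))
     (Tr.bt 261 (Tr.lf 8) (Tr.bt 84 (Tr.lf 5) (Tr.bt 83 (Tr.lf 12) (Tr.lf 0)))))))))),
    ([(false, [0, 64, 65, 68, 69, 80, 81, 84, 85, 260, 261, 276, 277], [16, 257, 325], [[6], [7], [12], [4], [5],
     [10], [11]]), (true, [52, 53, 68, 274, 275, 276, 308], [20, 21, 36, 37, 69, 291, 292, 325], [[3], [1], [4],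
     [11], [2], [10]]), (true, [5, 48, 49, 51, 259, 275], [16, 17, 19, 21, 53, 257], [[3], [6], [9], [1], [17],
     [7]]), (true, [0, 1, 2, 4, 293], [5, 18, 20, 21, 257, 292, 325], [[0], [14], [6], [7], [17], [16]]), (true, [5,
     48, 53, 80, 293, 309], [32, 37, 85, 261, 291], [[3], [5], [6], [11], [2], [17]]), (true, [48, 49, 53, 81, 277,
     293, 309], [32, 33, 37, 80, 85, 257, 261, 291], [[3], [5], [7], [6], [2], [11]]), (false, [0, 1, 5, 64, 65, 69,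
     80, 81, 85, 260], [257, 261, 325], [[0], [5], [4], [6], [11], [12], [13]]), (true, [81, 82, 84, 260, 274, 276,
     277], [16, 17, 18, 20, 80, 257, 258, 292], [[5], [10], [7], [1], [6], [8]]), (true, [65, 81, 82, 85, 277, 293],
     [17, 18, 20, 21, 33, 84, 292, 325], [[5], [13], [11], [1], [10], [8]]), (true, [1, 5, 81, 261, 277], [17, 21,
     85, 257], [[0], [5], [7], [17], [1], [11]])], (Tr.bt 5 (Tr.lf 3) (Tr.bt 53 (Tr.lf 2) (Tr.bt 69 (Tr.lf 1) (Tr.bt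
     85 (Tr.bt 261 (Tr.bt 80 (Tr.lf 5) (Tr.lf 4)) (Tr.lf 9)) (Tr.bt 84 (Tr.lf 8) (Tr.bt 80 (Tr.lf 7) (Tr.bt 261
     (Tr.lf 6) (Tr.lf 0))))))))),
    ([(true, [0, 1, 277], [5, 16, 17, 21, 257, 261], [[0], [13], [6], [7], [17], [12]]), (false, [0, 64, 65, 68, 69,
     80, 81, 84, 85, 260, 261, 276, 277], [16, 257, 325], [[6], [7], [12], [4], [5], [10], [11]]), (true, [5, 64,
     65, 68, 260, 276], [16, 17, 20, 21, 69, 257], [[4], [6], [10], [1], [17], [7]]), (true, [0, 1, 81, 85, 261,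
     277], [5, 16, 17, 21, 80, 257], [[5], [0], [7], [1], [12], [11]]), (true, [0, 48, 53, 259, 261, 293, 309], [5,
     32, 37, 80, 85, 258, 291], [[3], [5], [0], [11], [2], [12]]), (true, [0, 1, 48, 49, 259, 261, 275], [5, 16, 17,
     21, 53, 257], [[3], [12], [0], [1], [17], [7]]), (true, [1, 4, 81, 85, 261, 277], [5, 17, 20, 21, 84, 257],
     [[5], [0], [7], [1], [16], [11]]), (true, [2, 3, 53, 66, 67, 260, 276], [5, 18, 19, 21, 37, 69, 257, 291],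
     [[4], [9], [0], [1], [17], [8]]), (true, [48, 53, 80, 261, 293, 309], [5, 32, 37, 85, 291], [[3], [5], [6],
     [17], [2], [11]]), (true, [81, 82, 83, 259, 274, 275, 277], [16, 17, 18, 19, 80, 257, 258, 291], [[5], [9],
     [7], [1], [6], [8]]), (true, [1, 5, 81, 261, 277], [17, 21, 85, 257], [[0], [5], [7], [17], [1], [11]]), (true,
     [5, 48, 49, 51, 259, 275], [16, 17, 19, 21, 53, 257], [[3], [6], [9], [1], [17], [7]]), (true, [48, 49, 53, 81,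
     277, 293, 309], [32, 33, 37, 80, 85, 257, 261, 291], [[3], [5], [7], [6], [2], [11]]), (true, [81, 85, 275,
     277], [17, 19, 21, 83], [[5], [13], [11], [1], [15], [7]]), (false, [0, 1, 5, 64, 65, 69, 80, 81, 85, 260],
     [257, 261, 325], [[0], [5], [4], [6], [11], [12], [13]]), (true, [5, 48, 53, 80, 293, 309], [32, 37, 85, 261,
     291], [[3], [5], [6], [11], [2], [17]]), (true, [4, 80, 81, 85, 261, 277], [16, 17, 20, 21, 84, 257], [[5],
     [6], [11], [1], [16], [7]])], (Tr.bt 5 (Tr.bt 261 (Tr.lf 0) (Tr.bt 53 (Tr.lf 5) (Tr.bt 69 (Tr.lf 7) (Tr.bt 85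
     (Tr.bt 80 (Tr.lf 4) (Tr.lf 8)) (Tr.bt 80 (Tr.lf 3) (Tr.bt 84 (Tr.lf 6) (Tr.lf 1))))))) (Tr.bt 69 (Tr.lf 2)
     (Tr.bt 53 (Tr.lf 11) (Tr.bt 85 (Tr.bt 261 (Tr.bt 80 (Tr.lf 12) (Tr.lf 15)) (Tr.lf 10)) (Tr.bt 83 (Tr.lf 13)
     (Tr.bt 80 (Tr.lf 9) (Tr.bt 261 (Tr.lf 14) (Tr.bt 84 (Tr.lf 16) (Tr.lf 1)))))))))),
    ([(true, [0, 1, 4, 21, 260, 325], [16, 17, 20, 257, 261, 276, 277], [[0], [17, 7], [16], [13], [1], [12]]),
     (true, [0, 1, 2, 3, 21, 259, 261], [16, 18, 19, 257, 258, 291, 293, 309], [[0], [17, 7], [12], [14], [1],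
     [15]])], (Tr.bt 261 (Tr.lf 0) (Tr.lf 1))),
    ([(true, [0, 1, 81], [5, 16, 17, 80, 257, 261, 277], [[0], [13], [6], [7], [11], [12]]), (true, [0, 2, 3, 5, 21,
     259, 261], [16, 18, 19, 257, 258, 291, 293, 309], [[0], [11], [6], [8], [1], [9]]), (true, [0, 1, 4, 5, 21,
     260, 325], [16, 17, 20, 257, 261, 276, 277], [[0], [11], [10], [7], [1], [6]]), (true, [37, 48, 50, 51, 53,
     259, 261], [32, 34, 35, 258, 291, 293, 309], [[3], [11], [6], [8], [2], [9]]), (true, [37, 48, 49, 52, 53, 260,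
     325], [32, 33, 36, 257, 261, 276, 277, 291], [[3], [11], [10], [7], [2], [6]]), (true, [21, 64, 66, 67, 69,
     259, 261], [16, 18, 19, 258, 276, 291, 293, 309], [[4], [11], [6], [8], [1], [9]]), (true, [0, 1, 4, 81], [5,
     17, 20, 84, 257, 261, 276, 277], [[0], [13], [6], [7], [11], [16]]), (true, [21, 64, 65, 68, 69, 260, 325],
     [16, 17, 20, 257, 261, 276, 277], [[4], [11], [10], [7], [1], [6]]), (true, [21, 80, 81, 84, 85, 260, 325],
     [16, 17, 20, 257, 261, 276, 277], [[5], [11], [10], [7], [1], [6]]), (true, [0, 2, 4, 37, 260, 292, 325], [5,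
     69, 85, 258, 261, 293], [[10], [8], [0], [11], [17], [6]]), (true, [1, 2, 3, 4, 49, 52, 81], [5, 33, 36, 84,
     276, 291, 293, 309], [[0], [13], [9], [8], [11], [16]]), (true, [21, 80, 82, 83, 85, 259, 261], [16, 18, 19,
     258, 277, 291, 293, 309], [[5], [11], [6], [8], [1], [9]]), (true, [2, 3, 4, 37, 292, 308, 325], [5, 53, 69,
     85, 291, 293, 309], [[10], [8], [0], [11], [17], [9]]), (true, [0, 1, 2, 3, 48, 49, 81], [5, 32, 33, 80, 257,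
     291, 293, 309], [[0], [13], [9], [8], [11], [12]]), (true, [2, 3, 50, 51, 82], [5, 34, 35, 83, 291, 293, 309],
     [[0], [14], [9], [8], [11], [15]])], (Tr.bt 261 (Tr.bt 5 (Tr.bt 53 (Tr.bt 80 (Tr.lf 0) (Tr.bt 84 (Tr.lf 6)
     (Tr.bt 69 (Tr.bt 85 (Tr.lf 9) (Tr.lf 8)) (Tr.lf 7)))) (Tr.lf 4)) (Tr.lf 2)) (Tr.bt 5 (Tr.bt 53 (Tr.bt 69 (Tr.bt
     85 (Tr.lf 12) (Tr.bt 84 (Tr.lf 10) (Tr.bt 80 (Tr.lf 13) (Tr.bt 83 (Tr.lf 14) (Tr.lf 11))))) (Tr.lf 5)) (Tr.lf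
     3)) (Tr.lf 1)))),
    ([(true, [259, 260, 274, 275, 276, 308, 325], [257, 258, 261, 277, 291, 292, 293, 309], [[4], [1], [3], [5],
     [2], [0]]), (true, [0, 1, 2, 3, 21, 259, 261], [16, 18, 19, 257, 258, 291, 293, 309], [[0], [17, 7], [12],
     [14], [1], [15]])], (Tr.bt 261 (Tr.lf 0) (Tr.lf 1))),
    ([(true, [0, 1, 81], [5, 16, 17, 80, 257, 261, 277], [[0], [13], [6], [7], [11], [12]]), (true, [0, 2, 3, 5, 21,
     259, 261], [16, 18, 19, 257, 258, 291, 293, 309], [[0], [11], [6], [8], [1], [9]]), (true, [0, 21, 64, 80, 260,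
     276, 325], [16, 17, 20, 257, 261, 277], [[10], [11], [12], [7], [1], [6]]), (true, [21, 259, 260, 261, 292,
     308, 325], [16, 18, 19, 20, 258, 291, 293, 309], [[10], [11], [6], [8], [1], [9]]), (true, [0, 1, 5, 21, 81],
     [16, 17, 257, 261, 277], [[0], [11], [13], [7], [1], [6]])], (Tr.bt 5 (Tr.bt 261 (Tr.bt 80 (Tr.lf 0) (Tr.lf 2))
     (Tr.lf 3)) (Tr.bt 261 (Tr.lf 4) (Tr.lf 1)))),
    ([(true, [0, 1, 81], [5, 16, 17, 80, 257, 261, 277], [[0], [13], [6], [7], [11], [12]]), (true, [0, 1, 4, 5, 21,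
     260, 261], [16, 17, 20, 257, 276, 277, 325], [[0], [11], [6], [7], [1], [10]]), (true, [0, 2, 3, 5, 21, 259,
     309], [16, 18, 19, 257, 258, 261, 291, 293], [[0], [11], [9], [8], [1], [6]]), (true, [37, 48, 49, 52, 53, 260,
     261], [32, 33, 36, 257, 276, 277, 291, 325], [[3], [11], [6], [7], [2], [10]]), (true, [21, 64, 65, 68, 69,
     260, 261], [16, 17, 20, 257, 276, 277, 325], [[4], [11], [6], [7], [1], [10]]), (true, [0, 1, 4, 81], [5, 17,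
     20, 84, 257, 261, 276, 277], [[0], [13], [6], [7], [11], [16]]), (true, [37, 48, 50, 51, 53, 259, 309], [32,
     34, 35, 258, 261, 291, 293], [[3], [11], [9], [8], [2], [6]]), (true, [0, 1, 2, 3, 82], [5, 18, 19, 83, 257,
     261, 277, 291], [[0], [14], [6], [7], [11], [15]]), (true, [21, 80, 82, 83, 85, 259, 309], [16, 18, 19, 258,
     261, 277, 291, 293], [[5], [11], [9], [8], [1], [6]]), (true, [0, 1, 3, 21, 259, 275, 309], [5, 53, 85, 257,
     261, 277], [[9], [7], [0], [11], [17], [6]]), (true, [1, 4, 65, 68, 81], [5, 17, 20, 84, 276, 277, 325], [[0],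
     [13], [10], [7], [11], [16]]), (true, [21, 80, 81, 84, 85, 260, 261], [16, 17, 20, 257, 276, 277, 325], [[5],
     [11], [6], [7], [1], [10]]), (true, [0, 1, 4, 64, 65, 81], [5, 16, 17, 80, 257, 276, 277, 325], [[0], [13],
     [10], [7], [11], [12]]), (true, [1, 3, 4, 21, 275, 308, 309], [5, 53, 69, 85, 276, 277, 325], [[9], [7], [0],
     [11], [17], [10]])], (Tr.bt 261 (Tr.bt 5 (Tr.bt 80 (Tr.lf 0) (Tr.bt 53 (Tr.bt 83 (Tr.lf 7) (Tr.bt 84 (Tr.lf 5)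
     (Tr.bt 85 (Tr.lf 9) (Tr.lf 8)))) (Tr.lf 6))) (Tr.lf 2)) (Tr.bt 53 (Tr.bt 5 (Tr.bt 69 (Tr.bt 84 (Tr.lf 10)
     (Tr.bt 85 (Tr.lf 13) (Tr.bt 80 (Tr.lf 12) (Tr.lf 11)))) (Tr.lf 4)) (Tr.lf 1)) (Tr.lf 3)))),
    ([(true, [0, 1, 81], [5, 16, 17, 80, 257, 261, 277], [[0], [13], [6], [7], [11], [12]]), (true, [0, 1, 4, 5, 21,
     260, 261], [16, 17, 20, 257, 276, 277, 325], [[0], [11], [6], [7], [1], [10]]), (true, [0, 2, 3, 5, 21, 259,
     309], [16, 18, 19, 257, 258, 261, 291, 293], [[0], [11], [9], [8], [1], [6]]), (true, [37, 48, 49, 52, 53, 260,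
     261], [32, 33, 36, 257, 276, 277, 291, 325], [[3], [11], [6], [7], [2], [10]]), (true, [37, 48, 50, 51, 53,
     259, 309], [32, 34, 35, 258, 261, 291, 293], [[3], [11], [9], [8], [2], [6]]), (true, [21, 64, 65, 68, 69, 260,
     261], [16, 17, 20, 257, 276, 277, 325], [[4], [11], [6], [7], [1], [10]]), (true, [0, 1, 4, 81], [5, 17, 20,
     84, 257, 261, 276, 277], [[0], [13], [6], [7], [11], [16]]), (true, [0, 1, 2, 3, 82], [5, 18, 19, 83, 257, 261,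
     277, 291], [[0], [14], [6], [7], [11], [15]]), (true, [21, 80, 82, 83, 85, 259, 309], [16, 18, 19, 258, 261,
     277, 291, 293], [[5], [11], [9], [8], [1], [6]]), (true, [0, 1, 3, 21, 259, 275, 309], [5, 53, 85, 257, 261,
     277], [[9], [7], [0], [11], [17], [6]]), (true, [1, 4, 65, 68, 81], [5, 17, 20, 84, 276, 277, 325], [[0], [13],
     [10], [7], [11], [16]]), (true, [21, 80, 81, 84, 85, 260, 261], [16, 17, 20, 257, 276, 277, 325], [[5], [11],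
     [6], [7], [1], [10]]), (true, [0, 1, 4, 64, 65, 81], [5, 16, 17, 80, 257, 276, 277, 325], [[0], [13], [10],
     [7], [11], [12]]), (true, [1, 3, 4, 21, 275, 308, 309], [5, 53, 69, 85, 276, 277, 325], [[9], [7], [0], [11],
     [17], [10]])], (Tr.bt 261 (Tr.bt 5 (Tr.bt 80 (Tr.lf 0) (Tr.bt 53 (Tr.bt 83 (Tr.lf 7) (Tr.bt 84 (Tr.lf 6) (Tr.bt
     85 (Tr.lf 9) (Tr.lf 8)))) (Tr.lf 4))) (Tr.lf 2)) (Tr.bt 53 (Tr.bt 5 (Tr.bt 69 (Tr.bt 84 (Tr.lf 10) (Tr.bt 85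
     (Tr.lf 13) (Tr.bt 80 (Tr.lf 12) (Tr.lf 11)))) (Tr.lf 5)) (Tr.lf 1)) (Tr.lf 3)))),
    ([(true, [259, 260, 274, 275, 276, 308, 309], [257, 258, 261, 277, 291, 292, 293, 325], [[3], [1], [4], [5],
     [2], [0]]), (true, [0, 1, 2, 4, 21, 260, 261], [16, 18, 20, 257, 258, 292, 293, 325], [[0], [17, 7], [12],
     [14], [1], [16]])], (Tr.bt 261 (Tr.lf 0) (Tr.lf 1))),
    ([(true, [0, 1, 81], [5, 16, 17, 80, 257, 261, 277], [[0], [13], [6], [7], [11], [12]]), (true, [21, 37, 49, 53,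
     274, 275], [17, 18, 19, 33, 277, 291], [[17], [9], [7], [1], [13], [8]]), (true, [0, 1, 2, 3, 82], [5, 18, 19,
     83, 257, 261, 277, 291], [[0], [14], [6], [7], [11], [15]]), (true, [21, 80, 82, 83, 85, 259, 309], [16, 18,
     19, 258, 261, 277, 291, 293], [[5], [11], [9], [8], [1], [6]]), (true, [0, 1, 3, 21, 259, 275, 309], [5, 53,
     85, 257, 261, 277], [[9], [7], [0], [11], [17], [6]]), (true, [21, 37, 48, 259, 261, 274, 275], [5, 16, 17, 18,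
     19, 32, 257, 258, 291], [[17], [12, 9], [7], [1], [6], [8]]), (true, [1, 5, 21, 37, 259, 274, 275], [16, 17,
     18, 19, 33, 258, 277, 291], [[17], [9, 6], [7], [1], [13], [8]])], (Tr.bt 53 (Tr.bt 5 (Tr.bt 261 (Tr.bt 80
     (Tr.lf 0) (Tr.bt 83 (Tr.lf 2) (Tr.bt 85 (Tr.lf 4) (Tr.lf 3)))) (Tr.lf 5)) (Tr.lf 6)) (Tr.lf 1))),
    ([(true, [49, 81, 82, 259, 274, 275, 277], [16, 17, 18, 19, 33, 80, 257, 258, 291], [[5], [13, 9], [7], [1],
     [6], [8]]), (true, [21, 37, 51, 53, 274, 275], [17, 18, 19, 35, 291, 309], [[17], [9], [7], [1], [15], [8]]),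
     (true, [3, 5, 21, 37, 259, 274, 275], [16, 17, 18, 19, 35, 258, 291, 309], [[17], [9, 6], [7], [1], [15],
     [8]]), (true, [21, 37, 48, 259, 261, 274, 275], [5, 16, 17, 18, 19, 32, 257, 258, 291], [[17], [12, 9], [7],
     [1], [6], [8]]), (true, [21, 259, 274, 275, 277, 293, 308, 325], [16, 17, 18, 19, 20, 257, 258, 261, 291, 292],
     [[11], [10, 9], [7], [1], [6], [8]])], (Tr.bt 80 (Tr.lf 0) (Tr.bt 261 (Tr.lf 4) (Tr.bt 53 (Tr.bt 5 (Tr.lf 3)
     (Tr.lf 2)) (Tr.lf 1))))),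
    ([(true, [21, 260, 274, 277, 292, 293, 325], [16, 17, 18, 20, 257, 258, 261, 276], [[11], [10], [8], [1], [6],
     [7]]), (true, [21, 37, 51, 53, 274, 275], [17, 18, 19, 35, 291, 309], [[17], [9], [7], [1], [15], [8]]), (true,
     [21, 64, 274, 277, 292, 293, 325], [16, 17, 18, 20, 32, 80, 276], [[11], [10], [8], [1], [12], [7]]), (true,
     [21, 37, 67, 69, 274, 292], [17, 18, 19, 20, 35, 276, 309], [[17], [10], [8], [1], [15], [7]]), (true, [21, 67,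
     274, 277, 292, 293, 325], [17, 18, 19, 20, 35, 83, 276], [[11], [10], [8], [1], [15], [7]]), (false, [49, 50,
     51, 52, 65, 66, 67, 68, 81, 82, 83, 84, 274, 275, 292, 308], [53, 69, 276, 291], [[3], [11], [4], [13], [16],
     [14], [15]]), (true, [52, 81, 82, 83, 274, 275, 277], [17, 18, 19, 20, 36, 84, 291], [[5], [9], [7], [1], [16],
     [8]])], (Tr.bt 261 (Tr.lf 0) (Tr.bt 53 (Tr.bt 80 (Tr.lf 2) (Tr.bt 69 (Tr.bt 83 (Tr.lf 4) (Tr.bt 84 (Tr.lf 6)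
     (Tr.lf 5))) (Tr.lf 3))) (Tr.lf 1)))),
    ([(true, [21, 260, 274, 276, 277, 293, 325], [16, 17, 18, 20, 257, 258, 261, 292], [[11], [10], [7], [1], [6],
     [8]]), (true, [21, 37, 51, 53, 274, 275], [17, 18, 19, 35, 291, 309], [[17], [9], [7], [1], [15], [8]]), (true,
     [21, 64, 274, 276, 277, 293, 325], [16, 17, 18, 20, 32, 80, 292], [[11], [10], [7], [1], [12], [8]]), (true,
     [3, 5, 21, 37, 259, 274, 275], [16, 17, 18, 19, 35, 258, 291, 309], [[17], [9, 6], [7], [1], [15], [8]]),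
     (true, [21, 37, 48, 259, 261, 274, 275], [5, 16, 17, 18, 19, 32, 257, 258, 291], [[17], [12, 9], [7], [1], [6],
     [8]])], (Tr.bt 261 (Tr.lf 0) (Tr.bt 53 (Tr.bt 80 (Tr.lf 2) (Tr.bt 5 (Tr.lf 4) (Tr.lf 3))) (Tr.lf 1)))),
    ([(true, [49, 81, 82, 259, 274, 275, 277], [16, 17, 18, 19, 33, 80, 257, 258, 291], [[5], [13, 9], [7], [1],
     [6], [8]]), (true, [21, 37, 51, 53, 274, 275], [17, 18, 19, 35, 291, 309], [[17], [9], [7], [1], [15], [8]]),
     (true, [3, 5, 21, 37, 259, 274, 275], [16, 17, 18, 19, 35, 258, 291, 309], [[17], [9, 6], [7], [1], [15],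
     [8]]), (true, [21, 37, 48, 259, 261, 274, 275], [5, 16, 17, 18, 19, 32, 257, 258, 291], [[17], [12, 9], [7],
     [1], [6], [8]]), (true, [21, 48, 80, 259, 274, 275, 277, 293], [16, 17, 18, 19, 32, 257, 258, 261, 291], [[11],
     [12, 9], [7], [1], [6], [8]])], (Tr.bt 80 (Tr.lf 0) (Tr.bt 53 (Tr.bt 5 (Tr.bt 261 (Tr.lf 4) (Tr.lf 3)) (Tr.lf
     2)) (Tr.lf 1)))),
    ([(true, [21, 274, 275, 277, 293, 308, 309], [17, 18, 19, 20, 276, 291, 292, 325], [[11], [9], [7], [1], [10],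
     [8]])], (Tr.lf 0)),
    ([(true, [21, 259, 274, 275, 277, 293, 309], [16, 17, 18, 19, 257, 258, 261, 291], [[11], [9], [7], [1], [6],
     [8]]), (true, [21, 37, 52, 53, 274, 275], [17, 18, 19, 20, 36, 291, 325], [[17], [9], [7], [1], [16], [8]]),
     (true, [21, 48, 274, 275, 277, 293, 309], [16, 17, 18, 19, 32, 80, 291], [[11], [9], [7], [1], [12], [8]]),
     (true, [21, 37, 68, 69, 274, 292], [17, 18, 20, 36, 276, 325], [[17], [10], [8], [1], [16], [7]]), (true, [21,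
     51, 274, 275, 277, 293, 309], [17, 18, 19, 35, 83, 291], [[11], [9], [7], [1], [15], [8]]), (false, [49, 50,
     51, 52, 65, 66, 67, 68, 81, 82, 83, 84, 274, 275, 292, 308], [53, 69, 276, 291], [[3], [11], [4], [13], [16],
     [14], [15]]), (true, [52, 81, 82, 83, 274, 275, 277], [17, 18, 19, 20, 36, 84, 291], [[5], [9], [7], [1], [16],
     [8]])], (Tr.bt 261 (Tr.lf 0) (Tr.bt 53 (Tr.bt 80 (Tr.lf 2) (Tr.bt 69 (Tr.bt 83 (Tr.lf 4) (Tr.bt 84 (Tr.lf 6)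
     (Tr.lf 5))) (Tr.lf 3))) (Tr.lf 1)))),
    ([(true, [21, 259, 274, 275, 277, 293, 309], [16, 17, 18, 19, 257, 258, 261, 291], [[11], [9], [7], [1], [6],
     [8]]), (true, [21, 37, 52, 53, 274, 275], [17, 18, 19, 20, 36, 291, 325], [[17], [9], [7], [1], [16], [8]]),
     (true, [21, 48, 274, 275, 277, 293, 309], [16, 17, 18, 19, 32, 80, 291], [[11], [9], [7], [1], [12], [8]]),
     (true, [4, 5, 21, 37, 259, 274, 275], [16, 17, 18, 19, 20, 36, 258, 291, 325], [[17], [9, 6], [7], [1], [16],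
     [8]]), (true, [21, 37, 48, 259, 261, 274, 275], [5, 16, 17, 18, 19, 32, 257, 258, 291], [[17], [12, 9], [7],
     [1], [6], [8]])], (Tr.bt 261 (Tr.lf 0) (Tr.bt 53 (Tr.bt 80 (Tr.lf 2) (Tr.bt 5 (Tr.lf 4) (Tr.lf 3))) (Tr.lf
     1)))),
    ([(true, [21, 259, 274, 275, 277, 293, 309], [16, 17, 18, 19, 257, 258, 261, 291], [[11], [9], [7], [1], [6],
     [8]]), (true, [21, 37, 52, 53, 274, 275], [17, 18, 19, 20, 36, 291, 325], [[17], [9], [7], [1], [16], [8]]),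
     (true, [21, 48, 274, 275, 277, 293, 309], [16, 17, 18, 19, 32, 80, 291], [[11], [9], [7], [1], [12], [8]]),
     (true, [4, 5, 21, 37, 259, 274, 275], [16, 17, 18, 19, 20, 36, 258, 291, 325], [[17], [9, 6], [7], [1], [16],
     [8]]), (true, [21, 37, 48, 259, 261, 274, 275], [5, 16, 17, 18, 19, 32, 257, 258, 291], [[17], [12, 9], [7],
     [1], [6], [8]])], (Tr.bt 261 (Tr.lf 0) (Tr.bt 53 (Tr.bt 80 (Tr.lf 2) (Tr.bt 5 (Tr.lf 4) (Tr.lf 3))) (Tr.lf
     1))))]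

theorem t5k : ∀ al be e zw a b : Bool, (al || be) = true →
    ckHX 6 0 (pos ([(256 + 16 * 1 + 2, true), (256 + 16 * 1 + 3, true), (256 + 16 * 2 + 3, false)] ++ knK 2 ++
      mrK 2 3 false ++ mrK 2 4 false ++ wuK 3 4 ++ zkK 2 5 al be e ++
      [(256 + 16 * 3 + 5, zw), (256 + 16 * 4 + 5, !zw), (256 + 16 * 1 + 4, a), (256 + 16 * 2 + 4, b)])) (neg ([(256 + 16 * 1 + 2, true), (256 + 16 * 1 + 3, true), (256 + 16 * 2 + 3, false)] ++ knK 2 ++
      mrK 2 3 false ++ mrK 2 4 false ++ wuK 3 4 ++ zkK 2 5 al be e ++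
      [(256 + 16 * 3 + 5, zw), (256 + 16 * 4 + 5, !zw), (256 + 16 * 1 + 4, a), (256 + 16 * 2 + 4, b)]))
      (sel t5l [al, be, e, zw, a, b]).1 (sel t5l [al, be, e, zw, a, b]).2 = true := by
  decide +kernel

/-- **T5**: two half mixers with different bits on an outer rail `z = 5` which is not anticomplete to the letters off
the diagonal; only `w` has to be mixed on the edge `x - y` -/
theorem tab5 {G : SimpleGraph V} (hH : FH G) (hJ : FJ 2 G) {x : ℕ → ℕ → V} {F : ℕ → Bool}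
    (hx : FT.HR G 6 16 x F) (hk : Kn 2 F) (xy : F (256 + 16 * 1 + 2) = true) (xw : F (256 + 16 * 1 + 3) = true)
    (yw : F (256 + 16 * 2 + 3) = false)
    (hw : Mr 2 3 false F) (hu : Mr 2 4 false F) (hwu : WU 3 4 F) {al be e : Bool} (hz : ZK 2 5 al be e F)
    (he : al = true ∨ be = true) (hd : F (256 + 16 * 3 + 5) = !F (256 + 16 * 4 + 5)) : False := by
  refine refuteK hH hJ (HRZ.of hx) _ (mem_app (mem_app (mem_app (mem_app (mem_app (mem_app (mem_cs xy (mem_cs xw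
    (mem_cs yw mem_nl))) hk.mem) hw.mem) hu.mem) hwu.mem) hz.mem) (mem_cs rfl (mem_cs
      (?_ : F (256 + 16 * 4 + 5) = !F (256 + 16 * 3 + 5)) (mem_cs rfl (mem_cs rfl mem_nl)))))
    _ (t5k al be e _ _ _ ?_)
  · rw [hd, Bool.not_not]
  · rcases he with rfl | rfl
    · rfl
    · simp

/-! ### T5, the third alternative -/

def t5xl : List (List CertX × Tr) := [
    ([(true, [49, 50, 51, 83, 274, 275], [17, 18, 19, 81, 82, 277, 291, 309], [[3], [9], [7], [1], [5], [8]]),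
     (true, [48, 49, 51, 80, 259, 275], [16, 17, 19, 81, 83, 257, 277, 309], [[3], [6], [9], [1], [5], [7]])],
     (Tr.bt 83 (Tr.lf 1) (Tr.lf 0))),
    ([(true, [49, 50, 51, 83, 274, 275], [17, 18, 19, 81, 82, 277, 291, 309], [[3], [9], [7], [1], [5], [8]]),
     (true, [48, 49, 51, 80, 259, 275], [16, 17, 19, 81, 83, 257, 277, 309], [[3], [6], [9], [1], [5], [7]])],
     (Tr.bt 83 (Tr.lf 1) (Tr.lf 0))),
    ([(true, [49, 50, 51, 83, 274, 275], [17, 18, 19, 81, 82, 277, 291, 309], [[3], [9], [7], [1], [5], [8]]),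
     (true, [48, 49, 51, 80, 259, 275], [16, 17, 19, 81, 83, 257, 277, 309], [[3], [6], [9], [1], [5], [7]])],
     (Tr.bt 83 (Tr.lf 1) (Tr.lf 0))),
    ([(true, [49, 50, 51, 83, 274, 275], [17, 18, 19, 81, 82, 277, 291, 309], [[3], [9], [7], [1], [5], [8]]),
     (true, [48, 49, 51, 80, 259, 275], [16, 17, 19, 81, 83, 257, 277, 309], [[3], [6], [9], [1], [5], [7]])],
     (Tr.bt 83 (Tr.lf 1) (Tr.lf 0))),
    ([(true, [65, 66, 67, 83, 274, 275], [17, 18, 19, 81, 82, 291, 325], [[4], [15], [13], [7], [5], [14]]), (true,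
     [48, 49, 64, 65, 66, 67, 80], [32, 33, 81, 82, 83, 257, 291, 325], [[4], [12], [9], [8], [5], [13]])], (Tr.bt
     83 (Tr.lf 1) (Tr.lf 0))),
    ([(true, [65, 66, 67, 83, 274, 275, 292], [33, 34, 35, 81, 82, 291, 293, 325], [[4], [9], [7], [2], [5], [8]]),
     (true, [64, 65, 67, 80, 259, 275, 292], [32, 33, 35, 81, 83, 257, 293, 325], [[4], [6], [9], [2], [5], [7]])],
     (Tr.bt 83 (Tr.lf 1) (Tr.lf 0))),
    ([(true, [49, 65, 274, 275, 276, 308, 309], [17, 33, 81, 277, 291, 292, 293, 325], [[3], [1], [4], [5], [2],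
     [7]])], (Tr.lf 0)),
    ([(true, [65, 66, 67, 83, 274, 275, 276], [17, 18, 19, 81, 82, 277, 291, 325], [[4], [9], [7], [1], [5], [8]]),
     (true, [64, 65, 67, 80, 259, 275, 276], [16, 17, 19, 81, 83, 257, 277, 325], [[4], [6], [9], [1], [5], [7]])],
     (Tr.bt 83 (Tr.lf 1) (Tr.lf 0)))]

theorem t5xk : ∀ zw a b : Bool, 
    ckHX 6 0 (pos ([(256 + 16 * 1 + 2, true), (256 + 16 * 1 + 3, true), (256 + 16 * 2 + 3, false)] ++ knK 2 ++
      mrK 2 3 false ++ mrK 2 4 false ++ wuK 3 4 ++ zkK 2 5 false false false ++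
      [(16 * 5, true), (256 + 16 * 3 + 5, zw), (256 + 16 * 4 + 5, !zw), (256 + 16 * 1 + 4, a), (256 + 16 * 2 + 4, b)])) (neg ([(256 + 16 * 1 + 2, true), (256 + 16 * 1 + 3, true), (256 + 16 * 2 + 3, false)] ++ knK 2 ++
      mrK 2 3 false ++ mrK 2 4 false ++ wuK 3 4 ++ zkK 2 5 false false false ++
      [(16 * 5, true), (256 + 16 * 3 + 5, zw), (256 + 16 * 4 + 5, !zw), (256 + 16 * 1 + 4, a), (256 + 16 * 2 + 4, b)]))
      (sel t5xl [zw, a, b]).1 (sel t5xl [zw, a, b]).2 = true := by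
  decide +kernel

/-- **T5**, the third alternative: `z = 5` is anticomplete to the letters and complete to the later `v` -/
theorem tab5x {G : SimpleGraph V} (hH : FH G) (hJ : FJ 2 G) {x : ℕ → ℕ → V} {F : ℕ → Bool}
    (hx : FT.HR G 6 16 x F) (hk : Kn 2 F) (xy : F (256 + 16 * 1 + 2) = true) (xw : F (256 + 16 * 1 + 3) = true)
    (yw : F (256 + 16 * 2 + 3) = false)
    (hw : Mr 2 3 false F) (hu : Mr 2 4 false F) (hwu : WU 3 4 F) (hz : ZK 2 5 false false false F)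
    (he : F (16 * 5) = true) (hd : F (256 + 16 * 3 + 5) = !F (256 + 16 * 4 + 5)) : False := by
  refine refuteK hH hJ (HRZ.of hx) _ (mem_app (mem_app (mem_app (mem_app (mem_app (mem_app (mem_cs xy (mem_cs xw
    (mem_cs yw mem_nl))) hk.mem) hw.mem) hu.mem) hwu.mem) hz.mem) (mem_cs he (mem_cs rfl (mem_cs
      (?_ : F (256 + 16 * 4 + 5) = !F (256 + 16 * 3 + 5)) (mem_cs rfl (mem_cs rfl mem_nl))))))
    _ (t5xk _ _ _)
  rw [hd, Bool.not_not]

end Pool.Agent.MPd439b2.RN.Tb
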