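import Pool.Agent.Lib.MP_d439b2_co.RN.TabS

/-!
# MP_d439b2_co, RN: tables for the cells and their mixers: T7, T8, T9 (helper32)
-/

set_option autoImplicit false

namespace Pool.Agent.MPd439b2.RN.Tb

open Pool.Agent.MPd439b2 Pool.Agent.MPd439b2.H1T

variable {V : Type}

/-! ### T7 -/

def t7l : List (List CertX × Tr) := [
    ([(true, [0, 1, 4, 516], [17, 20, 257, 276, 512, 513], [[0], [14], [5], [6], [80], [11]]), (true, [48, 49, 51,
     259, 275, 512], [16, 17, 19, 257, 513, 515], [[3], [5], [8], [1], [80], [6]])], (Tr.bt 512 (Tr.lf 0) (Tr.lf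
     1))),
    ([(true, [0, 1, 4, 516], [17, 20, 257, 276, 512, 513], [[0], [14], [5], [6], [80], [11]]), (true, [48, 49, 51,
     259, 275, 512], [16, 17, 19, 257, 513, 515], [[3], [5], [8], [1], [80], [6]])], (Tr.bt 512 (Tr.lf 0) (Tr.lf
     1))),
    ([(true, [0, 1, 2, 4, 516], [18, 20, 257, 292, 512, 513, 514], [[0], [14], [5], [6], [80], [12]]), (true, [48,
     49, 51, 259, 275, 512], [16, 17, 19, 257, 513, 515], [[3], [5], [8], [1], [80], [6]])], (Tr.bt 512 (Tr.lf 0)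
     (Tr.lf 1))),
    ([(true, [1, 4, 49, 52, 259, 275, 516], [17, 20, 257, 512, 513, 515], [[3], [14], [0], [1], [80], [6]]), (true,
     [48, 49, 51, 259, 275, 512], [16, 17, 19, 257, 513, 515], [[3], [5], [8], [1], [80], [6]])], (Tr.bt 512 (Tr.lf
     0) (Tr.lf 1))),
    ([(true, [0, 1, 2, 3, 515], [18, 19, 257, 291, 512, 513, 514], [[0], [13], [5], [6], [80], [12]]), (true, [64,
     65, 68, 512], [16, 17, 257, 276, 513, 516], [[4], [10], [9], [6], [80], [11]])], (Tr.bt 512 (Tr.lf 0) (Tr.lf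
     1))),
    ([(true, [0, 1, 2, 3, 515], [18, 19, 257, 291, 512, 513, 514], [[0], [13], [5], [6], [80], [12]]), (true, [64,
     66, 68, 260, 292, 512], [32, 34, 36, 258, 514, 516], [[4], [5], [9], [2], [80], [7]])], (Tr.bt 512 (Tr.lf 0)
     (Tr.lf 1))),
    ([(true, [49, 65, 274, 275, 276, 308, 515], [17, 33, 291, 292, 513, 514, 516], [[3], [1], [4], [80], [2],
     [6]])], (Tr.lf 0)),
    ([(true, [0, 1, 2, 3, 515], [18, 19, 257, 291, 512, 513, 514], [[0], [13], [5], [6], [80], [12]]), (true, [64,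
     65, 68, 260, 276, 512], [16, 17, 20, 257, 513, 516], [[4], [5], [9], [1], [80], [6]])], (Tr.bt 512 (Tr.lf 0)
     (Tr.lf 1))),
    ([(true, [259, 274, 275, 308, 513, 514, 516], [16, 17, 18, 19, 20, 257, 258, 291, 292, 512], [[80], [9, 8], [6],
     [1], [5], [7]]), (true, [3, 259, 274, 275, 512, 513, 514], [16, 17, 18, 19, 35, 258, 291, 515], [[80], [8, 5],
     [6], [1], [13], [7]])], (Tr.bt 512 (Tr.lf 0) (Tr.lf 1))),
    ([(true, [67, 274, 292, 513, 514, 516], [17, 18, 19, 20, 35, 276, 515], [[80], [9], [7], [1], [13], [6]])],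
     (Tr.lf 0)),
    ([(true, [67, 274, 276, 513, 514, 516], [17, 18, 19, 20, 35, 292, 515], [[80], [9], [6], [1], [13], [7]])],
     (Tr.lf 0)),
    ([(true, [49, 259, 274, 275, 513, 514], [16, 17, 18, 19, 33, 257, 258, 291, 512], [[80], [11, 8], [6], [1], [5],
     [7]]), (true, [3, 259, 274, 275, 512, 513, 514], [16, 17, 18, 19, 35, 258, 291, 515], [[80], [8, 5], [6], [1],
     [13], [7]])], (Tr.bt 512 (Tr.lf 0) (Tr.lf 1))),
    ([(true, [274, 275, 308, 513, 514, 515], [17, 18, 19, 20, 276, 291, 292, 516], [[80], [8], [6], [1], [9],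
     [7]])], (Tr.lf 0)),
    ([(true, [52, 274, 275, 513, 514, 515], [17, 18, 19, 20, 36, 291, 516], [[80], [8], [6], [1], [14], [7]])],
     (Tr.lf 0)),
    ([(true, [52, 274, 275, 513, 514, 515], [17, 18, 19, 20, 36, 291, 516], [[80], [8], [6], [1], [14], [7]])],
     (Tr.lf 0)),
    ([(true, [52, 274, 275, 513, 514, 515], [17, 18, 19, 20, 36, 291, 516], [[80], [8], [6], [1], [14], [7]])],
     (Tr.lf 0))]

theorem t7k : ∀ e zw a b : Bool, 
    ckHX 5 1 (pos ([(256 + 16 * 1 + 2, true), (256 + 16 * 1 + 3, true), (256 + 16 * 2 + 3, false)] ++ knK 2 ++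
      mrK 2 3 false ++ mrK 2 4 false ++ wuK 3 4 ++
      [(512 + 1, e), (512 + 2, e), (512 + 3, zw), (512 + 4, !zw), (256 + 16 * 1 + 4, a), (256 + 16 * 2 + 4, b)])) (neg ([(256 + 16 * 1 + 2, true), (256 + 16 * 1 + 3, true), (256 + 16 * 2 + 3, false)] ++ knK 2 ++
      mrK 2 3 false ++ mrK 2 4 false ++ wuK 3 4 ++
      [(512 + 1, e), (512 + 2, e), (512 + 3, zw), (512 + 4, !zw), (256 + 16 * 1 + 4, a), (256 + 16 * 2 + 4, b)]))
      (sel t7l [e, zw, a, b]).1 (sel t7l [e, zw, a, b]).2 = true := by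
  decide +kernel

/-- **T7**: two half mixers with different bits on a fixed vertex `z` with a constant bit on the letters -/
theorem tab7 {G : SimpleGraph V} (hH : FH G) (hJ : FJ 2 G) {x : ℕ → ℕ → V} {z : ℕ → V} {F : ℕ → Bool}
    (hx : HRZ G 5 1 x z F) (hk : Kn 2 F) (xy : F (256 + 16 * 1 + 2) = true) (xw : F (256 + 16 * 1 + 3) = true)
    (yw : F (256 + 16 * 2 + 3) = false)
    (hw : Mr 2 3 false F) (hu : Mr 2 4 false F) (hwu : WU 3 4 F) (he : F (512 + 1) = F (512 + 2))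
    (hd : F (512 + 3) = !F (512 + 4)) : False := by
  refine refuteK hH hJ hx _ (mem_app (mem_app (mem_app (mem_app (mem_app (mem_cs xy (mem_cs xw
    (mem_cs yw mem_nl))) hk.mem) hw.mem) hu.mem) hwu.mem) (mem_cs rfl (mem_cs he.symm (mem_cs rfl (mem_cs
      (?_ : F (512 + 4) = !F (512 + 3)) (mem_cs rfl (mem_cs rfl mem_nl)))))))
    _ (t7k _ _ _ _)
  rw [hd, Bool.not_not]

/-! ### T8, form E -/

def t8El : List (List CertX × Tr) := [
    ([(true, [259, 260, 274, 291, 292, 308, 516], [257, 258, 275, 276, 512, 513, 514, 515], [[4], [2], [3], [80],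
     [1], [0]]), (true, [1, 3, 19, 49, 51, 259, 512], [17, 257, 275, 513, 515], [[0], [8], [3], [80], [1], [6]])],
     (Tr.bt 512 (Tr.lf 0) (Tr.lf 1))),
    ([(true, [1, 3, 35, 65, 67, 260, 516], [33, 258, 275, 292, 512, 513, 514, 515], [[4], [8], [0], [80], [2],
     [6]]), (true, [1, 3, 19, 49, 51, 259, 512], [17, 257, 275, 513, 515], [[0], [8], [3], [80], [1], [6]])], (Tr.bt
     512 (Tr.lf 0) (Tr.lf 1))),
    ([(true, [2, 3, 19, 66, 67, 260, 516], [18, 257, 276, 291, 512, 513, 514, 515], [[4], [8], [0], [80], [1],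
     [7]]), (true, [2, 3, 35, 50, 51, 259, 512], [34, 258, 291, 514, 515], [[0], [8], [3], [80], [2], [7]])], (Tr.bt
     512 (Tr.lf 0) (Tr.lf 1))),
    ([(true, [259, 260, 274, 275, 276, 308, 516], [257, 258, 291, 292, 512, 513, 514, 515], [[4], [1], [3], [80],
     [2], [0]]), (true, [2, 3, 35, 50, 51, 259, 512], [34, 258, 291, 514, 515], [[0], [8], [3], [80], [2], [7]])],
     (Tr.bt 512 (Tr.lf 0) (Tr.lf 1))),
    ([(true, [259, 260, 274, 291, 292, 308, 515], [257, 258, 275, 276, 512, 513, 514, 516], [[3], [2], [4], [80],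
     [1], [0]]), (true, [1, 4, 20, 65, 68, 260, 512], [17, 257, 276, 513, 516], [[0], [9], [4], [80], [1], [6]])],
     (Tr.bt 512 (Tr.lf 0) (Tr.lf 1))),
    ([(true, [2, 4, 20, 50, 52, 259, 515], [18, 257, 275, 292, 512, 513, 514, 516], [[3], [9], [0], [80], [1],
     [7]]), (true, [2, 4, 36, 66, 68, 260, 512], [34, 258, 292, 514, 516], [[0], [9], [4], [80], [2], [7]])], (Tr.bt
     512 (Tr.lf 0) (Tr.lf 1))),
    ([(true, [1, 4, 36, 49, 52, 259, 515], [33, 258, 276, 291, 512, 513, 514, 516], [[3], [9], [0], [80], [2],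
     [6]]), (true, [1, 4, 20, 65, 68, 260, 512], [17, 257, 276, 513, 516], [[0], [9], [4], [80], [1], [6]])], (Tr.bt
     512 (Tr.lf 0) (Tr.lf 1))),
    ([(true, [259, 260, 274, 275, 276, 308, 515], [257, 258, 291, 292, 512, 513, 514, 516], [[3], [1], [4], [80],
     [2], [0]]), (true, [2, 4, 36, 66, 68, 260, 512], [34, 258, 292, 514, 516], [[0], [9], [4], [80], [2], [7]])],
     (Tr.bt 512 (Tr.lf 0) (Tr.lf 1)))]

theorem t8Ek : ∀ zw wc a : Bool, 
    ckHX 5 1 (pos (feK wc a ++ knK 2 ++ mrK 2 3 true ++ mrK 2 4 true ++ wuK 3 4 ++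
      (rg 2).map (fun a => (512 + a, false)) ++ [(512 + 3, zw), (512 + 4, !zw)])) (neg (feK wc a ++ knK 2 ++ mrK 2 3 true ++ mrK 2 4 true ++ wuK 3 4 ++
      (rg 2).map (fun a => (512 + a, false)) ++ [(512 + 3, zw), (512 + 4, !zw)]))
      (sel t8El [zw, wc, a]).1 (sel t8El [zw, wc, a]).2 = true := by
  decide +kernel

/-- **T8**, form E: two thick mixers with different bits on a fixed vertex `z` anticomplete to the letters -/
theorem tab8E {G : SimpleGraph V} (hH : FH G) (hJ : FJ 2 G) {x : ℕ → ℕ → V} {z : ℕ → V} {F : ℕ → Bool}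
    (hx : HRZ G 5 1 x z F) (hk : Kn 2 F) (hf : FmE F) (hw : Mr 2 3 true F) (hu : Mr 2 4 true F)
    (hwu : WU 3 4 F) (hz : ∀ a, 1 ≤ a → a ≤ 2 → F (512 + a) = false)
    (hd : F (512 + 3) = !F (512 + 4)) : False := by
  obtain ⟨wc, a, ha⟩ := hf.mem
  refine refuteK hH hJ hx _ (mem_app (mem_app (mem_app (mem_app (mem_app (mem_app ha hk.mem) hw.mem)
    hu.mem) hwu.mem) (K' := (rg 2).map (fun a => (512 + a, false))) ?_) (mem_cs rfl (mem_cs
      (?_ : F (512 + 4) = !F (512 + 3)) mem_nl))) _ (t8Ek _ wc a)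
  · intro c hc
    obtain ⟨a, ha, rfl⟩ := List.mem_map.1 hc
    exact hz a (mem_rg ha).1 (mem_rg ha).2
  · rw [hd, Bool.not_not]

/-! ### T8, form P -/

def t8Pl : List (List CertX × Tr) := [
    ([(true, [1, 4, 20, 81, 84, 261, 517], [17, 257, 276, 277, 512, 513, 516], [[5], [10], [0], [96], [1], [7]]),
     (true, [1, 4, 20, 65, 68, 260, 512], [17, 257, 276, 513, 516], [[0], [10], [4], [96], [1], [7]])], (Tr.bt 512
     (Tr.lf 0) (Tr.lf 1))),
    ([(true, [1, 4, 52, 81, 84, 261, 517], [49, 259, 276, 309, 512, 513, 515, 516], [[5], [10], [0], [96], [3],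
     [7]]), (true, [1, 4, 20, 65, 68, 260, 512], [17, 257, 276, 513, 516], [[0], [10], [4], [96], [1], [7]])],
     (Tr.bt 512 (Tr.lf 0) (Tr.lf 1))),
    ([(true, [2, 4, 20, 82, 84, 261, 517], [18, 257, 277, 292, 512, 513, 514, 516], [[5], [10], [0], [96], [1],
     [8]]), (true, [2, 4, 36, 66, 68, 260, 512], [34, 258, 292, 514, 516], [[0], [10], [4], [96], [2], [8]])],
     (Tr.bt 512 (Tr.lf 0) (Tr.lf 1))),
    ([(true, [274, 276, 277, 291, 293, 325, 517], [275, 292, 308, 309, 513, 514, 515, 516], [[5], [2], [1], [96],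
     [3], [4]])], (Tr.lf 0)),
    ([(true, [274, 291, 292, 308, 309, 325, 516], [275, 276, 277, 293, 513, 514, 515, 517], [[4], [2], [3], [96],
     [1], [5]])], (Tr.lf 0)),
    ([(true, [3, 5, 21, 67, 69, 260, 516], [19, 257, 276, 309, 512, 513, 515, 517], [[4], [11], [0], [96], [1],
     [9]]), (true, [3, 5, 53, 83, 85, 261, 512], [51, 259, 309, 515, 517], [[0], [11], [5], [96], [3], [9]])],
     (Tr.bt 512 (Tr.lf 0) (Tr.lf 1))),
    ([(true, [1, 5, 37, 65, 69, 260, 516], [33, 258, 277, 292, 512, 513, 514, 517], [[4], [11], [0], [96], [2],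
     [7]]), (true, [1, 5, 21, 81, 85, 261, 512], [17, 257, 277, 513, 517], [[0], [11], [5], [96], [1], [7]])],
     (Tr.bt 512 (Tr.lf 0) (Tr.lf 1))),
    ([(true, [3, 5, 37, 67, 69, 260, 516], [35, 258, 292, 309, 512, 514, 515, 517], [[4], [11], [0], [96], [2],
     [9]]), (true, [3, 5, 53, 83, 85, 261, 512], [51, 259, 309, 515, 517], [[0], [11], [5], [96], [3], [9]])],
     (Tr.bt 512 (Tr.lf 0) (Tr.lf 1)))]

theorem t8Pk : ∀ zw a b : Bool, 
    ckHX 6 1 (pos (fpK a b ++ knK 3 ++ mrK 3 4 true ++ mrK 3 5 true ++ wuK 4 5 ++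
      (rg 3).map (fun a => (512 + a, false)) ++ [(512 + 4, zw), (512 + 5, !zw)])) (neg (fpK a b ++ knK 3 ++ mrK 3 4 true ++ mrK 3 5 true ++ wuK 4 5 ++
      (rg 3).map (fun a => (512 + a, false)) ++ [(512 + 4, zw), (512 + 5, !zw)]))
      (sel t8Pl [zw, a, b]).1 (sel t8Pl [zw, a, b]).2 = true := by
  decide +kernel

/-- **T8**, form P: two thick mixers with different bits on a fixed vertex `z` anticomplete to the letters -/
theorem tab8P {G : SimpleGraph V} (hH : FH G) (hJ : FJ 2 G) {x : ℕ → ℕ → V} {z : ℕ → V} {F : ℕ → Bool}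
    (hx : HRZ G 6 1 x z F) (hk : Kn 3 F) (hf : FmP F) (hw : Mr 3 4 true F) (hu : Mr 3 5 true F)
    (hwu : WU 4 5 F) (hz : ∀ a, 1 ≤ a → a ≤ 3 → F (512 + a) = false)
    (hd : F (512 + 4) = !F (512 + 5)) : False := by
  obtain ⟨a, b, ha⟩ := hf.mem
  refine refuteK hH hJ hx _ (mem_app (mem_app (mem_app (mem_app (mem_app (mem_app ha hk.mem) hw.mem)
    hu.mem) hwu.mem) (K' := (rg 3).map (fun a => (512 + a, false))) ?_) (mem_cs rfl (mem_cs
      (?_ : F (512 + 5) = !F (512 + 4)) mem_nl))) _ (t8Pk _ a b)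
  · intro c hc
    obtain ⟨a, ha, rfl⟩ := List.mem_map.1 hc
    exact hz a (mem_rg ha).1 (mem_rg ha).2
  · rw [hd, Bool.not_not]

/-! ### T8, form D -/

def t8Dl : List (List CertX × Tr) := [
    ([(true, [2, 5, 37, 82, 85, 261, 512], [34, 258, 293, 514, 517], [[0], [12], [5], [112], [2], [9]]), (true, [2,
     5, 69, 98, 101, 262, 518], [66, 260, 293, 326, 512, 514, 516, 517], [[6], [12], [0], [112], [4], [9]])], (Tr.bt
     512 (Tr.lf 1) (Tr.lf 0))),
    ([(true, [4, 6, 70, 100, 102, 262, 512], [68, 260, 326, 516, 518], [[0], [13], [6], [112], [4], [11]]), (true,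
     [4, 6, 38, 84, 86, 261, 517], [36, 258, 293, 326, 512, 514, 516, 518], [[5], [13], [0], [112], [2], [11]])],
     (Tr.bt 512 (Tr.lf 1) (Tr.lf 0)))]

theorem t8Dk : ∀ zw : Bool, 
    ckHX 7 1 (pos (fdK ++ knK 4 ++ mrK 4 5 true ++ mrK 4 6 true ++ wuK 5 6 ++
      (rg 4).map (fun a => (512 + a, false)) ++ [(512 + 5, zw), (512 + 6, !zw)])) (neg (fdK ++ knK 4 ++ mrK 4 5 true ++ mrK 4 6 true ++ wuK 5 6 ++
      (rg 4).map (fun a => (512 + a, false)) ++ [(512 + 5, zw), (512 + 6, !zw)]))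
      (sel t8Dl [zw]).1 (sel t8Dl [zw]).2 = true := by
  decide +kernel

/-- **T8**, form D: two thick mixers with different bits on a fixed vertex `z` anticomplete to the letters -/
theorem tab8D {G : SimpleGraph V} (hH : FH G) (hJ : FJ 2 G) {x : ℕ → ℕ → V} {z : ℕ → V} {F : ℕ → Bool}
    (hx : HRZ G 7 1 x z F) (hk : Kn 4 F) (hf : FmD F) (hw : Mr 4 5 true F) (hu : Mr 4 6 true F)
    (hwu : WU 5 6 F) (hz : ∀ a, 1 ≤ a → a ≤ 4 → F (512 + a) = false)
    (hd : F (512 + 5) = !F (512 + 6)) : False := by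
  have ha := hf.mem
  refine refuteK hH hJ hx _ (mem_app (mem_app (mem_app (mem_app (mem_app (mem_app ha hk.mem) hw.mem)
    hu.mem) hwu.mem) (K' := (rg 4).map (fun a => (512 + a, false))) ?_) (mem_cs rfl (mem_cs
      (?_ : F (512 + 6) = !F (512 + 5)) mem_nl))) _ (t8Dk _)
  · intro c hc
    obtain ⟨a, ha, rfl⟩ := List.mem_map.1 hc
    exact hz a (mem_rg ha).1 (mem_rg ha).2
  · rw [hd, Bool.not_not]

/-! ### T9, form E -/

def t9El : List (List CertX × Tr) := [
    ([(false, [1, 3, 19, 49, 51, 259, 513, 529], [257, 275, 515, 531], [[0], [1], [3], [8], [80, 6], [13], [81,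
     11]])], (Tr.lf 0)),
    ([(false, [19, 20, 49, 50, 51, 52, 274, 276, 291, 513, 514, 516], [17, 275, 292, 515], [[3], [80], [8], [11],
     [13, 1], [12], [14]])], (Tr.lf 0)),
    ([(false, [19, 20, 49, 50, 51, 52, 274, 275, 292, 513, 514, 516], [18, 276, 291, 515], [[3], [80], [8], [11],
     [14], [12], [13, 1]])], (Tr.lf 0)),
    ([(false, [1, 2, 3, 19, 35, 50, 51, 274, 275, 513, 514, 529, 530], [17, 257, 291, 515, 531], [[0], [1], [6],
     [8], [80, 7], [13], [81, 12]])], (Tr.lf 0)),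
    ([(false, [1, 4, 20, 49, 52, 65, 68, 259, 513, 516, 529], [276, 512, 515, 532], [[0], [80], [3], [6], [9], [14],
     [81, 11]]), (false, [1, 3, 4, 19, 20, 65, 67, 68, 260, 308, 512, 513, 516, 529, 531], [257, 276, 515, 532],
     [[0], [1], [4], [8], [80], [9], [81, 6]])], (Tr.bt 512 (Tr.lf 0) (Tr.lf 1))),
    ([(false, [1, 2, 4, 49, 50, 52, 65, 259, 274, 276, 513, 514, 516, 529, 530], [17, 292, 512, 515, 532], [[0],
     [80], [3], [6], [11], [9], [81, 7]]), (false, [0, 2, 3, 4, 19, 20, 50, 52, 259, 512, 513, 514, 516, 529, 530],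
     [16, 257, 292, 515, 532], [[0], [1], [5], [8], [80], [14], [81, 12]])], (Tr.bt 512 (Tr.lf 0) (Tr.lf 1))),
    ([(false, [1, 2, 3, 4, 19, 20, 49, 50, 52, 259, 274, 275, 292, 513, 514, 516], [18, 276, 291, 512, 515], [[0],
     [80], [3], [6], [9], [7], [8, 1]]), (false, [1, 4, 20, 49, 52, 65, 68, 259, 260, 275, 308, 512, 513, 516, 529],
     [257, 276, 515, 532], [[0], [1], [4], [3], [80], [9], [81, 6]])], (Tr.bt 512 (Tr.lf 0) (Tr.lf 1))),
    ([(false, [1, 2, 4, 49, 50, 52, 65, 259, 274, 276, 513, 514, 516, 529, 530], [17, 292, 512, 515, 532], [[0],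
     [80], [3], [6], [11], [9], [81, 7]]), (false, [0, 2, 4, 20, 48, 50, 52, 259, 275, 512, 513, 514, 516, 529,
     530], [16, 257, 292, 515, 532], [[0], [1], [5], [3], [80], [14], [81, 12]])], (Tr.bt 512 (Tr.lf 0) (Tr.lf 1))),
    ([(false, [1, 3, 19, 49, 51, 65, 67, 260, 513, 515, 529], [275, 512, 516, 531], [[0], [80], [4], [6], [8], [13],
     [81, 11]]), (false, [1, 3, 4, 19, 20, 49, 51, 52, 259, 308, 512, 513, 515, 529, 532], [257, 275, 516, 531],
     [[0], [1], [3], [8], [81, 6], [9], [80]])], (Tr.bt 512 (Tr.lf 0) (Tr.lf 1))),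
    ([(false, [1, 2, 3, 4, 19, 20, 65, 66, 67, 260, 274, 276, 291, 513, 514, 515], [18, 275, 292, 512, 516], [[0],
     [80], [4], [6], [8], [7], [9, 1]]), (false, [1, 3, 19, 49, 51, 65, 67, 259, 260, 276, 308, 512, 513, 515, 529],
     [257, 275, 516, 531], [[0], [1], [3], [4], [80], [8], [81, 6]])], (Tr.bt 512 (Tr.lf 0) (Tr.lf 1))),
    ([(false, [1, 2, 3, 49, 65, 66, 67, 260, 274, 275, 513, 514, 515, 529, 530], [17, 291, 512, 516, 531], [[0],
     [80], [4], [6], [11], [8], [81, 7]]), (false, [0, 2, 3, 4, 19, 20, 66, 67, 260, 512, 513, 514, 515, 529, 530],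
     [16, 257, 291, 516, 531], [[0], [1], [5], [9], [80], [13], [81, 12]])], (Tr.bt 512 (Tr.lf 0) (Tr.lf 1))),
    ([(false, [1, 2, 3, 49, 65, 66, 67, 260, 274, 275, 513, 514, 515, 529, 530], [17, 291, 512, 516, 531], [[0],
     [80], [4], [6], [11], [8], [81, 7]]), (false, [0, 2, 3, 19, 64, 66, 67, 260, 276, 512, 513, 514, 515, 529,
     530], [16, 257, 291, 516, 531], [[0], [1], [5], [4], [80], [13], [81, 12]])], (Tr.bt 512 (Tr.lf 0) (Tr.lf 1))),
    ([(false, [1, 4, 20, 49, 52, 65, 68, 259, 513, 529], [257, 275, 276, 516, 532], [[0], [1], [3], [9], [80, 6],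
     [14], [81, 11]])], (Tr.lf 0)),
    ([(false, [19, 20, 65, 66, 67, 68, 274, 276, 291, 513, 514, 515], [18, 275, 292, 516], [[4], [80], [9], [11],
     [13], [12], [14, 1]])], (Tr.lf 0)),
    ([(false, [19, 20, 65, 66, 67, 68, 274, 275, 292, 513, 514, 515], [17, 276, 291, 516], [[4], [80], [9], [11],
     [14, 1], [12], [13]])], (Tr.lf 0)),
    ([(false, [1, 2, 4, 20, 36, 66, 68, 274, 276, 513, 514, 529, 530], [17, 257, 292, 516, 532], [[0], [1], [6],
     [9], [80, 7], [14], [81, 12]])], (Tr.lf 0))]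

theorem t9Ek : ∀ zw yw wc a : Bool, 
    ckHX 5 2 (pos (feK wc a ++ knK 2 ++ mrK 2 3 true ++ mrK 2 4 true ++ wuK 3 4 ++
      (rg 2).map (fun a => (512 + a, true)) ++ (rg 2).map (fun a => (528 + a, true)) ++
      [(512 + 3, zw), (512 + 4, !zw), (528 + 3, yw), (528 + 4, !yw)])) (neg (feK wc a ++ knK 2 ++ mrK 2 3 true ++ mrK 2 4 true ++ wuK 3 4 ++
      (rg 2).map (fun a => (512 + a, true)) ++ (rg 2).map (fun a => (528 + a, true)) ++
      [(512 + 3, zw), (512 + 4, !zw), (528 + 3, yw), (528 + 4, !yw)]))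
      (sel t9El [zw, yw, wc, a]).1 (sel t9El [zw, yw, wc, a]).2 = true := by
  decide +kernel

/-- **T9**, form E: two thick mixers with different bits on two fixed vertices complete to the letters -/
theorem tab9E {G : SimpleGraph V} (hH : FH G) (hJ : FJ 2 G) {x : ℕ → ℕ → V} {z : ℕ → V} {F : ℕ → Bool}
    (hx : HRZ G 5 2 x z F) (hk : Kn 2 F) (hf : FmE F) (hw : Mr 2 3 true F) (hu : Mr 2 4 true F)
    (hwu : WU 3 4 F) (hz : ∀ a, 1 ≤ a → a ≤ 2 → F (512 + a) = true ∧ F (528 + a) = true)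
    (hd : F (512 + 3) = !F (512 + 4)) (hd' : F (528 + 3) = !F (528 + 4)) : False := by
  obtain ⟨wc, a, ha⟩ := hf.mem
  refine refuteK hH hJ hx _ (mem_app (mem_app (mem_app (mem_app (mem_app (mem_app (mem_app ha hk.mem) hw.mem)
    hu.mem) hwu.mem) (K' := (rg 2).map (fun a => (512 + a, true))) ?_)
    (K' := (rg 2).map (fun a => (528 + a, true))) ?_) (mem_cs rfl (mem_cs
      (?_ : F (512 + 4) = !F (512 + 3)) (mem_cs rfl (mem_cs (?_ : F (528 + 4) = !F (528 + 3))
        mem_nl))))) _ (t9Ek _ _ wc a)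
  · intro c hc
    obtain ⟨a, ha, rfl⟩ := List.mem_map.1 hc
    exact (hz a (mem_rg ha).1 (mem_rg ha).2).1
  · intro c hc
    obtain ⟨a, ha, rfl⟩ := List.mem_map.1 hc
    exact (hz a (mem_rg ha).1 (mem_rg ha).2).2
  · rw [hd, Bool.not_not]
  · rw [hd', Bool.not_not]

/-! ### T9, form P -/

def t9Pl : List (List CertX × Tr) := [
    ([(false, [1, 4, 20, 65, 68, 260, 513, 529], [257, 276, 516, 532], [[0], [1], [4], [10], [96, 7], [16], [97,
     13]])], (Tr.lf 0)),
    ([(false, [1, 4, 20, 65, 68, 260, 513, 529], [257, 276, 516, 532], [[0], [1], [4], [10], [96, 7], [16], [97,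
     13]])], (Tr.lf 0)),
    ([(false, [65, 66, 67, 68, 274, 276, 291, 309, 325, 513, 514, 515, 517], [275, 292, 293, 516], [[4], [96], [10],
     [13], [15], [14], [17, 16]])], (Tr.lf 0)),
    ([(false, [1, 2, 4, 20, 36, 66, 68, 274, 276, 513, 514, 529, 530], [17, 257, 292, 516, 532], [[0], [1], [7],
     [10], [96, 8], [16], [97, 14]])], (Tr.lf 0)),
    ([(false, [1, 3, 5, 21, 53, 65, 67, 69, 260, 513, 515, 517, 529, 531], [275, 277, 512, 516, 533], [[0], [96],
     [4], [7], [9], [17], [97, 13]]), (false, [1, 4, 5, 20, 21, 81, 84, 85, 261, 325, 512, 513, 517, 529, 532],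
     [257, 277, 516, 533], [[0], [1], [5], [10], [96], [11], [97, 7]])], (Tr.bt 512 (Tr.lf 0) (Tr.lf 1))),
    ([(false, [1, 3, 5, 21, 53, 65, 67, 69, 260, 513, 515, 517, 529, 531], [275, 309, 512, 516, 533], [[0], [96],
     [4], [7], [9], [17], [97, 15]]), (false, [0, 3, 4, 5, 20, 21, 67, 69, 260, 512, 513, 515, 517, 529, 531], [16,
     257, 309, 516, 533], [[0], [1], [6], [10], [96], [17], [97, 15]])], (Tr.bt 512 (Tr.lf 0) (Tr.lf 1))),
    ([(false, [1, 2, 3, 4, 65, 66, 67, 68, 260, 274, 276, 291, 309, 325, 513, 514, 515, 517], [275, 292, 293, 512,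
     516], [[0], [96], [4], [7], [9], [8], [11, 10]]), (false, [1, 5, 21, 65, 69, 81, 85, 260, 261, 276, 325, 512,
     513, 517, 529], [257, 277, 516, 533], [[0], [1], [5], [4], [96], [11], [97, 7]])], (Tr.bt 512 (Tr.lf 0) (Tr.lf
     1))),
    ([(false, [1, 3, 5, 21, 53, 65, 67, 69, 260, 513, 515, 517, 529, 531], [275, 309, 512, 516, 533], [[0], [96],
     [4], [7], [9], [17], [97, 15]]), (false, [0, 3, 5, 21, 64, 67, 69, 260, 276, 512, 513, 515, 517, 529, 531],
     [16, 257, 309, 516, 533], [[0], [1], [6], [4], [96], [17], [97, 15]])], (Tr.bt 512 (Tr.lf 0) (Tr.lf 1))),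
    ([(false, [1, 3, 4, 20, 52, 81, 83, 84, 261, 513, 515, 516, 529, 531], [275, 276, 512, 517, 532], [[0], [96],
     [5], [7], [9], [16], [97, 13]]), (false, [1, 4, 5, 20, 21, 65, 68, 69, 260, 325, 512, 513, 516, 529, 533],
     [257, 276, 517, 532], [[0], [1], [4], [10], [97, 7], [11], [96]])], (Tr.bt 512 (Tr.lf 0) (Tr.lf 1))),
    ([(false, [1, 3, 4, 20, 52, 81, 83, 84, 261, 513, 515, 516, 529, 531], [275, 276, 512, 517, 532], [[0], [96],
     [5], [7], [9], [16], [97, 13]]), (false, [1, 4, 20, 65, 68, 81, 84, 260, 261, 277, 325, 512, 513, 516, 529],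
     [257, 276, 517, 532], [[0], [1], [4], [5], [96], [10], [97, 7]])], (Tr.bt 512 (Tr.lf 0) (Tr.lf 1))),
    ([(false, [1, 2, 3, 4, 81, 82, 83, 84, 261, 274, 276, 291, 309, 325, 513, 514, 515, 516], [275, 292, 293, 512,
     517], [[0], [96], [5], [7], [9], [8], [11, 10]]), (false, [0, 2, 4, 5, 20, 21, 82, 84, 261, 512, 513, 514, 516,
     529, 530], [16, 257, 292, 517, 532], [[0], [1], [6], [11], [96], [16], [97, 14]])], (Tr.bt 512 (Tr.lf 0) (Tr.lf
     1))),
    ([(false, [1, 2, 3, 4, 20, 52, 81, 82, 83, 84, 261, 513, 514, 515, 516, 529, 530, 531], [275, 292, 512, 517,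
     532], [[0], [96], [5], [7], [9], [16], [97, 14]]), (false, [0, 2, 4, 20, 80, 82, 84, 261, 277, 512, 513, 514,
     516, 529, 530], [16, 257, 292, 517, 532], [[0], [1], [6], [5], [96], [16], [97, 14]])], (Tr.bt 512 (Tr.lf 0)
     (Tr.lf 1))),
    ([(false, [1, 5, 21, 65, 69, 81, 85, 260, 513, 529], [257, 276, 277, 517, 533], [[0], [1], [4], [11], [96, 7],
     [17], [97, 13]])], (Tr.lf 0)),
    ([(false, [3, 5, 21, 53, 67, 69, 83, 85, 260, 513, 515, 529, 531], [257, 276, 309, 517, 533], [[0], [1], [4],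
     [11], [96, 9], [17], [97, 15]])], (Tr.lf 0)),
    ([(false, [81, 82, 83, 84, 85, 274, 276, 291, 309, 325, 513, 514, 515, 516], [275, 292, 293, 517], [[5], [96],
     [11], [13], [15], [14], [17, 16]])], (Tr.lf 0)),
    ([(false, [1, 3, 5, 21, 53, 83, 85, 277, 513, 515, 529, 531], [17, 257, 309, 517, 533], [[0], [1], [7], [11],
     [96, 9], [17], [97, 15]])], (Tr.lf 0))]

theorem t9Pk : ∀ zw yw a b : Bool, 
    ckHX 6 2 (pos (fpK a b ++ knK 3 ++ mrK 3 4 true ++ mrK 3 5 true ++ wuK 4 5 ++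
      (rg 3).map (fun a => (512 + a, true)) ++ (rg 3).map (fun a => (528 + a, true)) ++
      [(512 + 4, zw), (512 + 5, !zw), (528 + 4, yw), (528 + 5, !yw)])) (neg (fpK a b ++ knK 3 ++ mrK 3 4 true ++ mrK 3 5 true ++ wuK 4 5 ++
      (rg 3).map (fun a => (512 + a, true)) ++ (rg 3).map (fun a => (528 + a, true)) ++
      [(512 + 4, zw), (512 + 5, !zw), (528 + 4, yw), (528 + 5, !yw)]))
      (sel t9Pl [zw, yw, a, b]).1 (sel t9Pl [zw, yw, a, b]).2 = true := by
  decide +kernel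

/-- **T9**, form P: two thick mixers with different bits on two fixed vertices complete to the letters -/
theorem tab9P {G : SimpleGraph V} (hH : FH G) (hJ : FJ 2 G) {x : ℕ → ℕ → V} {z : ℕ → V} {F : ℕ → Bool}
    (hx : HRZ G 6 2 x z F) (hk : Kn 3 F) (hf : FmP F) (hw : Mr 3 4 true F) (hu : Mr 3 5 true F)
    (hwu : WU 4 5 F) (hz : ∀ a, 1 ≤ a → a ≤ 3 → F (512 + a) = true ∧ F (528 + a) = true)
    (hd : F (512 + 4) = !F (512 + 5)) (hd' : F (528 + 4) = !F (528 + 5)) : False := by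
  obtain ⟨a, b, ha⟩ := hf.mem
  refine refuteK hH hJ hx _ (mem_app (mem_app (mem_app (mem_app (mem_app (mem_app (mem_app ha hk.mem) hw.mem)
    hu.mem) hwu.mem) (K' := (rg 3).map (fun a => (512 + a, true))) ?_)
    (K' := (rg 3).map (fun a => (528 + a, true))) ?_) (mem_cs rfl (mem_cs
      (?_ : F (512 + 5) = !F (512 + 4)) (mem_cs rfl (mem_cs (?_ : F (528 + 5) = !F (528 + 4))
        mem_nl))))) _ (t9Pk _ _ a b)
  · intro c hc
    obtain ⟨a, ha, rfl⟩ := List.mem_map.1 hc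
    exact (hz a (mem_rg ha).1 (mem_rg ha).2).1
  · intro c hc
    obtain ⟨a, ha, rfl⟩ := List.mem_map.1 hc
    exact (hz a (mem_rg ha).1 (mem_rg ha).2).2
  · rw [hd, Bool.not_not]
  · rw [hd', Bool.not_not]

/-! ### T9, form D -/

def t9Dl : List (List CertX × Tr) := [
    ([(false, [1, 2, 5, 21, 37, 82, 85, 274, 277, 513, 514, 529, 530], [17, 257, 293, 517, 533], [[0], [1], [8],
     [12], [112, 9], [19], [113, 16]])], (Tr.lf 0)),
    ([(false, [0, 2, 5, 6, 21, 22, 98, 101, 262, 513, 514, 528, 529, 530, 533], [16, 257, 293, 517, 534], [[0], [1],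
     [7], [13], [113], [19], [112, 16]]), (false, [1, 4, 6, 22, 70, 81, 84, 86, 261, 513, 516, 518, 529, 532], [276,
     326, 512, 517, 534], [[0], [112], [5], [8], [11], [20], [113, 18]]), (false, [0, 4, 6, 22, 80, 84, 86, 261,
     277, 512, 513, 516, 518, 529, 532], [16, 257, 326, 517, 534], [[0], [1], [7], [5], [112], [20], [113, 18]]),
     (false, [1, 4, 6, 81, 84, 86, 97, 261, 276, 278, 513, 516, 518, 529, 532], [17, 326, 512, 517, 534], [[0],
     [112], [5], [8], [15], [13], [113, 11]]), (false, [1, 6, 22, 81, 86, 97, 102, 261, 513, 518, 529], [278, 512,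
     517, 534], [[0], [112], [5], [8], [13], [20], [113, 15]])], (Tr.bt 528 (Tr.bt 512 (Tr.bt 276 (Tr.lf 1) (Tr.bt
     278 (Tr.lf 4) (Tr.lf 3))) (Tr.lf 2)) (Tr.lf 0))),
    ([(false, [0, 2, 5, 6, 21, 22, 98, 101, 262, 512, 513, 514, 517, 529, 530], [16, 257, 293, 518, 533], [[0], [1],
     [7], [13], [112], [19], [113, 16]]), (false, [1, 2, 5, 81, 97, 98, 101, 262, 274, 277, 513, 514, 517, 529,
     530], [17, 293, 512, 518, 533], [[0], [112], [6], [8], [15], [12], [113, 9]])], (Tr.bt 512 (Tr.lf 1) (Tr.lf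
     0))),
    ([(false, [1, 6, 22, 97, 102, 262, 513, 529], [257, 278, 518, 534], [[0], [1], [6], [13], [112, 8], [20], [113,
     15]]), (false, [1, 4, 6, 22, 70, 100, 102, 278, 513, 516, 529, 532], [17, 257, 326, 518, 534], [[0], [1], [8],
     [13], [112, 11], [20], [113, 18]])], (Tr.bt 278 (Tr.lf 0) (Tr.lf 1)))]

theorem t9Dk : ∀ zw yw : Bool, 
    ckHX 7 2 (pos (fdK ++ knK 4 ++ mrK 4 5 true ++ mrK 4 6 true ++ wuK 5 6 ++
      (rg 4).map (fun a => (512 + a, true)) ++ (rg 4).map (fun a => (528 + a, true)) ++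
      [(512 + 5, zw), (512 + 6, !zw), (528 + 5, yw), (528 + 6, !yw)])) (neg (fdK ++ knK 4 ++ mrK 4 5 true ++ mrK 4 6 true ++ wuK 5 6 ++
      (rg 4).map (fun a => (512 + a, true)) ++ (rg 4).map (fun a => (528 + a, true)) ++
      [(512 + 5, zw), (512 + 6, !zw), (528 + 5, yw), (528 + 6, !yw)]))
      (sel t9Dl [zw, yw]).1 (sel t9Dl [zw, yw]).2 = true := by
  decide +kernel

/-- **T9**, form D: two thick mixers with different bits on two fixed vertices complete to the letters -/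
theorem tab9D {G : SimpleGraph V} (hH : FH G) (hJ : FJ 2 G) {x : ℕ → ℕ → V} {z : ℕ → V} {F : ℕ → Bool}
    (hx : HRZ G 7 2 x z F) (hk : Kn 4 F) (hf : FmD F) (hw : Mr 4 5 true F) (hu : Mr 4 6 true F)
    (hwu : WU 5 6 F) (hz : ∀ a, 1 ≤ a → a ≤ 4 → F (512 + a) = true ∧ F (528 + a) = true)
    (hd : F (512 + 5) = !F (512 + 6)) (hd' : F (528 + 5) = !F (528 + 6)) : False := by
  have ha := hf.mem
  refine refuteK hH hJ hx _ (mem_app (mem_app (mem_app (mem_app (mem_app (mem_app (mem_app ha hk.mem) hw.mem)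
    hu.mem) hwu.mem) (K' := (rg 4).map (fun a => (512 + a, true))) ?_)
    (K' := (rg 4).map (fun a => (528 + a, true))) ?_) (mem_cs rfl (mem_cs
      (?_ : F (512 + 6) = !F (512 + 5)) (mem_cs rfl (mem_cs (?_ : F (528 + 6) = !F (528 + 5))
        mem_nl))))) _ (t9Dk _ _)
  · intro c hc
    obtain ⟨a, ha, rfl⟩ := List.mem_map.1 hc
    exact (hz a (mem_rg ha).1 (mem_rg ha).2).1
  · intro c hc
    obtain ⟨a, ha, rfl⟩ := List.mem_map.1 hc
    exact (hz a (mem_rg ha).1 (mem_rg ha).2).2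
  · rw [hd, Bool.not_not]
  · rw [hd', Bool.not_not]


end Pool.Agent.MPd439b2.RN.Tb
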