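import Pool.Agent.Lib.MP_d439b2_co.RN.MxT
import Pool.Agent.Lib.MP_d439b2_co.RN.Tab1
import Pool.Agent.Lib.MP_d439b2_co.RN.Tab2
import Pool.Agent.Lib.MP_d439b2_co.RN.Tab4E
import Pool.Agent.Lib.MP_d439b2_co.RN.Tab4P
import Pool.Agent.Lib.MP_d439b2_co.RN.Tab4D
import Pool.Agent.Lib.MP_d439b2_co.RN.Tab5
import Pool.Agent.Lib.MP_d439b2_co.RN.Tab7

/-!
# MP_d439b2_co, RN: the tables of `RN/MxT` are true (helper32)
-/

set_option autoImplicit false

namespace Pool.Agent.MPd439b2.RN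

open Pool.Agent.MPd439b2

namespace Tb

variable {V : Type}

theorem ne_not {a b : Bool} (h : a ≠ b) : a = !b := by
  rcases a with _ | _ <;> rcases b with _ | _ <;> simp_all

theorem kn_of {F : ℕ → Bool} {m : ℕ} (h : Kr F m) : Kn m F :=
  ⟨h.1, fun a h1 h2 => (h.2 a h1 h2).1, fun a h1 h2 => (h.2 a h1 h2).2.1,
    fun a h1 h2 => (h.2 a h1 h2).2.2.1, fun a b h1 h2 h3 h4 => (h.2 a h1 h2).2.2.2 b h3 h4⟩

theorem mr_of {F : ℕ → Bool} {m r : ℕ} {e : Bool} (h : RN.Mr F m r e) : Mr m r e F :=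
  ⟨h.1, h.2.1, h.2.2.1, h.2.2.2.1, fun a h1 h2 => (h.2.2.2.2 a h1 h2).1, fun a h1 h2 => (h.2.2.2.2 a h1 h2).2⟩

theorem zk_of {F : ℕ → Bool} {m r : ℕ} {p q e : Bool} (h : Zr F m r p q e) : ZK m r p q e F :=
  ⟨fun a h1 h2 => (h a h1 h2).1, fun a h1 h2 => (h a h1 h2).2.1, fun a h1 h2 => (h a h1 h2).2.2⟩

theorem wu_of {F : ℕ → Bool} {w u : ℕ} (h : Wu F w u) : WU w u F := ⟨h.1, h.2.1, h.2.2⟩

theorem of_wu {F : ℕ → Bool} {w u : ℕ} (h : WU w u F) : Wu F w u := ⟨h.wu, h.uw, h.d⟩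

theorem fe_of {F : ℕ → Bool} (h : CfE F) : FmE F := ⟨h.1, ne_not h.2.1, ne_not h.2.2⟩

theorem fp_of {F : ℕ → Bool} (h : CfP F) : FmP F := by
  obtain ⟨h1, h2, h3, ⟨h4, h5⟩, h6, h7⟩ := h
  have h4' : F (256 + 32 + 4) = !F (256 + 16 + 4) := ne_not (Ne.symm h4)
  have h7' : F (256 + 32 + 5) = !F (256 + 48 + 5) := ne_not h7
  exact ⟨h1, h2, h3, h4', h5.symm.trans h4', h6.trans h7', h7'⟩

theorem fd_of {F : ℕ → Bool} (h : CfD F) : FmD F := ⟨h.1, h.2.1, h.2.2.1.1, h.2.2.1.2, h.2.2.2.1, h.2.2.2.2⟩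

/-- the table with one fixed vertex -/
def F1 (F c : ℕ → Bool) (b : ℕ) : Bool := bif Nat.blt b 512 then F b else c (b - 512)

theorem f1_lo {F c : ℕ → Bool} {b : ℕ} (h : b < 512) : F1 F c b = F b := by
  have h2 : Nat.blt b 512 = true := by rw [Nat.blt_eq]; exact h
  rw [F1, h2, cond_true]

theorem f1_hi {F c : ℕ → Bool} {b : ℕ} : F1 F c (512 + b) = c b := by
  have h2 : Nat.blt (512 + b) 512 = false := by
    rw [Bool.eq_false_iff]
    intro h3
    rw [Nat.blt_eq] at h3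
    omega
  rw [F1, h2, cond_false, Nat.add_sub_cancel_left]

theorem hrz1 {G : SimpleGraph V} {L : ℕ} (hL : L ≤ 16) {x : ℕ → ℕ → V} {F c : ℕ → Bool} {z : V}
    (h : FT.HR G L 16 x F) (hz : Fx G L 16 x z c) : HRZ G L 1 x (fun _ => z) (F1 F c) where
  hr := ⟨h.dis, fun i hi j hj k l hkl hl => by
    rw [f1_lo (by omega)]
    exact h.rel i hi j hj k l hkl hl, fun i hi j hj hij k hk => by
    rw [f1_lo (by omega)]
    exact h.dg i hi j hj hij k hk⟩
  nz _ _ i hi k hk := hz.ne i hi k hk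
  zn a ha b hb := by omega
  rz a ha i hi k hk := by
    obtain rfl : a = 0 := by omega
    show _ ↔ F1 F c (512 + i) = true
    rw [f1_hi]
    exact hz.ad i hi k hk
  zz a ha b hb := by omega

/-- the table with two fixed vertices -/
def F2 (F c c' : ℕ → Bool) (e : Bool) (b : ℕ) : Bool :=
  bif Nat.blt b 528 then F1 F c b else bif Nat.blt b 768 then c' (b - 528) else e

theorem f2_lo {F c c' : ℕ → Bool} {e : Bool} {b : ℕ} (h : b < 528) : F2 F c c' e b = F1 F c b := by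
  have h2 : Nat.blt b 528 = true := by rw [Nat.blt_eq]; exact h
  rw [F2, h2, cond_true]

theorem f2_mi {F c c' : ℕ → Bool} {e : Bool} {b : ℕ} (h : b < 16) : F2 F c c' e (528 + b) = c' b := by
  have h2 : Nat.blt (528 + b) 528 = false := by
    rw [Bool.eq_false_iff]
    intro h3
    rw [Nat.blt_eq] at h3
    omega
  have h3 : Nat.blt (528 + b) 768 = true := by rw [Nat.blt_eq]; omega
  rw [F2, h2, h3, cond_false, cond_true, Nat.add_sub_cancel_left]

theorem hrz2 {G : SimpleGraph V} {L : ℕ} (hL : L ≤ 16) {x : ℕ → ℕ → V} {F c c' : ℕ → Bool} {z z' : V}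
    (h : FT.HR G L 16 x F) (hz : Fx G L 16 x z c) (hz' : Fx G L 16 x z' c') (hne : z ≠ z') :
    ∃ e, HRZ G L 2 x (fun a => bif Nat.beq a 0 then z else z') (F2 F c c' e) := by
  refine ⟨@decide (G.Adj z' z) (Classical.dec _), ⟨⟨h.dis, fun i hi j hj k l hkl hl => ?_,
    fun i hi j hj hij k hk => ?_⟩, fun a ha i hi k hk => ?_, fun a ha b hb => ?_, fun a ha i hi k hk => ?_,
    fun a ha b hb => ?_⟩⟩
  · rw [f2_lo (by omega), f1_lo (by omega)]
    exact h.rel i hi j hj k l hkl hl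
  · rw [f2_lo (by omega), f1_lo (by omega)]
    exact h.dg i hi j hj hij k hk
  · rcases (show a = 0 ∨ a = 1 by omega) with rfl | rfl
    · exact hz.ne i hi k hk
    · exact hz'.ne i hi k hk
  · obtain ⟨rfl, rfl⟩ : a = 1 ∧ b = 0 := by omega
    exact Ne.symm hne
  · rcases (show a = 0 ∨ a = 1 by omega) with rfl | rfl
    · show G.Adj z (x i k) ↔ F2 F c c' _ (512 + i) = true
      rw [f2_lo (by omega), f1_hi]
      exact hz.ad i hi k hk
    · show G.Adj z' (x i k) ↔ F2 F c c' _ (528 + i) = true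
      rw [f2_mi (by omega)]
      exact hz'.ad i hi k hk
  · obtain ⟨rfl, rfl⟩ : a = 1 ∧ b = 0 := by omega
    show G.Adj z' z ↔ @decide (G.Adj z' z) (Classical.dec _) = true
    exact (@decide_eq_true_iff _ (Classical.dec _)).symm

/-- a predicate which only looks at bits below `512` -/
theorem kn_congr {m : ℕ} (hm : m ≤ 4) {F F' : ℕ → Bool} (e : ∀ b < 512, F' b = F b) (h : Kn m F) : Kn m F' :=
  ⟨(e _ (by omega)).trans h.vv, fun a h1 h2 => (e _ (by omega)).trans (h.va a h1 h2),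
    fun a h1 h2 => (e _ (by omega)).trans (h.av a h1 h2), fun a h1 h2 => (e _ (by omega)).trans (h.vd a h1 h2),
    fun a b h1 h2 h3 h4 => (e _ (by omega)).trans (h.kk a b h1 h2 h3 h4)⟩

theorem mr_congr {m r : ℕ} (hm : m ≤ 4) (hr : r ≤ 7) {t : Bool} {F F' : ℕ → Bool} (e : ∀ b < 512, F' b = F b)
    (h : Mr m r t F) : Mr m r t F' :=
  ⟨(e _ (by omega)).trans h.rr, (e _ (by omega)).trans h.vr, (e _ (by omega)).trans h.rv,
    (e _ (by omega)).trans h.vd, fun a h1 h2 => (e _ (by omega)).trans (h.ra a h1 h2),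
    fun a h1 h2 => (e _ (by omega)).trans (h.ar a h1 h2)⟩

theorem wu_congr {w u : ℕ} (hw : w ≤ 7) (hu : u ≤ 7) {F F' : ℕ → Bool} (e : ∀ b < 512, F' b = F b)
    (h : WU w u F) : WU w u F' :=
  ⟨(e _ (by omega)).trans h.wu, (e _ (by omega)).trans h.uw, (e _ (by omega)).trans h.d⟩

theorem fe_congr {F F' : ℕ → Bool} (e : ∀ b < 512, F' b = F b) (h : FmE F) : FmE F' := by
  refine ⟨?_, ?_, ?_⟩
  · rw [e _ (by omega)]; exact h.xy
  · rw [e _ (by omega), e _ (by omega)]; exact h.w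
  · rw [e _ (by omega), e _ (by omega)]; exact h.u

theorem fp_congr {F F' : ℕ → Bool} (e : ∀ b < 512, F' b = F b) (h : FmP F) : FmP F' := by
  refine ⟨?_, ?_, ?_, ?_, ?_, ?_, ?_⟩
  · rw [e _ (by omega)]; exact h.sc
  · rw [e _ (by omega)]; exact h.ct
  · rw [e _ (by omega)]; exact h.st
  · rw [e _ (by omega), e _ (by omega)]; exact h.wc
  · rw [e _ (by omega), e _ (by omega)]; exact h.wt
  · rw [e _ (by omega), e _ (by omega)]; exact h.us
  · rw [e _ (by omega), e _ (by omega)]; exact h.uc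

theorem fd_congr {F F' : ℕ → Bool} (e : ∀ b < 512, F' b = F b) (h : FmD F) : FmD F' := by
  refine ⟨?_, ?_, ?_, ?_, ?_, ?_⟩
  · rw [e _ (by omega)]; exact h.xy
  · rw [e _ (by omega)]; exact h.xy'
  · rw [e _ (by omega)]; exact h.xw
  · rw [e _ (by omega)]; exact h.yw
  · rw [e _ (by omega)]; exact h.xu
  · rw [e _ (by omega)]; exact h.yu

end Tb

open Tb in
theorem s_T1a : S_T1a := fun _ _ _ _ hg hk xy xw yw h1 h2 h3 h4 =>
  tab1a hg.1 hg.2.1 hg.2.2 (kn_of hk) xy xw yw h1 h2 h3 h4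

open Tb in
theorem s_T1b : S_T1b := fun _ _ _ _ hg hk xy xw yw h1 h2 h3 =>
  tab1b hg.1 hg.2.1 hg.2.2 (kn_of hk) xy xw yw h1 h2 h3

open Tb in
theorem s_T2 : S_T2 := by
  intro V G x F m hg hk hc hw hu
  rcases hc with ⟨rfl, hc⟩ | ⟨rfl, hc⟩ | ⟨rfl, hc⟩
  · exact tab2E hg.1 hg.2.1 hg.2.2 (kn_of hk) (fe_of hc) (mr_of hw) (mr_of hu)
  · exact tab2P hg.1 hg.2.1 hg.2.2 (kn_of hk) (fp_of hc) (mr_of hw) (mr_of hu)
  · exact tab2D hg.1 hg.2.1 hg.2.2 (kn_of hk) (fd_of hc) (mr_of hw) (mr_of hu)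

open Tb in
theorem s_T3 : S_T3 := by
  intro V G x F m h hg hk hc hw hu
  rcases hc with ⟨rfl, hc⟩ | ⟨rfl, hc⟩ | ⟨rfl, hc⟩
  · exact of_wu (tab3E hg.1 hg.2.1 hg.2.2 (kn_of hk) (fe_of hc) (mr_of hw) (mr_of hu))
  · exact of_wu (tab3P hg.1 hg.2.1 hg.2.2 (kn_of hk) (fp_of hc) (mr_of hw) (mr_of hu))
  · exact of_wu (tab3D hg.1 hg.2.1 hg.2.2 (kn_of hk) (fd_of hc) (mr_of hw) (mr_of hu))

open Tb in
theorem s_T4 : S_T4 := by
  intro V G x F m p q e hg hk hc hw hu hwu hz he hd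
  rcases hc with ⟨rfl, hc⟩ | ⟨rfl, hc⟩ | ⟨rfl, hc⟩
  · exact tab4E hg.1 hg.2.1 hg.2.2 (kn_of hk) (fe_of hc) (mr_of hw) (mr_of hu) (wu_of hwu) (zk_of hz) he
      (ne_not hd)
  · exact tab4P hg.1 hg.2.1 hg.2.2 (kn_of hk) (fp_of hc) (mr_of hw) (mr_of hu) (wu_of hwu) (zk_of hz) he
      (ne_not hd)
  · exact tab4D hg.1 hg.2.1 hg.2.2 (kn_of hk) (fd_of hc) (mr_of hw) (mr_of hu) (wu_of hwu) (zk_of hz) he
      (ne_not hd)

open Tb in
theorem s_T5 : S_T5 := by
  intro V G x F p q e hg hk xy xw yw hw hu hwu hz he hd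
  rcases p with _ | _
  · rcases q with _ | _
    · rcases he with he | he | ⟨rfl, he⟩
      · exact absurd he (by decide)
      · exact absurd he (by decide)
      · exact tab5x hg.1 hg.2.1 hg.2.2 (kn_of hk) xy xw yw (mr_of hw) (mr_of hu) (wu_of hwu) (zk_of hz) he
          (ne_not hd)
    · exact tab5 hg.1 hg.2.1 hg.2.2 (kn_of hk) xy xw yw (mr_of hw) (mr_of hu) (wu_of hwu) (zk_of hz)
        (Or.inr rfl) (ne_not hd)
  · exact tab5 hg.1 hg.2.1 hg.2.2 (kn_of hk) xy xw yw (mr_of hw) (mr_of hu) (wu_of hwu) (zk_of hz)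
      (Or.inl rfl) (ne_not hd)

open Tb in
theorem s_T7 : S_T7 := by
  intro V G x F z c hg hk xy xw yw hw hu hwu hz h12 h34
  have e : ∀ b < 512, F1 F c b = F b := fun b hb => f1_lo hb
  refine tab7 hg.1 hg.2.1 (hrz1 (by omega) hg.2.2 hz) (kn_congr (by omega) e (kn_of hk))
    ((e _ (by omega)).trans xy) ((e _ (by omega)).trans xw) ((e _ (by omega)).trans yw)
    (mr_congr (by omega) (by omega) e (mr_of hw)) (mr_congr (by omega) (by omega) e (mr_of hu))
    (wu_congr (by omega) (by omega) e (wu_of hwu)) ?_ ?_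
  · rw [f1_hi, f1_hi]
    exact h12
  · rw [f1_hi, f1_hi]
    exact ne_not h34

open Tb in
theorem s_T8 : S_T8 := by
  intro V G x F m z c hg hk hc hw hu hwu hz h0 hd
  have e : ∀ b < 512, F1 F c b = F b := fun b hb => f1_lo hb
  rcases hc with ⟨rfl, hc⟩ | ⟨rfl, hc⟩ | ⟨rfl, hc⟩
  · refine tab8E hg.1 hg.2.1 (hrz1 (by omega) hg.2.2 hz) (kn_congr (by omega) e (kn_of hk))
      (fe_congr e (fe_of hc)) (mr_congr (by omega) (by omega) e (mr_of hw))
      (mr_congr (by omega) (by omega) e (mr_of hu)) (wu_congr (by omega) (by omega) e (wu_of hwu))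
      (fun a h1 h2 => ?_) ?_
    · rw [f1_hi]
      exact h0 a h1 h2
    · rw [f1_hi, f1_hi]
      exact ne_not hd
  · refine tab8P hg.1 hg.2.1 (hrz1 (by omega) hg.2.2 hz) (kn_congr (by omega) e (kn_of hk))
      (fp_congr e (fp_of hc)) (mr_congr (by omega) (by omega) e (mr_of hw))
      (mr_congr (by omega) (by omega) e (mr_of hu)) (wu_congr (by omega) (by omega) e (wu_of hwu))
      (fun a h1 h2 => ?_) ?_
    · rw [f1_hi]
      exact h0 a h1 h2
    · rw [f1_hi, f1_hi]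
      exact ne_not hd
  · refine tab8D hg.1 hg.2.1 (hrz1 (by omega) hg.2.2 hz) (kn_congr (by omega) e (kn_of hk))
      (fd_congr e (fd_of hc)) (mr_congr (by omega) (by omega) e (mr_of hw))
      (mr_congr (by omega) (by omega) e (mr_of hu)) (wu_congr (by omega) (by omega) e (wu_of hwu))
      (fun a h1 h2 => ?_) ?_
    · rw [f1_hi]
      exact h0 a h1 h2
    · rw [f1_hi, f1_hi]
      exact ne_not hd

open Tb in
theorem s_T9 : S_T9 := by
  intro V G x F m z z' c c' hg hk hc hw hu hwu hz hz' hne h0 hd hd'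
  rcases hc with ⟨rfl, hc⟩ | ⟨rfl, hc⟩ | ⟨rfl, hc⟩
  · obtain ⟨t, hx⟩ := hrz2 (by omega) hg.2.2 hz hz' hne
    have e : ∀ b < 512, F2 F c c' t b = F b := fun b hb => (f2_lo (by omega)).trans (f1_lo hb)
    have e1 : ∀ b < 16, F2 F c c' t (512 + b) = c b := fun b hb => (f2_lo (by omega)).trans f1_hi
    have e2 : ∀ b < 16, F2 F c c' t (528 + b) = c' b := fun b hb => f2_mi hb
    refine tab9E hg.1 hg.2.1 hx (kn_congr (by omega) e (kn_of hk))
      (fe_congr e (fe_of hc)) (mr_congr (by omega) (by omega) e (mr_of hw))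
      (mr_congr (by omega) (by omega) e (mr_of hu)) (wu_congr (by omega) (by omega) e (wu_of hwu))
      (fun a h1 h2 => ?_) ?_ ?_
    · rw [e1 a (by omega), e2 a (by omega)]
      exact h0 a h1 h2
    · rw [e1 _ (by omega), e1 _ (by omega)]
      exact ne_not hd
    · rw [e2 _ (by omega), e2 _ (by omega)]
      exact ne_not hd'
  · obtain ⟨t, hx⟩ := hrz2 (by omega) hg.2.2 hz hz' hne
    have e : ∀ b < 512, F2 F c c' t b = F b := fun b hb => (f2_lo (by omega)).trans (f1_lo hb)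
    have e1 : ∀ b < 16, F2 F c c' t (512 + b) = c b := fun b hb => (f2_lo (by omega)).trans f1_hi
    have e2 : ∀ b < 16, F2 F c c' t (528 + b) = c' b := fun b hb => f2_mi hb
    refine tab9P hg.1 hg.2.1 hx (kn_congr (by omega) e (kn_of hk))
      (fp_congr e (fp_of hc)) (mr_congr (by omega) (by omega) e (mr_of hw))
      (mr_congr (by omega) (by omega) e (mr_of hu)) (wu_congr (by omega) (by omega) e (wu_of hwu))
      (fun a h1 h2 => ?_) ?_ ?_
    · rw [e1 a (by omega), e2 a (by omega)]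
      exact h0 a h1 h2
    · rw [e1 _ (by omega), e1 _ (by omega)]
      exact ne_not hd
    · rw [e2 _ (by omega), e2 _ (by omega)]
      exact ne_not hd'
  · obtain ⟨t, hx⟩ := hrz2 (by omega) hg.2.2 hz hz' hne
    have e : ∀ b < 512, F2 F c c' t b = F b := fun b hb => (f2_lo (by omega)).trans (f1_lo hb)
    have e1 : ∀ b < 16, F2 F c c' t (512 + b) = c b := fun b hb => (f2_lo (by omega)).trans f1_hi
    have e2 : ∀ b < 16, F2 F c c' t (528 + b) = c' b := fun b hb => f2_mi hb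
    refine tab9D hg.1 hg.2.1 hx (kn_congr (by omega) e (kn_of hk))
      (fd_congr e (fd_of hc)) (mr_congr (by omega) (by omega) e (mr_of hw))
      (mr_congr (by omega) (by omega) e (mr_of hu)) (wu_congr (by omega) (by omega) e (wu_of hwu))
      (fun a h1 h2 => ?_) ?_ ?_
    · rw [e1 a (by omega), e2 a (by omega)]
      exact h0 a h1 h2
    · rw [e1 _ (by omega), e1 _ (by omega)]
      exact ne_not hd
    · rw [e2 _ (by omega), e2 _ (by omega)]
      exact ne_not hd'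

/-- **All tables of Block 2.** -/
theorem tabs : Tabs := ⟨s_T1a, s_T1b, s_T2, s_T3, s_T4, s_T5, s_T7, s_T8, s_T9⟩

end Pool.Agent.MPd439b2.RN
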