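import Pool.Agent.Lib.MP_d439b2_co.RN.MxS
import Pool.Agent.Lib.MP_d439b2_co.RN.MxTab

/-!
# MP_d439b2_co, RN/MxL0: the sequence lemmas `S_L0`, `S_L1` for one mixer of every cell (helper32)
-/

set_option autoImplicit false

namespace Pool.Agent.MPd439b2.RN

open Pool.Agent.MPd439b2 Pool.Agent.MPd439b2.Rep Pool.Agent.MPd439b2.FT

/-- **Homogeneous rails for one mixer** of every cell. -/
theorem singR (M : ℕ) (hM : 0 < M) : ∃ N : ℕ, ∀ (V : Type) (G : SimpleGraph V) (v : ℕ → V)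
    (K : ℕ → Set V) (w : ℕ → V), CS G N v K → (∀ k < N, w k ∈ Mx G (K k)) →
    ∃ (s : ℕ → ℕ) (x : ℕ → ℕ → V) (F : ℕ → Bool),
      (∀ k l, k < l → l < M → s k < s l) ∧ (∀ k < M, s k < N) ∧
      RE G M (fun k => v (s k)) (fun k => K (s k)) 2 4 x F ∧
      (F 274 = true ∧ F (256 + 16 + 3) = true ∧ F (256 + 32 + 3) = false) ∧ ∀ k < M, x 3 k = w (s k) := by
  classical
  obtain ⟨N, hN⟩ := hr_exists 4 M (by omega)
  refine ⟨N, fun V G v K w hC hw => ?_⟩
  have hch : ∀ k, ∃ a b : V, k < N → a ∈ K k ∧ b ∈ K k ∧ G.Adj a b ∧ G.Adj (w k) a ∧ ¬ G.Adj (w k) b := by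
    intro k
    by_cases hk : k < N
    · obtain ⟨a, ha, b, hb, h1, h2, h3⟩ := edge (hC.con k hk) (hw k hk)
      exact ⟨a, b, fun _ => ⟨ha, hb, h1, h2, h3⟩⟩
    · exact ⟨v 0, v 0, fun h => absurd h hk⟩
  choose a b hab using hch
  set t : ℕ → ℕ → V := fun i k => if i = 0 then v k else if i = 1 then a k else if i = 2 then b k else w k with ht
  have t0 : ∀ k, t 0 k = v k := fun k => by simp [ht]
  have t1 : ∀ k, t 1 k = a k := fun k => by simp [ht]
  have t2 : ∀ k, t 2 k = b k := fun k => by simp [ht]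
  have t3 : ∀ k, t 3 k = w k := fun k => by simp [ht]
  obtain ⟨s, F, r1, r2, r3⟩ := hN V G t (fun i hi k hk l hl hkl => by
      have hd := (hC.dis k hk l hl hkl).1
      interval_cases i
      · rw [t0, t0]
        exact (hC.vv k hk l hl hkl).1
      · rw [t1, t1]
        exact fun h => Set.disjoint_left.1 hd (hab k hk).1 (h ▸ (hab l hl).1)
      · rw [t2, t2]
        exact fun h => Set.disjoint_left.1 hd (hab k hk).2.1 (h ▸ (hab l hl).2.1)
      · rw [t3, t3]
        exact fun h => hC.mx_mx hk hl hkl (hw k hk) (h ▸ hw l hl))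
    (fun i hi j hj hij k hk => by
      have h0 := hC.vK k hk k hk
      have h1 := hC.v_mx hk hk
      have h2 := hC.mx_nK hk hk (hw k hk)
      obtain ⟨ha, hb, e1, e2, e3⟩ := hab k hk
      have q01 : v k ≠ a k := fun h => h0 (h ▸ ha)
      have q02 : v k ≠ b k := fun h => h0 (h ▸ hb)
      have q03 : v k ≠ w k := fun h => h1 (h ▸ hw k hk)
      have q12 : a k ≠ b k := e1.ne
      have q13 : a k ≠ w k := e2.ne'
      have q23 : b k ≠ w k := fun h => h2 (h ▸ hb)
      interval_cases i <;> interval_cases j <;> first | exact absurd rfl hij | skip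
      all_goals simp only [t0, t1, t2, t3]
      all_goals first | assumption | (apply Ne.symm; assumption))
  have hx0 : ∀ k < M, t 0 (s k) = v (s k) := fun k _ => t0 _
  refine ⟨s, fun i k => t i (s k), F, r1, r2, ⟨r3, by omega, by omega, hx0, fun c hc hc' k hk => ?_⟩, ⟨?_, ?_, ?_⟩,
    fun k _ => t3 _⟩
  · have : c = 1 ∨ c = 2 := by omega
    rcases this with rfl | rfl
    · show t 1 (s k) ∈ K (s k)
      rw [t1]
      exact (hab _ (r2 k hk)).1
    · show t 2 (s k) ∈ K (s k)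
      rw [t2]
      exact (hab _ (r2 k hk)).2.1
  · refine (r3.dg 1 (by omega) 2 (by omega) (by omega) 0 hM).1 ?_
    show G.Adj (t 1 (s 0)) (t 2 (s 0))
    rw [t1, t2]
    exact (hab _ (r2 0 hM)).2.2.1
  · refine (r3.dg 1 (by omega) 3 (by omega) (by omega) 0 hM).1 ?_
    show G.Adj (t 1 (s 0)) (t 3 (s 0))
    rw [t1, t3]
    exact (hab _ (r2 0 hM)).2.2.2.1.symm
  · have h1 := (r3.dg 2 (by omega) 3 (by omega) (by omega) 0 hM).not.1 (by
      show ¬ G.Adj (t 2 (s 0)) (t 3 (s 0))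
      rw [t2, t3]
      exact fun h => (hab _ (r2 0 hM)).2.2.2.2 h.symm)
    rw [Bool.not_eq_true] at h1
    exact h1

theorem l0 : S_L0 := by
  intro h
  obtain ⟨N, hN⟩ := singR 16 (by omega)
  refine ⟨N, fun V G v K w hH hJ hC hw => ?_⟩
  obtain ⟨s, x, F, s1, s2, hr, ⟨g1, g2, g3⟩, hx⟩ := hN V G v K w hC fun k hk => (hw k hk).1
  have hC' := hC.comp s1 s2
  have kw : ∀ k < 16, Kd G 16 (fun j => K (s j)) k (x 3 k) true h := fun k hk => by
    rw [hx k hk]
    exact (hw _ (s2 k hk)).2.1.comp s1 s2 hk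
  have d12 : G.Adj (x 1 0) (x 2 0) := (hr.hr.dg 1 (by omega) 2 (by omega) (by omega) 0 (by omega)).2 g1
  have d13 : G.Adj (x 3 0) (x 1 0) := ((hr.hr.dg 1 (by omega) 3 (by omega) (by omega) 0 (by omega)).2 g2).symm
  have d23 : ¬ G.Adj (x 3 0) (x 2 0) := fun h' => by
    have h2 : F (256 + 16 * 2 + 3) = true := (hr.hr.dg 2 (by omega) 3 (by omega) (by omega) 0 (by omega)).1 h'.symm
    have h3 : F (256 + 16 * 2 + 3) = false := g3
    rw [h2] at h3
    exact absurd h3 (by decide)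
  have hm := hr.mr hC' le_rfl hH hJ tabs.t1b (r := 3) (by omega) (by omega) kw (a := 1) (b := 2) (by omega)
    (by omega) (by omega) (by omega) d12 d13 d23
  have h4 : G.Adj (x 0 0) (x 3 0) := (hr.hr.dg 0 (by omega) 3 (by omega) (by omega) 0 (by omega)).2 hm.2.2.2.1
  rw [hr.x0 0 (by omega), hx 0 (by omega)] at h4
  exact (hw _ (s2 0 (by omega))).2.2 h4

theorem l1 : S_L1 := by
  obtain ⟨N, hN⟩ := singR 16 (by omega)
  refine ⟨N, fun V G v K w hH hJ hC hw => ?_⟩
  obtain ⟨s, x, F, s1, s2, hr, ⟨g1, g2, g3⟩, hx⟩ := hN V G v K w hC fun k hk => (hw k hk).1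
  have hC' := hC.comp s1 s2
  have kw : ∀ k < 16, Kd G 16 (fun j => K (s j)) k (x 3 k) false true := fun k hk => by
    rw [hx k hk]
    exact (hw _ (s2 k hk)).2.comp s1 s2 hk
  have f1 : ∀ c, 1 ≤ c → c ≤ 2 → F (16 * 3 + c) = false ∧ F (16 * c + 3) = true := by
    intro c hc hc'
    constructor
    · rw [← Bool.not_eq_true]
      exact fun h => ((kw 0 (by omega)).1 1 (by omega) (by omega)).2 rfl _ (hr.xK c hc hc' 1 (by omega))
        ((hr.hr.rel 3 (by omega) c (by omega) 0 1 (by omega) (by omega)).2 h)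
    · exact (hr.hr.rel c (by omega) 3 (by omega) 0 1 (by omega) (by omega)).1
        (((kw 1 (by omega)).2 0 (by omega)).1 rfl _ (hr.xK c hc hc' 0 (by omega))).symm
  exact tabs.t1a V G x F ⟨hH, hJ, hr.hr⟩ (hr.kr hC' (by omega)) g1 g2 g3 (f1 1 (by omega) (by omega)).1
    (f1 2 (by omega) (by omega)).1 (f1 1 (by omega) (by omega)).2 (f1 2 (by omega) (by omega)).2

end Pool.Agent.MPd439b2.RN
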