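import Pool.Agent.Lib.MP_d439b2_co.RN.MxM
import Pool.Agent.Lib.MP_d439b2_co.RN.MxTab

/-!
# MP_d439b2_co, RN/MxL2: the sequence lemmas `S_L2`, `S_L3` (helper32)
-/

set_option autoImplicit false

namespace Pool.Agent.MPd439b2.RN

open Pool.Agent.MPd439b2 Pool.Agent.MPd439b2.Rep Pool.Agent.MPd439b2.FT

theorem l2 : S_L2 := by
  obtain ⟨N, hN⟩ := pairM tabs 16 0 (by omega) le_rfl true false
  refine ⟨N, fun V G v K w u hH hJ hC hw => ?_⟩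
  obtain ⟨m, s, x, F, -, -, -, hr, ⟨hk, hcf⟩, ⟨mw, mu, -⟩, -, -, -⟩ := hN V G v K w u w hH hJ hC hw
    (fun h => absurd h (by omega))
  exact tabs.t2 V G x F m ⟨hH, hJ, hr.hr⟩ hk hcf mw mu

theorem l3 : S_L3 := by
  intro h
  obtain ⟨N, hN⟩ := pairM tabs 16 0 (by omega) le_rfl h h
  refine ⟨N, fun V G v K w u hH hJ hC hw => ?_⟩
  obtain ⟨m, s, x, F, -, ⟨-, s2⟩, -, hr, -, ⟨-, -, hwu⟩, -, hx, -⟩ := hN V G v K w u w hH hJ hC
    (fun k hk => ⟨(hw k hk).1, (hw k hk).2.1, (hw k hk).2.2.1⟩) (fun h => absurd h (by omega))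
  have h1 := (hr.hr.dg (m + 1) (by omega) (m + 2) (by omega) (by omega) 0 (by omega)).2 (hwu rfl).2.2
  rw [(hx 0 (by omega)).1, (hx 0 (by omega)).2] at h1
  exact (hw _ (s2 0 (by omega))).2.2.2 h1

end Pool.Agent.MPd439b2.RN
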