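import Pool.Agent.Lib.MP_d439b2_co.RN.MxM
import Pool.Agent.Lib.MP_d439b2_co.RN.MxTab

/-!
# MP_d439b2_co, RN/MxL4: the sequence lemma `S_L4` (helper32)
-/

set_option autoImplicit false

namespace Pool.Agent.MPd439b2.RN

open Pool.Agent.MPd439b2 Pool.Agent.MPd439b2.Rep Pool.Agent.MPd439b2.FT

section

variable {V : Type} {G : SimpleGraph V}

/-- a vertex outside `X(K)` is complete or anticomplete to `K` -/
theorem nXK {K : Set V} {z : V} (h : z ∉ XK G K) {a b : V} (ha : a ∈ K) (hb : b ∈ K) : G.Adj z a ↔ G.Adj z b := by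
  have h1 : z ∉ K := fun h' => h (Or.inl h')
  have h2 : ¬ (¬ CoK G z K ∧ ¬ AnK G z K) := fun h' => h (Or.inr ⟨h1, h'.1, h'.2⟩)
  rw [not_and_or, not_not, not_not] at h2
  rcases h2 with h2 | h2
  · exact ⟨fun _ => h2 b hb, fun _ => h2 a ha⟩
  · exact ⟨fun h' => absurd h' (h2 a ha), fun h' => absurd h' (h2 b hb)⟩

/-- a vertex which has the same bits on two cells is not mixed -/
theorem CS.nm2 {n : ℕ} {v : ℕ → V} {K : ℕ → Set V} (h : CS G n v K) {k l : ℕ} (hk : k < n) (hl : l < n)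
    (hkl : k ≠ l) {b x y x' y' : V} (hx : x ∈ K k) (hy : y ∈ K k) (hx' : x' ∈ K l) (hy' : y' ∈ K l)
    (h1 : G.Adj b x ↔ G.Adj b x') (h2 : G.Adj b y ↔ G.Adj b y') : G.Adj b x ↔ G.Adj b y := by
  by_contra hcon
  by_cases h3 : G.Adj b x
  · have h4 : ¬ G.Adj b y := fun h4 => hcon ⟨fun _ => h4, fun _ => h3⟩
    exact h.no_mix2 hk hl hkl hx hy hx' hy' h3 h4 (h1.1 h3) (fun h5 => h4 (h2.2 h5))
  · have h4 : G.Adj b y := by
      by_contra h4
      exact hcon ⟨fun h5 => absurd h5 h3, fun h5 => absurd h5 h4⟩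
    exact h.no_mix2 hk hl hkl hy hx hy' hx' h4 h3 (h2.1 h4) (fun h5 => h3 (h1.2 h5))

/-- **Outer rails**: a rail of vertices outside `X(K)` is constant on the cells. -/
theorem RE.zr {M : ℕ} {v : ℕ → V} {K : ℕ → Set V} {m L : ℕ} {x : ℕ → ℕ → V} {F : ℕ → Bool}
    (h : RE G M v K m L x F) (hC : CS G M v K) (hM : 3 ≤ M) (hm : 1 ≤ m) {r : ℕ} (hr : m < r) (hrL : r < L)
    (hz : ∀ k < M, x r k ∉ XK G (K k)) :
    ∃ p q e, Zr F m r p q e ∧ (e = true → p = true ∨ q = true) := by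
  have rel := h.hr.rel
  have dg := h.hr.dg
  refine ⟨F (16 * r + 1), F (16 * 1 + r), F (256 + 16 * 1 + r), fun a ha ha' => ⟨?_, ?_, ?_⟩, fun he => ?_⟩
  · rw [Bool.eq_iff_iff, ← rel r hrL a (by omega) 0 1 (by omega) (by omega),
      ← rel r hrL 1 (by omega) 0 1 (by omega) (by omega)]
    refine hC.nm2 (k := 1) (l := 2) (by omega) (by omega) (by omega) (h.xK a ha ha' 1 (by omega))
      (h.xK 1 le_rfl hm 1 (by omega)) (h.xK a ha ha' 2 (by omega)) (h.xK 1 le_rfl hm 2 (by omega)) ?_ ?_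
    · rw [rel r hrL a (by omega) 0 1 (by omega) (by omega), rel r hrL a (by omega) 0 2 (by omega) (by omega)]
    · rw [rel r hrL 1 (by omega) 0 1 (by omega) (by omega), rel r hrL 1 (by omega) 0 2 (by omega) (by omega)]
  · rw [Bool.eq_iff_iff, ← rel a (by omega) r hrL 0 2 (by omega) (by omega),
      ← rel 1 (by omega) r hrL 0 2 (by omega) (by omega), G.adj_comm (x a 0), G.adj_comm (x 1 0)]
    refine hC.nm2 (k := 0) (l := 1) (by omega) (by omega) (by omega) (h.xK a ha ha' 0 (by omega))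
      (h.xK 1 le_rfl hm 0 (by omega)) (h.xK a ha ha' 1 (by omega)) (h.xK 1 le_rfl hm 1 (by omega)) ?_ ?_
    · rw [G.adj_comm, G.adj_comm _ (x a 1), rel a (by omega) r hrL 0 2 (by omega) (by omega),
        rel a (by omega) r hrL 1 2 (by omega) (by omega)]
    · rw [G.adj_comm, G.adj_comm _ (x 1 1), rel 1 (by omega) r hrL 0 2 (by omega) (by omega),
        rel 1 (by omega) r hrL 1 2 (by omega) (by omega)]
  · rw [Bool.eq_iff_iff, ← dg a (by omega) r hrL (by omega) 0 (by omega),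
      ← dg 1 (by omega) r hrL (by omega) 0 (by omega), G.adj_comm, G.adj_comm (x 1 0)]
    exact nXK (hz 0 (by omega)) (h.xK a ha ha' 0 (by omega)) (h.xK 1 le_rfl hm 0 (by omega))
  · have h1 : G.Adj (x r 1) (x 1 1) := ((dg 1 (by omega) r hrL (by omega) 1 (by omega)).2 he).symm
    have h2 : x r 1 ∉ K 1 := fun h' => hz 1 (by omega) (Or.inl h')
    rcases hC.big 1 (by omega) (x r 1) h2 (fun h' => h' _ (h.xK 1 le_rfl hm 1 (by omega)) h1) with h3 | h3
    · left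
      exact (rel r hrL 1 (by omega) 1 2 (by omega) (by omega)).1
        (h3 2 (by omega) (by omega) _ (h.xK 1 le_rfl hm 2 (by omega)))
    · right
      exact (rel 1 (by omega) r hrL 0 1 (by omega) (by omega)).1
        (h3 0 (by omega) _ (h.xK 1 le_rfl hm 0 (by omega))).symm

end

/-- thick mixers are not distinguished by an injective sequence -/
theorem l4a : ∃ N : ℕ, ∀ (V : Type) (G : SimpleGraph V) (v : ℕ → V) (K : ℕ → Set V) (w u z : ℕ → V),
  H1T.FH G → H1T.FJ 2 G → CS G N v K →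
    (∀ k < N, MK G N v K true k (w k) ∧ MK G N v K true k (u k) ∧ w k ≠ u k ∧
      Ds G (K k) (w k) (u k) (z k)) → ¬ ∀ k < N, ∀ l < N, k ≠ l → z k ≠ z l := by
  obtain ⟨N, hN⟩ := pairM tabs 16 1 le_rfl le_rfl true true
  refine ⟨N, fun V G v K w u z hH hJ hC hw hinj => ?_⟩
  have hzv : ∀ k < N, z k ≠ v k := fun k hk h => by
    obtain ⟨h1, h2, -, h3⟩ := hw k hk
    rw [h] at h3
    exact h3.2 ⟨fun _ => h2.2.2.symm, fun _ => h1.2.2.symm⟩
  obtain ⟨m, s, x, F, ⟨m2, m4⟩, ⟨s1, s2⟩, hC', hr, ⟨hk, hcf⟩, ⟨mw, mu, hwu⟩, -, hx, hxz⟩ :=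
    hN V G v K w u z hH hJ hC (fun k hk => ⟨(hw k hk).1, (hw k hk).2.1, (hw k hk).2.2.1⟩)
      (fun _ => ⟨fun k hk => ⟨(hw k hk).2.2.2.1, hzv k hk⟩, hinj⟩)
  obtain ⟨p, q, e, hz, he⟩ := hr.zr hC' (by omega) (by omega) (r := m + 3) (by omega) (by omega) (fun k hk => by
    rw [hxz k hk]
    exact (hw _ (s2 k hk)).2.2.2.1)
  refine tabs.t4 V G x F m p q e ⟨hH, hJ, hr.hr⟩ hk hcf mw mu (hwu rfl) hz he ?_
  intro h
  have h1 := hr.hr.dg (m + 1) (by omega) (m + 3) (by omega) (by omega) 0 (by omega)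
  have h2 := hr.hr.dg (m + 2) (by omega) (m + 3) (by omega) (by omega) 0 (by omega)
  rw [(hx 0 (by omega)).1, hxz 0 (by omega)] at h1
  rw [(hx 0 (by omega)).2, hxz 0 (by omega), ← h, ← h1] at h2
  exact (hw _ (s2 0 (by omega))).2.2.2.2 h2.symm

/-- thick mixers are not distinguished by two fixed vertices -/
theorem l4b : ∃ N : ℕ, ∀ (V : Type) (G : SimpleGraph V) (v : ℕ → V) (K : ℕ → Set V) (w u : ℕ → V) (z z' : V),
  H1T.FH G → H1T.FJ 2 G → CS G N v K → z ≠ z' →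
    (∀ k < N, MK G N v K true k (w k) ∧ MK G N v K true k (u k) ∧ w k ≠ u k ∧
      Ds G (K k) (w k) (u k) z ∧ Ds G (K k) (w k) (u k) z') → False := by
  classical
  obtain ⟨M, hM⟩ := pig ((Fin 16 → Bool) × (Fin 16 → Bool)) 16
  obtain ⟨N, hN⟩ := pairM tabs (M + 16) 0 (by omega) (by omega) true true
  refine ⟨N, fun V G v K w u z z' hH hJ hC hne hw => ?_⟩
  obtain ⟨m, s, x, F, ⟨m2, m4⟩, ⟨s1, s2⟩, hC', hr, ⟨hk, hcf⟩, ⟨mw, mu, hwu⟩, -, hx, -⟩ :=
    hN V G v K w u w hH hJ hC (fun k hk => ⟨(hw k hk).1, (hw k hk).2.1, (hw k hk).2.2.1⟩)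
      (fun h => absurd h (by omega))
  -- the fixed vertices are not in the rails
  have key : ∀ y : V, (∀ k < N, Ds G (K k) (w k) (u k) y) → ∀ i < m + 3, ∀ k < M + 16, y ≠ x i k := by
    intro y hy i hi k hk h
    obtain ⟨h1, h2⟩ := hy _ (s2 k hk)
    obtain ⟨g1, g2, -, -⟩ := hw _ (s2 k hk)
    rcases Nat.eq_zero_or_pos i with rfl | h0
    · rw [h, hr.x0 k hk] at h2
      exact h2 ⟨fun _ => g2.2.2.symm, fun _ => g1.2.2.symm⟩
    · by_cases him : i ≤ m
      · exact h1 (Or.inl (h ▸ hr.xK i h0 him k hk))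
      · have : i = m + 1 ∨ i = m + 2 := by omega
        rcases this with rfl | rfl
        · rw [(hx k hk).1] at h
          exact h1 (Or.inr (h ▸ g1.1))
        · rw [(hx k hk).2] at h
          exact h1 (Or.inr (h ▸ g2.1))
  obtain ⟨t, c, t1, t2, t3⟩ := hM fun k => (fun i => decide (G.Adj z (x i k)), fun i => decide (G.Adj z' (x i k)))
  set y : ℕ → ℕ → V := fun i k => x i (t k) with hy
  have hyr : HR G (m + 3) 16 y F := by
    refine ⟨fun i hi j hj k hk l hl hkl => hr.hr.dis i hi j hj _ (by have := t2 k hk; omega) _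
      (by have := t2 l hl; omega) ?_, fun i hi j hj k l hkl hl => hr.hr.rel i hi j hj _ _ (t1 k l hkl hl)
      (by have := t2 l hl; omega), fun i hi j hj hij k hk => hr.hr.dg i hi j hj hij _ (by have := t2 k hk; omega)⟩
    rcases hkl with h | h
    · exact Or.inl h
    · right
      rcases lt_or_gt_of_ne h with h | h
      · exact (t1 k l h hl).ne
      · exact (t1 l k h hk).ne'
  have fx : Fx G (m + 3) 16 y z (fun i => c.1 (Fin.ofNat 16 i)) := by
    refine ⟨fun i hi k hk => key z (fun k hk => (hw k hk).2.2.2.1) i hi _ (by have := t2 k hk; omega),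
      fun i hi k hk => ?_⟩
    have e1 : ((Fin.ofNat 16 i : Fin 16) : ℕ) = i := Nat.mod_eq_of_lt (by omega)
    rw [← t3 k hk, decide_eq_true_iff, e1]
  have fx' : Fx G (m + 3) 16 y z' (fun i => c.2 (Fin.ofNat 16 i)) := by
    refine ⟨fun i hi k hk => key z' (fun k hk => (hw k hk).2.2.2.2) i hi _ (by have := t2 k hk; omega),
      fun i hi k hk => ?_⟩
    have e1 : ((Fin.ofNat 16 i : Fin 16) : ℕ) = i := Nat.mod_eq_of_lt (by omega)
    rw [← t3 k hk, decide_eq_true_iff, e1]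
  -- constant on the cells, different on the mixers
  have gen : ∀ (q : V) (d : ℕ → Bool), (∀ k < N, Ds G (K k) (w k) (u k) q) → Fx G (m + 3) 16 y q d →
      (∀ a, 1 ≤ a → a ≤ m → d a = d 1) ∧ d (m + 1) ≠ d (m + 2) := by
    intro q d hq hf
    have h0 : t 0 < M + 16 := by have := t2 0 (by omega); omega
    constructor
    · intro a ha ha'
      rw [Bool.eq_iff_iff, ← hf.ad a (by omega) 0 (by omega), ← hf.ad 1 (by omega) 0 (by omega)]
      exact nXK (hq _ (s2 _ h0)).1 (hr.xK a ha ha' _ h0) (hr.xK 1 le_rfl (by omega) _ h0)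
    · intro h
      have h1 := hf.ad (m + 1) (by omega) 0 (by omega)
      have h2 := hf.ad (m + 2) (by omega) 0 (by omega)
      rw [← h, ← h1] at h2
      change G.Adj q (x (m + 2) (t 0)) ↔ G.Adj q (x (m + 1) (t 0)) at h2
      rw [(hx _ h0).1, (hx _ h0).2, G.adj_comm, G.adj_comm q] at h2
      exact (hq _ (s2 _ h0)).2 h2.symm
  obtain ⟨a1, a2⟩ := gen z _ (fun k hk => (hw k hk).2.2.2.1) fx
  obtain ⟨b1, b2⟩ := gen z' _ (fun k hk => (hw k hk).2.2.2.2) fx'
  rcases hc1 : c.1 (Fin.ofNat 16 1) with _ | _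
  · exact tabs.t8 V G y F m z _ ⟨hH, hJ, hyr⟩ hk hcf mw mu (hwu rfl) fx
      (fun a ha ha' => (a1 a ha ha').trans hc1) a2
  · rcases hc2 : c.2 (Fin.ofNat 16 1) with _ | _
    · exact tabs.t8 V G y F m z' _ ⟨hH, hJ, hyr⟩ hk hcf mw mu (hwu rfl) fx'
        (fun a ha ha' => (b1 a ha ha').trans hc2) b2
    · exact tabs.t9 V G y F m z z' _ _ ⟨hH, hJ, hyr⟩ hk hcf mw mu (hwu rfl) fx fx' hne
        (fun a ha ha' => ⟨(a1 a ha ha').trans hc1, (b1 a ha ha').trans hc2⟩) a2 b2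

theorem MK.sub {V : Type} {G : SimpleGraph V} {n N : ℕ} {v : ℕ → V} {K : ℕ → Set V} {h : Bool} {s : ℕ → ℕ}
    (hs : ∀ k l, k < l → l < N → s k < s l) (hn : ∀ k < N, s k < n) {w : ℕ → V}
    (hw : ∀ k < n, MK G n v K h k (w k)) :
    ∀ k < N, MK G N (fun j => v (s j)) (fun j => K (s j)) h k (w (s k)) :=
  fun k hk => (hw _ (hn k hk)).comp hs hn hk

theorem l4 : S_L4 := by
  obtain ⟨N1, h1⟩ := l4a
  obtain ⟨N2, h2⟩ := l4b
  obtain ⟨N3, h3⟩ := const_or_inj (N1 + N2 + 1)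
  obtain ⟨N, hN⟩ := const_or_inj N3
  refine ⟨N, fun V G v K w u z z' hH hJ hC hw => ?_⟩
  have sub1 : ∀ (y : ℕ → V), (∀ k < N, Ds G (K k) (w k) (u k) (y k)) → ∀ (s : ℕ → ℕ) (M : ℕ), N1 ≤ M →
      (∀ k l, k < l → l < M → s k < s l) → (∀ k < M, s k < N) →
      (∀ k < M, ∀ l < M, k ≠ l → y (s k) ≠ y (s l)) → False := by
    intro y hy s M hM s1 s2 s3
    have s1' : ∀ k l, k < l → l < N1 → s k < s l := fun k l hkl hl => s1 k l hkl (by omega)
    have s2' : ∀ k < N1, s k < N := fun k hk => s2 k (by omega)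
    exact h1 V G (fun k => v (s k)) (fun k => K (s k)) (fun k => w (s k)) (fun k => u (s k)) (fun k => y (s k)) hH hJ
      (hC.comp s1' s2') (fun k hk => ⟨(hw _ (s2' k hk)).1.comp s1' s2' hk,
        (hw _ (s2' k hk)).2.1.comp s1' s2' hk, (hw _ (s2' k hk)).2.2.1, hy _ (s2' k hk)⟩)
      (fun k hk l hl hkl => s3 k (by omega) l (by omega) hkl)
  obtain ⟨s, s1, s2, s3⟩ := hN V z
  obtain ⟨t, t1, t2, t3⟩ := h3 V fun k => z' (s k)
  have st1 : ∀ k l, k < l → l < N1 + N2 + 1 → s (t k) < s (t l) := fun k l hkl hl =>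
    s1 _ _ (t1 k l hkl hl) (t2 l hl)
  have st2 : ∀ k < N1 + N2 + 1, s (t k) < N := fun k hk => s2 _ (t2 k hk)
  rcases s3 with s3 | s3
  · rcases t3 with t3 | t3
    · have st1' : ∀ k l, k < l → l < N2 → s (t k) < s (t l) := fun k l hkl hl => st1 k l hkl (by omega)
      have st2' : ∀ k < N2, s (t k) < N := fun k hk => st2 k (by omega)
      refine h2 V G (fun k => v (s (t k))) (fun k => K (s (t k))) (fun k => w (s (t k))) (fun k => u (s (t k)))
        (z (s (t 0))) (z' (s (t 0))) hH hJ (hC.comp (s := fun k => s (t k)) st1' st2')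
        (hw _ (st2 0 (by omega))).2.2.2.1 fun k hk => ?_
      obtain ⟨g1, g2, g3, g4, g5, g6⟩ := hw _ (st2' k hk)
      refine ⟨g1.comp (s := fun k => s (t k)) st1' st2' hk, g2.comp (s := fun k => s (t k)) st1' st2' hk, g3, ?_, ?_⟩
      · rw [s3 (t 0) (t2 0 (by omega)) (t k) (t2 k (by omega))]
        exact g5
      · rw [t3 0 (by omega) k (by omega)]
        exact g6
    · exact sub1 z' (fun k hk => (hw k hk).2.2.2.2.2) (fun k => s (t k)) _ (by omega) st1 st2 t3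
  · refine sub1 z (fun k hk => (hw k hk).2.2.2.2.1) (fun k => s (t k)) _ (by omega) st1 st2
      (fun k hk l hl hkl => s3 _ (t2 k hk) _ (t2 l hl) ?_)
    rcases lt_or_gt_of_ne hkl with h | h
    · exact (t1 k l h hl).ne
    · exact (t1 l k h hk).ne'

end Pool.Agent.MPd439b2.RN
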