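import Pool.Agent.Lib.MP_d439b2_co.RN.MxM

/-!
# MP_d439b2_co, RN/MxL5: three half mixers with three rows give a rich cell (helper28)
-/

set_option autoImplicit false

namespace Pool.Agent.MPd439b2.RN

open Pool.Agent.MPd439b2 Pool.Agent.MPd439b2.Rep Pool.Agent.MPd439b2.FT

variable {V : Type} {G : SimpleGraph V}

namespace L5

theorem mono_ne {M : ℕ} {s : ℕ → ℕ} (hs : ∀ k l, k < l → l < M → s k < s l) {k l : ℕ} (hk : k < M) (hl : l < M)
    (h : k ≠ l) : s k ≠ s l := by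
  rcases lt_or_gt_of_ne h with h2 | h2
  · exact (hs k l h2 hl).ne
  · exact (hs l k h2 hk).ne'

theorem mono_ge {M : ℕ} {s : ℕ → ℕ} (hs : ∀ k l, k < l → l < M → s k < s l) : ∀ k < M, k ≤ s k := by
  intro k
  induction k with
  | zero => exact fun _ => Nat.zero_le _
  | succ k ih =>
    intro hk
    have h1 := ih (by omega)
    have h2 := hs k (k + 1) (by omega) hk
    omega

/-- homogeneous rails on a subsequence -/
theorem hr_comp {L M M' : ℕ} {x : ℕ → ℕ → V} {F : ℕ → Bool} (h : HR G L M x F) {s : ℕ → ℕ}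
    (hs : ∀ k l, k < l → l < M' → s k < s l) (hn : ∀ k < M', s k < M) :
    HR G L M' (fun i k => x i (s k)) F :=
  ⟨fun i hi j hj k hk l hl hkl => h.dis i hi j hj _ (hn k hk) _ (hn l hl)
      (hkl.imp id fun h1 => mono_ne hs hk hl h1),
    fun i hi j hj k l hkl hl => h.rel i hi j hj _ _ (hs k l hkl hl) (hn l hl),
    fun i hi j hj hij k hk => h.dg i hi j hj hij _ (hn k hk)⟩

/-- mixer bits of selected rails -/
theorem mr_sel {F : ℕ → Bool} {σ : ℕ → ℕ} {m m' r r' : ℕ} {h : Bool} (h0 : σ 0 = 0) (hr : σ r' = r) (hr' : r' < 16)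
    (hm' : m' < 16) (ha : ∀ a, 1 ≤ a → a ≤ m' → 1 ≤ σ a ∧ σ a ≤ m) (hM : Mr F m r h) :
    Mr (sbt σ F) m' r' h := by
  obtain ⟨h1, h2, h3, h4, h5⟩ := hM
  refine ⟨?_, ?_, ?_, ?_, fun a ha1 ha2 => ?_⟩
  · rw [show 17 * r' = 16 * r' + r' from by ring, sbt_lt σ F hr' hr', hr, show 16 * r + r = 17 * r from by ring]
    exact h1
  · have := sbt_lt σ F (show 0 < 16 by omega) hr'
    rw [h0, hr, Nat.mul_zero, Nat.zero_add, Nat.zero_add] at this
    rw [this]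
    exact h2
  · have := sbt_lt σ F hr' (show 0 < 16 by omega)
    rw [h0, hr, Nat.add_zero, Nat.add_zero] at this
    rw [this]
    exact h3
  · have := sbt_ge σ F (i := 0) (j := r') hr'
    rw [h0, hr, Nat.zero_min, Nat.zero_max, Nat.mul_zero, Nat.add_zero] at this
    rw [this]
    exact h4
  · obtain ⟨k1, k2⟩ := ha a ha1 ha2
    obtain ⟨k3, k4⟩ := h5 _ k1 k2
    rw [sbt_lt σ F hr' (by omega), sbt_lt σ F (by omega) hr', hr]
    exact ⟨k3, k4⟩

/-- the rails `v, x, y, w, u` (and `z`) -/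
theorem sel5 {M m e : ℕ} {v : ℕ → V} {K : ℕ → Set V} {x : ℕ → ℕ → V} {F : ℕ → Bool} (hM : 16 ≤ M) (he : e ≤ 1)
    (hm : 2 ≤ m ∧ m ≤ 4) (hC : CS G M v K) (hr : RE G M v K m (m + 3 + e) x F) (mw : Mr F m (m + 1) false)
    (mu : Mr F m (m + 2) false) (wu : Wu F (m + 1) (m + 2))
    (hc : CfK G m (fun i => x i 0) (x (m + 1) 0) (x (m + 2) 0)) :
    ∃ (x' : ℕ → ℕ → V) (F' : ℕ → Bool), RE G M v K 2 (5 + e) x' F' ∧ Kr F' 2 ∧
      (F' 274 = true ∧ F' (256 + 16 + 3) = true ∧ F' (256 + 32 + 3) = false) ∧ Mr F' 2 3 false ∧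
      Mr F' 2 4 false ∧ Wu F' 3 4 ∧ ∀ k, x' 3 k = x (m + 1) k ∧ x' 4 k = x (m + 2) k ∧ x' 5 k = x (m + 3) k := by
  obtain ⟨a, b, ha, hb, e1, e2, e3⟩ := hc.edw
  have hab : a ≠ b := fun h' => e3 (h' ▸ e2)
  obtain ⟨σ, hσ⟩ : ∃ σ : ℕ → ℕ, σ = fun i => if i = 0 then 0 else if i = 1 then a else if i = 2 then b else
    i + m - 2 := ⟨_, rfl⟩
  have s0 : σ 0 = 0 := by simp [hσ]
  have s1 : σ 1 = a := by simp [hσ]
  have s2 : σ 2 = b := by simp [hσ]
  have s3 : σ 3 = m + 1 := by simp [hσ]; omega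
  have s4 : σ 4 = m + 2 := by simp [hσ]; omega
  have s5 : σ 5 = m + 3 := by simp [hσ]; omega
  have hsel : HR G (5 + e) M (fun i => x (σ i)) (sbt σ F) := by
    refine hr_sel hr.hr (by omega) (fun i hi => ?_) (fun i hi j hj hij => ?_)
    · rw [hσ]
      dsimp only
      split_ifs <;> omega
    · rw [hσ]
      dsimp only
      split_ifs <;> omega
  have hre : RE G M v K 2 (5 + e) (fun i => x (σ i)) (sbt σ F) := by
    refine ⟨hsel, by omega, by omega, fun k hk => ?_, fun c hc hc' k hk => ?_⟩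
    · show x (σ 0) k = v k
      rw [s0]
      exact hr.x0 k hk
    · have : c = 1 ∨ c = 2 := by omega
      rcases this with rfl | rfl
      · show x (σ 1) k ∈ K k
        rw [s1]
        exact hr.xK a ha.1 ha.2 k hk
      · show x (σ 2) k ∈ K k
        rw [s2]
        exact hr.xK b hb.1 hb.2 k hk
  have hsa : ∀ c, 1 ≤ c → c ≤ 2 → 1 ≤ σ c ∧ σ c ≤ m := by
    intro c hc hc'
    have : c = 1 ∨ c = 2 := by omega
    rcases this with rfl | rfl
    · rw [s1]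
      exact ha
    · rw [s2]
      exact hb
  refine ⟨fun i => x (σ i), sbt σ F, hre, hre.kr hC (by omega), ⟨?_, ?_, ?_⟩,
    mr_sel s0 s3 (by omega) (by omega) hsa mw, mr_sel s0 s4 (by omega) (by omega) hsa mu, ⟨?_, ?_, ?_⟩,
    fun k => ⟨by show x (σ 3) k = _; rw [s3], by show x (σ 4) k = _; rw [s4], by show x (σ 5) k = _; rw [s5]⟩⟩
  · have := (hsel.dg 1 (by omega) 2 (by omega) (by omega) 0 (by omega)).1
      (by show G.Adj (x (σ 1) 0) (x (σ 2) 0); rw [s1, s2]; exact e1)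
    exact this
  · have := (hsel.dg 1 (by omega) 3 (by omega) (by omega) 0 (by omega)).1
      (by show G.Adj (x (σ 1) 0) (x (σ 3) 0); rw [s1, s3]; exact e2.symm)
    exact this
  · have := (hsel.dg 2 (by omega) 3 (by omega) (by omega) 0 (by omega)).not.1
      (by show ¬ G.Adj (x (σ 2) 0) (x (σ 3) 0); rw [s2, s3]; exact fun h' => e3 h'.symm)
    rw [Bool.not_eq_true] at this
    exact this
  · rw [sbt_lt σ F (by omega) (by omega), s3, s4]
    exact wu.1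
  · rw [sbt_lt σ F (by omega) (by omega), s3, s4]
    exact wu.2.1
  · rw [sbt_ge σ F (by omega), s3, s4, min_eq_left (by omega), max_eq_right (by omega)]
    exact wu.2.2

/-- the data of the lemmas on `z` -/
def Dz (G : SimpleGraph V) (N : ℕ) (v : ℕ → V) (K : ℕ → Set V) (w u z : ℕ → V) : Prop :=
  ∀ k < N, MK G N v K false k (w k) ∧ MK G N v K false k (u k) ∧ w k ≠ u k ∧ z k ∉ XK G (K k) ∧
    ¬ (G.Adj (w k) (z k) ↔ G.Adj (u k) (z k))

theorem Dz.comp {N M : ℕ} {v : ℕ → V} {K : ℕ → Set V} {w u z : ℕ → V} (h : Dz G N v K w u z) {s : ℕ → ℕ}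
    (hs : ∀ k l, k < l → l < M → s k < s l) (hn : ∀ k < M, s k < N) :
    Dz G M (fun k => v (s k)) (fun k => K (s k)) (fun k => w (s k)) (fun k => u (s k)) fun k => z (s k) := by
  intro k hk
  obtain ⟨h1, h2, h3, h4, h5⟩ := h _ (hn k hk)
  exact ⟨h1.comp hs hn hk, h2.comp hs hn hk, h3, h4, h5⟩

/-- no fixed vertex distinguishes half mixers -/
theorem z_const (T : Tabs) : ∃ N : ℕ, ∀ (V : Type) (G : SimpleGraph V) (v : ℕ → V) (K : ℕ → Set V) (w u : ℕ → V)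
    (ζ : V), H1T.FH G → H1T.FJ 2 G → CS G N v K → Dz G N v K w u (fun _ => ζ) → False := by
  classical
  obtain ⟨N₁, h₁⟩ := pig (Fin 5 → Bool) 16
  obtain ⟨N, hN⟩ := pairM T (max N₁ 16) 0 (by omega) (le_max_right _ _) false false
  refine ⟨N, fun V G v K w u ζ hH hJ hC hD => ?_⟩
  obtain ⟨m, s, x, F, hm, ⟨hs, hsn⟩, hC', hr, ⟨hk, hcf⟩, ⟨mw, mu, wu⟩, hck, hx, -⟩ :=
    hN V G v K w u (fun _ => ζ) hH hJ hC (fun k hk => ⟨(hD k hk).1, (hD k hk).2.1, (hD k hk).2.2.1⟩)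
      (fun h => absurd h (by omega))
  have hD' := hD.comp hs hsn
  obtain ⟨x', F', hr', hk', ⟨f1, f2, f3⟩, mw', mu', wu', hx'⟩ := sel5 (le_max_right _ _) (by omega) hm hC' hr mw mu
    (wu rfl) (hck 0 (by have := le_max_right N₁ 16; omega))
  obtain ⟨t, c, ht, htn, hc⟩ := h₁ fun k => fun i : Fin 5 => decide (G.Adj ζ (x' i k))
  have htn' : ∀ k < 16, t k < max N₁ 16 := fun k hk => (htn k hk).trans_le (le_max_left _ _)
  have hcon : ∀ i < 5, ∀ k < 16, (G.Adj ζ (x' i (t k)) ↔ G.Adj ζ (x' i (t 0))) := by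
    intro i hi k hk
    have h1 := congrFun (hc k hk) ⟨i, hi⟩
    have h2 := congrFun (hc 0 (by omega)) ⟨i, hi⟩
    have h3 := h1.trans h2.symm
    simp only [decide_eq_decide] at h3
    exact h3
  have hw3 : ∀ k < 16, x' 3 (t k) = w (s (t k)) := fun k hk => by
    rw [(hx' _).1, (hx _ (htn' k hk)).1]
  have hu4 : ∀ k < 16, x' 4 (t k) = u (s (t k)) := fun k hk => by
    rw [(hx' _).2.1, (hx _ (htn' k hk)).2]
  refine T.t7 V G (fun i k => x' i (t k)) F' ζ (fun i => decide (G.Adj ζ (x' i (t 0))))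
    ⟨hH, hJ, hr_comp (M' := 16) hr'.hr ht htn'⟩ hk' f1 f2 f3 mw' mu' wu' ⟨fun i hi k hk => ?_, fun i hi k hk => ?_⟩ ?_ ?_
  · obtain ⟨h1, h2, h3, h4, h5⟩ := hD' (t k) (htn' k hk)
    dsimp only at h4 h5
    have h6 : i = 0 ∨ (1 ≤ i ∧ i ≤ 2) ∨ i = 3 ∨ i = 4 := by omega
    rcases h6 with rfl | h6 | rfl | rfl
    · show ζ ≠ x' 0 (t k)
      rw [hr'.x0 _ (htn' k hk)]
      intro h7
      rw [h7] at h5
      exact h5 (iff_of_true h1.2.2.symm h2.2.2.symm)
    · intro h7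
      exact h4 (Or.inl (h7 ▸ hr'.xK i h6.1 h6.2 _ (htn' k hk)))
    · show ζ ≠ x' 3 (t k)
      rw [hw3 k hk]
      intro h7
      exact h4 (Or.inr (h7 ▸ h1.1))
    · show ζ ≠ x' 4 (t k)
      rw [hu4 k hk]
      intro h7
      exact h4 (Or.inr (h7 ▸ h2.1))
  · show G.Adj ζ (x' i (t k)) ↔ decide (G.Adj ζ (x' i (t 0))) = true
    rw [decide_eq_true_iff]
    exact hcon i hi k hk
  · obtain ⟨h1, h2, h3, h4, h5⟩ := hD' (t 0) (htn' 0 (by omega))
    have k1 := hr'.xK 1 (by omega) (by omega) _ (htn' 0 (by omega))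
    have k2 := hr'.xK 2 (by omega) (by omega) _ (htn' 0 (by omega))
    rw [decide_eq_decide]
    by_contra h6
    refine h4 (Or.inr ⟨fun h => h4 (Or.inl h), fun h => h6 (iff_of_true (h _ k1) (h _ k2)), fun h =>
      h6 (iff_of_false (h _ k1) (h _ k2))⟩)
  · obtain ⟨h1, h2, h3, h4, h5⟩ := hD' (t 0) (htn' 0 (by omega))
    intro h6
    rw [decide_eq_decide, hw3 0 (by omega), hu4 0 (by omega)] at h6
    exact h5 ((G.adj_comm _ _).trans (h6.trans (G.adj_comm _ _)))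

/-- rails which distinguish half mixers are anticomplete to all cells and to the later `v` -/
theorem z_inj (T : Tabs) (M : ℕ) : ∃ N : ℕ, ∀ (V : Type) (G : SimpleGraph V) (v : ℕ → V) (K : ℕ → Set V)
    (w u z : ℕ → V), H1T.FH G → H1T.FJ 2 G → CS G N v K → Dz G N v K w u z →
    (∀ k < N, ∀ l < N, k ≠ l → z k ≠ z l) → ∃ s : ℕ → ℕ, (∀ k l, k < l → l < M → s k < s l) ∧
      (∀ k < M, s k < N) ∧ (∀ k < M, ∀ l < M, OuK G (z (s k)) (K (s l))) ∧
      ∀ k l, k < l → l < M → v (s l) ≠ z (s k) ∧ ¬ G.Adj (v (s l)) (z (s k)) := by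
  classical
  obtain ⟨M₀, hM₀⟩ : ∃ M₀, M₀ = max M 16 := ⟨_, rfl⟩
  obtain ⟨N₁, h₁⟩ := W.ramC (Prop × Prop × Prop × Prop × Prop) (M₀ + 1)
  obtain ⟨N, hN⟩ := pairM T (max N₁ 16) 1 (by omega) (le_max_right _ _) false false
  refine ⟨N, fun V G v K w u z hH hJ hC hD hz => ?_⟩
  obtain ⟨m, s, x, F, hm, ⟨hs, hsn⟩, hC', hr, ⟨hk, hcf⟩, ⟨mw, mu, wu⟩, hck, hx, hxz⟩ :=
    hN V G v K w u z hH hJ hC (fun k hk => ⟨(hD k hk).1, (hD k hk).2.1, (hD k hk).2.2.1⟩)
      (fun _ => ⟨fun k hk => ⟨(hD k hk).2.2.2.1, fun h => (hD k hk).2.2.2.2 (iff_of_true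
        (h ▸ (hD k hk).1.2.2.symm) (h ▸ (hD k hk).2.1.2.2.symm))⟩, hz⟩)
  have hD' := hD.comp hs hsn
  obtain ⟨x', F', hr', hk', ⟨f1, f2, f3⟩, mw', mu', wu', hx'⟩ := sel5 (le_max_right _ _) (by omega) hm hC' hr mw mu
    (wu rfl) (hck 0 (by have := le_max_right N₁ 16; omega))
  obtain ⟨t, c, ht, htn, hc⟩ := h₁ fun k l => (z (s k) ∈ Mx G (K (s l)), z (s l) ∈ Mx G (K (s k)),
    AnK G (z (s k)) (K (s l)), AnK G (z (s l)) (K (s k)), AnK G (z (s k)) (K (s k)))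
  obtain ⟨c1, c2, c3, c4, c5⟩ := c
  have htn' : ∀ k < M₀ + 1, t k < max N₁ 16 := fun k hk => (htn k hk).trans_le (le_max_left _ _)
  have hC'' := hC'.comp ht htn'
  have hD'' := hD'.comp ht htn'
  obtain ⟨y, hy⟩ : ∃ y : ℕ → V, y = fun k => z (s (t k)) := ⟨_, rfl⟩
  have hcc : ∀ k l, k < l → l < M₀ + 1 → (y k ∈ Mx G (K (s (t l))) ↔ c1) ∧ (y l ∈ Mx G (K (s (t k))) ↔ c2) ∧
      (AnK G (y k) (K (s (t l))) ↔ c3) ∧ (AnK G (y l) (K (s (t k))) ↔ c4) ∧ (AnK G (y k) (K (s (t k))) ↔ c5) := by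
    intro k l hkl hl
    have h1 := hc k l hkl hl
    simp only [Prod.mk.injEq] at h1
    obtain ⟨e1, e2, e3, e4, e5⟩ := h1
    rw [hy]
    exact ⟨by rw [e1], by rw [e2], by rw [e3], by rw [e4], by rw [e5]⟩
  have hM16 : 16 ≤ M₀ := by omega
  -- (a) not in the cells
  have ha : ∀ k < M₀ + 1, ∀ l < M₀ + 1, y k ∉ K (s (t l)) := by
    intro k hk l hl h1
    obtain ⟨h2, h3, h4, h5, h6⟩ := hD'' k hk
    dsimp only at h5 h6
    rw [hy] at h1
    rcases lt_trichotomy k l with h7 | rfl | h7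
    · exact h6 (iff_of_true ((h2.2.1.1 l hl h7).1 rfl _ h1) ((h3.2.1.1 l hl h7).1 rfl _ h1))
    · exact h5 (Or.inl h1)
    · exact h6 (iff_of_false ((h2.2.1.2 l h7).2 rfl _ h1) ((h3.2.1.2 l h7).2 rfl _ h1))
  -- (b) not mixed
  have hc1 : ¬ c1 := by
    intro h1
    exact hC''.mx_mx (k := 1) (l := 2) (by omega) (by omega) (by omega) ((hcc 0 1 (by omega) (by omega)).1.2 h1)
      ((hcc 0 2 (by omega) (by omega)).1.2 h1)
  have hc2 : ¬ c2 := by
    intro h1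
    exact hC''.mx_mx (k := 0) (l := 1) (by omega) (by omega) (by omega) ((hcc 0 2 (by omega) (by omega)).2.1.2 h1)
      ((hcc 1 2 (by omega) (by omega)).2.1.2 h1)
  have hb : ∀ k < M₀ + 1, ∀ l < M₀ + 1, ¬ AnK G (y k) (K (s (t l))) → CoK G (y k) (K (s (t l))) := by
    intro k hk l hl h1
    by_contra h2
    have h3 : y k ∈ Mx G (K (s (t l))) := ⟨ha k hk l hl, h2, h1⟩
    rcases lt_trichotomy k l with h7 | rfl | h7
    · exact hc1 ((hcc k l h7 hl).1.1 h3)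
    · have := (hD'' k hk).2.2.2.1
      rw [hy] at h3
      exact this (Or.inr h3)
    · exact hc2 ((hcc l k h7 hk).2.1.1 h3)
  have hHR : HR G 6 (M₀ + 1) (fun i k => x' i (t k)) F' := hr_comp hr'.hr ht htn'
  have x5 : ∀ k < M₀ + 1, x' 5 (t k) = y k := fun k hk => by
    rw [(hx' _).2.2, hxz _ (htn' k hk), hy]
  have x3 : ∀ k < M₀ + 1, x' 3 (t k) = w (s (t k)) := fun k hk => by
    rw [(hx' _).1, (hx _ (htn' k hk)).1]
  have x4 : ∀ k < M₀ + 1, x' 4 (t k) = u (s (t k)) := fun k hk => by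
    rw [(hx' _).2.1, (hx _ (htn' k hk)).2]
  have xK : ∀ a, 1 ≤ a → a ≤ 2 → ∀ k < M₀ + 1, x' a (t k) ∈ K (s (t k)) := fun a h1 h2 k hk =>
    hr'.xK a h1 h2 _ (htn' k hk)
  -- the bits of `z`
  have hZ : Zr F' 2 5 (decide ¬ c3) (decide ¬ c4) (decide ¬ c5) := by
    intro a h1 h2
    refine ⟨?_, ?_, ?_⟩
    · have h3 := hHR.rel 5 (by omega) a (by omega) 0 1 (by omega) (by omega)
      rw [x5 0 (by omega)] at h3
      rw [Bool.eq_iff_iff, ← h3, decide_eq_true_iff, ← (hcc 0 1 (by omega) (by omega)).2.2.1]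
      exact ⟨fun h4 h5 => h5 _ (xK a h1 h2 1 (by omega)) h4, fun h4 => hb 0 (by omega) 1 (by omega) h4 _
        (xK a h1 h2 1 (by omega))⟩
    · have h3 := hHR.rel a (by omega) 5 (by omega) 0 1 (by omega) (by omega)
      rw [x5 1 (by omega)] at h3
      rw [Bool.eq_iff_iff, ← h3, decide_eq_true_iff, ← (hcc 0 1 (by omega) (by omega)).2.2.2.1]
      exact ⟨fun h4 h5 => h5 _ (xK a h1 h2 0 (by omega)) h4.symm, fun h4 => (hb 1 (by omega) 0 (by omega) h4 _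
        (xK a h1 h2 0 (by omega))).symm⟩
    · have h3 := hHR.dg a (by omega) 5 (by omega) (by omega) 0 (by omega)
      rw [x5 0 (by omega)] at h3
      rw [Bool.eq_iff_iff, ← h3, decide_eq_true_iff, ← (hcc 0 1 (by omega) (by omega)).2.2.2.2]
      exact ⟨fun h4 h5 => h5 _ (xK a h1 h2 0 (by omega)) h4.symm, fun h4 => (hb 0 (by omega) 0 (by omega) h4 _
        (xK a h1 h2 0 (by omega))).symm⟩
  have hd : F' (256 + 48 + 5) ≠ F' (256 + 64 + 5) := by
    intro h1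
    have h3 := hHR.dg 3 (by omega) 5 (by omega) (by omega) 0 (by omega)
    have h4 := hHR.dg 4 (by omega) 5 (by omega) (by omega) 0 (by omega)
    rw [x5 0 (by omega), x3 0 (by omega)] at h3
    rw [x5 0 (by omega), x4 0 (by omega)] at h4
    obtain ⟨-, -, -, -, h6⟩ := hD'' 0 (by omega)
    dsimp only at h6
    rw [hy] at h3 h4
    apply h6
    rw [show 256 + 16 * 3 + 5 = 256 + 48 + 5 from rfl, h1] at h3
    exact h3.trans h4.symm
  have hT := T.t5 V G (fun i k => x' i (t k)) F' _ _ _ ⟨hH, hJ, hHR.mono le_rfl (by omega)⟩ hk' f1 f2 f3 mw' mu' wu' hZ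
  have h3 : c3 := by
    by_contra h
    exact hT (Or.inl (decide_eq_true h)) hd
  have h4 : c4 := by
    by_contra h
    exact hT (Or.inr (Or.inl (decide_eq_true h))) hd
  have h5 : c5 := by
    by_contra h
    rcases hC''.big 1 (by omega) (y 1) (ha 1 (by omega) 1 (by omega))
      (fun h' => h ((hcc 1 2 (by omega) (by omega)).2.2.2.2.1 h')) with h6 | h6
    · obtain ⟨q, hq⟩ := hC''.ne (k := 2) (by omega)
      exact (hcc 1 2 (by omega) (by omega)).2.2.1.2 h3 q hq (h6 2 (by omega) (by omega) q hq)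
    · obtain ⟨q, hq⟩ := hC''.ne (k := 0) (by omega)
      exact (hcc 0 1 (by omega) (by omega)).2.2.2.1.2 h4 q hq (h6 0 (by omega) q hq)
  have h80 : F' 80 = false := by
    by_contra h
    rw [Bool.not_eq_false] at h
    exact hT (Or.inr (Or.inr ⟨decide_eq_false (fun h' => h' h5), h⟩)) hd
  refine ⟨fun k => s (t k), fun k l hkl hl => hs _ _ (ht k l hkl (by omega)) (htn' l (by omega)),
    fun k hk => hsn _ (htn' k (by omega)), fun k hk l hl => ?_, fun k l hkl hl => ?_⟩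
  · have h6 := ha k (by omega) l (by omega)
    rw [hy] at h6
    refine ⟨h6, ?_⟩
    rcases lt_trichotomy k l with h7 | rfl | h7
    · have := (hcc k l h7 (by omega)).2.2.1.2 h3
      rw [hy] at this
      exact this
    · have := (hcc k (k + 1) (by omega) (by omega)).2.2.2.2.2 h5
      rw [hy] at this
      exact this
    · have := (hcc l k h7 (by omega)).2.2.2.1.2 h4
      rw [hy] at this
      exact this
  · have h6 := hHR.rel 5 (by omega) 0 (by omega) k l hkl (by omega)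
    have h7 := hHR.dis 0 (by omega) 5 (by omega) l (by omega) k (by omega) (Or.inl (by omega))
    rw [x5 k (by omega), hr'.x0 _ (htn' l (by omega))] at h6 h7
    rw [hy] at h6 h7
    exact ⟨h7, fun h8 => by
      have := h6.1 h8.symm
      rw [show 16 * 5 + 0 = 80 from rfl, h80] at this
      exact absurd this (by decide)⟩

/-- the conclusion for a sequence `z` -/
theorem z_all (T : Tabs) (M : ℕ) : ∃ N : ℕ, ∀ (V : Type) (G : SimpleGraph V) (v : ℕ → V) (K : ℕ → Set V)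
    (w u z : ℕ → V), H1T.FH G → H1T.FJ 2 G → CS G N v K → Dz G N v K w u z →
    ∃ s : ℕ → ℕ, (∀ k l, k < l → l < M → s k < s l) ∧
      (∀ k < M, s k < N) ∧ (∀ k < M, ∀ l < M, OuK G (z (s k)) (K (s l))) ∧
      ∀ k l, k < l → l < M → v (s l) ≠ z (s k) ∧ ¬ G.Adj (v (s l)) (z (s k)) := by
  obtain ⟨N₁, h₁⟩ := z_const T
  obtain ⟨N₂, h₂⟩ := z_inj T M
  obtain ⟨N, hN⟩ := const_or_inj (max (max N₁ N₂) 1)
  refine ⟨N, fun V G v K w u z hH hJ hC hD => ?_⟩
  obtain ⟨s, hs, hsn, hz⟩ := hN V z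
  have hC' := hC.comp hs hsn
  have hD' := hD.comp hs hsn
  have l1 : N₁ ≤ max (max N₁ N₂) 1 := (le_max_left _ _).trans (le_max_left _ _)
  have l2 : N₂ ≤ max (max N₁ N₂) 1 := (le_max_right _ _).trans (le_max_left _ _)
  rcases hz with hz | hz
  · exfalso
    have k1 : ∀ k < N₁, k < max (max N₁ N₂) 1 := fun k hk => hk.trans_le l1
    have hD1 := hD'.comp (M := N₁) (s := fun k => k) (fun k l hkl _ => hkl) k1
    refine h₁ V G _ _ (fun k => w (s k)) (fun k => u (s k)) (z (s 0)) hH hJ (hC'.comp (s := fun k => k) (fun k l hkl _ => hkl) k1) (fun k hk => ?_)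
    have h3 := hz k (k1 k hk) 0 (lt_of_lt_of_le Nat.zero_lt_one (le_max_right _ _))
    obtain ⟨q1, q2, q3, q4, q5⟩ := hD1 k hk
    dsimp only at q4 q5
    rw [h3] at q4 q5
    exact ⟨q1, q2, q3, q4, q5⟩
  · have k1 : ∀ k < N₂, k < max (max N₁ N₂) 1 := fun k hk => hk.trans_le l2
    have hD1 := hD'.comp (M := N₂) (s := fun k => k) (fun k l hkl _ => hkl) k1
    obtain ⟨t, ht, htn, h3, h4⟩ := h₂ V G _ _ _ _ _ hH hJ (hC'.comp (s := fun k => k) (fun k l hkl _ => hkl) k1) hD1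
      (fun k hk l hl hkl => hz k (k1 k hk) l (k1 l hl) hkl)
    exact ⟨fun k => s (t k), fun k l hkl hl => hs _ _ (ht k l hkl hl) (k1 _ (htn l hl)),
      fun k hk => hsn _ (k1 _ (htn k hk)), h3, h4⟩

end L5

/-- **Three half mixers with three rows give a rich cell.** -/
theorem l5 (T : Tabs) : S_L5 := by
  classical
  intro b
  obtain ⟨N₂, h₂⟩ := L5.z_all T (2 * b + 4)
  obtain ⟨N₁, h₁⟩ := L5.z_all T N₂
  obtain ⟨N, hN⟩ := pig ((Fin 3 × Fin 3) × (Fin 3 × Fin 3)) N₁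
  refine ⟨N, fun V G v K w z₁ z₂ hH hJ hC h => ?_⟩
  -- the pairs which are distinguished
  have hch : ∀ k, ∃ p : (Fin 3 × Fin 3) × (Fin 3 × Fin 3), k < N →
      (¬ (G.Adj (w p.1.1 k) (z₁ k) ↔ G.Adj (w p.1.2 k) (z₁ k))) ∧
      ¬ (G.Adj (w p.2.1 k) (z₂ k) ↔ G.Adj (w p.2.2 k) (z₂ k)) := by
    intro k
    by_cases hk : k < N
    · obtain ⟨-, h1, -, -⟩ := h k hk
      obtain ⟨-, -, a1⟩ := h1 0 (by omega) 1 (by omega) (by omega)
      obtain ⟨-, -, a2⟩ := h1 0 (by omega) 2 (by omega) (by omega)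
      obtain ⟨-, -, a3⟩ := h1 1 (by omega) 2 (by omega) (by omega)
      have e1 : ∃ p : Fin 3 × Fin 3, ¬ (G.Adj (w p.1 k) (z₁ k) ↔ G.Adj (w p.2 k) (z₁ k)) := by
        by_contra hcon
        push Not at hcon
        have b1 := hcon (0, 1)
        have b2 := hcon (0, 2)
        simp only [Fin.val_zero, Fin.val_one, Fin.val_two] at b1 b2
        tauto
      have e2 : ∃ p : Fin 3 × Fin 3, ¬ (G.Adj (w p.1 k) (z₂ k) ↔ G.Adj (w p.2 k) (z₂ k)) := by
        by_contra hcon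
        push Not at hcon
        have b1 := hcon (0, 1)
        have b2 := hcon (0, 2)
        simp only [Fin.val_zero, Fin.val_one, Fin.val_two] at b1 b2
        tauto
      obtain ⟨p, hp⟩ := e1
      obtain ⟨q, hq⟩ := e2
      exact ⟨(p, q), fun _ => ⟨hp, hq⟩⟩
    · exact ⟨((0, 0), (0, 0)), fun h' => absurd h' hk⟩
  choose p hp using hch
  obtain ⟨s, c, hs, hsn, hc⟩ := hN p
  have hC1 := hC.comp hs hsn
  have hD1 : L5.Dz G N₁ (fun k => v (s k)) (fun k => K (s k)) (fun k => w c.1.1 (s k)) (fun k => w c.1.2 (s k))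
      fun k => z₁ (s k) := by
    intro k hk
    obtain ⟨h1, h2, h3, h4⟩ := h _ (hsn k hk)
    have h5 := (hp _ (hsn k hk)).1
    rw [hc k hk] at h5
    refine ⟨(h1 _ c.1.1.2).comp hs hsn hk, (h1 _ c.1.2.2).comp hs hsn hk, ?_, h3, h5⟩
    intro h6
    dsimp only at h6
    exact h5 (by rw [h6])
  obtain ⟨t, ht, htn, k3, k4⟩ := h₁ V G _ _ _ _ _ hH hJ hC1 hD1
  have hst : ∀ k l, k < l → l < N₂ → s (t k) < s (t l) := fun k l hkl hl => hs _ _ (ht k l hkl hl) (htn l hl)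
  have hstn : ∀ k < N₂, s (t k) < N := fun k hk => hsn _ (htn k hk)
  have hC2 := hC1.comp ht htn
  have hD2 : L5.Dz G N₂ (fun k => v (s (t k))) (fun k => K (s (t k))) (fun k => w c.2.1 (s (t k)))
      (fun k => w c.2.2 (s (t k))) fun k => z₂ (s (t k)) := by
    intro k hk
    obtain ⟨h1, h2, h3, h4⟩ := h _ (hstn k hk)
    have h5 := (hp _ (hstn k hk)).2
    rw [hc (t k) (htn k hk)] at h5
    refine ⟨(h1 _ c.2.1.2).comp hst hstn hk, (h1 _ c.2.2.2).comp hst hstn hk, ?_, h4, h5⟩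
    intro h6
    dsimp only at h6
    exact h5 (by rw [h6])
  obtain ⟨r, hr, hrn, q3, q4⟩ := h₂ V G _ _ _ _ _ hH hJ hC2 hD2
  obtain ⟨g, hg⟩ : ∃ g : ℕ → ℕ, g = fun k => s (t (r k)) := ⟨_, rfl⟩
  have hgm : ∀ k l, k < l → l < 2 * b + 4 → g k < g l := by
    intro k l hkl hl
    rw [hg]
    exact hst _ _ (hr k l hkl hl) (hrn l hl)
  have hgn : ∀ k < 2 * b + 4, g k < N := by
    intro k hk
    rw [hg]
    exact hstn _ (hrn k hk)
  have o1 : ∀ k < 2 * b + 4, ∀ l < 2 * b + 4, OuK G (z₁ (g k)) (K (g l)) := by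
    intro k hk l hl
    rw [hg]
    exact k3 _ (hrn k hk) _ (hrn l hl)
  have o2 : ∀ k < 2 * b + 4, ∀ l < 2 * b + 4, OuK G (z₂ (g k)) (K (g l)) := by
    intro k hk l hl
    rw [hg]
    exact q3 _ hk _ hl
  have v1 : ∀ k l, k < l → l < 2 * b + 4 → v (g l) ≠ z₁ (g k) ∧ ¬ G.Adj (v (g l)) (z₁ (g k)) := by
    intro k l hkl hl
    rw [hg]
    exact k4 _ _ (hr k l hkl hl) (hrn l hl)
  have v2 : ∀ k l, k < l → l < 2 * b + 4 → v (g l) ≠ z₂ (g k) ∧ ¬ G.Adj (v (g l)) (z₂ (g k)) := by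
    intro k l hkl hl
    rw [hg]
    exact q4 _ _ hkl hl
  have hge := L5.mono_ge hgm
  have hlt : ∀ k l, k < 2 * b + 4 → l < 2 * b + 4 → k ≤ l → g l ≥ g k + (l - k) := by
    intro k l hk hl hkl
    induction l with
    | zero =>
      obtain rfl : k = 0 := by omega
      omega
    | succ l ih =>
      rcases Nat.lt_or_ge l k with h1 | h1
      · obtain rfl : k = l + 1 := by omega
        omega
      · have := ih (by omega) h1
        have := hgm l (l + 1) (by omega) hl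
        omega
  have b1 : b + 1 < 2 * b + 4 := by omega
  obtain ⟨h1, h2, h3, h4⟩ := h _ (hgn (b + 1) b1)
  refine ⟨g (b + 1), by have := hge (b + 1) b1; omega, ?_, fun i => w i (g (b + 1)), z₁ (g (b + 1)),
    z₂ (g (b + 1)), fun i hi => ⟨(h1 i hi).1, fun l hl hkl => ((h1 i hi).2.1.1 l hl hkl).1 rfl,
      fun l hl => ((h1 i hi).2.1.2 l hl).2 rfl⟩, h2, ⟨fun h' => h3 (Or.inr h'), o1 _ b1 _ b1⟩,
    ⟨fun h' => h4 (Or.inr h'), o2 _ b1 _ b1⟩, ⟨(Finset.range (b + 1)).image g, ?_, fun l hl => ?_⟩, g (b + 2),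
    (hgm (b + 1) (b + 2) (by omega) (by omega)).le, hgn _ (by omega), v1 _ _ (by omega) (by omega),
    v2 _ _ (by omega) (by omega), (Finset.Ico (b + 3) (2 * b + 4)).image g, ?_, fun l hl => ?_⟩
  · have := hlt (b + 1) (2 * b + 3) (by omega) (by omega) (by omega)
    have := hgn (2 * b + 3) (by omega)
    omega
  · rw [Finset.card_image_of_injOn, Finset.card_range]
    · omega
    · intro i hi j hj hij
      rw [Finset.coe_range, Set.mem_Iio] at hi hj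
      by_contra hne
      exact L5.mono_ne hgm (show i < 2 * b + 4 by omega) (show j < 2 * b + 4 by omega) hne hij
  · obtain ⟨i, hi, rfl⟩ := Finset.mem_image.1 hl
    rw [Finset.mem_range] at hi
    exact ⟨hgm _ _ (by omega) (by omega), o1 _ b1 _ (by omega), o2 _ b1 _ (by omega)⟩
  · rw [Finset.card_image_of_injOn, Nat.card_Ico]
    · omega
    · intro i hi j hj hij
      rw [Finset.coe_Ico, Set.mem_Ico] at hi hj
      by_contra hne
      exact L5.mono_ne hgm (show i < 2 * b + 4 by omega) (show j < 2 * b + 4 by omega) hne hij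
  · obtain ⟨i, hi, rfl⟩ := Finset.mem_image.1 hl
    rw [Finset.mem_Ico] at hi
    exact ⟨hgm _ _ (by omega) (by omega), hgn _ (by omega), o1 _ b1 _ (by omega), o2 _ b1 _ (by omega)⟩

end Pool.Agent.MPd439b2.RN
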