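import Pool.Agent.Lib.MP_d439b2_co.RN.MxA
import Pool.Agent.Lib.MP_d439b2_co.RN.MxTab
import Pool.Agent.Lib.MP_d439b2_co.RN.MxL0
import Pool.Agent.Lib.MP_d439b2_co.RN.MxL2
import Pool.Agent.Lib.MP_d439b2_co.RN.MxL4
import Pool.Agent.Lib.MP_d439b2_co.RN.MxL5

/-!
# MP_d439b2_co, RN/MxF: Block 2, final: a long system of cells has a poor or a rich cell (helper90)
-/

set_option autoImplicit false

namespace Pool.Agent.MPd439b2.RN

/-- **Block 2.** -/
theorem sMx : S_Mx := sMx_of l0 l1 l2 l3 l4 (l5 tabs)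

end Pool.Agent.MPd439b2.RN
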