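import Pool.Agent.Lib.MP_d439b2_co.RN.OneG

/-!
# MP_d439b2_co, RN/OneZ: facts, contact of seen sets, chain (generated, helper38)
-/

set_option autoImplicit false
set_option linter.unnecessarySeqFocus false
set_option linter.style.longLine false

namespace Pool.Agent.MPd439b2.RN

open Pool.Agent.MPd439b2 Pool.Agent.MPd439b2.H1T Pool.Agent.MPd439b2.H1R

/-- contact of seen sets, chain -/
structure CZ {V : Type} (G : SimpleGraph V) (p q y0 y1 w0 w1 w2 z1 z2 : V) : Prop where
  f_p_q : ¬ G.Adj p q
  f_p_y0 : ¬ G.Adj p y0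
  f_p_y1 : ¬ G.Adj p y1
  f_p_w0 : ¬ G.Adj p w0
  f_p_w1 : ¬ G.Adj p w1
  f_p_w2 : ¬ G.Adj p w2
  f_p_z1 : ¬ G.Adj p z1
  f_p_z2 : ¬ G.Adj p z2
  f_q_y0 : ¬ G.Adj q y0
  f_q_y1 : ¬ G.Adj q y1
  f_q_w0 : G.Adj q w0
  f_q_w1 : G.Adj q w1
  f_q_w2 : G.Adj q w2
  f_q_z1 : ¬ G.Adj q z1
  f_q_z2 : ¬ G.Adj q z2
  f_y0_y1 : G.Adj y0 y1
  f_y0_w0 : G.Adj y0 w0
  f_y0_w1 : ¬ G.Adj y0 w1
  f_y0_w2 : ¬ G.Adj y0 w2
  f_y0_z1 : ¬ G.Adj y0 z1
  f_y0_z2 : ¬ G.Adj y0 z2
  f_y1_w0 : ¬ G.Adj y1 w0
  f_y1_w1 : ¬ G.Adj y1 w1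
  f_y1_w2 : G.Adj y1 w2
  f_y1_z1 : ¬ G.Adj y1 z1
  f_y1_z2 : ¬ G.Adj y1 z2
  f_w0_w1 : G.Adj w0 w1
  f_w0_w2 : G.Adj w0 w2
  f_w0_z1 : G.Adj w0 z1
  f_w0_z2 : G.Adj w0 z2
  f_w1_w2 : G.Adj w1 w2
  f_w1_z1 : ¬ G.Adj w1 z1
  f_w1_z2 : G.Adj w1 z2
  f_w2_z1 : ¬ G.Adj w2 z1
  f_w2_z2 : ¬ G.Adj w2 z2

namespace CZ_f0

open Tr

def A : List (ℕ × ℕ) := [(8, 0), (2, 1), (3, 1), (5, 2), (4, 3), (5, 3), (6, 3), (7, 3), (8, 3), (5, 4), (7,
    4), (8, 4), (8, 5)]

def N : List (ℕ × ℕ) := [(1, 0), (2, 0), (3, 0), (4, 0), (5, 0), (6, 0), (7, 0), (4, 1), (5, 1), (6, 1), (7,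
    1), (8, 1), (3, 2), (4, 2), (6, 2), (7, 2), (8, 2), (6, 4), (6, 5), (7, 5), (8, 6), (8, 7)]

def I : List (List (ℕ × ℕ) × List (ℕ × ℕ)) := []

def cs : List Cert := [
  (true, 8507183788148066422595024433245736402944, 44236723276612575854776925071314960580608, [[3], [8], [4],
      [1], [0], [7]])]

def t : Tr := lf 0

theorem ok : ckU 8 9 A N [] I cs t = true := by decide +kernel

end CZ_f0

/-- f0 -/
theorem cZ_f0 {V : Type} {G : SimpleGraph V} (hH : FH G) (hJ : FJ 2 G) {p y0 y1 w0 w1 w2 z1 z2 : V} {Q : Set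
    V} (e1 : Conn G Q) (e2 : p ∉ Q) (e3 : y0 ∉ Q) (e4 : y1 ∉ Q) (e5 : w0 ∉ Q) (e6 : w1 ∉ Q) (e7 : w2 ∉ Q) (e8
    : z1 ∉ Q) (e9 : z2 ∉ Q) (e10 : ¬ G.Adj p y0) (e11 : ¬ G.Adj p y1) (e12 : ¬ G.Adj p w0) (e13 : ¬ G.Adj p
    w1) (e14 : ¬ G.Adj p w2) (e15 : ¬ G.Adj p z1) (e16 : ¬ G.Adj p z2) (e17 : Tch G Q {p}) (e18 : G.Adj y0 y1)
    (e19 : G.Adj y0 w0) (e20 : ¬ G.Adj y0 w1) (e21 : ¬ G.Adj y0 w2) (e22 : ¬ G.Adj y0 z1) (e23 : ¬ G.Adj y0
    z2) (e24 : ¬ Tch G Q {y0}) (e25 : ¬ G.Adj y1 w0) (e26 : ¬ G.Adj y1 w1) (e27 : G.Adj y1 w2) (e28 : ¬ G.Adj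
    y1 z1) (e29 : ¬ G.Adj y1 z2) (e30 : ¬ Tch G Q {y1}) (e31 : G.Adj w0 w1) (e32 : G.Adj w0 w2) (e33 : G.Adj
    w0 z1) (e34 : G.Adj w0 z2) (e35 : Tch G Q {w0}) (e36 : G.Adj w1 w2) (e37 : ¬ G.Adj w1 z1) (e38 : G.Adj w1
    z2) (e39 : Tch G Q {w1}) (e40 : ¬ G.Adj w2 z1) (e41 : ¬ G.Adj w2 z2) (e42 : Tch G Q {w2}) (e43 : ¬ Tch G Q
    {z1}) (e44 : ¬ Tch G Q {z2}) : False := by
  refine refuteU hH hJ (fun k => ([p, y0, y1, w0, w1, w2, z1, z2] : List V).getD k p) (fun k => ([{p}, {y0}, {y1}, {w0}, {w1}, {w2}, {z1}, {z2}, Q] : List (Set V)).getD k ∅) 8 9 ?_ ?_ ?_ ?_ CZ_f0.A CZ_f0.N [] ?_ ?_ ?_ CZ_f0.I ?_ CZ_f0.cs CZ_f0.t CZ_f0.ok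
  · intro i hi
    interval_cases i <;> rfl
  · intro i hi hi'
    interval_cases i <;> assumption
  · intro i hi hi' j hj
    interval_cases i <;> interval_cases j <;> assumption
  · intro i hi hi' j hj hj'
    interval_cases i <;> interval_cases j <;> assumption
  · intro p hp
    simp only [CZ_f0.A, List.mem_cons, List.not_mem_nil, or_false] at hp
    rcases hp with rfl | rfl | rfl | rfl | rfl | rfl | rfl | rfl | rfl | rfl | rfl | rfl | rfl <;> (first | exact tch1.2 (by assumption) | exact tch1.2 (SimpleGraph.Adj.symm (by assumption)) | assumption | exact Tch.symm (by assumption))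
  · intro p hp
    simp only [CZ_f0.N, List.mem_cons, List.not_mem_nil, or_false] at hp
    rcases hp with rfl | rfl | rfl | rfl | rfl | rfl | rfl | rfl | rfl | rfl | rfl | rfl | rfl | rfl | rfl | rfl | rfl | rfl | rfl | rfl | rfl | rfl <;> (first | exact tch2 (by assumption) | exact tch2 (fun h => absurd (SimpleGraph.Adj.symm h) (by assumption)) | assumption | exact (fun h => absurd (Tch.symm h) (by assumption)))
  · simp
  · simp [CZ_f0.I]

namespace CZ_f1

open Tr

def A : List (ℕ × ℕ) := [(4, 1), (5, 1), (6, 1), (10, 1), (3, 2), (4, 2), (6, 3), (5, 4), (6, 4), (7, 4), (8,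
    4), (6, 5), (8, 5), (10, 9)]

def N : List (ℕ × ℕ) := [(1, 0), (2, 0), (3, 0), (4, 0), (5, 0), (6, 0), (7, 0), (8, 0), (10, 0), (2, 1), (3,
    1), (7, 1), (8, 1), (9, 1), (5, 2), (6, 2), (7, 2), (8, 2), (10, 2), (4, 3), (5, 3), (7, 3), (8, 3), (10,
    3), (7, 5), (7, 6), (8, 6), (10, 7), (10, 8)]

def I : List (List (ℕ × ℕ) × List (ℕ × ℕ)) := [([], [(9, 2), (9, 3), (9, 7), (9, 8)])]

def cs : List Cert := [
  (true, 2923003290995359451940001155162182092371353665536, 526140589463625380971634118818778990243796054179840,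
      [[1, 4], [6], [5], [10], [3], [8]]),
  (true, 96459108074728628346240815033553408143295325929472,
      432604484675128158940440166451716052248090231439360, [[6], [5], [1], [3], [8], [10]]),
  (true, 795056979910992064702046873458548544427881903685632,
      198767121773878844702365039166414978795615364841472, [[4], [2, 9], [5, 10], [7], [3], [1]]),
  (true, 49691055680139734963722900386632351514305484554240,
      479372537069717052322958081098637108877080072814592, [[5], [6], [1], [8], [3], [10]]),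
  (true, 96459108063839675680252867741924502050812377169920,
      222148248874297627796927626150267104759969738653696, [[6], [4], [1], [3], [7], [10]]),
  (true, 16333636693391579247095954383971398189056, 68057013383060989986302419527594955243520, [[4], [6], [5],
      [7], [3], [8]]),
  (true, 888594422755770715972360593908868086387501709656064,
      385843033300437465888530269450476949756292670423040, [[6], [5], [10], [3], [8], [9]]),
  (true, 797983462101904758242083693296436365202980232757248,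
      198764445684455332565399557298325841952382736400384, [[5, 6], [9], [10], [3], [7], [1]]),
  (true, 797979983191098305332439519564301408468902443220992,
      385842319656854735627175309426764072293230142554112, [[4, 5], [2], [9, 10], [8], [3], [1]]),
  (true, 797985603027888995889255434879530476634767720710144,
      198764445687858156234608941932959588026700418514944, [[5, 6], [8, 9], [10], [3], [7], [1]]),
  (true, 844753833773994298807031480364778209030401935015936,
      379990559537047974536530105870686440380398007484416, [[3, 6], [9], [10], [2], [8], [1]]),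
  (true, 841828065206927875173354560270279834594263328358400,
      192918260729169987263604559356597987183352505958400, [[9], [6, 10], [3], [7], [1], [2]]),
  (true, 2854511719048613153695819034853374244163682304, 8028292771842981013400178116284258823171997696, [[4,
      7], [6], [5], [9], [3], [8]]),
  (true, 797980072399523617328836210698086911215747813343232,
      379996223904550329832184911767232054560428189024256, [[5, 6], [3], [9, 10], [8], [2], [1]])]

def t : Tr := bt 166 (bt 165 (lf 0) (lf 3)) (bt 165 (lf 1) (bt 135 (lf 5) (bt 164 (lf 4) (bt 147 (bt 152 (bt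
    146 (bt 151 (im 0) (bt 149 (bt 150 (lf 12) (lf 6)) (lf 7))) (lf 8)) (lf 9)) (bt 146 (bt 152 (lf 13) (lf
    10)) (bt 151 (lf 2) (lf 11)))))))

theorem ok : ckU 10 11 A N [(9, 1)] I cs t = true := by decide +kernel

end CZ_f1

/-- f1 -/
theorem cZ_f1 {V : Type} {G : SimpleGraph V} (hH : FH G) (hJ : FJ 2 G) {p q y0 y1 w0 w1 w2 z1 z2 x : V} {T :
    Set V} (h : CZ G p q y0 y1 w0 w1 w2 z1 z2) (e1 : Conn G T) (e2 : p ∉ T) (e3 : q ∉ T) (e4 : y0 ∉ T) (e5 :
    y1 ∉ T) (e6 : w0 ∉ T) (e7 : w1 ∉ T) (e8 : w2 ∉ T) (e9 : z1 ∉ T) (e10 : z2 ∉ T) (e11 : x ∉ T) (e12 : ¬ Tch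
    G T {p}) (e13 : ¬ G.Adj q x) (e14 : Tch G T {q}) (e15 : ¬ Tch G T {y0}) (e16 : ¬ Tch G T {y1}) (e17 : ¬
    Tch G T {z1}) (e18 : ¬ Tch G T {z2}) (e19 : Tch G T {x}) (e20 : x ≠ q) (e21 : G.Adj y0 x ∨ G.Adj y1 x ∨
    G.Adj z1 x ∨ G.Adj z2 x) : False := by
  obtain ⟨a0, a1, a2, a3, a4, a5, a6, a7, a8, a9, a10, a11, a12, a13, a14, a15, a16, a17, a18, a19, a20, a21, a22, a23, a24, a25, a26, a27, a28, a29, a30, a31, a32, a33, a34⟩ := h
  refine refuteU hH hJ (fun k => ([p, q, y0, y1, w0, w1, w2, z1, z2, x] : List V).getD k p) (fun k => ([{p}, {q}, {y0}, {y1}, {w0}, {w1}, {w2}, {z1}, {z2}, {x}, T] : List (Set V)).getD k ∅) 10 11 ?_ ?_ ?_ ?_ CZ_f1.A CZ_f1.N [(9, 1)] ?_ ?_ ?_ CZ_f1.I ?_ CZ_f1.cs CZ_f1.t CZ_f1.ok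
  · intro i hi
    interval_cases i <;> rfl
  · intro i hi hi'
    interval_cases i <;> assumption
  · intro i hi hi' j hj
    interval_cases i <;> interval_cases j <;> assumption
  · intro i hi hi' j hj hj'
    interval_cases i <;> interval_cases j <;> assumption
  · intro p hp
    simp only [CZ_f1.A, List.mem_cons, List.not_mem_nil, or_false] at hp
    rcases hp with rfl | rfl | rfl | rfl | rfl | rfl | rfl | rfl | rfl | rfl | rfl | rfl | rfl | rfl <;> (first | exact tch1.2 (by assumption) | exact tch1.2 (SimpleGraph.Adj.symm (by assumption)) | assumption | exact Tch.symm (by assumption))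
  · intro p hp
    simp only [CZ_f1.N, List.mem_cons, List.not_mem_nil, or_false] at hp
    rcases hp with rfl | rfl | rfl | rfl | rfl | rfl | rfl | rfl | rfl | rfl | rfl | rfl | rfl | rfl | rfl | rfl | rfl | rfl | rfl | rfl | rfl | rfl | rfl | rfl | rfl | rfl | rfl | rfl | rfl <;> (first | exact tch2 (by assumption) | exact tch2 (fun h => absurd (SimpleGraph.Adj.symm h) (by assumption)) | assumption | exact (fun h => absurd (Tch.symm h) (by assumption)))
  · intro p hp
    simp only [List.mem_cons, List.not_mem_nil, or_false] at hp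
    rcases hp with rfl <;> exact sne (by assumption)
  · intro c hc
    simp only [CZ_f1.I, List.mem_cons, List.not_mem_nil, or_false] at hc
    rcases hc with rfl
    rintro ⟨-, hn⟩
    rcases e21 with h1 | h1 | h1 | h1
    · exact hn _ List.mem_cons_self (tch1.2 h1.symm)
    · exact hn _ (List.mem_cons_of_mem _ List.mem_cons_self) (tch1.2 h1.symm)
    · exact hn _ (List.mem_cons_of_mem _ (List.mem_cons_of_mem _ List.mem_cons_self)) (tch1.2 h1.symm)
    · exact hn _ (List.mem_cons_of_mem _ (List.mem_cons_of_mem _ (List.mem_cons_of_mem _ List.mem_cons_self))) (tch1.2 h1.symm)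

namespace CZ_f2

open Tr

def A : List (ℕ × ℕ) := [(4, 1), (5, 1), (6, 1), (9, 1), (10, 1), (3, 2), (4, 2), (6, 3), (5, 4), (6, 4), (7,
    4), (8, 4), (6, 5), (8, 5)]

def N : List (ℕ × ℕ) := [(1, 0), (2, 0), (3, 0), (4, 0), (5, 0), (6, 0), (7, 0), (8, 0), (10, 0), (2, 1), (3,
    1), (7, 1), (8, 1), (5, 2), (6, 2), (7, 2), (8, 2), (10, 2), (4, 3), (5, 3), (7, 3), (8, 3), (10, 3), (7,
    5), (7, 6), (8, 6), (10, 7), (10, 8), (10, 9)]

def I : List (List (ℕ × ℕ) × List (ℕ × ℕ)) := [([], [(9, 2), (9, 3), (9, 7), (9, 8)])]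

def cs : List Cert := [
  (true, 133804471274260488607532327127031777612267520, 3032901347239010402755967013402471085683769344, [[4],
      [2], [1, 9], [7], [3], [5]]),
  (true, 2899102320409930553083841439260759424898170880, 7314669606054734914738290651752372035072819200, [[4,
      7], [6], [1], [8], [3], [9]]),
  (true, 16333636693391579247095954383971398189056, 68057013383060989986302419527594955243520, [[4], [6], [5],
      [7], [3], [8]]),
  (true, 2923003290995359451940001155162182092371353665536, 526140589463625380971634118818778990243796054179840,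
      [[1, 4], [6], [5], [10], [3], [8]]),
  (true, 96459108074728628346240815033553408143295325929472,
      432604484675128158940440166451716052248090231439360, [[6], [5], [1], [3], [8], [10]]),
  (true, 49695382013819214162983871160120729183433974087680,
      947053239396387229624439908577626202719497186443264, [[5, 6], [9], [1], [3], [7], [10]]),
  (true, 49691278687591720269795859418786550448633363300352,
      1139976986113639053175608458636826133625117134028800, [[5, 6], [3, 9], [1], [8], [2], [10]]),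
  (true, 49696809315957098827838238724802185739846952157184,
      1321197658555820635619950743132108208964953507364864, [[1, 6], [8, 9], [5], [3], [7], [10]]),
  (true, 2928935321885358895527893462497983949735764951040,
      1321200334645243950449635581333934348378200193630208, [[1, 4], [9], [8], [10], [3], [7]]),
  (true, 2931789822715205609275291310423565912086484615168,
      1321197480149858715067966664617393802389246342856704, [[9], [1, 5], [8], [3], [10], [7]])]

def t : Tr := bt 135 (lf 2) (bt 165 (bt 166 (lf 3) (lf 4)) (bt 147 (bt 152 (bt 151 (bt 146 (im 0) (lf 0)) (bt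
    150 (lf 1) (lf 5))) (lf 7)) (bt 152 (lf 6) (bt 151 (lf 8) (lf 9)))))

theorem ok : ckU 11 11 A N [(9, 4), (9, 5), (9, 6), (10, 9)] I cs t = true := by decide +kernel

end CZ_f2

/-- f2 -/
theorem cZ_f2 {V : Type} {G : SimpleGraph V} (hH : FH G) (hJ : FJ 2 G) {p q y0 y1 w0 w1 w2 z1 z2 x t : V} (h :
    CZ G p q y0 y1 w0 w1 w2 z1 z2) (e1 : ¬ G.Adj p t) (e2 : G.Adj q x) (e3 : G.Adj q t) (e4 : ¬ G.Adj y0 t)
    (e5 : ¬ G.Adj y1 t) (e6 : ¬ G.Adj z1 t) (e7 : ¬ G.Adj z2 t) (e8 : ¬ G.Adj x t) (e9 : x ≠ w0) (e10 : x ≠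
    w1) (e11 : x ≠ w2) (e12 : t ≠ x) (e13 : G.Adj y0 x ∨ G.Adj y1 x ∨ G.Adj z1 x ∨ G.Adj z2 x) : False := by
  obtain ⟨a0, a1, a2, a3, a4, a5, a6, a7, a8, a9, a10, a11, a12, a13, a14, a15, a16, a17, a18, a19, a20, a21, a22, a23, a24, a25, a26, a27, a28, a29, a30, a31, a32, a33, a34⟩ := h
  refine refuteU hH hJ (fun k => ([p, q, y0, y1, w0, w1, w2, z1, z2, x, t] : List V).getD k p) (fun k => ([{p}, {q}, {y0}, {y1}, {w0}, {w1}, {w2}, {z1}, {z2}, {x}, {t}] : List (Set V)).getD k ∅) 11 11 ?_ ?_ ?_ ?_ CZ_f2.A CZ_f2.N [(9, 4), (9, 5), (9, 6), (10, 9)] ?_ ?_ ?_ CZ_f2.I ?_ CZ_f2.cs CZ_f2.t CZ_f2.ok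
  · intro i hi
    interval_cases i <;> rfl
  · intro i hi hi'
    interval_cases i <;> assumption
  · intro i hi hi' j hj
    interval_cases i <;> interval_cases j <;> assumption
  · intro i hi hi' j hj hj'
    interval_cases i <;> interval_cases j <;> assumption
  · intro p hp
    simp only [CZ_f2.A, List.mem_cons, List.not_mem_nil, or_false] at hp
    rcases hp with rfl | rfl | rfl | rfl | rfl | rfl | rfl | rfl | rfl | rfl | rfl | rfl | rfl | rfl <;> (first | exact tch1.2 (by assumption) | exact tch1.2 (SimpleGraph.Adj.symm (by assumption)) | assumption | exact Tch.symm (by assumption))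
  · intro p hp
    simp only [CZ_f2.N, List.mem_cons, List.not_mem_nil, or_false] at hp
    rcases hp with rfl | rfl | rfl | rfl | rfl | rfl | rfl | rfl | rfl | rfl | rfl | rfl | rfl | rfl | rfl | rfl | rfl | rfl | rfl | rfl | rfl | rfl | rfl | rfl | rfl | rfl | rfl | rfl | rfl <;> (first | exact tch2 (by assumption) | exact tch2 (fun h => absurd (SimpleGraph.Adj.symm h) (by assumption)) | assumption | exact (fun h => absurd (Tch.symm h) (by assumption)))
  · intro p hp
    simp only [List.mem_cons, List.not_mem_nil, or_false] at hp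
    rcases hp with rfl | rfl | rfl | rfl <;> exact sne (by assumption)
  · intro c hc
    simp only [CZ_f2.I, List.mem_cons, List.not_mem_nil, or_false] at hc
    rcases hc with rfl
    rintro ⟨-, hn⟩
    rcases e13 with h1 | h1 | h1 | h1
    · exact hn _ List.mem_cons_self (tch1.2 h1.symm)
    · exact hn _ (List.mem_cons_of_mem _ List.mem_cons_self) (tch1.2 h1.symm)
    · exact hn _ (List.mem_cons_of_mem _ (List.mem_cons_of_mem _ List.mem_cons_self)) (tch1.2 h1.symm)
    · exact hn _ (List.mem_cons_of_mem _ (List.mem_cons_of_mem _ (List.mem_cons_of_mem _ List.mem_cons_self))) (tch1.2 h1.symm)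

namespace CZ_f3

open Tr

def A : List (ℕ × ℕ) := [(4, 1), (5, 1), (6, 1), (9, 1), (11, 1), (3, 2), (4, 2), (6, 3), (5, 4), (6, 4), (7,
    4), (8, 4), (6, 5), (8, 5), (11, 9), (11, 10)]

def N : List (ℕ × ℕ) := [(1, 0), (2, 0), (3, 0), (4, 0), (5, 0), (6, 0), (7, 0), (8, 0), (10, 0), (11, 0), (2,
    1), (3, 1), (7, 1), (8, 1), (10, 1), (5, 2), (6, 2), (7, 2), (8, 2), (10, 2), (11, 2), (4, 3), (5, 3), (7,
    3), (8, 3), (10, 3), (11, 3), (7, 5), (7, 6), (8, 6), (10, 7), (11, 7), (10, 8), (11, 8), (10, 9)]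

def I : List (List (ℕ × ℕ) × List (ℕ × ℕ)) := [([], [(9, 2), (9, 3), (9, 7), (9, 8)])]

def cs : List Cert := [
  (true, 6321544106071802429763926284611099661156144882785452032,
      28351167506018969060524572151736687593225103694595358720, [[6], [5], [1], [3], [8], [11]]),
  (true, 16333636693391579247095954383971398189056, 68057013383060989986302419527594955243520, [[4], [6], [5],
      [7], [3], [8]]),
  (true, 3256553030093660530411098722493694891683019986204360704,
      37546140754247181099588985746943832119360940673308033024, [[5, 6], [8], [1, 9], [3], [7], [11]]),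
  (true, 101144705700047815972638595478059447084959666330004357120,
      767665427199585867302339754388723491303033514072473600, [[5, 11], [6], [1, 9], [10], [3], [7, 8]]),
  (true, 101144799236152550705246653163734586787135735226773274624,
      13027162073602726345071025984348472870827897388351356928, [[6], [1, 9], [5, 11], [3], [7], [10]]),
  (true, 3064991081731837606496348889226088050125684538473447424,
      38695512406863695034864652806211250237777148946759548928, [[4], [5], [8], [2], [11], [7]]),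
  (true, 1724057483474124965736219215212880481393835033285885952,
      19156194260823610729863567806910442187320011295287148544, [[4], [6], [1], [7], [3], [11]]),
  (true, 153249554086811893287820009738727900687244897668766367744,
      383892635166911250318684704488378990921530579806584832, [[6, 11], [3], [9], [10], [2], [1]]),
  (true, 148652067464125023731950845372429205231335175363009445888,
      767016520472586445702393636929449250433411021877018624, [[4, 11], [2], [9], [10], [3], [1]]),
  (true, 55361401413914050368422211723143707276018183219938590720,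
      24903052546206955551053889537216955350861100677100208128, [[1, 5], [9], [11], [8], [2], [6]]),
  (true, 105742215703772528521255714783541114714621904111911567360,
      13026504397687521477003435841558679054191362050449473536, [[4], [6], [11], [7], [3], [10]]),
  (true, 150184656542478358859440600075516053963736021346071609344,
      24904180824043705537329299960787864695927904278885171200, [[5, 6], [9], [11], [8], [2], [10]]),
  (true, 153249554092565485549040910350787790973059499750221414400,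
      24904192510347837914059224373597916208087357551426928640, [[9], [6, 11], [3], [8], [10], [2]]),
  (true, 191561942608236107377872188062571371563198105847332864,
      21071813686905971802832270778282467829783604602247053312, [[4], [1], [6], [7], [11], [2, 3]]),
  (true, 105742192319746331226809023524583791327881691811735928832,
      13409657512936740309672155859477049838696609345286701056, [[4], [11], [6], [7], [10], [2, 3]])]

def t : Tr := bt 135 (lf 1) (bt 182 (bt 180 (lf 13) (lf 6)) (bt 181 (lf 0) (bt 180 (lf 5) (bt 147 (bt 146 (bt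
    151 (bt 152 (im 0) (lf 2)) (bt 166 (lf 3) (lf 4))) (lf 8)) (bt 146 (lf 7) (bt 152 (bt 150 (lf 9) (bt 166
    (bt 164 (lf 14) (lf 10)) (lf 11))) (lf 12)))))))

theorem ok : ckU 12 12 A N [(9, 4), (9, 5), (9, 6)] I cs t = true := by decide +kernel

end CZ_f3

/-- f3 -/
theorem cZ_f3 {V : Type} {G : SimpleGraph V} (hH : FH G) (hJ : FJ 2 G) {p q y0 y1 w0 w1 w2 z1 z2 x s t : V} (h
    : CZ G p q y0 y1 w0 w1 w2 z1 z2) (e1 : ¬ G.Adj p s) (e2 : ¬ G.Adj p t) (e3 : G.Adj q x) (e4 : ¬ G.Adj q s)
    (e5 : G.Adj q t) (e6 : ¬ G.Adj y0 s) (e7 : ¬ G.Adj y0 t) (e8 : ¬ G.Adj y1 s) (e9 : ¬ G.Adj y1 t) (e10 : ¬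
    G.Adj z1 s) (e11 : ¬ G.Adj z1 t) (e12 : ¬ G.Adj z2 s) (e13 : ¬ G.Adj z2 t) (e14 : ¬ G.Adj x s) (e15 :
    G.Adj x t) (e16 : G.Adj s t) (e17 : x ≠ w0) (e18 : x ≠ w1) (e19 : x ≠ w2) (e20 : G.Adj y0 x ∨ G.Adj y1 x ∨
    G.Adj z1 x ∨ G.Adj z2 x) : False := by
  obtain ⟨a0, a1, a2, a3, a4, a5, a6, a7, a8, a9, a10, a11, a12, a13, a14, a15, a16, a17, a18, a19, a20, a21, a22, a23, a24, a25, a26, a27, a28, a29, a30, a31, a32, a33, a34⟩ := h
  refine refuteU hH hJ (fun k => ([p, q, y0, y1, w0, w1, w2, z1, z2, x, s, t] : List V).getD k p) (fun k => ([{p}, {q}, {y0}, {y1}, {w0}, {w1}, {w2}, {z1}, {z2}, {x}, {s}, {t}] : List (Set V)).getD k ∅) 12 12 ?_ ?_ ?_ ?_ CZ_f3.A CZ_f3.N [(9, 4), (9, 5), (9, 6)] ?_ ?_ ?_ CZ_f3.I ?_ CZ_f3.cs CZ_f3.t CZ_f3.ok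
  · intro i hi
    interval_cases i <;> rfl
  · intro i hi hi'
    interval_cases i <;> assumption
  · intro i hi hi' j hj
    interval_cases i <;> interval_cases j <;> assumption
  · intro i hi hi' j hj hj'
    interval_cases i <;> interval_cases j <;> assumption
  · intro p hp
    simp only [CZ_f3.A, List.mem_cons, List.not_mem_nil, or_false] at hp
    rcases hp with rfl | rfl | rfl | rfl | rfl | rfl | rfl | rfl | rfl | rfl | rfl | rfl | rfl | rfl | rfl | rfl <;> (first | exact tch1.2 (by assumption) | exact tch1.2 (SimpleGraph.Adj.symm (by assumption)) | assumption | exact Tch.symm (by assumption))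
  · intro p hp
    simp only [CZ_f3.N, List.mem_cons, List.not_mem_nil, or_false] at hp
    rcases hp with rfl | rfl | rfl | rfl | rfl | rfl | rfl | rfl | rfl | rfl | rfl | rfl | rfl | rfl | rfl | rfl | rfl | rfl | rfl | rfl | rfl | rfl | rfl | rfl | rfl | rfl | rfl | rfl | rfl | rfl | rfl | rfl | rfl | rfl | rfl <;> (first | exact tch2 (by assumption) | exact tch2 (fun h => absurd (SimpleGraph.Adj.symm h) (by assumption)) | assumption | exact (fun h => absurd (Tch.symm h) (by assumption)))
  · intro p hp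
    simp only [List.mem_cons, List.not_mem_nil, or_false] at hp
    rcases hp with rfl | rfl | rfl <;> exact sne (by assumption)
  · intro c hc
    simp only [CZ_f3.I, List.mem_cons, List.not_mem_nil, or_false] at hc
    rcases hc with rfl
    rintro ⟨-, hn⟩
    rcases e20 with h1 | h1 | h1 | h1
    · exact hn _ List.mem_cons_self (tch1.2 h1.symm)
    · exact hn _ (List.mem_cons_of_mem _ List.mem_cons_self) (tch1.2 h1.symm)
    · exact hn _ (List.mem_cons_of_mem _ (List.mem_cons_of_mem _ List.mem_cons_self)) (tch1.2 h1.symm)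
    · exact hn _ (List.mem_cons_of_mem _ (List.mem_cons_of_mem _ (List.mem_cons_of_mem _ List.mem_cons_self))) (tch1.2 h1.symm)

namespace CZ_g0

open Tr

def A : List (ℕ × ℕ) := [(4, 1), (5, 1), (6, 1), (9, 1), (3, 2), (4, 2), (6, 3), (5, 4), (6, 4), (7, 4), (8,
    4), (6, 5), (8, 5)]

def N : List (ℕ × ℕ) := [(1, 0), (2, 0), (3, 0), (4, 0), (5, 0), (6, 0), (7, 0), (8, 0), (9, 0), (2, 1), (3,
    1), (7, 1), (8, 1), (5, 2), (6, 2), (7, 2), (8, 2), (9, 2), (4, 3), (5, 3), (7, 3), (8, 3), (9, 3), (9,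
    4), (7, 5), (7, 6), (8, 6), (9, 7), (9, 8)]

def I : List (List (ℕ × ℕ) × List (ℕ × ℕ)) := []

def cs : List Cert := [
  (true, 44601490480140055951854160156152438586343424, 4906163944081736246103574575008581203538214912, [[4],
      [1], [6], [7], [9], [2, 3]]),
  (true, 1471849183186099937010140055817545380224040960, 3389713270560884685045006569528323216901144576, [[6],
      [4], [1], [3], [7], [9]])]

def t : Tr := bt 150 (lf 0) (lf 1)

theorem ok : ckU 10 10 A N [] I cs t = true := by decide +kernel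

end CZ_g0

/-- f2 for `w0` -/
theorem cZ_g0 {V : Type} {G : SimpleGraph V} (hH : FH G) (hJ : FJ 2 G) {p q y0 y1 w0 w1 w2 z1 z2 t : V} (h :
    CZ G p q y0 y1 w0 w1 w2 z1 z2) (e1 : ¬ G.Adj p t) (e2 : G.Adj q t) (e3 : ¬ G.Adj y0 t) (e4 : ¬ G.Adj y1 t)
    (e5 : ¬ G.Adj w0 t) (e6 : ¬ G.Adj z1 t) (e7 : ¬ G.Adj z2 t) : False := by
  obtain ⟨a0, a1, a2, a3, a4, a5, a6, a7, a8, a9, a10, a11, a12, a13, a14, a15, a16, a17, a18, a19, a20, a21, a22, a23, a24, a25, a26, a27, a28, a29, a30, a31, a32, a33, a34⟩ := h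
  refine refuteU hH hJ (fun k => ([p, q, y0, y1, w0, w1, w2, z1, z2, t] : List V).getD k p) (fun k => ([{p}, {q}, {y0}, {y1}, {w0}, {w1}, {w2}, {z1}, {z2}, {t}] : List (Set V)).getD k ∅) 10 10 ?_ ?_ ?_ ?_ CZ_g0.A CZ_g0.N [] ?_ ?_ ?_ CZ_g0.I ?_ CZ_g0.cs CZ_g0.t CZ_g0.ok
  · intro i hi
    interval_cases i <;> rfl
  · intro i hi hi'
    interval_cases i <;> assumption
  · intro i hi hi' j hj
    interval_cases i <;> interval_cases j <;> assumption
  · intro i hi hi' j hj hj'
    interval_cases i <;> interval_cases j <;> assumption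
  · intro p hp
    simp only [CZ_g0.A, List.mem_cons, List.not_mem_nil, or_false] at hp
    rcases hp with rfl | rfl | rfl | rfl | rfl | rfl | rfl | rfl | rfl | rfl | rfl | rfl | rfl <;> (first | exact tch1.2 (by assumption) | exact tch1.2 (SimpleGraph.Adj.symm (by assumption)) | assumption | exact Tch.symm (by assumption))
  · intro p hp
    simp only [CZ_g0.N, List.mem_cons, List.not_mem_nil, or_false] at hp
    rcases hp with rfl | rfl | rfl | rfl | rfl | rfl | rfl | rfl | rfl | rfl | rfl | rfl | rfl | rfl | rfl | rfl | rfl | rfl | rfl | rfl | rfl | rfl | rfl | rfl | rfl | rfl | rfl | rfl | rfl <;> (first | exact tch2 (by assumption) | exact tch2 (fun h => absurd (SimpleGraph.Adj.symm h) (by assumption)) | assumption | exact (fun h => absurd (Tch.symm h) (by assumption)))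
  · simp
  · simp [CZ_g0.I]

namespace CZ_h0

open Tr

def A : List (ℕ × ℕ) := [(4, 1), (5, 1), (6, 1), (10, 1), (3, 2), (4, 2), (6, 3), (5, 4), (6, 4), (7, 4), (8,
    4), (10, 4), (6, 5), (8, 5), (10, 9)]

def N : List (ℕ × ℕ) := [(1, 0), (2, 0), (3, 0), (4, 0), (5, 0), (6, 0), (7, 0), (8, 0), (9, 0), (10, 0), (2,
    1), (3, 1), (7, 1), (8, 1), (9, 1), (5, 2), (6, 2), (7, 2), (8, 2), (9, 2), (10, 2), (4, 3), (5, 3), (7,
    3), (8, 3), (9, 3), (10, 3), (9, 4), (7, 5), (7, 6), (8, 6), (9, 7), (10, 7), (9, 8), (10, 8)]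

def I : List (List (ℕ × ℕ) × List (ℕ × ℕ)) := []

def cs : List Cert := [
  (true, 774595867801712100260158010003834301268069728649216,
      379997338938407432693815691268454882990861676707840, [[4], [10], [1, 5], [2], [9], [8]]),
  (true, 751212555211930536016553417977668473393873107812352,
      198767612390273523913885655370468131972306262032384, [[5, 6], [4], [1, 10], [3], [7], [9]])]

def t : Tr := bt 149 (lf 0) (lf 1)

theorem ok : ckU 11 11 A N [] I cs t = true := by decide +kernel

end CZ_h0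

/-- f3 for `w0` -/
theorem cZ_h0 {V : Type} {G : SimpleGraph V} (hH : FH G) (hJ : FJ 2 G) {p q y0 y1 w0 w1 w2 z1 z2 s t : V} (h :
    CZ G p q y0 y1 w0 w1 w2 z1 z2) (e1 : ¬ G.Adj p s) (e2 : ¬ G.Adj p t) (e3 : ¬ G.Adj q s) (e4 : G.Adj q t)
    (e5 : ¬ G.Adj y0 s) (e6 : ¬ G.Adj y0 t) (e7 : ¬ G.Adj y1 s) (e8 : ¬ G.Adj y1 t) (e9 : ¬ G.Adj w0 s) (e10 :
    G.Adj w0 t) (e11 : ¬ G.Adj z1 s) (e12 : ¬ G.Adj z1 t) (e13 : ¬ G.Adj z2 s) (e14 : ¬ G.Adj z2 t) (e15 :
    G.Adj s t) : False := by
  obtain ⟨a0, a1, a2, a3, a4, a5, a6, a7, a8, a9, a10, a11, a12, a13, a14, a15, a16, a17, a18, a19, a20, a21, a22, a23, a24, a25, a26, a27, a28, a29, a30, a31, a32, a33, a34⟩ := h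
  refine refuteU hH hJ (fun k => ([p, q, y0, y1, w0, w1, w2, z1, z2, s, t] : List V).getD k p) (fun k => ([{p}, {q}, {y0}, {y1}, {w0}, {w1}, {w2}, {z1}, {z2}, {s}, {t}] : List (Set V)).getD k ∅) 11 11 ?_ ?_ ?_ ?_ CZ_h0.A CZ_h0.N [] ?_ ?_ ?_ CZ_h0.I ?_ CZ_h0.cs CZ_h0.t CZ_h0.ok
  · intro i hi
    interval_cases i <;> rfl
  · intro i hi hi'
    interval_cases i <;> assumption
  · intro i hi hi' j hj
    interval_cases i <;> interval_cases j <;> assumption
  · intro i hi hi' j hj hj'
    interval_cases i <;> interval_cases j <;> assumption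
  · intro p hp
    simp only [CZ_h0.A, List.mem_cons, List.not_mem_nil, or_false] at hp
    rcases hp with rfl | rfl | rfl | rfl | rfl | rfl | rfl | rfl | rfl | rfl | rfl | rfl | rfl | rfl | rfl <;> (first | exact tch1.2 (by assumption) | exact tch1.2 (SimpleGraph.Adj.symm (by assumption)) | assumption | exact Tch.symm (by assumption))
  · intro p hp
    simp only [CZ_h0.N, List.mem_cons, List.not_mem_nil, or_false] at hp
    rcases hp with rfl | rfl | rfl | rfl | rfl | rfl | rfl | rfl | rfl | rfl | rfl | rfl | rfl | rfl | rfl | rfl | rfl | rfl | rfl | rfl | rfl | rfl | rfl | rfl | rfl | rfl | rfl | rfl | rfl | rfl | rfl | rfl | rfl | rfl | rfl <;> (first | exact tch2 (by assumption) | exact tch2 (fun h => absurd (SimpleGraph.Adj.symm h) (by assumption)) | assumption | exact (fun h => absurd (Tch.symm h) (by assumption)))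
  · simp
  · simp [CZ_h0.I]

namespace CZ_g1

open Tr

def A : List (ℕ × ℕ) := [(4, 1), (5, 1), (6, 1), (9, 1), (3, 2), (4, 2), (6, 3), (5, 4), (6, 4), (7, 4), (8,
    4), (6, 5), (8, 5)]

def N : List (ℕ × ℕ) := [(1, 0), (2, 0), (3, 0), (4, 0), (5, 0), (6, 0), (7, 0), (8, 0), (9, 0), (2, 1), (3,
    1), (7, 1), (8, 1), (5, 2), (6, 2), (7, 2), (8, 2), (9, 2), (4, 3), (5, 3), (7, 3), (8, 3), (9, 3), (7,
    5), (9, 5), (7, 6), (8, 6), (9, 7), (9, 8)]

def I : List (List (ℕ × ℕ) × List (ℕ × ℕ)) := []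

def cs : List Cert := [
  (true, 44617823950676778914561166161349782500540416, 8028292771801442638531899495256577802491658240, [[1, 4],
      [6], [5], [9], [3], [8]]),
  (true, 1471860072138765924957431684723637863172800512, 6601045759660216599350540304982344939968921600, [[6],
      [5], [1], [3], [8], [9]])]

def t : Tr := bt 150 (lf 0) (lf 1)

theorem ok : ckU 10 10 A N [] I cs t = true := by decide +kernel

end CZ_g1

/-- f2 for `w1` -/
theorem cZ_g1 {V : Type} {G : SimpleGraph V} (hH : FH G) (hJ : FJ 2 G) {p q y0 y1 w0 w1 w2 z1 z2 t : V} (h :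
    CZ G p q y0 y1 w0 w1 w2 z1 z2) (e1 : ¬ G.Adj p t) (e2 : G.Adj q t) (e3 : ¬ G.Adj y0 t) (e4 : ¬ G.Adj y1 t)
    (e5 : ¬ G.Adj w1 t) (e6 : ¬ G.Adj z1 t) (e7 : ¬ G.Adj z2 t) : False := by
  obtain ⟨a0, a1, a2, a3, a4, a5, a6, a7, a8, a9, a10, a11, a12, a13, a14, a15, a16, a17, a18, a19, a20, a21, a22, a23, a24, a25, a26, a27, a28, a29, a30, a31, a32, a33, a34⟩ := h
  refine refuteU hH hJ (fun k => ([p, q, y0, y1, w0, w1, w2, z1, z2, t] : List V).getD k p) (fun k => ([{p}, {q}, {y0}, {y1}, {w0}, {w1}, {w2}, {z1}, {z2}, {t}] : List (Set V)).getD k ∅) 10 10 ?_ ?_ ?_ ?_ CZ_g1.A CZ_g1.N [] ?_ ?_ ?_ CZ_g1.I ?_ CZ_g1.cs CZ_g1.t CZ_g1.ok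
  · intro i hi
    interval_cases i <;> rfl
  · intro i hi hi'
    interval_cases i <;> assumption
  · intro i hi hi' j hj
    interval_cases i <;> interval_cases j <;> assumption
  · intro i hi hi' j hj hj'
    interval_cases i <;> interval_cases j <;> assumption
  · intro p hp
    simp only [CZ_g1.A, List.mem_cons, List.not_mem_nil, or_false] at hp
    rcases hp with rfl | rfl | rfl | rfl | rfl | rfl | rfl | rfl | rfl | rfl | rfl | rfl | rfl <;> (first | exact tch1.2 (by assumption) | exact tch1.2 (SimpleGraph.Adj.symm (by assumption)) | assumption | exact Tch.symm (by assumption))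
  · intro p hp
    simp only [CZ_g1.N, List.mem_cons, List.not_mem_nil, or_false] at hp
    rcases hp with rfl | rfl | rfl | rfl | rfl | rfl | rfl | rfl | rfl | rfl | rfl | rfl | rfl | rfl | rfl | rfl | rfl | rfl | rfl | rfl | rfl | rfl | rfl | rfl | rfl | rfl | rfl | rfl | rfl <;> (first | exact tch2 (by assumption) | exact tch2 (fun h => absurd (SimpleGraph.Adj.symm h) (by assumption)) | assumption | exact (fun h => absurd (Tch.symm h) (by assumption)))
  · simp
  · simp [CZ_g1.I]

namespace CZ_h1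

open Tr

def A : List (ℕ × ℕ) := [(4, 1), (5, 1), (6, 1), (10, 1), (3, 2), (4, 2), (6, 3), (5, 4), (6, 4), (7, 4), (8,
    4), (6, 5), (8, 5), (10, 5), (10, 9)]

def N : List (ℕ × ℕ) := [(1, 0), (2, 0), (3, 0), (4, 0), (5, 0), (6, 0), (7, 0), (8, 0), (9, 0), (10, 0), (2,
    1), (3, 1), (7, 1), (8, 1), (9, 1), (5, 2), (6, 2), (7, 2), (8, 2), (9, 2), (10, 2), (4, 3), (5, 3), (7,
    3), (8, 3), (9, 3), (10, 3), (7, 5), (9, 5), (7, 6), (8, 6), (9, 7), (10, 7), (9, 8), (10, 8)]

def I : List (List (ℕ × ℕ) × List (ℕ × ℕ)) := []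

def cs : List Cert := [
  (true, 751211841604417653568899072023186886787641603260416,
      379997294337597600366411285123945086909002201169920, [[4], [1, 10], [5], [2], [9], [8]]),
  (true, 356828256730106612107261346260269814226354176, 8028292771801442638531899495256014852538236928, [[4],
      [6], [5], [9], [3], [8]]),
  (true, 751213268846665841661372678376417650444289487929344,
      385843033301118030622372146377403699534106160267264, [[6], [5], [1, 10], [3], [8], [9]])]

def t : Tr := bt 148 (lf 0) (bt 150 (lf 1) (lf 2))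

theorem ok : ckU 11 11 A N [] I cs t = true := by decide +kernel

end CZ_h1

/-- f3 for `w1` -/
theorem cZ_h1 {V : Type} {G : SimpleGraph V} (hH : FH G) (hJ : FJ 2 G) {p q y0 y1 w0 w1 w2 z1 z2 s t : V} (h :
    CZ G p q y0 y1 w0 w1 w2 z1 z2) (e1 : ¬ G.Adj p s) (e2 : ¬ G.Adj p t) (e3 : ¬ G.Adj q s) (e4 : G.Adj q t)
    (e5 : ¬ G.Adj y0 s) (e6 : ¬ G.Adj y0 t) (e7 : ¬ G.Adj y1 s) (e8 : ¬ G.Adj y1 t) (e9 : ¬ G.Adj w1 s) (e10 :
    G.Adj w1 t) (e11 : ¬ G.Adj z1 s) (e12 : ¬ G.Adj z1 t) (e13 : ¬ G.Adj z2 s) (e14 : ¬ G.Adj z2 t) (e15 :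
    G.Adj s t) : False := by
  obtain ⟨a0, a1, a2, a3, a4, a5, a6, a7, a8, a9, a10, a11, a12, a13, a14, a15, a16, a17, a18, a19, a20, a21, a22, a23, a24, a25, a26, a27, a28, a29, a30, a31, a32, a33, a34⟩ := h
  refine refuteU hH hJ (fun k => ([p, q, y0, y1, w0, w1, w2, z1, z2, s, t] : List V).getD k p) (fun k => ([{p}, {q}, {y0}, {y1}, {w0}, {w1}, {w2}, {z1}, {z2}, {s}, {t}] : List (Set V)).getD k ∅) 11 11 ?_ ?_ ?_ ?_ CZ_h1.A CZ_h1.N [] ?_ ?_ ?_ CZ_h1.I ?_ CZ_h1.cs CZ_h1.t CZ_h1.ok
  · intro i hi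
    interval_cases i <;> rfl
  · intro i hi hi'
    interval_cases i <;> assumption
  · intro i hi hi' j hj
    interval_cases i <;> interval_cases j <;> assumption
  · intro i hi hi' j hj hj'
    interval_cases i <;> interval_cases j <;> assumption
  · intro p hp
    simp only [CZ_h1.A, List.mem_cons, List.not_mem_nil, or_false] at hp
    rcases hp with rfl | rfl | rfl | rfl | rfl | rfl | rfl | rfl | rfl | rfl | rfl | rfl | rfl | rfl | rfl <;> (first | exact tch1.2 (by assumption) | exact tch1.2 (SimpleGraph.Adj.symm (by assumption)) | assumption | exact Tch.symm (by assumption))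
  · intro p hp
    simp only [CZ_h1.N, List.mem_cons, List.not_mem_nil, or_false] at hp
    rcases hp with rfl | rfl | rfl | rfl | rfl | rfl | rfl | rfl | rfl | rfl | rfl | rfl | rfl | rfl | rfl | rfl | rfl | rfl | rfl | rfl | rfl | rfl | rfl | rfl | rfl | rfl | rfl | rfl | rfl | rfl | rfl | rfl | rfl | rfl | rfl <;> (first | exact tch2 (by assumption) | exact tch2 (fun h => absurd (SimpleGraph.Adj.symm h) (by assumption)) | assumption | exact (fun h => absurd (Tch.symm h) (by assumption)))
  · simp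
  · simp [CZ_h1.I]

namespace CZ_g2

open Tr

def A : List (ℕ × ℕ) := [(4, 1), (5, 1), (6, 1), (9, 1), (3, 2), (4, 2), (6, 3), (5, 4), (6, 4), (7, 4), (8,
    4), (6, 5), (8, 5)]

def N : List (ℕ × ℕ) := [(1, 0), (2, 0), (3, 0), (4, 0), (5, 0), (6, 0), (7, 0), (8, 0), (9, 0), (2, 1), (3,
    1), (7, 1), (8, 1), (5, 2), (6, 2), (7, 2), (8, 2), (9, 2), (4, 3), (5, 3), (7, 3), (8, 3), (9, 3), (7,
    5), (7, 6), (8, 6), (9, 6), (9, 7), (9, 8)]

def I : List (List (ℕ × ℕ) × List (ℕ × ℕ)) := []

def cs : List Cert := [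
  (true, 44601490480140055951854160156152438586343424, 4906163944081736246103574575008581203538214912, [[4],
      [1], [6], [7], [9], [2, 3]]),
  (true, 401413413656630026216425578730424027936980992, 4460149040090354595838721046615444569188204544, [[4],
      [6], [1], [7], [3], [9]])]

def t : Tr := bt 148 (lf 0) (lf 1)

theorem ok : ckU 10 10 A N [] I cs t = true := by decide +kernel

end CZ_g2

/-- f2 for `w2` -/
theorem cZ_g2 {V : Type} {G : SimpleGraph V} (hH : FH G) (hJ : FJ 2 G) {p q y0 y1 w0 w1 w2 z1 z2 t : V} (h :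
    CZ G p q y0 y1 w0 w1 w2 z1 z2) (e1 : ¬ G.Adj p t) (e2 : G.Adj q t) (e3 : ¬ G.Adj y0 t) (e4 : ¬ G.Adj y1 t)
    (e5 : ¬ G.Adj w2 t) (e6 : ¬ G.Adj z1 t) (e7 : ¬ G.Adj z2 t) : False := by
  obtain ⟨a0, a1, a2, a3, a4, a5, a6, a7, a8, a9, a10, a11, a12, a13, a14, a15, a16, a17, a18, a19, a20, a21, a22, a23, a24, a25, a26, a27, a28, a29, a30, a31, a32, a33, a34⟩ := h
  refine refuteU hH hJ (fun k => ([p, q, y0, y1, w0, w1, w2, z1, z2, t] : List V).getD k p) (fun k => ([{p}, {q}, {y0}, {y1}, {w0}, {w1}, {w2}, {z1}, {z2}, {t}] : List (Set V)).getD k ∅) 10 10 ?_ ?_ ?_ ?_ CZ_g2.A CZ_g2.N [] ?_ ?_ ?_ CZ_g2.I ?_ CZ_g2.cs CZ_g2.t CZ_g2.ok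
  · intro i hi
    interval_cases i <;> rfl
  · intro i hi hi'
    interval_cases i <;> assumption
  · intro i hi hi' j hj
    interval_cases i <;> interval_cases j <;> assumption
  · intro i hi hi' j hj hj'
    interval_cases i <;> interval_cases j <;> assumption
  · intro p hp
    simp only [CZ_g2.A, List.mem_cons, List.not_mem_nil, or_false] at hp
    rcases hp with rfl | rfl | rfl | rfl | rfl | rfl | rfl | rfl | rfl | rfl | rfl | rfl | rfl <;> (first | exact tch1.2 (by assumption) | exact tch1.2 (SimpleGraph.Adj.symm (by assumption)) | assumption | exact Tch.symm (by assumption))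
  · intro p hp
    simp only [CZ_g2.N, List.mem_cons, List.not_mem_nil, or_false] at hp
    rcases hp with rfl | rfl | rfl | rfl | rfl | rfl | rfl | rfl | rfl | rfl | rfl | rfl | rfl | rfl | rfl | rfl | rfl | rfl | rfl | rfl | rfl | rfl | rfl | rfl | rfl | rfl | rfl | rfl | rfl <;> (first | exact tch2 (by assumption) | exact tch2 (fun h => absurd (SimpleGraph.Adj.symm h) (by assumption)) | assumption | exact (fun h => absurd (Tch.symm h) (by assumption)))
  · simp
  · simp [CZ_g2.I]

namespace CZ_h2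

open Tr

def A : List (ℕ × ℕ) := [(4, 1), (5, 1), (6, 1), (10, 1), (3, 2), (4, 2), (6, 3), (5, 4), (6, 4), (7, 4), (8,
    4), (6, 5), (8, 5), (10, 6), (10, 9)]

def N : List (ℕ × ℕ) := [(1, 0), (2, 0), (3, 0), (4, 0), (5, 0), (6, 0), (7, 0), (8, 0), (9, 0), (10, 0), (2,
    1), (3, 1), (7, 1), (8, 1), (9, 1), (5, 2), (6, 2), (7, 2), (8, 2), (9, 2), (10, 2), (4, 3), (5, 3), (7,
    3), (8, 3), (9, 3), (10, 3), (7, 5), (7, 6), (8, 6), (9, 6), (9, 7), (10, 7), (9, 8), (10, 8)]

def I : List (List (ℕ × ℕ) × List (ℕ × ℕ)) := []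

def cs : List Cert := [
  (true, 751211841588084183035503672798893082958864901472256,
      204615135390270490284761980154854631333034094231552, [[4], [1, 10], [6], [7], [9], [2, 3]]),
  (true, 751212198400007359525473937370311657230454252109824,
      198768682826042887230296975970461106117776014049280, [[4], [6], [1, 10], [7], [3], [9]])]

def t : Tr := bt 148 (lf 0) (lf 1)

theorem ok : ckU 11 11 A N [] I cs t = true := by decide +kernel

end CZ_h2

/-- f3 for `w2` -/
theorem cZ_h2 {V : Type} {G : SimpleGraph V} (hH : FH G) (hJ : FJ 2 G) {p q y0 y1 w0 w1 w2 z1 z2 s t : V} (h :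
    CZ G p q y0 y1 w0 w1 w2 z1 z2) (e1 : ¬ G.Adj p s) (e2 : ¬ G.Adj p t) (e3 : ¬ G.Adj q s) (e4 : G.Adj q t)
    (e5 : ¬ G.Adj y0 s) (e6 : ¬ G.Adj y0 t) (e7 : ¬ G.Adj y1 s) (e8 : ¬ G.Adj y1 t) (e9 : ¬ G.Adj w2 s) (e10 :
    G.Adj w2 t) (e11 : ¬ G.Adj z1 s) (e12 : ¬ G.Adj z1 t) (e13 : ¬ G.Adj z2 s) (e14 : ¬ G.Adj z2 t) (e15 :
    G.Adj s t) : False := by
  obtain ⟨a0, a1, a2, a3, a4, a5, a6, a7, a8, a9, a10, a11, a12, a13, a14, a15, a16, a17, a18, a19, a20, a21, a22, a23, a24, a25, a26, a27, a28, a29, a30, a31, a32, a33, a34⟩ := h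
  refine refuteU hH hJ (fun k => ([p, q, y0, y1, w0, w1, w2, z1, z2, s, t] : List V).getD k p) (fun k => ([{p}, {q}, {y0}, {y1}, {w0}, {w1}, {w2}, {z1}, {z2}, {s}, {t}] : List (Set V)).getD k ∅) 11 11 ?_ ?_ ?_ ?_ CZ_h2.A CZ_h2.N [] ?_ ?_ ?_ CZ_h2.I ?_ CZ_h2.cs CZ_h2.t CZ_h2.ok
  · intro i hi
    interval_cases i <;> rfl
  · intro i hi hi'
    interval_cases i <;> assumption
  · intro i hi hi' j hj
    interval_cases i <;> interval_cases j <;> assumption
  · intro i hi hi' j hj hj'
    interval_cases i <;> interval_cases j <;> assumption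
  · intro p hp
    simp only [CZ_h2.A, List.mem_cons, List.not_mem_nil, or_false] at hp
    rcases hp with rfl | rfl | rfl | rfl | rfl | rfl | rfl | rfl | rfl | rfl | rfl | rfl | rfl | rfl | rfl <;> (first | exact tch1.2 (by assumption) | exact tch1.2 (SimpleGraph.Adj.symm (by assumption)) | assumption | exact Tch.symm (by assumption))
  · intro p hp
    simp only [CZ_h2.N, List.mem_cons, List.not_mem_nil, or_false] at hp
    rcases hp with rfl | rfl | rfl | rfl | rfl | rfl | rfl | rfl | rfl | rfl | rfl | rfl | rfl | rfl | rfl | rfl | rfl | rfl | rfl | rfl | rfl | rfl | rfl | rfl | rfl | rfl | rfl | rfl | rfl | rfl | rfl | rfl | rfl | rfl | rfl <;> (first | exact tch2 (by assumption) | exact tch2 (fun h => absurd (SimpleGraph.Adj.symm h) (by assumption)) | assumption | exact (fun h => absurd (Tch.symm h) (by assumption)))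
  · simp
  · simp [CZ_h2.I]

/-- **The facts.** -/
theorem factsZ {V : Type} {G : SimpleGraph V} (hH : FH G) (hJ : FJ 2 G) {p q y0 y1 w0 w1 w2 z1 z2 : V} (h : CZ
    G p q y0 y1 w0 w1 w2 z1 z2) {Y : Set V} (hY : Y = {y0, y1, z1, z2}) : Facts G p q Y ∅ := by
  have h' := h
  obtain ⟨a0, a1, a2, a3, a4, a5, a6, a7, a8, a9, a10, a11, a12, a13, a14, a15, a16, a17, a18, a19, a20, a21, a22, a23, a24, a25, a26, a27, a28, a29, a30, a31, a32, a33, a34⟩ := h'
  have mp : p ∈ insert p Y := Set.mem_insert _ _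
  have iy0 : y0 ∈ Y := by rw [hY]; simp
  have my0 : y0 ∈ insert p Y := Or.inr iy0
  have iy1 : y1 ∈ Y := by rw [hY]; simp
  have my1 : y1 ∈ insert p Y := Or.inr iy1
  have iz1 : z1 ∈ Y := by rw [hY]; simp
  have mz1 : z1 ∈ insert p Y := Or.inr iz1
  have iz2 : z2 ∈ Y := by rw [hY]; simp
  have mz2 : z2 ∈ insert p Y := Or.inr iz2
  have nqp : q ≠ p := ned (x := w0) (by (first | assumption | exact SimpleGraph.Adj.symm (by assumption) | exact (fun h => absurd (SimpleGraph.Adj.symm h) (by assumption)) | exact Ne.symm (by assumption))) (by (first | assumption | exact SimpleGraph.Adj.symm (by assumption) | exact (fun h => absurd (SimpleGraph.Adj.symm h) (by assumption)) | exact Ne.symm (by assumption)))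
  have nqy0 : q ≠ y0 := ned' (x := y1) (by (first | assumption | exact SimpleGraph.Adj.symm (by assumption) | exact (fun h => absurd (SimpleGraph.Adj.symm h) (by assumption)) | exact Ne.symm (by assumption))) (by (first | assumption | exact SimpleGraph.Adj.symm (by assumption) | exact (fun h => absurd (SimpleGraph.Adj.symm h) (by assumption)) | exact Ne.symm (by assumption)))
  have nqy1 : q ≠ y1 := ned' (x := y0) (by (first | assumption | exact SimpleGraph.Adj.symm (by assumption) | exact (fun h => absurd (SimpleGraph.Adj.symm h) (by assumption)) | exact Ne.symm (by assumption))) (by (first | assumption | exact SimpleGraph.Adj.symm (by assumption) | exact (fun h => absurd (SimpleGraph.Adj.symm h) (by assumption)) | exact Ne.symm (by assumption)))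
  have nqz1 : q ≠ z1 := ned (x := w1) (by (first | assumption | exact SimpleGraph.Adj.symm (by assumption) | exact (fun h => absurd (SimpleGraph.Adj.symm h) (by assumption)) | exact Ne.symm (by assumption))) (by (first | assumption | exact SimpleGraph.Adj.symm (by assumption) | exact (fun h => absurd (SimpleGraph.Adj.symm h) (by assumption)) | exact Ne.symm (by assumption)))
  have nqz2 : q ≠ z2 := ned (x := w2) (by (first | assumption | exact SimpleGraph.Adj.symm (by assumption) | exact (fun h => absurd (SimpleGraph.Adj.symm h) (by assumption)) | exact Ne.symm (by assumption))) (by (first | assumption | exact SimpleGraph.Adj.symm (by assumption) | exact (fun h => absurd (SimpleGraph.Adj.symm h) (by assumption)) | exact Ne.symm (by assumption)))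
  have npy0 : p ≠ y0 := ned' (x := y1) (by (first | assumption | exact SimpleGraph.Adj.symm (by assumption) | exact (fun h => absurd (SimpleGraph.Adj.symm h) (by assumption)) | exact Ne.symm (by assumption))) (by (first | assumption | exact SimpleGraph.Adj.symm (by assumption) | exact (fun h => absurd (SimpleGraph.Adj.symm h) (by assumption)) | exact Ne.symm (by assumption)))
  have npy1 : p ≠ y1 := ned' (x := y0) (by (first | assumption | exact SimpleGraph.Adj.symm (by assumption) | exact (fun h => absurd (SimpleGraph.Adj.symm h) (by assumption)) | exact Ne.symm (by assumption))) (by (first | assumption | exact SimpleGraph.Adj.symm (by assumption) | exact (fun h => absurd (SimpleGraph.Adj.symm h) (by assumption)) | exact Ne.symm (by assumption)))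
  have npz1 : p ≠ z1 := ned' (x := w0) (by (first | assumption | exact SimpleGraph.Adj.symm (by assumption) | exact (fun h => absurd (SimpleGraph.Adj.symm h) (by assumption)) | exact Ne.symm (by assumption))) (by (first | assumption | exact SimpleGraph.Adj.symm (by assumption) | exact (fun h => absurd (SimpleGraph.Adj.symm h) (by assumption)) | exact Ne.symm (by assumption)))
  have npz2 : p ≠ z2 := ned' (x := w0) (by (first | assumption | exact SimpleGraph.Adj.symm (by assumption) | exact (fun h => absurd (SimpleGraph.Adj.symm h) (by assumption)) | exact Ne.symm (by assumption))) (by (first | assumption | exact SimpleGraph.Adj.symm (by assumption) | exact (fun h => absurd (SimpleGraph.Adj.symm h) (by assumption)) | exact Ne.symm (by assumption)))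
  have key : ∀ x, (∃ y ∈ Y, G.Adj x y) → G.Adj y0 x ∨ G.Adj y1 x ∨ G.Adj z1 x ∨ G.Adj z2 x := by
    rintro x ⟨y, hy, hxy⟩
    rw [hY] at hy
    simp only [Set.mem_insert_iff, Set.mem_singleton_iff] at hy
    rcases hy with rfl | rfl | rfl | rfl
    · exact Or.inl hxy.symm
    · exact Or.inr (Or.inl hxy.symm)
    · exact Or.inr (Or.inr (Or.inl hxy.symm))
    · exact Or.inr (Or.inr (Or.inr hxy.symm))
  refine ⟨⟨?_, ?_⟩, Set.notMem_empty _, ?_, fun Q _ _ _ z hz => hz.elim, ?_, ?_, ?_, ?_⟩
  · intro hq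
    rcases Set.mem_insert_iff.1 hq with hq | hq
    · exact nqp hq
    · rw [hY] at hq
      simp only [Set.mem_insert_iff, Set.mem_singleton_iff] at hq
      rcases hq with hq | hq | hq | hq
      · exact nqy0 hq
      · exact nqy1 hq
      · exact nqz1 hq
      · exact nqz2 hq
  · intro b hb
    rcases Set.mem_insert_iff.1 hb with rfl | hb
    · (first | assumption | exact SimpleGraph.Adj.symm (by assumption) | exact (fun h => absurd (SimpleGraph.Adj.symm h) (by assumption)) | exact Ne.symm (by assumption))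
    · rw [hY] at hb
      simp only [Set.mem_insert_iff, Set.mem_singleton_iff] at hb
      rcases hb with rfl | rfl | rfl | rfl
      · (first | assumption | exact SimpleGraph.Adj.symm (by assumption) | exact (fun h => absurd (SimpleGraph.Adj.symm h) (by assumption)) | exact Ne.symm (by assumption))
      · (first | assumption | exact SimpleGraph.Adj.symm (by assumption) | exact (fun h => absurd (SimpleGraph.Adj.symm h) (by assumption)) | exact Ne.symm (by assumption))
      · (first | assumption | exact SimpleGraph.Adj.symm (by assumption) | exact (fun h => absurd (SimpleGraph.Adj.symm h) (by assumption)) | exact Ne.symm (by assumption))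
      · (first | assumption | exact SimpleGraph.Adj.symm (by assumption) | exact (fun h => absurd (SimpleGraph.Adj.symm h) (by assumption)) | exact Ne.symm (by assumption))
  · intro hq
    rw [hY] at hq
    simp only [Set.mem_insert_iff, Set.mem_singleton_iff] at hq
    rcases hq with hq | hq | hq | hq
    · exact npy0 hq
    · exact npy1 hq
    · exact npz1 hq
    · exact npz2 hq
  · intro Q hQ cQ qQ _ x hxP _ hxQ hxp
    by_contra hno
    have hAQ : An G Q (insert p Y) := An.of hQ
    have cQ' : Conn G (Q ∪ {x}) := Conn.union cQ (Conn.singleton G x) (Or.inr (tQ hxQ))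
    have hAn : An G (Q ∪ {x}) Y := by
      rintro t (ht | rfl) y hy
      · exact hAQ t ht y (Or.inr hy)
      · exact ⟨fun e => hxP (Or.inr (e ▸ hy)), fun h1 => hno ⟨y, hy, h1⟩⟩
    have f1 : Tch G (Q ∪ {x}) {p} := ⟨x, Or.inr rfl, p, rfl, hxp⟩
    have f2 : p ∉ Q ∪ {x} := by
      rintro (h1 | h1)
      · exact hAQ.m1 mp h1
      · exact hxp.ne h1.symm
    have fw0 : Tch G (Q ∪ {x}) {w0} := ⟨q, Or.inl qQ, w0, rfl, by (first | assumption | exact SimpleGraph.Adj.symm (by assumption) | exact (fun h => absurd (SimpleGraph.Adj.symm h) (by assumption)) | exact Ne.symm (by assumption))⟩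
    have fm0 : w0 ∉ Q ∪ {x} := hAn.m2 iz2 (by (first | assumption | exact SimpleGraph.Adj.symm (by assumption) | exact (fun h => absurd (SimpleGraph.Adj.symm h) (by assumption)) | exact Ne.symm (by assumption)))
    have fw1 : Tch G (Q ∪ {x}) {w1} := ⟨q, Or.inl qQ, w1, rfl, by (first | assumption | exact SimpleGraph.Adj.symm (by assumption) | exact (fun h => absurd (SimpleGraph.Adj.symm h) (by assumption)) | exact Ne.symm (by assumption))⟩
    have fm1 : w1 ∉ Q ∪ {x} := hAn.m2 iz2 (by (first | assumption | exact SimpleGraph.Adj.symm (by assumption) | exact (fun h => absurd (SimpleGraph.Adj.symm h) (by assumption)) | exact Ne.symm (by assumption)))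
    have fw2 : Tch G (Q ∪ {x}) {w2} := ⟨q, Or.inl qQ, w2, rfl, by (first | assumption | exact SimpleGraph.Adj.symm (by assumption) | exact (fun h => absurd (SimpleGraph.Adj.symm h) (by assumption)) | exact Ne.symm (by assumption))⟩
    have fm2 : w2 ∉ Q ∪ {x} := hAn.m2 iy1 (by (first | assumption | exact SimpleGraph.Adj.symm (by assumption) | exact (fun h => absurd (SimpleGraph.Adj.symm h) (by assumption)) | exact Ne.symm (by assumption)))
    have fty0 : ¬ Tch G (Q ∪ {x}) {y0} := hAn.t1 iy0
    have fny0 : y0 ∉ Q ∪ {x} := hAn.m1 iy0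
    have fty1 : ¬ Tch G (Q ∪ {x}) {y1} := hAn.t1 iy1
    have fny1 : y1 ∉ Q ∪ {x} := hAn.m1 iy1
    have ftz1 : ¬ Tch G (Q ∪ {x}) {z1} := hAn.t1 iz1
    have fnz1 : z1 ∉ Q ∪ {x} := hAn.m1 iz1
    have ftz2 : ¬ Tch G (Q ∪ {x}) {z2} := hAn.t1 iz2
    have fnz2 : z2 ∉ Q ∪ {x} := hAn.m1 iz2
    apply cZ_f0 hH hJ (p := p) (y0 := y0) (y1 := y1) (w0 := w0) (w1 := w1) (w2 := w2) (z1 := z1) (z2 := z2) (Q := Q ∪ {x}) <;> (first | assumption | exact SimpleGraph.Adj.symm (by assumption) | exact (fun h => absurd (SimpleGraph.Adj.symm h) (by assumption)) | exact Ne.symm (by assumption))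
  · intro T hT cT qT _ hqT x hxP _ hxT hxY
    by_contra hxq
    have hqU : ∀ y ∈ Y, ¬ G.Adj q y := by
      intro b hb
      rw [hY] at hb
      simp only [Set.mem_insert_iff, Set.mem_singleton_iff] at hb
      rcases hb with rfl | rfl | rfl | rfl
      · (first | assumption | exact SimpleGraph.Adj.symm (by assumption) | exact (fun h => absurd (SimpleGraph.Adj.symm h) (by assumption)) | exact Ne.symm (by assumption))
      · (first | assumption | exact SimpleGraph.Adj.symm (by assumption) | exact (fun h => absurd (SimpleGraph.Adj.symm h) (by assumption)) | exact Ne.symm (by assumption))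
      · (first | assumption | exact SimpleGraph.Adj.symm (by assumption) | exact (fun h => absurd (SimpleGraph.Adj.symm h) (by assumption)) | exact Ne.symm (by assumption))
      · (first | assumption | exact SimpleGraph.Adj.symm (by assumption) | exact (fun h => absurd (SimpleGraph.Adj.symm h) (by assumption)) | exact Ne.symm (by assumption))
    have hxY' : ∃ y ∈ insert p Y, G.Adj x y := by obtain ⟨y, hy, h1⟩ := hxY; exact ⟨y, Or.inr hy, h1⟩
    have dj := key x hxY
    have xp : x ≠ p := xM hxP mp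
    have xq : x ≠ q := by rintro rfl; obtain ⟨y, hy, h1⟩ := hxY; exact hqU y hy h1
    have xy0 : x ≠ y0 := xM hxP my0
    have xy1 : x ≠ y1 := xM hxP my1
    have xz1 : x ≠ z1 := xM hxP mz1
    have xz2 : x ≠ z2 := xM hxP mz2
    have hAn : An G T (insert p Y) := An.of hT
    have t1 : Tch G T {q} := tQ hqT
    have t2 : Tch G T {x} := tQ hxT
    have t3 : x ∉ T := by obtain ⟨y, hy, h1⟩ := hxY'; exact hAn.m2 hy h1
    have ftp : ¬ Tch G T {p} := hAn.t1 mp
    have fnp : p ∉ T := hAn.m1 mp
    have fty0 : ¬ Tch G T {y0} := hAn.t1 my0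
    have fny0 : y0 ∉ T := hAn.m1 my0
    have fty1 : ¬ Tch G T {y1} := hAn.t1 my1
    have fny1 : y1 ∉ T := hAn.m1 my1
    have ftz1 : ¬ Tch G T {z1} := hAn.t1 mz1
    have fnz1 : z1 ∉ T := hAn.m1 mz1
    have ftz2 : ¬ Tch G T {z2} := hAn.t1 mz2
    have fnz2 : z2 ∉ T := hAn.m1 mz2
    have fm0 : w0 ∉ T := hAn.m2 mz2 (by (first | assumption | exact SimpleGraph.Adj.symm (by assumption) | exact (fun h => absurd (SimpleGraph.Adj.symm h) (by assumption)) | exact Ne.symm (by assumption)))
    have fm1 : w1 ∉ T := hAn.m2 mz2 (by (first | assumption | exact SimpleGraph.Adj.symm (by assumption) | exact (fun h => absurd (SimpleGraph.Adj.symm h) (by assumption)) | exact Ne.symm (by assumption)))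
    have fm2 : w2 ∉ T := hAn.m2 my1 (by (first | assumption | exact SimpleGraph.Adj.symm (by assumption) | exact (fun h => absurd (SimpleGraph.Adj.symm h) (by assumption)) | exact Ne.symm (by assumption)))
    apply cZ_f1 (x := x) (T := T) hH hJ h <;> (first | assumption | exact SimpleGraph.Adj.symm (by assumption) | exact (fun h => absurd (SimpleGraph.Adj.symm h) (by assumption)) | exact Ne.symm (by assumption))
  · intro t ht _ hqt x hxP _ hxY hxq
    by_contra hcon
    have pt : ¬ G.Adj p t := uA ht mp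
    have y0t : ¬ G.Adj y0 t := uA ht my0
    have y1t : ¬ G.Adj y1 t := uA ht my1
    have z1t : ¬ G.Adj z1 t := uA ht mz1
    have z2t : ¬ G.Adj z2 t := uA ht mz2
    have ntp : t ≠ p := uM ht mp
    have nty0 : t ≠ y0 := uM ht my0
    have nty1 : t ≠ y1 := uM ht my1
    have ntz1 : t ≠ z1 := uM ht mz1
    have ntz2 : t ≠ z2 := uM ht mz2
    by_cases ew0 : x = w0
    · subst ew0
      apply cZ_g0 (t := t) hH hJ h <;> (first | assumption | exact SimpleGraph.Adj.symm (by assumption) | exact (fun h => absurd (SimpleGraph.Adj.symm h) (by assumption)) | exact Ne.symm (by assumption))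
    by_cases ew1 : x = w1
    · subst ew1
      apply cZ_g1 (t := t) hH hJ h <;> (first | assumption | exact SimpleGraph.Adj.symm (by assumption) | exact (fun h => absurd (SimpleGraph.Adj.symm h) (by assumption)) | exact Ne.symm (by assumption))
    by_cases ew2 : x = w2
    · subst ew2
      apply cZ_g2 (t := t) hH hJ h <;> (first | assumption | exact SimpleGraph.Adj.symm (by assumption) | exact (fun h => absurd (SimpleGraph.Adj.symm h) (by assumption)) | exact Ne.symm (by assumption))
    have hqU : ∀ y ∈ Y, ¬ G.Adj q y := by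
      intro b hb
      rw [hY] at hb
      simp only [Set.mem_insert_iff, Set.mem_singleton_iff] at hb
      rcases hb with rfl | rfl | rfl | rfl
      · (first | assumption | exact SimpleGraph.Adj.symm (by assumption) | exact (fun h => absurd (SimpleGraph.Adj.symm h) (by assumption)) | exact Ne.symm (by assumption))
      · (first | assumption | exact SimpleGraph.Adj.symm (by assumption) | exact (fun h => absurd (SimpleGraph.Adj.symm h) (by assumption)) | exact Ne.symm (by assumption))
      · (first | assumption | exact SimpleGraph.Adj.symm (by assumption) | exact (fun h => absurd (SimpleGraph.Adj.symm h) (by assumption)) | exact Ne.symm (by assumption))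
      · (first | assumption | exact SimpleGraph.Adj.symm (by assumption) | exact (fun h => absurd (SimpleGraph.Adj.symm h) (by assumption)) | exact Ne.symm (by assumption))
    have hxY' : ∃ y ∈ insert p Y, G.Adj x y := by obtain ⟨y, hy, h1⟩ := hxY; exact ⟨y, Or.inr hy, h1⟩
    have dj := key x hxY
    have xp : x ≠ p := xM hxP mp
    have xq : x ≠ q := by rintro rfl; obtain ⟨y, hy, h1⟩ := hxY; exact hqU y hy h1
    have xy0 : x ≠ y0 := xM hxP my0
    have xy1 : x ≠ y1 := xM hxP my1
    have xz1 : x ≠ z1 := xM hxP mz1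
    have xz2 : x ≠ z2 := xM hxP mz2
    have nxt : x ≠ t := uX ht hxY'
    apply cZ_f2 (x := x) (t := t) hH hJ h <;> (first | assumption | exact SimpleGraph.Adj.symm (by assumption) | exact (fun h => absurd (SimpleGraph.Adj.symm h) (by assumption)) | exact Ne.symm (by assumption))
  · intro s hs t ht _ _ hqt hqs hst x hxP _ hxY hxq hxt
    by_contra hcon
    have ps : ¬ G.Adj p s := uA hs mp
    have y0s : ¬ G.Adj y0 s := uA hs my0
    have y1s : ¬ G.Adj y1 s := uA hs my1
    have z1s : ¬ G.Adj z1 s := uA hs mz1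
    have z2s : ¬ G.Adj z2 s := uA hs mz2
    have nsp : s ≠ p := uM hs mp
    have nsy0 : s ≠ y0 := uM hs my0
    have nsy1 : s ≠ y1 := uM hs my1
    have nsz1 : s ≠ z1 := uM hs mz1
    have nsz2 : s ≠ z2 := uM hs mz2
    have pt : ¬ G.Adj p t := uA ht mp
    have y0t : ¬ G.Adj y0 t := uA ht my0
    have y1t : ¬ G.Adj y1 t := uA ht my1
    have z1t : ¬ G.Adj z1 t := uA ht mz1
    have z2t : ¬ G.Adj z2 t := uA ht mz2
    have ntp : t ≠ p := uM ht mp
    have nty0 : t ≠ y0 := uM ht my0
    have nty1 : t ≠ y1 := uM ht my1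
    have ntz1 : t ≠ z1 := uM ht mz1
    have ntz2 : t ≠ z2 := uM ht mz2
    by_cases ew0 : x = w0
    · subst ew0
      apply cZ_h0 (t := t) (s := s) hH hJ h <;> (first | assumption | exact SimpleGraph.Adj.symm (by assumption) | exact (fun h => absurd (SimpleGraph.Adj.symm h) (by assumption)) | exact Ne.symm (by assumption))
    by_cases ew1 : x = w1
    · subst ew1
      apply cZ_h1 (t := t) (s := s) hH hJ h <;> (first | assumption | exact SimpleGraph.Adj.symm (by assumption) | exact (fun h => absurd (SimpleGraph.Adj.symm h) (by assumption)) | exact Ne.symm (by assumption))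
    by_cases ew2 : x = w2
    · subst ew2
      apply cZ_h2 (t := t) (s := s) hH hJ h <;> (first | assumption | exact SimpleGraph.Adj.symm (by assumption) | exact (fun h => absurd (SimpleGraph.Adj.symm h) (by assumption)) | exact Ne.symm (by assumption))
    have hqU : ∀ y ∈ Y, ¬ G.Adj q y := by
      intro b hb
      rw [hY] at hb
      simp only [Set.mem_insert_iff, Set.mem_singleton_iff] at hb
      rcases hb with rfl | rfl | rfl | rfl
      · (first | assumption | exact SimpleGraph.Adj.symm (by assumption) | exact (fun h => absurd (SimpleGraph.Adj.symm h) (by assumption)) | exact Ne.symm (by assumption))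
      · (first | assumption | exact SimpleGraph.Adj.symm (by assumption) | exact (fun h => absurd (SimpleGraph.Adj.symm h) (by assumption)) | exact Ne.symm (by assumption))
      · (first | assumption | exact SimpleGraph.Adj.symm (by assumption) | exact (fun h => absurd (SimpleGraph.Adj.symm h) (by assumption)) | exact Ne.symm (by assumption))
      · (first | assumption | exact SimpleGraph.Adj.symm (by assumption) | exact (fun h => absurd (SimpleGraph.Adj.symm h) (by assumption)) | exact Ne.symm (by assumption))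
    have hxY' : ∃ y ∈ insert p Y, G.Adj x y := by obtain ⟨y, hy, h1⟩ := hxY; exact ⟨y, Or.inr hy, h1⟩
    have dj := key x hxY
    have xp : x ≠ p := xM hxP mp
    have xq : x ≠ q := by rintro rfl; obtain ⟨y, hy, h1⟩ := hxY; exact hqU y hy h1
    have xy0 : x ≠ y0 := xM hxP my0
    have xy1 : x ≠ y1 := xM hxP my1
    have xz1 : x ≠ z1 := xM hxP mz1
    have xz2 : x ≠ z2 := xM hxP mz2
    have nxs : x ≠ s := uX hs hxY'
    have nxt : x ≠ t := uX ht hxY'
    apply cZ_f3 (x := x) (t := t) (s := s) hH hJ h <;> (first | assumption | exact SimpleGraph.Adj.symm (by assumption) | exact (fun h => absurd (SimpleGraph.Adj.symm h) (by assumption)) | exact Ne.symm (by assumption))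

end Pool.Agent.MPd439b2.RN
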