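import Pool.Agent.Lib.MP_d439b2_co.RN.OneD
import Pool.Agent.Lib.MP_d439b2_co.RN.OneB
import Pool.Agent.Lib.MP_d439b2_co.RN.OneC
import Pool.Agent.Lib.MP_d439b2_co.RN.OneX
import Pool.Agent.Lib.MP_d439b2_co.RN.OneY
import Pool.Agent.Lib.MP_d439b2_co.RN.OneZ
import Pool.Agent.Lib.MP_d439b2_co.CR.Defs

/-!
# MP_d439b2_co, RN/OneR: three mixers with three rows give a balanced cut of rank 1 (helper38)

Idea of helper29 (note 3243), general form of helper10 and helper23.  `K` is connected, `w 0`, `w 1`, `w 2` are pairwise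
adjacent, mixed on `K`, see `q` and miss `p`; `O` is a set of vertices anticomplete to `K`, `p` and to a large
connected set `B` which contains `q`.  If the rows of the `w i` on `O` are pairwise different then a component of the
graph behind some vertices of `K` and `O` is homogeneous.
-/

set_option autoImplicit false

namespace Pool.Agent.MPd439b2.RN

open Pool.Agent.MPd439b2 Pool.Agent.MPd439b2.H1T Pool.Agent.MPd439b2.H1R

variable {V : Type} {G : SimpleGraph V}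

/-- **The cut.** -/
theorem facts_false [Finite V] {β : ℕ → ℕ} {c₀ : ℕ} (hL : Rep.Link β c₀ G) (hc : 1 ≤ c₀) (hH : FH G)
    (hJ : FJ 2 G) {p q : V} {Y A B : Set V} (h : Facts G p q Y ∅) (hB : Conn G B) (qB : q ∈ B)
    (hBU : B ⊆ Uc G (insert p Y)) (hA : β 1 < A.ncard) (hAp : ∀ a ∈ A, a = p ∨ G.Adj a p)
    (hBc : β 1 < B.ncard) : False := by
  obtain ⟨E, hEU, hqE, hE, hnb, hcp⟩ := comp hH hJ h
  rw [Set.sdiff_empty] at hnb
  have hC : CR.Cmp G (Uc G (insert p Y)) E := ⟨hEU, hE, hnb⟩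
  have hBE : B ⊆ E := hC.sub hB hBU ⟨q, qB, hqE⟩
  have hAE : A ⊆ Eᶜ := by
    intro a ha haE
    rcases hAp a ha with rfl | h1
    · exact (hEU haE).1 (Set.mem_insert _ _)
    · exact (hEU haE).2 p (Set.mem_insert _ _) h1
  have h1 : β 1 < E.ncard := hBc.trans_le (Set.ncard_le_ncard hBE (Set.toFinite _))
  have h2 : β 1 < Eᶜ.ncard := hA.trans_le (Set.ncard_le_ncard hAE (Set.toFinite _))
  refine Rep.link_false hL hc (X := E) ?_ h1 h2
  unfold LK.cr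
  rw [Rep.rk_symm]
  exact Rep.rk_row G fun a ha => hcp a ha

/-- the surroundings of the cell -/
structure Env (G : SimpleGraph V) (K O : Set V) (p q : V) : Prop where
  hK : Conn G K
  oK : ∀ z ∈ O, z ∉ K
  oa : ∀ z ∈ O, ∀ a ∈ K, ¬ G.Adj z a
  op : ∀ z ∈ O, ¬ G.Adj z p
  oq : ∀ z ∈ O, ¬ G.Adj z q
  pK : p ∉ K
  pa : ∀ a ∈ K, ¬ G.Adj p a
  qK : q ∉ K
  qa : ∀ a ∈ K, ¬ G.Adj q a
  qp : ¬ G.Adj q p

/-- a mixer -/
structure Mi1 (G : SimpleGraph V) (K : Set V) (p q w : V) : Prop where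
  wK : w ∉ K
  se : ∃ a ∈ K, G.Adj w a
  mi : ∃ a ∈ K, ¬ G.Adj w a
  wp : ¬ G.Adj w p
  wq : G.Adj w q

variable {K O : Set V} {p q w w' w'' z z' : V}

/-- no `11` together with `00` -/
theorem no_td (hH : FH G) (hJ : FJ 2 G) (e : Env G K O p q) (m : Mi1 G K p q w) (m' : Mi1 G K p q w')
    (ww : G.Adj w w') (hz : z ∈ O) (h1 : G.Adj w z) (h2 : ¬ G.Adj w' z) :
    (∀ a ∈ K, G.Adj w a ∨ G.Adj w' a) ∨ ∀ a ∈ K, ¬ G.Adj w a ∨ ¬ G.Adj w' a := by
  by_contra hcon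
  rw [not_or] at hcon
  obtain ⟨h3, h4⟩ := hcon
  simp only [not_forall, not_or, Classical.not_not] at h3 h4
  obtain ⟨b, hb, hb1, hb2⟩ := h3
  obtain ⟨a, ha, ha1, ha2⟩ := h4
  obtain ⟨D, hD, haD⟩ := CR.exists_cmp (G := G) (Q := {v | v ∈ K ∧ (G.Adj w v ∨ G.Adj w' v)}) (z := a)
    ⟨ha, Or.inl ha1⟩
  have hDK : D ⊆ K := fun x hx => (hD.1 hx).1
  obtain ⟨d, hd, f, hf, hdf⟩ := e.hK.2 D hDK ⟨a, haD⟩ (fun h5 => by
    have h6 : b ∈ D := h5 ▸ hb
    exact (hD.1 h6).2.elim hb1 hb2)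
  have hf1 : ¬ (G.Adj w f ∨ G.Adj w' f) := fun h5 => hf.2 (hD.mem_of_adj hd ⟨hf.1, h5⟩ hdf)
  rw [not_or] at hf1
  have s1 : ¬ G.Adj z f := e.oa z hz f hf.1
  have s2 : ¬ G.Adj q f := e.qa f hf.1
  have s3 : ¬ G.Adj z q := e.oq z hz
  have s4 := m.wq
  have s5 := m'.wq
  exact tD hH hJ (w0 := w) (w1 := w') (z := z) (q := q) (b := f) (T := D) hD.2.1 (fun h5 => m.wK (hDK h5))
    (fun h5 => m'.wK (hDK h5)) (fun h5 => e.oK z hz (hDK h5)) (fun h5 => e.qK (hDK h5)) hf.2 ww h1 s4 hf1.1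
    ⟨a, haD, w, rfl, ha1.symm⟩ h2 s5 hf1.2 ⟨a, haD, w', rfl, ha2.symm⟩ s3 s1
    (by rintro ⟨t, ht, _, rfl, h5⟩; exact e.oa _ hz t (hDK ht) h5.symm) s2
    (by rintro ⟨t, ht, _, rfl, h5⟩; exact e.qa t (hDK ht) h5.symm) ⟨d, hd, f, rfl, hdf⟩

/-- **Contact.** -/
theorem contact (hH : FH G) (hJ : FJ 2 G) (e : Env G K O p q)
    (hF : ∀ Y ⊆ K ∪ O, ¬ Facts G p q Y ∅) (m : Mi1 G K p q w) (m' : Mi1 G K p q w') (ww : G.Adj w w')
    (hz : z ∈ O) (h1 : G.Adj w z) (h2 : ¬ G.Adj w' z) :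
    ∃ a ∈ K, ∃ b ∈ K, ¬ G.Adj w a ∧ G.Adj w' a ∧ G.Adj w b ∧ ¬ G.Adj w' b ∧ G.Adj a b := by
  by_contra hcon
  have hnc : ∀ a ∈ K, ∀ b ∈ K, ¬ G.Adj w a → G.Adj w' a → G.Adj w b → ¬ G.Adj w' b → ¬ G.Adj a b :=
    fun a ha b hb c1 c2 c3 c4 c5 => hcon ⟨a, ha, b, hb, c1, c2, c3, c4, c5⟩
  have htd := no_td hH hJ e m m' ww hz h1 h2
  -- the two classes are not empty
  have e01 : ∃ a ∈ K, ¬ G.Adj w a ∧ G.Adj w' a := by
    rcases htd with h3 | h3
    · obtain ⟨a, ha, h4⟩ := m.mi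
      exact ⟨a, ha, h4, (h3 a ha).resolve_left h4⟩
    · obtain ⟨a, ha, h4⟩ := m'.se
      exact ⟨a, ha, (h3 a ha).resolve_right (not_not.2 h4), h4⟩
  have e10 : ∃ a ∈ K, G.Adj w a ∧ ¬ G.Adj w' a := by
    rcases htd with h3 | h3
    · obtain ⟨a, ha, h4⟩ := m'.mi
      exact ⟨a, ha, (h3 a ha).resolve_right h4, h4⟩
    · obtain ⟨a, ha, h4⟩ := m.se
      exact ⟨a, ha, h4, (h3 a ha).resolve_left (not_not.2 h4)⟩
  -- a component of the rest which touches both classes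
  obtain ⟨D, hD, ⟨a, ha, haw, haw', d, hd, had⟩, b, hb, hbw, hbw', d', hd', hbd⟩ : ∃ D,
      CR.Cmp G {v | v ∈ K ∧ (G.Adj w v ↔ G.Adj w' v)} D ∧
        (∃ a ∈ K, ¬ G.Adj w a ∧ G.Adj w' a ∧ ∃ d ∈ D, G.Adj d a) ∧
          ∃ b ∈ K, G.Adj w b ∧ ¬ G.Adj w' b ∧ ∃ d ∈ D, G.Adj d b := by
    by_contra hno
    obtain ⟨a, ha, ha1, ha2⟩ := e01
    obtain ⟨b, hb, hb1, hb2⟩ := e10
    obtain ⟨s, hs, t, ht, hst⟩ := e.hK.2 {v | v ∈ K ∧ ((¬ G.Adj w v ∧ G.Adj w' v) ∨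
        ∃ D, CR.Cmp G {v | v ∈ K ∧ (G.Adj w v ↔ G.Adj w' v)} D ∧ v ∈ D ∧
          ∃ a ∈ K, ¬ G.Adj w a ∧ G.Adj w' a ∧ ∃ d ∈ D, G.Adj d a)}
      (fun v hv => hv.1) ⟨a, ha, Or.inl ⟨ha1, ha2⟩⟩ (fun h5 => by
        obtain ⟨-, h7 | ⟨D, hD, h8, -⟩⟩ := (Set.ext_iff.1 h5 b).2 hb
        · exact h7.1 hb1
        · exact hb2 ((hD.1 h8).2.1 hb1))
    have ht1 : ¬ (¬ G.Adj w t ∧ G.Adj w' t) := fun h6 => ht.2 ⟨ht.1, Or.inl h6⟩
    by_cases htq : G.Adj w t ↔ G.Adj w' t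
    · obtain ⟨D, hD, htD⟩ := CR.exists_cmp (G := G) (Q := {v | v ∈ K ∧ (G.Adj w v ↔ G.Adj w' v)}) (z := t)
        ⟨ht.1, htq⟩
      obtain ⟨hsK, hs1 | ⟨D', hD', hs', hs''⟩⟩ := hs
      · exact ht.2 ⟨ht.1, Or.inr ⟨D, hD, htD, s, hsK, hs1.1, hs1.2, t, htD, hst.symm⟩⟩
      · have h7 : t ∈ D' := hD'.mem_of_adj hs' ⟨ht.1, htq⟩ hst
        exact ht.2 ⟨ht.1, Or.inr ⟨D', hD', h7, hs''⟩⟩
    · have ht2 : G.Adj w t ∧ ¬ G.Adj w' t := by tauto
      obtain ⟨hsK, hs1 | ⟨D', hD', hs', hs''⟩⟩ := hs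
      · exact hnc s hsK t ht.1 hs1.1 hs1.2 ht2.1 ht2.2 hst
      · exact hno ⟨D', hD', hs'', t, ht.1, ht2.1, ht2.2, s, hs', hst⟩
  have hDK : D ⊆ K := fun x hx => (hD.1 hx).1
  have hab := hnc a ha b hb haw haw' hbw hbw'
  have g1 : a ∉ D := fun h5 => haw ((hD.1 h5).2.2 haw')
  have g2 : b ∉ D := fun h5 => hbw' ((hD.1 h5).2.1 hbw)
  have g3 : p ∉ D := fun h5 => e.pK (hDK h5)
  have g4 : q ∉ D := fun h5 => e.qK (hDK h5)
  have g5 : w ∉ D := fun h5 => m.wK (hDK h5)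
  have g6 : w' ∉ D := fun h5 => m'.wK (hDK h5)
  have g7 : z ∉ D := fun h5 => e.oK z hz (hDK h5)
  have k1 := e.pa a ha
  have k2 := e.pa b hb
  have k3 := e.qa a ha
  have k4 := e.qa b hb
  have k5 := e.oa z hz a ha
  have k6 := e.oa z hz b hb
  have k7 := e.op z hz
  have k8 := e.oq z hz
  have k9 := e.qp
  have k10 := m.wp
  have k11 := m'.wp
  have k12 := m.wq
  have k13 := m'.wq
  have n1 : ¬ Tch G D {p} := by rintro ⟨t, ht, _, rfl, h5⟩; exact e.pa t (hDK ht) h5.symm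
  have n2 : ¬ Tch G D {q} := by rintro ⟨t, ht, _, rfl, h5⟩; exact e.qa t (hDK ht) h5.symm
  have n3 : ¬ Tch G D {z} := by rintro ⟨t, ht, _, rfl, h5⟩; exact e.oa _ hz t (hDK ht) h5.symm
  have n4 : Tch G D {a} := ⟨d, hd, a, rfl, had⟩
  have n5 : Tch G D {b} := ⟨d', hd', b, rfl, hbd⟩
  have n6 := hD.2.1
  have hY : ({a, b, z} ∪ D : Set V) ⊆ K ∪ O := by
    rintro v (hv | hv)
    · simp only [Set.mem_insert_iff, Set.mem_singleton_iff] at hv
      rcases hv with rfl | rfl | rfl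
      · exact Or.inl ha
      · exact Or.inl hb
      · exact Or.inr hz
    · exact Or.inl (hDK hv)
  rcases htd with h3 | h3
  · -- no `00`
    have h4 : ∀ v ∈ D, G.Adj w v ∧ G.Adj w' v := fun v hv => by
      have := h3 v (hDK hv)
      have := (hD.1 hv).2
      tauto
    have n7 : Tch G D {w} := ⟨d, hd, w, rfl, (h4 d hd).1.symm⟩
    have n8 : Tch G D {w'} := ⟨d, hd, w', rfl, (h4 d hd).2.symm⟩
    refine hF _ hY (factsB hH hJ (p := p) (q := q) (y0 := a) (y1 := b) (w0 := w) (w1 := w') (z1 := z) (C := D)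
      ?_ rfl)
    constructor <;> (first | assumption | exact SimpleGraph.Adj.symm (by assumption) | exact (fun h => absurd (SimpleGraph.Adj.symm h) (by assumption)) | exact Ne.symm (by assumption))
  · -- no `11`
    have h4 : ∀ v ∈ D, ¬ G.Adj w v ∧ ¬ G.Adj w' v := fun v hv => by
      have := h3 v (hDK hv)
      have := (hD.1 hv).2
      tauto
    have n7 : ¬ Tch G D {w} := by rintro ⟨t, ht, _, rfl, h5⟩; exact (h4 t ht).1 h5.symm
    have n8 : ¬ Tch G D {w'} := by rintro ⟨t, ht, _, rfl, h5⟩; exact (h4 t ht).2 h5.symm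
    refine hF _ hY (factsC hH hJ (p := p) (q := q) (y0 := a) (y1 := b) (w0 := w) (w1 := w') (z1 := z) (C := D)
      ?_ rfl)
    constructor <;> (first | assumption | exact SimpleGraph.Adj.symm (by assumption) | exact (fun h => absurd (SimpleGraph.Adj.symm h) (by assumption)) | exact Ne.symm (by assumption))

/-- **Nested rows.** -/
theorem nested (hH : FH G) (hJ : FJ 2 G) (e : Env G K O p q)
    (hF : ∀ Y ⊆ K ∪ O, ¬ Facts G p q Y ∅) (m : Mi1 G K p q w) (m' : Mi1 G K p q w') (ww : G.Adj w w')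
    (hz : z ∈ O) (h1 : G.Adj w z) (h2 : ¬ G.Adj w' z) (hz' : z' ∈ O) (h3 : G.Adj w' z') : G.Adj w z' := by
  by_contra h4
  obtain ⟨a, ha, b, hb, haw, haw', hbw, hbw', hab⟩ := contact hH hJ e hF m m' ww hz h1 h2
  have k1 := e.pa a ha
  have k2 := e.pa b hb
  have k3 := e.qa a ha
  have k4 := e.qa b hb
  have k5 := e.oa z hz a ha
  have k6 := e.oa z hz b hb
  have k7 := e.op z hz
  have k8 := e.oq z hz
  have k9 := e.qp
  have k10 := m.wp
  have k11 := m'.wp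
  have k12 := m.wq
  have k13 := m'.wq
  have l5 := e.oa z' hz' a ha
  have l6 := e.oa z' hz' b hb
  have l7 := e.op z' hz'
  have l8 := e.oq z' hz'
  refine hF {a, b, z, z'} ?_ (factsX hH hJ (p := p) (q := q) (y0 := a) (y1 := b) (w0 := w) (w1 := w') (z1 := z)
    (z0 := z') ?_ rfl)
  · intro v hv
    simp only [Set.mem_insert_iff, Set.mem_singleton_iff] at hv
    rcases hv with rfl | rfl | rfl | rfl
    · exact Or.inl ha
    · exact Or.inl hb
    · exact Or.inr hz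
    · exact Or.inr hz'
  · constructor <;> (first | assumption | exact SimpleGraph.Adj.symm (by assumption) | exact (fun h => absurd (SimpleGraph.Adj.symm h) (by assumption)) | exact Ne.symm (by assumption))

/-- the types of two pairs with a common mixer are equal -/
theorem mixed_false (hm : ∃ a ∈ K, ¬ G.Adj w' a) (hs : ∃ a ∈ K, G.Adj w'' a)
    (h1 : ∀ a ∈ K, G.Adj w a ∨ G.Adj w' a) (h2 : ∀ a ∈ K, ¬ G.Adj w a ∨ ¬ G.Adj w'' a)
    (h3 : (∀ a ∈ K, G.Adj w' a ∨ G.Adj w'' a) ∨ ∀ a ∈ K, ¬ G.Adj w' a ∨ ¬ G.Adj w'' a) : False := by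
  obtain ⟨a, ha, ha1⟩ := hs
  have h4 : G.Adj w' a := (h1 a ha).resolve_left ((h2 a ha).resolve_right (not_not.2 ha1))
  rcases h3 with h3 | h3
  · obtain ⟨b, hb, hb1⟩ := hm
    have h5 : G.Adj w'' b := (h3 b hb).resolve_left hb1
    exact ((h2 b hb).resolve_right (not_not.2 h5)) ((h1 b hb).resolve_right hb1)
  · exact (h3 a ha).elim (fun h => h h4) fun h => h ha1

/-- **A chain of three rows.** -/
theorem chain3 (hH : FH G) (hJ : FJ 2 G) (e : Env G K O p q)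
    (hF : ∀ Y ⊆ K ∪ O, ¬ Facts G p q Y ∅) (m : Mi1 G K p q w) (m' : Mi1 G K p q w') (m'' : Mi1 G K p q w'')
    (w1 : G.Adj w w') (w2 : G.Adj w w'') (w3 : G.Adj w' w'') (hz : z ∈ O) (hz' : z' ∈ O)
    (a1 : G.Adj w z) (a2 : ¬ G.Adj w' z) (a3 : ¬ G.Adj w'' z) (b1 : G.Adj w z') (b2 : G.Adj w' z')
    (b3 : ¬ G.Adj w'' z') : False := by
  have t1 := no_td hH hJ e m m' w1 hz a1 a2
  have t2 := no_td hH hJ e m m'' w2 hz a1 a3
  have t3 := no_td hH hJ e m' m'' w3 hz' b2 b3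
  have sw : ∀ {u u' : V}, (∀ a ∈ K, G.Adj u a ∨ G.Adj u' a) → ∀ a ∈ K, G.Adj u' a ∨ G.Adj u a :=
    fun h a ha => (h a ha).symm
  have sn : ∀ {u u' : V}, (∀ a ∈ K, ¬ G.Adj u a ∨ ¬ G.Adj u' a) → ∀ a ∈ K, ¬ G.Adj u' a ∨ ¬ G.Adj u a :=
    fun h a ha => (h a ha).symm
  have k7 := e.op z hz
  have k8 := e.oq z hz
  have k9 := e.qp
  have l7 := e.op z' hz'
  have l8 := e.oq z' hz'
  have k10 := m.wp
  have k11 := m'.wp
  have k12 := m''.wp
  have k13 := m.wq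
  have k14 := m'.wq
  have k15 := m''.wq
  rcases t1 with t1 | t1
  · rcases t2 with t2 | t2
    · rcases t3 with t3 | t3
      · -- Case I
        obtain ⟨a, ha, b, hb, haw, haw', hbw, hbw', hab⟩ := contact hH hJ e hF m m' w1 hz a1 a2
        have haw'' : G.Adj w'' a := (t2 a ha).resolve_left haw
        have hbw'' : G.Adj w'' b := (t3 b hb).resolve_left hbw'
        have k1 := e.pa a ha
        have k2 := e.pa b hb
        have k3 := e.qa a ha
        have k4 := e.qa b hb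
        have k5 := e.oa z hz a ha
        have k6 := e.oa z hz b hb
        have l5 := e.oa z' hz' a ha
        have l6 := e.oa z' hz' b hb
        refine hF {a, b, z, z'} ?_ (factsY hH hJ (p := p) (q := q) (y0 := a) (y1 := b) (w0 := w) (w1 := w')
          (w2 := w'') (z1 := z) (z2 := z') ?_ rfl)
        · intro v hv
          simp only [Set.mem_insert_iff, Set.mem_singleton_iff] at hv
          rcases hv with rfl | rfl | rfl | rfl
          · exact Or.inl ha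
          · exact Or.inl hb
          · exact Or.inr hz
          · exact Or.inr hz'
        · constructor <;> (first | assumption | exact SimpleGraph.Adj.symm (by assumption) | exact (fun h => absurd (SimpleGraph.Adj.symm h) (by assumption)) | exact Ne.symm (by assumption))
      · exact mixed_false m.mi m''.se (sw t1) t3 (Or.inl t2)
    · exact mixed_false m'.mi m''.se t1 t2 t3
  · rcases t2 with t2 | t2
    · exact mixed_false m''.mi m'.se t2 t1 (t3.imp sw sn)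
    · rcases t3 with t3 | t3
      · exact mixed_false m''.mi m.se t3 (sn t1) (Or.inr (sn t2))
      · -- Case II
        obtain ⟨a, ha, b, hb, haw, haw', hbw, hbw', hab⟩ := contact hH hJ e hF m m'' w2 hz a1 a3
        have haw'' : ¬ G.Adj w' a := (t3 a ha).resolve_right (not_not.2 haw')
        have hbw'' : ¬ G.Adj w' b := (t1 b hb).resolve_left (not_not.2 hbw)
        have k1 := e.pa a ha
        have k2 := e.pa b hb
        have k3 := e.qa a ha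
        have k4 := e.qa b hb
        have k5 := e.oa z hz a ha
        have k6 := e.oa z hz b hb
        have l5 := e.oa z' hz' a ha
        have l6 := e.oa z' hz' b hb
        refine hF {b, a, z, z'} ?_ (factsZ hH hJ (p := p) (q := q) (y0 := b) (y1 := a) (w0 := w) (w1 := w')
          (w2 := w'') (z1 := z) (z2 := z') ?_ rfl)
        · intro v hv
          simp only [Set.mem_insert_iff, Set.mem_singleton_iff] at hv
          rcases hv with rfl | rfl | rfl | rfl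
          · exact Or.inl hb
          · exact Or.inl ha
          · exact Or.inr hz
          · exact Or.inr hz'
        · constructor <;> (first | assumption | exact SimpleGraph.Adj.symm (by assumption) | exact (fun h => absurd (SimpleGraph.Adj.symm h) (by assumption)) | exact Ne.symm (by assumption))

/-- **Three mixers with three different rows on the stable vertices.** -/
theorem oneR [Finite V] {β : ℕ → ℕ} {c₀ : ℕ} (hL : Rep.Link β c₀ G) (hc : 1 ≤ c₀) (hH : FH G) (hJ : FJ 2 G)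
    {K O A B : Set V} {p q : V} {w : ℕ → V} (hK : Conn G K)
    (ww : ∀ i < 3, ∀ j < 3, i ≠ j → G.Adj (w i) (w j))
    (wK : ∀ i < 3, w i ∉ K ∧ (∃ a ∈ K, G.Adj (w i) a) ∧ ∃ a ∈ K, ¬ G.Adj (w i) a)
    (wpq : ∀ i < 3, ¬ G.Adj (w i) p ∧ G.Adj (w i) q)
    (rows : ∀ i < 3, ∀ j < 3, i ≠ j → ∃ z ∈ O, ¬ (G.Adj (w i) z ↔ G.Adj (w j) z))
    (hO : ∀ z ∈ O, z ∉ K ∧ (∀ a ∈ K, ¬ G.Adj z a) ∧ ¬ G.Adj z p)
    (hp : p ∉ K ∧ ∀ a ∈ K, ¬ G.Adj p a)
    (hB : Conn G B) (qB : q ∈ B)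
    (hBx : ∀ x ∈ B, x ∉ K ∧ (∀ a ∈ K, ¬ G.Adj x a) ∧ x ≠ p ∧ ¬ G.Adj x p ∧ ∀ z ∈ O, x ≠ z ∧ ¬ G.Adj x z)
    (hA : β 1 < A.ncard) (hAp : ∀ a ∈ A, a = p ∨ G.Adj a p) (hBc : β 1 < B.ncard) : False := by
  obtain ⟨q1, q2, q3, q4, q5⟩ := hBx q qB
  have e : Env G K O p q := ⟨hK, fun z hz => (hO z hz).1, fun z hz => (hO z hz).2.1, fun z hz => (hO z hz).2.2,
    fun z hz h => (q5 z hz).2 h.symm, hp.1, hp.2, q1, q2, q4⟩
  have m : ∀ i < 3, Mi1 G K p q (w i) := fun i hi =>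
    ⟨(wK i hi).1, (wK i hi).2.1, (wK i hi).2.2, (wpq i hi).1, (wpq i hi).2⟩
  have hF : ∀ Y ⊆ K ∪ O, ¬ Facts G p q Y ∅ := by
    intro Y hY h
    refine facts_false hL hc hH hJ h hB qB (fun x hx => ⟨?_, ?_⟩) hA hAp hBc
    · obtain ⟨b1, b2, b3, b4, b5⟩ := hBx x hx
      intro h1
      rcases Set.mem_insert_iff.1 h1 with h1 | h1
      · exact b3 h1
      · rcases hY h1 with h1 | h1
        · exact b1 h1
        · exact (b5 x h1).1 rfl
    · obtain ⟨b1, b2, b3, b4, b5⟩ := hBx x hx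
      intro y hy
      rcases Set.mem_insert_iff.1 hy with rfl | hy
      · exact b4
      · rcases hY hy with hy | hy
        · exact b2 y hy
        · exact (b5 y hy).2
  -- comparison of two mixers
  have cmp : ∀ i < 3, ∀ j < 3, i ≠ j → ((∃ z ∈ O, G.Adj (w i) z ∧ ¬ G.Adj (w j) z) ∧ ∀ z ∈ O, G.Adj (w j) z →
      G.Adj (w i) z) ∨ ((∃ z ∈ O, G.Adj (w j) z ∧ ¬ G.Adj (w i) z) ∧ ∀ z ∈ O, G.Adj (w i) z → G.Adj (w j) z) := by
    intro i hi j hj hij
    obtain ⟨z, hz, h1⟩ := rows i hi j hj hij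
    by_cases h2 : G.Adj (w i) z
    · have h3 : ¬ G.Adj (w j) z := fun h3 => h1 (iff_of_true h2 h3)
      exact Or.inl ⟨⟨z, hz, h2, h3⟩, fun z' hz' h4 => nested hH hJ e hF (m i hi) (m j hj) (ww i hi j hj hij) hz h2 h3
        hz' h4⟩
    · have h3 : G.Adj (w j) z := by
        by_contra h3
        exact h1 (iff_of_false h2 h3)
      exact Or.inr ⟨⟨z, hz, h3, h2⟩, fun z' hz' h4 => nested hH hJ e hF (m j hj) (m i hi)
        (ww j hj i hi (Ne.symm hij)) hz h3 h2 hz' h4⟩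
  have fin : ∀ i < 3, ∀ j < 3, ∀ k < 3, i ≠ j → i ≠ k → j ≠ k →
      (∃ z ∈ O, G.Adj (w i) z ∧ ¬ G.Adj (w j) z) → (∀ z ∈ O, G.Adj (w j) z → G.Adj (w i) z) →
      (∃ z ∈ O, G.Adj (w j) z ∧ ¬ G.Adj (w k) z) → (∀ z ∈ O, G.Adj (w k) z → G.Adj (w j) z) → False := by
    rintro i hi j hj k hk hij hik hjk ⟨z, hz, a1, a2⟩ h1 ⟨z', hz', b1, b2⟩ h2
    exact chain3 hH hJ e hF (m i hi) (m j hj) (m k hk) (ww i hi j hj hij) (ww i hi k hk hik) (ww j hj k hk hjk)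
      hz hz' a1 a2 (fun h3 => a2 (h2 z hz h3)) (h1 z' hz' b1) b1 b2
  rcases cmp 0 (by norm_num) 1 (by norm_num) (by norm_num) with ⟨x1, x2⟩ | ⟨x1, x2⟩ <;>
    rcases cmp 0 (by norm_num) 2 (by norm_num) (by norm_num) with ⟨y1, y2⟩ | ⟨y1, y2⟩ <;>
      rcases cmp 1 (by norm_num) 2 (by norm_num) (by norm_num) with ⟨z1, z2⟩ | ⟨z1, z2⟩
  · exact fin 0 (by norm_num) 1 (by norm_num) 2 (by norm_num) (by norm_num) (by norm_num) (by norm_num) x1 x2 z1 z2
  · exact fin 0 (by norm_num) 2 (by norm_num) 1 (by norm_num) (by norm_num) (by norm_num) (by norm_num) y1 y2 z1 z2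
  · exact fin 0 (by norm_num) 1 (by norm_num) 2 (by norm_num) (by norm_num) (by norm_num) (by norm_num) x1 x2 z1 z2
  · exact fin 2 (by norm_num) 0 (by norm_num) 1 (by norm_num) (by norm_num) (by norm_num) (by norm_num) y1 y2 x1 x2
  · exact fin 1 (by norm_num) 0 (by norm_num) 2 (by norm_num) (by norm_num) (by norm_num) (by norm_num) x1 x2 y1 y2
  · exact fin 0 (by norm_num) 2 (by norm_num) 1 (by norm_num) (by norm_num) (by norm_num) (by norm_num) y1 y2 z1 z2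
  · exact fin 1 (by norm_num) 2 (by norm_num) 0 (by norm_num) (by norm_num) (by norm_num) (by norm_num) z1 z2 y1 y2
  · exact fin 2 (by norm_num) 1 (by norm_num) 0 (by norm_num) (by norm_num) (by norm_num) (by norm_num) z1 z2 x1 x2

end Pool.Agent.MPd439b2.RN
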