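import Pool.Agent.Lib.MP_d439b2_co.RN.OneU
import Pool.Agent.Lib.MP_d439b2_co.RN.OneR

/-!
# MP_d439b2_co, RN/OneV: no rich cell in a linked graph (helper29, helper38)
-/

set_option autoImplicit false

namespace Pool.Agent.MPd439b2.RN

/-- **[3]** -/
theorem uOne : S_One := uOne_of fun _ _ _ _ _ hL hc hH hJ _ _ _ _ _ _ _ hK ww wK wpq rows hO hp hB qB hBx hA hAp hBc =>
  oneR hL hc hH hJ hK ww wK wpq rows hO hp hB qB hBx hA hAp hBc

end Pool.Agent.MPd439b2.RN
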