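import Pool.Agent.Lib.MP_d439b2_co.RN.AsmB
import Pool.Agent.Lib.MP_d439b2_co.RN.OneV
import Pool.Agent.Lib.MP_d439b2_co.RN.MxF
import Pool.Agent.Lib.MP_d439b2_co.RN.LAsm
import Pool.Agent.Lib.MP_d439b2_co.RN.LCln
import Pool.Agent.Lib.MP_d439b2_co.RN.LWd
import Pool.Agent.Lib.MP_d439b2_co.RN.LCel
import Pool.Agent.Lib.MP_d439b2_co.RN.LBb
import Pool.Agent.Lib.MP_d439b2_co.RN.LGam
import Pool.Agent.Lib.MP_d439b2_co.RB.FinB

/-!
# MP_d439b2_co, RN/Final: the removal of the large induced matchings (helper26)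

* `nFin`: `BLT K302 (JP 2) {fff, tff} → BLT K302 (JP 2) {tff}`.
-/

set_option autoImplicit false

namespace Pool.Agent.MPd439b2.RN

open Pool.Agent.MPd439b2 Pool.Agent.MPd439b2.Rep

/-- **Block 1**: systems of cells -/
theorem sCS : S_CS := L.tCS L.tCln L.tWd L.tCel (L.tBb L.tCel) (L.tGam L.tCel)

/-- **(N)**: large induced matchings can be removed -/
theorem nFin (hB : BLT H1T.K302 (A0.JP 2) {(false, false, false), (true, false, false)}) :
    BLT H1T.K302 (A0.JP 2) {(true, false, false)} := by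
  obtain ⟨L₁, h1⟩ := RB.stepB
  exact nRem sCS sMx uOne h1 hB

end Pool.Agent.MPd439b2.RN
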