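import Pool.Agent.Lib.MP_d439b2_co.RN.Eng

/-!
# MP_d439b2_co, RN: engine for homogeneous set rails and fixed sets (helper32)

`HRX G L E x z F`: connected sets `x i k` (`i < L` rails, 16 indices `k`) and fixed connected sets `z a` (`a < E`), all
disjoint.  Bits of `F`: `16 i + j`: `x i k` touches `x j l` for `k < l`; `256 + 16 i + j` (`i < j`): `x i k` touches
`x j k`; `512 + 16 a + i`: `z a` touches `x i k`; `768 + 16 a + b` (`a < b`): `z a` touches `z b`.
-/

set_option autoImplicit false

namespace Pool.Agent.MPd439b2.RN.Tb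

open Pool.Agent.MPd439b2 Pool.Agent.MPd439b2.H1T
open Pool.Agent.MPd439b2.BU
open Pool.Agent.MPd439b2.HC
open Pool.Agent.MPd439b2.FT (Mt ab)

variable {V : Type}

/-- homogeneous set rails and fixed sets -/
structure HRX (G : SimpleGraph V) (L E : ℕ) (x : ℕ → ℕ → Set V) (z : ℕ → Set V) (F : ℕ → Bool) : Prop where
  cx : ∀ i < L, ∀ k < 16, Conn G (x i k)
  cz : ∀ a < E, Conn G (z a)
  dis : ∀ i < L, ∀ j < L, ∀ k < 16, ∀ l < 16, (i ≠ j ∨ k ≠ l) → Disjoint (x i k) (x j l)
  dz : ∀ a < E, ∀ i < L, ∀ k < 16, Disjoint (z a) (x i k)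
  dzz : ∀ a < E, ∀ b < a, Disjoint (z a) (z b)
  rel : ∀ i < L, ∀ j < L, ∀ k l, k < l → l < 16 → (Tch G (x i k) (x j l) ↔ F (16 * i + j) = true)
  dg : ∀ i < L, ∀ j < L, i < j → ∀ k < 16, (Tch G (x i k) (x j k) ↔ F (256 + 16 * i + j) = true)
  rz : ∀ a < E, ∀ i < L, ∀ k < 16, (Tch G (z a) (x i k) ↔ F (512 + 16 * a + i) = true)
  zz : ∀ a < E, ∀ b < a, (Tch G (z a) (z b) ↔ F (768 + 16 * b + a) = true)

/-- the sets in one list: `x (p % L) (p / L)` for `p < 16 L`, then the fixed sets -/
def sx (L : ℕ) (x : ℕ → ℕ → Set V) (z : ℕ → Set V) (p : ℕ) : Set V :=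
  bif Nat.blt p (L * 16) then x (p % L) (p / L) else z (p - L * 16)

/-- the bit of the pair `q < p` -/
def abx (L p q : ℕ) : ℕ :=
  bif Nat.blt p (L * 16) then ab L p q
  else bif Nat.blt q (L * 16) then 512 + 16 * (p - L * 16) + q % L
  else 768 + 16 * (q - L * 16) + (p - L * 16)

theorem sp_of_hrx {G : SimpleGraph V} {L E : ℕ} {x : ℕ → ℕ → Set V} {z : ℕ → Set V} {F : ℕ → Bool}
    (h : HRX G L E x z F) (hL : 0 < L) :
    SP G Set.univ (L * 16 + E) (sx L x z) (fun p q => F (abx L p q)) := by
  have hm : ∀ p, p % L < L := fun p => Nat.mod_lt p hL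
  have hd : ∀ p < L * 16, p / L < 16 := fun p hp => Nat.div_lt_of_lt_mul hp
  have hne : ∀ p q, q < p → (p % L ≠ q % L ∨ p / L ≠ q / L) := by
    intro p q hqp
    by_contra hcon
    push Not at hcon
    have h5 := Nat.div_add_mod p L
    have h6 := Nat.div_add_mod q L
    rw [hcon.1, hcon.2, h6] at h5
    omega
  have s1 : ∀ p, p < L * 16 → sx L x z p = x (p % L) (p / L) := by
    intro p hp
    have h2 : Nat.blt p (L * 16) = true := by rw [Nat.blt_eq]; exact hp
    unfold sx
    rw [h2, cond_true]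
  have s2 : ∀ p, ¬ p < L * 16 → sx L x z p = z (p - L * 16) := by
    intro p hp
    have h2 : Nat.blt p (L * 16) = false := by
      rw [Bool.eq_false_iff]
      intro h3
      rw [Nat.blt_eq] at h3
      exact hp h3
    unfold sx
    rw [h2, cond_false]
  have c1 : ∀ p q, p < L * 16 → abx L p q = ab L p q := by
    intro p q hp
    have h2 : Nat.blt p (L * 16) = true := by rw [Nat.blt_eq]; exact hp
    unfold abx
    rw [h2, cond_true]
  have c2 : ∀ p q, ¬ p < L * 16 → q < L * 16 → abx L p q = 512 + 16 * (p - L * 16) + q % L := by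
    intro p q hp hq
    have h2 : Nat.blt p (L * 16) = false := by
      rw [Bool.eq_false_iff]
      intro h3
      rw [Nat.blt_eq] at h3
      exact hp h3
    have h3 : Nat.blt q (L * 16) = true := by rw [Nat.blt_eq]; exact hq
    unfold abx
    rw [h2, h3, cond_false, cond_true]
  have c3 : ∀ p q, ¬ p < L * 16 → ¬ q < L * 16 → abx L p q = 768 + 16 * (q - L * 16) + (p - L * 16) := by
    intro p q hp hq
    have h2 : Nat.blt p (L * 16) = false := by
      rw [Bool.eq_false_iff]
      intro h3
      rw [Nat.blt_eq] at h3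
      exact hp h3
    have h3 : Nat.blt q (L * 16) = false := by
      rw [Bool.eq_false_iff]
      intro h3
      rw [Nat.blt_eq] at h3
      exact hq h3
    unfold abx
    rw [h2, h3, cond_false, cond_false]
  refine ⟨fun _ _ => Set.subset_univ _, fun p hp => ?_, fun p hp q hq => ?_, fun p hp q hq => ?_⟩
  · by_cases h1 : p < L * 16
    · rw [s1 p h1]
      exact h.cx _ (hm p) _ (hd p h1)
    · rw [s2 p h1]
      exact h.cz _ (by omega)
  · by_cases h1 : p < L * 16
    · rw [s1 p h1, s1 q (by omega)]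
      exact h.dis _ (hm p) _ (hm q) _ (hd p h1) _ (hd q (by omega)) (hne p q hq)
    · rw [s2 p h1]
      by_cases h2 : q < L * 16
      · rw [s1 q h2]
        exact h.dz _ (by omega) _ (hm q) _ (hd q h2)
      · rw [s2 q h2]
        exact h.dzz _ (by omega) _ (by omega)
  · show Tch G (sx L x z p) (sx L x z q) ↔ F (abx L p q) = true
    by_cases h1 : p < L * 16
    · have hq1 : q < L * 16 := by omega
      rw [s1 p h1, s1 q hq1, c1 p q h1]
      have hdp := hd p h1
      have hdq := hd q hq1
      unfold ab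
      rcases lt_trichotomy (p / L) (q / L) with h1 | h1 | h1
      · have h2 : Nat.blt (p / L) (q / L) = true := by rw [Nat.blt_eq]; exact h1
        rw [h2, cond_true]
        exact h.rel _ (hm p) _ (hm q) _ _ h1 hdq
      · have h2 : Nat.blt (p / L) (q / L) = false := by
          rw [Bool.eq_false_iff]
          intro h3
          rw [Nat.blt_eq] at h3
          omega
        have h3 : Nat.blt (q / L) (p / L) = false := by
          rw [Bool.eq_false_iff]
          intro h3
          rw [Nat.blt_eq] at h3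
          omega
        rw [h2, h3, cond_false, cond_false]
        have h4 : p % L ≠ q % L := by
          rcases hne p q hq with h4 | h4
          · exact h4
          · exact absurd h1 h4
        rw [h1]
        rcases lt_or_gt_of_ne h4 with h5 | h5
        · rw [min_eq_left h5.le, max_eq_right h5.le]
          exact h.dg _ (hm p) _ (hm q) h5 _ hdq
        · rw [min_eq_right h5.le, max_eq_left h5.le, tch_comm]
          exact h.dg _ (hm q) _ (hm p) h5 _ hdq
      · have h2 : Nat.blt (p / L) (q / L) = false := by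
          rw [Bool.eq_false_iff]
          intro h3
          rw [Nat.blt_eq] at h3
          omega
        have h3 : Nat.blt (q / L) (p / L) = true := by rw [Nat.blt_eq]; exact h1
        rw [h2, h3, cond_false, cond_true, tch_comm]
        exact h.rel _ (hm q) _ (hm p) _ _ h1 hdp
    · rw [s2 p h1]
      by_cases h2 : q < L * 16
      · rw [s1 q h2, c2 p q h1 h2]
        exact h.rz _ (by omega) _ (hm q) _ (hd q h2)
      · rw [s2 q h2, c3 p q h1 h2]
        exact h.zz _ (by omega) _ (by omega)

/-- a certificate: `(b, ps, ns, C)`; `b = true` for `K3:0,1,02`, `b = false` for `J_2`; `ps`, `ns`: the bits which have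
to be `true`, `false`; `C`: the bags -/
abbrev CertX := Bool × List ℕ × List ℕ × List (List ℕ)

/-- the mask of a list of bits -/
def mk : List ℕ → ℕ
  | [] => 0
  | b :: l => (1 <<< b) ||| mk l

theorem mk_bit {b : ℕ} : ∀ {l : List ℕ}, (mk l).testBit b = true → b ∈ l
  | [], h => by simp [mk] at h
  | c :: l, h => by
    rw [mk, Nat.testBit_or, Bool.or_eq_true] at h
    rcases h with h | h
    · rw [Nat.shiftLeft_eq, one_mul, Nat.testBit_two_pow] at h
      rw [(of_decide_eq_true h : c = b)]
      exact List.mem_cons_self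
    · exact List.mem_cons_of_mem _ (mk_bit h)

theorem mt_mk {F : ℕ → Bool} {P N : List ℕ} (hP : ∀ b ∈ P, F b = true) (hN : ∀ b ∈ N, F b = false) :
    Mt (mk P) (mk N) F :=
  ⟨fun b hb => hP b (mk_bit hb), fun b hb => hN b (mk_bit hb)⟩

/-- the check of a nogood -/
def ckNX (L E p n m : ℕ) (q : ℕ → ℕ → Bool) (C : List (List ℕ)) : Bool :=
  Nat.beq C.length m && Eng.goodL (L * 16 + E) C.flatten &&
    C.all (Eng.connL fun a b => p.testBit (abx L a b)) &&
    (List.range m).all fun i => (List.range i).all fun j =>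
      bif q i j then Eng.tchL (fun a b => p.testBit (abx L a b)) (C.getD i []) (C.getD j [])
      else !(Eng.tchL (fun a b => !(n.testBit (abx L a b))) (C.getD i []) (C.getD j []))

theorem ngx {G : SimpleGraph V} {L E p n m : ℕ} {q : ℕ → ℕ → Bool} {C : List (List ℕ)} {x : ℕ → ℕ → Set V}
    {z : ℕ → Set V} {F : ℕ → Bool} (hx : HRX G L E x z F) (hL : 0 < L) (hq : SPF G Set.univ m q)
    (hc : ckNX L E p n m q C = true) : ¬ Mt p n F := by
  intro hF
  refine hq _ (chkG_sp (L := C) (sp_of_hrx hx hL) ?_)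
  simp only [ckNX, Bool.and_eq_true, List.all_eq_true, List.mem_range] at hc
  obtain ⟨⟨⟨h1, h2⟩, h3⟩, h4⟩ := hc
  have hp : ∀ a b, p.testBit (abx L a b) = true → F (abx L a b) = true := fun a b => hF.1 _
  have hn : ∀ a b, F (abx L a b) = true → (!(n.testBit (abx L a b))) = true := by
    intro a b hab
    rcases h5 : n.testBit (abx L a b) with _ | _
    · rfl
    · rw [hF.2 _ h5] at hab
      exact absurd hab (by decide)
  simp only [chkG, Bool.and_eq_true, List.all_eq_true, List.mem_range, beq_iff_eq]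
  refine ⟨⟨⟨h1, h2⟩, fun l hl => FT.connL_mono hp (h3 l hl)⟩, fun i hi j hj => ?_⟩
  have h5 := h4 i hi j hj
  rcases hq' : q i j with _ | _
  · rw [hq', cond_false, Bool.not_eq_true'] at h5
    rcases h6 : Eng.tchL (fun a b => F (abx L a b)) (C.getD i []) (C.getD j []) with _ | _
    · rfl
    · rw [FT.tchL_mono hn h6] at h5
      exact absurd h5 (by decide)
  · rw [hq', cond_true] at h5
    exact FT.tchL_mono hp h5

/-- the check of a certificate -/
def ckX (L E : ℕ) (c : CertX) : Bool :=
  bif c.1 then ckNX L E (mk c.2.1) (mk c.2.2.1) 6 R3.q2 c.2.2.2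
  else ckNX L E (mk c.2.1) (mk c.2.2.1) 7 FT.qJ2 c.2.2.2

/-- the whole check: `P`, `N`: known bits; `cs`: certificates; `t`: the tree -/
def ckHX (L E : ℕ) (P N : List ℕ) (cs : List CertX) (t : Tr) : Bool :=
  Nat.blt 0 L && cs.all (ckX L E) && ckT (cs.map fun c => (mk c.2.1, mk c.2.2.1)) [] t (mk P) (mk N)

/-- **The engine** for homogeneous set rails with fixed sets. -/
theorem refuteX {G : SimpleGraph V} (hH : FH G) (hJ : FJ 2 G) {L E : ℕ} {x : ℕ → ℕ → Set V} {z : ℕ → Set V}
    {F : ℕ → Bool} (h : HRX G L E x z F) (P N : List ℕ) (hP : ∀ b ∈ P, F b = true) (hN : ∀ b ∈ N, F b = false)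
    (cs : List CertX) (t : Tr) (hc : ckHX L E P N cs t = true) : False := by
  simp only [ckHX, Bool.and_eq_true, List.all_eq_true] at hc
  obtain ⟨⟨h0, h1⟩, h2⟩ := hc
  rw [Nat.blt_eq] at h0
  refine tr_false (F := F) (lib := cs.map fun c => (mk c.2.1, mk c.2.2.1)) (I := []) ?_ ?_ t _ _
    (mt_mk hP hN) h2
  · intro c hcm
    obtain ⟨d, hd, rfl⟩ := List.mem_map.1 hcm
    have h3 := h1 d hd
    simp only [ckX] at h3
    rcases hb : d.1 with _ | _
    · rw [hb, cond_false] at h3
      exact ngx h h0 (FT.spfJ2 hJ) h3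
    · rw [hb, cond_true] at h3
      exact ngx h h0 (R3.spf2 hH) h3
  · intro c hc
    exact absurd hc (List.not_mem_nil)

end Pool.Agent.MPd439b2.RN.Tb
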