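import Pool.Agent.Lib.MP_d439b2_co.RN.TabS
import Pool.Agent.Lib.MP_d439b2_co.CH.Base

/-!
# MP_d439b2_co, RN/LClnA: alternating words along a ladder (helper32)
-/

set_option autoImplicit false

namespace Pool.Agent.MPd439b2.RN.Tb

open Pool.Agent.MPd439b2 Pool.Agent.MPd439b2.H1T

def lal : List (List CertX × Tr) := [
    ([], Tr.lf 0),
    ([(true, [1, 5, 49, 53, 259, 260, 517], [65, 69, 277, 308, 512, 513, 515, 516], [[0], [11], [3], [4], [96],
     [7]])], (Tr.lf 0)),
    ([(true, [1, 4, 49, 52, 259, 261, 516], [81, 84, 276, 309, 512, 513, 515, 517], [[0], [10], [3], [5], [96],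
     [7]])], (Tr.lf 0)),
    ([(true, [0, 1, 3, 4, 259, 260, 516], [257, 275, 276, 308, 512, 513, 515], [[0], [10], [6], [7], [96], [9]])],
     (Tr.lf 0)),
    ([(true, [0, 3, 4, 259, 260, 515], [64, 67, 68, 308, 512, 516], [[0], [9], [6], [4], [96], [10]])], (Tr.lf 0)),
    ([(true, [0, 3, 4, 259, 260, 515], [64, 67, 68, 308, 512, 516], [[0], [9], [6], [4], [96], [10]])], (Tr.lf 0)),
    ([(true, [0, 3, 5, 259, 261, 515], [80, 83, 85, 309, 512, 517], [[0], [9], [6], [5], [96], [11]])], (Tr.lf 0)),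
    ([(true, [0, 1, 4, 260, 516], [16, 64, 257, 276, 512, 513], [[0], [10], [6], [7], [96], [12]])], (Tr.lf 0)),
    ([(true, [0, 2, 48, 50, 259, 260, 514], [64, 66, 258, 308, 512, 515, 516], [[0], [8], [3], [4], [96], [6]])],
     (Tr.lf 0)),
    ([], Tr.lf 0),
    ([], Tr.lf 0),
    ([(true, [0, 1, 3, 4, 259, 260, 516], [257, 275, 276, 308, 512, 513, 515], [[0], [10], [6], [7], [96], [9]])],
     (Tr.lf 0)),
    ([(true, [0, 3, 4, 259, 260, 515], [64, 67, 68, 308, 512, 516], [[0], [9], [6], [4], [96], [10]])], (Tr.lf 0)),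
    ([], Tr.lf 0),
    ([], Tr.lf 0),
    ([(true, [0, 1, 4, 260, 516], [16, 64, 257, 276, 512, 513], [[0], [10], [6], [7], [96], [12]])], (Tr.lf 0)),
    ([(true, [0, 1, 48, 49, 259, 260, 513], [64, 65, 257, 308, 512, 515, 516], [[0], [7], [3], [4], [96], [6]])],
     (Tr.lf 0)),
    ([], Tr.lf 0),
    ([], Tr.lf 0),
    ([(true, [0, 2, 3, 4, 259, 260, 516], [258, 291, 292, 308, 512, 514, 515], [[0], [10], [6], [8], [96], [9]])],
     (Tr.lf 0)),
    ([(true, [0, 3, 4, 259, 260, 515], [64, 67, 68, 308, 512, 516], [[0], [9], [6], [4], [96], [10]])], (Tr.lf 0)),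
    ([], Tr.lf 0),
    ([], Tr.lf 0),
    ([(true, [0, 2, 4, 260, 516], [32, 64, 258, 292, 512, 514], [[0], [10], [6], [8], [96], [12]])], (Tr.lf 0)),
    ([(true, [0, 1, 48, 49, 259, 260, 513], [64, 65, 257, 308, 512, 515, 516], [[0], [7], [3], [4], [96], [6]])],
     (Tr.lf 0)),
    ([(true, [0, 1, 48, 49, 259, 260, 513], [64, 65, 257, 308, 512, 515, 516], [[0], [7], [3], [4], [96], [6]])],
     (Tr.lf 0)),
    ([(true, [0, 1, 48, 49, 259, 261, 513], [80, 81, 257, 309, 512, 515, 517], [[0], [7], [3], [5], [96], [6]])],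
     (Tr.lf 0)),
    ([], Tr.lf 0),
    ([(true, [0, 3, 4, 259, 260, 515], [64, 67, 68, 308, 512, 516], [[0], [9], [6], [4], [96], [10]])], (Tr.lf 0)),
    ([(true, [0, 3, 4, 259, 260, 515], [64, 67, 68, 308, 512, 516], [[0], [9], [6], [4], [96], [10]])], (Tr.lf 0)),
    ([(true, [0, 3, 5, 259, 261, 515], [80, 83, 85, 309, 512, 517], [[0], [9], [6], [5], [96], [11]])], (Tr.lf 0)),
    ([], Tr.lf 0),
    ([(true, [48, 49, 51, 512], [16, 17, 257, 275, 513, 515], [[3], [12], [9], [7], [96], [13]])], (Tr.lf 0)),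
    ([(true, [48, 49, 51, 512], [16, 17, 257, 275, 513, 515], [[3], [12], [9], [7], [96], [13]])], (Tr.lf 0)),
    ([(true, [48, 49, 51, 512], [16, 17, 257, 275, 513, 515], [[3], [12], [9], [7], [96], [13]])], (Tr.lf 0)),
    ([(true, [48, 49, 51, 512], [16, 17, 257, 275, 513, 515], [[3], [12], [9], [7], [96], [13]])], (Tr.lf 0)),
    ([], Tr.lf 0),
    ([(true, [48, 49, 52, 260, 512, 515, 517], [80, 81, 84, 257, 276, 309, 513, 516], [[3], [96], [6], [7], [5],
     [10]])], (Tr.lf 0)),
    ([(true, [48, 49, 53, 261, 512, 515, 516], [64, 65, 69, 257, 277, 308, 513, 517], [[3], [96], [6], [7], [4],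
     [11]])], (Tr.lf 0)),
    ([(true, [1, 48, 49, 512, 515, 516], [17, 64, 65, 257, 308, 513], [[3], [96], [6], [7], [4], [13]])], (Tr.lf 0)),
    ([(true, [0, 48, 259, 260, 512, 514], [32, 64, 258, 291, 292, 308, 515, 516], [[0], [96], [6], [4], [2], [3]])],
     (Tr.lf 0)),
    ([], Tr.lf 0),
    ([], Tr.lf 0),
    ([(true, [0, 1, 3, 259, 512, 514], [32, 33, 35, 257, 258, 275, 513, 515], [[0], [96], [6], [7], [2], [9]])],
     (Tr.lf 0)),
    ([(true, [1, 49, 259, 260, 512, 514, 515], [33, 65, 258, 291, 292, 308, 513, 516], [[0], [96], [3], [4], [2],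
     [7]])], (Tr.lf 0)),
    ([], Tr.lf 0),
    ([], Tr.lf 0),
    ([(true, [0, 1, 512, 514], [17, 32, 33, 257, 258, 513], [[0], [96], [6], [7], [2], [13]])], (Tr.lf 0)),
    ([(true, [0, 48, 259, 260, 512, 513], [16, 64, 257, 275, 276, 308, 515, 516], [[0], [96], [6], [4], [1], [3]])],
     (Tr.lf 0)),
    ([], Tr.lf 0),
    ([], Tr.lf 0),
    ([(true, [0, 2, 3, 259, 512, 513], [16, 18, 19, 257, 258, 291, 514, 515], [[0], [96], [6], [8], [1], [9]])],
     (Tr.lf 0)),
    ([(true, [2, 50, 259, 260, 512, 513, 515], [18, 66, 257, 275, 276, 308, 514, 516], [[0], [96], [3], [4], [1],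
     [8]])], (Tr.lf 0)),
    ([], Tr.lf 0),
    ([], Tr.lf 0),
    ([(true, [0, 2, 512, 513], [16, 18, 34, 257, 258, 514], [[0], [96], [6], [8], [1], [14]])], (Tr.lf 0)),
    ([(true, [0, 48, 259, 260, 512, 513], [16, 64, 257, 275, 276, 308, 515, 516], [[0], [96], [6], [4], [1], [3]])],
     (Tr.lf 0)),
    ([(true, [259, 260, 261, 325, 512, 513, 517], [257, 275, 276, 277, 308, 309, 515, 516], [[0], [96], [5], [3],
     [1], [4]])], (Tr.lf 0)),
    ([(true, [259, 260, 261, 325, 512, 513, 516], [257, 275, 276, 277, 308, 309, 515, 517], [[0], [96], [4], [3],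
     [1], [5]])], (Tr.lf 0)),
    ([], Tr.lf 0),
    ([(true, [4, 52, 259, 260, 512, 513, 515], [20, 68, 257, 275, 276, 308, 516], [[0], [96], [3], [4], [1],
     [10]])], (Tr.lf 0)),
    ([(true, [4, 52, 259, 260, 512, 513, 515], [20, 68, 257, 275, 276, 308, 516], [[0], [96], [3], [4], [1],
     [10]])], (Tr.lf 0)),
    ([(true, [5, 53, 259, 261, 512, 513, 515], [21, 85, 257, 275, 277, 309, 517], [[0], [96], [3], [5], [1],
     [11]])], (Tr.lf 0)),
    ([], Tr.lf 0)]

/-- the class of a state `(v, a, b)` -/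
def clS (g : Bool × Bool × Bool) : ℕ :=
  bif g.2.1 && g.2.2 then 2 else bif !g.2.1 && !g.2.2 then (bif g.1 then 1 else 0) else 3

/-- the bits of two interleaved blocks of a ladder (rails `v, a, b` of the places `p k`, rails `v, a, b` of the places
`q k`, `p k < q k < p (k + 1)`) and of a vertex with the states `g`, `g'` -/
def laF (g g' : Bool × Bool × Bool) (b : ℕ) : Bool :=
  bif Nat.blt b 256 then Nat.beq ((b / 16) % 3) 0
  else bif Nat.blt b 512 then
    (bif Nat.beq ((b - 256) / 16 / 3) ((b - 256) % 16 / 3) then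
      Nat.beq ((b - 256) / 16 % 3) 1 && Nat.beq ((b - 256) % 16 % 3) 2
    else Nat.beq ((b - 256) / 16 % 3) 0)
  else [g.1, g.2.1, g.2.2, g'.1, g'.2.1, g'.2.2].getD (b - 512) false

/-- the relevant bits -/
def laB : List ℕ :=
  ((List.range 6).flatMap fun i => (List.range 6).map fun j => 16 * i + j) ++
    ((List.range 6).flatMap fun i => (List.range (5 - i)).map fun j => 256 + 16 * i + (i + 1 + j)) ++
    (List.range 6).map fun i => 512 + i

def laK (g g' : Bool × Bool × Bool) : List (ℕ × Bool) := laB.map fun b => (b, laF g g' b)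

theorem lak : ∀ a b c a' b' c' : Bool, clS (a, b, c) ≠ clS (a', b', c') →
    ckHX 6 1 (pos (laK (a, b, c) (a', b', c'))) (neg (laK (a, b, c) (a', b', c')))
      (sel lal [a, b, c, a', b', c']).1 (sel lal [a, b, c, a', b', c']).2 = true := by
  decide +kernel

theorem laF_lo {g g' : Bool × Bool × Bool} {i j : ℕ} (hi : i < 16) (hj : j < 16) :
    laF g g' (16 * i + j) = true ↔ i % 3 = 0 := by
  have h1 : Nat.blt (16 * i + j) 256 = true := by rw [Nat.blt_eq]; omega
  have h2 : (16 * i + j) / 16 = i := by omega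
  unfold laF
  rw [h1, cond_true, h2, Nat.beq_eq]

theorem laF_dg {g g' : Bool × Bool × Bool} {i j : ℕ} (hi : i < 16) (hj : j < 16) :
    laF g g' (256 + 16 * i + j) = true ↔ (i / 3 = j / 3 ∧ i % 3 = 1 ∧ j % 3 = 2) ∨ (i / 3 ≠ j / 3 ∧ i % 3 = 0) := by
  have h1 : Nat.blt (256 + 16 * i + j) 256 = false := by
    rw [Bool.eq_false_iff]; intro h; rw [Nat.blt_eq] at h; omega
  have h2 : Nat.blt (256 + 16 * i + j) 512 = true := by rw [Nat.blt_eq]; omega
  have h3 : (256 + 16 * i + j - 256) / 16 = i := by omega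
  have h4 : (256 + 16 * i + j - 256) % 16 = j := by omega
  unfold laF
  rw [h1, h2, cond_false, cond_true, h3, h4]
  by_cases h5 : i / 3 = j / 3
  · have h6 : Nat.beq (i / 3) (j / 3) = true := by rw [Nat.beq_eq]; exact h5
    rw [h6, cond_true, Bool.and_eq_true, Nat.beq_eq, Nat.beq_eq]
    constructor
    · exact fun h => Or.inl ⟨h5, h⟩
    · rintro (h | h)
      · exact h.2
      · exact absurd h5 h.1
  · have h6 : Nat.beq (i / 3) (j / 3) = false := by
      rw [Bool.eq_false_iff]; intro h; rw [Nat.beq_eq] at h; exact h5 h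
    rw [h6, cond_false, Nat.beq_eq]
    constructor
    · exact fun h => Or.inr ⟨h5, h⟩
    · rintro (h | h)
      · exact absurd h.1 h5
      · exact h.2

/-! ### ladders -/

/-- the vertices of a ladder: `v m`, `e false m`, `e true m` -/
def lv {V : Type} (v : ℕ → V) (e : Bool → ℕ → V) (c m : ℕ) : V :=
  if c = 0 then v m else if c = 1 then e false m else e true m

section

variable {V : Type} {G : SimpleGraph V} {N : ℕ} {v : ℕ → V} {e : Bool → ℕ → V}

theorem lv_adj (hc : CH.Ch G N v e) {m m' : ℕ} (h : m < m') (h' : m' < N) (c c' : ℕ) :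
    G.Adj (lv v e c m) (lv v e c' m') ↔ c = 0 := by
  have hm : m < N := h.trans h'
  have ve : ∀ s, G.Adj (v m) (e s m') := fun s => (hc.ve m hm m' h' s).2 h
  have ev : ∀ s, ¬ G.Adj (e s m) (v m') := fun s h1 => absurd ((hc.ve m' h' m hm s).1 h1.symm) (by omega)
  have vv : G.Adj (v m) (v m') := hc.vv m hm m' h' h.ne
  have ee : ∀ s t, ¬ G.Adj (e s m) (e t m') := fun s t h1 => absurd ((hc.ee m hm m' h' s t).1 h1).1 h.ne
  unfold lv
  split_ifs <;> simp_all

theorem lv_same (hc : CH.Ch G N v e) {m : ℕ} (h : m < N) {c c' : ℕ} (hcc : c < c') (h3 : c' < 3) :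
    G.Adj (lv v e c m) (lv v e c' m) ↔ c = 1 := by
  have ve : ∀ s, ¬ G.Adj (v m) (e s m) := fun s h1 => absurd ((hc.ve m h m h s).1 h1) (by omega)
  have ee : G.Adj (e false m) (e true m) := hc.adj_ft h
  unfold lv
  have : (c = 0 ∧ c' = 1) ∨ (c = 0 ∧ c' = 2) ∨ (c = 1 ∧ c' = 2) := by omega
  rcases this with ⟨rfl, rfl⟩ | ⟨rfl, rfl⟩ | ⟨rfl, rfl⟩ <;> simp_all

theorem lv_ne (hc : CH.Ch G N v e) {m m' : ℕ} (hm : m < N) (hm' : m' < N) {c c' : ℕ} (h3 : c < 3) (h3' : c' < 3)
    (h : c ≠ c' ∨ m ≠ m') : lv v e c m ≠ lv v e c' m' := by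
  intro heq
  -- a place which separates
  rcases lt_trichotomy m m' with h1 | h1 | h1
  · rcases Nat.eq_zero_or_pos c with rfl | h0
    · have h2 := (lv_adj hc h1 hm' 0 c').2 rfl
      rw [heq] at h2
      exact h2.ne rfl
    · -- `c = 1, 2`: the other letter of `m`
      have h2 : G.Adj (lv v e (3 - c) m) (lv v e c m) := by
        have : c = 1 ∨ c = 2 := by omega
        rcases this with rfl | rfl
        · exact ((lv_same hc hm (by omega) (by omega)).2 rfl).symm
        · exact (lv_same hc hm (by omega) (by omega)).2 rfl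
      rw [heq] at h2
      have h4 := (lv_adj hc h1 hm' (3 - c) c').1 h2
      omega
  · subst h1
    have hcc : c ≠ c' := by rcases h with h | h; exacts [h, absurd rfl h]
    have key : ∀ a b : ℕ, a < b → b < 3 → lv v e a m ≠ lv v e b m := by
      intro a b hab hb heq'
      rcases Nat.eq_zero_or_pos a with rfl | h0
      · -- `v m` and a letter of `m`: the other letter
        have h2 : G.Adj (lv v e (3 - b) m) (lv v e b m) := by
          have : b = 1 ∨ b = 2 := by omega
          rcases this with rfl | rfl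
          · exact ((lv_same hc hm (by omega) (by omega)).2 rfl).symm
          · exact (lv_same hc hm (by omega) (by omega)).2 rfl
        rw [← heq'] at h2
        have := (lv_same hc hm (c := 0) (c' := 3 - b) (by omega) (by omega)).1 h2.symm
        omega
      · have h2 := (lv_same hc hm hab hb).2 (by omega)
        rw [heq'] at h2
        exact h2.ne rfl
    rcases lt_or_gt_of_ne hcc with h2 | h2
    · exact key c c' h2 h3' heq
    · exact key c' c h2 h3 heq.symm
  · rcases Nat.eq_zero_or_pos c' with rfl | h0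
    · have h2 := (lv_adj hc h1 hm 0 c).2 rfl
      rw [← heq] at h2
      exact h2.ne rfl
    · have h2 : G.Adj (lv v e (3 - c') m') (lv v e c' m') := by
        have : c' = 1 ∨ c' = 2 := by omega
        rcases this with rfl | rfl
        · exact ((lv_same hc hm' (by omega) (by omega)).2 rfl).symm
        · exact (lv_same hc hm' (by omega) (by omega)).2 rfl
      rw [← heq] at h2
      have h4 := (lv_adj hc h1 hm (3 - c') c).1 h2
      omega

/-- the state of `u` at the place `i` -/
def St (G : SimpleGraph V) (v : ℕ → V) (e : Bool → ℕ → V) (u : V) (i : ℕ) (g : Bool × Bool × Bool) : Prop :=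
  (G.Adj (v i) u ↔ g.1 = true) ∧ (G.Adj (e false i) u ↔ g.2.1 = true) ∧ (G.Adj (e true i) u ↔ g.2.2 = true)

theorem St.eq {u : V} {i : ℕ} {g g' : Bool × Bool × Bool} (h : St G v e u i g) (h' : St G v e u i g') :
    g = g' := by
  obtain ⟨a, b, c⟩ := g
  obtain ⟨a', b', c'⟩ := g'
  have h1 := h.1.symm.trans h'.1
  have h2 := h.2.1.symm.trans h'.2.1
  have h3 := h.2.2.symm.trans h'.2.2
  simp only at h1 h2 h3
  rw [Bool.eq_iff_iff.2 h1, Bool.eq_iff_iff.2 h2, Bool.eq_iff_iff.2 h3]

/-- the states of a vertex of the ladder at the other places -/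
theorem st_lv (hc : CH.Ch G N v e) {m i : ℕ} (hm : m < N) (hi : i < N) (him : i ≠ m) {c : ℕ} (h3 : c < 3) :
    St G v e (lv v e c m) i (if i < m then (true, false, false) else
      (Nat.beq c 0, Nat.beq c 0, Nat.beq c 0)) := by
  have e0 : lv v e 0 i = v i := rfl
  have e1 : lv v e 1 i = e false i := rfl
  have e2 : lv v e 2 i = e true i := rfl
  by_cases h : i < m
  · rw [if_pos h]
    refine ⟨?_, ?_, ?_⟩
    · rw [← e0, lv_adj hc h hm]
      simp
    · rw [← e1, lv_adj hc h hm]
      simp
    · rw [← e2, lv_adj hc h hm]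
      simp
  · rw [if_neg h]
    have h' : m < i := by omega
    refine ⟨?_, ?_, ?_⟩
    · rw [← e0, G.adj_comm, lv_adj hc h' hi]
      simp
    · rw [← e1, G.adj_comm, lv_adj hc h' hi]
      simp
    · rw [← e2, G.adj_comm, lv_adj hc h' hi]
      simp

/-- **Alternating words.**  A vertex with the state `g` at the places `p k` and the state `g'` at the places `q k`,
`p 0 < q 0 < p 1 < q 1 < ..`: the classes are equal. -/
theorem altW (hH : FH G) (hJ : FJ 2 G) (hc : CH.Ch G N v e) {p q : ℕ → ℕ} (hpq : ∀ k < 16, p k < q k)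
    (hqp : ∀ k, k + 1 < 16 → q k < p (k + 1)) (hq : ∀ k < 16, q k < N) {u : V} {g g' : Bool × Bool × Bool}
    (h : ∀ k < 16, St G v e u (p k) g) (h' : ∀ k < 16, St G v e u (q k) g') : clS g = clS g' := by
  by_contra hcl
  have hgg : g ≠ g' := fun h1 => hcl (by rw [h1])
  have mono : ∀ k l, k < l → l < 16 → q k < p l := by
    intro k l hkl
    induction l with
    | zero => omega
    | succ l ih =>
      intro hl
      rcases Nat.lt_or_ge k l with h1 | h1
      · have := ih h1 (by omega)
        have h2 := hpq l (by omega)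
        have h3 := hqp l hl
        omega
      · obtain rfl : k = l := by omega
        exact hqp k hl
  have hp : ∀ k < 16, p k < N := fun k hk => (hpq k hk).trans (hq k hk)
  -- `u` is not in the ladder
  have hu : ∀ m < N, ∀ c < 3, u ≠ lv v e c m := by
    intro m hm c hc3 hum
    subst hum
    rcases Nat.lt_or_ge m (p 1) with h1 | h1
    · have s1 := (st_lv hc hm (hp 1 (by omega)) (by omega) hc3).eq (h 1 (by omega))
      have s2 := (st_lv hc hm (hq 1 (by omega)) (by have := hpq 1 (by omega); omega) hc3).eq (h' 1 (by omega))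
      rw [if_neg (by omega)] at s1
      rw [if_neg (by have := hpq 1 (by omega); omega)] at s2
      exact hgg (s1.symm.trans s2)
    · have h2 := hpq 0 (by omega)
      have h3 : q 0 < p 1 := hqp 0 (by omega)
      have s1 := (st_lv hc hm (hp 0 (by omega)) (by omega) hc3).eq (h 0 (by omega))
      have s2 := (st_lv hc hm (hq 0 (by omega)) (by omega) hc3).eq (h' 0 (by omega))
      rw [if_pos (by omega)] at s1 s2
      exact hgg (s1.symm.trans s2)
  -- the rails
  set pl : ℕ → ℕ → ℕ := fun i k => if i < 3 then p k else q k with hpl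
  have plN : ∀ i k, k < 16 → pl i k < N := by
    intro i k hk
    simp only [hpl]
    split_ifs
    · exact hp k hk
    · exact hq k hk
  have pllt : ∀ i j k l, k < l → l < 16 → pl i k < pl j l := by
    intro i j k l hkl hl
    have h1 := mono k l hkl hl
    have h2 := hpq k (by omega)
    have h3 := hpq l hl
    simp only [hpl]
    split_ifs <;> omega
  have pleq : ∀ i j k, i / 3 = j / 3 → i < 6 → j < 6 → pl i k = pl j k := by
    intro i j k hij hi hj
    simp only [hpl]
    split_ifs <;> first | rfl | omega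
  have pldg : ∀ i j k, i / 3 ≠ j / 3 → i < j → j < 6 → k < 16 → pl i k < pl j k := by
    intro i j k hij hi hj hk
    have h2 := hpq k hk
    simp only [hpl]
    split_ifs <;> omega
  obtain ⟨a, b, c⟩ := g
  obtain ⟨a', b', c'⟩ := g'
  have hx : HRZ G 6 1 (fun i k => lv v e (i % 3) (pl i k)) (fun _ => u) (laF (a, b, c) (a', b', c')) := by
    refine ⟨⟨fun i hi j hj k hk l hl hkl => ?_, fun i hi j hj k l hkl hl => ?_, fun i hi j hj hij k hk => ?_⟩,
      fun _ _ i hi k hk => hu _ (plN i k hk) _ (by omega), fun a ha b hb => by omega, fun z hz i hi k hk => ?_,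
      fun a ha b hb => by omega⟩
    · refine lv_ne hc (plN i k hk) (plN j l hl) (by omega) (by omega) ?_
      by_cases hkl' : k = l
      · subst hkl'
        have hij : i ≠ j := by rcases hkl with h1 | h1; exacts [h1, absurd rfl h1]
        by_cases h3 : i / 3 = j / 3
        · left
          omega
        · right
          rcases lt_or_gt_of_ne hij with h4 | h4
          · exact (pldg i j k h3 h4 hj hk).ne
          · exact (pldg j i k (Ne.symm h3) h4 hi hk).ne'
      · right
        rcases lt_or_gt_of_ne hkl' with h4 | h4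
        · exact (pllt i j k l h4 hl).ne
        · exact (pllt j i l k h4 hk).ne'
    · rw [laF_lo (by omega) (by omega)]
      exact lv_adj hc (pllt i j k l hkl hl) (plN j l hl) _ _
    · rw [laF_dg (by omega) (by omega)]
      by_cases h3 : i / 3 = j / 3
      · have h4 := pleq i j k h3 (by omega) hj
        show G.Adj (lv v e (i % 3) (pl i k)) (lv v e (j % 3) (pl j k)) ↔ _
        rw [h4, lv_same hc (plN j k hk) (by omega) (by omega)]
        omega
      · rw [show G.Adj (lv v e (i % 3) (pl i k)) (lv v e (j % 3) (pl j k)) ↔ i % 3 = 0 from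
          lv_adj hc (pldg i j k h3 hij hj hk) (plN j k hk) _ _]
        omega
    · obtain rfl : z = 0 := by omega
      obtain ⟨g1, g2, g3⟩ := h k hk
      obtain ⟨g4, g5, g6⟩ := h' k hk
      rw [G.adj_comm]
      interval_cases i
      · exact g1
      · exact g2
      · exact g3
      · exact g4
      · exact g5
      · exact g6
  refine refuteK hH hJ hx (laK (a, b, c) (a', b', c')) (fun t ht => ?_) _ (lak a b c a' b' c' hcl)
  obtain ⟨t, -, rfl⟩ := List.mem_map.1 ht
  rfl

end

end Pool.Agent.MPd439b2.RN.Tb
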