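import Pool.Agent.Lib.MP_d439b2_co.RN.Defs
import Pool.Agent.Lib.MP_d439b2_co.CH.Base

/-!
# MP_d439b2_co, RN/LS: Block 1 (cells along a ladder): definitions and statements (helper53)

`CH.Ch G n v e` is the ladder (`v i` clique, letters `e s i`, `v i ~ e s j` iff `i < j`).  The CLASS `cl u i` of `u` at the
place `i`: `2` if `u` sees both `e s i`, `1` if `u` sees `v i` and misses both `e s i`, `0` if `u` misses all three, `3` if
`u` sees exactly one of the `e s i`.

MODULES (folder RN, namespace `Pool.Agent.MPd439b2.RN.L`; import this file only, tables `RN/T1`, `RN/TG`):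
`LCln` (tCln : S_Cln), `LWd` (tWd : S_Wd), `LCel` (tCel : S_Cel), `LFac` (facts, helper53), `LBb` (tBb : S_Cel → S_Bb,
helper53), `LGam` (tGam : S_Cel → S_Gam), `LAsm` (helper53).  All auxiliary declarations `private`.
-/

set_option autoImplicit false

namespace Pool.Agent.MPd439b2.RN.L

open Pool.Agent.MPd439b2 Pool.Agent.MPd439b2.RN

variable {V : Type}

open Classical in
/-- the class of `u` at the place `i` -/
noncomputable def cl (G : SimpleGraph V) (v : ℕ → V) (e : Bool → ℕ → V) (u : V) (i : ℕ) : ℕ :=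
  if ∀ s, G.Adj (e s i) u then 2
  else if ∀ s, ¬ G.Adj (e s i) u then (if G.Adj (v i) u then 1 else 0)
  else 3

section

variable {G : SimpleGraph V} {v : ℕ → V} {e : Bool → ℕ → V} {u : V} {i : ℕ}

theorem cl_two : cl G v e u i = 2 ↔ ∀ s, G.Adj (e s i) u := by
  unfold cl
  split_ifs with h1 h2 h3 <;> simp_all

theorem cl_one : cl G v e u i = 1 ↔ G.Adj (v i) u ∧ ∀ s, ¬ G.Adj (e s i) u := by
  unfold cl
  split_ifs with h1 h2 h3 <;> simp_all

theorem cl_zero : cl G v e u i = 0 ↔ ¬ G.Adj (v i) u ∧ ∀ s, ¬ G.Adj (e s i) u := by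
  unfold cl
  split_ifs with h1 h2 h3 <;> simp_all

theorem cl_three : cl G v e u i = 3 ↔ (∃ s, G.Adj (e s i) u) ∧ ∃ s, ¬ G.Adj (e s i) u := by
  unfold cl
  split_ifs with h1 h2 h3
  · simp_all
  · simp_all
  · simp_all
  · push Not at h1 h2
    exact ⟨fun _ => ⟨h2, h1⟩, fun _ => rfl⟩

theorem cl_lt (G : SimpleGraph V) (v : ℕ → V) (e : Bool → ℕ → V) (u : V) (i : ℕ) :
    cl G v e u i < 4 := by
  unfold cl
  split_ifs <;> omega

end

/-- **A clean ladder**: no vertex changes its class between `a`, `b` and again between `c`, `d`, `a < b < c < d` -/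
def Cln (G : SimpleGraph V) (n : ℕ) (v : ℕ → V) (e : Bool → ℕ → V) : Prop :=
  ∀ u a b c d, a < b → b < c → c < d → d < n → cl G v e u a ≠ cl G v e u b →
    cl G v e u c = cl G v e u d

/-- the word of `u` is `s ^ a x t ^ (n - a - 1)` with an arbitrary class `x` at the place `a` -/
def Wt (G : SimpleGraph V) (n : ℕ) (v : ℕ → V) (e : Bool → ℕ → V) (u : V) (a s t : ℕ) : Prop :=
  ∀ i < n, (i < a → cl G v e u i = s) ∧ (a < i → cl G v e u i = t)

/-- the six types -/
def Tp (s t : ℕ) : Prop :=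
  (s = 0 ∧ t = 0) ∨ (s = 1 ∧ t = 1) ∨ (s = 2 ∧ t = 2) ∨ (s = 1 ∧ t = 0) ∨ (s = 1 ∧ t = 2) ∨
    (s = 2 ∧ t = 0)

/-- **A typed ladder**: every vertex has one of the six types -/
structure TL (G : SimpleGraph V) (n : ℕ) (v : ℕ → V) (e : Bool → ℕ → V) : Prop where
  ch : CH.Ch G n v e
  wd : ∀ u, ∃ a s t, Tp s t ∧ Wt G n v e u a s t

/-- the vertices of type `(1, 0)` -/
def Rv (G : SimpleGraph V) (n : ℕ) (v : ℕ → V) (e : Bool → ℕ → V) : Set V :=
  {u | ∃ a, Wt G n v e u a 1 0}

/-- the component of the letter `k` in `G[Rv]` -/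
def Kc (G : SimpleGraph V) (n : ℕ) (v : ℕ → V) (e : Bool → ℕ → V) (k : ℕ) : Set V :=
  {x | ∃ Q : Set V, Conn G Q ∧ Q ⊆ Rv G n v e ∧ e false k ∈ Q ∧ x ∈ Q}

/-- **The cell of the letter `k`** -/
structure Cel (G : SimpleGraph V) (n : ℕ) (v : ℕ → V) (e : Bool → ℕ → V) (k : ℕ) (K : Set V) :
    Prop where
  con : Conn G K
  sub : K ⊆ Rv G n v e
  mem : ∀ s, e s k ∈ K
  lo : ∀ x ∈ K, ∀ i, i + 5 ≤ k → cl G v e x i = 1
  hi : ∀ x ∈ K, ∀ i < n, k + 5 ≤ i → cl G v e x i = 0
  out : ∀ b ∈ Rv G n v e, b ∉ K → AnK G b K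

/-- **Module `LCln`** (Ramsey and the table `RN/T1`; 300 lines).  PROOF.  Let `m` be large (for `H1T.ram 25 16`, and
`m ≥ 16`).  Ramsey for 4-subsets (`Pool.Agent.Lib.MP_577a3c26_an.ramsey 4 (max n (4 m)) Bool`): colour of `{a<b<c<d}`:
is there `u` with `cl u a ≠ cl u b ∧ cl u c ≠ cl u d`.  Homogeneous set `H`, increasing enumeration `h`.  If the colour is
'no': `σ = h`.  Suppose it is 'yes' (`4 m` elements).  For `s < m` let `I₀ s = h (2s)`, `I₁ s = h (2s+1)`,
`I₂ s = h (2m+2s)`, `I₃ s = h (2m+2s+1)` and `u s` the vertex for this quadruple.  `H1T.ram` for the 25 relations of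
`(s, t)`: `u s ~ v (I_c t)`, `u s ~ e false (I_c t)`, `u s ~ e true (I_c t)` (`c < 4`); the OWN bits `u s ~ v (I_c s)`, ..
(12 relations which do not depend on `t`; so they are constant in `s` for all `s` but the last one); `u s ~ u t`.  We
get 17 (use `ram 25 17`) indices with constant relations: `α_c` = the state (3 bits: `v, e false, e true`) of `u s` at
`I_c t` for `t > s`, `β_c` for `t < s`, `γ_c` for `t = s`.  CLAIM: for some `c ∈ {0, 1}` not `α_c = β_c = γ_c`.
Otherwise the vertex `u s` (`s = 8`) has the state `γ_0` at all `I₀ t` and `γ_1` at all `I₁ t`, the classes of `γ_0`,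
`γ_1` are different, `I₀ 0 < I₁ 0 < I₀ 1 < ..`.  Explicit models of `K3:0,1,02` (`H1R.engV`; bags `0 | 1 | 2 ; 3 ; 4 ; 5`,
`a = e false`, `b = e true`, places `0 < 1 < 2 < 3`) forbid: a state with exactly one letter and without `v` on three
places: `v0 | a2 | v1 ; b1 ; u ; v2` (`u` sees `a`); exactly one letter (`a`) and `v` on three places:
`v0 | u | v1 ; b1 ; a0 ; b2`; `0 0 1` (classes): `v0 | v2 | v1 ; b1 ; u ; b2`; `0 0 y` (`y` = class 2 without `v`):
`v0 | b2 | v1 ; b1 ; u ; v2`; `0 0 0 C` (`C` = class 2 with `v`): `v0 | a3 | v1 ; b1 ; u ; a2`; `C 1 1`: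
`v0 | u | v1 ; b1 ; a0 ; b2`; `y 1 1`: `v0 | u v2 | v1 ; a1 ; a0 ; b2`.  These five cases are all cases of two different
classes.  The same for `c ∈ {2, 3}`.  So choose `c ∈ {0, 1}`, `c' ∈ {2, 3}` with words which are not constant, and
`x 0 t = v (I_c t)`, `x 1 t = e false (I_c t)`, `x 2 t = e true (I_c t)`, `x 3, x 4, x 5` the same for `c'`, `x 6 t = u t`:
`HV G 7 16 0 x F` (`F b` := the value for the first two indices; all places `I_c t` are below all `I_c' t`), and
`FV.RN1.k1` is a contradiction: its excluded tables `k1_I` are exactly the 16 constant words on one of the two blocks.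
DISTINCTNESS: `u s` is no vertex of the ladder: a vertex `v k`, `e s k` changes its class only at the place `k`
(`v k`: 1, .., 1, 0, 2, .., 2; `e s k`: 1, .., 1, 3, 0, .., 0).  `u s ≠ u t` (`s < t`): otherwise at `I_c t`: `γ = α`, at
`I_c s`: `γ = β`. -/
def S_Cln : Prop := ∀ n : ℕ, ∃ N : ℕ, ∀ (V : Type) (G : SimpleGraph V) (v : ℕ → V) (e : Bool → ℕ → V),
  H1T.FH G → H1T.FJ 2 G → CH.Ch G N v e → ∃ σ : ℕ → ℕ, (∀ i j, i < j → j < n → σ i < σ j) ∧
    (∀ i < n, σ i < N) ∧ Cln G n (fun i => v (σ i)) fun s i => e s (σ i)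

/-- **Module `LWd`** (words; 200 lines).  PROOF.  (1) Let `w i = cl u i`, `i < n + 18`.  If all `w i` are equal let
`a = n + 18`; otherwise let `a` be the least index with `w a ≠ w 0`.  All `w i`, `i < a`, are equal (to `s`), and all `w i`,
`i > a`, are equal (to `t`) by `Cln` (with `0 < a < c < d`).  (2) A block of 9 places of class 3 is impossible: of 9 places with
one of the four states `p, r` (one letter, `v` missed), `q, t` (one letter, `v` seen) three have the same state, models of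
the docstring of `S_Cln`.  (3) If `a ≥ 9` and `a ≤ n + 8` both blocks have at least 9 places, `s, t ∈ {0, 1, 2}` and
`(0,1)`, `(0,2)`, `(2,1)` are impossible by the other five models there (`0 0 1`; `0 0 y` or `0 0 0 C`; `C 1 1` or `y 1 1`).  So
`Tp s t`.  The word on the places `9, .., n + 8` is of the form `Wt` with `a - 9`.  (4) If `a < 9` all places `9, ..` have the
class `t`: type `(t, t)`; if `a > n + 8` all have the class `s`: type `(s, s)`; here the block has at least 9 places again. -/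
def S_Wd : Prop := ∀ (n : ℕ) (V : Type) (G : SimpleGraph V) (v : ℕ → V) (e : Bool → ℕ → V),
  H1T.FH G → CH.Ch G (n + 18) v e → Cln G (n + 18) v e →
    TL G n (fun i => v (i + 9)) fun s i => e s (i + 9)

/-- **Module `LCel`** (200 lines).  Notation: `R = Rv`, `x ∈ R` with `a x` (`Wt x (a x) 1 0`).  (0) For `x ∈ R`: if `x ~ v t`
then `t ≤ a x` and `x ~ v i` for all `i < t`; if `x` is not adjacent to `v t` (`t < n`) then `a x ≤ t`; `x` misses `e s i` for
`i ≠ a x` (`i < n`).  (1) FACT: `x, y ∈ R`, `t + 3 < n`, `x` misses `v t`, `y ~ v (t + 2)` ⇒ `x`, `y` not adjacent.  Model of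
`K3:0,1,02` (`H1R.engV`): `v t | y | v (t+1) ; e s (t+1) ; x ; e s j`, where `j = t + 2` or `t + 3`, `j ≠ a y` (`a x ≤ t`,
`a y ≥ t + 2`).  (2) LEMMA A: `T ⊆ R` connected, `p + 4 < n`; if some `y₀ ∈ T` misses `v p` then no `z ∈ T` sees
`v (p + 3)`.  PROOF: `B` = the vertices of `T` which miss `v p`; `E` = those which see `v p` and (see `v (p+3)` or touch the
letter `p + 3`); `D` = the rest of `T` (they see `v p`, miss `v (p+3)` and the letter `p + 3`).  `y₀ ∈ B`, `z ∈ E`.  No edges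
between `B` and `E` by (1) with `t = p`: a vertex of `E` sees `v (p+2)`.  As `T` is connected there is a connected
`C ⊆ D` which touches some `x ∈ B` and some `y ∈ E` [let `X = B ∪ {d | ∃ connected Q ⊆ D, d ∈ Q, Q touches B}`; by
`Conn` of `T` there is an edge from `X` to `T \ X`; take `C = Q`].  If `y` touches the letter `p + 3`, say `y ~ e s (p+3)`:
model (`H1R.engS`) `v p | C | y, e s (p+3) ; e s (p+4) ; x ; e (!s) (p+3)`.  Otherwise `y ~ v (p+3)`: model
`v p | C | y, v (p+3) ; e s (p+3) ; x ; e s (p+4)`.  [`C` misses the letter `p + 4` as its `a ≤ p + 3`; `y` in the first case has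
`a y = p + 3`; `x` has `a x ≤ p`.]  (3) `e s k ∈ R` with `a = k`, it misses `v k` and sees `v (k-1)`.  So (LEMMA A with `p = k`) all of
`Kc k` misses `v (k + 3)`; and all of `Kc k` sees `v (k - 4)` (`p = k - 4`: else no vertex sees `v (k - 1)`).  So `lo`, `hi` by (0).
`con`: unions of connected sets with a common vertex.  `out`: add `b` to `Q`. -/
def S_Cel : Prop := ∀ (n : ℕ) (V : Type) (G : SimpleGraph V) (v : ℕ → V) (e : Bool → ℕ → V),
  H1T.FH G → TL G n v e → ∀ k, 5 ≤ k → k + 6 ≤ n → Cel G n v e k (Kc G n v e k)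

/-- **Module `LBb`** (helper53): the behaviour of the other types on the cells `K m = Kc (20 m + 10)`, `m < N`. -/
structure Bb (G : SimpleGraph V) (N : ℕ) (v : ℕ → V) (e : Bool → ℕ → V) : Prop where
  t00 : ∀ b a, Wt G (20 * N) v e b a 0 0 → ∀ m < N, AnK G b (Kc G (20 * N) v e (20 * m + 10))
  t11 : ∀ b a, Wt G (20 * N) v e b a 1 1 → ∀ m < N, AnK G b (Kc G (20 * N) v e (20 * m + 10))
  t22 : ∀ b a, Wt G (20 * N) v e b a 2 2 → ∀ m l, m < l → l < N →
    CoK G b (Kc G (20 * N) v e (20 * m + 10)) ∨ CoK G b (Kc G (20 * N) v e (20 * l + 10))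
  t20 : ∀ b a, a + 1 < 20 * N → Wt G (20 * N) v e b a 2 0 →
    (∀ m, 20 * m + 20 ≤ a → CoK G b (Kc G (20 * N) v e (20 * m + 10))) ∧
      ∀ m < N, a < 20 * m → AnK G b (Kc G (20 * N) v e (20 * m + 10))
  t12 : ∀ b a, Wt G (20 * N) v e b a 1 2 →
    (∀ m < N, 20 * m + 20 ≤ a → AnK G b (Kc G (20 * N) v e (20 * m + 10))) ∧
      ∀ m l, m < l → l < N → a < 20 * m →
        CoK G b (Kc G (20 * N) v e (20 * m + 10)) ∨ CoK G b (Kc G (20 * N) v e (20 * l + 10))

def S_Bb : Prop := ∀ (N : ℕ) (V : Type) (G : SimpleGraph V) (v : ℕ → V) (e : Bool → ℕ → V),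
  H1T.FH G → TL G (20 * N) v e → Bb G N v e

/-- **Module `LGam`** (Ramsey and the table `RN/TG`; 250 lines; uses `S_Cel`).  PROOF.  Let `K l = Kc (20 l + 10)`.  Ramsey for
3-subsets of `{0, .., N - 1}` (`Pool.Agent.Lib.MP_577a3c26_an.ramsey 3 (max n (3 m)) Bool`, `m` for `H1T.ram 5 16`):
colour of `{i < j < l}`: there are `b`, `a` with `Wt b a 1 2`, `20 i ≤ a < 20 j` and `b` not complete to `K l`.  Homogeneous
set `H`, increasing enumeration `h`.  If the colour is 'no': `c = h`.  Suppose it is 'yes'.  For `s < m` take the triple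
`h (2s), h (2s+1), h (2m+s)`: `b s`, `a s`, `z s ∈ K (h (2m+s))`, `z s` not adjacent to `b s`.  Rails: `x 0 s = v (20 h(2s))`,
`x 1 s = e false (20 h(2s))`, `x 2 s = e true (20 h(2s))`; `x 3 s = v (20 h(2m+s) + 10)`, `x 4`, `x 5` the letter of
`20 h(2m+s) + 10`; `x 6 s = b s`, `x 7 s = z s`.  KNOWN RELATIONS: `b s` has class 1 at the places `20 h(2t)`, `t < s`, class 2
at `20 h(2t)`, `t > s` and at all `20 h(2m+t) + 10`; `z s` (`Cel.lo`, `Cel.hi`) has class 1 at all `20 h(2t)` and at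
`20 h(2m+t) + 10`, `t < s`, class 0 at `20 h(2m+t) + 10`, `t > s`; different `z s`, `z t` are not adjacent (`Cel.out`, the cells
are disjoint: `lo`, `hi`); `b s`, `z s` not adjacent.  UNKNOWN (5 relations for `ram`): `b s ~ b t`, `b s ~ z t`,
`b s ~ v (20 h(2t))`, `b s ~ v (20 h(2m+t) + 10)`; the own bits are the diagonals: `b s` at `20 h(2s)`: 3 bits, `b s ~` the own
`v (20 h(2m+s)+10)`, `z s` at its own place `20 h(2m+s) + 10`: 3 bits: encode each as a relation of `(s, t)` which does not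
depend on `t` (so use `ram 16 17` or so).  Result: `HV G 8 16 0 x F` with the table of `FV.RNG.tg` (all bits of `tg` which are
not in the masks are free).  DISTINCTNESS: `b s ≠ b t` (`s < t`): at the place `20 h(2s+1)` `b s` has class 2, `b t` class 1.
`b s`, `z t` are no vertices of the ladder at these places (e.g. `b s ≠ v k`: else .. compare the classes at places
on both sides of `k`; `v k` has class 0 at `k`; use that `HV.dis` for two vertices follows if a third vertex is adjacent to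
exactly one of them), `b s ≠ z t` (class at `20 h(2m+t')`).  `FV.RNG.tg` is a contradiction. -/
def S_Gam : Prop := ∀ n : ℕ, ∃ N : ℕ, ∀ (V : Type) (G : SimpleGraph V) (v : ℕ → V) (e : Bool → ℕ → V),
  H1T.FH G → H1T.FJ 2 G → TL G (20 * N) v e → ∃ c : ℕ → ℕ, (∀ i j, i < j → j < n → c i < c j) ∧
    (∀ i < n, c i < N) ∧ ∀ i j l, i < j → j < l → l < n → ∀ b a, Wt G (20 * N) v e b a 1 2 →
      20 * c i ≤ a → a < 20 * c j → CoK G b (Kc G (20 * N) v e (20 * c l + 10))

end Pool.Agent.MPd439b2.RN.L
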