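import Pool.Agent.Lib.MP_d439b2_co.RN.Step

/-!
# MP_d439b2_co, RN/Lnk: linking twice through a cell (helper38; proof of helper94, note 3166 (2))

`K`: the cell, `W`: the mixers, `O`: the other vertices; `X` gives a cut of rank at most `k` of `G - K`, and `K` has
rank at most 1 to `O`.  If `O ∩ X` and `O \ X` are linked in `G` then there are `W₁ ⊆ W ∩ X` with independent rows on
`O ∩ X` which is linked to `O \ X` in `G - (O ∩ X)` (`link1`), and `W₂ ⊆ W \ X` with independent rows on `O \ X`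
which is linked to `W₁` in `G - O` (`link2`).
-/

set_option autoImplicit false

namespace Pool.Agent.MPd439b2.RN

open Pool.Agent.MPd439b2

variable {V : Type} [Finite V] {G : SimpleGraph V}

/-- subsets of independent sets are independent -/
theorem ind_sub {S S' B : Set V} (h : LK.rk G S B = S.ncard) (hS : S' ⊆ S) : LK.rk G S' B = S'.ncard := by
  have h1 := rk_un G S' (S \ S') B
  rw [Set.union_sdiff_cancel hS, h] at h1
  have h2 := rk_le_card G (S \ S') B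
  have h3 := rk_le_card G S' B
  have h4 : (S \ S').ncard + S'.ncard = S.ncard := Set.ncard_sdiff_add_ncard_of_subset hS (Set.toFinite _)
  omega

/-- independent sets inside a set of small rank are small -/
theorem ind_card {S S' B T : Set V} {k : ℕ} (h : LK.rk G S B = S.ncard) (hS : S' ⊆ S) (hT : S' ⊆ T)
    (hk : LK.rk G T B ≤ k) : S'.ncard ≤ k := by
  rw [← ind_sub h hS]
  exact (rk_mono G hT subset_rfl).trans hk

omit [Finite V] in
theorem rs_rs (U U' : Set V) : H1R.Rs (H1R.Rs G U) U' = H1R.Rs G (U ∩ U') := by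
  ext x y
  show ((G.Adj x y ∧ x ∈ U ∧ y ∈ U) ∧ x ∈ U' ∧ y ∈ U') ↔ (G.Adj x y ∧ x ∈ U ∩ U' ∧ y ∈ U ∩ U')
  simp only [Set.mem_inter_iff]
  tauto

omit [Finite V] in
theorem rk_rs {U A B : Set V} (hA : A ⊆ U) (hB : B ⊆ U) : LK.rk (H1R.Rs G U) A B = LK.rk G A B := by
  unfold LK.rk
  have h : LK.row (H1R.Rs G U) B '' A = LK.row G B '' A := by
    refine Set.image_congr fun x hx => ?_
    funext y
    unfold LK.row
    by_cases h1 : y ∈ B ∧ G.Adj x y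
    · rw [if_pos h1, if_pos ⟨h1.1, h1.2, hA hx, hB h1.1⟩]
    · rw [if_neg h1, if_neg fun h2 => h1 ⟨h2.1, h2.2.1⟩]
  rw [h]

variable {K W O X : Set V} {k n : ℕ}

/-- **The first link.** -/
theorem link1 (hV : ∀ v, v ∈ K ∨ v ∈ W ∨ v ∈ O) (hOK : Disjoint O K) (hWK : Disjoint W K)
    (hK : LK.rk G K O ≤ 1) (hX : LK.rk G (X \ K) (Xᶜ \ K) ≤ k) (h : Kap G (O ∩ X) (O \ X) n) :
    ∃ W₁ ⊆ W ∩ X, LK.rk G W₁ (O ∩ X) = W₁.ncard ∧
      Kap (H1R.Rs G (O ∩ X)ᶜ) (O \ X) W₁ W₁.ncard ∧ n ≤ 2 * W₁.ncard + 3 * k + 2 := by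
  have hOX : O ∩ X ⊆ X \ K := fun x hx => ⟨hx.2, fun h' => Set.disjoint_left.1 hOK hx.1 h'⟩
  have hOY : O \ X ⊆ Xᶜ \ K := fun x hx => ⟨hx.2, fun h' => Set.disjoint_left.1 hOK hx.1 h'⟩
  have hWX : W ∩ X ⊆ X \ K := fun x hx => ⟨hx.2, fun h' => Set.disjoint_left.1 hWK hx.1 h'⟩
  have hWY : W \ X ⊆ Xᶜ \ K := fun x hx => ⟨hx.2, fun h' => Set.disjoint_left.1 hWK hx.1 h'⟩
  have hd : Disjoint (O \ X) (O ∩ X) := Set.disjoint_left.2 fun x hx hx' => hx.2 hx'.2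
  obtain ⟨Z, z1, z2, z3, z4, z5⟩ := step (n := n) hd h.symm
  have hX' : LK.rk G (Xᶜ \ K) (X \ K) ≤ k := by rw [rk_symm]; exact hX
  have r1 : LK.rk G (O \ X) (O ∩ X) ≤ k := (rk_mono G hOY hOX).trans hX'
  have c1 : (Z ∩ K).ncard ≤ 1 := ind_card z3 Set.inter_subset_left Set.inter_subset_right
    ((rk_mono G subset_rfl Set.inter_subset_left).trans hK)
  have c2 : (Z ∩ (W \ X)).ncard ≤ k := ind_card z3 Set.inter_subset_left
    (T := Xᶜ \ K) (fun x hx => hWY hx.2) ((rk_mono G subset_rfl hOX).trans hX')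
  have c3 : (Z \ (Z ∩ (W ∩ X))).ncard ≤ k + 1 := by
    refine (Set.ncard_le_ncard (t := (Z ∩ K) ∪ (Z ∩ (W \ X))) (fun x hx => ?_) (Set.toFinite _)).trans
      ((Set.ncard_union_le _ _).trans (by omega))
    rcases hV x with h1 | h1 | h1
    · exact Or.inl ⟨hx.1, h1⟩
    · exact Or.inr ⟨hx.1, h1, fun h' => hx.2 ⟨hx.1, h1, h'⟩⟩
    · exfalso
      by_cases h2 : x ∈ X
      · exact Set.disjoint_left.1 z2 hx.1 ⟨h1, h2⟩
      · exact Set.disjoint_left.1 z1 hx.1 ⟨h1, h2⟩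
  have c4 : (Z \ (Z ∩ (W ∩ X))).ncard + (Z ∩ (W ∩ X)).ncard = Z.ncard :=
    Set.ncard_sdiff_add_ncard_of_subset Set.inter_subset_left (Set.toFinite _)
  refine ⟨Z ∩ (W ∩ X), Set.inter_subset_right, ind_sub z3 Set.inter_subset_left, ?_, by omega⟩
  refine z4.sub ?_ (by omega)
  rw [Set.disjoint_left]
  exact fun x hx hx' => Set.disjoint_left.1 z1 hx'.1 hx

/-- **The second link.** -/
theorem link2 (hV : ∀ v, v ∈ K ∨ v ∈ W ∨ v ∈ O) (hOK : Disjoint O K) (hOW : Disjoint O W) (hWK : Disjoint W K)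
    (hK : LK.rk G K O ≤ 1) (hX : LK.rk G (X \ K) (Xᶜ \ K) ≤ k) {W₁ : Set V} (hW : W₁ ⊆ W ∩ X)
    (h : Kap (H1R.Rs G (O ∩ X)ᶜ) (O \ X) W₁ W₁.ncard) :
    ∃ W₂ ⊆ W \ X, LK.rk G W₂ (O \ X) = W₂.ncard ∧ Kap (H1R.Rs G Oᶜ) W₁ W₂ W₂.ncard ∧
      W₁.ncard ≤ 2 * W₂.ncard + 3 * k + 2 := by
  have hOX : O ∩ X ⊆ X \ K := fun x hx => ⟨hx.2, fun h' => Set.disjoint_left.1 hOK hx.1 h'⟩
  have hOY : O \ X ⊆ Xᶜ \ K := fun x hx => ⟨hx.2, fun h' => Set.disjoint_left.1 hOK hx.1 h'⟩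
  have hWX : W ∩ X ⊆ X \ K := fun x hx => ⟨hx.2, fun h' => Set.disjoint_left.1 hWK hx.1 h'⟩
  have hWY : W \ X ⊆ Xᶜ \ K := fun x hx => ⟨hx.2, fun h' => Set.disjoint_left.1 hWK hx.1 h'⟩
  have hU1 : W₁ ⊆ (O ∩ X)ᶜ := fun x hx h' => Set.disjoint_left.1 hOW h'.1 (hW hx).1
  have hU2 : O \ X ⊆ (O ∩ X)ᶜ := fun x hx h' => hx.2 h'.2
  have hd : Disjoint W₁ (O \ X) := Set.disjoint_left.2 fun x hx hx' => hx'.2 (hW hx).2
  obtain ⟨Z, z1, z2, z3, z4, z5⟩ := step hd h.symm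
  have r1 : LK.rk (H1R.Rs G (O ∩ X)ᶜ) W₁ (O \ X) ≤ k := by
    rw [rk_rs hU1 hU2]
    exact (rk_mono G (hW.trans hWX) hOY).trans hX
  -- the vertices of `O ∩ X` are isolated
  have c0 : ∀ x ∈ Z, x ∉ O ∩ X := by
    intro x hx hx'
    have h1 := ind_sub z3 (Set.singleton_subset_iff.2 hx)
    have h2 := (LK.a1 V (H1R.Rs G (O ∩ X)ᶜ)).2.2.2.2.2 {x} (O \ X) ∅ fun a ha => Or.inr fun b _ hab => by
      rw [Set.mem_singleton_iff] at ha
      subst ha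
      exact hab.2.1 hx'
    rw [Set.ncard_empty, h1, Set.ncard_singleton] at h2
    omega
  have hU3 : Z ⊆ (O ∩ X)ᶜ := c0
  have z3' : LK.rk G Z (O \ X) = Z.ncard := by
    rw [← z3, rk_rs hU3 hU2]
  have c1 : (Z ∩ K).ncard ≤ 1 := ind_card z3' Set.inter_subset_left Set.inter_subset_right
    ((rk_mono G subset_rfl Set.sdiff_subset).trans hK)
  have c2 : (Z ∩ (W ∩ X)).ncard ≤ k := ind_card z3' Set.inter_subset_left
    (T := X \ K) (fun x hx => hWX hx.2) ((rk_mono G subset_rfl hOY).trans hX)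
  have c3 : (Z \ (Z ∩ (W \ X))).ncard ≤ k + 1 := by
    refine (Set.ncard_le_ncard (t := (Z ∩ K) ∪ (Z ∩ (W ∩ X))) (fun x hx => ?_) (Set.toFinite _)).trans
      ((Set.ncard_union_le _ _).trans (by omega))
    rcases hV x with h1 | h1 | h1
    · exact Or.inl ⟨hx.1, h1⟩
    · by_cases h2 : x ∈ X
      · exact Or.inr ⟨hx.1, h1, h2⟩
      · exact absurd ⟨hx.1, h1, h2⟩ hx.2
    · exfalso
      by_cases h2 : x ∈ X
      · exact c0 x hx.1 ⟨h1, h2⟩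
      · exact Set.disjoint_left.1 z2 hx.1 ⟨h1, h2⟩
  have c4 : (Z \ (Z ∩ (W \ X))).ncard + (Z ∩ (W \ X)).ncard = Z.ncard :=
    Set.ncard_sdiff_add_ncard_of_subset Set.inter_subset_left (Set.toFinite _)
  refine ⟨Z ∩ (W \ X), Set.inter_subset_right, ind_sub z3' Set.inter_subset_left, ?_, by omega⟩
  have h1 : H1R.Rs (H1R.Rs G (O ∩ X)ᶜ) (O \ X)ᶜ = H1R.Rs G Oᶜ := by
    rw [rs_rs]
    congr 1
    ext x
    simp only [Set.mem_inter_iff, Set.mem_compl_iff, Set.mem_sdiff]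
    tauto
  rw [h1] at z4
  refine z4.sub ?_ (by omega)
  rw [Set.disjoint_left]
  exact fun x hx hx' => Set.disjoint_left.1 z1 hx'.1 hx

end Pool.Agent.MPd439b2.RN
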