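import Pool.Agent.Lib.MP_d439b2_co.RN.MxM

/-!
# MP_d439b2_co, RN/MxA: Block 2: assembly: `S_Mx` from the sequence lemmas (helper90)
-/

set_option autoImplicit false

namespace Pool.Agent.MPd439b2.RN

open Pool.Agent.MPd439b2 Pool.Agent.MPd439b2.Rep Pool.Agent.MPd439b2.FT

/-- the eight alternatives for a cell which is not poor -/
def Pr {V : Type} (G : SimpleGraph V) (n : ℕ) (v : ℕ → V) (K : ℕ → Set V) (k : ℕ) : ℕ → Prop
  | 0 => ∃ w, w ∈ Mx G (K k) ∧ Kd G n K k w true true ∧ ¬ G.Adj (v k) w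
  | 1 => ∃ w, w ∈ Mx G (K k) ∧ Kd G n K k w true false ∧ ¬ G.Adj (v k) w
  | 2 => ∃ w, w ∈ Mx G (K k) ∧ Kd G n K k w false true
  | 3 => ∃ w u, MK G n v K true k w ∧ MK G n v K false k u ∧ w ≠ u
  | 4 => ∃ w u, MK G n v K true k w ∧ MK G n v K true k u ∧ w ≠ u ∧ ¬ G.Adj w u
  | 5 => ∃ w u, MK G n v K false k w ∧ MK G n v K false k u ∧ w ≠ u ∧ ¬ G.Adj w u
  | 6 => ∃ w u z z', MK G n v K true k w ∧ MK G n v K true k u ∧ w ≠ u ∧ z ≠ z' ∧ Ds G (K k) w u z ∧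
      Ds G (K k) w u z'
  | _ => ∃ (w : ℕ → V) (z₁ z₂ : V), (∀ i < 3, MK G n v K false k (w i)) ∧
      (∀ i < 3, ∀ j < 3, i ≠ j → w i ≠ w j ∧ G.Adj (w i) (w j) ∧
        ¬ ((G.Adj (w i) z₁ ↔ G.Adj (w j) z₁) ∧ (G.Adj (w i) z₂ ↔ G.Adj (w j) z₂))) ∧
      z₁ ∉ XK G (K k) ∧ z₂ ∉ XK G (K k)

theorem MK.ne {V : Type} {G : SimpleGraph V} {n : ℕ} {v : ℕ → V} {K : ℕ → Set V} (hC : CS G n v K) {k : ℕ}
    (hk0 : 0 < k) (hk1 : k < n) {w u : V} (hw : MK G n v K true k w) (hu : MK G n v K false k u) : w ≠ u := by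
  intro h
  subst h
  obtain ⟨x, hx⟩ := hC.ne (k := 0) (by omega)
  exact (hu.2.1.2 0 hk0).2 rfl x hx ((hw.2.1.2 0 hk0).1 rfl x hx)

theorem alt {V : Type} {G : SimpleGraph V} {n : ℕ} {v : ℕ → V} {K : ℕ → Set V} (hC : CS G n v K) {k : ℕ}
    (hk0 : 0 < k) (hk1 : k + 1 < n) (hP : ¬ Poor G (K k)) : ∃ i < 8, Pr G n v K k i := by
  by_contra hcon
  push Not at hcon
  -- every mixer is an `MK`
  have hMK : ∀ w ∈ Mx G (K k), ∃ h, MK G n v K h k w := by
    intro w hw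
    obtain ⟨r, l, hd⟩ := hC.kd (by omega) hw
    rcases r with _ | _ <;> rcases l with _ | _
    · exfalso
      obtain ⟨x, hx⟩ := hC.ne (k := 0) (by omega)
      obtain ⟨y, hy⟩ := hC.ne (k := k + 1) hk1
      rcases hC.big k (by omega) w hw.1 hw.2.2 with h | h
      · exact (hd.1 (k + 1) hk1 (by omega)).2 rfl y hy (h (k + 1) hk1 (by omega) y hy)
      · exact (hd.2 0 hk0).2 rfl x hx (h 0 hk0 x hx)
    · exact absurd ⟨w, hw, hd⟩ (hcon 2 (by omega))
    · by_cases h : G.Adj (v k) w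
      · exact ⟨false, hw, hd, h⟩
      · exact absurd ⟨w, hw, hd, h⟩ (hcon 1 (by omega))
    · by_cases h : G.Adj (v k) w
      · exact ⟨true, hw, hd, h⟩
      · exact absurd ⟨w, hw, hd, h⟩ (hcon 0 (by omega))
  have hTF : ∀ w u, MK G n v K true k w → MK G n v K false k u → False := fun w u hw hu =>
    hcon 3 (by omega) ⟨w, u, hw, hu, hw.ne hC hk0 (by omega) hu⟩
  have hTT : ∀ w u, MK G n v K true k w → MK G n v K true k u → w ≠ u → G.Adj w u := fun w u hw hu hwu => by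
    by_contra h
    exact hcon 4 (by omega) ⟨w, u, hw, hu, hwu, h⟩
  have hFF : ∀ w u, MK G n v K false k w → MK G n v K false k u → w ≠ u → G.Adj w u := fun w u hw hu hwu => by
    by_contra h
    exact hcon 5 (by omega) ⟨w, u, hw, hu, hwu, h⟩
  unfold Poor at hP
  push Not at hP
  obtain ⟨w₀, hw₀, w₁, hw₁, w₂, hw₂, ⟨z₀, hz₀, d₀⟩, ⟨z₁, hz₁, d₁⟩, ⟨z₂, hz₂, d₂⟩⟩ := hP
  have ne01 : w₀ ≠ w₁ := fun h => by subst h; tauto
  have ne02 : w₀ ≠ w₂ := fun h => by subst h; tauto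
  have ne12 : w₁ ≠ w₂ := fun h => by subst h; tauto
  obtain ⟨t₀, m₀⟩ := hMK w₀ hw₀
  obtain ⟨t₁, m₁⟩ := hMK w₁ hw₁
  obtain ⟨t₂, m₂⟩ := hMK w₂ hw₂
  rcases t₀ with _ | _
  · -- half
    rcases t₁ with _ | _
    swap
    · exact hTF _ _ m₁ m₀
    rcases t₂ with _ | _
    swap
    · exact hTF _ _ m₂ m₀
    have mk : ∀ z z', z ∉ XK G (K k) → z' ∉ XK G (K k) →
        ¬ ((G.Adj w₀ z ↔ G.Adj w₁ z) ∧ (G.Adj w₀ z' ↔ G.Adj w₁ z')) →
        ¬ ((G.Adj w₀ z ↔ G.Adj w₂ z) ∧ (G.Adj w₀ z' ↔ G.Adj w₂ z')) →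
        ¬ ((G.Adj w₁ z ↔ G.Adj w₂ z) ∧ (G.Adj w₁ z' ↔ G.Adj w₂ z')) → False := by
      intro z z' hz hz' e1 e2 e3
      refine hcon 7 (by omega) ⟨fun i => if i = 0 then w₀ else if i = 1 then w₁ else w₂, z, z', ?_, ?_, hz, hz'⟩
      · intro i hi
        interval_cases i
        · exact m₀
        · exact m₁
        · exact m₂
      · have a01 := hFF _ _ m₀ m₁ ne01
        have a02 := hFF _ _ m₀ m₂ ne02
        have a12 := hFF _ _ m₁ m₂ ne12
        intro i hi j hj hij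
        interval_cases i <;> interval_cases j <;> first | exact absurd rfl hij | skip
        · exact ⟨ne01, a01, e1⟩
        · exact ⟨ne02, a02, e2⟩
        · exact ⟨ne01.symm, a01.symm, fun h => e1 ⟨h.1.symm, h.2.symm⟩⟩
        · exact ⟨ne12, a12, e3⟩
        · exact ⟨ne02.symm, a02.symm, fun h => e2 ⟨h.1.symm, h.2.symm⟩⟩
        · exact ⟨ne12.symm, a12.symm, fun h => e3 ⟨h.1.symm, h.2.symm⟩⟩
    by_cases h : G.Adj w₀ z₀ ↔ G.Adj w₂ z₀
    · exact mk z₀ z₁ hz₀ hz₁ (by tauto) (by tauto) (by tauto)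
    · exact mk z₀ z₂ hz₀ hz₂ (by tauto) (by tauto) (by tauto)
  · -- thick
    rcases t₁ with _ | _
    · exact hTF _ _ m₀ m₁
    rcases t₂ with _ | _
    · exact hTF _ _ m₀ m₂
    have mk : ∀ w u z z', MK G n v K true k w → MK G n v K true k u → w ≠ u → z ∉ XK G (K k) →
        z' ∉ XK G (K k) → z ≠ z' → ¬ (G.Adj w z ↔ G.Adj u z) → ¬ (G.Adj w z' ↔ G.Adj u z') → False :=
      fun w u z z' hw hu hwu hz hz' hzz e e' =>
        hcon 6 (by omega) ⟨w, u, z, z', hw, hu, hwu, hzz, ⟨hz, e⟩, ⟨hz', e'⟩⟩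
    by_cases h : G.Adj w₀ z₀ ↔ G.Adj w₂ z₀
    · have hne : z₀ ≠ z₁ := fun h' => by subst h'; tauto
      by_cases h' : G.Adj w₀ z₁ ↔ G.Adj w₁ z₁
      · exact mk w₁ w₂ z₀ z₁ m₁ m₂ ne12 hz₀ hz₁ hne (by tauto) (by tauto)
      · exact mk w₀ w₁ z₀ z₁ m₀ m₁ ne01 hz₀ hz₁ hne (by tauto) (by tauto)
    · have hne : z₀ ≠ z₂ := fun h' => by subst h'; tauto
      by_cases h' : G.Adj w₀ z₂ ↔ G.Adj w₁ z₂
      · exact mk w₀ w₂ z₀ z₂ m₀ m₂ ne02 hz₀ hz₂ hne (by tauto) (by tauto)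
      · exact mk w₀ w₁ z₀ z₂ m₀ m₁ ne01 hz₀ hz₂ hne (by tauto) (by tauto)

/-- a rich cell of a subsystem is rich -/
theorem Rich.comp {V : Type} {G : SimpleGraph V} {n N b k : ℕ} {v : ℕ → V} {K : ℕ → Set V} (hC : CS G n v K)
    {s : ℕ → ℕ} (hs : ∀ k l, k < l → l < N → s k < s l) (hn : ∀ k < N, s k < n) (hk : k < N)
    (h : Rich G N (fun j => v (s j)) (fun j => K (s j)) b k) : Rich G n v K b (s k) := by
  classical
  obtain ⟨w, z₁, z₂, h1, h2, h3, h4, ⟨L, hL, h5⟩, j, hj, hjN, h6, h7, L', hL', h8⟩ := h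
  have himg : ∀ L : Finset ℕ, (∀ l ∈ L, l < N) → (L.image s).card = L.card := fun L hLN =>
    Finset.card_image_of_injOn fun x hx y hy hxy => by
      by_contra hne
      rcases lt_or_gt_of_ne hne with h | h
      · exact absurd hxy (hs x y h (hLN y hy)).ne
      · exact absurd hxy (hs y x h (hLN x hx)).ne'
  obtain ⟨l₀, hl₀⟩ : L.Nonempty := Finset.card_pos.1 (by omega)
  obtain ⟨l₁, hl₁⟩ : L'.Nonempty := Finset.card_pos.1 (by omega)
  refine ⟨w, z₁, z₂, fun i hi => ⟨(h1 i hi).1, ?_, ?_⟩, h2, h3, h4, ⟨L.image s, ?_, ?_⟩, s j, ?_, hn j hjN, h6, h7,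
    L'.image s, ?_, ?_⟩
  · rcases (hC.mix _ (hn k hk) _ (h1 i hi).1).1 with h | h
    · exact h
    · exfalso
      obtain ⟨q1, q2, _⟩ := h8 l₁ hl₁
      obtain ⟨x, hx⟩ := hC.ne (hn l₁ q2)
      exact h _ (hn l₁ q2) (hs k l₁ (by omega) q2) x hx ((h1 i hi).2.1 l₁ q2 (by omega) x hx)
  · rcases (hC.mix _ (hn k hk) _ (h1 i hi).1).2 with h | h
    · exfalso
      obtain ⟨q1, _⟩ := h5 l₀ hl₀
      obtain ⟨x, hx⟩ := hC.ne (hn l₀ (by omega))
      exact (h1 i hi).2.2 l₀ q1 x hx (h _ (hs l₀ k q1 hk) x hx)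
    · exact h
  · rw [himg L fun l hl => lt_trans (h5 l hl).1 hk]
    exact hL
  · intro l hl
    obtain ⟨m, hm, rfl⟩ := Finset.mem_image.1 hl
    exact ⟨hs m k (h5 m hm).1 hk, (h5 m hm).2⟩
  · rcases lt_or_eq_of_le hj with h | h
    · exact (hs k j h hjN).le
    · rw [h]
  · rw [himg L' fun l hl => (h8 l hl).2.1]
    exact hL'
  · intro l hl
    obtain ⟨m, hm, rfl⟩ := Finset.mem_image.1 hl
    obtain ⟨q1, q2, q3⟩ := h8 m hm
    exact ⟨hs j m q1 q2, hn m q2, q3⟩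

/-- pigeonhole for alternatives -/
theorem pigP (r M : ℕ) : ∃ N : ℕ, ∀ P : ℕ → ℕ → Prop, (∀ k < N, ∃ i < r, P k i) →
    ∃ (s : ℕ → ℕ) (i : ℕ), i < r ∧ (∀ k l, k < l → l < M → s k < s l) ∧ (∀ k < M, s k < N) ∧
      ∀ k < M, P (s k) i := by
  classical
  obtain ⟨N, hN⟩ := pig (Fin (r + 1)) (M + 1)
  refine ⟨N, fun P hP => ?_⟩
  have hch : ∀ k, ∃ i, k < N → i < r ∧ P k i := fun k => by
    by_cases hk : k < N
    · obtain ⟨i, h1, h2⟩ := hP k hk
      exact ⟨i, fun _ => ⟨h1, h2⟩⟩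
    · exact ⟨0, fun h => absurd h hk⟩
  choose c hc using hch
  obtain ⟨s, i, s1, s2, s3⟩ := hN fun k => Fin.ofNat (r + 1) (c k)
  have key : ∀ k < M + 1, c (s k) = i.val := fun k hk => by
    have h1 := s3 k hk
    rw [← h1]
    exact (Nat.mod_eq_of_lt (by have := (hc _ (s2 k hk)).1; omega)).symm
  refine ⟨s, i.val, ?_, fun k l hkl hl => s1 k l hkl (by omega), fun k hk => s2 k (by omega), fun k hk => ?_⟩
  · rw [← key 0 (by omega)]
    exact (hc _ (s2 0 (by omega))).1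
  · rw [← key k (by omega)]
    exact (hc _ (s2 k (by omega))).2

/-- increasing maps keep the distances -/
theorem mono_add {M : ℕ} {s : ℕ → ℕ} (h : ∀ k l, k < l → l < M → s k < s l) (k d : ℕ) (hd : k + d < M) :
    s k + d ≤ s (k + d) := by
  induction d with
  | zero => exact le_rfl
  | succ d ih =>
    have h1 := ih (by omega)
    have h2 := h (k + d) (k + (d + 1)) (by omega) (by omega)
    omega

theorem sMx_of (h0 : S_L0) (h1 : S_L1) (h2 : S_L2) (h3 : S_L3) (h4 : S_L4) (h5 : S_L5) : S_Mx := by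
  classical
  intro b
  obtain ⟨N0, h0t⟩ := h0 true
  obtain ⟨N1, h0f⟩ := h0 false
  obtain ⟨N2, h1⟩ := h1
  obtain ⟨N3, h2⟩ := h2
  obtain ⟨N4, h3t⟩ := h3 true
  obtain ⟨N5, h3f⟩ := h3 false
  obtain ⟨N6, h4⟩ := h4
  obtain ⟨N7, h5⟩ := h5 b
  obtain ⟨N, hN⟩ := pigP 8 (N0 + N1 + N2 + N3 + N4 + N5 + N6 + N7)
  refine ⟨N + 2 * b + 4, fun V G v K hH hJ hC => ?_⟩
  by_contra hcon
  push Not at hcon
  set n := N + 2 * b + 4 with hn
  obtain ⟨s, i, hi, s1, s2, s3⟩ := hN (fun k => Pr G n v K (k + (b + 1))) (fun k hk => by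
    refine alt hC (by omega) (by omega) (hcon (k + (b + 1)) (by omega) (by omega)).1)
  -- the subsystem
  set M := N0 + N1 + N2 + N3 + N4 + N5 + N6 + N7 with hM
  set t : ℕ → ℕ := fun k => s k + (b + 1) with ht
  have t1 : ∀ k l, k < l → l < M → t k < t l := fun k l hkl hl => by
    have := s1 k l hkl hl
    simp only [ht]
    omega
  have t2 : ∀ k < M, t k < n := fun k hk => by
    have := s2 k hk
    simp only [ht]
    omega
  have sub : ∀ N' ≤ M, CS G N' (fun k => v (t k)) (fun k => K (t k)) := fun N' hN' =>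
    hC.comp (fun k l hkl hl => t1 k l hkl (by omega)) (fun k hk => t2 k (by omega))
  have kd : ∀ N' ≤ M, ∀ k < N', ∀ w r l, Kd G n K (t k) w r l → Kd G N' (fun j => K (t j)) k w r l :=
    fun N' hN' k hk w r l h => h.comp (fun k l hkl hl => t1 k l hkl (by omega)) (fun k hk => t2 k (by omega)) hk
  have mk : ∀ N' ≤ M, ∀ k < N', ∀ w h, MK G n v K h (t k) w →
      MK G N' (fun j => v (t j)) (fun j => K (t j)) h k w :=
    fun N' hN' k hk w h hw => MK.comp (fun k l hkl hl => t1 k l hkl (by omega)) (fun k hk => t2 k (by omega)) hk hw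
  have s3' : ∀ k < M, Pr G n v K (t k) i := s3
  interval_cases i
  · have hch : ∀ k, ∃ w, k < M → (w ∈ Mx G (K (t k)) ∧ Kd G n K (t k) w true true ∧ ¬ G.Adj (v (t k)) w) :=
      fun k => by
        by_cases hk : k < M
        · obtain ⟨w, hw⟩ := s3' k hk
          exact ⟨w, fun _ => hw⟩
        · exact ⟨v 0, fun h => absurd h hk⟩
    choose w hw using hch
    exact h0t V G _ _ w hH hJ (sub N0 (by omega)) fun k hk =>
      ⟨(hw k (by omega)).1, kd N0 (by omega) k hk _ _ _ (hw k (by omega)).2.1, (hw k (by omega)).2.2⟩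
  · have hch : ∀ k, ∃ w, k < M → (w ∈ Mx G (K (t k)) ∧ Kd G n K (t k) w true false ∧ ¬ G.Adj (v (t k)) w) :=
      fun k => by
        by_cases hk : k < M
        · obtain ⟨w, hw⟩ := s3' k hk
          exact ⟨w, fun _ => hw⟩
        · exact ⟨v 0, fun h => absurd h hk⟩
    choose w hw using hch
    exact h0f V G _ _ w hH hJ (sub N1 (by omega)) fun k hk =>
      ⟨(hw k (by omega)).1, kd N1 (by omega) k hk _ _ _ (hw k (by omega)).2.1, (hw k (by omega)).2.2⟩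
  · have hch : ∀ k, ∃ w, k < M → (w ∈ Mx G (K (t k)) ∧ Kd G n K (t k) w false true) :=
      fun k => by
        by_cases hk : k < M
        · obtain ⟨w, hw⟩ := s3' k hk
          exact ⟨w, fun _ => hw⟩
        · exact ⟨v 0, fun h => absurd h hk⟩
    choose w hw using hch
    exact h1 V G _ _ w hH hJ (sub N2 (by omega)) fun k hk =>
      ⟨(hw k (by omega)).1, kd N2 (by omega) k hk _ _ _ (hw k (by omega)).2⟩
  · have hch : ∀ k, ∃ w u, k < M → (MK G n v K true (t k) w ∧ MK G n v K false (t k) u ∧ w ≠ u) :=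
      fun k => by
        by_cases hk : k < M
        · obtain ⟨w, u, hw⟩ := s3' k hk
          exact ⟨w, u, fun _ => hw⟩
        · exact ⟨v 0, v 0, fun h => absurd h hk⟩
    choose w u hw using hch
    exact h2 V G _ _ w u hH hJ (sub N3 (by omega)) fun k hk =>
      ⟨mk N3 (by omega) k hk _ _ (hw k (by omega)).1, mk N3 (by omega) k hk _ _ (hw k (by omega)).2.1,
        (hw k (by omega)).2.2⟩
  · have hch : ∀ k, ∃ w u, k < M → (MK G n v K true (t k) w ∧ MK G n v K true (t k) u ∧ w ≠ u ∧ ¬ G.Adj w u) :=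
      fun k => by
        by_cases hk : k < M
        · obtain ⟨w, u, hw⟩ := s3' k hk
          exact ⟨w, u, fun _ => hw⟩
        · exact ⟨v 0, v 0, fun h => absurd h hk⟩
    choose w u hw using hch
    exact h3t V G _ _ w u hH hJ (sub N4 (by omega)) fun k hk =>
      ⟨mk N4 (by omega) k hk _ _ (hw k (by omega)).1, mk N4 (by omega) k hk _ _ (hw k (by omega)).2.1,
        (hw k (by omega)).2.2⟩
  · have hch : ∀ k, ∃ w u, k < M → (MK G n v K false (t k) w ∧ MK G n v K false (t k) u ∧ w ≠ u ∧ ¬ G.Adj w u) :=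
      fun k => by
        by_cases hk : k < M
        · obtain ⟨w, u, hw⟩ := s3' k hk
          exact ⟨w, u, fun _ => hw⟩
        · exact ⟨v 0, v 0, fun h => absurd h hk⟩
    choose w u hw using hch
    exact h3f V G _ _ w u hH hJ (sub N5 (by omega)) fun k hk =>
      ⟨mk N5 (by omega) k hk _ _ (hw k (by omega)).1, mk N5 (by omega) k hk _ _ (hw k (by omega)).2.1,
        (hw k (by omega)).2.2⟩
  · have hch : ∀ k, ∃ w u z z', k < M → (MK G n v K true (t k) w ∧ MK G n v K true (t k) u ∧ w ≠ u ∧ z ≠ z' ∧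
        Ds G (K (t k)) w u z ∧ Ds G (K (t k)) w u z') :=
      fun k => by
        by_cases hk : k < M
        · obtain ⟨w, u, z, z', hw⟩ := s3' k hk
          exact ⟨w, u, z, z', fun _ => hw⟩
        · exact ⟨v 0, v 0, v 0, v 0, fun h => absurd h hk⟩
    choose w u z z' hw using hch
    exact h4 V G _ _ w u z z' hH hJ (sub N6 (by omega)) fun k hk =>
      ⟨mk N6 (by omega) k hk _ _ (hw k (by omega)).1, mk N6 (by omega) k hk _ _ (hw k (by omega)).2.1,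
        (hw k (by omega)).2.2⟩
  · have hch : ∀ k, ∃ (w : ℕ → V) (z₁ z₂ : V), k < M → ((∀ i < 3, MK G n v K false (t k) (w i)) ∧
        (∀ i < 3, ∀ j < 3, i ≠ j → w i ≠ w j ∧ G.Adj (w i) (w j) ∧
          ¬ ((G.Adj (w i) z₁ ↔ G.Adj (w j) z₁) ∧ (G.Adj (w i) z₂ ↔ G.Adj (w j) z₂))) ∧
        z₁ ∉ XK G (K (t k)) ∧ z₂ ∉ XK G (K (t k))) :=
      fun k => by
        by_cases hk : k < M
        · obtain ⟨w, z₁, z₂, hw⟩ := s3' k hk
          exact ⟨w, z₁, z₂, fun _ => hw⟩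
        · exact ⟨fun _ => v 0, v 0, v 0, fun h => absurd h hk⟩
    choose w z₁ z₂ hw using hch
    obtain ⟨k, hk1, hk2, hR⟩ := h5 V G _ _ (fun i k => w k i) z₁ z₂ hH hJ (sub N7 (by omega)) fun k hk =>
      ⟨fun i hi => mk N7 (by omega) k hk _ _ ((hw k (by omega)).1 i hi), (hw k (by omega)).2.1,
        (hw k (by omega)).2.2⟩
    have hR' : Rich G n v K b (t k) := Rich.comp hC (fun k l hkl hl => t1 k l hkl (by omega))
      (fun k hk => t2 k (by omega)) (by omega) hR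
    have e2 := s2 k (by omega)
    have e3 : t k = s k + (b + 1) := rfl
    exact (hcon (t k) (by omega) (by omega)).2 hR'

end Pool.Agent.MPd439b2.RN
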