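import Pool.Agent.Lib.MP_d439b2_co.RN.MxM

/-!
# MP_d439b2_co, RN/MxL: Block 2: the sequence lemmas L0, L1, L2, L3 (helper90)
-/

set_option autoImplicit false

namespace Pool.Agent.MPd439b2.RN

open Pool.Agent.MPd439b2 Pool.Agent.MPd439b2.Rep Pool.Agent.MPd439b2.FT

/-- **Homogeneous rails for one mixer of every cell** and an edge of the cell on which it is mixed. -/
theorem singR (M : ℕ) : ∃ N : ℕ, ∀ (V : Type) (G : SimpleGraph V) (v : ℕ → V)
    (K : ℕ → Set V) (w : ℕ → V), CS G N v K → (∀ k < N, w k ∈ Mx G (K k)) →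
    ∃ (s : ℕ → ℕ) (x : ℕ → ℕ → V) (F : ℕ → Bool),
      (∀ k l, k < l → l < M → s k < s l) ∧ (∀ k < M, s k < N) ∧
      RE G M (fun k => v (s k)) (fun k => K (s k)) 2 4 x F ∧ (∀ k < M, x 3 k = w (s k)) ∧
      ∀ k < M, G.Adj (x 1 k) (x 2 k) ∧ G.Adj (x 3 k) (x 1 k) ∧ ¬ G.Adj (x 3 k) (x 2 k) := by
  classical
  obtain ⟨N, hN⟩ := hr_exists 4 M (by omega)
  refine ⟨N, fun V G v K w hC hw => ?_⟩
  have hch : ∀ k, ∃ x y : V, k < N → x ∈ K k ∧ y ∈ K k ∧ G.Adj x y ∧ G.Adj (w k) x ∧ ¬ G.Adj (w k) y := by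
    intro k
    by_cases hk : k < N
    · obtain ⟨x, hx, y, hy, h⟩ := edge (hC.con k hk) (hw k hk)
      exact ⟨x, y, fun _ => ⟨hx, hy, h⟩⟩
    · exact ⟨v 0, v 0, fun h => absurd h hk⟩
  choose x y hxy using hch
  set t : ℕ → ℕ → V := fun i k => if i = 0 then v k else if i = 1 then x k else if i = 2 then y k else w k with ht
  have t0 : ∀ k, t 0 k = v k := fun k => rfl
  have t1 : ∀ k, t 1 k = x k := fun k => rfl
  have t2 : ∀ k, t 2 k = y k := fun k => rfl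
  have t3 : ∀ k, t 3 k = w k := fun k => rfl
  have dK : ∀ k < N, ∀ l < N, k ≠ l → ∀ a ∈ K k, ∀ b ∈ K l, a ≠ b := fun k hk l hl hkl a ha b hb h' =>
    Set.disjoint_left.1 (hC.dis k hk l hl hkl).1 ha (h' ▸ hb)
  have d1 : ∀ i < 4, ∀ k < N, ∀ l < N, k ≠ l → t i k ≠ t i l := by
    intro i hi k hk l hl hkl
    interval_cases i
    · exact (hC.vv k hk l hl hkl).1
    · exact dK k hk l hl hkl _ (hxy k hk).1 _ (hxy l hl).1
    · exact dK k hk l hl hkl _ (hxy k hk).2.1 _ (hxy l hl).2.1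
    · intro h'
      rw [t3, t3] at h'
      exact hC.mx_mx hk hl hkl (hw k hk) (h' ▸ hw l hl)
  have d2 : ∀ i < 4, ∀ j < 4, i ≠ j → ∀ k < N, t i k ≠ t j k := by
    intro i hi j hj hij k hk
    have h1 := (hxy k hk).1
    have h2 := (hxy k hk).2.1
    have h3 := (hxy k hk).2.2.1.ne
    have h4 := hC.vK k hk k hk
    have h5 := hC.v_mx hk hk
    have h6 := hw k hk
    have key : ∀ i < 4, ∀ j < 4, i < j → t i k ≠ t j k := by
      intro i hi j hj hij
      interval_cases i <;> interval_cases j <;> first | omega | skip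
      · rw [t0, t1]; exact fun h' => h4 (h' ▸ h1)
      · rw [t0, t2]; exact fun h' => h4 (h' ▸ h2)
      · rw [t0, t3]; exact fun h' => h5 (h' ▸ h6)
      · rw [t1, t2]; exact h3
      · rw [t1, t3]; exact fun h' => h6.1 (h' ▸ h1)
      · rw [t2, t3]; exact fun h' => h6.1 (h' ▸ h2)
    rcases lt_or_gt_of_ne hij with h | h
    · exact key i hi j hj h
    · exact (key j hj i hi h).symm
  obtain ⟨s, F, s1, s2, hr⟩ := hN V G t d1 d2
  refine ⟨s, fun i k => t i (s k), F, s1, s2, ⟨hr, by omega, by omega, fun k hk => rfl, fun a ha ha' k hk => ?_⟩,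
      fun k hk => rfl, fun k hk => ?_⟩
  · have : a = 1 ∨ a = 2 := by omega
    rcases this with rfl | rfl
    · exact (hxy (s k) (s2 k hk)).1
    · exact (hxy (s k) (s2 k hk)).2.1
  · exact (hxy (s k) (s2 k hk)).2.2

theorem l0 (T : Tabs) : S_L0 := by
  intro h
  obtain ⟨N, hN⟩ := singR 16
  refine ⟨N, fun V G v K w hH hJ hC hw => ?_⟩
  obtain ⟨s, x, F, s1, s2, hr, hx, he⟩ := hN V G v K w hC fun k hk => (hw k hk).1
  have hC' : CS G 16 (fun k => v (s k)) (fun k => K (s k)) := hC.comp s1 s2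
  have kw : ∀ k < 16, Kd G 16 (fun j => K (s j)) k (x 3 k) true h := fun k hk => by
    rw [hx k hk]
    exact (hw _ (s2 k hk)).2.1.comp s1 s2 hk
  obtain ⟨e1, e2, e3⟩ := he 0 (by omega)
  have mw := hr.mr hC' (by omega) hH hJ T.t1b (r := 3) (by omega) (by omega) kw (a := 1) (b := 2) (by omega)
    (by omega) (by omega) (by omega) e1 e2 e3
  have h1 := (hr.hr.dg 0 (by omega) 3 (by omega) (by omega) 0 (by omega)).2 mw.2.2.2.1
  rw [hr.x0 0 (by omega), hx 0 (by omega)] at h1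
  exact (hw _ (s2 0 (by omega))).2.2 h1

theorem l1 (T : Tabs) : S_L1 := by
  obtain ⟨N, hN⟩ := singR 16
  refine ⟨N, fun V G v K w hH hJ hC hw => ?_⟩
  obtain ⟨s, x, F, s1, s2, hr, hx, he⟩ := hN V G v K w hC fun k hk => (hw k hk).1
  have hC' : CS G 16 (fun k => v (s k)) (fun k => K (s k)) := hC.comp s1 s2
  have kw : ∀ k < 16, Kd G 16 (fun j => K (s j)) k (x 3 k) false true := fun k hk => by
    rw [hx k hk]
    exact (hw _ (s2 k hk)).2.comp s1 s2 hk
  obtain ⟨e1, e2, e3⟩ := he 0 (by omega)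
  have g1 : F 274 = true := (hr.hr.dg 1 (by omega) 2 (by omega) (by omega) 0 (by omega)).1 e1
  have g2 : F (256 + 16 + 3) = true := (hr.hr.dg 1 (by omega) 3 (by omega) (by omega) 0 (by omega)).1 e2.symm
  have g3 : F (256 + 32 + 3) = false := by
    rw [← Bool.not_eq_true]
    exact fun h' => e3 ((hr.hr.dg 2 (by omega) 3 (by omega) (by omega) 0 (by omega)).2 h').symm
  have off : ∀ c, 1 ≤ c → c ≤ 2 → F (16 * 3 + c) = false ∧ F (16 * c + 3) = true := by
    intro c hc hc'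
    constructor
    · rw [← Bool.not_eq_true]
      exact fun h' => ((kw 0 (by omega)).1 1 (by omega) (by omega)).2 rfl _ (hr.xK c hc hc' 1 (by omega))
        ((hr.hr.rel 3 (by omega) c (by omega) 0 1 (by omega) (by omega)).2 h')
    · exact (hr.hr.rel c (by omega) 3 (by omega) 0 1 (by omega) (by omega)).1
        (((kw 1 (by omega)).2 0 (by omega)).1 rfl _ (hr.xK c hc hc' 0 (by omega))).symm
  exact T.t1a V G x F ⟨hH, hJ, hr.hr⟩ (hr.kr hC' (by omega)) g1 g2 g3 (off 1 (by omega) (by omega)).1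
    (off 2 (by omega) (by omega)).1 (off 1 (by omega) (by omega)).2 (off 2 (by omega) (by omega)).2

theorem l2 (T : Tabs) : S_L2 := by
  obtain ⟨N, hN⟩ := pairM T 16 0 (by omega) (by omega) true false
  refine ⟨N, fun V G v K w u hH hJ hC hw => ?_⟩
  obtain ⟨m, s, x, F, ⟨m2, m4⟩, _, hC', hr, ⟨hk, hcf⟩, ⟨mw, mu, _⟩, _⟩ := hN V G v K w u w hH hJ hC hw
    fun h => absurd h (by omega)
  exact T.t2 V G x F m ⟨hH, hJ, hr.hr.mono (by omega) (by omega)⟩ hk hcf mw mu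

theorem l3 (T : Tabs) : S_L3 := by
  intro h
  obtain ⟨N, hN⟩ := pairM T 16 0 (by omega) (by omega) h h
  refine ⟨N, fun V G v K w u hH hJ hC hw => ?_⟩
  obtain ⟨m, s, x, F, ⟨m2, m4⟩, ⟨s1, s2⟩, hC', hr, ⟨hk, hcf⟩, ⟨mw, mu, wu⟩, _, hx, _⟩ := hN V G v K w u w hH hJ hC
    (fun k hk => ⟨(hw k hk).1, (hw k hk).2.1, (hw k hk).2.2.1⟩) fun h => absurd h (by omega)
  have h1 := (hr.hr.dg (m + 1) (by omega) (m + 2) (by omega) (by omega) 0 (by omega)).2 (wu rfl).2.2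
  rw [(hx 0 (by omega)).1, (hx 0 (by omega)).2] at h1
  exact (hw _ (s2 0 (by omega))).2.2.2 h1

end Pool.Agent.MPd439b2.RN
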