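import Pool.Agent.Lib.MP_d439b2_co.RN.MxS

/-!
# MP_d439b2_co, RN/MxM: homogeneous rails for two mixers with all known bits (helper90)
-/

set_option autoImplicit false

namespace Pool.Agent.MPd439b2.RN

open Pool.Agent.MPd439b2 Pool.Agent.MPd439b2.Rep Pool.Agent.MPd439b2.FT

variable {V : Type} {G : SimpleGraph V}

theorem CfK.edw {m : ℕ} {c : ℕ → V} {w u : V} (h : CfK G m c w u) :
    ∃ a b, (1 ≤ a ∧ a ≤ m) ∧ (1 ≤ b ∧ b ≤ m) ∧ G.Adj (c a) (c b) ∧ G.Adj w (c a) ∧ ¬ G.Adj w (c b) := by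
  rcases h with ⟨rfl, h1, h2, h3⟩ | ⟨rfl, h1, h2, h3, h4, h5, h6, h7⟩ | ⟨rfl, h1, h2, h3, h4, h5, h6⟩
  · by_cases h : G.Adj w (c 1)
    · exact ⟨1, 2, by omega, by omega, h1, h, h2.1 h⟩
    · exact ⟨2, 1, by omega, by omega, h1.symm, by tauto, h⟩
  · by_cases h : G.Adj w (c 1)
    · exact ⟨1, 2, by omega, by omega, h1, h, h4.1 h⟩
    · exact ⟨2, 1, by omega, by omega, h1.symm, by tauto, h⟩
  · exact ⟨1, 2, by omega, by omega, h1, h3, h4⟩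

theorem CfK.edu {m : ℕ} {c : ℕ → V} {w u : V} (h : CfK G m c w u) :
    ∃ a b, (1 ≤ a ∧ a ≤ m) ∧ (1 ≤ b ∧ b ≤ m) ∧ G.Adj (c a) (c b) ∧ G.Adj u (c a) ∧ ¬ G.Adj u (c b) := by
  rcases h with ⟨rfl, h1, h2, h3⟩ | ⟨rfl, h1, h2, h3, h4, h5, h6, h7⟩ | ⟨rfl, h1, h2, h3, h4, h5, h6⟩
  · by_cases h : G.Adj u (c 1)
    · exact ⟨1, 2, by omega, by omega, h1, h, h3.1 h⟩
    · exact ⟨2, 1, by omega, by omega, h1.symm, by tauto, h⟩
  · by_cases h : G.Adj u (c 2)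
    · exact ⟨2, 3, by omega, by omega, h2, h, h7.1 h⟩
    · exact ⟨3, 2, by omega, by omega, h2.symm, by tauto, h⟩
  · exact ⟨3, 4, by omega, by omega, h2, h5, h6⟩

theorem MK.comp {n N k : ℕ} {v : ℕ → V} {K : ℕ → Set V} {w : V} {h : Bool} {s : ℕ → ℕ}
    (hs : ∀ k l, k < l → l < N → s k < s l) (hn : ∀ k < N, s k < n) (hk : k < N)
    (h1 : MK G n v K h (s k) w) : MK G N (fun j => v (s j)) (fun j => K (s j)) h k w :=
  ⟨h1.1, h1.2.1.comp hs hn hk, h1.2.2⟩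

/-- **Homogeneous rails for two mixers** (and an outer vertex if `e = 1`) of every cell, with all known bits. -/
theorem pairM (T : Tabs) (M e : ℕ) (he : e ≤ 1) (hM : 16 ≤ M) (hw hu : Bool) : ∃ N : ℕ, ∀ (V : Type)
    (G : SimpleGraph V) (v : ℕ → V) (K : ℕ → Set V) (w u z : ℕ → V), H1T.FH G → H1T.FJ 2 G → CS G N v K →
    (∀ k < N, MK G N v K hw k (w k) ∧ MK G N v K hu k (u k) ∧ w k ≠ u k) →
    (1 ≤ e → (∀ k < N, z k ∉ XK G (K k) ∧ z k ≠ v k) ∧ ∀ k < N, ∀ l < N, k ≠ l → z k ≠ z l) →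
    ∃ (m : ℕ) (s : ℕ → ℕ) (x : ℕ → ℕ → V) (F : ℕ → Bool), (2 ≤ m ∧ m ≤ 4) ∧
      ((∀ k l, k < l → l < M → s k < s l) ∧ ∀ k < M, s k < N) ∧
      CS G M (fun k => v (s k)) (fun k => K (s k)) ∧
      RE G M (fun k => v (s k)) (fun k => K (s k)) m (m + 3 + e) x F ∧ (Kr F m ∧ Cf m F) ∧
      (Mr F m (m + 1) hw ∧ Mr F m (m + 2) hu ∧ (hw = hu → Wu F (m + 1) (m + 2))) ∧
      (∀ k < M, CfK G m (fun i => x i k) (x (m + 1) k) (x (m + 2) k)) ∧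
      (∀ k < M, x (m + 1) k = w (s k) ∧ x (m + 2) k = u (s k)) ∧ ∀ k < M, x (m + 3) k = z (s k) := by
  obtain ⟨N, hN⟩ := pairR M e he (by omega)
  refine ⟨N, fun V G v K w u z hH hJ hC hwu hz => ?_⟩
  obtain ⟨m, s, x, F, m2, m4, s1, s2, hr, hcf, hck, hx, hxz⟩ := hN V G v K w u z hC
    (fun k hk => ⟨(hwu k hk).1.1, (hwu k hk).2.1.1, (hwu k hk).2.2⟩) hz
  have hC' : CS G M (fun k => v (s k)) (fun k => K (s k)) := hC.comp s1 s2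
  have kw : ∀ k < M, Kd G M (fun j => K (s j)) k (x (m + 1) k) true hw := fun k hk => by
    rw [(hx k hk).1]
    exact (hwu _ (s2 k hk)).1.2.1.comp s1 s2 hk
  have ku : ∀ k < M, Kd G M (fun j => K (s j)) k (x (m + 2) k) true hu := fun k hk => by
    rw [(hx k hk).2]
    exact (hwu _ (s2 k hk)).2.1.2.1.comp s1 s2 hk
  obtain ⟨a, b, ha, hb, e1, e2, e3⟩ := (hck 0 (by omega)).edw
  obtain ⟨a', b', ha', hb', e1', e2', e3'⟩ := (hck 0 (by omega)).edu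
  have mw := hr.mr hC' hM hH hJ T.t1b (r := m + 1) (by omega) (by omega) kw ha.1 ha.2 hb.1 hb.2 e1 e2 e3
  have mu := hr.mr hC' hM hH hJ T.t1b (r := m + 2) (by omega) (by omega) ku ha'.1 ha'.2 hb'.1 hb'.2 e1' e2' e3'
  refine ⟨m, s, x, F, ⟨m2, m4⟩, ⟨s1, s2⟩, hC', hr, ⟨hr.kr hC' (by omega), hcf⟩, ⟨mw, mu, fun h => ?_⟩, hck, hx,
    hxz⟩
  subst h
  exact T.t3 V G x F m hw ⟨hH, hJ, hr.hr.mono (by omega) hM⟩ (hr.kr hC' (by omega)) hcf mw mu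

end Pool.Agent.MPd439b2.RN
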