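import Pool.Agent.Lib.MP_d439b2_co.RN.MxC

/-!
# MP_d439b2_co, RN/MxP: homogeneous rails for two mixers of every cell (helper90)
-/

set_option autoImplicit false

namespace Pool.Agent.MPd439b2.RN

open Pool.Agent.MPd439b2 Pool.Agent.MPd439b2.Rep Pool.Agent.MPd439b2.FT

/-- the rails `v, c 1, .., c m, w, u, z` -/
def tp {V : Type} (m : ℕ) (v : ℕ → V) (c : ℕ → ℕ → V) (w u z : ℕ → V) (i k : ℕ) : V :=
  if i = 0 then v k else if i ≤ m then c i k else if i = m + 1 then w k else if i = m + 2 then u k else z k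

theorem tp_0 {V : Type} (m : ℕ) (v : ℕ → V) (c : ℕ → ℕ → V) (w u z : ℕ → V) (k : ℕ) : tp m v c w u z 0 k = v k :=
  if_pos rfl

theorem tp_c {V : Type} {m : ℕ} (v : ℕ → V) (c : ℕ → ℕ → V) (w u z : ℕ → V) {i : ℕ} (hi : 1 ≤ i) (hi' : i ≤ m)
    (k : ℕ) : tp m v c w u z i k = c i k := by
  unfold tp
  rw [if_neg (by omega), if_pos hi']

theorem tp_w {V : Type} (m : ℕ) (v : ℕ → V) (c : ℕ → ℕ → V) (w u z : ℕ → V) (k : ℕ) :
    tp m v c w u z (m + 1) k = w k := by
  unfold tp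
  rw [if_neg (by omega), if_neg (by omega), if_pos rfl]

theorem tp_u {V : Type} (m : ℕ) (v : ℕ → V) (c : ℕ → ℕ → V) (w u z : ℕ → V) (k : ℕ) :
    tp m v c w u z (m + 2) k = u k := by
  unfold tp
  rw [if_neg (by omega), if_neg (by omega), if_neg (by omega), if_pos rfl]

theorem tp_z {V : Type} (m : ℕ) (v : ℕ → V) (c : ℕ → ℕ → V) (w u z : ℕ → V) (k : ℕ) :
    tp m v c w u z (m + 3) k = z k := by
  unfold tp
  rw [if_neg (by omega), if_neg (by omega), if_neg (by omega), if_neg (by omega)]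

/-- the rails are injective and different on every index -/
theorem tp_dis {V : Type} {G : SimpleGraph V} {n m N : ℕ} {v : ℕ → V} {K : ℕ → Set V} (hC : CS G n v K) {s : ℕ → ℕ}
    (hs : ∀ k l, k < l → l < N → s k < s l) (hn : ∀ k < N, s k < n) {c : ℕ → ℕ → V} {w u z : ℕ → V} {e : ℕ}
    (he : e ≤ 1) (hc : ∀ k < N, InK (K (s k)) m (fun i => c i k))
    (hw : ∀ k < N, w k ∈ Mx G (K (s k)) ∧ u k ∈ Mx G (K (s k)) ∧ w k ≠ u k)
    (hz : 1 ≤ e → (∀ k < N, z k ∉ XK G (K (s k)) ∧ z k ≠ v (s k)) ∧ ∀ k < N, ∀ l < N, k ≠ l → z k ≠ z l) :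
    (∀ i < m + 3 + e, ∀ k < N, ∀ l < N, k ≠ l → tp m (fun k => v (s k)) c w u z i k ≠
      tp m (fun k => v (s k)) c w u z i l) ∧
    ∀ i < m + 3 + e, ∀ j < m + 3 + e, i ≠ j → ∀ k < N, tp m (fun k => v (s k)) c w u z i k ≠
      tp m (fun k => v (s k)) c w u z j k := by
  have hsn : ∀ k < N, ∀ l < N, k ≠ l → s k ≠ s l := fun k hk l hl hkl => by
    rcases lt_or_gt_of_ne hkl with h | h
    · exact (hs k l h hl).ne
    · exact (hs l k h hk).ne'
  constructor
  · intro i hi k hk l hl hkl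
    rcases Nat.eq_zero_or_pos i with rfl | h0
    · rw [tp_0, tp_0]
      exact (hC.vv _ (hn k hk) _ (hn l hl) (hsn k hk l hl hkl)).1
    rcases Nat.lt_or_ge m i with h1 | h1
    · have h2 : i = m + 1 ∨ i = m + 2 ∨ (i = m + 3 ∧ 1 ≤ e) := by omega
      rcases h2 with rfl | rfl | ⟨rfl, h2⟩
      · rw [tp_w, tp_w]
        exact fun h' => hC.mx_mx (hn k hk) (hn l hl) (hsn k hk l hl hkl) (hw k hk).1 (h' ▸ (hw l hl).1)
      · rw [tp_u, tp_u]
        exact fun h' => hC.mx_mx (hn k hk) (hn l hl) (hsn k hk l hl hkl) (hw k hk).2.1 (h' ▸ (hw l hl).2.1)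
      · rw [tp_z, tp_z]
        exact (hz h2).2 k hk l hl hkl
    · rw [tp_c _ _ _ _ _ h0 h1, tp_c _ _ _ _ _ h0 h1]
      exact fun h' => Set.disjoint_left.1 (hC.dis _ (hn k hk) _ (hn l hl) (hsn k hk l hl hkl)).1
        ((hc k hk).1 i h0 h1) (by
          have := (hc l hl).1 i h0 h1
          dsimp only at this
          rw [← h'] at this
          exact this)
  · -- different on the same index
    have key : ∀ i j, i < j → j < m + 3 + e → ∀ k < N, tp m (fun k => v (s k)) c w u z i k ≠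
        tp m (fun k => v (s k)) c w u z j k := by
      intro i j hij hj k hk
      have vmx := hC.v_mx (hn k hk) (hn k hk)
      have vK := hC.vK _ (hn k hk) _ (hn k hk)
      obtain ⟨w1, w2, w3⟩ := hw k hk
      have hzz : 1 ≤ e → z k ∉ K (s k) ∧ z k ∉ Mx G (K (s k)) ∧ z k ≠ v (s k) := fun h => by
        have := (hz h).1 k hk
        exact ⟨fun h' => this.1 (Or.inl h'), fun h' => this.1 (Or.inr h'), this.2⟩
      rcases Nat.eq_zero_or_pos i with rfl | h0
      · rw [tp_0]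
        rcases Nat.lt_or_ge m j with h1 | h1
        · have h2 : j = m + 1 ∨ j = m + 2 ∨ (j = m + 3 ∧ 1 ≤ e) := by omega
          rcases h2 with rfl | rfl | ⟨rfl, h2⟩
          · rw [tp_w]
            exact fun h' => vmx (h' ▸ w1)
          · rw [tp_u]
            exact fun h' => vmx (h' ▸ w2)
          · rw [tp_z]
            exact (hzz h2).2.2.symm
        · rw [tp_c _ _ _ _ _ (by omega) h1]
          exact fun h' => vK (by
            have := (hc k hk).1 j (by omega) h1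
            dsimp only at this
            rw [← h'] at this
            exact this)
      rcases Nat.lt_or_ge m i with h1 | h1
      · have h2 : (i = m + 1 ∧ j = m + 2) ∨ (i = m + 1 ∧ j = m + 3 ∧ 1 ≤ e) ∨ (i = m + 2 ∧ j = m + 3 ∧ 1 ≤ e) := by
          omega
        rcases h2 with ⟨rfl, rfl⟩ | ⟨rfl, rfl, h2⟩ | ⟨rfl, rfl, h2⟩
        · rw [tp_w, tp_u]
          exact w3
        · rw [tp_w, tp_z]
          exact fun h' => (hzz h2).2.1 (h' ▸ w1)
        · rw [tp_u, tp_z]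
          exact fun h' => (hzz h2).2.1 (h' ▸ w2)
      · rw [tp_c _ _ _ _ _ h0 h1]
        have ciK := (hc k hk).1 i h0 h1
        dsimp only at ciK
        rcases Nat.lt_or_ge m j with h3 | h3
        · have h2 : j = m + 1 ∨ j = m + 2 ∨ (j = m + 3 ∧ 1 ≤ e) := by omega
          rcases h2 with rfl | rfl | ⟨rfl, h2⟩
          · rw [tp_w]
            exact fun h' => w1.1 (h' ▸ ciK)
          · rw [tp_u]
            exact fun h' => w2.1 (h' ▸ ciK)
          · rw [tp_z]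
            exact fun h' => (hzz h2).1 (h' ▸ ciK)
        · rw [tp_c _ _ _ _ _ (by omega) h3]
          exact (hc k hk).2 i j h0 h1 (by omega) h3 (by omega)
    intro i hi j hj hij k hk
    rcases lt_or_gt_of_ne hij with h | h
    · exact key i j h hj k hk
    · exact (key j i h hi k hk).symm

/-- the bits of a configuration -/
theorem cf_of {V : Type} {G : SimpleGraph V} {m L M : ℕ} {x : ℕ → ℕ → V} {F : ℕ → Bool} (h : HR G L M x F)
    (hL : m + 3 ≤ L) (hM : 0 < M) (hc : CfK G m (fun i => x i 0) (x (m + 1) 0) (x (m + 2) 0)) : Cf m F := by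
  have d : ∀ i j, i < j → j < L → (G.Adj (x i 0) (x j 0) ↔ F (256 + 16 * i + j) = true) :=
    fun i j hij hj => h.dg i (by omega) j hj hij 0 hM
  have dd : ∀ i j, i < j → j < L → (G.Adj (x j 0) (x i 0) ↔ F (256 + 16 * i + j) = true) :=
    fun i j hij hj => (G.adj_comm _ _).trans (d i j hij hj)
  rcases hc with ⟨rfl, h1, h2, h3⟩ | ⟨rfl, h1, h2, h3, h4, h5, h6, h7⟩ | ⟨rfl, h1, h2, h3, h4, h5, h6⟩
  · left
    dsimp only at h1 h2 h3
    rw [d 1 2 (by omega) (by omega)] at h1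
    rw [dd 1 3 (by omega) (by omega), dd 2 3 (by omega) (by omega)] at h2
    rw [dd 1 4 (by omega) (by omega), dd 2 4 (by omega) (by omega)] at h3
    refine ⟨rfl, h1, fun h' => ?_, fun h' => ?_⟩
    · rw [show 256 + 16 * 1 + 3 = 256 + 16 + 3 from rfl, show 256 + 16 * 2 + 3 = 256 + 32 + 3 from rfl, h'] at h2
      tauto
    · rw [show 256 + 16 * 1 + 4 = 256 + 16 + 4 from rfl, show 256 + 16 * 2 + 4 = 256 + 32 + 4 from rfl, h'] at h3
      tauto
  · right; left
    dsimp only at h1 h2 h3 h4 h5 h6 h7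
    rw [d 1 2 (by omega) (by omega)] at h1
    rw [d 2 3 (by omega) (by omega)] at h2
    rw [d 1 3 (by omega) (by omega)] at h3
    rw [dd 1 4 (by omega) (by omega), dd 2 4 (by omega) (by omega)] at h4
    rw [dd 2 4 (by omega) (by omega), dd 3 4 (by omega) (by omega)] at h5
    rw [dd 1 5 (by omega) (by omega), dd 2 5 (by omega) (by omega)] at h6
    rw [dd 2 5 (by omega) (by omega), dd 3 5 (by omega) (by omega)] at h7
    refine ⟨rfl, h1, h2, Bool.not_eq_true _ ▸ h3, ⟨fun h' => ?_, Bool.eq_iff_iff.2 h5⟩, Bool.eq_iff_iff.2 h6,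
      fun h' => ?_⟩
    · rw [show 256 + 16 * 1 + 4 = 256 + 16 + 4 from rfl, show 256 + 16 * 2 + 4 = 256 + 32 + 4 from rfl, h'] at h4
      tauto
    · rw [show 256 + 16 * 2 + 5 = 256 + 32 + 5 from rfl, show 256 + 16 * 3 + 5 = 256 + 48 + 5 from rfl, h'] at h7
      tauto
  · right; right
    dsimp only at h1 h2 h3 h4 h5 h6
    rw [d 1 2 (by omega) (by omega)] at h1
    rw [d 3 4 (by omega) (by omega)] at h2
    rw [dd 1 5 (by omega) (by omega)] at h3
    rw [dd 2 5 (by omega) (by omega)] at h4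
    rw [dd 3 6 (by omega) (by omega)] at h5
    rw [dd 4 6 (by omega) (by omega)] at h6
    exact ⟨rfl, h1, h2, ⟨h3, Bool.not_eq_true _ ▸ h4⟩, h5, Bool.not_eq_true _ ▸ h6⟩

/-- **Homogeneous rails for two mixers** (and an outer vertex if `e = 1`) of every cell. -/
theorem pairR (M e : ℕ) (he : e ≤ 1) (hM : 0 < M) : ∃ N : ℕ, ∀ (V : Type) (G : SimpleGraph V) (v : ℕ → V)
    (K : ℕ → Set V) (w u z : ℕ → V), CS G N v K →
    (∀ k < N, w k ∈ Mx G (K k) ∧ u k ∈ Mx G (K k) ∧ w k ≠ u k) →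
    (1 ≤ e → (∀ k < N, z k ∉ XK G (K k) ∧ z k ≠ v k) ∧ ∀ k < N, ∀ l < N, k ≠ l → z k ≠ z l) →
    ∃ (m : ℕ) (s : ℕ → ℕ) (x : ℕ → ℕ → V) (F : ℕ → Bool), 2 ≤ m ∧ m ≤ 4 ∧
      (∀ k l, k < l → l < M → s k < s l) ∧ (∀ k < M, s k < N) ∧
      RE G M (fun k => v (s k)) (fun k => K (s k)) m (m + 3 + e) x F ∧ Cf m F ∧
      (∀ k < M, CfK G m (fun i => x i k) (x (m + 1) k) (x (m + 2) k)) ∧
      (∀ k < M, x (m + 1) k = w (s k) ∧ x (m + 2) k = u (s k)) ∧ ∀ k < M, x (m + 3) k = z (s k) := by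
  classical
  obtain ⟨N2, h2⟩ := hr_exists (2 + 3 + e) M (by omega)
  obtain ⟨N3, h3⟩ := hr_exists (3 + 3 + e) M (by omega)
  obtain ⟨N4, h4⟩ := hr_exists (4 + 3 + e) M (by omega)
  obtain ⟨N, hN⟩ := pig (Fin 5) (N2 + N3 + N4)
  refine ⟨N, fun V G v K w u z hC hw hz => ?_⟩
  have hch : ∀ k, ∃ (m : ℕ) (c : ℕ → V), k < N → 2 ≤ m ∧ m ≤ 4 ∧ InK (K k) m c ∧ CfK G m c (w k) (u k) := by
    intro k
    by_cases hk : k < N
    · obtain ⟨m, c, h⟩ := conf (hC.con k hk) (hw k hk).1 (hw k hk).2.1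
      exact ⟨m, c, fun _ => h⟩
    · exact ⟨0, fun _ => v 0, fun h => absurd h hk⟩
  choose m c hmc using hch
  obtain ⟨s₁, mc, q1, q2, q3⟩ := hN fun k => Fin.ofNat 5 (m k)
  have hmono : ∀ (N' : ℕ), N' ≤ N2 + N3 + N4 → ∀ (hex : ∀ (V : Type) (G : SimpleGraph V) (t : ℕ → ℕ → V),
      (∀ i < mc.val + 3 + e, ∀ k < N', ∀ l < N', k ≠ l → t i k ≠ t i l) →
      (∀ i < mc.val + 3 + e, ∀ j < mc.val + 3 + e, i ≠ j → ∀ k < N', t i k ≠ t j k) →
      ∃ (s : ℕ → ℕ) (F : ℕ → Bool), (∀ k l, k < l → l < M → s k < s l) ∧ (∀ k < M, s k < N') ∧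
        HR G (mc.val + 3 + e) M (fun i k => t i (s k)) F), 2 ≤ mc.val → mc.val ≤ 4 →
      (∀ k < N', m (s₁ k) = mc.val) →
      ∃ (m : ℕ) (s : ℕ → ℕ) (x : ℕ → ℕ → V) (F : ℕ → Bool), 2 ≤ m ∧ m ≤ 4 ∧
      (∀ k l, k < l → l < M → s k < s l) ∧ (∀ k < M, s k < N) ∧
      RE G M (fun k => v (s k)) (fun k => K (s k)) m (m + 3 + e) x F ∧ Cf m F ∧
      (∀ k < M, CfK G m (fun i => x i k) (x (m + 1) k) (x (m + 2) k)) ∧
      (∀ k < M, x (m + 1) k = w (s k) ∧ x (m + 2) k = u (s k)) ∧ ∀ k < M, x (m + 3) k = z (s k) := by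
    intro N' hN' hex hm2 hm4 hmk
    have hin : ∀ k < N', InK (K (s₁ k)) mc.val (c (s₁ k)) ∧ CfK G mc.val (c (s₁ k)) (w (s₁ k)) (u (s₁ k)) := by
      intro k hk
      have h5 := hmc (s₁ k) (q2 k (by omega))
      rw [hmk k hk] at h5
      exact ⟨h5.2.2.1, h5.2.2.2⟩
    obtain ⟨d1, d2⟩ := tp_dis (m := mc.val) (e := e) (N := N') hC (s := s₁) (fun k l hkl hl => q1 k l hkl (by omega))
      (fun k hk => q2 k (by omega)) (c := fun i k => c (s₁ k) i) (w := fun k => w (s₁ k)) (u := fun k => u (s₁ k))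
      (z := fun k => z (s₁ k)) he (fun k hk => (hin k hk).1) (fun k hk => hw _ (q2 k (by omega)))
      (fun h1 => ⟨fun k hk => (hz h1).1 _ (q2 k (by omega)), fun k hk l hl hkl => (hz h1).2 _ (q2 k (by omega)) _
        (q2 l (by omega)) fun h' => by
          rcases lt_or_gt_of_ne hkl with h | h
          · exact absurd (q1 k l h (by omega)) (by omega)
          · exact absurd (q1 l k h (by omega)) (by omega)⟩)
    obtain ⟨s₂, F, r1, r2, r3⟩ := hex V G _ d1 d2
    have hcf : ∀ k < M, CfK G mc.val (fun i => tp mc.val (fun k => v (s₁ k)) (fun i k => c (s₁ k) i)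
        (fun k => w (s₁ k)) (fun k => u (s₁ k)) (fun k => z (s₁ k)) i (s₂ k))
        (tp mc.val (fun k => v (s₁ k)) (fun i k => c (s₁ k) i)
          (fun k => w (s₁ k)) (fun k => u (s₁ k)) (fun k => z (s₁ k)) (mc.val + 1) (s₂ k))
        (tp mc.val (fun k => v (s₁ k)) (fun i k => c (s₁ k) i)
          (fun k => w (s₁ k)) (fun k => u (s₁ k)) (fun k => z (s₁ k)) (mc.val + 2) (s₂ k)) := by
      intro k hk
      rw [tp_w, tp_u]
      have h6 := (hin (s₂ k) (r2 k hk)).2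
      have e : ∀ i, 1 ≤ i → i ≤ mc.val → tp mc.val (fun k => v (s₁ k)) (fun i k => c (s₁ k) i)
          (fun k => w (s₁ k)) (fun k => u (s₁ k)) (fun k => z (s₁ k)) i (s₂ k) = c (s₁ (s₂ k)) i :=
        fun i h1 h2 => tp_c _ _ _ _ _ h1 h2 _
      unfold CfK at h6 ⊢
      rcases h6 with h6 | h6 | h6
      · left
        dsimp only
        rw [e 1 (by omega) (by omega), e 2 (by omega) (by omega)]
        exact h6
      · right; left
        dsimp only
        rw [e 1 (by omega) (by omega), e 2 (by omega) (by omega), e 3 (by omega) (by omega)]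
        exact h6
      · right; right
        dsimp only
        rw [e 1 (by omega) (by omega), e 2 (by omega) (by omega), e 3 (by omega) (by omega),
          e 4 (by omega) (by omega)]
        exact h6
    refine ⟨mc.val, fun k => s₁ (s₂ k), _, F, hm2, hm4, fun k l hkl hl => ?_, fun k hk => ?_, ⟨r3, by omega, by omega,
      fun k hk => tp_0 _ _ _ _ _ _ _, fun a ha ha' k hk => ?_⟩, cf_of r3 (by omega) hM (hcf 0 hM), hcf, fun k hk =>
      ⟨tp_w _ _ _ _ _ _ _, tp_u _ _ _ _ _ _ _⟩, fun k hk => tp_z _ _ _ _ _ _ _⟩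
    · have := r1 k l hkl hl
      exact q1 _ _ this (by have := r2 l hl; omega)
    · exact q2 _ (by have := r2 k hk; omega)
    · rw [tp_c _ _ _ _ _ ha ha']
      exact (hin _ (r2 k hk)).1.1 a ha ha'
  have hmk : ∀ k < N2 + N3 + N4, m (s₁ k) = mc.val := by
    intro k hk
    have h5 := q3 k hk
    have h6 := hmc (s₁ k) (q2 k hk)
    rw [← h5]
    exact (Nat.mod_eq_of_lt (by omega)).symm
  by_cases hz0 : N2 + N3 + N4 = 0
  · obtain ⟨s, F, r1, r2, _⟩ := h2 V G (fun _ _ => v 0) (fun i _ k hk => absurd hk (by omega))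
      (fun i _ j _ _ k hk => absurd hk (by omega))
    exact absurd (r2 0 hM) (by omega)
  · have h5 := hmc (s₁ 0) (q2 0 (by omega))
    rw [hmk 0 (by omega)] at h5
    have h6 : mc.val = 2 ∨ mc.val = 3 ∨ mc.val = 4 := by omega
    rcases h6 with h6 | h6 | h6
    · exact hmono N2 (by omega) (by rw [h6]; exact h2) (by omega) (by omega) fun k hk => hmk k (by omega)
    · exact hmono N3 (by omega) (by rw [h6]; exact h3) (by omega) (by omega) fun k hk => hmk k (by omega)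
    · exact hmono N4 (by omega) (by rw [h6]; exact h4) (by omega) (by omega) fun k hk => hmk k (by omega)

end Pool.Agent.MPd439b2.RN
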