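import Pool.Agent.Lib.MP_d439b2_co.RN.MxP

/-!
# MP_d439b2_co, RN/MxS: Block 2: the sequence lemmas, statements (helper90)

In all of them the data is given for every cell of a long system of cells.
-/

set_option autoImplicit false

namespace Pool.Agent.MPd439b2.RN

open Pool.Agent.MPd439b2 Pool.Agent.MPd439b2.Rep Pool.Agent.MPd439b2.FT

/-- the mixer `w` of the cell `K k` is complete to the later cells, complete (`h = true`) or anticomplete (`h = false`)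
to the earlier ones, and adjacent to `v k` -/
def MK {V : Type} (G : SimpleGraph V) (n : ℕ) (v : ℕ → V) (K : ℕ → Set V) (h : Bool) (k : ℕ) (w : V) : Prop :=
  w ∈ Mx G (K k) ∧ Kd G n K k w true h ∧ G.Adj (v k) w

/-- no mixers which miss `v k` -/
def S_L0 : Prop := ∀ h : Bool, ∃ N : ℕ, ∀ (V : Type) (G : SimpleGraph V) (v : ℕ → V) (K : ℕ → Set V) (w : ℕ → V),
  H1T.FH G → H1T.FJ 2 G → CS G N v K →
    (∀ k < N, w k ∈ Mx G (K k) ∧ Kd G N K k (w k) true h ∧ ¬ G.Adj (v k) (w k)) → False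

/-- no mixers which are complete to the earlier and anticomplete to the later cells -/
def S_L1 : Prop := ∃ N : ℕ, ∀ (V : Type) (G : SimpleGraph V) (v : ℕ → V) (K : ℕ → Set V) (w : ℕ → V),
  H1T.FH G → H1T.FJ 2 G → CS G N v K → (∀ k < N, w k ∈ Mx G (K k) ∧ Kd G N K k (w k) false true) → False

/-- no thick and half mixers on one cell -/
def S_L2 : Prop := ∃ N : ℕ, ∀ (V : Type) (G : SimpleGraph V) (v : ℕ → V) (K : ℕ → Set V) (w u : ℕ → V),
  H1T.FH G → H1T.FJ 2 G → CS G N v K →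
    (∀ k < N, MK G N v K true k (w k) ∧ MK G N v K false k (u k) ∧ w k ≠ u k) → False

/-- mixers of the same kind are adjacent -/
def S_L3 : Prop := ∀ h : Bool, ∃ N : ℕ, ∀ (V : Type) (G : SimpleGraph V) (v : ℕ → V) (K : ℕ → Set V)
  (w u : ℕ → V), H1T.FH G → H1T.FJ 2 G → CS G N v K →
    (∀ k < N, MK G N v K h k (w k) ∧ MK G N v K h k (u k) ∧ w k ≠ u k ∧ ¬ G.Adj (w k) (u k)) → False

/-- the vertex `z` is outside `X(K)` and distinguishes `w` and `u` -/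
def Ds {V : Type} (G : SimpleGraph V) (K : Set V) (w u z : V) : Prop :=
  z ∉ XK G K ∧ ¬ (G.Adj w z ↔ G.Adj u z)

/-- thick mixers are not distinguished by two vertices -/
def S_L4 : Prop := ∃ N : ℕ, ∀ (V : Type) (G : SimpleGraph V) (v : ℕ → V) (K : ℕ → Set V) (w u z z' : ℕ → V),
  H1T.FH G → H1T.FJ 2 G → CS G N v K →
    (∀ k < N, MK G N v K true k (w k) ∧ MK G N v K true k (u k) ∧ w k ≠ u k ∧ z k ≠ z' k ∧
      Ds G (K k) (w k) (u k) (z k) ∧ Ds G (K k) (w k) (u k) (z' k)) → False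

/-- three half mixers with three rows give a rich cell -/
def S_L5 : Prop := ∀ b : ℕ, ∃ N : ℕ, ∀ (V : Type) (G : SimpleGraph V) (v : ℕ → V) (K : ℕ → Set V)
  (w : ℕ → ℕ → V) (z₁ z₂ : ℕ → V), H1T.FH G → H1T.FJ 2 G → CS G N v K →
    (∀ k < N, (∀ i < 3, MK G N v K false k (w i k)) ∧
      (∀ i < 3, ∀ j < 3, i ≠ j → w i k ≠ w j k ∧ G.Adj (w i k) (w j k) ∧
        ¬ ((G.Adj (w i k) (z₁ k) ↔ G.Adj (w j k) (z₁ k)) ∧ (G.Adj (w i k) (z₂ k) ↔ G.Adj (w j k) (z₂ k)))) ∧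
      z₁ k ∉ XK G (K k) ∧ z₂ k ∉ XK G (K k)) → ∃ k, b < k ∧ k + b < N ∧ Rich G N v K b k

end Pool.Agent.MPd439b2.RN
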