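import Pool.Agent.Lib.MP_d439b2_co.RN.Defs
import Pool.Agent.Lib.MP_d439b2_co.FT.Eng

/-!
# MP_d439b2_co, RN/MxT: the tables of Block 2 (mixers), statements (helper90)

Homogeneous rails as in `FT.HR`: rail `0` = the clique `v`, rails `1, .., m` = vertices of the cells `K k`, then mixers,
then outer vertices.  `Kr F m`: the known bits of the rails `0, .., m`; `Mr F m r h`: the rail `r` is a mixer (clique,
complete to `v`), complete to the later cells, complete (`h = true`, thick) or anticomplete (`h = false`, half) to the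
earlier cells; `Zr F m r p q e`: the rail `r` is constant on the cells: `p` = to later cells, `q` = to earlier cells,
`e` = to the own cell.  `Cf m F`: the three configurations of two mixers `m + 1`, `m + 2` on the own cell:
`m = 2`: an edge `1 2` on which both are mixed; `m = 3`: an induced path `1 2 3`, the first one is mixed on `1 2` only,
the second one on `2 3` only; `m = 4`: two disjoint edges `1 2`, `3 4`, the first mixer sees `1`, misses `2`, the
second one sees `3`, misses `4`, everything else is free.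
-/

set_option autoImplicit false

namespace Pool.Agent.MPd439b2.RN

open Pool.Agent.MPd439b2 Pool.Agent.MPd439b2.Rep Pool.Agent.MPd439b2.FT

/-- the rails `0` (`v`) and `1, .., m` (cell vertices) -/
def Kr (F : ℕ → Bool) (m : ℕ) : Prop := F 0 = true ∧ ∀ a, 1 ≤ a → a ≤ m →
  F a = true ∧ F (16 * a) = false ∧ F (256 + a) = false ∧ ∀ b, 1 ≤ b → b ≤ m → F (16 * a + b) = false

/-- the rail `r` is a mixer -/
def Mr (F : ℕ → Bool) (m r : ℕ) (h : Bool) : Prop := F (17 * r) = true ∧ F r = true ∧ F (16 * r) = true ∧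
  F (256 + r) = true ∧ ∀ a, 1 ≤ a → a ≤ m → F (16 * r + a) = true ∧ F (16 * a + r) = h

/-- the rail `r` is constant on the cells -/
def Zr (F : ℕ → Bool) (m r : ℕ) (p q e : Bool) : Prop := ∀ a, 1 ≤ a → a ≤ m →
  F (16 * r + a) = p ∧ F (16 * a + r) = q ∧ F (256 + 16 * a + r) = e

/-- the rails `w` and `u` are complete to each other -/
def Wu (F : ℕ → Bool) (w u : ℕ) : Prop :=
  F (16 * w + u) = true ∧ F (16 * u + w) = true ∧ F (256 + 16 * w + u) = true

/-- an edge of the cell on which both mixers are mixed -/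
def CfE (F : ℕ → Bool) : Prop := F 274 = true ∧ F (256 + 16 + 3) ≠ F (256 + 32 + 3) ∧
  F (256 + 16 + 4) ≠ F (256 + 32 + 4)

/-- an induced path of the cell -/
def CfP (F : ℕ → Bool) : Prop := F 274 = true ∧ F 291 = true ∧ F 275 = false ∧
  (F (256 + 16 + 4) ≠ F (256 + 32 + 4) ∧ F (256 + 32 + 4) = F (256 + 48 + 4)) ∧
  F (256 + 16 + 5) = F (256 + 32 + 5) ∧ F (256 + 32 + 5) ≠ F (256 + 48 + 5)

/-- two disjoint edges of the cell -/
def CfD (F : ℕ → Bool) : Prop := F 274 = true ∧ F 308 = true ∧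
  (F (256 + 16 + 5) = true ∧ F (256 + 32 + 5) = false) ∧ F (256 + 48 + 6) = true ∧ F (256 + 64 + 6) = false

/-- the three configurations; the mixers are the rails `m + 1` and `m + 2` -/
def Cf (m : ℕ) (F : ℕ → Bool) : Prop := (m = 2 ∧ CfE F) ∨ (m = 3 ∧ CfP F) ∨ (m = 4 ∧ CfD F)

/-- the vertex `z` is not in the rails and is adjacent to the rail `i` iff `c i` -/
structure Fx {V : Type} (G : SimpleGraph V) (L M : ℕ) (x : ℕ → ℕ → V) (z : V) (c : ℕ → Bool) : Prop where
  ne : ∀ i < L, ∀ k < M, z ≠ x i k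
  ad : ∀ i < L, ∀ k < M, (G.Adj z (x i k) ↔ c i = true)

/-- `G` is in the class, the rails are homogeneous -/
def HG {V : Type} (G : SimpleGraph V) (L : ℕ) (x : ℕ → ℕ → V) (F : ℕ → Bool) : Prop :=
  H1T.FH G ∧ H1T.FJ 2 G ∧ HR G L 16 x F

/-- **T1a**: no mixer is complete to the earlier cells and anticomplete to the later ones (rails `v, x, y, w`) -/
def S_T1a : Prop := ∀ (V : Type) (G : SimpleGraph V) (x : ℕ → ℕ → V) (F : ℕ → Bool), HG G 4 x F → Kr F 2 →
  F 274 = true → F (256 + 16 + 3) = true → F (256 + 32 + 3) = false → F 49 = false → F 50 = false →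
    F 19 = true → F 35 = true → False

/-- **T1b**: a mixer which is complete to the later cells is a clique rail complete to `v` -/
def S_T1b : Prop := ∀ (V : Type) (G : SimpleGraph V) (x : ℕ → ℕ → V) (F : ℕ → Bool), HG G 4 x F → Kr F 2 →
  F 274 = true → F (256 + 16 + 3) = true → F (256 + 32 + 3) = false → F 49 = true → F 50 = true →
    F 19 = F 35 → F 51 = true ∧ F 3 = true ∧ F 48 = true ∧ F 259 = true

/-- **T2**: no thick and half mixer on one cell -/
def S_T2 : Prop := ∀ (V : Type) (G : SimpleGraph V) (x : ℕ → ℕ → V) (F : ℕ → Bool) (m : ℕ), HG G (m + 3) x F →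
  Kr F m → Cf m F → Mr F m (m + 1) true → Mr F m (m + 2) false → False

/-- **T3**: mixers of the same kind are complete to each other -/
def S_T3 : Prop := ∀ (V : Type) (G : SimpleGraph V) (x : ℕ → ℕ → V) (F : ℕ → Bool) (m : ℕ) (h : Bool),
  HG G (m + 3) x F → Kr F m → Cf m F → Mr F m (m + 1) h → Mr F m (m + 2) h → Wu F (m + 1) (m + 2)

/-- **T4**: no rail distinguishes thick mixers -/
def S_T4 : Prop := ∀ (V : Type) (G : SimpleGraph V) (x : ℕ → ℕ → V) (F : ℕ → Bool) (m : ℕ) (p q e : Bool),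
  HG G (m + 4) x F → Kr F m → Cf m F → Mr F m (m + 1) true → Mr F m (m + 2) true → Wu F (m + 1) (m + 2) →
  Zr F m (m + 3) p q e → (e = true → p = true ∨ q = true) →
  F (256 + 16 * (m + 1) + (m + 3)) ≠ F (256 + 16 * (m + 2) + (m + 3)) → False

/-- **T5**: half mixers are only distinguished by rails which are anticomplete to all cells and to the later `v` (rails
`v, x, y, w, u, z`) -/
def S_T5 : Prop := ∀ (V : Type) (G : SimpleGraph V) (x : ℕ → ℕ → V) (F : ℕ → Bool) (p q e : Bool), HG G 6 x F →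
  Kr F 2 → F 274 = true → F (256 + 16 + 3) = true → F (256 + 32 + 3) = false → Mr F 2 3 false → Mr F 2 4 false →
  Wu F 3 4 → Zr F 2 5 p q e → (p = true ∨ q = true ∨ (e = false ∧ F 80 = true)) →
  F (256 + 48 + 5) ≠ F (256 + 64 + 5) → False

/-- **T7**: no fixed vertex distinguishes half mixers (rails `v, x, y, w, u`) -/
def S_T7 : Prop := ∀ (V : Type) (G : SimpleGraph V) (x : ℕ → ℕ → V) (F : ℕ → Bool) (z : V) (c : ℕ → Bool),
  HG G 5 x F → Kr F 2 → F 274 = true → F (256 + 16 + 3) = true → F (256 + 32 + 3) = false → Mr F 2 3 false →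
  Mr F 2 4 false → Wu F 3 4 → Fx G 5 16 x z c → c 1 = c 2 → c 3 ≠ c 4 → False

/-- **T8**: no fixed vertex anticomplete to the cells distinguishes thick mixers -/
def S_T8 : Prop := ∀ (V : Type) (G : SimpleGraph V) (x : ℕ → ℕ → V) (F : ℕ → Bool) (m : ℕ) (z : V) (c : ℕ → Bool),
  HG G (m + 3) x F → Kr F m → Cf m F → Mr F m (m + 1) true → Mr F m (m + 2) true → Wu F (m + 1) (m + 2) →
  Fx G (m + 3) 16 x z c → (∀ a, 1 ≤ a → a ≤ m → c a = false) → c (m + 1) ≠ c (m + 2) → False

/-- **T9**: there are no two fixed vertices complete to the cells which distinguish thick mixers -/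
def S_T9 : Prop := ∀ (V : Type) (G : SimpleGraph V) (x : ℕ → ℕ → V) (F : ℕ → Bool) (m : ℕ) (z z' : V)
  (c c' : ℕ → Bool), HG G (m + 3) x F → Kr F m → Cf m F → Mr F m (m + 1) true → Mr F m (m + 2) true →
  Wu F (m + 1) (m + 2) → Fx G (m + 3) 16 x z c → Fx G (m + 3) 16 x z' c' → z ≠ z' →
  (∀ a, 1 ≤ a → a ≤ m → c a = true ∧ c' a = true) → c (m + 1) ≠ c (m + 2) → c' (m + 1) ≠ c' (m + 2) → False

/-- all tables -/
structure Tabs : Prop where
  t1a : S_T1a
  t1b : S_T1b
  t2 : S_T2
  t3 : S_T3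
  t4 : S_T4
  t5 : S_T5
  t7 : S_T7
  t8 : S_T8
  t9 : S_T9

end Pool.Agent.MPd439b2.RN
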