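import Pool.Agent.Lib.MP_d439b2_co.RN.EngU

/-!
# MP_d439b2_co, RN/OneD: the dead context (generated, helper38)
-/

set_option autoImplicit false
set_option linter.unnecessarySeqFocus false
set_option linter.style.longLine false

namespace Pool.Agent.MPd439b2.RN

open Pool.Agent.MPd439b2 Pool.Agent.MPd439b2.H1T Pool.Agent.MPd439b2.H1R

namespace TD

open Tr

def A : List (ℕ × ℕ) := [(1, 0), (2, 0), (3, 0), (5, 0), (3, 1), (5, 1), (5, 4)]

def N : List (ℕ × ℕ) := [(4, 0), (2, 1), (4, 1), (3, 2), (4, 2), (5, 2), (4, 3), (5, 3)]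

def I : List (List (ℕ × ℕ) × List (ℕ × ℕ)) := []

def cs : List Cert := [
  (true, 22969590573522383544582144, 14507386537662564236525568, [[0], [5], [1], [2], [4], [3]])]

def t : Tr := lf 0

theorem ok : ckU 5 6 A N [] I cs t = true := by decide +kernel

end TD

/-- a vertex seen by both mixers and a vertex missed by both -/
theorem tD {V : Type} {G : SimpleGraph V} (hH : FH G) (hJ : FJ 2 G) {w0 w1 z q b : V} {T : Set V} (e1 : Conn G
    T) (e2 : w0 ∉ T) (e3 : w1 ∉ T) (e4 : z ∉ T) (e5 : q ∉ T) (e6 : b ∉ T) (e7 : G.Adj w0 w1) (e8 : G.Adj w0 z)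
    (e9 : G.Adj w0 q) (e10 : ¬ G.Adj w0 b) (e11 : Tch G T {w0}) (e12 : ¬ G.Adj w1 z) (e13 : G.Adj w1 q) (e14 :
    ¬ G.Adj w1 b) (e15 : Tch G T {w1}) (e16 : ¬ G.Adj z q) (e17 : ¬ G.Adj z b) (e18 : ¬ Tch G T {z}) (e19 : ¬
    G.Adj q b) (e20 : ¬ Tch G T {q}) (e21 : Tch G T {b}) : False := by
  refine refuteU hH hJ (fun k => ([w0, w1, z, q, b] : List V).getD k w0) (fun k => ([{w0}, {w1}, {z}, {q}, {b}, T] : List (Set V)).getD k ∅) 5 6 ?_ ?_ ?_ ?_ TD.A TD.N [] ?_ ?_ ?_ TD.I ?_ TD.cs TD.t TD.ok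
  · intro i hi
    interval_cases i <;> rfl
  · intro i hi hi'
    interval_cases i <;> assumption
  · intro i hi hi' j hj
    interval_cases i <;> interval_cases j <;> assumption
  · intro i hi hi' j hj hj'
    interval_cases i <;> interval_cases j <;> assumption
  · intro p hp
    simp only [TD.A, List.mem_cons, List.not_mem_nil, or_false] at hp
    rcases hp with rfl | rfl | rfl | rfl | rfl | rfl | rfl <;> (first | exact tch1.2 (by assumption) | exact tch1.2 (SimpleGraph.Adj.symm (by assumption)) | assumption | exact Tch.symm (by assumption))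
  · intro p hp
    simp only [TD.N, List.mem_cons, List.not_mem_nil, or_false] at hp
    rcases hp with rfl | rfl | rfl | rfl | rfl | rfl | rfl | rfl <;> (first | exact tch2 (by assumption) | exact tch2 (fun h => absurd (SimpleGraph.Adj.symm h) (by assumption)) | assumption | exact (fun h => absurd (Tch.symm h) (by assumption)))
  · simp
  · simp [TD.I]

end Pool.Agent.MPd439b2.RN
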