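import Pool.Agent.Lib.MP_d439b2_co.RN.EngS
import Pool.Agent.Lib.MP_d439b2_co.Rep.Cut

/-!
# MP_d439b2_co, RN/RA: a rich cell gives a balanced cut of rank 1 (helper29, note 3243): abstract part

`P = insert p Y`, `U`: the vertices outside `P` which are anticomplete to `P`, `E`: the component of `q` in `G[U]`.
`Facts`: the statements of the tables.  `comp`: every vertex outside `E` with a neighbour in `E` is complete to `E`.
-/

set_option autoImplicit false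

namespace Pool.Agent.MPd439b2.RN

open Pool.Agent.MPd439b2 Pool.Agent.MPd439b2.H1T Pool.Agent.MPd439b2.H1R

variable {V : Type} {G : SimpleGraph V}

/-- levels -/
theorem lev {E : Set V} (hE : Conn G E) {q : V} (hq : q ∈ E) :
    ∃ ρ : V → ℕ, (∀ e ∈ E, ρ e = 0 → e = q) ∧
      (∀ e ∈ E, ∀ n, ρ e = n + 1 → ∃ e' ∈ E, G.Adj e e' ∧ ρ e' = n) ∧
      ∀ e ∈ E, ∀ e' ∈ E, G.Adj e e' → ρ e ≤ ρ e' + 1 := by
  classical
  let R : ℕ → Set V := fun n => Nat.rec {q} (fun _ S => S ∪ {v | v ∈ E ∧ ∃ u ∈ S, G.Adj v u}) n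
  have R1 : ∀ n, R (n + 1) = R n ∪ {v | v ∈ E ∧ ∃ u ∈ R n, G.Adj v u} := fun n => rfl
  have R0 : R 0 = {q} := rfl
  have hm : ∀ n, R n ⊆ E := by
    intro n
    induction n with
    | zero => rw [R0]; exact Set.singleton_subset_iff.2 hq
    | succ n ih => rw [R1]; exact Set.union_subset ih fun v hv => hv.1
  have hmono : ∀ n, R n ⊆ R (n + 1) := fun n => by rw [R1]; exact Set.subset_union_left
  have hall : (⋃ n, R n) = E := by
    refine hE.eq_of_nb (Set.iUnion_subset hm) ⟨q, Set.mem_iUnion.2 ⟨0, rfl⟩⟩ ?_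
    rintro v hv ⟨hv1, a, ha, hav⟩
    obtain ⟨n, hn⟩ := Set.mem_iUnion.1 ha
    refine hv1 (Set.mem_iUnion.2 ⟨n + 1, ?_⟩)
    rw [R1]
    exact Or.inr ⟨hv, a, hn, hav.symm⟩
  have hex : ∀ e ∈ E, ∃ n, e ∈ R n := fun e he => by
    rw [← hall] at he
    exact Set.mem_iUnion.1 he
  let ρ : V → ℕ := fun e => @dite ℕ (∃ n, e ∈ R n) (Classical.dec _)
    (fun h => @Nat.find (fun n => e ∈ R n) (Classical.decPred _) h) (fun _ => 0)
  have h1 : ∀ e ∈ E, e ∈ R (ρ e) := by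
    intro e he
    have := hex e he
    simp only [ρ, dif_pos this]
    exact @Nat.find_spec (fun n => e ∈ R n) (Classical.decPred _) this
  have h2 : ∀ e ∈ E, ∀ n, e ∈ R n → ρ e ≤ n := by
    intro e he n hn
    have := hex e he
    simp only [ρ, dif_pos this]
    exact @Nat.find_min' (fun n => e ∈ R n) (Classical.decPred _) this n hn
  refine ⟨ρ, fun e he h => ?_, fun e he n h => ?_, fun e he e' he' h => ?_⟩
  · have := h1 e he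
    rw [h, R0] at this
    exact this
  · have h3 := h1 e he
    rw [h, R1] at h3
    rcases h3 with h3 | ⟨_, u, hu, hau⟩
    · have := h2 e he n h3
      omega
    · refine ⟨u, hm n hu, hau, ?_⟩
      have h4 := h2 u (hm n hu) n hu
      by_contra h5
      have h6 := h1 u (hm n hu)
      have h7 : e ∈ R (ρ u + 1) := by
        rw [R1]
        exact Or.inr ⟨he, u, h6, hau⟩
      have := h2 e he (ρ u + 1) h7
      omega
  · refine h2 e he _ ?_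
    rw [R1]
    exact Or.inr ⟨he, e', h1 e' he', h⟩

/-- the vertices outside `P` which are anticomplete to `P` -/
def Uc (G : SimpleGraph V) (P : Set V) : Set V := {v | v ∉ P ∧ ∀ a ∈ P, ¬ G.Adj v a}

/-- the tables -/
structure Facts (G : SimpleGraph V) (p q : V) (Y Z : Set V) : Prop where
  qU : q ∈ Uc G (insert p Y)
  qZ : q ∉ Z
  pY : p ∉ Y
  f5 : ∀ Q ⊆ Uc G (insert p Y) \ Z, Conn G Q → q ∈ Q → ∀ z ∈ Z, ∀ a ∈ Q, ¬ G.Adj z a
  f0 : ∀ Q ⊆ Uc G (insert p Y) \ Z, Conn G Q → q ∈ Q → (∀ z ∈ Z, ∀ a ∈ Q, ¬ G.Adj z a) →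
    ∀ x, x ∉ insert p Y → x ∉ Z → (∃ a ∈ Q, G.Adj x a) → G.Adj x p → ∃ y ∈ Y, G.Adj x y
  f1 : ∀ T ⊆ Uc G (insert p Y) \ Z, Conn G T → q ∉ T → (∀ z ∈ Z, ∀ a ∈ T, ¬ G.Adj z a) →
    (∃ a ∈ T, G.Adj q a) → ∀ x, x ∉ insert p Y → x ∉ Z → (∃ a ∈ T, G.Adj x a) →
      (∃ y ∈ Y, G.Adj x y) → G.Adj x q
  f2 : ∀ t ∈ Uc G (insert p Y) \ Z, (∀ z ∈ Z, ¬ G.Adj z t) → G.Adj q t →
    ∀ x, x ∉ insert p Y → x ∉ Z → (∃ y ∈ Y, G.Adj x y) → G.Adj x q → G.Adj x t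
  f3 : ∀ s ∈ Uc G (insert p Y) \ Z, ∀ t ∈ Uc G (insert p Y) \ Z, (∀ z ∈ Z, ¬ G.Adj z s) →
    (∀ z ∈ Z, ¬ G.Adj z t) → G.Adj q t → ¬ G.Adj q s → G.Adj s t →
    ∀ x, x ∉ insert p Y → x ∉ Z → (∃ y ∈ Y, G.Adj x y) → G.Adj x q → G.Adj x t → G.Adj x s

/-- `K3:0,1,02` on a path -/
theorem f4 (hH : FH G) (hJ : FJ 2 G) {a x t0 t1 t2 t3 : V} (xa : G.Adj x a) (x0 : ¬ G.Adj x t0)
    (x1 : G.Adj x t1) (x2 : G.Adj x t2) (x3 : G.Adj x t3) (a0 : ¬ G.Adj t0 a) (a1 : ¬ G.Adj t1 a)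
    (a2 : ¬ G.Adj t2 a) (a3 : ¬ G.Adj t3 a) (t01 : G.Adj t0 t1) (t12 : G.Adj t1 t2) (t23 : G.Adj t2 t3)
    (t02 : ¬ G.Adj t0 t2) (t03 : ¬ G.Adj t0 t3) (t13 : ¬ G.Adj t1 t3) : False := by
  have s1 : ∀ {u v : V}, G.Adj u v → G.Adj v u := fun h => h.symm
  have s2 : ∀ {u v : V}, ¬ G.Adj u v → ¬ G.Adj v u := fun h h' => h h'.symm
  refine refute hH hJ (fun k => [x, t1, t2, a, t0, t3].getD k x) 6
    [(1, 0), (2, 0), (2, 1), (3, 0), (4, 1), (5, 0), (5, 2)]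
    [(3, 1), (3, 2), (4, 0), (4, 2), (4, 3), (5, 1), (5, 3), (5, 4)] []
    ?_ ?_ (by simp) [] (by simp)
    [(true, msk [(1, 0), (2, 0), (2, 1), (3, 0), (4, 1), (5, 0), (5, 2)],
      msk [(3, 1), (3, 2), (4, 0), (4, 2), (4, 3), (5, 1), (5, 3), (5, 4)], [[0], [1], [2], [3], [4], [5]])]
    (Tr.lf 0) (by decide +kernel)
  · intro p hp
    simp only [List.mem_cons, List.not_mem_nil, or_false] at hp
    rcases hp with rfl | rfl | rfl | rfl | rfl | rfl | rfl <;> first | assumption | (exact s1 (by assumption))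
  · intro p hp
    simp only [List.mem_cons, List.not_mem_nil, or_false] at hp
    rcases hp with rfl | rfl | rfl | rfl | rfl | rfl | rfl | rfl <;>
      first | assumption | (exact s2 (by assumption))

/-- **The component is a homogeneous block.** -/
theorem comp (hH : FH G) (hJ : FJ 2 G) {p q : V} {Y Z : Set V} (h : Facts G p q Y Z) :
    ∃ E, E ⊆ Uc G (insert p Y) ∧ q ∈ E ∧ Conn G E ∧ (∀ u ∈ Uc G (insert p Y) \ Z, u ∉ nb G E) ∧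
      ∀ x ∉ E, (∀ e ∈ E, G.Adj x e) ∨ ∀ e ∈ E, ¬ G.Adj x e := by
  obtain ⟨E, hEU, hqE, hE, hnb⟩ := exists_comp G (show q ∈ Uc G (insert p Y) \ Z from ⟨h.qU, h.qZ⟩)
  refine ⟨E, fun e he => (hEU he).1, hqE, hE, hnb, fun x hx => ?_⟩
  by_contra hcon
  rw [not_or] at hcon
  obtain ⟨h1, h2⟩ := hcon
  rw [not_forall] at h1
  obtain ⟨s, h1⟩ := h1
  rw [Classical.not_imp] at h1
  obtain ⟨hs, hxs⟩ := h1
  simp only [not_forall, Classical.not_not] at h2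
  obtain ⟨e, he, hxe⟩ := h2
  have hEZ : ∀ z ∈ Z, ∀ a ∈ E, ¬ G.Adj z a := h.f5 E hEU hE hqE
  have hxZ : x ∉ Z := fun hx' => hEZ x hx' e he hxe
  have hxP : x ∉ insert p Y := fun hx' => (hEU he).1.2 x hx' hxe.symm
  have hxU : x ∉ Uc G (insert p Y) := fun hx' => hnb x ⟨hx', hxZ⟩ ⟨hx, e, he, hxe.symm⟩
  have hxt : ∃ a ∈ insert p Y, G.Adj x a := by
    by_contra hc
    simp only [not_exists, not_and] at hc
    exact hxU ⟨hxP, hc⟩
  have hxY : ∃ y ∈ Y, G.Adj x y := by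
    obtain ⟨a, ha, hxa⟩ := hxt
    rcases Set.mem_insert_iff.1 ha with rfl | ha
    · exact h.f0 E hEU hE hqE hEZ x hxP hxZ ⟨e, he, hxe⟩ hxa
    · exact ⟨a, ha, hxa⟩
  have hxq : G.Adj x q := by
    by_contra hxq
    have heq : e ≠ q := fun h' => hxq (h' ▸ hxe)
    obtain ⟨T, hTE, heT, hT, hTnb⟩ := exists_comp G (show e ∈ E \ {q} from ⟨he, heq⟩)
    have hqT : q ∉ T := fun h' => (hTE h').2 rfl
    have hTq : ∃ a ∈ T, G.Adj q a := by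
      obtain ⟨b, hb, a, ha, hab⟩ := hE.2 T (fun t ht => (hTE ht).1) ⟨e, heT⟩ (fun h' => hqT (h' ▸ hqE))
      by_cases haq : a = q
      · exact ⟨b, hb, haq ▸ hab.symm⟩
      · exact absurd ⟨ha.2, b, hb, hab⟩ (hTnb a ⟨ha.1, haq⟩)
    exact hxq (h.f1 T (fun t ht => hEU (hTE ht).1) hT hqT (fun z hz t ht => hEZ z hz t (hTE ht).1) hTq x hxP
      hxZ ⟨e, heT, hxe⟩ hxY)
  obtain ⟨ρ, r0, r1, r2⟩ := lev hE hqE
  -- the missed vertex of smallest level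
  obtain ⟨s0, ⟨hs0, hxs0⟩, hmin⟩ : ∃ s0, (s0 ∈ E ∧ ¬ G.Adj x s0) ∧ ∀ u, u ∈ E ∧ ¬ G.Adj x u → ρ s0 ≤ ρ u := by
    classical
    have hne : ∃ n, ∃ u, (u ∈ E ∧ ¬ G.Adj x u) ∧ ρ u = n := ⟨_, s, ⟨hs, hxs⟩, rfl⟩
    obtain ⟨u, hu, hun⟩ := Nat.find_spec hne
    exact ⟨u, hu, fun v hv => hun ▸ Nat.find_min' hne ⟨v, hv, rfl⟩⟩
  have hsee : ∀ u ∈ E, ρ u < ρ s0 → G.Adj x u := by
    intro u hu hlt
    by_contra hc
    have := hmin u ⟨hu, hc⟩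
    omega
  rcases h3 : ρ s0 with _ | n
  · exact hxs0 (r0 s0 hs0 h3 ▸ hxq)
  obtain ⟨t1, ht1, h01, hr1⟩ := r1 s0 hs0 n h3
  have hx1 : G.Adj x t1 := hsee t1 ht1 (by omega)
  by_cases hq0 : G.Adj q s0
  · exact hxs0 (h.f2 s0 (hEU hs0) (fun z hz => hEZ z hz s0 hs0) hq0 x hxP hxZ hxY hxq)
  by_cases hq1 : G.Adj q t1
  · exact hxs0 (h.f3 s0 (hEU hs0) t1 (hEU ht1) (fun z hz => hEZ z hz s0 hs0) (fun z hz => hEZ z hz t1 ht1) hq1
      hq0 h01 x hxP hxZ hxY hxq hx1)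
  rcases n with _ | n
  · exact hq0 (r0 t1 ht1 hr1 ▸ h01.symm)
  obtain ⟨t2, ht2, h12, hr2⟩ := r1 t1 ht1 n hr1
  rcases n with _ | n
  · exact hq1 (r0 t2 ht2 hr2 ▸ h12.symm)
  obtain ⟨t3, ht3, h23, hr3⟩ := r1 t2 ht2 n hr2
  obtain ⟨y, hy, hxy⟩ := hxY
  have hya : ∀ t ∈ E, ¬ G.Adj t y := fun t ht => (hEU ht).1.2 y (Set.mem_insert_of_mem _ hy)
  refine f4 hH hJ hxy hxs0 hx1 (hsee t2 ht2 (by omega)) (hsee t3 ht3 (by omega)) (hya _ hs0) (hya _ ht1)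
    (hya _ ht2) (hya _ ht3) h01 h12 h23 (fun h' => ?_) (fun h' => ?_) (fun h' => ?_)
  · have := r2 s0 hs0 t2 ht2 h'
    omega
  · have := r2 s0 hs0 t3 ht3 h'
    omega
  · have := r2 t1 ht1 t3 ht3 h'
    omega

/-- **No rich cell in a linked graph.** -/
theorem no_facts [Finite V] {β : ℕ → ℕ} {c₀ : ℕ} (hL : Rep.Link β c₀ G) (hc : 1 ≤ c₀) (hH : FH G)
    (hJ : FJ 2 G) {p q w : V} {Y Z A B : Set V} (h : Facts G p q Y Z) (hA : β 1 < A.ncard)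
    (hAp : ∀ a ∈ A, G.Adj a p) (hB : β 1 < B.ncard) (hBU : B ⊆ Uc G (insert p Y) \ Z)
    (hw : w ∈ Uc G (insert p Y) \ Z) (hwq : G.Adj q w) (hwB : ∀ b ∈ B, b = w ∨ G.Adj w b) : False := by
  obtain ⟨E, hEU, hqE, hE, hnb, hcp⟩ := comp hH hJ h
  have hwE : w ∈ E := by
    by_contra hc
    exact hnb w hw ⟨hc, q, hqE, hwq⟩
  have hBE : B ⊆ E := by
    intro b hb
    rcases hwB b hb with rfl | h1
    · exact hwE
    · by_contra hc
      exact hnb b (hBU hb) ⟨hc, w, hwE, h1⟩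
  have hAE : A ⊆ Eᶜ := fun a ha haE => (hEU haE).2 p (Set.mem_insert _ _) (hAp a ha)
  have h1 : β 1 < E.ncard := hB.trans_le (Set.ncard_le_ncard hBE (Set.toFinite _))
  have h2 : β 1 < Eᶜ.ncard := hA.trans_le (Set.ncard_le_ncard hAE (Set.toFinite _))
  refine Rep.link_false hL hc (X := E) ?_ h1 h2
  unfold LK.cr
  rw [Rep.rk_symm]
  exact Rep.rk_row G fun a ha => hcp a ha

end Pool.Agent.MPd439b2.RN
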