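import Pool.Agent.Lib.MP_d439b2_co.RN.EngU
import Pool.Agent.Lib.MP_d439b2_co.RN.RA

/-!
# MP_d439b2_co, RN/OneG: glue for the tables (helper38)
-/

set_option autoImplicit false

namespace Pool.Agent.MPd439b2.RN

open Pool.Agent.MPd439b2 Pool.Agent.MPd439b2.H1T Pool.Agent.MPd439b2.H1R

variable {V : Type} {G : SimpleGraph V} {T P C : Set V} {a w t x : V}

/-- `T` is disjoint from and anticomplete to `P` -/
def An (G : SimpleGraph V) (T P : Set V) : Prop := ∀ t ∈ T, ∀ a ∈ P, t ≠ a ∧ ¬ G.Adj t a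

theorem An.of (h : T ⊆ Uc G P \ ∅) : An G T P := fun t ht a ha =>
  ⟨fun e => (h ht).1.1 (e ▸ ha), (h ht).1.2 a ha⟩

theorem An.t1 (h : An G T P) (ha : a ∈ P) : ¬ Tch G T {a} := by
  rintro ⟨t, ht, b, rfl, h1⟩
  exact (h t ht _ ha).2 h1

theorem An.t2 (h : An G T P) (hC : C ⊆ P) : ¬ Tch G T C := by
  rintro ⟨t, ht, b, hb, h1⟩
  exact (h t ht _ (hC hb)).2 h1

theorem An.m1 (h : An G T P) (ha : a ∈ P) : a ∉ T := fun h' => (h a h' a ha).1 rfl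

theorem An.m2 (h : An G T P) (ha : a ∈ P) (hw : G.Adj w a) : w ∉ T := fun h' => (h w h' a ha).2 hw

theorem An.m3 (h : An G T P) (hC : C ⊆ P) (hw : Tch G C {w}) : w ∉ T := by
  intro h'
  obtain ⟨c, hc, b, rfl, h1⟩ := hw
  exact (h _ h' c (hC hc)).2 h1.symm

theorem An.d (h : An G T P) (hC : C ⊆ P) : Disjoint T C :=
  Set.disjoint_left.2 fun t ht hc => (h t ht t (hC hc)).1 rfl

theorem An.d' (h : An G T P) (hC : C ⊆ P) : Disjoint C T := (h.d hC).symm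

theorem uA (h : t ∈ Uc G P \ ∅) (ha : a ∈ P) : ¬ G.Adj a t := fun h' => h.1.2 a ha h'.symm

theorem uC (h : t ∈ Uc G P \ ∅) (hC : C ⊆ P) : ¬ Tch G C {t} := by
  rintro ⟨c, hc, b, rfl, h1⟩
  exact h.1.2 c (hC hc) h1.symm

theorem uM (h : t ∈ Uc G P \ ∅) (ha : a ∈ P) : t ≠ a := fun e => h.1.1 (e ▸ ha)

theorem uN (h : t ∈ Uc G P \ ∅) (hC : C ⊆ P) : t ∉ C := fun h' => h.1.1 (hC h')

theorem uX (h : t ∈ Uc G P \ ∅) (hx : ∃ y ∈ P, G.Adj x y) : x ≠ t := by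
  rintro rfl
  obtain ⟨y, hy, h1⟩ := hx
  exact h.1.2 y hy h1

theorem xM (h : x ∉ P) (ha : a ∈ P) : x ≠ a := fun e => h (e ▸ ha)

theorem tQ (h : ∃ a ∈ T, G.Adj x a) : Tch G T {x} := by
  obtain ⟨a, ha, h1⟩ := h
  exact ⟨a, ha, x, rfl, h1.symm⟩

theorem ned (h : G.Adj a x) (h' : ¬ G.Adj t x) : a ≠ t := fun e => h' (e ▸ h)

theorem ned' (h : ¬ G.Adj a x) (h' : G.Adj t x) : a ≠ t := fun e => h (e ▸ h')

end Pool.Agent.MPd439b2.RN
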