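import Pool.Agent.Lib.MP_d439b2_co.RN.RA

/-!
# MP_d439b2_co, RN/OneS: the tables for the rank 1 cut at a cell with three rows (helper29, helper10)

`w0`, `w1` (, `w2`): mixers of a connected set `K`, adjacent, adjacent to `q`, not adjacent to `p`; the `z`'s: vertices
anticomplete to `K`, `p`, `q`.  In all tables the cut is taken behind `p`, the contact vertices AND the `z`'s
(`Facts G p q Y ∅` with the `z`'s in `Y`).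
-/

set_option autoImplicit false

namespace Pool.Agent.MPd439b2.RN

open Pool.Agent.MPd439b2 Pool.Agent.MPd439b2.H1T Pool.Agent.MPd439b2.H1R

/-- `p`, `q`, two mixers `w0`, `w1`; `Y`: contact vertices and `z`'s -/
structure Cx {V : Type} (G : SimpleGraph V) (p q w0 w1 : V) (Y : Set V) : Prop where
  pq : ¬ G.Adj p q
  pw0 : ¬ G.Adj p w0
  pw1 : ¬ G.Adj p w1
  qw0 : G.Adj q w0
  qw1 : G.Adj q w1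
  w01 : G.Adj w0 w1
  pY : p ∉ Y
  qY : q ∉ Y
  pa : ∀ y ∈ Y, ¬ G.Adj p y
  qa : ∀ y ∈ Y, ¬ G.Adj q y

/-- a connected set `A` touched by both mixers, a neighbour `b` missed by both: `K3:0,1,02` -/
def S_TD : Prop :=
  ∀ (V : Type) (G : SimpleGraph V), FH G → FJ 2 G → ∀ (A : Set V) (b w0 w1 z q : V), Conn G A →
    b ∉ A → z ∉ A → (∃ a ∈ A, G.Adj b a) → (∃ a ∈ A, G.Adj w0 a) → (∃ a ∈ A, G.Adj w1 a) →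
    ¬ G.Adj w0 b → ¬ G.Adj w1 b → G.Adj w0 w1 → G.Adj w0 z → ¬ G.Adj w1 z → G.Adj q w0 → G.Adj q w1 →
    (∀ a ∈ A, ¬ G.Adj z a) → ¬ G.Adj z b → ¬ G.Adj z q → (∀ a ∈ A, ¬ G.Adj q a) → ¬ G.Adj q b → False

/-- `C0 - b - C1`: `w0` touches only `C0`, `w1` touches only `C1` -/
def S_TC : Prop :=
  ∀ (V : Type) (G : SimpleGraph V), FH G → FJ 2 G → ∀ (C0 C1 : Set V) (b p q w0 w1 z : V),
    Cx G p q w0 w1 (C0 ∪ C1 ∪ {b, z}) → Conn G C0 → Conn G C1 → Disjoint C0 C1 → b ∉ C0 → b ∉ C1 →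
    z ∉ C0 → z ∉ C1 → (∃ a ∈ C0, G.Adj b a) → (∃ a ∈ C1, G.Adj b a) → (∀ a ∈ C0, ∀ c ∈ C1, ¬ G.Adj a c) →
    (∃ a ∈ C0, G.Adj w0 a) → (∀ a ∈ C1, ¬ G.Adj w0 a) → ¬ G.Adj w0 b →
    (∃ a ∈ C1, G.Adj w1 a) → (∀ a ∈ C0, ¬ G.Adj w1 a) → ¬ G.Adj w1 b →
    G.Adj w0 z → ¬ G.Adj w1 z → ¬ G.Adj z b → (∀ a ∈ C0, ¬ G.Adj z a) → (∀ a ∈ C1, ¬ G.Adj z a) →
    Facts G p q (C0 ∪ C1 ∪ {b, z}) ∅

/-- `y0 - C - y1`: `w0` misses only `y0`, `w1` misses only `y1` -/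
def S_TB : Prop :=
  ∀ (V : Type) (G : SimpleGraph V), FH G → FJ 2 G → ∀ (C : Set V) (y0 y1 p q w0 w1 z : V),
    Cx G p q w0 w1 (C ∪ {y0, y1, z}) → Conn G C → y0 ∉ C → y1 ∉ C → z ∉ C →
    (∃ a ∈ C, G.Adj y0 a) → (∃ a ∈ C, G.Adj y1 a) → ¬ G.Adj y0 y1 →
    (∃ a ∈ C, G.Adj w0 a) → ¬ G.Adj w0 y0 → G.Adj w0 y1 →
    (∃ a ∈ C, G.Adj w1 a) → G.Adj w1 y0 → ¬ G.Adj w1 y1 →
    G.Adj w0 z → ¬ G.Adj w1 z → (∀ a ∈ C, ¬ G.Adj z a) → ¬ G.Adj z y0 → ¬ G.Adj z y1 →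
    Facts G p q (C ∪ {y0, y1, z}) ∅

/-- `y0 - y1`, crossing rows on `z0`, `z1` -/
def S_TX : Prop :=
  ∀ (V : Type) (G : SimpleGraph V), FH G → FJ 2 G → ∀ (y0 y1 p q w0 w1 z0 z1 : V),
    Cx G p q w0 w1 {y0, y1, z0, z1} → G.Adj y0 y1 → ¬ G.Adj w0 y0 → G.Adj w0 y1 →
    G.Adj w1 y0 → ¬ G.Adj w1 y1 → G.Adj w0 z0 → ¬ G.Adj w1 z0 → ¬ G.Adj w0 z1 → G.Adj w1 z1 →
    ¬ G.Adj z0 y0 → ¬ G.Adj z0 y1 → ¬ G.Adj z1 y0 → ¬ G.Adj z1 y1 →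
    Facts G p q {y0, y1, z0, z1} ∅

/-- `y0 - y1`, three mixers with nested rows on `z0`, `z1` -/
def S_TN : Prop :=
  ∀ (V : Type) (G : SimpleGraph V), FH G → FJ 2 G → ∀ (y0 y1 p q w0 w1 w2 z0 z1 : V),
    Cx G p q w0 w1 {y0, y1, z0, z1} → ¬ G.Adj p w2 → G.Adj q w2 → G.Adj w0 w2 → G.Adj w1 w2 →
    G.Adj y0 y1 → ¬ G.Adj w0 y0 → G.Adj w0 y1 → G.Adj w1 y0 → ¬ G.Adj w1 y1 → G.Adj w2 y0 → G.Adj w2 y1 →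
    G.Adj w0 z0 → ¬ G.Adj w1 z0 → ¬ G.Adj w2 z0 → G.Adj w0 z1 → G.Adj w1 z1 → ¬ G.Adj w2 z1 →
    ¬ G.Adj z0 y0 → ¬ G.Adj z0 y1 → ¬ G.Adj z1 y0 → ¬ G.Adj z1 y1 →
    Facts G p q {y0, y1, z0, z1} ∅

end Pool.Agent.MPd439b2.RN
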