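import Pool.Agent.Lib.MP_d439b2_co.RN.Defs

/-!
# MP_d439b2_co, RN/OneU: no rich cell in a linked graph (helper29), from the theorem on three mixers (helper38, RN/OneR)
-/

set_option autoImplicit false

namespace Pool.Agent.MPd439b2.RN

open Pool.Agent.MPd439b2 Pool.Agent.MPd439b2.Rep

/-- the theorem on three mixers with three rows (helper38) -/
def S_OneR : Prop := ∀ (V : Type) [Finite V] (G : SimpleGraph V) (b : ℕ → ℕ) (c₀ : ℕ), Link b c₀ G → 1 ≤ c₀ →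
  H1T.FH G → H1T.FJ 2 G → ∀ (K O A B : Set V) (p q : V) (w : ℕ → V), Conn G K →
  (∀ i < 3, ∀ j < 3, i ≠ j → G.Adj (w i) (w j)) →
  (∀ i < 3, w i ∉ K ∧ (∃ a ∈ K, G.Adj (w i) a) ∧ ∃ a ∈ K, ¬ G.Adj (w i) a) →
  (∀ i < 3, ¬ G.Adj (w i) p ∧ G.Adj (w i) q) →
  (∀ i < 3, ∀ j < 3, i ≠ j → ∃ z ∈ O, ¬ (G.Adj (w i) z ↔ G.Adj (w j) z)) →
  (∀ z ∈ O, z ∉ K ∧ (∀ a ∈ K, ¬ G.Adj z a) ∧ ¬ G.Adj z p) →
  (p ∉ K ∧ ∀ a ∈ K, ¬ G.Adj p a) → Conn G B → q ∈ B →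
  (∀ x ∈ B, x ∉ K ∧ (∀ a ∈ K, ¬ G.Adj x a) ∧ x ≠ p ∧ ¬ G.Adj x p ∧ ∀ z ∈ O, x ≠ z ∧ ¬ G.Adj x z) →
  b 1 < A.ncard → (∀ a ∈ A, a = p ∨ G.Adj a p) → b 1 < B.ncard → False

/-- **[3] S_One** -/
theorem one (h : S_OneR) {V : Type} [Finite V] {G : SimpleGraph V} {β : ℕ → ℕ} {c₀ n k : ℕ} {v : ℕ → V}
    {K : ℕ → Set V} (hL : Link β c₀ G) (hc : 1 ≤ c₀) (hH : H1T.FH G) (hJ : H1T.FJ 2 G) (hS : CS G n v K)
    (hk : k < n) (hR : Rich G n v K (β 1) k) : False := by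
  classical
  obtain ⟨w, z₁, z₂, hw, hww, ⟨-, z1K⟩, ⟨-, z2K⟩, ⟨L₁, c1, h1⟩, j, hkj, hj, ⟨j1, j1'⟩, ⟨j2, j2'⟩, L₂, c2, h2⟩ := hR
  -- the letter on the left
  have hne1 : L₁.Nonempty := Finset.card_pos.1 (by omega)
  obtain ⟨l₀, hl₀, hmax⟩ : ∃ l₀ ∈ L₁, ∀ l ∈ L₁, l ≤ l₀ := ⟨L₁.max' hne1, L₁.max'_mem hne1, fun l hl => L₁.le_max' l hl⟩
  have hl0k : l₀ < k := (h1 l₀ hl₀).1
  have hl0n : l₀ < n := hl0k.trans hk
  obtain ⟨p, hp⟩ := (hS.con l₀ hl0n).1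
  -- the letter on the right
  have hne2 : L₂.Nonempty := Finset.card_pos.1 (by omega)
  obtain ⟨l₁, hl₁⟩ := hne2
  have hl1 := h2 l₁ hl₁
  obtain ⟨q, hq⟩ := (hS.con l₁ hl1.2.1).1
  have hpt : ∀ l, ∃ x : V, l < n → x ∈ K l := fun l => by
    by_cases hl : l < n
    · obtain ⟨x, hx⟩ := (hS.con l hl).1
      exact ⟨x, fun _ => hx⟩
    · exact ⟨p, fun h' => absurd h' hl⟩
  choose x hx using hpt
  let A : Set V := (fun l => if l = l₀ then p else v l) '' (L₁ : Set ℕ)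
  let B : Set V := {v j} ∪ ⋃ l : {l // l ∈ L₂}, K l.1
  have hA : A.ncard = L₁.card := by
    have hinj : Set.InjOn (fun l => if l = l₀ then p else v l) (L₁ : Set ℕ) := by
      intro a ha b hb hab
      have ha' : a < n := ((h1 a ha).1).trans hk
      have hb' : b < n := ((h1 b hb).1).trans hk
      simp only at hab
      by_cases h3 : a = l₀
      · by_cases h4 : b = l₀
        · rw [h3, h4]
        · rw [if_pos h3, if_neg h4] at hab
          exact absurd (hab ▸ hp) (hS.vK b hb' l₀ hl0n)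
      · by_cases h4 : b = l₀
        · rw [if_neg h3, if_pos h4] at hab
          exact absurd (hab.symm ▸ hp) (hS.vK a ha' l₀ hl0n)
        · rw [if_neg h3, if_neg h4] at hab
          by_contra h5
          exact (hS.vv a ha' b hb' h5).1 hab
    rw [hinj.ncard_image, Set.ncard_coe_finset]
  have hAp : ∀ a ∈ A, a = p ∨ G.Adj a p := by
    rintro a ⟨l, hl, rfl⟩
    by_cases h3 : l = l₀
    · exact Or.inl (by simp only [if_pos h3])
    · right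
      have h4 : l < l₀ := lt_of_le_of_ne (hmax l hl) h3
      simp only [if_neg h3]
      exact hS.lo l (h4.trans hl0n) l₀ hl0n h4 p hp
  have hBc : L₂.card ≤ B.ncard := by
    have hinj : Set.InjOn x (L₂ : Set ℕ) := by
      intro a ha b hb hab
      by_contra h5
      have ha' := (h2 a ha).2.1
      have hb' := (h2 b hb).2.1
      exact Set.disjoint_left.1 (hS.dis a ha' b hb' h5).1 (hx a ha') (hab ▸ hx b hb')
    rw [← Set.ncard_coe_finset, ← hinj.ncard_image]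
    refine Set.ncard_le_ncard ?_ (Set.toFinite _)
    rintro a ⟨l, hl, rfl⟩
    exact Or.inr (Set.mem_iUnion.2 ⟨⟨l, hl⟩, hx l (h2 l hl).2.1⟩)
  have hB : Conn G B := by
    refine Conn.union_iUnion (Conn.singleton G (v j)) (fun l => hS.con l.1 (h2 l.1 l.2).2.1) fun l => ?_
    obtain ⟨y, hy⟩ := (hS.con l.1 (h2 l.1 l.2).2.1).1
    exact Or.inr ⟨v j, rfl, y, hy, hS.lo j hj l.1 (h2 l.1 l.2).2.1 (h2 l.1 l.2).1 y hy⟩
  refine h V G β c₀ hL hc hH hJ (K k) {z₁, z₂} A B p q w (hS.con k hk) (fun i hi j hj hij => (hww i hi j hj hij).2.1)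
    (fun i hi => ?_) (fun i hi => ⟨(hw i hi).2.2 l₀ hl0k p hp, (hw i hi).2.1 l₁ hl1.2.1 (by omega) q hq⟩)
    (fun i hi j hj hij => ?_) ?_ ⟨fun h' => ?_, fun a ha => ?_⟩ hB (Or.inr (Set.mem_iUnion.2 ⟨⟨l₁, hl₁⟩, hq⟩)) ?_
    (by rw [hA]; exact c1) hAp (by omega)
  · have h3 := (hw i hi).1
    refine ⟨h3.1, ?_, ?_⟩
    · by_contra h4
      simp only [not_exists, not_and] at h4
      exact h3.2.2 h4
    · by_contra h4
      simp only [not_exists, not_and, not_not] at h4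
      exact h3.2.1 h4
  · have h3 := (hww i hi j hj hij).2.2
    by_cases h4 : (G.Adj (w i) z₁ ↔ G.Adj (w j) z₁)
    · exact ⟨z₂, by simp, fun h5 => h3 ⟨h4, h5⟩⟩
    · exact ⟨z₁, by simp, h4⟩
  · rintro z hz
    rcases hz with rfl | hz
    · exact ⟨z1K.1, z1K.2, (h1 l₀ hl₀).2.1.2 p hp⟩
    · rw [Set.mem_singleton_iff] at hz
      subst hz
      exact ⟨z2K.1, z2K.2, (h1 l₀ hl₀).2.2.2 p hp⟩
  · exact Set.disjoint_left.1 (hS.dis l₀ hl0n k hk (by omega)).1 hp h'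
  · exact (hS.dis l₀ hl0n k hk (by omega)).2 p hp a ha
  · rintro y (hy | hy)
    · rw [Set.mem_singleton_iff] at hy
      subst hy
      refine ⟨hS.vK j hj k hk, hS.hi j hj k hk hkj, fun h' => hS.vK j hj l₀ hl0n (h' ▸ hp),
        hS.hi j hj l₀ hl0n (by omega) p hp, fun z hz => ?_⟩
      rcases hz with rfl | hz
      · exact ⟨j1, j1'⟩
      · rw [Set.mem_singleton_iff] at hz
        subst hz
        exact ⟨j2, j2'⟩
    · obtain ⟨⟨l, hl⟩, hyl⟩ := Set.mem_iUnion.1 hy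
      obtain ⟨g1, g2, g3, g4⟩ := h2 l hl
      have hlk : l ≠ k := by omega
      have hl0 : l ≠ l₀ := by omega
      refine ⟨fun h' => Set.disjoint_left.1 (hS.dis l g2 k hk hlk).1 hyl h',
        fun a ha => (hS.dis l g2 k hk hlk).2 y hyl a ha,
        fun h' => Set.disjoint_left.1 (hS.dis l g2 l₀ hl0n hl0).1 hyl (h' ▸ hp),
        (hS.dis l g2 l₀ hl0n hl0).2 y hyl p hp, fun z hz => ?_⟩
      rcases hz with rfl | hz
      · exact ⟨fun h' => g3.1 (h' ▸ hyl), fun h' => g3.2 y hyl h'.symm⟩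
      · rw [Set.mem_singleton_iff] at hz
        subst hz
        exact ⟨fun h' => g4.1 (h' ▸ hyl), fun h' => g4.2 y hyl h'.symm⟩

/-- **[3]** in the form of the assembly: no rich cell in a linked graph -/
def S_One : Prop := ∀ (b : ℕ → ℕ) (c₀ : ℕ) (V : Type) [Finite V] (G : SimpleGraph V) (n k : ℕ) (v : ℕ → V)
  (K : ℕ → Set V), 1 ≤ c₀ → Link b c₀ G → H1T.FH G → H1T.FJ 2 G → CS G n v K → k < n →
    Rich G n v K (b 1 + 1) k → False

theorem rich_mono {V : Type} {G : SimpleGraph V} {n : ℕ} {v : ℕ → V} {K : ℕ → Set V} {b b' k : ℕ}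
    (h : Rich G n v K b k) (hb : b' ≤ b) : Rich G n v K b' k := by
  obtain ⟨w, z₁, z₂, hw, hww, h1, h2, ⟨L₁, c1, h3⟩, j, hkj, hj, j1, j2, L₂, c2, h4⟩ := h
  exact ⟨w, z₁, z₂, hw, hww, h1, h2, ⟨L₁, by omega, h3⟩, j, hkj, hj, j1, j2, L₂, by omega, h4⟩

theorem uOne_of (h : S_OneR) : S_One := fun _ _ _ _ _ _ _ _ _ hc hL hH hJ hS hk hR =>
  one h hL hc hH hJ hS hk (rich_mono hR (Nat.le_succ _))

end Pool.Agent.MPd439b2.RN
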