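import Pool.Agent.Lib.MP_d439b2_co.X3.H1R.Base
import Pool.Agent.Lib.MP_d439b2_co.L4.A2

/-!
# MP_d439b2_co, RN/Step: connectivity between two sets, the step lemma (helper38; proof of helper28, note 3076)

`Kap G A B n`: every set which contains `A` and is disjoint from `B` has cut-rank at least `n`.

`step`: if `Kap G A Z n` then there is `Z₁` outside `A ∪ Z` with independent rows on `Z`, which is completely linked
to `A` in `G - Z`, and `n ≤ rk(A, Z) + 2 |Z₁|`.
-/

set_option autoImplicit false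

namespace Pool.Agent.MPd439b2.RN

open Pool.Agent.MPd439b2

variable {V : Type}

/-- every set which contains `A` and is disjoint from `B` has cut-rank at least `n` -/
def Kap (G : SimpleGraph V) (A B : Set V) (n : ℕ) : Prop :=
  ∀ C, A ⊆ C → Disjoint C B → n ≤ LK.cr G C

variable [Finite V] {G : SimpleGraph V} {A B Z : Set V} {n m : ℕ}

omit [Finite V] in
theorem Kap.le (h : Kap G A B n) (hm : m ≤ n) : Kap G A B m := fun C h1 h2 => hm.trans (h C h1 h2)

theorem cr_compl (G : SimpleGraph V) (C : Set V) : LK.cr G Cᶜ = LK.cr G C := by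
  have h := (LK.a2 LK.a1 V G).2.1 C (Set.subset_univ _)
  rwa [← Set.compl_eq_univ_sdiff] at h

theorem cr_sub (G : SimpleGraph V) (C C' : Set V) :
    LK.cr G (C ∩ C') + LK.cr G (C ∪ C') ≤ LK.cr G C + LK.cr G C' :=
  (LK.a2 LK.a1 V G).2.2.1 C (Set.subset_univ _) C' (Set.subset_univ _)

theorem Kap.symm (h : Kap G A B n) : Kap G B A n := by
  intro C h1 h2
  rw [← cr_compl]
  refine h _ (fun x hx => ?_) ?_
  · exact fun hxC => Set.disjoint_left.1 h2 hxC hx
  · rw [Set.disjoint_left]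
    exact fun x hx hxB => hx (h1 hxB)

theorem rk_le_card (G : SimpleGraph V) (A B : Set V) : LK.rk G A B ≤ A.ncard := (LK.a1 V G).2.2.2.1 A B

theorem rk_symm (G : SimpleGraph V) (A B : Set V) : LK.rk G A B = LK.rk G B A := (LK.a1 V G).1 A B

theorem rk_mono {A A' B B' : Set V} (G : SimpleGraph V) (hA : A ⊆ A') (hB : B ⊆ B') :
    LK.rk G A B ≤ LK.rk G A' B' := (LK.a1 V G).2.1 A A' B B' hA hB

theorem rk_un (G : SimpleGraph V) (A A' B : Set V) : LK.rk G (A ∪ A') B ≤ LK.rk G A B + LK.rk G A' B :=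
  (LK.a1 V G).2.2.1 A A' B

theorem rk_un' (G : SimpleGraph V) (A B B' : Set V) : LK.rk G A (B ∪ B') ≤ LK.rk G A B + LK.rk G A B' := by
  rw [rk_symm G A (B ∪ B'), rk_symm G A B, rk_symm G A B']
  exact rk_un G B B' A

/-- removing few vertices from a set -/
theorem cr_diff (G : SimpleGraph V) (C S : Set V) : LK.cr G (C \ S) ≤ LK.cr G C + S.ncard := by
  unfold LK.cr
  have h1 : (C \ S)ᶜ ⊆ Cᶜ ∪ S := by
    intro x hx
    by_cases hxC : x ∈ C
    · right
      by_contra hxS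
      exact hx ⟨hxC, hxS⟩
    · exact Or.inl hxC
  have h2 := rk_mono G (Set.sdiff_subset : C \ S ⊆ C) h1
  have h3 := rk_un' G C Cᶜ S
  have h4 : LK.rk G C S ≤ S.ncard := by
    rw [rk_symm]
    exact rk_le_card G S C
  omega

/-- a subset of a linked set is linked -/
theorem Kap.sub (h : Kap G A B n) {B' : Set V} (hd : Disjoint A (B \ B')) (hn : m + (B \ B').ncard ≤ n) :
    Kap G A B' m := by
  intro C h1 h2
  have h3 := h (C \ (B \ B')) (fun x hx => ⟨h1 hx, fun hx' => Set.disjoint_left.1 hd hx hx'⟩) (by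
    rw [Set.disjoint_left]
    intro x hx hxB
    by_cases hx' : x ∈ B'
    · exact Set.disjoint_left.1 h2 hx.1 hx'
    · exact hx.2 ⟨hxB, hx'⟩)
  have h4 := cr_diff G C (B \ B')
  omega

omit [Finite V] in
/-- the cut-rank in the graph without `Z` -/
theorem cr_rs {U C : Set V} (hC : C ⊆ U) : LK.cr (H1R.Rs G U) C = LK.rk G C (U \ C) := by
  unfold LK.cr LK.rk
  have h : LK.row (H1R.Rs G U) Cᶜ '' C = LK.row G (U \ C) '' C := by
    refine Set.image_congr fun x hx => ?_
    funext y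
    unfold LK.row
    by_cases h1 : y ∈ U \ C ∧ G.Adj x y
    · rw [if_pos h1, if_pos ⟨h1.1.2, h1.2, hC hx, h1.1.1⟩]
    · rw [if_neg h1, if_neg fun h2 => h1 ⟨⟨h2.2.2.2, h2.1⟩, h2.2.1⟩]
  rw [h]

/-- the vertices outside `U` do not matter -/
theorem cr_rs_inter {U C : Set V} : LK.cr (H1R.Rs G U) (C ∩ U) = LK.cr (H1R.Rs G U) C := by
  have key : LK.rk (H1R.Rs G U) C Cᶜ = LK.rk (H1R.Rs G U) (C ∩ U) (C ∩ U)ᶜ := by
    apply le_antisymm
    · have h1 : LK.rk (H1R.Rs G U) C Cᶜ ≤ LK.rk (H1R.Rs G U) (C ∩ U) Cᶜ + LK.rk (H1R.Rs G U) (C \ U) Cᶜ := by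
        have h2 := rk_un (H1R.Rs G U) (C ∩ U) (C \ U) Cᶜ
        rwa [Set.inter_union_sdiff] at h2
      have h3 : LK.rk (H1R.Rs G U) (C \ U) Cᶜ = 0 := by
        have h4 := (LK.a1 V (H1R.Rs G U)).2.2.2.2.2 (C \ U) Cᶜ ∅ fun a ha => Or.inr fun b _ hab => ha.2 hab.2.1
        rw [Set.ncard_empty] at h4
        exact Nat.le_zero.1 h4
      have h5 := rk_mono (A := C ∩ U) (A' := C ∩ U) (H1R.Rs G U) subset_rfl
        (Set.compl_subset_compl.2 (Set.inter_subset_left : C ∩ U ⊆ C))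
      omega
    · have h1 : (C ∩ U)ᶜ = Cᶜ ∪ (C \ U) := by
        ext x
        simp only [Set.mem_compl_iff, Set.mem_inter_iff, Set.mem_union, Set.mem_sdiff]
        tauto
      rw [h1]
      have h2 := rk_un' (H1R.Rs G U) (C ∩ U) Cᶜ (C \ U)
      have h3 : LK.rk (H1R.Rs G U) (C ∩ U) (C \ U) = 0 := by
        have h4 := (LK.a1 V (H1R.Rs G U)).2.2.2.2.2 (C ∩ U) (C \ U) ∅ fun a _ => Or.inr fun b hb hab =>
          hb.2 hab.2.2
        rw [Set.ncard_empty] at h4
        exact Nat.le_zero.1 h4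
      have h5 := rk_mono (B := Cᶜ) (B' := Cᶜ) (H1R.Rs G U) (Set.inter_subset_left : C ∩ U ⊆ C) subset_rfl
      omega
  exact key.symm

/-- **The step lemma.** -/
theorem step (hAZ : Disjoint A Z) (h : Kap G A Z n) : ∃ Z₁ : Set V, Disjoint Z₁ A ∧ Disjoint Z₁ Z ∧
    LK.rk G Z₁ Z = Z₁.ncard ∧ Kap (H1R.Rs G Zᶜ) A Z₁ Z₁.ncard ∧ n ≤ LK.rk G A Z + 2 * Z₁.ncard := by
  classical
  set H := H1R.Rs G Zᶜ with hH
  let P : Set V → Prop := fun Z₁ => Disjoint Z₁ A ∧ Disjoint Z₁ Z ∧ LK.rk G Z₁ Z = Z₁.ncard ∧ Kap H A Z₁ Z₁.ncard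
  obtain ⟨Z₁, hZ₁, hmax⟩ := (Set.toFinite {S : Set V | P S}).exists_maximal ⟨∅, Set.empty_disjoint _,
    Set.empty_disjoint _, by
      have h1 := rk_le_card G ∅ Z
      rw [Set.ncard_empty] at h1 ⊢
      exact Nat.le_zero.1 h1, fun C _ _ => by rw [Set.ncard_empty]; exact Nat.zero_le _⟩
  obtain ⟨d1, d2, r1, k1⟩ := hZ₁
  refine ⟨Z₁, d1, d2, r1, k1, ?_⟩
  set q := Z₁.ncard with hq
  -- the family of the tight sets
  let F : Set V → Prop := fun C => A ⊆ C ∧ Disjoint C Z₁ ∧ Disjoint C Z ∧ LK.cr H C ≤ q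
  have hF0 : F (Z ∪ Z₁)ᶜ := by
    refine ⟨fun x hx hx' => ?_, ?_, ?_, ?_⟩
    · rcases hx' with hx' | hx'
      · exact Set.disjoint_left.1 hAZ hx hx'
      · exact Set.disjoint_left.1 d1 hx' hx
    · exact Set.disjoint_left.2 fun x hx hx' => hx (Or.inr hx')
    · exact Set.disjoint_left.2 fun x hx hx' => hx (Or.inl hx')
    · rw [hH, cr_rs (U := Zᶜ) (C := (Z ∪ Z₁)ᶜ) (fun x hx hx' => hx (Or.inl hx')), rk_symm]
      refine (rk_le_card G _ _).trans (Set.ncard_le_ncard (fun x hx => ?_) (Set.toFinite _))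
      by_contra hx'
      exact hx.2 fun h' => by
        rcases h' with h' | h'
        · exact hx.1 h'
        · exact hx' h'
  have hFi : ∀ C C', F C → F C' → F (C ∩ C') := by
    rintro C C' ⟨a1, a2, a3, a4⟩ ⟨b1, b2, b3, b4⟩
    refine ⟨Set.subset_inter a1 b1, a2.mono_left Set.inter_subset_left, a3.mono_left Set.inter_subset_left, ?_⟩
    have h1 := k1 (C ∪ C') (a1.trans Set.subset_union_left) (Set.disjoint_union_left.2 ⟨a2, b2⟩)
    have h2 := cr_sub H C C'
    omega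
  obtain ⟨C, hC, hmin⟩ := (Set.toFinite {S : Set V | F S}).exists_minimal ⟨_, hF0⟩
  have hmin' : ∀ C', F C' → C ⊆ C' := fun C' hC' =>
    (hmin (hFi C C' hC hC') Set.inter_subset_left).trans Set.inter_subset_right
  obtain ⟨c1, c2, c3, c4⟩ := hC
  -- the vertices of `C` outside `A` are dependent
  have hdep : ∀ v ∈ C, v ∉ A → LK.row G Z v ∈ Submodule.span (ZMod 2) (LK.row G Z '' Z₁) := by
    intro v hv hvA
    by_contra hcon
    have hvZ : v ∉ Z := fun h' => Set.disjoint_left.1 c3 hv h'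
    have hvZ₁ : v ∉ Z₁ := fun h' => Set.disjoint_left.1 c2 hv h'
    have hcard : (insert v Z₁).ncard = q + 1 := Set.ncard_insert_of_notMem hvZ₁ (Set.toFinite _)
    have hP : P (insert v Z₁) := by
      refine ⟨?_, ?_, ?_, ?_⟩
      · rw [Set.disjoint_left]
        rintro x (rfl | hx) hx'
        · exact hvA hx'
        · exact Set.disjoint_left.1 d1 hx hx'
      · rw [Set.disjoint_left]
        rintro x (rfl | hx) hx'
        · exact hvZ hx'
        · exact Set.disjoint_left.1 d2 hx hx'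
      · rw [hcard]
        apply le_antisymm
        · exact (rk_le_card G _ _).trans hcard.le
        · have h1 : LK.rk G Z₁ Z < LK.rk G (insert v Z₁) Z := by
            unfold LK.rk
            refine Submodule.finrank_lt_finrank_of_lt (lt_of_le_of_ne
              (Submodule.span_mono (Set.image_mono (Set.subset_insert _ _))) fun h' => hcon ?_)
            rw [h']
            exact Submodule.subset_span ⟨v, Or.inl rfl, rfl⟩
          omega
      · rw [hcard]
        intro C' e1 e2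
        by_contra hcon'
        have e3 : F (C' ∩ Zᶜ) := by
          refine ⟨fun x hx => ⟨e1 hx, fun hx' => Set.disjoint_left.1 hAZ hx hx'⟩, ?_, ?_, ?_⟩
          · rw [Set.disjoint_left]
            exact fun x hx hx' => Set.disjoint_left.1 e2 hx.1 (Or.inr hx')
          · rw [Set.disjoint_left]
            exact fun x hx hx' => hx.2 hx'
          · rw [hH, cr_rs_inter, ← hH]
            omega
        exact Set.disjoint_left.1 e2 (hmin' _ e3 hv).1 (Or.inl rfl)
    have h2 := hmax hP (Set.subset_insert _ _)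
    exact hvZ₁ (h2 (Or.inl rfl))
  -- the rank of `C` and `Z`
  have hr : LK.rk G C Z ≤ LK.rk G A Z + q := by
    have h1 : LK.rk G C Z ≤ LK.rk G (A ∪ Z₁) Z := by
      unfold LK.rk
      refine Submodule.finrank_mono (Submodule.span_le.2 ?_)
      rintro _ ⟨v, hv, rfl⟩
      by_cases hvA : v ∈ A
      · exact Submodule.subset_span ⟨v, Or.inl hvA, rfl⟩
      · exact Submodule.span_mono (Set.image_mono Set.subset_union_right) (hdep v hv hvA)
    have h2 := rk_un G A Z₁ Z
    omega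
  have h1 := h C c1 c3
  have h2 : LK.cr G C ≤ LK.cr H C + LK.rk G C Z := by
    have h3 : LK.cr H C = LK.rk G C (Zᶜ \ C) := cr_rs fun x hx hx' => Set.disjoint_left.1 c3 hx hx'
    rw [h3]
    have h4 : Cᶜ ⊆ (Zᶜ \ C) ∪ Z := by
      intro x hx
      by_cases hxZ : x ∈ Z
      · exact Or.inr hxZ
      · exact Or.inl ⟨hxZ, hx⟩
    exact (rk_mono G subset_rfl h4).trans (rk_un' G C _ _)
  omega

end Pool.Agent.MPd439b2.RN
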