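import Pool.Agent.Lib.MP_d439b2_co.RN.HRX

/-!
# MP_d439b2_co, RN: tables for the cells and their mixers: definitions (helper32)

Rails (the format of `FT.HR`, `16` indices): rail `0` = the vertices `v`, rails `1, .., m` = the `K`-rails (letters of
the cells), then the mixers `w`, `u`, then possibly an outer rail `z`.  `HRZ`: in addition fixed vertices.
-/

set_option autoImplicit false

namespace Pool.Agent.MPd439b2.RN.Tb

open Pool.Agent.MPd439b2 Pool.Agent.MPd439b2.H1T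
open Pool.Agent.MPd439b2.BU
open Pool.Agent.MPd439b2.HC

variable {V : Type}

/-- homogeneous rails `x i` (`i < L`) of vertices and fixed vertices `z a` (`a < E`): `z a` and `x i k`: bit
`512 + 16 a + i`; `z a` and `z b` (`b < a`): bit `768 + 16 b + a` -/
structure HRZ (G : SimpleGraph V) (L E : ℕ) (x : ℕ → ℕ → V) (z : ℕ → V) (F : ℕ → Bool) : Prop where
  hr : FT.HR G L 16 x F
  nz : ∀ a < E, ∀ i < L, ∀ k < 16, z a ≠ x i k
  zn : ∀ a < E, ∀ b < a, z a ≠ z b
  rz : ∀ a < E, ∀ i < L, ∀ k < 16, (G.Adj (z a) (x i k) ↔ F (512 + 16 * a + i) = true)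
  zz : ∀ a < E, ∀ b < a, (G.Adj (z a) (z b) ↔ F (768 + 16 * b + a) = true)

theorem HRZ.toX {G : SimpleGraph V} {L E : ℕ} {x : ℕ → ℕ → V} {z : ℕ → V} {F : ℕ → Bool} (h : HRZ G L E x z F) :
    HRX G L E (fun i k => {x i k}) (fun a => {z a}) F where
  cx _ _ _ _ := Conn.singleton G _
  cz _ _ := Conn.singleton G _
  dis i hi j hj k hk l hl hkl := Set.disjoint_singleton.2 (h.hr.dis i hi j hj k hk l hl hkl)
  dz a ha i hi k hk := Set.disjoint_singleton.2 (h.nz a ha i hi k hk)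
  dzz a ha b hb := Set.disjoint_singleton.2 (h.zn a ha b hb)
  rel i hi j hj k l hkl hl := by rw [tch_single]; exact h.hr.rel i hi j hj k l hkl hl
  dg i hi j hj hij k hk := by rw [tch_single]; exact h.hr.dg i hi j hj hij k hk
  rz a ha i hi k hk := by rw [tch_single]; exact h.rz a ha i hi k hk
  zz a ha b hb := by rw [tch_single]; exact h.zz a ha b hb

theorem HRZ.of {G : SimpleGraph V} {L : ℕ} {x : ℕ → ℕ → V} {F : ℕ → Bool} (h : FT.HR G L 16 x F) :
    HRZ G L 0 x (fun _ => x 0 0) F :=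
  ⟨h, fun _ ha => absurd ha (Nat.not_lt_zero _), fun _ ha => absurd ha (Nat.not_lt_zero _),
    fun _ ha => absurd ha (Nat.not_lt_zero _), fun _ ha => absurd ha (Nat.not_lt_zero _)⟩

/-! ### predicates -/

/-- the cells: `v` (rail `0`) is a clique, complete to the later letters, anticomplete to the other ones; letters of
different cells are not adjacent -/
structure Kn (m : ℕ) (F : ℕ → Bool) : Prop where
  vv : F 0 = true
  va : ∀ a, 1 ≤ a → a ≤ m → F a = true
  av : ∀ a, 1 ≤ a → a ≤ m → F (16 * a) = false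
  vd : ∀ a, 1 ≤ a → a ≤ m → F (256 + a) = false
  kk : ∀ a b, 1 ≤ a → a ≤ m → 1 ≤ b → b ≤ m → F (16 * a + b) = false

/-- mixers: the rail `r` is a clique, complete to `v` and to the later cells; to the earlier cells it is complete
(`h = true`, thick) or anticomplete (`h = false`, half) -/
structure Mr (m r : ℕ) (h : Bool) (F : ℕ → Bool) : Prop where
  rr : F (17 * r) = true
  vr : F r = true
  rv : F (16 * r) = true
  vd : F (256 + r) = true
  ra : ∀ a, 1 ≤ a → a ≤ m → F (16 * r + a) = true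
  ar : ∀ a, 1 ≤ a → a ≤ m → F (16 * a + r) = h

/-- the rails `w < u` are complete to each other, the diagonal included -/
structure WU (w u : ℕ) (F : ℕ → Bool) : Prop where
  wu : F (16 * w + u) = true
  uw : F (16 * u + w) = true
  d : F (256 + 16 * w + u) = true

/-- the rail `z` and the letters: `z` before the letter: `al`, the letter before `z`: `be`, diagonal: `e` -/
structure ZK (m z : ℕ) (al be e : Bool) (F : ℕ → Bool) : Prop where
  za : ∀ a, 1 ≤ a → a ≤ m → F (16 * z + a) = al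
  az : ∀ a, 1 ≤ a → a ≤ m → F (16 * a + z) = be
  d : ∀ a, 1 ≤ a → a ≤ m → F (256 + 16 * a + z) = e

/-- **Form E** (`m = 2`; rails `v = 0, x = 1, y = 2, w = 3, u = 4`): `x - y`; `w` sees exactly one of `x`, `y`; `u` sees
exactly one of them -/
structure FmE (F : ℕ → Bool) : Prop where
  xy : F (256 + 16 * 1 + 2) = true
  w : F (256 + 16 * 1 + 3) = !F (256 + 16 * 2 + 3)
  u : F (256 + 16 * 1 + 4) = !F (256 + 16 * 2 + 4)

/-- **Form P** (`m = 3`; rails `v = 0, s = 1, c = 2, t = 3, w = 4, u = 5`): `s - c - t` induced path; `w` does not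
distinguish `c`, `t`, `u` does not distinguish `s`, `c`, both are mixed -/
structure FmP (F : ℕ → Bool) : Prop where
  sc : F (256 + 16 * 1 + 2) = true
  ct : F (256 + 16 * 2 + 3) = true
  st : F (256 + 16 * 1 + 3) = false
  wc : F (256 + 16 * 2 + 4) = !F (256 + 16 * 1 + 4)
  wt : F (256 + 16 * 3 + 4) = !F (256 + 16 * 1 + 4)
  us : F (256 + 16 * 1 + 5) = !F (256 + 16 * 3 + 5)
  uc : F (256 + 16 * 2 + 5) = !F (256 + 16 * 3 + 5)

/-- **Form D** (`m = 4`; rails `v = 0, x = 1, y = 2, x' = 3, y' = 4, w = 5, u = 6`): two edges `x - y`, `x' - y'`; `w`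
sees `x`, misses `y`; `u` sees `x'`, misses `y'` -/
structure FmD (F : ℕ → Bool) : Prop where
  xy : F (256 + 16 * 1 + 2) = true
  xy' : F (256 + 16 * 3 + 4) = true
  xw : F (256 + 16 * 1 + 5) = true
  yw : F (256 + 16 * 2 + 5) = false
  xu : F (256 + 16 * 3 + 6) = true
  yu : F (256 + 16 * 4 + 6) = false

/-! ### lists of known bits -/

/-- the bits `true`, `false` in a list of known bits -/
def pos (K : List (ℕ × Bool)) : List ℕ := (K.filter fun c => c.2).map fun c => c.1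
def neg (K : List (ℕ × Bool)) : List ℕ := (K.filter fun c => !c.2).map fun c => c.1

/-- the engine for a list of known bits -/
theorem refuteK {G : SimpleGraph V} (hH : FH G) (hJ : FJ 2 G) {L E : ℕ} {x : ℕ → ℕ → V} {z : ℕ → V}
    {F : ℕ → Bool} (h : HRZ G L E x z F) (K : List (ℕ × Bool)) (hK : ∀ c ∈ K, F c.1 = c.2)
    (s : List CertX × Tr) (hc : ckHX L E (pos K) (neg K) s.1 s.2 = true) : False := by
  refine refuteX hH hJ h.toX (pos K) (neg K) (fun b hb => ?_) (fun b hb => ?_) s.1 s.2 hc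
  · obtain ⟨c, hc, rfl⟩ := List.mem_map.1 hb
    rw [List.mem_filter] at hc
    rw [hK c hc.1, hc.2]
  · obtain ⟨c, hc, rfl⟩ := List.mem_map.1 hb
    rw [List.mem_filter, Bool.not_eq_true'] at hc
    rw [hK c hc.1, hc.2]

/-- the numbers `1, .., m` -/
def rg (m : ℕ) : List ℕ := (List.range m).map fun a => a + 1

theorem mem_rg {m a : ℕ} (h : a ∈ rg m) : 1 ≤ a ∧ a ≤ m := by
  obtain ⟨b, hb, rfl⟩ := List.mem_map.1 h
  rw [List.mem_range] at hb
  omega

def knK (m : ℕ) : List (ℕ × Bool) :=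
  (0, true) :: ((rg m).map (fun a => (a, true)) ++ (rg m).map (fun a => (16 * a, false)) ++
    (rg m).map (fun a => (256 + a, false)) ++ (rg m).flatMap fun a => (rg m).map fun b => (16 * a + b, false))

theorem Kn.mem {m : ℕ} {F : ℕ → Bool} (h : Kn m F) : ∀ c ∈ knK m, F c.1 = c.2 := by
  intro c hc
  simp only [knK, List.mem_cons, List.mem_append, List.mem_map, List.mem_flatMap] at hc
  rcases hc with rfl | ((⟨a, ha, rfl⟩ | ⟨a, ha, rfl⟩) | ⟨a, ha, rfl⟩) | ⟨a, ha, b, hb, rfl⟩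
  · exact h.vv
  · exact h.va a (mem_rg ha).1 (mem_rg ha).2
  · exact h.av a (mem_rg ha).1 (mem_rg ha).2
  · exact h.vd a (mem_rg ha).1 (mem_rg ha).2
  · exact h.kk a b (mem_rg ha).1 (mem_rg ha).2 (mem_rg hb).1 (mem_rg hb).2

def mrK (m r : ℕ) (h : Bool) : List (ℕ × Bool) :=
  (17 * r, true) :: (r, true) :: (16 * r, true) :: (256 + r, true) ::
    ((rg m).map (fun a => (16 * r + a, true)) ++ (rg m).map (fun a => (16 * a + r, h)))

theorem Mr.mem {m r : ℕ} {h : Bool} {F : ℕ → Bool} (hr : Mr m r h F) : ∀ c ∈ mrK m r h, F c.1 = c.2 := by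
  intro c hc
  simp only [mrK, List.mem_cons, List.mem_append, List.mem_map] at hc
  rcases hc with rfl | rfl | rfl | rfl | ⟨a, ha, rfl⟩ | ⟨a, ha, rfl⟩
  · exact hr.rr
  · exact hr.vr
  · exact hr.rv
  · exact hr.vd
  · exact hr.ra a (mem_rg ha).1 (mem_rg ha).2
  · exact hr.ar a (mem_rg ha).1 (mem_rg ha).2

def wuK (w u : ℕ) : List (ℕ × Bool) := [(16 * w + u, true), (16 * u + w, true), (256 + 16 * w + u, true)]

theorem WU.mem {w u : ℕ} {F : ℕ → Bool} (h : WU w u F) : ∀ c ∈ wuK w u, F c.1 = c.2 := by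
  intro c hc
  simp only [wuK, List.mem_cons, List.not_mem_nil, or_false] at hc
  rcases hc with rfl | rfl | rfl
  · exact h.wu
  · exact h.uw
  · exact h.d

def zkK (m z : ℕ) (al be e : Bool) : List (ℕ × Bool) :=
  (rg m).map (fun a => (16 * z + a, al)) ++ (rg m).map (fun a => (16 * a + z, be)) ++
    (rg m).map fun a => (256 + 16 * a + z, e)

theorem ZK.mem {m z : ℕ} {al be e : Bool} {F : ℕ → Bool} (h : ZK m z al be e F) :
    ∀ c ∈ zkK m z al be e, F c.1 = c.2 := by
  intro c hc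
  simp only [zkK, List.mem_append, List.mem_map] at hc
  rcases hc with (⟨a, ha, rfl⟩ | ⟨a, ha, rfl⟩) | ⟨a, ha, rfl⟩
  · exact h.za a (mem_rg ha).1 (mem_rg ha).2
  · exact h.az a (mem_rg ha).1 (mem_rg ha).2
  · exact h.d a (mem_rg ha).1 (mem_rg ha).2

/-- form E, `b`: the bit of `x`, `w`, `a`: the bit of `x`, `u` -/
def feK (b a : Bool) : List (ℕ × Bool) :=
  [(256 + 16 * 1 + 2, true), (256 + 16 * 1 + 3, b), (256 + 16 * 2 + 3, !b), (256 + 16 * 1 + 4, a),
    (256 + 16 * 2 + 4, !a)]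

theorem FmE.mem {F : ℕ → Bool} (h : FmE F) : ∃ b a : Bool, ∀ c ∈ feK b a, F c.1 = c.2 := by
  refine ⟨F (256 + 16 * 1 + 3), F (256 + 16 * 1 + 4), fun c hc => ?_⟩
  simp only [feK, List.mem_cons, List.not_mem_nil, or_false] at hc
  rcases hc with rfl | rfl | rfl | rfl | rfl
  · exact h.xy
  · rfl
  · show F (256 + 16 * 2 + 3) = !F (256 + 16 * 1 + 3)
    rw [h.w, Bool.not_not]
  · rfl
  · show F (256 + 16 * 2 + 4) = !F (256 + 16 * 1 + 4)
    rw [h.u, Bool.not_not]

/-- form P, `a`: the bit of `s`, `w`; `b`: the bit of `s`, `u` -/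
def fpK (a b : Bool) : List (ℕ × Bool) :=
  [(256 + 16 * 1 + 2, true), (256 + 16 * 2 + 3, true), (256 + 16 * 1 + 3, false), (256 + 16 * 1 + 4, a),
    (256 + 16 * 2 + 4, !a), (256 + 16 * 3 + 4, !a), (256 + 16 * 1 + 5, b), (256 + 16 * 2 + 5, b),
    (256 + 16 * 3 + 5, !b)]

theorem FmP.mem {F : ℕ → Bool} (h : FmP F) : ∃ a b : Bool, ∀ c ∈ fpK a b, F c.1 = c.2 := by
  refine ⟨F (256 + 16 * 1 + 4), F (256 + 16 * 1 + 5), fun c hc => ?_⟩
  simp only [fpK, List.mem_cons, List.not_mem_nil, or_false] at hc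
  rcases hc with rfl | rfl | rfl | rfl | rfl | rfl | rfl | rfl | rfl
  · exact h.sc
  · exact h.ct
  · exact h.st
  · rfl
  · exact h.wc
  · exact h.wt
  · rfl
  · show F (256 + 16 * 2 + 5) = F (256 + 16 * 1 + 5)
    rw [h.uc, h.us]
  · show F (256 + 16 * 3 + 5) = !F (256 + 16 * 1 + 5)
    rw [h.us, Bool.not_not]

def fdK : List (ℕ × Bool) :=
  [(256 + 16 * 1 + 2, true), (256 + 16 * 3 + 4, true), (256 + 16 * 1 + 5, true), (256 + 16 * 2 + 5, false),
    (256 + 16 * 3 + 6, true), (256 + 16 * 4 + 6, false)]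

theorem FmD.mem {F : ℕ → Bool} (h : FmD F) : ∀ c ∈ fdK, F c.1 = c.2 := by
  intro c hc
  simp only [fdK, List.mem_cons, List.not_mem_nil, or_false] at hc
  rcases hc with rfl | rfl | rfl | rfl | rfl | rfl
  · exact h.xy
  · exact h.xy'
  · exact h.xw
  · exact h.yw
  · exact h.xu
  · exact h.yu

theorem mem_app {F : ℕ → Bool} {K K' : List (ℕ × Bool)} (h : ∀ c ∈ K, F c.1 = c.2)
    (h' : ∀ c ∈ K', F c.1 = c.2) : ∀ c ∈ K ++ K', F c.1 = c.2 := by
  intro c hc
  rcases List.mem_append.1 hc with hc | hc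
  · exact h c hc
  · exact h' c hc

theorem mem_cs {F : ℕ → Bool} {b : ℕ} {v : Bool} {K : List (ℕ × Bool)} (h : F b = v)
    (h' : ∀ c ∈ K, F c.1 = c.2) : ∀ c ∈ (b, v) :: K, F c.1 = c.2 := by
  intro c hc
  rcases List.mem_cons.1 hc with rfl | hc
  · exact h
  · exact h' c hc

theorem mem_nl {F : ℕ → Bool} : ∀ c ∈ ([] : List (ℕ × Bool)), F c.1 = c.2 :=
  fun _ hc => absurd hc (List.not_mem_nil)

/-- the entry of a list of certificates which belongs to a list of parameters -/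
def sel (T : List (List CertX × Tr)) (bs : List Bool) : List CertX × Tr :=
  T.getD (bs.foldl (fun n b => 2 * n + bif b then 1 else 0) 0) ([], Tr.lf 0)

end Pool.Agent.MPd439b2.RN.Tb
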